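import Pool.Agent.Lib.MP_d439b2_co.KS.All
import Pool.Agent.Lib.MP_d439b2_co.B.Fin1
import Pool.Agent.Lib.MP_d439b2_co.B.LayU
import Pool.Agent.Lib.MP_d439b2_co.LayCW

/-!
# MP_d439b2_co, Theorem K: assembly
-/

set_option autoImplicit false

namespace Pool.Agent.MPd439b2.KS

theorem kU6 : S_U6 := u6 (u2 (u2a u0) u2b) (u3 u1 dig dDd) (u4 dDd) (u5 ram)

theorem kU9 : S_U9 := u9 kU6 (u8 (u7 u1 dDd dig) ram)

theorem kV3 : S_V3 := v3 v2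

theorem kV6 : S_V6 := v6 kV3 (v4 u0) (v5 v5a dig dDd)

theorem kV8 : S_V8 := v8 (v7 kV3) kU6 dig dDd

theorem kP7 : S_P7 := p7 (p4 p1 p2 p3) p5 (p6 p6a p6b p6c)

theorem kV10 : S_V10 := v10 kP7 kV8 (v9 (v9a ram dDd) (v9b ram dDd) ram) ram

theorem kX9 : S_X9 := x9 gkFinal kU9
  (pX9b (x4 x3) x6 (x7 v1 x5) (x8 x8a) xL)
  (x9c kV6 kV8 kV10 (x1 kV3 dig dDd) x2)

theorem kY7 : S_Y7 := pY7 kX9 (pY5 (pY4 pY0 (pY3 (pY2 pY1)) layU)) pY6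

/-- Theorem K with a grid as third excluded graph. -/
theorem theoremK : S_Z1 := pZ1 kY7 pY8 z0

/-- Theorem K for pairs. -/
theorem theoremKpairs : S_Z2 := pZ2 theoremK layCW

end Pool.Agent.MPd439b2.KS
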