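import Pool.Agent.Lib.MP_d439b2_co.KS.SpecY

/-!
# MP_d439b2_co, Theorem K, Spec Z: the flexible form of Theorem K

Every `S_...` is a statement to be proved in its own file; the docstring contains the complete
proof.
-/

set_option autoImplicit false

namespace Pool.Agent.MPd439b2.KS

/-- **Z0.** Enlarging the excluded graphs (as `S_Y9a`, with two graphs).

Proof. `N = max N₁ (max N₂ (2 m)) + 3`, `m = max m₁ m₂`.  `DD N₁ m₁` is an induced subgraph of `DD N m`
(`Fin.castLE` on both parts), so an induced minor (branch sets: singletons), and induced minors are transitive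
(`imsTrans` with `ims_univ_iff`).  `r' i = r i` for `i < N₂` and `r' i = m` for `i ≥ N₂`, the same for `l'`:
`TCg N₂ m₂ r l` is an induced subgraph of `TCg N m r' l'` (`Fin.castLE`).  The vertex `inl N₂` of `TCg N m r' l'` is
adjacent to all other vertices (`a < m = r' N₂`), so every vertex has a neighbour (`inl N₂` itself has the
neighbour `inl (N₂ + 1)`).  (Compare `KS/Y9a.lean`.) -/
def S_Z0 : Prop := ∀ (W₁ W₂ : Type) (H₁ : SimpleGraph W₁) (H₂ : SimpleGraph W₂) (N₁ m₁ N₂ m₂ : ℕ)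
  (r l : Fin N₂ → ℕ), IsIndMinor H₁ (DD N₁ m₁) → IsIndMinor H₂ (TCg N₂ m₂ r l) →
    ∃ (N m : ℕ) (r' l' : Fin N → ℕ), 2 ≤ N ∧ 2 * m ≤ N ∧ IsIndMinor H₁ (DD N m) ∧
      IsIndMinor H₂ (TCg N m r' l') ∧ ∀ w, ∃ w', (TCg N m r' l').Adj w w'

/-- **Z1.** Theorem K with a grid as third excluded graph.  (Uses `S_Y7`, `S_Y8`, `S_Z0`.)

Proof. Let `c` be the bound for `(H0, J)`.  For all `j' ≤ j`, `s' ≤ s` and all `g` let `C j' s' g` be the
statement with `j', s', g` instead of `j, s, g`.  Induction on `j' + s'` (for `j' ≤ j`, `s' ≤ s`).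
FACTS (compare the docstring of `S_Y9`). (a) `IsIndMinor (KJn (s-1) J) (KJn s J)`,
`IsIndMinor J (KJn s J)` (induced subgraphs).  (b) If `IMS (KJn (s-1) J) Γ univ` then
`IMS (KJn s J) (cone Γ) univ` (for `s = 0` use (a) and that `Γ` is an induced subgraph of `cone Γ`; for
`s = s₁ + 1` the new vertex `Fin.last s₁` is represented by `{none}`, the others by `some '' B`); so, if
`IMS (cone Γ) G univ` and `¬ IMS (KJn s J) G univ`, then `¬ IMS (KJn (s - 1) J) Γ univ` (`imsTrans`).  (c) `KJn 0 J` and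
`J` are induced minors of each other.  (d) If `IMS (cone Γ) G univ` and `¬ IMS (grid g) G univ` then
`¬ IMS (grid g) Γ univ`.  (e) `CoBip J → CoBip (KJn s J) → CoBip (cone (cone (KJn s J)))`, and every vertex of
`cone (cone (KJn s J))` has a neighbour.  (f) For `j' ≤ j`, `s' ≤ s` the graph `KJn j' H0` is an induced minor of
`DD N₁ m₁`, and `KJn j' H0` or `KJn s' J` is an induced minor of `TCg N₂ m₂ r l` (transitivity); Z0 gives
`N, m, r', l'`.
`j' + s' = 0`: a nonempty `G` without `KJn 0 H0`, `KJn 0 J` has `CWLe c G` by (c), so `Lay G c univ` by Y8; for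
empty `V` `Lay.empty`.
`j' + s' > 0`: by induction `C (j' - 1) (s' - 1) g` gives `k'` (`j' - 1 + (s' - 1) < j' + s'`; natural
subtraction).  Y7 with `N, m, r', l'`, `Y = cone (cone (KJn s' J))`, `g + 2`, `k'` gives `k`.  Let `G` be a finite
graph without the three graphs: `ClK N m r' l' Y (g + 2) k' G`: `DD N m` and `TCg` contain `KJn j' H0` (or `TCg` contains `KJn s' J`), `Y` contains
`KJn s' J` and `grid (g + 2)` contains `grid g` (transitivity); a graph `Γ` with `IMS (cone Γ) G univ` contains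
neither `KJn (j' - 1) H0` nor `KJn (s' - 1) J` nor `grid g` by (b), (d). -/
def S_Z1 : Prop := ∀ (j s : ℕ) (W₀ W₁ : Type) [Finite W₀] [Finite W₁] (H0 : SimpleGraph W₀)
  (J : SimpleGraph W₁), (∃ N m : ℕ, IsIndMinor (KJn j H0) (DD N m)) →
    (∃ (N m : ℕ) (r l : Fin N → ℕ), IsIndMinor (KJn j H0) (TCg N m r l) ∨
      IsIndMinor (KJn s J) (TCg N m r l)) → CoBip J →
    BoundedCW H0 J → ∀ g : ℕ, ∃ k : ℕ, ∀ (V : Type) [Finite V] (G : SimpleGraph V),
      ¬ IMS (KJn j H0) G Set.univ → ¬ IMS (KJn s J) G Set.univ → ¬ IMS (grid g) G Set.univ →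
        Lay G k Set.univ

/-- **Z2.** Theorem K for pairs, flexible form.  (Uses `S_Z1`, `S_LayCW` (proved: `LayCW.lean`).)

Proof. Let `H` or `H'` be an induced minor of `grid g`.  Z1 gives `k`.  A nonempty finite graph `G` without `H`
and `H'` contains none of `KJn j H0`, `KJn s J`, `grid g` (`imsTrans`, `ims_univ_iff`), so `Lay G k univ`, and
`CWLe` by `S_LayCW`. -/
def S_Z2 : Prop := ∀ (j s : ℕ) (W W' W₀ W₁ : Type) [Finite W₀] [Finite W₁] (H : SimpleGraph W)
  (H' : SimpleGraph W') (H0 : SimpleGraph W₀) (J : SimpleGraph W₁),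
    (∃ N m : ℕ, IsIndMinor (KJn j H0) (DD N m)) →
    (∃ (N m : ℕ) (r l : Fin N → ℕ), IsIndMinor (KJn j H0) (TCg N m r l) ∨
      IsIndMinor (KJn s J) (TCg N m r l)) → CoBip J →
    IsIndMinor H (KJn j H0) → IsIndMinor H' (KJn s J) → (InGrid H ∨ InGrid H') →
    BoundedCW H0 J → BoundedCW H H'

end Pool.Agent.MPd439b2.KS
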