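import Pool.Agent.Lib.MP_d439b2_co.KS.SpecX
import Pool.Agent.Lib.MP_d439b2_co.B.SpecR

/-!
# MP_d439b2_co, Theorem K, Spec Y: substitution in layouts, the recursion, and the final theorem

Every `S_...` is a statement to be proved in its own file; the docstring contains the complete
proof.  Toolkit: `Basic.lean` (`Conn`, `Tch`, `nb`, `exists_comp`, `Lay.insert`, `types_encard_le`, ...).
-/

set_option autoImplicit false

namespace Pool.Agent.MPd439b2.KS

/-! ## Substitution -/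

/-- the part of `U` over the index `i` -/
def fib {V ι : Type} (U : Set V) (π : V → ι) (i : ι) : Set V := {u | u ∈ U ∧ π u = i}

/-- the part of `U` over the set `X` of indices -/
def pre {V ι : Type} (U : Set V) (π : V → ι) (X : Set ι) : Set V := {u | u ∈ U ∧ π u ∈ X}

/-- Substitution data.  The set `U` (all neighbours in the exceptional set `E`) is divided into the
fibres of `π`; `Γ` contains the quotient graph.  A fibre with index in `I₁` is one vertex `a i` together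
with a set which has no neighbours except `a i` and elements of `E`; between these main vertices `Γ` is
exact.  Any other index has at most `κ` neighbours in `Γ`, and the fibre consists of at most `κ` vertices
`R` and a set with at most `κ` neighbours outside `E`. -/
structure SubD {V ι : Type} (G : SimpleGraph V) (U E : Set V) (π : V → ι) (Γ : SimpleGraph ι)
    (I₁ : Set ι) (a : ι → V) (κ : ℕ) : Prop where
  disj : Disjoint U E
  nbU : nb G U ⊆ E
  adj : ∀ u ∈ U, ∀ v ∈ U, π u ≠ π v → G.Adj u v → Γ.Adj (π u) (π v)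
  one : ∀ i ∈ I₁, a i ∈ U ∧ π (a i) = i ∧ nb G (fib U π i \ {a i}) ⊆ insert (a i) E
  main : ∀ i ∈ I₁, ∀ j ∈ I₁, Γ.Adj i j → G.Adj (a i) (a j)
  two : ∀ i, i ∉ I₁ → (nb Γ {i}).ncard ≤ κ ∧ ∃ R ⊆ fib U π i, R.ncard ≤ κ ∧
    (nb G (fib U π i \ R) \ E).ncard ≤ κ

/-- **Y1.** The traces of all vertices over the indices of one type.

Proof. Let `x ∈ U`, `i = π x ∈ X`, `t = Γ.neighborSet i \ X`, and
`τ x = (G.neighborSet x \ pre U π X) \ E`.  `τ x ⊆ U` (a neighbour of `x` outside `U` is in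
`nb G U ⊆ E`), and every `y ∈ τ x` has `π y ∉ X`, so `π y ≠ i`, `Γ.Adj i (π y)` (`adj`), `π y ∈ t`.
FACT 1. If `i ∈ I₁` and `x ≠ a i` then `τ x = ∅`: `y ∈ τ x` is not in the fibre of `i`, so
`y ∈ nb G (fib U π i \ {a i}) ⊆ insert (a i) E`; `y ∉ E` and `y ≠ a i` as `π (a i) = i`.
FACT 2. If `i ∉ I₁`, `R` as in `two`, `x ∉ R`, then `τ x ⊆ nb G (fib U π i \ R) \ E`.
CASE A: some `j ∈ t` is not in `I₁`.  All `i` of the class are in `nb Γ {j}` (`j ∉ X ∋ i`), at most `κ`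
indices.  For one `i`: if `i ∈ I₁` then `τ x ∈ {∅, τ (a i)}`; otherwise `τ x` is one of the at most `κ` sets
`τ x'`, `x' ∈ R`, or a subset of a set with at most `κ` elements.  Together at most
`κ (κ + 2 ^ κ + 2)` sets.
CASE B: `t ⊆ I₁`.  Then `τ x ⊆ a '' t`: let `y ∈ τ x`, `j = π y ∈ t`; if `y ≠ a j` then
`x ∈ nb G (fib U π j \ {a j}) ⊆ insert (a j) E`, but `π x = i ≠ j` and `x ∈ U`, contradiction.  If `i ∈ I₁`
and `x = a i` then `τ x = a '' t` (`main`: for `j ∈ t`, `a i ~ a j`, `a j ∈ U`, `π (a j) = j ∉ X`); if `i ∈ I₁`,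
`x ≠ a i` then `τ x = ∅`.  If some `i ∉ I₁` is in the class then `t ⊆ nb Γ {i}` has at most `κ` elements and
`τ x` is one of the at most `2 ^ κ` subsets of `a '' t`.  Together at most `2 ^ κ + 2` sets.
`M = κ (κ + 2 ^ κ + 2) + 2 ^ κ + 2`. -/
def S_Y1 : Prop := ∀ κ : ℕ, ∃ M : ℕ, ∀ (V ι : Type) [Finite V] [Finite ι] (G : SimpleGraph V)
  (U E : Set V) (π : V → ι) (Γ : SimpleGraph ι) (I₁ : Set ι) (a : ι → V) (X t : Set ι),
    SubD G U E π Γ I₁ a κ → t.Nonempty →
    ∃ 𝒮 : Set (Set V), 𝒮.encard ≤ M ∧ ∀ x ∈ pre U π X, Γ.neighborSet (π x) \ X = t →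
      (G.neighborSet x \ pre U π X) \ E ∈ 𝒮

/-- **Y2.** The number of types.  (Uses `S_Y1`.)

Proof. `k₀ = 2 ^ e (k' M + 1)`.  For every `t ∈ Types Γ X` let `𝒮 t` be the family of Y1, and
`𝒰 = {∅} ∪ ⋃_{t ∈ Types Γ X} 𝒮 t`, at most `1 + k' M` sets.  For `x ∈ pre U π X` let
`N = G.neighborSet x \ pre U π X`; `N = (N ∩ E) ∪ (N \ E)`, `N ∩ E` is one of the at most `2 ^ e` subsets of `E`,
and `N \ E ∈ 𝒰`: if it is not empty it contains some `y`; `y ∈ U` (as `nb G U ⊆ E`), so `π y ∉ X`,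
`π y ≠ π x`, `Γ.Adj (π x) (π y)`, so `t = Γ.neighborSet (π x) \ X` is nonempty, in `Types Γ X`, and
`N \ E ∈ 𝒮 t`.  So `Types G (pre U π X)` is inside the image of `powerset E × 𝒰` under the union. -/
def S_Y2 : Prop := ∀ κ k' e : ℕ, ∃ k₀ : ℕ, ∀ (V ι : Type) [Finite V] [Finite ι]
  (G : SimpleGraph V) (U E : Set V) (π : V → ι) (Γ : SimpleGraph ι) (I₁ : Set ι) (a : ι → V)
  (X : Set ι), SubD G U E π Γ I₁ a κ → E.ncard ≤ e → (Types Γ X).encard ≤ k' →
    (Types G (pre U π X)).encard ≤ k₀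

/-- **Y3.** Substitution in a layout.  (Uses `S_Y2`.)

Proof. `k₀` of Y2.  Prove `Lay Γ k' X → Lay G k (pre U π X)` by induction on `Lay`: `pre U π ∅ = ∅`;
`pre U π {i} = fib U π i`; `pre U π (A ∪ B) = pre U π A ∪ pre U π B`, disjoint, with at most
`k₀ ≤ k` types by Y2 for `X = A ∪ B`.  Finally `pre U π univ = U`. -/
def S_Y3 : Prop := ∀ κ k' e : ℕ, ∃ k₀ : ℕ, ∀ k : ℕ, k₀ ≤ k → ∀ (V ι : Type) [Finite V] [Finite ι]
  (G : SimpleGraph V) (U E : Set V) (π : V → ι) (Γ : SimpleGraph ι) (I₁ : Set ι) (a : ι → V),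
    SubD G U E π Γ I₁ a κ → E.ncard ≤ e → Lay Γ k' Set.univ → (∀ i, Lay G k (fib U π i)) →
    Lay G k U

/-- **Y0.** Layouts of restricted graphs.

Proof. Induction on `Lay`.  The traces of the vertices of `A` in `restr G X`: `∅` for a vertex outside `X`,
otherwise `(G.neighborSet v \ A) ∩ X`.  So the nonempty ones are in the image of `Types G A` under
`T ↦ T ∩ X`.  (For `single` use `Lay.single` with the same estimate or `types_singleton`.) -/
def S_Y0 : Prop := ∀ (V : Type) (G : SimpleGraph V) (k : ℕ) (X A : Set V), Lay G k A →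
  Lay (restr G X) k A

/-! ## The recursion -/

/-- **Y4.** The recursion step: layouts from the quotient structure.  (Uses `S_Y0`, `S_Y3`, `S_LayU`.)

Proof. Let `X = U ∪ S`, `G' = restr G X`, and `T, ι, part, Γ` the data of `QuoS`.  `E = S ∪ T`
(`|E| ≤ q + τ`), `U' = U \ T`.  `nb G U' ⊆ E`.
(1) If `Lay G k U'` then `Lay G k U`: add the elements of `U ∩ T` one after the other (`Lay.insert`); the
sets `U' ∪ T'`, `T' ⊆ U ∩ T`, have all their neighbours in `E`: at most `2 ^ (q + τ)` types.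
(2) If `U' = ∅` this is all.  Otherwise `ι` is nonempty; for `v ∉ T` let `π v` be the index with
`v ∈ part (π v)` (arbitrary for `v ∈ T`).  `fib U' π i = part i ∩ U`.  `I₁` = the `i` with `part i = {v}` for
some `v ∈ U'`, `a i = v`.  `Γ₁ = restr Γ {i | ¬ ∃ v, v ∉ U' ∧ part i = {v}}`: `Lay Γ₁ k₁ univ` by Y0.
`SubD G U' E π Γ₁ I₁ a τ`: `adj`: `u, v ∈ U' ⊆ X` adjacent, so adjacent in `G'`, `part (π u)` touches
`part (π v)`, so `Γ.Adj`; `part (π u)` contains `u ∈ U'`, so it is not a singleton outside `U'`.  `one`: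
`fib U' π i = {a i}`, and `nb G ∅ = ∅`.  `main`: clear.  `two`: if `part i = {v}` with `v ∉ U'` then `i` is
isolated in `Γ₁` and the fibre is empty, `R = ∅`.  Otherwise (`i ∉ I₁`) the second alternative of `QuoS`
holds: `nb Γ₁ {i} ⊆ nb Γ {i}`; with the `R` of `QuoS` take `R' = R ∩ U`; if `y ∉ E` is in
`nb G (fib U' π i \ R')` then `y ∈ U` (neighbours of `U` are in `U ∪ S`), `y ∈ U'`, and `y ∉ part i \ R`
(otherwise it would be in `fib U' π i \ R'`), so `y ∈ nb G' (part i \ R)`.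
(3) The fibres have layouts.  `i ∈ I₁`: `Lay.single'`.  Empty fibre: `Lay.empty`.  Otherwise let
`P = part i \ R`, `E' = E ∪ nb G' P` (`|E'| ≤ q + 2 τ`).  `U ∩ P` is the union of the sets `U ∩ D` over the
components `D` of `G'[P]` (`exists_comp`); `nb G' D ⊆ nb G' P`, so by the hypothesis `Lay G k (U ∩ D)`;
`nb G (U ∩ D) ⊆ E'` (a neighbour `y ∉ U ∩ D` of `u ∈ U ∩ D` is in `X`; if `y ∉ S` then `y ∈ U`, so `y ∉ D`,
`y ∈ nb G' D`).  `S_LayU` with `E'` (`2 ^ (q + 2 τ) ≤ k`; different components are disjoint) gives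
`Lay G k (U ∩ P)`.  Add the at most `τ` elements of `U ∩ R` one after the other: a set `(U ∩ P) ∪ R''` has at
most `2 ^ (q + 2 τ) + τ ≤ k` types, because `nb G (U ∩ P) ⊆ E'` and `|R''| ≤ τ`.
Y3 (`κ = τ`, `k' = k₁`, `e = q + τ`) gives `Lay G k U'`. -/
def S_Y4 : Prop := ∀ q τ k₁ : ℕ, ∃ k₀ : ℕ, ∀ k : ℕ, k₀ ≤ k → ∀ (V : Type) [Finite V]
  (G : SimpleGraph V) (U S : Set V), Disjoint U S → nb G U ⊆ S → S.ncard ≤ q →
    QuoS (restr G (U ∪ S)) S τ k₁ →
    (∀ D, Conn (restr G (U ∪ S)) D → (nb (restr G (U ∪ S)) D).ncard ≤ τ →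
      2 * (S ∩ D).ncard ≤ S.ncard → Lay G k (U ∩ D)) → Lay G k U

/-- **Y5.** The recursion, for a class `𝒞` of graphs closed under restriction.  (Uses `S_Y4`.)

Proof. (As `S_Rec`.)  `q = 5 θ + 2 τ + 3`, `k = k₀ + 2 ^ (q + θ + τ + 2)` with `k₀` from Y4 for
`q, τ, k₁`.  CLAIM: for all `n` and all `U`, `S` with `|U| = n`, `Disjoint U S`, `nb G U ⊆ S`, `|S| ≤ q`:
`Lay G k U`.  (The theorem is the case `U = univ`, `S = ∅`.)  Strong induction on `n`; `U = ∅` is trivial,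
let `n ≥ 1`.
(M) If `U'`, `S'` satisfy the hypotheses, `|U'| ≤ n` and `|S'| < q` then `Lay G k U'`: trivial if `U' = ∅`;
otherwise take `v ∈ U'`; the induction applies to `U' \ {v}`, `insert v S'`, then `Lay.insert` with
`types_encard_le` (`nb G U' ⊆ S'`).
So let `|S| = q` (otherwise (M) for `U`, `S` itself), `X = U ∪ S`, `G' = restr G X`.
CASE 1: `¬ WL G' S θ`: as in `S_Rec` (see `B/Rec.lean`).  There are `P, Z, R` with `|Z| ≤ θ`, no `G'`-edges
between `P` and `R`, `|S ∩ P| > |Z|`, `|S ∩ R| > |Z|`.  Put `U₁ = U ∩ P`, `S₁ = (S ∩ P) ∪ (Z ∩ X)`: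
`nb G U₁ ⊆ S₁`, `|S₁| < |S ∩ P| + |S ∩ R| ≤ q`.  By (M) `Lay G k U₁`; the same for `U₂ = U ∩ R`.
`U = U₁ ∪ U₂ ∪ (U ∩ Z)`; all sets `U₁ ∪ U₂ ∪ Z'`, `Z' ⊆ U ∩ Z` have `nb ⊆ S ∪ Z`, so at most `2 ^ (q + θ)`
types: `Lay.union`, then `Lay.insert` repeatedly.
CASE 2: `WL G' S θ`.  `|S| = q ≥ 5 θ` and `𝒞 V G'`, so `QuoS G' S τ k₁`.  Y4: let `D` be connected in `G'`,
`|nb G' D| ≤ τ`, `2 |S ∩ D| ≤ |S|`.  (M) applies to `U ∩ D`, `S' = (S ∩ D) ∪ nb G' D`: `nb G (U ∩ D) ⊆ S'`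
(a neighbour `v ∉ U ∩ D` of `u ∈ U ∩ D` is in `X`; if `v ∈ D` then `v ∈ S ∩ D`, otherwise `v ∈ nb G' D`),
`2 |S'| ≤ q + 2 τ < 2 q`, `Disjoint (U ∩ D) S'`. -/
def S_Y5 : Prop := ∀ (𝒞 : (V : Type) → SimpleGraph V → Prop),
  (∀ (V : Type) (G : SimpleGraph V) (X : Set V), 𝒞 V G → 𝒞 V (restr G X)) → ∀ θ τ k₁ : ℕ,
    (∀ (V : Type) [Finite V] (G : SimpleGraph V) (S : Set V), 𝒞 V G → WL G S θ →
      5 * θ ≤ S.ncard → QuoS G S τ k₁) →
    ∃ k : ℕ, ∀ (V : Type) [Finite V] (G : SimpleGraph V), 𝒞 V G → Lay G k Set.univ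

/-! ## The final theorem -/

/-- **Y6.** The class `ClK` is closed under restriction.  (Uses `S_Restr`.)

Proof. The contrapositive for the four excluded graphs: `S_Restr`; every vertex of `DD N m` has a neighbour
(`2 ≤ N`; `inr q` is adjacent to `inl (2 q)`, `2 q < 2 m ≤ N`), the same for `grid g`, `2 ≤ g`, and for the
other two by hypothesis.  Let `IMS (cone Γ) (restr G X) univ`.  If the vertex set of `Γ` is empty then
`Set.univ = ∅` and `Lay.empty`.  Otherwise every vertex of `cone Γ` has a neighbour (`none` or `some u`), so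
`IMS (cone Γ) G univ` and `Lay Γ k' univ`. -/
def S_Y6 : Prop := ∀ (N m : ℕ) (r l : Fin N → ℕ) (W : Type) (Y : SimpleGraph W) (g k' : ℕ),
  2 ≤ N → 2 * m ≤ N → 2 ≤ g → (∀ w, ∃ w', (TCg N m r l).Adj w w') → (∀ w, ∃ w', Y.Adj w w') →
  ∀ (V : Type) (G : SimpleGraph V) (X : Set V), ClK N m r l Y g k' G →
    ClK N m r l Y g k' (restr G X)

/-- **Y7.** Theorem K, general form.  (Uses `S_X9`, `S_Y5`, `S_Y6`.)

Proof. X9 gives `θ, τ, k₁`; Y5 for `𝒞 V G = ClK N m r l Y g k' G`. -/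
def S_Y7 : Prop := ∀ (N m : ℕ) (r l : Fin N → ℕ) (W : Type) [Finite W] (Y : SimpleGraph W)
  (g k' : ℕ), CoBip Y → 2 ≤ N → 2 * m ≤ N → 2 ≤ g → (∀ w, ∃ w', (TCg N m r l).Adj w w') →
  (∀ w, ∃ w', Y.Adj w w') → ∃ k : ℕ, ∀ (V : Type) [Finite V] (G : SimpleGraph V),
    ClK N m r l Y g k' G → Lay G k Set.univ

/-- **Y8.** A graph of clique-width at most `k` has a layout of width `k`.

Proof. CLAIM, by induction on the expression `e : Expr k`: for every injective `ψ : e.V → V` and every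
`J : Fin k → Fin k → Prop` such that (1) `G.Adj (ψ u) (ψ v) ↔ e.Rel u v ∨ J (e.label u) (e.label v)` for all
`u, v`, and (2) `e.label u = e.label u' → w ∉ range ψ → (G.Adj (ψ u) w ↔ G.Adj (ψ u') w)`, the set `range ψ` has
a layout of width `k`.  In all cases `(Types G (range ψ)).encard ≤ k` by (2): the trace
`G.neighborSet (ψ u) \ range ψ` depends only on `e.label u`, so the types are inside the image of
`Fin k` under a function.  `vertex`: `range ψ` is a singleton.  `union a b`: `ψ ∘ Sum.inl` and `J` satisfy (1) and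
(2) for `a`: a vertex `w` outside `range (ψ ∘ Sum.inl)` is outside `range ψ`, or `w = ψ (inr v)` and
`G.Adj (ψ (inl u)) w ↔ J (a.label u) (b.label v)`; the same for `b`; `range ψ` is the disjoint union of the
two ranges: `Lay.union`.  `join i j h a`: `J' x y = J x y ∨ (x = i ∧ y = j) ∨ (x = j ∧ y = i)`.
`relabel i j a`: `J' x y = J (ρ x) (ρ y)`, `ρ x = if x = i then j else x`.
For `CWLe k G` with `e, φ`: the claim for `ψ = φ.symm`, `J = False`; `range ψ = univ`. -/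
def S_Y8 : Prop := ∀ (V : Type) (G : SimpleGraph V) (k : ℕ), CWLe k G → Lay G k Set.univ

/-- the join of the complete graph `K_s` and `J` -/
def KJn {W : Type} (s : ℕ) (J : SimpleGraph W) : SimpleGraph (Fin s ⊕ W) where
  Adj
    | Sum.inl i, Sum.inl j => i ≠ j
    | Sum.inl _, Sum.inr _ => True
    | Sum.inr _, Sum.inl _ => True
    | Sum.inr u, Sum.inr v => J.Adj u v
  symm := ⟨fun u v h => by
    rcases u with u | u <;> rcases v with v | v
    · exact Ne.symm h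
    · exact trivial
    · exact trivial
    · exact SimpleGraph.Adj.symm (show J.Adj u v from h)⟩
  loopless := ⟨fun u h => by
    rcases u with u | u
    · exact h rfl
    · exact J.loopless.irrefl u h⟩

/-- **Y9a.** Enlarging the excluded graphs.

Proof. `N' = max N₁ (max N₂ (2 m')) + 3`, `m' = max m₁ m₂`.  `DD N₁ m₁` is an induced subgraph of
`DD N' m'` (`Fin.castLE` on both parts), so an induced minor (branch sets: singletons), and induced minors
are transitive (`imsTrans` with `ims_univ_iff`).  `r' i = r i` for `i < N₂` and `r' i = m'` for `i ≥ N₂`, the same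
for `l'`: `TCg N₂ m₂ r l` is an induced subgraph of `TCg N' m' r' l'` (`Fin.castLE`).  The vertex
`inl N₂` of `TCg N' m' r' l'` is adjacent to all other vertices (`a < m' = r' N₂`), so every vertex has a
neighbour (`inl N₂` itself has the neighbour `inl (N₂ + 1)`). -/
def S_Y9a : Prop := ∀ (W : Type) (H : SimpleGraph W) (N₁ m₁ N₂ m₂ : ℕ) (r l : Fin N₂ → ℕ),
  IsIndMinor H (DD N₁ m₁) → IsIndMinor H (TCg N₂ m₂ r l) →
    ∃ (N m : ℕ) (r' l' : Fin N → ℕ), 2 ≤ N ∧ 2 * m ≤ N ∧ IsIndMinor H (DD N m) ∧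
      IsIndMinor H (TCg N m r' l') ∧ ∀ w, ∃ w', (TCg N m r' l').Adj w w'

/-- **Y9b.** One step: if all graphs `Γ` whose cone is an induced minor of a graph without `H` and `H'`
are without `H₁`, `H₁'`, and `(H₁, H₁')` is bounded then `(H, H')` is bounded.  (Uses `S_Y7`, `S_Y8`,
`S_Y9a`, `S_LayCW` (proved: `LayCW.lean`).)

Proof. Y9a gives `N, m, r, l` for `H`.  `Y = cone (cone H')`: `CoBip Y` (put the two new vertices into the
clique `K`; `K` = the two new vertices and the clique of `H'`), every vertex of `Y` has a neighbour, and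
`IMS Y G univ → IsIndMinor H' G` (restrict the model).  Let `g₀` with `H` or `H'` an induced minor of
`grid g₀`; `grid g₀` is an induced subgraph of `grid (g₀ + 2)`; `g = g₀ + 2`.  `c` the bound for
`(H₁, H₁')`, `k' = c`.  Y7 gives `k`.  Let `G` be finite, nonempty, without `H` and `H'`.  `ClK N m r l Y g k' G`: the
four excluded graphs by transitivity (`imsTrans`, `ims_univ_iff`).  Let `Γ` be a graph on a finite type `U`
with `IMS (cone Γ) G univ`.  If `U` is empty then `Set.univ = ∅`, `Lay.empty`.  Otherwise `Γ` contains neither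
`H₁` nor `H₁'` by hypothesis, so `CWLe c Γ` and `Lay Γ c univ` by Y8.  So `Lay G k univ`, and `CWLe` by
`S_LayCW`. -/
def S_Y9b : Prop := ∀ (W W' W₁ W₁' : Type) [Finite W] [Finite W'] (H : SimpleGraph W)
  (H' : SimpleGraph W') (H₁ : SimpleGraph W₁) (H₁' : SimpleGraph W₁'),
  (∃ N m : ℕ, IsIndMinor H (DD N m)) →
  (∃ (N m : ℕ) (r l : Fin N → ℕ), IsIndMinor H (TCg N m r l)) → CoBip H' →
  (InGrid H ∨ InGrid H') → BoundedCW H₁ H₁' →
  (∀ (V U : Type) [Finite V] [Finite U] [Nonempty U] (G : SimpleGraph V) (Γ : SimpleGraph U),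
    ¬ IsIndMinor H G → ¬ IsIndMinor H' G → IMS (cone Γ) G Set.univ →
      ¬ IsIndMinor H₁ Γ ∧ ¬ IsIndMinor H₁' Γ) → BoundedCW H H'

/-- **Y9.** Theorem K for pairs.  (Uses `S_Y9b`.)

Proof. FACTS. (a) `IsIndMinor (KJn s J) (KJn (s+1) J)` and `IsIndMinor J (KJn s J)`: induced subgraphs
(singletons as branch sets).  (b) If `IsIndMinor (KJn s J) Γ` then `IsIndMinor (KJn (s+1) J) (cone Γ)`: the
new vertex (`Fin.last s`) is represented by `{none}`, the others by `some '' B`.  (c) `KJn 0 J` and `J` are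
induced minors of each other.  (d) If `IMS (cone Γ) G univ` then `IsIndMinor Γ G` (restrict the model).
(e) `CoBip J → CoBip (KJn s J)` (put the new vertices into `K`).  (f) If `KJn s J` is in a grid, `s' ≤ s`, then
`KJn s' J` is in a grid, and similarly for `DD` and `TCg`; transitivity.
STEP 1, induction on `s' ≤ s`: `BoundedCW (KJn 0 H0) (KJn s' J)`.  `s' = 0`: (c).  `s' + 1`: Y9b with
`H = KJn 0 H0`, `H' = KJn (s'+1) J`, `H₁ = KJn 0 H0`, `H₁' = KJn s' J`: if `cone Γ` is an induced minor of `G`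
then `Γ` does not contain `H₁` by (d), nor `KJn s' J` by (b) and transitivity.  The grid condition:
`KJn j H0` in a grid implies `KJn 0 H0` in a grid, `KJn s J` in a grid implies `KJn (s'+1) J` in a grid.
STEP 2, induction on `j' ≤ j`: `BoundedCW (KJn j' H0) (KJn s J)`; `j' + 1`: Y9b with `H = KJn (j'+1) H0`,
`H₁ = KJn j' H0`, `H' = H₁' = KJn s J`. -/
def S_Y9 : Prop := ∀ (j s : ℕ) (W₀ W₁ : Type) [Finite W₀] [Finite W₁] (H0 : SimpleGraph W₀)
  (J : SimpleGraph W₁), (∃ N m : ℕ, IsIndMinor (KJn j H0) (DD N m)) →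
    (∃ (N m : ℕ) (r l : Fin N → ℕ), IsIndMinor (KJn j H0) (TCg N m r l)) → CoBip J →
    (InGrid (KJn j H0) ∨ InGrid (KJn s J)) → BoundedCW H0 J → BoundedCW (KJn j H0) (KJn s J)

end Pool.Agent.MPd439b2.KS
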