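import Pool.Agent.Lib.MP_d439b2_co.KS.SpecP

/-! Module P2 of MP_d439b2_co, Theorem K: Sauer-Shelah for traces on a sequence. -/

set_option autoImplicit false

namespace Pool.Agent.MPd439b2.KS

open Classical in
theorem p2 : S_P2 := by
  intro V R d M s F hVC hF
  have h1 : F.card ≤ F.shatterer.card := Finset.card_le_card_shatterer F
  refine h1.trans ?_
  -- a shattered set has fewer than d elements
  have hsmall : ∀ T ∈ F.shatterer, T.card < d := by
    intro T hT
    by_contra hcon
    push Not at hcon
    have hsh : F.Shatters T := (Finset.mem_shatterer).1 hT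
    obtain ⟨T', hT'T, hT'card⟩ := Finset.exists_subset_card_eq hcon
    have hsh' : F.Shatters T' := hsh.mono_right hT'T
    have key : ∀ S : Finset (Fin M), S ⊆ T' → ∃ x, ∀ i ∈ T', R x (s i) ↔ i ∈ S := by
      intro S hS
      obtain ⟨A, hA, hAS⟩ := hsh' hS
      obtain ⟨x, hx⟩ := hF A hA
      refine ⟨x, fun i hi => ?_⟩
      rw [← hx i, ← hAS, Finset.mem_inter]
      exact ⟨fun h => ⟨hi, h⟩, fun h => h.2⟩
    have hinj : Set.InjOn s (T' : Set (Fin M)) := by
      intro i hi j hj hij
      by_contra hne
      obtain ⟨x, hx⟩ := key {i} (by simpa using hi)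
      have hi' := (hx i hi).2 (by simp)
      have hj' : R x (s j) := by rw [← hij]; exact hi'
      have := (hx j hj).1 hj'
      rw [Finset.mem_singleton] at this
      exact hne this.symm
    apply hVC (T'.image s)
    · rw [Finset.card_image_of_injOn hinj, hT'card]
    · intro S hS
      obtain ⟨x, hx⟩ := key (T'.filter (fun i => s i ∈ S)) (Finset.filter_subset _ _)
      refine ⟨x, fun u hu => ?_⟩
      obtain ⟨i, hi, rfl⟩ := Finset.mem_image.1 hu
      rw [hx i hi, Finset.mem_filter]
      exact ⟨fun h => h.2, fun h => ⟨hi, h⟩⟩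
  have hsub : F.shatterer ⊆ (Finset.range d).biUnion
      (fun k => Finset.powersetCard k (Finset.univ : Finset (Fin M))) := by
    intro T hT
    rw [Finset.mem_biUnion]
    exact ⟨T.card, Finset.mem_range.2 (hsmall T hT),
      Finset.mem_powersetCard.2 ⟨Finset.subset_univ _, rfl⟩⟩
  refine (Finset.card_le_card hsub).trans ?_
  refine Finset.card_biUnion_le.trans ?_
  apply Finset.sum_le_sum
  intro k _
  rw [Finset.card_powersetCard, Finset.card_univ, Fintype.card_fin]

end Pool.Agent.MPd439b2.KS
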