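import Pool.Agent.Lib.MP_d439b2_co.KS.SpecP

/-! Module P3 of MP_d439b2_co, Theorem K: numbers (binomial sums). -/

set_option autoImplicit false

namespace Pool.Agent.MPd439b2.KS

namespace p3Aux

theorem mono {M e : ℕ} (he : 2 * e ≤ M) : ∀ k, k ≤ e → M.choose k ≤ M.choose e := by
  intro k hk
  obtain ⟨j, rfl⟩ := Nat.exists_eq_add_of_le hk
  induction j with
  | zero => simp
  | succ j ih =>
    have h1 : M.choose k ≤ M.choose (k + j) := ih (by omega) (by omega)
    have h2 : M.choose (k + j) ≤ M.choose (k + j + 1) :=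
      Nat.choose_le_succ_of_lt_half_left (by omega)
    exact h1.trans (by simpa [Nat.add_assoc] using h2)

end p3Aux

theorem p3 : S_P3 := by
  intro d p M₀
  rcases d with _ | e
  · refine ⟨M₀ + p + 1, by omega, by omega, by omega, ?_⟩
    simp
  · set c := p.choose (e + 1) with hc
    refine ⟨M₀ + p + 2 * (e + 1) + 2 * c * (e + 1) * (e + 1) + 1, by omega, by omega, by omega, ?_⟩
    set M := M₀ + p + 2 * (e + 1) + 2 * c * (e + 1) * (e + 1) + 1 with hM
    have hsum : ∑ k ∈ Finset.range (e + 1), M.choose k ≤ (e + 1) * M.choose e := by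
      have := Finset.sum_le_card_nsmul (Finset.range (e + 1)) (fun k => M.choose k) (M.choose e)
        (fun k hk => p3Aux.mono (by omega) k (by have := Finset.mem_range.1 hk; omega))
      simpa using this
    have hsucc : M.choose (e + 1) * (e + 1) = M.choose e * (M - e) := Nat.choose_succ_right_eq M e
    have hpos : 0 < M.choose e := Nat.choose_pos (by omega)
    have hlt : 2 * c * (e + 1) * (e + 1) < M - e := by omega
    have h1 : (2 * c * ∑ k ∈ Finset.range (e + 1), M.choose k) * (e + 1) <
        M.choose (e + 1) * (e + 1) := by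
      rw [hsucc]
      calc (2 * c * ∑ k ∈ Finset.range (e + 1), M.choose k) * (e + 1)
          ≤ (2 * c * ((e + 1) * M.choose e)) * (e + 1) := by gcongr
        _ = M.choose e * (2 * c * (e + 1) * (e + 1)) := by ring
        _ < M.choose e * (M - e) := Nat.mul_lt_mul_of_pos_left hlt hpos
    exact lt_of_mul_lt_mul_right h1 (Nat.zero_le _)

end Pool.Agent.MPd439b2.KS
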