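import Pool.Agent.Lib.MP_d439b2_co.KS.SpecP

/-!
# MP_d439b2_co, KS, P4: fractional Helly theorem with weights
-/

set_option autoImplicit false

namespace Pool.Agent.MPd439b2.KS

namespace p4Aux

open Finset

/-- the sum of the product weights -/
theorem sum_mu {V : Type} (VV : Finset V) (w : V → ℕ) (M : ℕ) :
    ∑ s ∈ Fintype.piFinset (fun _ : Fin M => VV), ∏ i, w (s i) = (∑ v ∈ VV, w v) ^ M := by
  have h := Finset.prod_univ_sum (fun _ : Fin M => VV) (fun _ v => w v)
  rw [← h, Finset.prod_const, Finset.card_univ, Fintype.card_fin]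

open Classical in
/-- exchanging one coordinate -/
theorem mu_update {V : Type} (w : V → ℕ) {M : ℕ} (s : Fin M → V) (j : Fin M) (v : V) :
    (∏ i, w (Function.update s j v i)) * w (s j) = (∏ i, w (s i)) * w v := by
  rw [← Finset.mul_prod_erase univ (fun i => w (Function.update s j v i)) (mem_univ j),
    ← Finset.mul_prod_erase univ (fun i => w (s i)) (mem_univ j)]
  have h : ∏ i ∈ univ.erase j, w (Function.update s j v i) = ∏ i ∈ univ.erase j, w (s i) := by
    apply Finset.prod_congr rfl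
    intro i hi
    rw [Function.update_of_ne (Finset.ne_of_mem_erase hi)]
  rw [h, Function.update_self]
  ring

open Classical in
/-- the exchange of one coordinate in a sum -/
theorem exch {V : Type} (VV : Finset V) (w : V → ℕ) {M : ℕ} (j : Fin M) (f : (Fin M → V) → V → ℕ)
    (hf : ∀ s v u, f (Function.update s j v) u = f s u) :
    (∑ v ∈ VV, w v) * ∑ s ∈ Fintype.piFinset (fun _ : Fin M => VV), (∏ i, w (s i)) * f s (s j) =
      ∑ s ∈ Fintype.piFinset (fun _ : Fin M => VV), (∏ i, w (s i)) * ∑ v ∈ VV, w v * f s v := by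
  have e1 : (∑ v ∈ VV, w v) * ∑ s ∈ Fintype.piFinset (fun _ : Fin M => VV), (∏ i, w (s i)) * f s (s j) =
      ∑ q ∈ (Fintype.piFinset (fun _ : Fin M => VV)) ×ˢ VV, (∏ i, w (q.1 i)) * w q.2 * f q.1 (q.1 j) := by
    rw [Finset.sum_product, mul_comm, Finset.sum_mul]
    apply Finset.sum_congr rfl
    intro s _
    rw [Finset.mul_sum]
    apply Finset.sum_congr rfl
    intro v _
    ring
  have e2 : ∑ s ∈ Fintype.piFinset (fun _ : Fin M => VV), (∏ i, w (s i)) * ∑ v ∈ VV, w v * f s v =
      ∑ q ∈ (Fintype.piFinset (fun _ : Fin M => VV)) ×ˢ VV, (∏ i, w (q.1 i)) * w q.2 * f q.1 q.2 := by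
    rw [Finset.sum_product]
    apply Finset.sum_congr rfl
    intro s _
    rw [Finset.mul_sum]
    apply Finset.sum_congr rfl
    intro v _
    ring
  rw [e1, e2]
  refine Finset.sum_nbij' (fun q => (Function.update q.1 j q.2, q.1 j))
    (fun q => (Function.update q.1 j q.2, q.1 j)) ?_ ?_ ?_ ?_ ?_
  · rintro ⟨s, v⟩ hq
    rw [Finset.mem_product, Fintype.mem_piFinset] at hq ⊢
    refine ⟨fun i => ?_, hq.1 j⟩
    by_cases hi : i = j
    · subst hi
      simpa using hq.2
    · simpa [Function.update_of_ne hi] using hq.1 i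
  · rintro ⟨s, v⟩ hq
    rw [Finset.mem_product, Fintype.mem_piFinset] at hq ⊢
    refine ⟨fun i => ?_, hq.1 j⟩
    by_cases hi : i = j
    · subst hi
      simpa using hq.2
    · simpa [Function.update_of_ne hi] using hq.1 i
  · rintro ⟨s, v⟩ _
    simp
  · rintro ⟨s, v⟩ _
    simp
  · rintro ⟨s, v⟩ _
    have h1 := mu_update w s j v
    have h2 := hf s v (s j)
    dsimp only
    rw [h1, h2]

open Classical in
/-- the chosen point, a function of the restriction -/
noncomputable def ch {V : Type} (R : V → V → Prop) (v0 : V) {M : ℕ} (I : Finset (Fin M))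
    (t : {i // i ∈ I} → V) : V :=
  if h : ∃ x, ∀ i, R x (t i) then h.choose else v0

/-- good -/
def Gd {V : Type} (R : V → V → Prop) {M : ℕ} (I : Finset (Fin M)) (s : Fin M → V) : Prop :=
  ∃ x, ∀ i ∈ I, R x (s i)

/-- the chosen point for s -/
noncomputable def xx {V : Type} (R : V → V → Prop) (v0 : V) {M : ℕ} (I : Finset (Fin M))
    (s : Fin M → V) : V := ch R v0 I (fun i => s i)

theorem xx_spec {V : Type} (R : V → V → Prop) (v0 : V) {M : ℕ} (I : Finset (Fin M))
    (s : Fin M → V) (h : Gd R I s) : ∀ i ∈ I, R (xx R v0 I s) (s i) := by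
  have h' : ∃ x, ∀ i : {i // i ∈ I}, R x (s i) := by
    obtain ⟨x, hx⟩ := h
    exact ⟨x, fun i => hx i i.2⟩
  intro i hi
  have e : xx R v0 I s = h'.choose := by
    unfold xx ch
    rw [dif_pos h']
  rw [e]
  exact h'.choose_spec ⟨i, hi⟩

open Classical in
theorem xx_update {V : Type} (R : V → V → Prop) (v0 : V) {M : ℕ} (I : Finset (Fin M))
    (s : Fin M → V) {j : Fin M} (hj : j ∉ I) (v : V) :
    xx R v0 I (Function.update s j v) = xx R v0 I s := by
  unfold xx
  have : (fun i : {i // i ∈ I} => Function.update s j v i) = (fun i : {i // i ∈ I} => s i) := by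
    funext i
    rw [Function.update_of_ne]
    rintro rfl
    exact hj i.2
  rw [this]

open Classical in
theorem Gd_update {V : Type} (R : V → V → Prop) {M : ℕ} (I : Finset (Fin M))
    (s : Fin M → V) {j : Fin M} (hj : j ∉ I) (v : V) :
    Gd R I (Function.update s j v) ↔ Gd R I s := by
  unfold Gd
  have : ∀ i ∈ I, Function.update s j v i = s i := by
    intro i hi
    rw [Function.update_of_ne]
    rintro rfl
    exact hj hi
  constructor
  · rintro ⟨x, hx⟩
    exact ⟨x, fun i hi => by rw [← this i hi]; exact hx i hi⟩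
  · rintro ⟨x, hx⟩
    exact ⟨x, fun i hi => by rw [this i hi]; exact hx i hi⟩

open Classical in
/-- step (1) -/
theorem step1 {V : Type} (R : V → V → Prop) (VV : Finset V) (w : V → ℕ) (v0 : V) {M : ℕ} (b : ℕ)
    (hW : 0 < ∑ v ∈ VV, w v)
    (hb : ∀ x, b * ∑ v ∈ VV.filter (fun v => R x v), w v ≤ ∑ v ∈ VV, w v)
    (I : Finset (Fin M)) {j : Fin M} (hj : j ∉ I) :
    b * ∑ s ∈ Fintype.piFinset (fun _ : Fin M => VV),
        (∏ i, w (s i)) * (if Gd R I s ∧ R (xx R v0 I s) (s j) then 1 else 0) ≤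
      ∑ s ∈ Fintype.piFinset (fun _ : Fin M => VV), (∏ i, w (s i)) * (if Gd R I s then 1 else 0) := by
  have h1 := exch VV w j (fun s u => if Gd R I s ∧ R (xx R v0 I s) u then 1 else 0) (by
    intro s v u
    beta_reduce
    rw [xx_update R v0 I s hj v]
    by_cases h : Gd R I s
    · rw [← Gd_update R I s hj v] at h
      have h' := (Gd_update R I s hj v).1 h
      simp only [h, h', true_and]
    · have h' : ¬ Gd R I (Function.update s j v) := fun hh => h ((Gd_update R I s hj v).1 hh)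
      simp only [h, h', false_and])
  beta_reduce at h1
  have h2 : ∀ s : Fin M → V, b * ((∏ i, w (s i)) *
      ∑ v ∈ VV, w v * (if Gd R I s ∧ R (xx R v0 I s) v then 1 else 0)) ≤
      (∑ v ∈ VV, w v) * ((∏ i, w (s i)) * (if Gd R I s then 1 else 0)) := by
    intro s
    by_cases h : Gd R I s
    · have e1 : ∑ v ∈ VV, w v * (if Gd R I s ∧ R (xx R v0 I s) v then 1 else 0) =
          ∑ v ∈ VV.filter (fun v => R (xx R v0 I s) v), w v := by
        rw [Finset.sum_filter]
        apply Finset.sum_congr rfl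
        intro v _
        simp only [h, true_and]
        split_ifs <;> simp
      rw [e1, if_pos h, mul_one]
      calc b * ((∏ i, w (s i)) * ∑ v ∈ VV.filter (fun v => R (xx R v0 I s) v), w v) =
          (∏ i, w (s i)) * (b * ∑ v ∈ VV.filter (fun v => R (xx R v0 I s) v), w v) := by ring
        _ ≤ (∏ i, w (s i)) * ∑ v ∈ VV, w v := Nat.mul_le_mul_left _ (hb _)
        _ = _ := by ring
    · simp [h]
  have h3 : (∑ v ∈ VV, w v) * (b * ∑ s ∈ Fintype.piFinset (fun _ : Fin M => VV),
        (∏ i, w (s i)) * (if Gd R I s ∧ R (xx R v0 I s) (s j) then 1 else 0)) ≤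
      (∑ v ∈ VV, w v) *
        ∑ s ∈ Fintype.piFinset (fun _ : Fin M => VV), (∏ i, w (s i)) * (if Gd R I s then 1 else 0) := by
    calc (∑ v ∈ VV, w v) * (b * ∑ s ∈ Fintype.piFinset (fun _ : Fin M => VV),
        (∏ i, w (s i)) * (if Gd R I s ∧ R (xx R v0 I s) (s j) then 1 else 0)) =
        b * ((∑ v ∈ VV, w v) * ∑ s ∈ Fintype.piFinset (fun _ : Fin M => VV),
        (∏ i, w (s i)) * (if Gd R I s ∧ R (xx R v0 I s) (s j) then 1 else 0)) := by ring
      _ = ∑ s ∈ Fintype.piFinset (fun _ : Fin M => VV), b * ((∏ i, w (s i)) *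
          ∑ v ∈ VV, w v * (if Gd R I s ∧ R (xx R v0 I s) v then 1 else 0)) := by
          rw [h1, Finset.mul_sum]
      _ ≤ ∑ s ∈ Fintype.piFinset (fun _ : Fin M => VV),
          (∑ v ∈ VV, w v) * ((∏ i, w (s i)) * (if Gd R I s then 1 else 0)) :=
          Finset.sum_le_sum fun s _ => h2 s
      _ = _ := by rw [Finset.mul_sum]
  exact Nat.le_of_mul_le_mul_left h3 hW

open Classical in
/-- step (2) -/
theorem step2 {V : Type} (R : V → V → Prop) (VV : Finset V) (w : V → ℕ) (v0 : V) {M : ℕ} (hM : 1 ≤ M)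
    (hW : 0 < ∑ v ∈ VV, w v)
    (hb : ∀ x, 2 * M * ∑ v ∈ VV.filter (fun v => R x v), w v ≤ ∑ v ∈ VV, w v)
    (I : Finset (Fin M)) :
    ∑ s ∈ Fintype.piFinset (fun _ : Fin M => VV), (∏ i, w (s i)) * (if Gd R I s then 1 else 0) ≤
      2 * ∑ s ∈ Fintype.piFinset (fun _ : Fin M => VV),
        (∏ i, w (s i)) * (if Gd R I s ∧ ∀ j, j ∉ I → ¬ R (xx R v0 I s) (s j) then 1 else 0) := by
  obtain ⟨B, hB⟩ : ∃ B, B = ∑ s ∈ Fintype.piFinset (fun _ : Fin M => VV),
    (∏ i, w (s i)) * (if Gd R I s then 1 else 0) := ⟨_, rfl⟩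
  obtain ⟨E, hE⟩ : ∃ E, E = ∑ s ∈ Fintype.piFinset (fun _ : Fin M => VV),
        (∏ i, w (s i)) * (if Gd R I s ∧ ∀ j, j ∉ I → ¬ R (xx R v0 I s) (s j) then 1 else 0) := ⟨_, rfl⟩
  rw [← hB, ← hE]
  have h1 : B ≤ E + ∑ j ∈ Iᶜ, ∑ s ∈ Fintype.piFinset (fun _ : Fin M => VV),
        (∏ i, w (s i)) * (if Gd R I s ∧ R (xx R v0 I s) (s j) then 1 else 0) := by
    rw [hB, hE, Finset.sum_comm, ← Finset.sum_add_distrib]
    apply Finset.sum_le_sum
    intro s _
    rw [← Finset.mul_sum, ← mul_add]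
    apply Nat.mul_le_mul_left
    by_cases h : Gd R I s
    · by_cases h2 : ∀ j, j ∉ I → ¬ R (xx R v0 I s) (s j)
      · rw [if_pos h, if_pos ⟨h, h2⟩]
        exact Nat.le_add_right _ _
      · push Not at h2
        obtain ⟨j, hj, hR⟩ := h2
        rw [if_pos h]
        have h3 : (if Gd R I s ∧ R (xx R v0 I s) (s j) then 1 else 0) ≤
            ∑ j ∈ Iᶜ, (if Gd R I s ∧ R (xx R v0 I s) (s j) then 1 else 0) :=
          Finset.single_le_sum (f := fun j => if Gd R I s ∧ R (xx R v0 I s) (s j) then 1 else 0)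
            (fun _ _ => Nat.zero_le _) (Finset.mem_compl.2 hj)
        rw [if_pos ⟨h, hR⟩] at h3
        exact h3.trans (Nat.le_add_left _ _)
    · rw [if_neg h]
      exact Nat.zero_le _
  have h2 : 2 * M * ∑ j ∈ Iᶜ, ∑ s ∈ Fintype.piFinset (fun _ : Fin M => VV),
        (∏ i, w (s i)) * (if Gd R I s ∧ R (xx R v0 I s) (s j) then 1 else 0) ≤ M * B := by
    rw [Finset.mul_sum]
    calc ∑ j ∈ Iᶜ, 2 * M * ∑ s ∈ Fintype.piFinset (fun _ : Fin M => VV),
        (∏ i, w (s i)) * (if Gd R I s ∧ R (xx R v0 I s) (s j) then 1 else 0) ≤ ∑ _j ∈ Iᶜ, B := by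
          apply Finset.sum_le_sum
          intro j hj
          rw [hB]
          exact step1 R VV w v0 (2 * M) hW hb I (Finset.mem_compl.1 hj)
      _ = (Iᶜ).card * B := by rw [Finset.sum_const, smul_eq_mul]
      _ ≤ M * B := by
          apply Nat.mul_le_mul_right
          calc (Iᶜ).card ≤ (univ : Finset (Fin M)).card := Finset.card_le_univ _
            _ = M := by rw [Finset.card_univ, Fintype.card_fin]
  have h3 : 2 * M * B ≤ 2 * M * E + M * B := by
    calc 2 * M * B ≤ 2 * M * (E + ∑ j ∈ Iᶜ, ∑ s ∈ Fintype.piFinset (fun _ : Fin M => VV),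
        (∏ i, w (s i)) * (if Gd R I s ∧ R (xx R v0 I s) (s j) then 1 else 0)) := Nat.mul_le_mul_left _ h1
      _ = 2 * M * E + 2 * M * ∑ j ∈ Iᶜ, ∑ s ∈ Fintype.piFinset (fun _ : Fin M => VV),
        (∏ i, w (s i)) * (if Gd R I s ∧ R (xx R v0 I s) (s j) then 1 else 0) := by ring
      _ ≤ _ := Nat.add_le_add_left h2 _
  have h4 : M * B ≤ M * (2 * E) := by
    have e1 : 2 * M * B = M * B + M * B := by ring
    have e2 : 2 * M * E = M * (2 * E) := by ring
    rw [e1, e2] at h3
    exact Nat.le_of_add_le_add_right h3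
  exact Nat.le_of_mul_le_mul_left h4 hM

end p4Aux

open Finset p4Aux in
theorem p4 (h1 : S_P1) (h2 : S_P2) (h3 : S_P3) : S_P4 := by
  classical
  intro d p hdp
  obtain ⟨M, -, hpM, hM, hnum⟩ := h3 d p 0
  refine ⟨2 * M, by omega, ?_⟩
  intro V R VV hSh hp w hW
  by_contra hcon
  push Not at hcon
  have hb : ∀ x, 2 * M * ∑ v ∈ VV.filter (fun v => R x v), w v ≤ ∑ v ∈ VV, w v :=
    fun x => (hcon x).le
  obtain ⟨v0, -⟩ : VV.Nonempty := by
    rw [Finset.nonempty_iff_ne_empty]
    rintro rfl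
    simp at hW
  -- step (3)
  have s3 : ∀ s ∈ Fintype.piFinset (fun _ : Fin M => VV), M.choose d ≤ p.choose d *
      ∑ I ∈ (univ : Finset (Finset (Fin M))).filter (fun I => I.card = d), (if Gd R I s then 1 else 0) := by
    intro s hs
    rw [Fintype.mem_piFinset] at hs
    have h := h1 d p M hdp hpM ((univ : Finset (Finset (Fin M))).filter (fun I => Gd R I s)) (by
      intro P hP
      obtain ⟨I', hI', x, hx⟩ := hp (fun i => s (P.orderEmbOfFin hP i)) (fun i => hs _)
      refine ⟨I'.map (P.orderEmbOfFin hP).toEmbedding, ?_, ?_, ?_⟩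
      · rw [Finset.mem_filter]
        refine ⟨mem_univ _, x, ?_⟩
        intro i hi
        rw [Finset.mem_map] at hi
        obtain ⟨a, ha, rfl⟩ := hi
        exact hx a ha
      · intro i hi
        rw [Finset.mem_map] at hi
        obtain ⟨a, ha, rfl⟩ := hi
        exact Finset.orderEmbOfFin_mem P hP a
      · rw [Finset.card_map, hI'])
    rw [Finset.sum_boole, Finset.filter_filter]
    rw [Finset.filter_filter] at h
    have e : ((univ : Finset (Finset (Fin M))).filter (fun I => Gd R I s ∧ I.card = d)) =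
        ((univ : Finset (Finset (Fin M))).filter (fun I => I.card = d ∧ Gd R I s)) := by
      apply Finset.filter_congr
      intro I _
      exact and_comm
    rw [e] at h
    exact_mod_cast h
  -- step (4)
  have s4 : ∀ s ∈ Fintype.piFinset (fun _ : Fin M => VV),
      ∑ I ∈ (univ : Finset (Finset (Fin M))).filter (fun I => I.card = d),
        (if Gd R I s ∧ ∀ j, j ∉ I → ¬ R (xx R v0 I s) (s j) then 1 else 0) ≤
        ∑ k ∈ Finset.range d, M.choose k := by
    intro s _
    rw [Finset.sum_boole, Finset.filter_filter]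
    have h := h2 V R d M s ((univ : Finset (Finset (Fin M))).filter (fun I => I.card = d ∧
      (Gd R I s ∧ ∀ j, j ∉ I → ¬ R (xx R v0 I s) (s j)))) hSh (by
      intro A hA
      rw [Finset.mem_filter] at hA
      obtain ⟨-, -, hG, hA⟩ := hA
      refine ⟨xx R v0 A s, fun i => ⟨fun hi => xx_spec R v0 A s hG i hi, fun hi => ?_⟩⟩
      by_contra hne
      exact hA i hne hi)
    exact_mod_cast h
  have hmu := sum_mu VV w M
  obtain ⟨W, hWe⟩ : ∃ W, W = ∑ v ∈ VV, w v := ⟨_, rfl⟩
  rw [← hWe] at hmu hW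
  obtain ⟨S, hS⟩ : ∃ S, S = ∑ k ∈ Finset.range d, M.choose k := ⟨_, rfl⟩
  rw [← hS] at hnum s4
  have key : M.choose d * W ^ M ≤ 2 * p.choose d * S * W ^ M := by
    calc M.choose d * W ^ M = ∑ s ∈ Fintype.piFinset (fun _ : Fin M => VV), (∏ i, w (s i)) * M.choose d := by
          rw [← Finset.sum_mul, hmu, mul_comm]
      _ ≤ ∑ s ∈ Fintype.piFinset (fun _ : Fin M => VV), (∏ i, w (s i)) * (p.choose d *
          ∑ I ∈ (univ : Finset (Finset (Fin M))).filter (fun I => I.card = d), (if Gd R I s then 1 else 0)) :=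
          Finset.sum_le_sum fun s hs => Nat.mul_le_mul_left _ (s3 s hs)
      _ = p.choose d * ∑ I ∈ (univ : Finset (Finset (Fin M))).filter (fun I => I.card = d),
          ∑ s ∈ Fintype.piFinset (fun _ : Fin M => VV), (∏ i, w (s i)) * (if Gd R I s then 1 else 0) := by
          rw [Finset.sum_comm, Finset.mul_sum]
          apply Finset.sum_congr rfl
          intro s _
          rw [← Finset.mul_sum]
          ring
      _ ≤ p.choose d * ∑ I ∈ (univ : Finset (Finset (Fin M))).filter (fun I => I.card = d),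
          2 * ∑ s ∈ Fintype.piFinset (fun _ : Fin M => VV),
            (∏ i, w (s i)) * (if Gd R I s ∧ ∀ j, j ∉ I → ¬ R (xx R v0 I s) (s j) then 1 else 0) := by
          apply Nat.mul_le_mul_left
          apply Finset.sum_le_sum
          intro I _
          exact step2 R VV w v0 hM (by rw [← hWe]; exact hW) hb I
      _ = 2 * p.choose d * ∑ s ∈ Fintype.piFinset (fun _ : Fin M => VV), (∏ i, w (s i)) *
          ∑ I ∈ (univ : Finset (Finset (Fin M))).filter (fun I => I.card = d),
            (if Gd R I s ∧ ∀ j, j ∉ I → ¬ R (xx R v0 I s) (s j) then 1 else 0) := by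
          rw [← Finset.mul_sum, Finset.sum_comm, ← mul_assoc, mul_comm (p.choose d) 2]
          congr 1
          apply Finset.sum_congr rfl
          intro s _
          rw [Finset.mul_sum]
      _ ≤ 2 * p.choose d * ∑ s ∈ Fintype.piFinset (fun _ : Fin M => VV), (∏ i, w (s i)) * S := by
          apply Nat.mul_le_mul_left
          exact Finset.sum_le_sum fun s hs => Nat.mul_le_mul_left _ (s4 s hs)
      _ = 2 * p.choose d * S * W ^ M := by
          rw [← Finset.sum_mul, hmu]
          ring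
  have hWM : 0 < W ^ M := Nat.pow_pos hW
  have := Nat.le_of_mul_le_mul_right key hWM
  omega

end Pool.Agent.MPd439b2.KS
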