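import Pool.Agent.Lib.MP_d439b2_co.KS.SpecP

/-! Module P5 of MP_d439b2_co, Theorem K: multiplicative weights. -/

set_option autoImplicit false

namespace Pool.Agent.MPd439b2.KS

namespace p5Aux

theorem bern (x : ℕ) : ∀ n : ℕ, x ^ (n + 1) + (n + 1) * x ^ n ≤ (x + 1) ^ (n + 1) := by
  intro n
  induction n with
  | zero => simp
  | succ n ih =>
    calc x ^ (n + 1 + 1) + (n + 1 + 1) * x ^ (n + 1)
        ≤ (x ^ (n + 1) + (n + 1) * x ^ n) * (x + 1) := by
          have : (x ^ (n + 1) + (n + 1) * x ^ n) * (x + 1) =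
            x ^ (n + 1 + 1) + (n + 1 + 1) * x ^ (n + 1) + (n + 1) * x ^ n := by ring
          omega
      _ ≤ (x + 1) ^ (n + 1) * (x + 1) := Nat.mul_le_mul_right _ ih
      _ = (x + 1) ^ (n + 1 + 1) := by ring

theorem num (b c : ℕ) (hb : 1 ≤ b) : ∃ m : ℕ, 1 ≤ m ∧
    c * (2 * (2 * b - 1) ^ (2 * b)) ^ m < ((2 * b) ^ (2 * b)) ^ m := by
  obtain ⟨x, hx⟩ : ∃ x, 2 * b = x + 1 := ⟨2 * b - 1, by omega⟩
  have hx1 : 1 ≤ x := by omega
  rw [hx, Nat.add_sub_cancel]
  set B := x ^ (x + 1) with hB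
  have hBpos : 0 < B := Nat.pow_pos (by omega)
  have hA : 2 * B + 1 ≤ (x + 1) ^ (x + 1) := by
    have h1 := bern x x
    have h2 : (x + 1) * x ^ x = B + x ^ x := by rw [hB]; ring
    have h3 : 0 < x ^ x := Nat.pow_pos (by omega)
    omega
  refine ⟨2 * B * c + 1, by omega, ?_⟩
  have h4 := bern (2 * B) (2 * B * c)
  have h5 : (2 * B + 1) ^ (2 * B * c + 1) ≤ ((x + 1) ^ (x + 1)) ^ (2 * B * c + 1) :=
    Nat.pow_le_pow_left hA _
  have h6 : c * (2 * B) ^ (2 * B * c + 1) = (2 * B * c) * (2 * B) ^ (2 * B * c) := by ring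
  have h7 : (2 * B * c + 1) * (2 * B) ^ (2 * B * c) =
      (2 * B * c) * (2 * B) ^ (2 * B * c) + (2 * B) ^ (2 * B * c) := by ring
  have h8 : 0 < (2 * B) ^ (2 * B * c + 1) := Nat.pow_pos (by omega)
  omega

end p5Aux

open Classical in
theorem p5 : S_P5 := by
  intro b hb V _ R VV hH
  rcases VV.eq_empty_or_nonempty with rfl | hne
  · exact ⟨1, fun _ => Classical.arbitrary V, Nat.one_pos, by simp⟩
  obtain ⟨m, hm1, hm⟩ := p5Aux.num b VV.card hb
  set T := 2 * b * m with hT
  have hTpos : 0 < T := by positivity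
  -- the choice function
  set wt : (V → ℕ) → V → ℕ := fun h v => 2 ^ (T - h v) with hwt
  have hpos : ∀ h : V → ℕ, 0 < ∑ v ∈ VV, wt h v := fun h =>
    Finset.sum_pos (fun v _ => Nat.pow_pos (by norm_num)) hne
  have hex : ∀ h : V → ℕ, ∃ x, ∑ v ∈ VV, wt h v ≤
      b * ∑ v ∈ VV.filter (fun v => R x v), wt h v := fun h => hH (wt h) (hpos h)
  choose pick hpick using hex
  set H : ℕ → V → ℕ := fun t => Nat.rec (fun _ => 0)
    (fun _ h v => h v + if R (pick h) v then 1 else 0) t with hHdef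
  have H0 : ∀ v, H 0 v = 0 := fun v => rfl
  have HS : ∀ t v, H (t + 1) v = H t v + if R (pick (H t)) v then 1 else 0 := fun t v => rfl
  set y : ℕ → V := fun t => pick (H t) with hy
  have Hle : ∀ t v, H t v ≤ t := by
    intro t v
    induction t with
    | zero => simp [H0]
    | succ t ih =>
      rw [HS]
      split_ifs <;> omega
  have Hcard : ∀ t v, H t v = ∑ u ∈ Finset.range t, if R (y u) v then 1 else 0 := by
    intro t v
    induction t with
    | zero => simp [H0]
    | succ t ih => rw [HS, Finset.sum_range_succ, ih]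
  set W : ℕ → ℕ := fun t => ∑ v ∈ VV, wt (H t) v with hW
  have step : ∀ t, t < T → 2 * b * W (t + 1) ≤ (2 * b - 1) * W t := by
    intro t ht
    have e1 : ∀ v, 2 * wt (H (t + 1)) v + (if R (y t) v then wt (H t) v else 0) =
        2 * wt (H t) v := by
      intro v
      have hv := Hle t v
      simp only [hwt, HS]
      by_cases hR : R (pick (H t)) v
      · have hR' : R (y t) v := hR
        rw [if_pos hR, if_pos hR']
        have : T - H t v = (T - (H t v + 1)) + 1 := by omega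
        rw [this, pow_succ]
        ring
      · have hR' : ¬ R (y t) v := hR
        rw [if_neg hR, if_neg hR']
        simp
    have e2 : 2 * W (t + 1) + ∑ v ∈ VV.filter (fun v => R (y t) v), wt (H t) v = 2 * W t := by
      rw [Finset.sum_filter]
      simp only [hW]
      rw [Finset.mul_sum, Finset.mul_sum, ← Finset.sum_add_distrib]
      exact Finset.sum_congr rfl (fun v _ => e1 v)
    have e3 : W t ≤ b * ∑ v ∈ VV.filter (fun v => R (y t) v), wt (H t) v := hpick (H t)
    set N := ∑ v ∈ VV.filter (fun v => R (y t) v), wt (H t) v with hN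
    obtain ⟨k, hk⟩ : ∃ k, 2 * b = k + 1 := ⟨2 * b - 1, by omega⟩
    have e4 : 2 * b * W (t + 1) + b * N = 2 * b * W t := by
      calc 2 * b * W (t + 1) + b * N = b * (2 * W (t + 1) + N) := by ring
        _ = b * (2 * W t) := by rw [e2]
        _ = 2 * b * W t := by ring
    have e5 : 2 * b * W t = (2 * b - 1) * W t + W t := by
      rw [hk, Nat.add_sub_cancel]; ring
    omega
  have pot : ∀ t, t ≤ T → (2 * b) ^ t * W t ≤ (2 * b - 1) ^ t * (VV.card * 2 ^ T) := by
    intro t
    induction t with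
    | zero =>
      intro _
      have : W 0 = VV.card * 2 ^ T := by
        simp only [hW, hwt, H0, Nat.sub_zero, Finset.sum_const, smul_eq_mul]
      rw [this]
      simp
    | succ t ih =>
      intro ht
      have h1 := ih (by omega)
      have h2 := step t (by omega)
      calc (2 * b) ^ (t + 1) * W (t + 1) = (2 * b) ^ t * (2 * b * W (t + 1)) := by ring
        _ ≤ (2 * b) ^ t * ((2 * b - 1) * W t) := Nat.mul_le_mul_left _ h2
        _ = (2 * b - 1) * ((2 * b) ^ t * W t) := by ring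
        _ ≤ (2 * b - 1) * ((2 * b - 1) ^ t * (VV.card * 2 ^ T)) := Nat.mul_le_mul_left _ h1
        _ = (2 * b - 1) ^ (t + 1) * (VV.card * 2 ^ T) := by ring
  refine ⟨T, fun t => y t, hTpos, fun v hv => ?_⟩
  have hcard : (Finset.univ.filter fun t : Fin T => R (y t) v).card = H T v := by
    rw [Hcard, Finset.card_filter, Finset.sum_range]
  rw [hcard]
  by_contra hcon
  push Not at hcon
  set h := H T v with hh
  have hhT : h ≤ T := Hle T v
  have hhm : h < m := by
    by_contra hge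
    push Not at hge
    have : T ≤ 2 * b * h := by rw [hT]; exact Nat.mul_le_mul_left _ hge
    omega
  have hWv : 2 ^ (T - h) ≤ W T := by
    have := Finset.single_le_sum (f := fun v => wt (H T) v) (fun _ _ => Nat.zero_le _) hv
    exact this
  have h1 : (2 * b) ^ T * 2 ^ (T - h) ≤ (2 * b - 1) ^ T * (VV.card * 2 ^ T) :=
    (Nat.mul_le_mul_left _ hWv).trans (pot T le_rfl)
  have h2 : (2 * b) ^ T ≤ (2 * b - 1) ^ T * VV.card * 2 ^ h := by
    have h3 : (2 * b) ^ T * 2 ^ (T - h) ≤ ((2 * b - 1) ^ T * VV.card * 2 ^ h) * 2 ^ (T - h) := by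
      calc (2 * b) ^ T * 2 ^ (T - h) ≤ (2 * b - 1) ^ T * (VV.card * 2 ^ T) := h1
        _ = (2 * b - 1) ^ T * (VV.card * (2 ^ h * 2 ^ (T - h))) := by
            rw [← pow_add, Nat.add_sub_cancel' hhT]
        _ = _ := by ring
    exact Nat.le_of_mul_le_mul_right h3 (Nat.pow_pos (by norm_num))
  have h4 : 2 ^ h ≤ 2 ^ m := Nat.pow_le_pow_right (by norm_num) hhm.le
  have h5 : (2 * b) ^ T ≤ VV.card * (2 * (2 * b - 1) ^ (2 * b)) ^ m := by
    calc (2 * b) ^ T ≤ (2 * b - 1) ^ T * VV.card * 2 ^ h := h2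
      _ ≤ (2 * b - 1) ^ T * VV.card * 2 ^ m := Nat.mul_le_mul_left _ h4
      _ = VV.card * (2 * (2 * b - 1) ^ (2 * b)) ^ m := by
          rw [hT, pow_mul, mul_pow]; ring
  rw [hT, pow_mul] at h5
  omega

end Pool.Agent.MPd439b2.KS
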