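import Pool.Agent.Lib.MP_d439b2_co.KS.SpecP

/-!
# MP_d439b2_co, Theorem K: the epsilon-net theorem
-/

set_option autoImplicit false

namespace Pool.Agent.MPd439b2.KS

namespace p6Aux

open Classical in
theorem count {h T : ℕ} {ρ : Type} [Fintype ρ] (F : Finset (Finset (Fin T)))
    (hA : ∀ s : ρ → Fin T, ∃ A ∈ F, (∀ i, s i ∉ A) ∧ ∃ S : Finset (ρ → Fin T),
      (∀ s₂ ∈ S, h ≤ (Finset.univ.filter fun i => s₂ i ∈ A).card) ∧
      T ^ (Fintype.card ρ) ≤ 2 * S.card) :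
    T ^ (2 * Fintype.card ρ) ≤ 2 * (Finset.univ.filter fun s : (ρ → Fin T) × (ρ → Fin T) =>
      ∃ A ∈ F, (∀ i, s.1 i ∉ A) ∧ h ≤ (Finset.univ.filter fun i => s.2 i ∈ A).card).card := by
  rw [Finset.card_filter, Fintype.sum_prod_type, Finset.mul_sum]
  have h1 : ∀ s₁ : ρ → Fin T, T ^ (Fintype.card ρ) ≤
      2 * ∑ s₂ : ρ → Fin T, (if ∃ A ∈ F, (∀ i, s₁ i ∉ A) ∧
        h ≤ (Finset.univ.filter fun i => s₂ i ∈ A).card then 1 else 0) := by
    intro s₁
    obtain ⟨A, hAF, hA1, S, hS, hA2⟩ := hA s₁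
    refine hA2.trans (Nat.mul_le_mul_left 2 ?_)
    rw [← Finset.card_filter]
    apply Finset.card_le_card
    intro s₂ hs₂
    rw [Finset.mem_filter]
    exact ⟨Finset.mem_univ _, A, hAF, hA1, hS s₂ hs₂⟩
  have h2 : T ^ (2 * Fintype.card ρ) = ∑ _s₁ : ρ → Fin T, T ^ (Fintype.card ρ) := by
    rw [Finset.sum_const, Finset.card_univ, Fintype.card_fun, Fintype.card_fin, smul_eq_mul,
      ← pow_add, two_mul]
  rw [h2]
  exact Finset.sum_le_sum fun s₁ _ => h1 s₁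

open Classical in
theorem final (h6b : S_P6b) {d h T : ℕ} {ρ : Type} [Fintype ρ] (F : Finset (Finset (Fin T)))
    (hsh : ∀ U : Finset (Fin T), U.card = d → ¬ F.Shatters U)
    (hA : ∀ s : ρ → Fin T, ∃ A ∈ F, (∀ i, s i ∉ A) ∧ ∃ S : Finset (ρ → Fin T),
      (∀ s₂ ∈ S, h ≤ (Finset.univ.filter fun i => s₂ i ∈ A).card) ∧
      T ^ (Fintype.card ρ) ≤ 2 * S.card) (hT : 0 < T) :
    2 ^ h ≤ 2 * ∑ k ∈ Finset.range d, (2 * Fintype.card ρ).choose k := by
  have key := count F hA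
  have h6 := h6b d h T ρ F hsh
  have hpos : 0 < T ^ (2 * Fintype.card ρ) := pow_pos hT _
  have h7 := Nat.mul_le_mul_left (2 ^ h) key
  rw [Nat.mul_left_comm] at h7
  have h8 := h7.trans (Nat.mul_le_mul_left 2 h6)
  rw [← Nat.mul_assoc] at h8
  exact Nat.le_of_mul_le_mul_right h8 hpos

end p6Aux

theorem p6 : (S_P6a) → (S_P6b) → (S_P6c) → S_P6 := by
  intro h6a h6b h6c d g
  obtain ⟨h, b, hh, hb, hab, hnum⟩ := h6c d (max g 1) (le_max_right _ _)
  refine ⟨h * b, fun T F hT hsh hF => ?_⟩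
  by_contra hcon
  push Not at hcon
  have hcard : Fintype.card (Fin h × Fin b) = h * b := by
    rw [Fintype.card_prod, Fintype.card_fin, Fintype.card_fin]
  have key := p6Aux.final h6b (h := h) (ρ := Fin h × Fin b) F hsh (by
    intro s
    have hc : (Finset.univ.image s).card ≤ h * b := by
      refine Finset.card_image_le.trans ?_
      rw [Finset.card_univ, hcard]
    obtain ⟨A, hAF, hA⟩ := hcon _ hc
    have hex : ∃ S : Finset (Fin h × Fin b → Fin T), T ^ (h * b) ≤ 2 * S.card ∧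
        ∀ s₂ ∈ S, h ≤ (Finset.univ.filter fun i => s₂ i ∈ A).card :=
      ⟨_, h6a h b (max g 1) T (le_max_right _ _) hab A
        ((hF A hAF).trans (Nat.mul_le_mul_right _ (le_max_left _ _))),
        fun s₂ hs₂ => (Finset.mem_filter.mp hs₂).2⟩
    obtain ⟨S, hS1, hS2⟩ := hex
    refine ⟨A, hAF, ?_, S, hS2, ?_⟩
    · intro i hi
      exact hA _ hi (Finset.mem_image_of_mem s (Finset.mem_univ i))
    · rw [hcard]
      exact hS1) hT
  rw [hcard] at key
  omega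

end Pool.Agent.MPd439b2.KS
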