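import Pool.Agent.Lib.MP_d439b2_co.KS.SpecP

/-!
# MP_d439b2_co, Theorem K: a random sequence hits a dense set often (S_P6a)
-/

set_option autoImplicit false

namespace Pool.Agent.MPd439b2.KS

namespace p6aAux

open Classical in
/-- the functions which miss `A` on the row `i` -/
noncomputable def bad (h b T : ℕ) (A : Finset (Fin T)) (i : Fin h) :
    Finset (Fin h × Fin b → Fin T) :=
  Fintype.piFinset fun x => if x.1 = i then Aᶜ else Finset.univ

theorem mem_bad {h b T : ℕ} {A : Finset (Fin T)} {i : Fin h} {s : Fin h × Fin b → Fin T} :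
    s ∈ bad h b T A i ↔ ∀ j, s (i, j) ∉ A := by
  classical
  unfold bad
  rw [Fintype.mem_piFinset]
  constructor
  · intro hs j
    have := hs (i, j)
    rw [if_pos rfl, Finset.mem_compl] at this
    exact this
  · rintro hs ⟨i', j⟩
    by_cases hi : i' = i
    · subst hi
      rw [if_pos rfl, Finset.mem_compl]
      exact hs j
    · rw [if_neg (by simpa using hi)]
      exact Finset.mem_univ _

theorem card_bad (h b g T : ℕ) (hg : 1 ≤ g) (A : Finset (Fin T)) (hA : T ≤ g * A.card)
    (i : Fin h) : g ^ b * (bad h b T A i).card ≤ (g - 1) ^ b * T ^ (h * b) := by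
  classical
  have h0 : g * (T - A.card) ≤ (g - 1) * T := by
    have h1 : A.card ≤ T := by
      have := Finset.card_le_univ A
      rwa [Fintype.card_fin] at this
    rw [Nat.mul_sub, Nat.sub_mul, Nat.one_mul]
    omega
  have h1 : (bad h b T A i).card = ∏ i' : Fin h, if i' = i then (T - A.card) ^ b else T ^ b := by
    unfold bad
    rw [Fintype.card_piFinset, Fintype.prod_prod_type]
    refine Finset.prod_congr rfl fun i' _ => ?_
    by_cases hi : i' = i
    · subst hi
      simp [Finset.card_compl, Fintype.card_fin]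
    · simp [hi, Fintype.card_fin]
  have h2 : T ^ (h * b) = ∏ i' : Fin h, T ^ b := by
    rw [Finset.prod_const, Finset.card_univ, Fintype.card_fin, ← pow_mul, Nat.mul_comm]
  rw [h1, h2, ← Finset.mul_prod_erase Finset.univ _ (Finset.mem_univ i),
    ← Finset.mul_prod_erase Finset.univ (fun _ : Fin h => T ^ b) (Finset.mem_univ i)]
  have h3 : ∏ x ∈ Finset.univ.erase i, (if x = i then (T - A.card) ^ b else T ^ b) =
      ∏ x ∈ Finset.univ.erase i, T ^ b := by
    refine Finset.prod_congr rfl fun x hx => ?_
    rw [if_neg (Finset.ne_of_mem_erase hx)]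
  rw [h3, if_pos rfl, ← Nat.mul_assoc, ← Nat.mul_assoc, ← mul_pow, ← mul_pow]
  exact Nat.mul_le_mul_right _ (Nat.pow_le_pow_left h0 b)

end p6aAux

open p6aAux

theorem p6a : S_P6a := by
  classical
  intro h b g T hg hhg A hA
  set good : Finset (Fin h × Fin b → Fin T) := Finset.univ.filter fun s =>
    h ≤ (Finset.univ.filter fun i => s i ∈ A).card with hgood
  set nb : Finset (Fin h × Fin b → Fin T) := Finset.univ.filter fun s =>
    ¬ h ≤ (Finset.univ.filter fun i => s i ∈ A).card with hnb
  have hsum : good.card + nb.card = T ^ (h * b) := by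
    rw [hgood, hnb, Finset.card_filter_add_card_filter_not, Finset.card_univ, Fintype.card_fun,
      Fintype.card_prod, Fintype.card_fin, Fintype.card_fin, Fintype.card_fin]
  have hsub : nb ⊆ Finset.univ.biUnion fun i => bad h b T A i := by
    intro s hs
    rw [hnb, Finset.mem_filter] at hs
    by_contra hcon
    apply hs.2
    rw [Finset.mem_biUnion] at hcon
    push Not at hcon
    have h1 : ∀ i : Fin h, ∃ j : Fin b, s (i, j) ∈ A := by
      intro i
      have h2 := hcon i (Finset.mem_univ i)
      rw [mem_bad] at h2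
      push Not at h2
      exact h2
    choose f hf using h1
    have h3 : (Finset.univ.image fun i : Fin h => (i, f i)) ⊆
        Finset.univ.filter fun i => s i ∈ A := by
      intro x hx
      rw [Finset.mem_image] at hx
      obtain ⟨i, -, rfl⟩ := hx
      exact Finset.mem_filter.mpr ⟨Finset.mem_univ _, hf i⟩
    have h4 := Finset.card_le_card h3
    rw [Finset.card_image_of_injective _ (fun i j hij => congrArg Prod.fst hij), Finset.card_univ,
      Fintype.card_fin] at h4
    exact h4
  have h1 : nb.card ≤ ∑ i : Fin h, (bad h b T A i).card :=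
    (Finset.card_le_card hsub).trans Finset.card_biUnion_le
  have h2 : g ^ b * nb.card ≤ h * ((g - 1) ^ b * T ^ (h * b)) := by
    calc g ^ b * nb.card ≤ g ^ b * ∑ i : Fin h, (bad h b T A i).card := Nat.mul_le_mul_left _ h1
      _ = ∑ i : Fin h, g ^ b * (bad h b T A i).card := Finset.mul_sum _ _ _
      _ ≤ ∑ _i : Fin h, (g - 1) ^ b * T ^ (h * b) :=
          Finset.sum_le_sum fun i _ => card_bad h b g T hg A hA i
      _ = h * ((g - 1) ^ b * T ^ (h * b)) := by
          rw [Finset.sum_const, Finset.card_univ, Fintype.card_fin, smul_eq_mul]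
  have h3 : g ^ b * (2 * nb.card) ≤ g ^ b * T ^ (h * b) := by
    calc g ^ b * (2 * nb.card) = 2 * (g ^ b * nb.card) := by ring
      _ ≤ 2 * (h * ((g - 1) ^ b * T ^ (h * b))) := Nat.mul_le_mul_left _ h2
      _ = 2 * h * (g - 1) ^ b * T ^ (h * b) := by ring
      _ ≤ g ^ b * T ^ (h * b) := Nat.mul_le_mul_right _ hhg
  have h4 : 2 * nb.card ≤ T ^ (h * b) :=
    Nat.le_of_mul_le_mul_left h3 (Nat.pow_pos (by omega))
  show T ^ (h * b) ≤ 2 * good.card
  omega

end Pool.Agent.MPd439b2.KS
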