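import Pool.Agent.Lib.MP_d439b2_co.KS.SpecP

/-!
# MP_d439b2_co, Theorem K, P6b: symmetrization for epsilon nets
-/

set_option autoImplicit false

namespace Pool.Agent.MPd439b2.KS

namespace p6bAux

open Finset

/-- Sauer-Shelah for pullbacks -/
theorem traces {α β : Type} [Fintype α] [DecidableEq α] [DecidableEq β] (w : α → β)
    (F : Finset (Finset β)) (d : ℕ) (hF : ∀ U : Finset β, U.card = d → ¬ F.Shatters U) :
    (F.image fun A => univ.filter fun a => w a ∈ A).card ≤
      ∑ k ∈ range d, (Fintype.card α).choose k := by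
  set G := F.image fun A => univ.filter fun a => w a ∈ A with hG
  have h1 : ∀ T : Finset α, G.Shatters T → T.card < d := by
    intro T hT
    by_contra hlt
    push Not at hlt
    obtain ⟨T', hT', hc⟩ := exists_subset_card_eq hlt
    have hs : G.Shatters T' := hT.mono_right hT'
    have hinj : Set.InjOn w T' := by
      intro p hp q hq hpq
      by_contra hne
      obtain ⟨B, hB, hB2⟩ := hs (singleton_subset_iff.2 hp)
      obtain ⟨A, hA, rfl⟩ := mem_image.1 hB
      have hp1 : p ∈ T' ∩ (univ.filter fun a => w a ∈ A) := by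
        rw [hB2]
        exact mem_singleton_self p
      have hq1 : q ∈ T' ∩ (univ.filter fun a => w a ∈ A) := by
        rw [mem_inter, mem_filter] at hp1 ⊢
        refine ⟨hq, mem_univ _, ?_⟩
        rw [← hpq]
        exact hp1.2.2
      rw [hB2, mem_singleton] at hq1
      exact hne hq1.symm
    refine hF (T'.image w) (by rw [card_image_of_injOn hinj, hc]) ?_
    intro S hS
    obtain ⟨B, hB, hB2⟩ := hs (filter_subset (fun a => w a ∈ S) T')
    obtain ⟨A, hA, rfl⟩ := mem_image.1 hB
    refine ⟨A, hA, ?_⟩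
    have key : ∀ p ∈ T', (w p ∈ A ↔ w p ∈ S) := by
      intro p hp
      have h2 := Finset.ext_iff.1 hB2 p
      rw [mem_inter, mem_filter, mem_filter] at h2
      constructor
      · intro h3
        exact (h2.1 ⟨hp, mem_univ _, h3⟩).2
      · intro h3
        exact (h2.2 ⟨hp, h3⟩).2.2
    ext u
    rw [mem_inter, mem_image]
    constructor
    · rintro ⟨⟨p, hp, rfl⟩, h3⟩
      exact (key p hp).1 h3
    · intro h3
      obtain ⟨p, hp, rfl⟩ := mem_image.1 (hS h3)
      exact ⟨⟨p, hp, rfl⟩, (key p hp).2 h3⟩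
  calc G.card ≤ G.shatterer.card := card_le_card_shatterer G
    _ ≤ ((range d).biUnion fun k => powersetCard k (univ : Finset α)).card := by
        refine card_le_card ?_
        intro T hT
        rw [mem_shatterer] at hT
        rw [mem_biUnion]
        exact ⟨T.card, mem_range.2 (h1 T hT), mem_powersetCard.2 ⟨subset_univ _, rfl⟩⟩
    _ ≤ ∑ k ∈ range d, (powersetCard k (univ : Finset α)).card := card_biUnion_le
    _ = ∑ k ∈ range d, (Fintype.card α).choose k := by
        refine sum_congr rfl fun k _ => ?_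
        rw [card_powersetCard, card_univ]

/-- the number of exchanges which are possible for a trace -/
theorem swaps {ρ : Type} [Fintype ρ] [DecidableEq ρ] (h : ℕ) (B : Finset (ρ × Bool)) :
    2 ^ h * (univ.filter fun σ : ρ → Bool => (∀ i, (i, σ i) ∉ B) ∧
      h ≤ (univ.filter fun i => (i, !σ i) ∈ B).card).card ≤ 2 ^ Fintype.card ρ := by
  rcases (univ.filter fun σ : ρ → Bool => (∀ i, (i, σ i) ∉ B) ∧
      h ≤ (univ.filter fun i => (i, !σ i) ∈ B).card).eq_empty_or_nonempty with he | ⟨σ₀, h0⟩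
  · rw [he, card_empty, mul_zero]
    exact Nat.zero_le _
  · rw [mem_filter] at h0
    obtain ⟨-, -, h2⟩ := h0
    set H : Finset ρ := univ.filter fun i => (i, !σ₀ i) ∈ B with hH
    have hsub : (univ.filter fun σ : ρ → Bool => (∀ i, (i, σ i) ∉ B) ∧
        h ≤ (univ.filter fun i => (i, !σ i) ∈ B).card) ⊆
        Fintype.piFinset (fun i => if i ∈ H then {σ₀ i} else (univ : Finset Bool)) := by
      intro σ hσ
      rw [mem_filter] at hσ
      rw [Fintype.mem_piFinset]
      intro i
      by_cases hi : i ∈ H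
      · rw [if_pos hi, mem_singleton]
        rw [hH, mem_filter] at hi
        by_contra hne
        have h3 : σ i = !σ₀ i := by
          cases h4 : σ i <;> cases h5 : σ₀ i <;> simp_all
        exact hσ.2.1 i (by rw [h3]; exact hi.2)
      · rw [if_neg hi]
        exact mem_univ _
    have hcard := card_le_card hsub
    rw [Fintype.card_piFinset] at hcard
    have h3 : ∀ i : ρ, (if i ∈ H then {σ₀ i} else (univ : Finset Bool)).card =
        if i ∈ H then 1 else 2 := by
      intro i
      split_ifs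
      · exact card_singleton _
      · rfl
    simp only [h3] at hcard
    rw [prod_ite, prod_const_one, one_mul, prod_const] at hcard
    have h4 : (univ.filter fun i : ρ => i ∉ H).card = Fintype.card ρ - H.card := by
      rw [filter_not, ← compl_eq_univ_sdiff, card_compl]
      congr 2
      ext i
      simp
    rw [h4] at hcard
    have h5 : H.card ≤ Fintype.card ρ := card_le_univ H
    calc 2 ^ h * _ ≤ 2 ^ H.card * 2 ^ (Fintype.card ρ - H.card) :=
          Nat.mul_le_mul (Nat.pow_le_pow_right (by norm_num) h2) hcard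
      _ = 2 ^ Fintype.card ρ := by
          rw [← pow_add]
          congr 1
          omega

/-- exchange of the coordinates -/
def sw {ρ : Type} {T : ℕ} (σ : ρ → Bool) (s : (ρ → Fin T) × (ρ → Fin T)) :
    (ρ → Fin T) × (ρ → Fin T) :=
  (fun i => if σ i then s.2 i else s.1 i, fun i => if σ i then s.1 i else s.2 i)

theorem sw_sw {ρ : Type} {T : ℕ} (σ : ρ → Bool) (s : (ρ → Fin T) × (ρ → Fin T)) :
    sw σ (sw σ s) = s := by
  unfold sw
  ext i <;> cases h : σ i <;> simp [h]

/-- the values -/
def val {ρ : Type} {T : ℕ} (s : (ρ → Fin T) × (ρ → Fin T)) (q : ρ × Bool) : Fin T :=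
  if q.2 then s.2 q.1 else s.1 q.1

theorem sw_one {ρ : Type} {T : ℕ} (σ : ρ → Bool) (s : (ρ → Fin T) × (ρ → Fin T)) (i : ρ) :
    (sw σ s).1 i = val s (i, σ i) := rfl

theorem sw_two {ρ : Type} {T : ℕ} (σ : ρ → Bool) (s : (ρ → Fin T) × (ρ → Fin T)) (i : ρ) :
    (sw σ s).2 i = val s (i, !σ i) := by
  unfold sw val
  cases h : σ i <;> simp [h]

open Classical in
theorem main (d h T : ℕ) (ρ : Type) [Fintype ρ] (F : Finset (Finset (Fin T)))
    (hF : ∀ U : Finset (Fin T), U.card = d → ¬ F.Shatters U) (s : (ρ → Fin T) × (ρ → Fin T)) :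
    2 ^ h * (univ.filter fun σ : ρ → Bool => ∃ A ∈ F, (∀ i, (sw σ s).1 i ∉ A) ∧
      h ≤ (univ.filter fun i => (sw σ s).2 i ∈ A).card).card ≤
      (∑ k ∈ range d, (2 * Fintype.card ρ).choose k) * 2 ^ Fintype.card ρ := by
  set G := F.image fun A => univ.filter fun q : ρ × Bool => val s q ∈ A with hG
  have hGc : G.card ≤ ∑ k ∈ range d, (2 * Fintype.card ρ).choose k := by
    have h1 := traces (val s) F d hF
    rw [Fintype.card_prod, Fintype.card_bool, mul_comm] at h1
    exact h1
  have hsub : (univ.filter fun σ : ρ → Bool => ∃ A ∈ F, (∀ i, (sw σ s).1 i ∉ A) ∧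
      h ≤ (univ.filter fun i => (sw σ s).2 i ∈ A).card) ⊆
      G.biUnion fun B => univ.filter fun σ : ρ → Bool => (∀ i, (i, σ i) ∉ B) ∧
        h ≤ (univ.filter fun i => (i, !σ i) ∈ B).card := by
    intro σ hσ
    rw [mem_filter] at hσ
    obtain ⟨-, A, hA, h1, h2⟩ := hσ
    rw [mem_biUnion]
    refine ⟨_, mem_image.2 ⟨A, hA, rfl⟩, ?_⟩
    rw [mem_filter]
    refine ⟨mem_univ _, ?_, ?_⟩
    · intro i hi
      rw [mem_filter] at hi
      exact h1 i hi.2
    · refine h2.trans (card_le_card ?_)
      intro i hi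
      rw [mem_filter] at hi ⊢
      refine ⟨mem_univ _, ?_⟩
      rw [mem_filter]
      refine ⟨mem_univ _, ?_⟩
      rw [← sw_two]
      exact hi.2
  calc 2 ^ h * _ ≤ 2 ^ h * (G.biUnion fun B => univ.filter fun σ : ρ → Bool =>
        (∀ i, (i, σ i) ∉ B) ∧ h ≤ (univ.filter fun i => (i, !σ i) ∈ B).card).card :=
        Nat.mul_le_mul_left _ (card_le_card hsub)
    _ ≤ 2 ^ h * ∑ B ∈ G, (univ.filter fun σ : ρ → Bool =>
        (∀ i, (i, σ i) ∉ B) ∧ h ≤ (univ.filter fun i => (i, !σ i) ∈ B).card).card :=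
        Nat.mul_le_mul_left _ card_biUnion_le
    _ = ∑ B ∈ G, 2 ^ h * (univ.filter fun σ : ρ → Bool =>
        (∀ i, (i, σ i) ∉ B) ∧ h ≤ (univ.filter fun i => (i, !σ i) ∈ B).card).card := mul_sum _ _ _
    _ ≤ ∑ B ∈ G, 2 ^ Fintype.card ρ := sum_le_sum fun B _ => by
        refine le_trans (le_of_eq ?_) (swaps h B)
        congr 3
    _ = G.card * 2 ^ Fintype.card ρ := by rw [sum_const, smul_eq_mul]
    _ ≤ _ := Nat.mul_le_mul_right _ hGc

end p6bAux

open p6bAux Finset in
theorem p6b : S_P6b := by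
  classical
  intro d h T ρ _ F hF
  set E : (ρ → Fin T) × (ρ → Fin T) → Prop := fun s => ∃ A ∈ F,
    (∀ i, s.1 i ∉ A) ∧ h ≤ (Finset.univ.filter fun i => s.2 i ∈ A).card with hE
  have h1 : ∀ σ : ρ → Bool, (univ.filter fun s => E (sw σ s)).card = (univ.filter E).card := by
    intro σ
    refine card_bij (fun s _ => sw σ s) ?_ ?_ ?_
    · intro s hs
      rw [mem_filter] at hs ⊢
      exact ⟨mem_univ _, hs.2⟩
    · intro s _ s' _ hss
      rw [← sw_sw σ s, hss, sw_sw]
    · intro s hs
      rw [mem_filter] at hs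
      refine ⟨sw σ s, ?_, sw_sw σ s⟩
      rw [mem_filter]
      refine ⟨mem_univ _, ?_⟩
      rw [sw_sw]
      exact hs.2
  have h2 : 2 ^ Fintype.card ρ * (univ.filter E).card =
      ∑ s : (ρ → Fin T) × (ρ → Fin T), (univ.filter fun σ : ρ → Bool => E (sw σ s)).card := by
    have h3 : ∑ σ : ρ → Bool, (univ.filter fun s => E (sw σ s)).card =
        ∑ s : (ρ → Fin T) × (ρ → Fin T), (univ.filter fun σ : ρ → Bool => E (sw σ s)).card := by
      simp only [card_filter]
      exact sum_comm
    rw [← h3, sum_congr rfl fun σ _ => h1 σ, sum_const, smul_eq_mul, card_univ,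
      Fintype.card_fun, Fintype.card_bool]
  have h4 : 2 ^ Fintype.card ρ * (2 ^ h * (univ.filter E).card) ≤
      2 ^ Fintype.card ρ * ((∑ k ∈ range d, (2 * Fintype.card ρ).choose k) *
        T ^ (2 * Fintype.card ρ)) := by
    calc 2 ^ Fintype.card ρ * (2 ^ h * (univ.filter E).card)
        = 2 ^ h * (2 ^ Fintype.card ρ * (univ.filter E).card) := by ring
      _ = ∑ s : (ρ → Fin T) × (ρ → Fin T),
          2 ^ h * (univ.filter fun σ : ρ → Bool => E (sw σ s)).card := by rw [h2, mul_sum]
      _ ≤ ∑ s : (ρ → Fin T) × (ρ → Fin T),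
          (∑ k ∈ range d, (2 * Fintype.card ρ).choose k) * 2 ^ Fintype.card ρ :=
          sum_le_sum fun s _ => by
            refine le_trans (le_of_eq ?_) (main d h T ρ F hF s)
            congr 2
      _ = _ := by
          rw [sum_const, smul_eq_mul, card_univ, Fintype.card_prod, Fintype.card_fun,
            Fintype.card_fin]
          ring
  have h5 := Nat.le_of_mul_le_mul_left h4 (by positivity)
  refine le_trans (le_of_eq ?_) h5
  congr 2

end Pool.Agent.MPd439b2.KS
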