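import Pool.Agent.Lib.MP_d439b2_co.KS.SpecP

/-!
# MP_d439b2_co, KS: P6c, numbers for the epsilon-net theorem
-/

set_option autoImplicit false

namespace Pool.Agent.MPd439b2.KS

namespace p6cAux

lemma bern (m n : ℕ) : m ^ (n + 1) + (n + 1) * m ^ n ≤ (m + 1) ^ (n + 1) := by
  induction n with
  | zero => simp
  | succ n ih =>
    calc m ^ (n + 1 + 1) + (n + 1 + 1) * m ^ (n + 1)
        ≤ (m + 1) * (m ^ (n + 1) + (n + 1) * m ^ n) := by
          have h : (m + 1) * (m ^ (n + 1) + (n + 1) * m ^ n) =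
            m ^ (n + 1 + 1) + (n + 1 + 1) * m ^ (n + 1) + (n + 1) * m ^ n := by ring
          rw [h]
          exact Nat.le_add_right _ _
      _ ≤ (m + 1) * (m + 1) ^ (n + 1) := Nat.mul_le_mul_left _ ih
      _ = (m + 1) ^ (n + 1 + 1) := by ring

lemma two_mul_pow (m : ℕ) : 2 * m ^ (m + 1) ≤ (m + 1) ^ (m + 1) := by
  have h := bern m m
  have h2 : (m + 1) * m ^ m = m ^ (m + 1) + m ^ m := by ring
  have h3 : 2 * m ^ (m + 1) = m ^ (m + 1) + m ^ (m + 1) := by ring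
  omega

/-- the first inequality for the exponent `g (2 h)` -/
lemma first (g h : ℕ) (hg : 1 ≤ g) : 2 * h * (g - 1) ^ (g * (2 * h)) ≤ g ^ (g * (2 * h)) := by
  obtain ⟨m, rfl⟩ : ∃ m, g = m + 1 := ⟨g - 1, by omega⟩
  rw [Nat.add_sub_cancel, pow_mul m (m + 1) (2 * h), pow_mul (m + 1) (m + 1) (2 * h)]
  calc 2 * h * (m ^ (m + 1)) ^ (2 * h) ≤ 2 ^ (2 * h) * (m ^ (m + 1)) ^ (2 * h) :=
        Nat.mul_le_mul_right _ (Nat.lt_two_pow_self).le
    _ = (2 * m ^ (m + 1)) ^ (2 * h) := by rw [mul_pow]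
    _ ≤ ((m + 1) ^ (m + 1)) ^ (2 * h) := Nat.pow_le_pow_left (two_mul_pow m) _

/-- the sum of the binomial coefficients is polynomial -/
lemma sum_le (d n : ℕ) (hn : 1 ≤ n) : ∑ k ∈ Finset.range d, n.choose k ≤ d * n ^ d := by
  calc ∑ k ∈ Finset.range d, n.choose k ≤ ∑ _k ∈ Finset.range d, n ^ d := by
        refine Finset.sum_le_sum fun k hk => ?_
        exact (Nat.choose_le_pow n k).trans
          (Nat.pow_le_pow_right hn (Finset.mem_range.1 hk).le)
    _ = d * n ^ d := by rw [Finset.sum_const, Finset.card_range, smul_eq_mul]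

/-- exponentials are larger than polynomials -/
lemma large (C e : ℕ) : ∃ h : ℕ, 1 ≤ h ∧ C * h ^ e < 2 ^ h := by
  have ht := tendsto_pow_const_div_const_pow_of_one_lt e (r := (2 : ℝ)) (by norm_num)
  have hC : (0 : ℝ) < 1 / ((C : ℝ) + 1) := by positivity
  have h1 := ht.eventually_lt_const hC
  obtain ⟨h, h2, h3⟩ := (h1.and (Filter.eventually_ge_atTop 1)).exists
  refine ⟨h, h3, ?_⟩
  have h4 : (0 : ℝ) < 2 ^ h := by positivity
  have h5 : (0 : ℝ) < (C : ℝ) + 1 := by positivity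
  rw [div_lt_div_iff₀ h4 h5] at h2
  have h6 : (0 : ℝ) < (h : ℝ) ^ e := by
    have : (0 : ℝ) < (h : ℝ) := by exact_mod_cast h3
    positivity
  have h7 : (C : ℝ) * (h : ℝ) ^ e < 2 ^ h := by nlinarith
  exact_mod_cast h7

end p6cAux

open p6cAux in
/-- **P6c.** -/
theorem p6c : S_P6c := by
  intro d g hg
  obtain ⟨h, hh, hlt⟩ := large (2 * d * (4 * g) ^ d) (2 * d)
  refine ⟨h, g * (2 * h), hh, ?_, first g h hg, ?_⟩
  · exact Nat.mul_pos (by omega) (by omega)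
  · have hn : 2 * (h * (g * (2 * h))) = 4 * g * h ^ 2 := by ring
    rw [hn]
    have hpos : 1 ≤ 4 * g * h ^ 2 := Nat.mul_pos (by omega) (Nat.pow_pos (by omega))
    have h1 := sum_le d (4 * g * h ^ 2) hpos
    calc 2 * ∑ k ∈ Finset.range d, (4 * g * h ^ 2).choose k ≤ 2 * (d * (4 * g * h ^ 2) ^ d) :=
          Nat.mul_le_mul_left _ h1
      _ = 2 * d * (4 * g) ^ d * h ^ (2 * d) := by rw [mul_pow, ← pow_mul]; ring
      _ < 2 ^ h := hlt

end Pool.Agent.MPd439b2.KS
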