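import Pool.Agent.Lib.MP_d439b2_co.KS.SpecP

/-! Module P7 of MP_d439b2_co, Theorem K: the (p,q)-theorem. -/

set_option autoImplicit false

namespace Pool.Agent.MPd439b2.KS

open Classical in
theorem p7 (h4 : S_P4) (h5 : S_P5) (h6 : S_P6) : S_P7 := by
  intro d p hdp
  obtain ⟨b, hb1, hb⟩ := h4 d p hdp
  obtain ⟨f, hf⟩ := h6 d (2 * b)
  refine ⟨f, ?_⟩
  intro V _ R VV hsym hVC hpd
  obtain ⟨T, y, hT, hy⟩ := h5 b hb1 V R VV (fun w hw => hb V R VV hVC hpd w hw)
  set Av : V → Finset (Fin T) := fun v => Finset.univ.filter (fun t => R (y t) v) with hAv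
  have hmem : ∀ v t, t ∈ Av v ↔ R (y t) v := by
    intro v t
    simp [hAv]
  have c1 : ∀ U : Finset (Fin T), U.card = d → ¬ (VV.image Av).Shatters U := by
    intro U hU hsh
    have key : ∀ S : Finset (Fin T), S ⊆ U → ∃ x, ∀ t ∈ U, R x (y t) ↔ t ∈ S := by
      intro S hS
      obtain ⟨A, hA, hAS⟩ := hsh hS
      obtain ⟨v, hv, rfl⟩ := Finset.mem_image.1 hA
      refine ⟨v, fun t ht => ?_⟩
      rw [← hAS, Finset.mem_inter, hmem]
      exact ⟨fun h => ⟨ht, hsym _ _ h⟩, fun h => hsym _ _ h.2⟩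
    have hinj : Set.InjOn y (U : Set (Fin T)) := by
      intro i hi j hj hij
      by_contra hne
      obtain ⟨x, hx⟩ := key {i} (by simpa using hi)
      have hi' := (hx i hi).2 (by simp)
      have hj' : R x (y j) := by rw [← hij]; exact hi'
      have := (hx j hj).1 hj'
      rw [Finset.mem_singleton] at this
      exact hne this.symm
    apply hVC (U.image y)
    · rw [Finset.card_image_of_injOn hinj, hU]
    · intro S hS
      obtain ⟨x, hx⟩ := key (U.filter (fun i => y i ∈ S)) (Finset.filter_subset _ _)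
      refine ⟨x, fun u hu => ?_⟩
      obtain ⟨i, hi, rfl⟩ := Finset.mem_image.1 hu
      rw [hx i hi, Finset.mem_filter]
      exact ⟨fun h => h.2, fun h => ⟨hi, h⟩⟩
  have c2 : ∀ A ∈ VV.image Av, T ≤ 2 * b * A.card := by
    intro A hA
    obtain ⟨v, hv, rfl⟩ := Finset.mem_image.1 hA
    exact hy v hv
  obtain ⟨Y, hYc, hY⟩ := hf T (VV.image Av) hT (fun U hU => by convert c1 U hU) c2
  refine ⟨Y.image y, Finset.card_image_le.trans hYc, fun v hv => ?_⟩
  obtain ⟨t, ht, htY⟩ := hY (Av v) (Finset.mem_image_of_mem _ hv)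
  exact ⟨y t, Finset.mem_image_of_mem _ htY, (hmem v t).1 ht⟩

end Pool.Agent.MPd439b2.KS
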