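import Pool.Agent.Lib.MP_d439b2_co.KS.SpecU

/-!
# MP_d439b2_co, Theorem K, U1: a connected set which touches many sets
-/

set_option autoImplicit false

namespace Pool.Agent.MPd439b2.KS

namespace u1Aux

variable {V : Type} {G : SimpleGraph V}

/-- removing a component of `D \ {x}` leaves a connected set -/
theorem conn_sdiff {D K : Set V} {x : V} (hD : Conn G D) (hx : x ∈ D) (hKs : K ⊆ D \ {x})
    (hK : ∀ u ∈ D \ {x}, u ∉ nb G K) : Conn G (D \ K) := by
  have hxK : x ∉ K := fun h => (hKs h).2 rfl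
  refine ⟨⟨x, hx, hxK⟩, fun B hB hBne hBne' => ?_⟩
  by_contra hcon
  push Not at hcon
  by_cases hxB : x ∈ B
  · have hC : ((D \ K) \ B).Nonempty := by
      by_contra h1
      rw [Set.not_nonempty_iff_eq_empty, Set.sdiff_eq_empty] at h1
      exact hBne' (Set.Subset.antisymm hB h1)
    have h2 := hD.eq_of_nb (C := (D \ K) \ B) (fun y hy => hy.1.1) hC (by
      intro w hw hwn
      obtain ⟨hw1, c, hc, hcw⟩ := hwn
      by_cases hwK : w ∈ K
      · refine hK c ⟨hc.1.1, fun h => ?_⟩ ⟨hc.1.2, w, hwK, hcw.symm⟩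
        rw [Set.mem_singleton_iff] at h
        subst h
        exact hc.2 hxB
      · have hwB : w ∈ B := by
          by_contra h3
          exact hw1 ⟨⟨hw, hwK⟩, h3⟩
        exact hcon w hwB c hc hcw.symm)
    have h3 : x ∈ (D \ K) \ B := by rw [h2]; exact hx
    exact h3.2 hxB
  · have h2 := hD.eq_of_nb (C := B) (fun y hy => (hB hy).1) hBne (by
      intro w hw hwn
      obtain ⟨hw1, c, hc, hcw⟩ := hwn
      by_cases hwK : w ∈ K
      · refine hK c ⟨(hB hc).1, fun h => ?_⟩ ⟨(hB hc).2, w, hwK, hcw.symm⟩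
        rw [Set.mem_singleton_iff] at h
        subst h
        exact hxB hc
      · exact hcon c hc w ⟨⟨hw, hwK⟩, hw1⟩ hcw)
    exact hxB (h2 ▸ hx)

end u1Aux

open u1Aux in
theorem u1 : S_U1 := by
  intro V _ G I B D d C hD hT hd hC
  classical
  let cen : V → Prop := fun x => x ∈ D ∧ ∀ W ⊆ D, Conn G W → x ∉ W → (tau G I B W).card < C
  have huniq : ∀ x x', cen x → cen x' → x = x' := by
    intro x x' hx hx'
    by_contra hne
    obtain ⟨K, hKs, hxK, hK, hKn⟩ := exists_comp G (A := D \ {x}) (v := x')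
      ⟨hx'.1, fun h => hne h.symm⟩
    have hc := conn_sdiff hD hx.1 hKs hKn
    have h1 := hx.2 K (fun y hy => (hKs hy).1) hK (fun h => (hKs h).2 rfl)
    have h2 := hx'.2 (D \ K) (fun y hy => hy.1) hc (fun h => h.2 hxK)
    have h3 : I ⊆ tau G I B K ∪ tau G I B (D \ K) := by
      intro i hi
      obtain ⟨a, ha, b, hb, hab⟩ := hT i hi
      rw [Finset.mem_union, mem_tau, mem_tau]
      by_cases haK : a ∈ K
      · left; exact ⟨hi, a, haK, b, hb, hab⟩
      · right; exact ⟨hi, a, ⟨ha, haK⟩, b, hb, hab⟩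
    have h4 := (Finset.card_le_card h3).trans (Finset.card_union_le _ _)
    omega
  have key : ∀ x ∈ D, ¬ cen x →
      ∃ W ⊆ D, Conn G W ∧ x ∉ W ∧ Tch G {x} W ∧ C ≤ (tau G I B W).card := by
    intro x hx hn
    have h0 : ∃ W ⊆ D, Conn G W ∧ x ∉ W ∧ C ≤ (tau G I B W).card := by
      by_contra hcon
      push Not at hcon
      exact hn ⟨hx, fun W hW hWc hxW => hcon W hW hWc hxW⟩
    obtain ⟨W₀, hW₀, hc₀, hx₀, hC₀⟩ := h0
    obtain ⟨w, hw⟩ := hc₀.1
    have hout : ∀ y ∈ W₀, y ∈ D \ {x} := by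
      intro y hy
      refine ⟨hW₀ hy, fun h => ?_⟩
      rw [Set.mem_singleton_iff] at h
      subst h
      exact hx₀ hy
    obtain ⟨K, hKs, hwK, hK, hKn⟩ := exists_comp G (A := D \ {x}) (v := w) (hout w hw)
    have hsub : W₀ ⊆ K := by
      have h1 := hc₀.eq_of_nb (C := W₀ ∩ K) Set.inter_subset_left ⟨w, hw, hwK⟩ (by
        intro v hv hvn
        obtain ⟨hv1, c, hc, hcv⟩ := hvn
        exact hKn v (hout v hv) ⟨fun h => hv1 ⟨hv, h⟩, c, hc.2, hcv⟩)
      rw [← h1]; exact Set.inter_subset_right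
    refine ⟨K, fun y hy => (hKs hy).1, hK, fun h => (hKs h).2 rfl, ?_,
      hC₀.trans (Finset.card_le_card ?_)⟩
    · obtain ⟨b, hb, a, ha, hab⟩ := hD.2 K (fun y hy => (hKs hy).1) ⟨w, hwK⟩ (fun h => by
        have h5 : x ∈ K := h ▸ hx
        exact (hKs h5).2 rfl)
      have hax : a = x := by
        by_contra hne
        exact hKn a ⟨ha.1, hne⟩ ⟨ha.2, b, hb, hab⟩
      subst hax
      exact ⟨a, rfl, b, hb, hab.symm⟩
    · intro i hi
      rw [mem_tau] at hi ⊢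
      exact ⟨hi.1, hi.2.mono hsub (fun _ h => h)⟩
  by_cases hz : ∃ z, cen z
  · obtain ⟨z, hz⟩ := hz
    refine ⟨tau G I B {z}, fun i hi => (mem_tau.mp hi).1, hd z hz.1, fun j hj hjZ => ?_⟩
    obtain ⟨x, hx, b, hb, hxb⟩ := hT j hj
    have hne : x ≠ z := fun h => hjZ (mem_tau.mpr ⟨hj, x, by rw [h]; rfl, b, hb, hxb⟩)
    exact ⟨x, hx, ⟨x, rfl, b, hb, hxb⟩, key x hx fun h => hne (huniq x z h hz)⟩
  · refine ⟨∅, Finset.empty_subset _, by simp, fun j hj _ => ?_⟩
    obtain ⟨x, hx, b, hb, hxb⟩ := hT j hj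
    exact ⟨x, hx, ⟨x, rfl, b, hb, hxb⟩, key x hx fun h => hz ⟨x, h⟩⟩

end Pool.Agent.MPd439b2.KS
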