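import Pool.Agent.Lib.MP_d439b2_co.KS.SpecU

/-!
# MP_d439b2_co, Theorem K, U2: the structure of a connected set touching many vertices
-/

set_option autoImplicit false

namespace Pool.Agent.MPd439b2.KS

theorem u2 : (S_U2a) → (S_U2b) → S_U2 := by
  intro ha hb n M q
  obtain ⟨p', hp'⟩ := hb n M q
  obtain ⟨p, hp⟩ := ha n q p'
  refine ⟨p, fun V _ G D v P hD hT hn hP => ?_⟩
  rcases hp V G D v P hD hT hn hP with ⟨P', hP', hc, hS⟩ | ⟨l, s, hs, hl⟩
  · exact ⟨P', hP', hc, Or.inr (Or.inl hS)⟩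
  · have hmono : ∀ x ∈ D, (tau G (tau G P (fun c => {v c}) (seg s 0 l))
        (fun c => {v c}) {x}).card ≤ n := by
      intro x hx
      refine (Finset.card_le_card ?_).trans (hn x hx)
      intro i hi
      rw [mem_tau] at hi ⊢
      exact ⟨(mem_tau.mp hi.1).1, hi.2⟩
    obtain ⟨P', hP', hc, hS⟩ := hp' V G D v (tau G P (fun c => {v c}) (seg s 0 l)) l s hs
      (fun c hc => (mem_tau.mp hc).2) hmono hl
    refine ⟨P', hP'.trans (fun i hi => (mem_tau.mp hi).1), hc, ?_⟩
    rcases hS with h | h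
    · exact Or.inl h
    · exact Or.inr (Or.inr h)

end Pool.Agent.MPd439b2.KS
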