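import Pool.Agent.Lib.MP_d439b2_co.KS.SpecU

/-!
# MP_d439b2_co, Theorem K, U2a: a star or a path with many contacts
-/

set_option autoImplicit false

namespace Pool.Agent.MPd439b2.KS

namespace u2aAux

/-- data of a breadth first search tree -/
structure Tr {V : Type} (G : SimpleGraph V) (D : Set V) (r : V) (d : V → ℕ) (π : V → V) :
    Prop where
  hr : r ∈ D
  d0 : d r = 0
  par : ∀ x ∈ D, x ≠ r → π x ∈ D ∧ G.Adj (π x) x ∧ d x = d (π x) + 1
  lip : ∀ x ∈ D, ∀ y ∈ D, G.Adj x y → d x ≤ d y + 1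

/-- the leaves -/
def lf {V : Type} (D : Set V) (r : V) (π : V → V) : Set V :=
  {x | x ∈ D ∧ x ≠ r ∧ ∀ y ∈ D, y ≠ r → π y ≠ x}

section

variable {V : Type} {G : SimpleGraph V} {D : Set V} {r : V} {d : V → ℕ} {π : V → V}

theorem Tr.par_not (t : Tr G D r d π) {L : Set V} (hL : L ⊆ lf D r π) {x : V} (hx : x ∈ D)
    (hxr : x ≠ r) : π x ∈ D \ L :=
  ⟨(t.par x hx hxr).1, fun h => (hL h).2.2 x hx hxr rfl⟩

theorem Tr.conn (t : Tr G D r d π) {L : Set V} (hL : L ⊆ lf D r π) : Conn G (D \ L) := by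
  have hrL : r ∈ D \ L := ⟨t.hr, fun h => (hL h).2.1 rfl⟩
  refine ⟨⟨r, hrL⟩, fun B hB hne hne' => ?_⟩
  by_contra hcon
  push Not at hcon
  have key : ∀ k : ℕ, ∀ x ∈ D \ L, d x = k → (x ∈ B ↔ r ∈ B) := by
    intro k
    induction k with
    | zero =>
      intro x hx hd
      by_cases hxr : x = r
      · rw [hxr]
      · have := (t.par x hx.1 hxr).2.2
        omega
    | succ k ih =>
      intro x hx hd
      have hxr : x ≠ r := by
        rintro rfl
        rw [t.d0] at hd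
        omega
      obtain ⟨h1, h2, h3⟩ := t.par x hx.1 hxr
      have h4 := t.par_not hL hx.1 hxr
      rw [← ih (π x) h4 (by omega)]
      constructor
      · intro h5
        by_contra h6
        exact hcon x h5 (π x) ⟨h4, h6⟩ h2.symm
      · intro h5
        by_contra h6
        exact hcon (π x) h5 x ⟨hx, h6⟩ h2
  obtain ⟨b, hb⟩ := hne
  have hrB := (key _ b (hB hb) rfl).1 hb
  exact hne' (Set.Subset.antisymm hB fun x hx => (key _ x hx rfl).2 hrB)

/-- every vertex is a leaf or a parent -/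
theorem Tr.cov1 (t : Tr G D r d π) (h : ∃ y ∈ D, y ≠ r) (x : V) (hx : x ∈ D) :
    x ∈ lf D r π ∨ ∃ y ∈ D, y ≠ r ∧ π y = x := by
  by_cases hp : ∃ y ∈ D, y ≠ r ∧ π y = x
  · exact Or.inr hp
  · left
    push Not at hp
    refine ⟨hx, ?_, hp⟩
    rintro rfl
    obtain ⟨y, hy, hyr⟩ := h
    have key : ∀ k : ℕ, ∀ y ∈ D, y ≠ x → d y ≤ k → False := by
      intro k
      induction k with
      | zero =>
        intro y hy hyr hd
        have := (t.par y hy hyr).2.2
        omega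
      | succ k ih =>
        intro y hy hyr hd
        obtain ⟨h1, h2, h3⟩ := t.par y hy hyr
        exact ih (π y) h1 (hp y hy hyr) (by omega)
    exact key _ y hy hyr le_rfl

theorem Tr.cov [Finite V] (t : Tr G D r d π) (h : ∃ y ∈ D, y ≠ r) (x : V) (hx : x ∈ D) :
    ∃ y ∈ lf D r π, ∃ i, i ≤ d y ∧ π^[i] y = x := by
  obtain ⟨M, hM⟩ : ∃ M, ∀ x ∈ D, d x ≤ M := by
    obtain ⟨z, hz, hmax⟩ := Set.exists_max_image D d (Set.toFinite _) ⟨r, t.hr⟩
    exact ⟨d z, hmax⟩
  have key : ∀ k : ℕ, ∀ x ∈ D, M ≤ d x + k → ∃ y ∈ lf D r π, ∃ i, d y = d x + i ∧ π^[i] y = x := by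
    intro k
    induction k with
    | zero =>
      intro x hx hd
      rcases t.cov1 h x hx with h1 | ⟨y, hy, hyr, hyx⟩
      · exact ⟨x, h1, 0, rfl, rfl⟩
      · have h2 := (t.par y hy hyr).2.2
        rw [hyx] at h2
        have := hM y hy
        omega
    | succ k ih =>
      intro x hx hd
      rcases t.cov1 h x hx with h1 | ⟨y, hy, hyr, hyx⟩
      · exact ⟨x, h1, 0, rfl, rfl⟩
      · have h2 := (t.par y hy hyr).2.2
        rw [hyx] at h2
        obtain ⟨z, hz, i, hi, hzi⟩ := ih y hy (by omega)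
        refine ⟨z, hz, i + 1, by omega, ?_⟩
        rw [Function.iterate_succ_apply', hzi, hyx]
  obtain ⟨y, hy, i, hi, hyi⟩ := key M x hx (by omega)
  exact ⟨y, hy, i, by omega, hyi⟩

theorem Tr.iter (t : Tr G D r d π) (x : V) (hx : x ∈ D) (i : ℕ) (hi : i ≤ d x) :
    π^[i] x ∈ D ∧ d (π^[i] x) + i = d x := by
  induction i with
  | zero => exact ⟨hx, rfl⟩
  | succ i ih =>
    obtain ⟨h1, h2⟩ := ih (by omega)
    have hne : π^[i] x ≠ r := by
      intro h
      rw [h, t.d0] at h2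
      omega
    obtain ⟨h3, h4, h5⟩ := t.par _ h1 hne
    rw [Function.iterate_succ_apply']
    exact ⟨h3, by omega⟩

theorem Tr.iter_adj (t : Tr G D r d π) (x : V) (hx : x ∈ D) (i : ℕ) (hi : i + 1 ≤ d x) :
    G.Adj (π^[i + 1] x) (π^[i] x) := by
  obtain ⟨h1, h2⟩ := t.iter x hx i (by omega)
  have hne : π^[i] x ≠ r := by
    intro h
    rw [h, t.d0] at h2
    omega
  rw [Function.iterate_succ_apply']
  exact (t.par _ h1 hne).2.1

theorem Tr.indP (t : Tr G D r d π) (x : V) (hx : x ∈ D) {D' : Set V} (hD : D ⊆ D') :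
    IndP G D' (d x + 1) (fun i => π^[i] x) := by
  refine ⟨fun i hi => hD (t.iter x hx i (by omega)).1, ?_, ?_⟩
  · intro i hi j hj hij
    have h1 := (t.iter x hx i (by omega)).2
    have h2 := (t.iter x hx j (by omega)).2
    have hij' : π^[i] x = π^[j] x := hij
    rw [hij'] at h1
    omega
  · intro i hi j hj
    obtain ⟨hi1, hi2⟩ := t.iter x hx i (by omega)
    obtain ⟨hj1, hj2⟩ := t.iter x hx j (by omega)
    constructor
    · intro h
      have h' : G.Adj (π^[i] x) (π^[j] x) := h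
      have h1 := t.lip _ hi1 _ hj1 h'
      have h2 := t.lip _ hj1 _ hi1 h'.symm
      have h3 : i ≠ j := by
        rintro rfl
        exact G.loopless.1 _ h'
      omega
    · rintro (rfl | rfl)
      · exact t.iter_adj x hx j (by omega)
      · exact (t.iter_adj x hx i (by omega)).symm

end

theorem mem_a {V : Type} {G : SimpleGraph V} {P : Finset ℕ} {v : ℕ → V} {D : Set V} {c : ℕ} :
    c ∈ tau G P (fun c => {v c}) D ↔ c ∈ P ∧ ∃ x ∈ D, G.Adj x (v c) := by
  rw [mem_tau]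
  constructor
  · rintro ⟨h1, x, hx, _, rfl, h2⟩
    exact ⟨h1, x, hx, h2⟩
  · rintro ⟨h1, x, hx, h2⟩
    exact ⟨h1, x, hx, v c, rfl, h2⟩

end u2aAux

open u2aAux in
theorem u2a (h0 : S_U0) : S_U2a := by
  classical
  intro n q p'
  refine ⟨q * p' + n + 1, ?_⟩
  intro V _ G D v P hD hT hn hp
  -- a minimal connected subset
  obtain ⟨D₀, hD₀, hmin⟩ : ∃ D₀ ∈ {E : Set V | E ⊆ D ∧ Conn G E ∧
      q * p' + n + 1 ≤ (tau G P (fun c => {v c}) E).card},
      ∀ E ∈ {E : Set V | E ⊆ D ∧ Conn G E ∧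
        q * p' + n + 1 ≤ (tau G P (fun c => {v c}) E).card}, D₀.ncard ≤ E.ncard := by
    refine Set.exists_min_image _ Set.ncard (Set.toFinite _) ⟨D, Set.Subset.rfl, hD, ?_⟩
    have h1 : tau G P (fun c => {v c}) D = P := by
      ext c
      rw [mem_a]
      constructor
      · exact fun h => h.1
      · intro h
        obtain ⟨x, hx, _, rfl, h2⟩ := hT c h
        exact ⟨h, x, hx, h2⟩
    rw [h1]
    exact hp
  obtain ⟨hsub, hconn, hbig⟩ := hD₀
  obtain ⟨r, hr⟩ := hconn.1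
  obtain ⟨d, π, hd0, hpar, hlip⟩ := h0 V G D₀ r hconn hr
  have t : Tr G D₀ r d π := ⟨hr, hd0, hpar, hlip⟩
  -- private neighbours
  have hpriv : ∀ x ∈ lf D₀ r π, ∃ c ∈ P, G.Adj x (v c) ∧
      ∀ y ∈ D₀, y ≠ x → ¬ G.Adj y (v c) := by
    intro x hx
    have h1 : Conn G (D₀ \ {x}) := t.conn (Set.singleton_subset_iff.2 hx)
    have h2 : (D₀ \ {x}).ncard < D₀.ncard :=
      Set.ncard_lt_ncard ⟨Set.sdiff_subset, fun h => (h hx.1).2 rfl⟩ (Set.toFinite _)
    have h3 : (tau G P (fun c => {v c}) (D₀ \ {x})).card < q * p' + n + 1 := by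
      by_contra hcon
      push Not at hcon
      have := hmin (D₀ \ {x}) ⟨fun y hy => hsub hy.1, h1, hcon⟩
      omega
    obtain ⟨c, hc, hc'⟩ : ∃ c ∈ tau G P (fun c => {v c}) D₀,
        c ∉ tau G P (fun c => {v c}) (D₀ \ {x}) := by
      by_contra hcon
      push Not at hcon
      have := Finset.card_le_card hcon
      omega
    rw [mem_a] at hc hc'
    obtain ⟨hcP, y, hy, hyc⟩ := hc
    have h4 : ∀ y ∈ D₀, y ≠ x → ¬ G.Adj y (v c) := fun y hy hne h =>
      hc' ⟨hcP, y, ⟨hy, hne⟩, h⟩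
    refine ⟨c, hcP, ?_, h4⟩
    by_contra h5
    refine h4 y hy ?_ hyc
    rintro rfl
    exact h5 hyc
  by_cases hq : q ≤ (lf D₀ r π).ncard
  · -- a star
    left
    obtain ⟨L, hL, hLq⟩ := Set.exists_subset_card_eq hq
    have hpriv' : ∀ x, ∃ c, x ∈ lf D₀ r π → (c ∈ P ∧ G.Adj x (v c) ∧
        ∀ y ∈ D₀, y ≠ x → ¬ G.Adj y (v c)) := by
      intro x
      by_cases hx : x ∈ lf D₀ r π
      · obtain ⟨c, h1, h2, h3⟩ := hpriv x hx
        exact ⟨c, fun _ => ⟨h1, h2, h3⟩⟩
      · exact ⟨0, fun h => absurd h hx⟩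
    choose c hc using hpriv'
    have hinj : ∀ x ∈ L, ∀ y ∈ L, c x = c y → x = y := by
      intro x hx y hy hxy
      by_contra hne
      refine (hc x (hL hx)).2.2 y (hL hy).1 (fun h => hne h.symm) ?_
      rw [hxy]
      exact (hc y (hL hy)).2.1
    have hLfin : L.Finite := Set.toFinite L
    set P' : Finset ℕ := hLfin.toFinset.image c with hP'
    have hmem : ∀ k, k ∈ P' ↔ ∃ x ∈ L, c x = k := by
      intro k
      rw [hP', Finset.mem_image]
      constructor
      · rintro ⟨x, hx, h⟩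
        exact ⟨x, hLfin.mem_toFinset.1 hx, h⟩
      · rintro ⟨x, hx, h⟩
        exact ⟨x, hLfin.mem_toFinset.2 hx, h⟩
    have hxex : ∀ k, ∃ x, k ∈ P' → (x ∈ L ∧ c x = k) := by
      intro k
      by_cases hk : k ∈ P'
      · obtain ⟨x, h1, h2⟩ := (hmem k).1 hk
        exact ⟨x, fun _ => ⟨h1, h2⟩⟩
      · exact ⟨r, fun h => absurd h hk⟩
    choose x hx using hxex
    refine ⟨P', ?_, ?_, x, D₀ \ L, fun y hy => hsub hy.1, t.conn hL, ?_, ?_⟩
    · intro k hk
      obtain ⟨y, hy, rfl⟩ := (hmem k).1 hk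
      exact (hc y (hL hy)).1
    · rw [hP', Finset.card_image_of_injOn, ← Set.ncard_eq_toFinset_card L hLfin, hLq]
      intro y hy z hz h
      exact hinj y (hLfin.mem_toFinset.1 hy) z (hLfin.mem_toFinset.1 hz) h
    · intro k hk
      obtain ⟨h1, h2⟩ := hx k hk
      have h3 := hc (x k) (hL h1)
      rw [h2] at h3
      refine ⟨hsub (hL h1).1, fun h => h.2 h1, ?_, h3.2.1.symm, ?_⟩
      · exact ⟨π (x k), t.par_not hL (hL h1).1 (hL h1).2.1, x k, rfl,
          (t.par (x k) (hL h1).1 (hL h1).2.1).2.1⟩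
      · rintro ⟨w, hw, _, rfl, hadj⟩
        refine h3.2.2 w hw.1 ?_ hadj
        rintro rfl
        exact hw.2 h1
    · intro k hk k' hk' hne
      obtain ⟨h1, h2⟩ := hx k hk
      obtain ⟨h1', h2'⟩ := hx k' hk'
      have h3 := hc (x k) (hL h1)
      rw [h2] at h3
      have h4 : x k ≠ x k' := by
        intro h
        apply hne
        rw [← h2, ← h2', h]
      exact ⟨h4, fun h => h3.2.2 (x k') (hL h1').1 h4.symm h.symm⟩
  · -- a path
    right
    push Not at hq
    have hne : ∃ y ∈ D₀, y ≠ r := by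
      by_contra hcon
      push Not at hcon
      have h1 : D₀ ⊆ {r} := hcon
      have h2 : tau G P (fun c => {v c}) D₀ ⊆ tau G P (fun c => {v c}) {r} := by
        intro c hc
        rw [mem_a] at hc ⊢
        obtain ⟨h3, y, hy, h4⟩ := hc
        exact ⟨h3, y, h1 hy, h4⟩
      have h3 := Finset.card_le_card h2
      have h4 := hn r (hsub hr)
      omega
    by_contra hcon
    push Not at hcon
    set Lf : Finset V := (Set.toFinite (lf D₀ r π)).toFinset with hLf
    have hmem : ∀ y, y ∈ Lf ↔ y ∈ lf D₀ r π := fun y => Set.Finite.mem_toFinset _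
    have hcard : Lf.card < q := by
      rw [hLf, ← Set.ncard_eq_toFinset_card]
      exact hq
    have hcov : tau G P (fun c => {v c}) D₀ ⊆ Lf.biUnion fun y =>
        tau G P (fun c => {v c}) (seg (fun i => π^[i] y) 0 (d y + 1)) := by
      intro c hc
      rw [mem_a] at hc
      obtain ⟨h1, x, hx, h2⟩ := hc
      obtain ⟨y, hy, i, hi, hyi⟩ := t.cov hne x hx
      rw [Finset.mem_biUnion]
      refine ⟨y, (hmem y).2 hy, ?_⟩
      rw [mem_a]
      exact ⟨h1, x, ⟨i, Nat.zero_le _, by omega, hyi⟩, h2⟩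
    have h1 : (tau G P (fun c => {v c}) D₀).card ≤ Lf.card * p' := by
      refine (Finset.card_le_card hcov).trans ?_
      refine Finset.card_biUnion_le_card_mul _ _ _ ?_
      intro y hy
      exact (hcon (d y + 1) (fun i => π^[i] y) (t.indP y ((hmem y).1 hy).1 hsub)).le
    have h2 : Lf.card * p' ≤ q * p' := Nat.mul_le_mul_right _ hcard.le
    omega

end Pool.Agent.MPd439b2.KS
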