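import Pool.Agent.Lib.MP_d439b2_co.KS.SpecU

/-!
# MP_d439b2_co, Theorem K, U2b: contact intervals on a path
-/

set_option autoImplicit false

namespace Pool.Agent.MPd439b2.KS

namespace u2bAux

/-- greedy by right end points -/
theorem greedy (lo hi : ℕ → ℕ) (K : ℕ) : ∀ (q : ℕ) (P : Finset ℕ), (∀ c ∈ P, lo c ≤ hi c) →
    q * K + 1 ≤ P.card →
    (∃ P' ⊆ P, P'.card = q ∧ ∀ c ∈ P', ∀ c' ∈ P', c ≠ c' → hi c < lo c' ∨ hi c' < lo c) ∨
    ∃ j, K < (P.filter fun c => lo c ≤ j ∧ j ≤ hi c).card := by
  intro q
  induction q with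
  | zero =>
    intro P _ _
    exact Or.inl ⟨∅, Finset.empty_subset _, rfl, fun c hc => absurd hc (Finset.notMem_empty c)⟩
  | succ q ih =>
    intro P hlo hP
    have hne : P.Nonempty := by
      rw [← Finset.card_pos]; omega
    obtain ⟨c₀, hc₀, hmin⟩ := Finset.exists_min_image P hi hne
    by_cases hK : K < (P.filter fun c => lo c ≤ hi c₀ ∧ hi c₀ ≤ hi c).card
    · exact Or.inr ⟨hi c₀, hK⟩
    · rw [not_lt] at hK
      have hsplit : P.card ≤ (P.filter fun c => lo c ≤ hi c₀ ∧ hi c₀ ≤ hi c).card +
          (P.filter fun c => hi c₀ < lo c).card := by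
        rw [← Finset.card_union_of_disjoint]
        · apply Finset.card_le_card
          intro c hc
          rw [Finset.mem_union, Finset.mem_filter, Finset.mem_filter]
          rcases Nat.lt_or_ge (hi c₀) (lo c) with h | h
          · exact Or.inr ⟨hc, h⟩
          · exact Or.inl ⟨hc, h, hmin c hc⟩
        · rw [Finset.disjoint_left]
          intro c hc hc'
          rw [Finset.mem_filter] at hc hc'
          omega
      have hexp : (q + 1) * K = q * K + K := by ring
      rcases ih (P.filter fun c => hi c₀ < lo c) (fun c hc => hlo c (Finset.mem_filter.mp hc).1)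
        (by omega) with ⟨P', hP', hcard, hdis⟩ | ⟨j, hj⟩
      · left
        have hc0n : c₀ ∉ P' := by
          intro h
          have h1 := (Finset.mem_filter.mp (hP' h)).2
          have h2 := hlo c₀ hc₀
          omega
        refine ⟨insert c₀ P', ?_, ?_, ?_⟩
        · intro c hc
          rcases Finset.mem_insert.mp hc with h | h
          · rw [h]; exact hc₀
          · exact (Finset.mem_filter.mp (hP' h)).1
        · rw [Finset.card_insert_of_notMem hc0n, hcard]
        · intro c hc c' hc' hne'
          rcases Finset.mem_insert.mp hc with h | h <;> rcases Finset.mem_insert.mp hc' with h' | h'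
          · exact absurd (h.trans h'.symm) hne'
          · left; rw [h]; exact (Finset.mem_filter.mp (hP' h')).2
          · right; rw [h']; exact (Finset.mem_filter.mp (hP' h)).2
          · exact hdis c h c' h' hne'
      · right
        refine ⟨j, lt_of_lt_of_le hj (Finset.card_le_card ?_)⟩
        intro c hc
        rw [Finset.mem_filter, Finset.mem_filter] at hc
        rw [Finset.mem_filter]
        exact ⟨hc.1.1, hc.2⟩

variable {V : Type} {G : SimpleGraph V}

theorem conn_seg {D : Set V} {l : ℕ} {s : ℕ → V} (hs : IndP G D l s) :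
    ∀ j, 0 < j → j ≤ l → Conn G (seg s 0 j) := by
  intro j
  induction j with
  | zero => intro h; omega
  | succ j ih =>
    intro _ hj
    rcases Nat.eq_zero_or_pos j with h0 | h0
    · subst h0
      have h1 : seg s 0 (0 + 1) = {s 0} := by
        ext x
        constructor
        · rintro ⟨i, h1, h2, h3⟩
          have h4 : i = 0 := by omega
          subst h4; exact h3.symm
        · intro hx
          exact ⟨0, le_rfl, by omega, hx.symm⟩
      rw [h1]
      exact Conn.singleton G _
    · have h1 := ih h0 (by omega)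
      have h2 : seg s 0 (j + 1) = insert (s j) (seg s 0 j) := by
        ext x
        constructor
        · rintro ⟨i, h1, h2, h3⟩
          rcases Nat.lt_or_ge i j with h | h
          · exact Or.inr ⟨i, h1, h, h3⟩
          · have h4 : i = j := by omega
            subst h4; exact Or.inl h3.symm
        · rintro (h | ⟨i, h1, h2, h3⟩)
          · exact ⟨j, by omega, by omega, h.symm⟩
          · exact ⟨i, h1, by omega, h3⟩
      rw [h2]
      exact h1.insert ⟨s (j - 1), ⟨j - 1, by omega, by omega, rfl⟩,
        (hs.2.2 (j - 1) (by omega) j (by omega)).mpr (Or.inr (by omega))⟩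

theorem intervals {s : ℕ → V} {v : ℕ → V} {P : Finset ℕ} {l : ℕ}
    (hT : ∀ c ∈ P, Tch G (seg s 0 l) {v c}) :
    ∃ lo hi : ℕ → ℕ, ∀ c ∈ P, lo c ≤ hi c ∧ hi c < l ∧ G.Adj (v c) (s (lo c)) ∧
      G.Adj (v c) (s (hi c)) ∧ ∀ i < l, G.Adj (v c) (s i) → lo c ≤ i ∧ i ≤ hi c := by
  classical
  have h : ∀ c, ∃ a b : ℕ, c ∈ P → a ≤ b ∧ b < l ∧ G.Adj (v c) (s a) ∧
      G.Adj (v c) (s b) ∧ ∀ i < l, G.Adj (v c) (s i) → a ≤ i ∧ i ≤ b := by
    intro c
    by_cases hc : c ∈ P
    · obtain ⟨a, ⟨i, _, hi, rfl⟩, b, hb, hab⟩ := hT c hc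
      rw [Set.mem_singleton_iff] at hb
      subst hb
      have hne : ((Finset.range l).filter fun i => G.Adj (v c) (s i)).Nonempty :=
        ⟨i, by rw [Finset.mem_filter, Finset.mem_range]; exact ⟨hi, hab.symm⟩⟩
      have h1 := Finset.min'_mem _ hne
      have h2 := Finset.max'_mem _ hne
      refine ⟨_, _, fun _ => ⟨Finset.min'_le _ _ h2, ?_, ?_, ?_, ?_⟩⟩
      · exact Finset.mem_range.mp (Finset.mem_filter.mp h2).1
      · exact (Finset.mem_filter.mp h1).2
      · exact (Finset.mem_filter.mp h2).2
      · intro i hi hv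
        have h3 : i ∈ (Finset.range l).filter fun i => G.Adj (v c) (s i) := by
          rw [Finset.mem_filter, Finset.mem_range]; exact ⟨hi, hv⟩
        exact ⟨Finset.min'_le _ _ h3, Finset.le_max' _ _ h3⟩
    · exact ⟨0, 0, fun h => absurd h hc⟩
  choose lo hi hlh using h
  exact ⟨lo, hi, fun c hc => hlh c hc⟩

theorem mono_indP {D D' : Set V} {l : ℕ} {s : ℕ → V} (h : IndP G D' l s) (hD : D' ⊆ D) :
    IndP G D l s := ⟨fun i hi => hD (h.1 i hi), h.2.1, h.2.2⟩

theorem mono_pthT {D D' : Set V} {v : ℕ → V} {P : Finset ℕ} (h : PthT G D' v P) (hD : D' ⊆ D) :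
    PthT G D v P := by
  obtain ⟨l, p, lo, hi, h1, h2, h3⟩ := h
  exact ⟨l, p, lo, hi, mono_indP h1 hD, h2, h3⟩

end u2bAux

open u2bAux in
theorem u2b : S_U2b := by
  classical
  intro n M q
  induction M with
  | zero =>
    refine ⟨q, fun V _ G D v P l s _ _ _ hP => ?_⟩
    obtain ⟨P', hP', hc⟩ := Finset.exists_subset_card_eq hP
    exact ⟨P', hP', hc, Or.inl ⟨fun _ => ∅, fun i hi => absurd hi (by omega),
      fun i hi => absurd hi (by omega)⟩⟩
  | succ M ih =>
    obtain ⟨p₀, hp₀⟩ := ih
    refine ⟨q * (p₀ + n) + 1, fun V _ G D v P l s hs hT hn hP => ?_⟩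
    obtain ⟨lo, hi, hlh⟩ := intervals hT
    rcases Nat.eq_zero_or_pos q with hq | hq
    · subst hq
      refine ⟨∅, Finset.empty_subset _, rfl, Or.inr ⟨0, s, lo, hi, ?_, ?_, ?_⟩⟩
      · exact ⟨fun i hi => absurd hi (by omega), fun i hi => absurd hi (by omega),
          fun i hi => absurd hi (by omega)⟩
      · exact fun c hc => absurd hc (Finset.notMem_empty c)
      · exact fun c hc => absurd hc (Finset.notMem_empty c)
    rcases greedy lo hi (p₀ + n) q P (fun c hc => (hlh c hc).1) hP with
      ⟨P', hP', hcard, hdis⟩ | ⟨j, hj⟩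
    · refine ⟨P', hP', hcard, Or.inr ⟨l, s, lo, hi, hs, fun c hc => ?_, hdis⟩⟩
      obtain ⟨h1, h2, h3, h4, h5⟩ := hlh c (hP' hc)
      exact ⟨h1, h2, ⟨lo c, le_rfl, h1, h3⟩, h5⟩
    · -- the elements with a contact before and after `j`
      have hjl : j < l := by
        obtain ⟨c, hc⟩ : (P.filter fun c => lo c ≤ j ∧ j ≤ hi c).Nonempty := by
          rw [← Finset.card_pos]; omega
        rw [Finset.mem_filter] at hc
        have := (hlh c hc.1).2.1
        omega
      set P₁ := P.filter fun c => lo c < j ∧ j < hi c with hP₁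
      have hsub : (P.filter fun c => lo c ≤ j ∧ j ≤ hi c) ⊆
          P₁ ∪ tau G P (fun c => {v c}) {s j} := by
        intro c hc
        rw [Finset.mem_filter] at hc
        rw [Finset.mem_union, mem_tau, hP₁, Finset.mem_filter]
        obtain ⟨h1, h2, h3, h4, h5⟩ := hlh c hc.1
        by_cases hadj : G.Adj (v c) (s j)
        · right
          exact ⟨hc.1, s j, rfl, v c, rfl, hadj.symm⟩
        · left
          refine ⟨hc.1, ?_, ?_⟩
          · rcases Nat.lt_or_ge (lo c) j with h | h
            · exact h
            · have : lo c = j := by omega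
              rw [this] at h3
              exact absurd h3 hadj
          · rcases Nat.lt_or_ge j (hi c) with h | h
            · exact h
            · have : hi c = j := by omega
              rw [this] at h4
              exact absurd h4 hadj
      have hcard : p₀ ≤ P₁.card := by
        have h1 := (Finset.card_le_card hsub).trans (Finset.card_union_le _ _)
        have h2 := hn (s j) (hs.1 j hjl)
        omega
      let D' : Set V := {x | ∃ i, j < i ∧ i < l ∧ s i = x}
      have hD' : D' ⊆ D := by
        rintro x ⟨i, _, h2, rfl⟩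
        exact hs.1 i h2
      have hs' : IndP G D' (l - (j + 1)) (fun i => s (i + (j + 1))) := by
        refine ⟨fun i hi => ⟨i + (j + 1), by omega, by omega, rfl⟩, fun i hi i' hi' h => ?_,
          fun i hi i' hi' => ?_⟩
        · have := hs.2.1 (i + (j + 1)) (by omega) (i' + (j + 1)) (by omega) h
          omega
        · rw [hs.2.2 (i + (j + 1)) (by omega) (i' + (j + 1)) (by omega)]
          omega
      have hP₁s : P₁ ⊆ P := Finset.filter_subset _ _
      obtain ⟨P', hP', hc', hor⟩ := hp₀ V G D' v P₁ (l - (j + 1)) (fun i => s (i + (j + 1))) hs'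
        (by
          intro c hc
          rw [hP₁, Finset.mem_filter] at hc
          obtain ⟨h1, h2, h3, h4, h5⟩ := hlh c hc.1
          refine ⟨s (hi c), ⟨hi c - (j + 1), by omega, by omega, ?_⟩, v c, rfl, h4.symm⟩
          change s (hi c - (j + 1) + (j + 1)) = s (hi c)
          congr 1
          omega)
        (by
          intro x hx
          refine (Finset.card_le_card ?_).trans (hn x (hD' hx))
          intro i hi
          rw [mem_tau] at hi ⊢
          exact ⟨hP₁s hi.1, hi.2⟩) hcard
      refine ⟨P', hP'.trans hP₁s, hc', ?_⟩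
      rcases hor with ⟨I, hI1, hI2⟩ | hpt
      · left
        obtain ⟨c₀, hc₀⟩ : P'.Nonempty := by
          rw [← Finset.card_pos]; omega
        have hj0 : 0 < j := by
          have h1 := (Finset.mem_filter.mp (hP' hc₀)).2
          omega
        have hfar : ∀ x ∈ D', ∀ y ∈ seg s 0 j, x ≠ y ∧ ¬ G.Adj x y := by
          rintro x ⟨i, h1, h2, rfl⟩ y ⟨i', h3, h4, rfl⟩
          constructor
          · intro h
            have := hs.2.1 i h2 i' (by omega) h
            omega
          · intro h
            rw [hs.2.2 i h2 i' (by omega)] at h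
            omega
        have hnew : ∀ X ⊆ D', Disjoint X (seg s 0 j) ∧ ¬ Tch G X (seg s 0 j) := by
          intro X hX
          constructor
          · rw [Set.disjoint_left]
            intro x hx hx'
            exact (hfar x (hX hx) x hx').1 rfl
          · rintro ⟨a, ha, b, hb, hab⟩
            exact (hfar a (hX ha) b hb).2 hab
        refine ⟨fun i => if i = M then seg s 0 j else I i, ?_, ?_⟩
        · intro i hi
          beta_reduce
          by_cases hiM : i = M
          · rw [if_pos hiM]
            refine ⟨?_, conn_seg hs j hj0 (by omega), ?_⟩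
            · rintro x ⟨t, _, ht, rfl⟩
              exact hs.1 t (by omega)
            · intro c hc
              have h1 := Finset.mem_filter.mp (hP' hc)
              obtain ⟨_, _, h3, _, _⟩ := hlh c h1.1
              exact ⟨s (lo c), ⟨lo c, by omega, h1.2.1, rfl⟩, v c, rfl, h3.symm⟩
          · rw [if_neg hiM]
            obtain ⟨h1, h2, h3⟩ := hI1 i (by omega)
            exact ⟨h1.trans hD', h2, h3⟩
        · intro i hi i' hi' hne
          beta_reduce
          by_cases hiM : i = M
          · have hiM' : i' ≠ M := fun h => hne (hiM.trans h.symm)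
            rw [if_pos hiM, if_neg hiM']
            obtain ⟨h1, h2⟩ := hnew (I i') (hI1 i' (by omega)).1
            exact ⟨h1.symm, fun h => h2 h.symm⟩
          · by_cases hiM' : i' = M
            · rw [if_neg hiM, if_pos hiM']
              exact hnew (I i) (hI1 i (by omega)).1
            · rw [if_neg hiM, if_neg hiM']
              exact hI2 i (by omega) i' (by omega) hne
      · right
        exact mono_pthT hpt hD'

end Pool.Agent.MPd439b2.KS
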