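import Pool.Agent.Lib.MP_d439b2_co.KS.SpecU
import Pool.Agent.Lib.MP_d439b2_co.B.Q1b

/-! U7: all but few sets of a large model contain a vertex touching many others. -/

set_option autoImplicit false

namespace Pool.Agent.MPd439b2.KS

namespace u7Aux

/-- distinct representatives outside of a set -/
theorem greedy (A : ℕ → Finset ℕ) (F : Finset ℕ) (m : ℕ) :
    ∀ m' ≤ m, (∀ k < m', F.card + m ≤ (A k).card) → ∃ g : ℕ → ℕ, (∀ k < m', g k ∈ A k ∧ g k ∉ F) ∧
      ∀ k < m', ∀ l < m', g k = g l → k = l := by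
  classical
  intro m'
  induction m' with
  | zero => intro _ _; exact ⟨fun _ => 0, by simp, by simp⟩
  | succ n ih =>
    intro hn h
    obtain ⟨g, hg, hinj⟩ := ih (by omega) (fun k hk => h k (by omega))
    have h1 := h n (Nat.lt_succ_self n)
    have h2 := Finset.le_card_sdiff (F ∪ (Finset.range n).image g) (A n)
    have h3 := Finset.card_union_le F ((Finset.range n).image g)
    have h4 : ((Finset.range n).image g).card ≤ n := by
      simpa using Finset.card_image_le (s := Finset.range n) (f := g)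
    obtain ⟨z, hz⟩ := Finset.card_pos.mp (show 0 < (A n \ (F ∪ (Finset.range n).image g)).card by omega)
    rw [Finset.mem_sdiff, Finset.mem_union, not_or] at hz
    refine ⟨fun k => if k = n then z else g k, fun k hk => ?_, fun k hk l hl hkl => ?_⟩
    · by_cases hkn : k = n
      · subst hkn
        simp only [if_true]
        exact ⟨hz.1, hz.2.1⟩
      · simp only [if_neg hkn]
        exact hg k (by omega)
    · by_cases hkn : k = n <;> by_cases hln : l = n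
      · omega
      · exfalso
        simp only [if_pos hkn, if_neg hln] at hkl
        exact hz.2.2 (Finset.mem_image.mpr ⟨l, Finset.mem_range.mpr (by omega), hkl.symm⟩)
      · exfalso
        simp only [if_neg hkn, if_pos hln] at hkl
        exact hz.2.2 (Finset.mem_image.mpr ⟨k, Finset.mem_range.mpr (by omega), hkl⟩)
      · simp only [if_neg hkn, if_neg hln] at hkl
        exact hinj k (by omega) l (by omega) hkl

end u7Aux

theorem u7 : (S_U1) → (S_DDd) → (S_Dig) → S_U7 := by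
  classical
  intro hU1 hDD hDig N m δ
  set n₁ := (2 * δ + 1) * m + 1 with hn₁
  set C := n₁ + m + m * δ + m with hCdef
  set kk := (2 * (m * δ) + 1) * m with hkk
  refine ⟨n₁, (2 * C + 1) + (n₁ + n₁ * δ + 2 ^ (n₁ * n₁) * kk + 1)
    + (n₁ + m + m * δ + (m + N)), fun V _ G I B hFree hM ht => ?_⟩
  by_contra hcon
  push Not at hcon
  -- the bad indices
  obtain ⟨Bad, hBadsub, hBadcard⟩ : ∃ Bad ⊆ I.filter
      (fun i => ∀ v ∈ B i, (tau G (I \ {i}) B {v}).card ≤ δ), Bad.card = n₁ := by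
    apply Finset.exists_subset_card_eq
    by_contra hlt
    push Not at hlt
    obtain ⟨i, hi, hiB, h⟩ := hcon _ hlt
    exact hiB (Finset.mem_filter.mpr ⟨hi, h⟩)
  have hBad1 : ∀ i ∈ Bad, i ∈ I := fun i hi => (Finset.mem_filter.mp (hBadsub hi)).1
  have hBad2 : ∀ i ∈ Bad, ∀ v ∈ B i, (tau G (I \ {i}) B {v}).card ≤ δ := fun i hi =>
    (Finset.mem_filter.mp (hBadsub hi)).2
  have hMc : ∀ i ∈ I, Conn G (B i) := fun i hi => hM.1 i hi
  have hMd : ∀ i ∈ I, ∀ j ∈ I, i ≠ j → Disjoint (B i) (B j) := fun i hi j hj h =>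
    (hM.2 i hi j hj h).1
  have hMt : ∀ i ∈ I, ∀ j ∈ I, i ≠ j → Tch G (B i) (B j) := fun i hi j hj h =>
    (hM.2 i hi j hj h).2
  have hIcard : ∀ i ∈ I, (I \ {i}).card = I.card - 1 := by
    intro i hi
    rw [Finset.card_sdiff_of_subset (Finset.singleton_subset_iff.mpr hi), Finset.card_singleton]
  have hI : ∀ i j : ℕ, j ∈ I \ {i} ↔ j ∈ I ∧ j ≠ i := by
    intro i j
    rw [Finset.mem_sdiff, Finset.mem_singleton]
  have hZ : ∀ i ∈ Bad, ∃ Z ⊆ I \ {i}, Z.card ≤ δ ∧ ∀ j, j ∈ I \ {i} → j ∉ Z →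
      ∃ x ∈ B i, Tch G {x} (B j) ∧ ∃ W ⊆ B i, Conn G W ∧ x ∉ W ∧ Tch G {x} W ∧
        C ≤ (tau G (I \ {i}) B W).card := by
    intro i hi
    have hit := hBad1 i hi
    apply hU1 V G (I \ {i}) B (B i) δ C (hMc i hit)
    · intro j hj
      rw [hI] at hj
      exact hMt i hit j hj.1 (Ne.symm hj.2)
    · exact hBad2 i hi
    · rw [hIcard i hit]
      omega
  obtain ⟨i₀, hi₀⟩ : Bad.Nonempty := Finset.card_pos.mp (by omega)
  obtain ⟨v₀, _⟩ := (hMc i₀ (hBad1 i₀ hi₀)).1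
  haveI : Nonempty V := ⟨v₀⟩
  choose! Z hZsub hZcard hZx using hZ
  choose! X hXB hXj W hWB hWconn hXW hXWt hWcard using hZx
  -- abbreviation for the traces
  obtain ⟨τ, hτdef⟩ : ∃ τ : ℕ → ℕ → Finset ℕ, ∀ i j,
      tau G (I \ {i}) B {X i j} = τ i j := ⟨_, fun _ _ => rfl⟩
  have hτ : ∀ i j a, a ∈ τ i j ↔ (a ∈ I ∧ a ≠ i) ∧ Tch G {X i j} (B a) := by
    intro i j a
    rw [← hI, ← hτdef]
    exact mem_tau
  have hCcard : ∀ i ∈ Bad, ∀ j, j ∈ I \ {i} → j ∉ Z i → (τ i j).card ≤ δ := by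
    intro i hi j hj hjZ
    rw [← hτdef]
    exact hBad2 i hi _ (hXB i hi j hj hjZ)
  -- indices outside of Bad which are in no Z i
  obtain ⟨R, hRmem⟩ : ∃ R : Finset ℕ, ∀ j, j ∈ R ↔ j ∈ I \ Bad ∧ ∀ i ∈ Bad, j ∉ Z i :=
    ⟨(I \ Bad).filter (fun j => ∀ i ∈ Bad, j ∉ Z i), fun _ => Finset.mem_filter⟩
  have hRcard : I.card ≤ R.card + n₁ + n₁ * δ := by
    have h1 : I ⊆ (R ∪ Bad) ∪ Bad.biUnion Z := by
      intro j hj
      rw [Finset.mem_union, Finset.mem_union]
      by_cases hjB : j ∈ Bad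
      · exact Or.inl (Or.inr hjB)
      by_cases hjR : ∀ i ∈ Bad, j ∉ Z i
      · exact Or.inl (Or.inl ((hRmem j).mpr ⟨Finset.mem_sdiff.mpr ⟨hj, hjB⟩, hjR⟩))
      · push Not at hjR
        obtain ⟨i, hi, hji⟩ := hjR
        exact Or.inr (Finset.mem_biUnion.mpr ⟨i, hi, hji⟩)
    have h2 := Finset.card_le_card h1
    have h3 := Finset.card_union_le (R ∪ Bad) (Bad.biUnion Z)
    have h4 := Finset.card_union_le R Bad
    have h5 : (Bad.biUnion Z).card ≤ Bad.card * δ :=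
      Finset.card_biUnion_le_card_mul _ _ _ (fun i hi => hZcard i hi)
    rw [hBadcard] at h4 h5
    omega
  -- records
  obtain ⟨rec', hrec'⟩ : ∃ f : ℕ → Finset (ℕ × ℕ), ∀ j p, p ∈ f j ↔
      p ∈ Bad ×ˢ Bad ∧ p.2 ∈ τ p.1 j :=
    ⟨fun j => (Bad ×ˢ Bad).filter (fun p => p.2 ∈ τ p.1 j), fun _ _ => Finset.mem_filter⟩
  obtain ⟨y, _, hy⟩ : ∃ y ∈ (Bad ×ˢ Bad).powerset, kk < (R.filter (fun j => rec' j = y)).card := by
    apply Finset.exists_lt_card_fiber_of_mul_lt_card_of_maps_to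
    · intro j _
      exact Finset.mem_powerset.mpr (fun p hp => ((hrec' j p).mp hp).1)
    · rw [Finset.card_powerset, Finset.card_product, hBadcard]
      omega
  obtain ⟨R', hR'mem, hR'card⟩ : ∃ R' : Finset ℕ, (∀ j ∈ R', j ∈ R ∧ rec' j = y) ∧ kk < R'.card :=
    ⟨R.filter (fun j => rec' j = y), fun j hj => Finset.mem_filter.mp hj, hy⟩
  have hR'R : ∀ j ∈ R', (j ∈ I ∧ j ∉ Bad) ∧ ∀ i ∈ Bad, j ∉ Z i := by
    intro j hj
    have h2 := (hRmem j).mp (hR'mem j hj).1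
    rw [Finset.mem_sdiff] at h2
    exact h2
  have hR'I : ∀ j ∈ R', ∀ i ∈ Bad, j ∈ I \ {i} := by
    intro j hj i hi
    rw [hI]
    exact ⟨(hR'R j hj).1.1, fun h => (hR'R j hj).1.2 (h ▸ hi)⟩
  obtain ⟨j₀, hj₀⟩ : R'.Nonempty := Finset.card_pos.mp (by omega)
  have hrec : ∀ j ∈ R', ∀ a ∈ Bad, ∀ b ∈ Bad, (b ∈ τ a j ↔ b ∈ τ a j₀) := by
    intro j hj a ha b hb
    have h1 : rec' j = rec' j₀ := by
      rw [(hR'mem j hj).2, (hR'mem j₀ hj₀).2]
    have h2 : ∀ j', (a, b) ∈ rec' j' ↔ b ∈ τ a j' := by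
      intro j'
      rw [hrec', Finset.mem_product]
      exact ⟨fun h => h.2, fun h => ⟨⟨ha, hb⟩, h⟩⟩
    rw [← h2, ← h2, h1]
  -- the first choice
  obtain ⟨T, hTB, hTcard, hT⟩ := hDig ℕ Bad (fun i i' => i' ∈ τ i j₀) δ m (by
    intro i hi
    exact ⟨τ i j₀, hCcard i hi j₀ (hR'I j₀ hj₀ i hi) ((hR'R j₀ hj₀).2 i hi), fun _ _ _ h => h⟩) (by
    rw [hBadcard]; omega)
  -- the second choice
  obtain ⟨T', hTR, hTcard', hT'⟩ := hDig ℕ R' (fun j j' => ∃ i ∈ T, j' ∈ τ i j) (m * δ) m (by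
    intro j hj
    refine ⟨T.biUnion (fun i => τ i j), ?_, fun y _ _ h => ?_⟩
    · rw [← hTcard]
      apply Finset.card_biUnion_le_card_mul
      intro i hi
      exact hCcard i (hTB hi) j (hR'I j hj i (hTB hi)) ((hR'R j hj).2 i (hTB hi))
    · obtain ⟨i, hi, h⟩ := h
      exact Finset.mem_biUnion.mpr ⟨i, hi, h⟩) (by omega)
  obtain ⟨ic, hic, hicinj⟩ := q1bAux.enum T m hTcard.ge
  obtain ⟨jc, hjc, hjcinj⟩ := q1bAux.enum T' m hTcard'.ge
  have hicB : ∀ k < m, ic k ∈ Bad := fun k hk => hTB (hic k hk)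
  have hict : ∀ k < m, ic k ∈ I := fun k hk => hBad1 _ (hicB k hk)
  have hjcR : ∀ k < m, (jc k ∈ I ∧ jc k ∉ Bad) ∧ ∀ i ∈ Bad, jc k ∉ Z i := fun k hk =>
    hR'R _ (hTR (hjc k hk))
  have hij : ∀ k < m, ∀ l < m, ic k ≠ jc l := fun k hk l hl h =>
    (hjcR l hl).1.2 (h ▸ hicB k hk)
  have hjI : ∀ k < m, jc k ∈ I \ {ic k} := fun k hk => hR'I _ (hTR (hjc k hk)) _ (hicB k hk)
  have hjZ : ∀ k < m, jc k ∉ Z (ic k) := fun k hk => (hjcR k hk).2 _ (hicB k hk)
  -- the vertices x k and the sets w k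
  obtain ⟨x, hxdef⟩ : ∃ x : ℕ → V, ∀ k, x k = X (ic k) (jc k) := ⟨_, fun _ => rfl⟩
  obtain ⟨w, hwdef⟩ : ∃ w : ℕ → Set V, ∀ k, w k = W (ic k) (jc k) := ⟨_, fun _ => rfl⟩
  have hxB : ∀ k < m, x k ∈ B (ic k) := fun k hk => by
    rw [hxdef]; exact hXB _ (hicB k hk) _ (hjI k hk) (hjZ k hk)
  have hxj : ∀ k < m, Tch G {x k} (B (jc k)) := fun k hk => by
    rw [hxdef]; exact hXj _ (hicB k hk) _ (hjI k hk) (hjZ k hk)
  have hwB : ∀ k < m, w k ⊆ B (ic k) := fun k hk => by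
    rw [hwdef]; exact hWB _ (hicB k hk) _ (hjI k hk) (hjZ k hk)
  have hwconn : ∀ k < m, Conn G (w k) := fun k hk => by
    rw [hwdef]; exact hWconn _ (hicB k hk) _ (hjI k hk) (hjZ k hk)
  have hxw : ∀ k < m, x k ∉ w k := fun k hk => by
    rw [hxdef, hwdef]; exact hXW _ (hicB k hk) _ (hjI k hk) (hjZ k hk)
  have hxwt : ∀ k < m, Tch G {x k} (w k) := fun k hk => by
    rw [hxdef, hwdef]; exact hXWt _ (hicB k hk) _ (hjI k hk) (hjZ k hk)
  have hwcard : ∀ k < m, C ≤ (tau G (I \ {ic k}) B (w k)).card := fun k hk => by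
    rw [hwdef]; exact hWcard _ (hicB k hk) _ (hjI k hk) (hjZ k hk)
  -- the sets not touched
  have hnot : ∀ k < m, ∀ a, a ∈ I → a ≠ ic k → a ∉ τ (ic k) (jc k) → ¬ Tch G {x k} (B a) := by
    intro k hk a hat hane ha h
    rw [hxdef] at h
    exact ha ((hτ _ _ _).mpr ⟨⟨hat, hane⟩, h⟩)
  have hnoti : ∀ k < m, ∀ l < m, k ≠ l → ¬ Tch G {x k} (B (ic l)) := by
    intro k hk l hl hkl
    have hne : ic k ≠ ic l := fun h => hkl (hicinj k hk l hl h)
    apply hnot k hk (ic l) (hict l hl) (Ne.symm hne)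
    rw [hrec (jc k) (hTR (hjc k hk)) _ (hicB k hk) _ (hicB l hl)]
    exact hT _ (hic k hk) _ (hic l hl) hne
  have hnotj : ∀ k < m, ∀ l < m, k ≠ l → ¬ Tch G {x k} (B (jc l)) := by
    intro k hk l hl hkl
    have hne : jc k ≠ jc l := fun h => hkl (hjcinj k hk l hl h)
    apply hnot k hk (jc l) (hjcR l hl).1.1 (Ne.symm (hij k hk l hl))
    intro h
    exact hT' _ (hjc k hk) _ (hjc l hl) hne ⟨ic k, hic k hk, h⟩
  -- the forbidden indices
  obtain ⟨F, hFdef⟩ : ∃ F : Finset ℕ, F = (Bad ∪ T') ∪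
      (Finset.range m).biUnion (fun k => τ (ic k) (jc k)) := ⟨_, rfl⟩
  have hFcard : F.card ≤ n₁ + m + m * δ := by
    have h1 := Finset.card_union_le (Bad ∪ T') ((Finset.range m).biUnion (fun k => τ (ic k) (jc k)))
    have h2 := Finset.card_union_le Bad T'
    have h4 : ((Finset.range m).biUnion (fun k => τ (ic k) (jc k))).card ≤
        (Finset.range m).card * δ := by
      apply Finset.card_biUnion_le_card_mul
      intro k hk
      rw [Finset.mem_range] at hk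
      exact hCcard _ (hicB k hk) _ (hjI k hk) (hjZ k hk)
    rw [Finset.card_range] at h4
    rw [hFdef]
    omega
  have hF : ∀ a, a ∉ F → a ∉ Bad ∧ a ∉ T' ∧ ∀ k < m, a ∉ τ (ic k) (jc k) := by
    intro a ha
    rw [hFdef, Finset.mem_union, Finset.mem_union, not_or, not_or] at ha
    exact ⟨ha.1.1, ha.1.2, fun k hk h => ha.2 (Finset.mem_biUnion.mpr ⟨k, Finset.mem_range.mpr hk, h⟩)⟩
  obtain ⟨g, hg, hginj⟩ := u7Aux.greedy (fun k => tau G (I \ {ic k}) B (w k)) F m m le_rfl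
    (fun k hk => by
      have := hwcard k hk
      show F.card + m ≤ (tau G (I \ {ic k}) B (w k)).card
      omega)
  have hg1 : ∀ k < m, g k ∈ I ∧ Tch G (w k) (B (g k)) := by
    intro k hk
    have h1 := mem_tau.mp (hg k hk).1
    rw [hI] at h1
    exact ⟨h1.1.1, h1.2⟩
  have hg2 : ∀ k < m, g k ∉ Bad ∧ g k ∉ T' ∧ ∀ l < m, g k ∉ τ (ic l) (jc l) := fun k hk =>
    hF _ (hg k hk).2
  obtain ⟨e, he, heinj⟩ := q1bAux.enum ((I \ F) \ (Finset.range m).image g) N (by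
    have h1 := Finset.le_card_sdiff ((Finset.range m).image g) (I \ F)
    have h2 := Finset.le_card_sdiff F I
    have h4 : ((Finset.range m).image g).card ≤ m := by
      simpa using Finset.card_image_le (s := Finset.range m) (f := g)
    omega)
  have he1 : ∀ z < N, e z ∈ I ∧ e z ∉ F ∧ ∀ k < m, g k ≠ e z := by
    intro z hz
    have h1 := he z hz
    rw [Finset.mem_sdiff, Finset.mem_sdiff] at h1
    exact ⟨h1.1.1, h1.1.2, fun k hk h => h1.2 (Finset.mem_image.mpr ⟨k, Finset.mem_range.mpr hk, h⟩)⟩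
  have he2 : ∀ z < N, e z ∉ Bad ∧ e z ∉ T' ∧ ∀ l < m, e z ∉ τ (ic l) (jc l) := fun z hz =>
    hF _ (he1 z hz).2.1
  have hig : ∀ k < m, ∀ l < m, ic k ≠ g l := fun k hk l hl h => (hg2 l hl).1 (h ▸ hicB k hk)
  have hie : ∀ k < m, ∀ z < N, ic k ≠ e z := fun k hk z hz h => (he2 z hz).1 (h ▸ hicB k hk)
  have hjg : ∀ k < m, ∀ l < m, jc k ≠ g l := fun k hk l hl h => (hg2 l hl).2.1 (h ▸ hjc k hk)
  have hje : ∀ k < m, ∀ z < N, jc k ≠ e z := fun k hk z hz h => (he2 z hz).2.1 (h ▸ hjc k hk)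
  have hnotg : ∀ k < m, ∀ l < m, ¬ Tch G {x k} (B (g l)) := fun k hk l hl =>
    hnot k hk _ (hg1 l hl).1 (Ne.symm (hig k hk l hl)) ((hg2 l hl).2.2 k hk)
  have hnote : ∀ k < m, ∀ z < N, ¬ Tch G {x k} (B (e z)) := fun k hk z hz =>
    hnot k hk _ (he1 z hz).1 (Ne.symm (hie k hk z hz)) ((he2 z hz).2.2 k hk)
  apply hFree
  apply q1bAux.assemble (P := fun k => w k ∪ B (g k)) (Q := fun k => B (jc k))
    (E := fun z => B (e z)) (Y := fun k => {x k}) hDD
  · intro k hk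
    exact (hwconn k hk).union (hMc _ (hg1 k hk).1) (Or.inr (hg1 k hk).2)
  · intro k hk
    exact hMc _ (hjcR k hk).1.1
  · intro z hz
    exact hMc _ (he1 z hz).1
  · intro k _
    exact Conn.singleton G (x k)
  · -- P P
    intro k hk l hl hkl
    have hne : ic k ≠ ic l := fun h => hkl (hicinj k hk l hl h)
    have hne' : g k ≠ g l := fun h => hkl (hginj k hk l hl h)
    constructor
    · rw [Set.disjoint_union_left, Set.disjoint_union_right, Set.disjoint_union_right]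
      exact ⟨⟨(hMd _ (hict k hk) _ (hict l hl) hne).mono (hwB k hk) (hwB l hl),
        (hMd _ (hict k hk) _ (hg1 l hl).1 (hig k hk l hl)).mono_left (hwB k hk)⟩,
        ⟨(hMd _ (hg1 k hk).1 _ (hict l hl) (Ne.symm (hig l hl k hk))).mono_right (hwB l hl),
        hMd _ (hg1 k hk).1 _ (hg1 l hl).1 hne'⟩⟩
    · exact (hMt _ (hg1 k hk).1 _ (hg1 l hl).1 hne').mono Set.subset_union_right
        Set.subset_union_right
  · -- P Q
    intro k hk l hl
    constructor
    · rw [Set.disjoint_union_left]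
      exact ⟨(hMd _ (hict k hk) _ (hjcR l hl).1.1 (hij k hk l hl)).mono_left (hwB k hk),
        hMd _ (hg1 k hk).1 _ (hjcR l hl).1.1 (Ne.symm (hjg l hl k hk))⟩
    · exact (hMt _ (hg1 k hk).1 _ (hjcR l hl).1.1 (Ne.symm (hjg l hl k hk))).mono
        Set.subset_union_right subset_rfl
  · -- P E
    intro k hk z hz
    constructor
    · rw [Set.disjoint_union_left]
      exact ⟨(hMd _ (hict k hk) _ (he1 z hz).1 (hie k hk z hz)).mono_left (hwB k hk),
        hMd _ (hg1 k hk).1 _ (he1 z hz).1 ((he1 z hz).2.2 k hk)⟩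
    · exact (hMt _ (hg1 k hk).1 _ (he1 z hz).1 ((he1 z hz).2.2 k hk)).mono
        Set.subset_union_right subset_rfl
  · -- Q Q
    intro k hk l hl hkl
    have hne : jc k ≠ jc l := fun h => hkl (hjcinj k hk l hl h)
    exact ⟨hMd _ (hjcR k hk).1.1 _ (hjcR l hl).1.1 hne, hMt _ (hjcR k hk).1.1 _ (hjcR l hl).1.1 hne⟩
  · -- Q E
    intro k hk z hz
    exact ⟨hMd _ (hjcR k hk).1.1 _ (he1 z hz).1 (hje k hk z hz),
      hMt _ (hjcR k hk).1.1 _ (he1 z hz).1 (hje k hk z hz)⟩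
  · -- E E
    intro z hz z' hz' hne
    have hne' : e z ≠ e z' := fun h => hne (heinj z hz z' hz' h)
    exact ⟨hMd _ (he1 z hz).1 _ (he1 z' hz').1 hne', hMt _ (he1 z hz).1 _ (he1 z' hz').1 hne'⟩
  · -- Y P
    intro k hk l hl
    constructor
    · rw [Set.disjoint_singleton_left]
      rintro (h | h)
      · by_cases hkl : k = l
        · subst hkl
          exact hxw k hk h
        · have hne : ic k ≠ ic l := fun h => hkl (hicinj k hk l hl h)
          exact Set.disjoint_left.mp (hMd _ (hict k hk) _ (hict l hl) hne) (hxB k hk) (hwB l hl h)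
      · exact Set.disjoint_left.mp (hMd _ (hict k hk) _ (hg1 l hl).1 (hig k hk l hl)) (hxB k hk) h
    · constructor
      · rintro ⟨a, ha, b, hb | hb, hab⟩
        · by_contra hkl
          exact hnoti k hk l hl hkl ⟨a, ha, b, hwB l hl hb, hab⟩
        · exact absurd ⟨a, ha, b, hb, hab⟩ (hnotg k hk l hl)
      · rintro rfl
        exact (hxwt k hk).mono subset_rfl Set.subset_union_left
  · -- Y Q
    intro k hk l hl
    constructor
    · rw [Set.disjoint_singleton_left]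
      exact fun h => Set.disjoint_left.mp (hMd _ (hict k hk) _ (hjcR l hl).1.1 (hij k hk l hl))
        (hxB k hk) h
    · constructor
      · intro h
        by_contra hkl
        exact hnotj k hk l hl hkl h
      · rintro rfl
        exact hxj k hk
  · -- Y E
    intro k hk z hz
    constructor
    · rw [Set.disjoint_singleton_left]
      exact fun h => Set.disjoint_left.mp (hMd _ (hict k hk) _ (he1 z hz).1 (hie k hk z hz))
        (hxB k hk) h
    · exact hnote k hk z hz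
  · -- Y Y
    intro k hk l hl hkl
    have hne : ic k ≠ ic l := fun h => hkl (hicinj k hk l hl h)
    constructor
    · rw [Set.disjoint_singleton_left]
      intro h
      rw [Set.mem_singleton_iff] at h
      exact Set.disjoint_left.mp (hMd _ (hict k hk) _ (hict l hl) hne) (hxB k hk) (h ▸ hxB l hl)
    · intro h
      exact hnoti k hk l hl hkl (h.mono subset_rfl (Set.singleton_subset_iff.mpr (hxB l hl)))

end Pool.Agent.MPd439b2.KS
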