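import Pool.Agent.Lib.MP_d439b2_co.KS.SpecU
import Pool.Agent.Lib.MP_d439b2_co.B.Q1b
import Pool.Agent.Lib.MP_d439b2_co.KS.U7

/-! U3: `DD N m` from many non-touching sets. -/

set_option autoImplicit false

namespace Pool.Agent.MPd439b2.KS

namespace u3Aux

variable {V : Type} {G : SimpleGraph V}

/-- `U` consists of points of the sets `J j`, `j ∈ S`, and of `a` -/
def In (J : ℕ → Set V) (S : Set ℕ) (a : V) (U : Set V) : Prop :=
  ∀ z ∈ U, z = a ∨ ∃ j ∈ S, z ∈ J j

theorem disj {J : ℕ → Set V} {M : ℕ} (hJ : ∀ i < M, ∀ j < M, i ≠ j → Disjoint (J i) (J j))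
    {S S' : Set ℕ} {a a' : V} {U U' : Set V} (hU : In J S a U) (hU' : In J S' a' U')
    (hS : ∀ j ∈ S, j < M) (hS' : ∀ j ∈ S', j < M) (hSS : ∀ j ∈ S, j ∉ S') (haa : a ≠ a')
    (ha : ∀ j < M, a ∉ J j) (ha' : ∀ j < M, a' ∉ J j) : Disjoint U U' := by
  rw [Set.disjoint_left]
  intro z hz hz'
  rcases hU z hz with h | ⟨j, hj, hzj⟩ <;> rcases hU' z hz' with h' | ⟨j', hj', hzj'⟩
  · exact haa (h.symm.trans h')
  · exact ha j' (hS' j' hj') (h ▸ hzj')
  · exact ha' j (hS j hj) (h' ▸ hzj)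
  · exact Set.disjoint_left.mp (hJ j (hS j hj) j' (hS' j' hj') (fun h => hSS j hj (h ▸ hj'))) hzj hzj'

/-- a point of `J k` which does not touch `U` -/
theorem ntch {J : ℕ → Set V} {M : ℕ} (hJ : ∀ i < M, ∀ j < M, i ≠ j → ¬ Tch G (J i) (J j))
    {S : Set ℕ} {a x : V} {k : ℕ} {U : Set V} (hU : In J S a U) (hS : ∀ j ∈ S, j < M)
    (hk : k < M) (hkS : k ∉ S) (hx : x ∈ J k) (hxa : ¬ Tch G {x} {a}) : ¬ Tch G {x} U := by
  rintro ⟨y, hy, z, hz, hyz⟩
  rw [Set.mem_singleton_iff] at hy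
  subst hy
  rcases hU z hz with h | ⟨j, hj, hzj⟩
  · exact hxa ⟨y, rfl, z, h, hyz⟩
  · exact hJ k hk j (hS j hj) (fun h => hkS (h ▸ hj)) ⟨y, hx, z, hzj, hyz⟩

end u3Aux

open u3Aux in
theorem u3 : (S_U1) → (S_Dig) → (S_DDd) → S_U3 := by
  classical
  intro hU1 hDig hDD N m n
  set C := (m + m * n) + m with hCdef
  refine ⟨(2 * C + 1) + ((2 * (m * n) + 1) * m + m * n) + (m + m * n + m + N),
    fun V _ G D v P hv hvD hn hP hSpl => ?_⟩
  obtain ⟨J, hJ1, hJ2⟩ := hSpl
  have hJd : ∀ i < 3 * m + N, ∀ j < 3 * m + N, i ≠ j → Disjoint (J i) (J j) :=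
    fun i hi j hj h => (hJ2 i hi j hj h).1
  have hJt : ∀ i < 3 * m + N, ∀ j < 3 * m + N, i ≠ j → ¬ Tch G (J i) (J j) :=
    fun i hi j hj h => (hJ2 i hi j hj h).2
  have hvJ : ∀ c ∈ P, ∀ j < 3 * m + N, v c ∉ J j := fun c hc j hj h =>
    hvD c hc ((hJ1 j hj).1 h)
  -- Lemma U1 for the first sets
  have hZ : ∀ k < m, ∃ Z ⊆ P, Z.card ≤ n ∧ ∀ c ∈ P, c ∉ Z →
      ∃ x ∈ J k, Tch G {x} {v c} ∧ ∃ W ⊆ J k, Conn G W ∧ x ∉ W ∧ Tch G {x} W ∧
        C ≤ (tau G P (fun c => {v c}) W).card := by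
    intro k hk
    obtain ⟨h1, h2, h3⟩ := hJ1 k (by omega)
    exact hU1 V G P (fun c => {v c}) (J k) n C h2 h3 (fun x hx => hn x (h1 hx)) (by omega)
  by_cases hm : m = 0
  · -- a complete graph
    subst hm
    obtain ⟨e, he, heinj⟩ := q1bAux.enum P N (by omega)
    apply q1bAux.assemble (P := fun _ => ∅) (Q := fun _ => ∅) (Y := fun _ => ∅)
      (E := fun z => {v (e z)} ∪ J z) hDD
    · intro k hk; omega
    · intro k hk; omega
    · intro z hz
      obtain ⟨-, h2, h3⟩ := hJ1 z (by omega)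
      exact (Conn.singleton G _).union h2 (Or.inr (h3 _ (he z hz)).symm)
    · intro k hk; omega
    · intro k hk; omega
    · intro k hk; omega
    · intro k hk; omega
    · intro k hk; omega
    · intro k hk; omega
    · intro z hz z' hz' hne
      have hne' : e z ≠ e z' := fun h => hne (heinj z hz z' hz' h)
      constructor
      · refine disj (S := {z}) (S' := {z'}) (a := v (e z)) (a' := v (e z')) hJd ?_ ?_ ?_ ?_ ?_ ?_
          (hvJ _ (he z hz)) (hvJ _ (he z' hz'))
        · rintro y (h | h)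
          · exact Or.inl h
          · exact Or.inr ⟨z, rfl, h⟩
        · rintro y (h | h)
          · exact Or.inl h
          · exact Or.inr ⟨z', rfl, h⟩
        · intro j hj
          rw [Set.mem_singleton_iff] at hj
          omega
        · intro j hj
          rw [Set.mem_singleton_iff] at hj
          omega
        · intro j hj hj'
          rw [Set.mem_singleton_iff] at hj hj'
          omega
        · intro h
          exact hne' (hv.1 _ (he z hz) _ (he z' hz') h)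
      · exact ((hJ1 z' (by omega)).2.2 _ (he z hz)).symm.mono Set.subset_union_left
          Set.subset_union_right
    · intro k hk; omega
    · intro k hk; omega
    · intro k hk; omega
    · intro k hk; omega
  have hm1 : 0 < m := by omega
  obtain ⟨x₀, _⟩ := (hJ1 0 (by omega)).2.1.1
  haveI : Nonempty V := ⟨x₀⟩
  choose! Z hZsub hZcard hZx using hZ
  choose! X hXJ hXc W hWJ hWconn hXW hXWt hWcard using hZx
  -- the elements in no Z k
  obtain ⟨P₁, hP₁⟩ : ∃ P₁ : Finset ℕ, P₁ = P \ (Finset.range m).biUnion Z := ⟨_, rfl⟩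
  have hP₁mem : ∀ c, c ∈ P₁ → c ∈ P ∧ ∀ k < m, c ∉ Z k := by
    intro c hc
    rw [hP₁, Finset.mem_sdiff] at hc
    exact ⟨hc.1, fun k hk h => hc.2 (Finset.mem_biUnion.mpr ⟨k, Finset.mem_range.mpr hk, h⟩)⟩
  have hP₁card : (2 * (m * n) + 1) * m ≤ P₁.card := by
    have h1 := Finset.le_card_sdiff ((Finset.range m).biUnion Z) P
    have h2 : ((Finset.range m).biUnion Z).card ≤ (Finset.range m).card * n :=
      Finset.card_biUnion_le_card_mul _ _ _ (fun k hk => hZcard k (Finset.mem_range.mp hk))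
    rw [Finset.card_range] at h2
    rw [hP₁]
    omega
  obtain ⟨τ, hτdef⟩ : ∃ τ : ℕ → ℕ → Finset ℕ, ∀ k c,
      tau G P (fun c => {v c}) {X k c} = τ k c := ⟨_, fun _ _ => rfl⟩
  have hτcard : ∀ k < m, ∀ c ∈ P₁, (τ k c).card ≤ n := by
    intro k hk c hc
    rw [← hτdef]
    obtain ⟨h1, h2⟩ := hP₁mem c hc
    exact hn _ ((hJ1 k (by omega)).1 (hXJ k hk c h1 (h2 k hk)))
  obtain ⟨T, hTP, hTcard, hT⟩ := hDig ℕ P₁ (fun c c' => ∃ k < m, c' ∈ τ k c) (m * n) m (by
    intro c hc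
    refine ⟨(Finset.range m).biUnion (fun k => τ k c), ?_, fun y _ _ h => ?_⟩
    · have h1 : ((Finset.range m).biUnion (fun k => τ k c)).card ≤ (Finset.range m).card * n :=
        Finset.card_biUnion_le_card_mul _ _ _ (fun k hk => hτcard k (Finset.mem_range.mp hk) c hc)
      rwa [Finset.card_range] at h1
    · obtain ⟨k, hk, h⟩ := h
      exact Finset.mem_biUnion.mpr ⟨k, Finset.mem_range.mpr hk, h⟩) hP₁card
  obtain ⟨c, hc, hcinj⟩ := q1bAux.enum T m hTcard.ge
  have hcP₁ : ∀ k < m, c k ∈ P₁ := fun k hk => hTP (hc k hk)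
  have hcP : ∀ k < m, c k ∈ P := fun k hk => (hP₁mem _ (hcP₁ k hk)).1
  have hcZ : ∀ k < m, c k ∉ Z k := fun k hk => (hP₁mem _ (hcP₁ k hk)).2 k hk
  obtain ⟨x, hxdef⟩ : ∃ x : ℕ → V, ∀ k, x k = X k (c k) := ⟨_, fun _ => rfl⟩
  obtain ⟨w, hwdef⟩ : ∃ w : ℕ → Set V, ∀ k, w k = W k (c k) := ⟨_, fun _ => rfl⟩
  have hxJ : ∀ k < m, x k ∈ J k := fun k hk => by
    rw [hxdef]; exact hXJ k hk _ (hcP k hk) (hcZ k hk)
  have hxc : ∀ k < m, Tch G {x k} {v (c k)} := fun k hk => by
    rw [hxdef]; exact hXc k hk _ (hcP k hk) (hcZ k hk)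
  have hwJ : ∀ k < m, w k ⊆ J k := fun k hk => by
    rw [hwdef]; exact hWJ k hk _ (hcP k hk) (hcZ k hk)
  have hwconn : ∀ k < m, Conn G (w k) := fun k hk => by
    rw [hwdef]; exact hWconn k hk _ (hcP k hk) (hcZ k hk)
  have hxw : ∀ k < m, x k ∉ w k := fun k hk => by
    rw [hxdef, hwdef]; exact hXW k hk _ (hcP k hk) (hcZ k hk)
  have hxwt : ∀ k < m, Tch G {x k} (w k) := fun k hk => by
    rw [hxdef, hwdef]; exact hXWt k hk _ (hcP k hk) (hcZ k hk)
  have hwcard : ∀ k < m, C ≤ (tau G P (fun c => {v c}) (w k)).card := fun k hk => by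
    rw [hwdef]; exact hWcard k hk _ (hcP k hk) (hcZ k hk)
  have hnot : ∀ k < m, ∀ a ∈ P, a ∉ τ k (c k) → ¬ Tch G {x k} {v a} := by
    intro k hk a ha h h'
    rw [← hτdef, mem_tau] at h
    rw [hxdef] at h'
    exact h ⟨ha, h'⟩
  have hnotc : ∀ k < m, ∀ l < m, k ≠ l → ¬ Tch G {x k} {v (c l)} := by
    intro k hk l hl hkl
    have hne : c k ≠ c l := fun h => hkl (hcinj k hk l hl h)
    exact hnot k hk _ (hcP l hl) (fun h => hT _ (hc k hk) _ (hc l hl) hne ⟨k, hk, h⟩)
  -- the forbidden elements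
  obtain ⟨F, hFdef⟩ : ∃ F : Finset ℕ, F = T ∪ (Finset.range m).biUnion (fun k => τ k (c k)) :=
    ⟨_, rfl⟩
  have hFcard : F.card ≤ m + m * n := by
    have h1 := Finset.card_union_le T ((Finset.range m).biUnion (fun k => τ k (c k)))
    have h4 : ((Finset.range m).biUnion (fun k => τ k (c k))).card ≤ (Finset.range m).card * n :=
      Finset.card_biUnion_le_card_mul _ _ _ (fun k hk =>
        hτcard k (Finset.mem_range.mp hk) _ (hcP₁ k (Finset.mem_range.mp hk)))
    rw [Finset.card_range] at h4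
    rw [hFdef]
    omega
  have hF : ∀ a, a ∉ F → a ∉ T ∧ ∀ k < m, a ∉ τ k (c k) := by
    intro a ha
    rw [hFdef, Finset.mem_union, not_or] at ha
    exact ⟨ha.1, fun k hk h => ha.2 (Finset.mem_biUnion.mpr ⟨k, Finset.mem_range.mpr hk, h⟩)⟩
  obtain ⟨g, hg, hginj⟩ := u7Aux.greedy (fun k => tau G P (fun c => {v c}) (w k)) F m m le_rfl
    (fun k hk => by
      have := hwcard k hk
      show F.card + m ≤ (tau G P (fun c => {v c}) (w k)).card
      omega)
  have hg1 : ∀ k < m, g k ∈ P ∧ Tch G (w k) {v (g k)} := fun k hk => mem_tau.mp (hg k hk).1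
  have hg2 : ∀ k < m, g k ∉ T ∧ ∀ l < m, g k ∉ τ l (c l) := fun k hk => hF _ (hg k hk).2
  obtain ⟨e, he, heinj⟩ := q1bAux.enum ((P \ F) \ (Finset.range m).image g) N (by
    have h1 := Finset.le_card_sdiff ((Finset.range m).image g) (P \ F)
    have h2 := Finset.le_card_sdiff F P
    have h4 : ((Finset.range m).image g).card ≤ m := by
      simpa using Finset.card_image_le (s := Finset.range m) (f := g)
    omega)
  have he1 : ∀ z < N, e z ∈ P ∧ e z ∉ F ∧ ∀ k < m, g k ≠ e z := by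
    intro z hz
    have h1 := he z hz
    rw [Finset.mem_sdiff, Finset.mem_sdiff] at h1
    exact ⟨h1.1.1, h1.1.2, fun k hk h => h1.2 (Finset.mem_image.mpr ⟨k, Finset.mem_range.mpr hk, h⟩)⟩
  have he2 : ∀ z < N, e z ∉ T ∧ ∀ l < m, e z ∉ τ l (c l) := fun z hz => hF _ (he1 z hz).2.1
  have hcg : ∀ k < m, ∀ l < m, c k ≠ g l := fun k hk l hl h => (hg2 l hl).1 (h ▸ hc k hk)
  have hce : ∀ k < m, ∀ z < N, c k ≠ e z := fun k hk z hz h => (he2 z hz).1 (h ▸ hc k hk)
  have hvne : ∀ a ∈ P, ∀ b ∈ P, a ≠ b → v a ≠ v b := fun a ha b hb h h' => h (hv.1 a ha b hb h')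
  -- the three kinds of sets
  obtain ⟨PP, hPP⟩ : ∃ PP : ℕ → Set V, ∀ k, PP k = (w k ∪ {v (g k)}) ∪ J (m + k) :=
    ⟨_, fun _ => rfl⟩
  obtain ⟨QQ, hQQ⟩ : ∃ QQ : ℕ → Set V, ∀ k, QQ k = {v (c k)} ∪ J (2 * m + k) := ⟨_, fun _ => rfl⟩
  obtain ⟨EE, hEE⟩ : ∃ EE : ℕ → Set V, ∀ k, EE k = {v (e k)} ∪ J (3 * m + k) := ⟨_, fun _ => rfl⟩
  have inP : ∀ k < m, In J {k, m + k} (v (g k)) (PP k) := by
    intro k hk z hz
    rw [hPP] at hz
    rcases hz with (h | h) | h
    · exact Or.inr ⟨k, Or.inl rfl, hwJ k hk h⟩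
    · exact Or.inl h
    · exact Or.inr ⟨m + k, Or.inr rfl, h⟩
  have inQ : ∀ k < m, In J {2 * m + k} (v (c k)) (QQ k) := by
    intro k hk z hz
    rw [hQQ] at hz
    rcases hz with h | h
    · exact Or.inl h
    · exact Or.inr ⟨2 * m + k, rfl, h⟩
  have inE : ∀ k < N, In J {3 * m + k} (v (e k)) (EE k) := by
    intro k hk z hz
    rw [hEE] at hz
    rcases hz with h | h
    · exact Or.inl h
    · exact Or.inr ⟨3 * m + k, rfl, h⟩
  have sP : ∀ k < m, ∀ j ∈ ({k, m + k} : Set ℕ), j < 3 * m + N := by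
    intro k hk j hj
    rcases hj with rfl | hj
    · omega
    · rw [Set.mem_singleton_iff] at hj
      omega
  have sQ : ∀ k < m, ∀ j ∈ ({2 * m + k} : Set ℕ), j < 3 * m + N := by
    intro k hk j hj
    rw [Set.mem_singleton_iff] at hj
    omega
  have sE : ∀ k < N, ∀ j ∈ ({3 * m + k} : Set ℕ), j < 3 * m + N := by
    intro k hk j hj
    rw [Set.mem_singleton_iff] at hj
    omega
  have tP : ∀ k < m, ∀ a ∈ P, Tch G {v a} (PP k) := by
    intro k hk a ha
    rw [hPP]
    exact ((hJ1 (m + k) (by omega)).2.2 a ha).symm.mono subset_rfl Set.subset_union_right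
  have tQ : ∀ k < m, ∀ a ∈ P, Tch G {v a} (QQ k) := by
    intro k hk a ha
    rw [hQQ]
    exact ((hJ1 (2 * m + k) (by omega)).2.2 a ha).symm.mono subset_rfl Set.subset_union_right
  have tE : ∀ k < N, ∀ a ∈ P, Tch G {v a} (EE k) := by
    intro k hk a ha
    rw [hEE]
    exact ((hJ1 (3 * m + k) (by omega)).2.2 a ha).symm.mono subset_rfl Set.subset_union_right
  have vP : ∀ k, {v (g k)} ⊆ PP k := fun k => by
    rw [hPP]; exact Set.subset_union_right.trans Set.subset_union_left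
  have vQ : ∀ k, {v (c k)} ⊆ QQ k := fun k => by rw [hQQ]; exact Set.subset_union_left
  have vE : ∀ k, {v (e k)} ⊆ EE k := fun k => by rw [hEE]; exact Set.subset_union_left
  have xk : ∀ k < m, k < 3 * m + N := fun k hk => by omega
  have inX : ∀ k < m, In J {k} (x k) {x k} := fun k hk z hz => Or.inl hz
  apply q1bAux.assemble (P := PP) (Q := QQ) (E := EE) (Y := fun k => {x k}) hDD
  · intro k hk
    rw [hPP]
    refine ((hwconn k hk).union (Conn.singleton G _) (Or.inr (hg1 k hk).2)).union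
      (hJ1 (m + k) (by omega)).2.1 (Or.inr ?_)
    exact ((hJ1 (m + k) (by omega)).2.2 _ (hg1 k hk).1).symm.mono Set.subset_union_right subset_rfl
  · intro k hk
    rw [hQQ]
    exact (Conn.singleton G _).union (hJ1 (2 * m + k) (by omega)).2.1
      (Or.inr ((hJ1 (2 * m + k) (by omega)).2.2 _ (hcP k hk)).symm)
  · intro k hk
    rw [hEE]
    exact (Conn.singleton G _).union (hJ1 (3 * m + k) (by omega)).2.1
      (Or.inr ((hJ1 (3 * m + k) (by omega)).2.2 _ (he1 k hk).1).symm)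
  · intro k _
    exact Conn.singleton G (x k)
  · -- P P
    intro k hk l hl hkl
    have hne : g k ≠ g l := fun h => hkl (hginj k hk l hl h)
    refine ⟨disj hJd (inP k hk) (inP l hl) (sP k hk) (sP l hl) ?_
      (hvne _ (hg1 k hk).1 _ (hg1 l hl).1 hne) (hvJ _ (hg1 k hk).1) (hvJ _ (hg1 l hl).1),
      (tP l hl _ (hg1 k hk).1).mono (vP k) subset_rfl⟩
    intro j hj hj'
    simp only [Set.mem_insert_iff, Set.mem_singleton_iff] at hj hj'
    omega
  · -- P Q
    intro k hk l hl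
    refine ⟨disj hJd (inP k hk) (inQ l hl) (sP k hk) (sQ l hl) ?_
      (hvne _ (hg1 k hk).1 _ (hcP l hl) (Ne.symm (hcg l hl k hk))) (hvJ _ (hg1 k hk).1)
      (hvJ _ (hcP l hl)), (tQ l hl _ (hg1 k hk).1).mono (vP k) subset_rfl⟩
    intro j hj hj'
    simp only [Set.mem_insert_iff, Set.mem_singleton_iff] at hj hj'
    omega
  · -- P E
    intro k hk z hz
    refine ⟨disj hJd (inP k hk) (inE z hz) (sP k hk) (sE z hz) ?_
      (hvne _ (hg1 k hk).1 _ (he1 z hz).1 ((he1 z hz).2.2 k hk)) (hvJ _ (hg1 k hk).1)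
      (hvJ _ (he1 z hz).1), (tE z hz _ (hg1 k hk).1).mono (vP k) subset_rfl⟩
    intro j hj hj'
    simp only [Set.mem_insert_iff, Set.mem_singleton_iff] at hj hj'
    omega
  · -- Q Q
    intro k hk l hl hkl
    have hne : c k ≠ c l := fun h => hkl (hcinj k hk l hl h)
    refine ⟨disj hJd (inQ k hk) (inQ l hl) (sQ k hk) (sQ l hl) ?_
      (hvne _ (hcP k hk) _ (hcP l hl) hne) (hvJ _ (hcP k hk))
      (hvJ _ (hcP l hl)), (tQ l hl _ (hcP k hk)).mono (vQ k) subset_rfl⟩
    intro j hj hj'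
    simp only [Set.mem_singleton_iff] at hj hj'
    omega
  · -- Q E
    intro k hk z hz
    refine ⟨disj hJd (inQ k hk) (inE z hz) (sQ k hk) (sE z hz) ?_
      (hvne _ (hcP k hk) _ (he1 z hz).1 (hce k hk z hz)) (hvJ _ (hcP k hk))
      (hvJ _ (he1 z hz).1), (tE z hz _ (hcP k hk)).mono (vQ k) subset_rfl⟩
    intro j hj hj'
    simp only [Set.mem_singleton_iff] at hj hj'
    omega
  · -- E E
    intro z hz z' hz' hne
    have hne' : e z ≠ e z' := fun h => hne (heinj z hz z' hz' h)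
    refine ⟨disj hJd (inE z hz) (inE z' hz') (sE z hz) (sE z' hz') ?_
      (hvne _ (he1 z hz).1 _ (he1 z' hz').1 hne') (hvJ _ (he1 z hz).1)
      (hvJ _ (he1 z' hz').1), (tE z' hz' _ (he1 z hz).1).mono (vE z) subset_rfl⟩
    intro j hj hj'
    simp only [Set.mem_singleton_iff] at hj hj'
    omega
  · -- Y P
    intro k hk l hl
    by_cases hkl : k = l
    · subst hkl
      constructor
      · rw [Set.disjoint_singleton_left, hPP]
        rintro ((h | h) | h)
        · exact hxw k hk h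
        · rw [Set.mem_singleton_iff] at h
          exact hvJ _ (hg1 k hk).1 k (xk k hk) (h ▸ hxJ k hk)
        · exact Set.disjoint_left.mp (hJd k (xk k hk) (m + k) (by omega) (by omega)) (hxJ k hk) h
      · refine iff_of_true ?_ rfl
        rw [hPP]
        exact (hxwt k hk).mono subset_rfl (Set.subset_union_left.trans Set.subset_union_left)
    · constructor
      · rw [Set.disjoint_singleton_left]
        intro h
        rcases inP l hl _ h with h | ⟨j, hj, h⟩
        · exact hvJ _ (hg1 l hl).1 k (xk k hk) (h ▸ hxJ k hk)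
        · have hjk : k ≠ j := by
            simp only [Set.mem_insert_iff, Set.mem_singleton_iff] at hj
            omega
          exact Set.disjoint_left.mp (hJd k (xk k hk) j (sP l hl j hj) hjk) (hxJ k hk) h
      · refine iff_of_false (ntch hJt (inP l hl) (sP l hl) (xk k hk) ?_ (hxJ k hk)
          (hnot k hk _ (hg1 l hl).1 ((hg2 l hl).2 k hk))) hkl
        simp only [Set.mem_insert_iff, Set.mem_singleton_iff]
        omega
  · -- Y Q
    intro k hk l hl
    constructor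
    · rw [Set.disjoint_singleton_left]
      intro h
      rcases inQ l hl _ h with h | ⟨j, hj, h⟩
      · exact hvJ _ (hcP l hl) k (xk k hk) (h ▸ hxJ k hk)
      · have hjk : k ≠ j := by
          simp only [Set.mem_singleton_iff] at hj
          omega
        exact Set.disjoint_left.mp (hJd k (xk k hk) j (sQ l hl j hj) hjk) (hxJ k hk) h
    · constructor
      · intro h
        by_contra hkl
        refine ntch hJt (inQ l hl) (sQ l hl) (xk k hk) ?_ (hxJ k hk) (hnotc k hk l hl hkl) h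
        simp only [Set.mem_singleton_iff]
        omega
      · rintro rfl
        exact (hxc k hk).mono subset_rfl (vQ k)
  · -- Y E
    intro k hk z hz
    constructor
    · rw [Set.disjoint_singleton_left]
      intro h
      rcases inE z hz _ h with h | ⟨j, hj, h⟩
      · exact hvJ _ (he1 z hz).1 k (xk k hk) (h ▸ hxJ k hk)
      · have hjk : k ≠ j := by
          simp only [Set.mem_singleton_iff] at hj
          omega
        exact Set.disjoint_left.mp (hJd k (xk k hk) j (sE z hz j hj) hjk) (hxJ k hk) h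
    · refine ntch hJt (inE z hz) (sE z hz) (xk k hk) ?_ (hxJ k hk)
        (hnot k hk _ (he1 z hz).1 ((he2 z hz).2 k hk))
      simp only [Set.mem_singleton_iff]
      omega
  · -- Y Y
    intro k hk l hl hkl
    constructor
    · rw [Set.disjoint_singleton_left]
      intro h
      rw [Set.mem_singleton_iff] at h
      exact Set.disjoint_left.mp (hJd k (xk k hk) l (xk l hl) hkl) (hxJ k hk) (h ▸ hxJ l hl)
    · intro h
      exact hJt k (xk k hk) l (xk l hl) hkl (h.mono (Set.singleton_subset_iff.mpr (hxJ k hk))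
        (Set.singleton_subset_iff.mpr (hxJ l hl)))

end Pool.Agent.MPd439b2.KS
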