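import Pool.Agent.Lib.MP_d439b2_co.KS.SpecU

/-!
# MP_d439b2_co, U4: `DD N m` from stars
-/

set_option autoImplicit false

namespace Pool.Agent.MPd439b2.KS

namespace U4Aux

variable {V : Type} {G : SimpleGraph V}

theorem conn_star {S : Set V} {z : V} (hz : z ∈ S) (h : ∀ a ∈ S, a ≠ z → G.Adj z a) :
    Conn G S := by
  refine ⟨⟨z, hz⟩, fun B hB hne hne' => ?_⟩
  by_cases hzB : z ∈ B
  · have : ∃ a ∈ S, a ∉ B := by
      by_contra hcon
      push Not at hcon
      exact hne' (Set.Subset.antisymm hB hcon)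
    obtain ⟨a, ha, haB⟩ := this
    exact ⟨z, hzB, a, ⟨ha, haB⟩, h a ha fun hh => haB (hh ▸ hzB)⟩
  · obtain ⟨b, hb⟩ := hne
    exact ⟨b, hb, z, ⟨hz, hzB⟩, (h b (hB hb) fun hh => hzB (hh ▸ hb)).symm⟩

theorem enum (P : Finset ℕ) : ∃ e : ℕ → ℕ, (∀ i < P.card, e i ∈ P) ∧
    ∀ i < P.card, ∀ j < P.card, e i = e j → i = j := by
  classical
  refine ⟨fun i => if h : i < P.card then P.orderEmbOfFin rfl ⟨i, h⟩ else 0, ?_, ?_⟩
  · intro i hi
    simp only [hi, dif_pos]
    exact Finset.orderEmbOfFin_mem P rfl _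
  · intro i hi j hj hij
    simp only [hi, hj, dif_pos] at hij
    have := (P.orderEmbOfFin rfl).injective hij
    exact Fin.mk.inj_iff.mp this

end U4Aux

open U4Aux in
theorem u4 : (S_DDd) → S_U4 := by
  intro hDDd N m V G D v P hInd hvD hDD hP hStar
  set K := N + 2 * m with hK
  have hch : ∀ j, ∃ (x : ℕ → V) (W : Set V), j < K → W ⊆ D j ∧ Conn G W ∧
      (∀ c ∈ P, x c ∈ D j ∧ x c ∉ W ∧ Tch G W {x c} ∧ G.Adj (v c) (x c) ∧ ¬ Tch G W {v c}) ∧
      ∀ c ∈ P, ∀ c' ∈ P, c ≠ c' → x c ≠ x c' ∧ ¬ G.Adj (v c) (x c') := by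
    intro j
    by_cases hj : j < K
    · obtain ⟨x, W, h⟩ := hStar j hj
      exact ⟨x, W, fun _ => h⟩
    · exact ⟨v, ∅, fun h => absurd h hj⟩
  choose X W hXW using hch
  obtain ⟨e, heP, heinj⟩ := enum P
  -- basic facts
  have hWD : ∀ l < K, W l ⊆ D l := fun l hl => (hXW l hl).1
  have hWc : ∀ l < K, Conn G (W l) := fun l hl => (hXW l hl).2.1
  have hXD : ∀ l < K, ∀ c ∈ P, X l c ∈ D l := fun l hl c hc => ((hXW l hl).2.2.1 c hc).1
  have hXW' : ∀ l < K, ∀ c ∈ P, X l c ∉ W l := fun l hl c hc => ((hXW l hl).2.2.1 c hc).2.1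
  have hWX : ∀ l < K, ∀ c ∈ P, Tch G (W l) {X l c} :=
    fun l hl c hc => ((hXW l hl).2.2.1 c hc).2.2.1
  have hvX : ∀ l < K, ∀ c ∈ P, G.Adj (v c) (X l c) :=
    fun l hl c hc => ((hXW l hl).2.2.1 c hc).2.2.2.1
  have hWv : ∀ l < K, ∀ c ∈ P, ¬ Tch G (W l) {v c} :=
    fun l hl c hc => ((hXW l hl).2.2.1 c hc).2.2.2.2
  have hnDD : ∀ l < K, ∀ l' < K, l ≠ l' → ∀ z, z ∈ D l → z ∉ D l' :=
    fun l hl l' hl' hne z hz hz' => Set.disjoint_left.mp (hDD l hl l' hl' hne) hz hz'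
  have hA : ∀ l < K, ∀ l' < K, ∀ c ∈ P, ∀ c' ∈ P, X l c = X l' c' → l = l' ∧ c = c' := by
    intro l hl l' hl' c hc c' hc' h
    have h1 : l = l' := by
      by_contra hne
      exact hnDD l hl l' hl' hne _ (hXD l hl c hc) (h ▸ hXD l' hl' c' hc')
    subst h1
    refine ⟨rfl, ?_⟩
    by_contra hne
    exact ((hXW l hl).2.2.2 c hc c' hc' hne).1 h
  have hB : ∀ l < K, ∀ c ∈ P, ∀ c' ∈ P, v c ≠ X l c' :=
    fun l hl c hc c' hc' h => hvD l hl c hc (h ▸ hXD l hl c' hc')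
  have hC : ∀ l < K, ∀ l' < K, ∀ c ∈ P, X l c ∉ W l' := by
    intro l hl l' hl' c hc h
    by_cases hne : l = l'
    · subst hne
      exact hXW' l hl c hc h
    · exact hnDD l hl l' hl' hne _ (hXD l hl c hc) (hWD l' hl' h)
  have hDv : ∀ l < K, ∀ c ∈ P, v c ∉ W l := fun l hl c hc h => hvD l hl c hc (hWD l hl h)
  have hF : ∀ l < K, ∀ c ∈ P, ∀ c' ∈ P, c ≠ c' → ¬ G.Adj (v c) (X l c') :=
    fun l hl c hc c' hc' hne => ((hXW l hl).2.2.2 c hc c' hc' hne).2
  -- the labels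
  have hdP : ∀ j < K, e j ∈ P := fun j hj => heP j (by omega)
  have hcP : ∀ k < m, e (K + k) ∈ P := fun k hk => heP _ (by omega)
  have hdd : ∀ i < K, ∀ j < K, e i = e j → i = j := fun i hi j hj h =>
    heinj i (by omega) j (by omega) h
  have hcc : ∀ i < m, ∀ j < m, e (K + i) = e (K + j) → i = j := fun i hi j hj h => by
    have := heinj (K + i) (by omega) (K + j) (by omega) h
    omega
  have hcd : ∀ i < m, ∀ j < K, e (K + i) ≠ e j := fun i hi j hj h => by
    have := heinj (K + i) (by omega) j (by omega) h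
    omega
  -- the sets
  set O : ℕ → Set V := fun j => W j ∪ ({v (e j)} ∪ {y | ∃ i < K, y = X i (e j)}) with hO
  set Z : ℕ → Set V := fun i => {y | i < 2 * m ∧ y = X i (e (K + i / 2))} with hZ
  set M : ℕ → Set V := fun i => O i ∪ Z i with hM
  have hmem : ∀ i z, z ∈ M i ↔ z ∈ W i ∨ z = v (e i) ∨ (∃ l < K, z = X l (e i)) ∨
      (i < 2 * m ∧ z = X i (e (K + i / 2))) := by
    intro i z
    simp only [hM, hO, hZ, Set.mem_union, Set.mem_singleton_iff, Set.mem_ofPred_eq, or_assoc]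
  have hOc : ∀ j < K, Conn G (O j) := by
    intro j hj
    refine (hWc j hj).union (conn_star (z := v (e j)) (Or.inl rfl) ?_) (Or.inr ?_)
    · rintro a (ha | ⟨i, hi, rfl⟩) hne
      · exact absurd ha hne
      · exact hvX i hi (e j) (hdP j hj)
    · exact (hWX j hj (e j) (hdP j hj)).mono (Set.Subset.refl _)
        (Set.singleton_subset_iff.mpr (Or.inr ⟨j, hj, rfl⟩))
  have hMc : ∀ j < K, Conn G (M j) := by
    intro j hj
    by_cases h2 : j < 2 * m
    · have hZj : Z j = {X j (e (K + j / 2))} := by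
        ext z
        simp only [hZ, Set.mem_ofPred_eq, Set.mem_singleton_iff]
        exact ⟨fun h => h.2, fun h => ⟨h2, h⟩⟩
      have hc : e (K + j / 2) ∈ P := hcP _ (by omega)
      change Conn G (O j ∪ Z j)
      rw [hZj]
      refine (hOc j hj).union (Conn.singleton G _) (Or.inr ?_)
      exact (hWX j hj _ hc).mono Set.subset_union_left (Set.Subset.refl _)
    · have hZj : Z j = ∅ := by
        ext z
        simp only [hZ, Set.mem_ofPred_eq, Set.mem_empty_iff_false, iff_false]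
        exact fun h => h2 h.1
      change Conn G (O j ∪ Z j)
      rw [hZj, Set.union_empty]
      exact hOc j hj
  have hMd : ∀ i < K, ∀ j < K, i ≠ j → Disjoint (M i) (M j) := by
    intro i hi j hj hij
    rw [Set.disjoint_left]
    intro z hzi hzj
    have hdne : e i ≠ e j := fun h => hij (hdd i hi j hj h)
    have hPi := hdP i hi
    have hPj := hdP j hj
    rcases (hmem i z).mp hzi with h1 | h1 | ⟨l, hl, h1⟩ | ⟨hi2, h1⟩ <;>
      rcases (hmem j z).mp hzj with h2 | h2 | ⟨l', hl', h2⟩ | ⟨hj2, h2⟩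
    · exact hnDD i hi j hj hij z (hWD i hi h1) (hWD j hj h2)
    · exact hDv i hi _ hPj (h2 ▸ h1)
    · exact hC l' hl' i hi _ hPj (h2 ▸ h1)
    · exact hC j hj i hi _ (hcP _ (by omega)) (h2 ▸ h1)
    · exact hDv j hj _ hPi (h1 ▸ h2)
    · exact hdne (hInd.1 _ hPi _ hPj (h1.symm.trans h2))
    · exact hB l' hl' _ hPi _ hPj (h1.symm.trans h2)
    · exact hB j hj _ hPi _ (hcP _ (by omega)) (h1.symm.trans h2)
    · exact hC l hl j hj _ hPi (h1 ▸ h2)
    · exact hB l hl _ hPj _ hPi (h2.symm.trans h1)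
    · exact hdne (hA l hl l' hl' _ hPi _ hPj (h1.symm.trans h2)).2
    · exact hcd _ (by omega) i hi (hA l hl j hj _ hPi _ (hcP _ (by omega)) (h1.symm.trans h2)).2.symm
    · exact hC i hi j hj _ (hcP _ (by omega)) (h1 ▸ h2)
    · exact hB i hi _ hPj _ (hcP _ (by omega)) (h2.symm.trans h1)
    · exact hcd _ (by omega) j hj (hA i hi l' hl' _ (hcP _ (by omega)) _ hPj (h1.symm.trans h2)).2
    · exact hij (hA i hi j hj _ (hcP _ (by omega)) _ (hcP _ (by omega)) (h1.symm.trans h2)).1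
  have hMt : ∀ i < K, ∀ j < K, i ≠ j → Tch G (M i) (M j) := by
    intro i hi j hj _
    refine (hWX i hi (e j) (hdP j hj)).mono ?_ ?_
    · intro z hz
      exact (hmem i z).mpr (Or.inl hz)
    · rw [Set.singleton_subset_iff]
      exact (hmem j _).mpr (Or.inr (Or.inr (Or.inl ⟨i, hi, rfl⟩)))
  have hMdl : Mdl G (Finset.range K) M := by
    refine ⟨fun i hi => hMc i (Finset.mem_range.mp hi), fun i hi j hj hij => ?_⟩
    rw [Finset.mem_range] at hi hj
    exact ⟨hMd i hi j hj hij, hMt i hi j hj hij⟩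
  refine hDDd V G N m (Finset.range K) M (fun q => {v (e (K + q))}) (fun q => 2 * q)
    (fun q => 2 * q + 1) hMdl (by rw [Finset.card_range]) ?_ ?_ ?_ ?_ ?_ ?_
  · intro q hq
    refine ⟨Conn.singleton G _, ?_, ?_⟩ <;> rw [Finset.mem_range] <;> omega
  · intro q hq i hi
    rw [Finset.mem_range] at hi
    have hcq := hcP q hq
    have hPi := hdP i hi
    have hne : e (K + q) ≠ e i := hcd q hq i hi
    refine ⟨?_, ?_, ?_⟩
    · rw [Set.disjoint_singleton_left]
      intro h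
      rcases (hmem i _).mp h with h1 | h1 | ⟨l, hl, h1⟩ | ⟨hi2, h1⟩
      · exact hDv i hi _ hcq h1
      · exact hne (hInd.1 _ hcq _ hPi h1)
      · exact hB l hl _ hcq _ hPi h1
      · exact hB i hi _ hcq _ (hcP _ (by omega)) h1
    · rintro ⟨a, ha, z, hz, haz⟩
      rw [Set.mem_singleton_iff] at ha
      subst ha
      rcases (hmem i _).mp hz with h1 | h1 | ⟨l, hl, h1⟩ | ⟨hi2, h1⟩
      · exact absurd ⟨z, h1, _, rfl, haz.symm⟩ (hWv i hi _ hcq)
      · exact absurd (h1 ▸ haz) (hInd.2 _ hcq _ hPi)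
      · exact absurd (h1 ▸ haz) (hF l hl _ hcq _ hPi hne)
      · by_cases hq' : e (K + q) = e (K + i / 2)
        · have := hcc q hq (i / 2) (by omega) hq'
          omega
        · exact absurd (h1 ▸ haz) (hF i hi _ hcq _ (hcP _ (by omega)) hq')
    · intro h
      have hi2 : i < 2 * m := by omega
      have hq2 : i / 2 = q := by omega
      refine ⟨_, rfl, X i (e (K + i / 2)), (hmem i _).mpr (Or.inr (Or.inr (Or.inr ⟨hi2, rfl⟩))), ?_⟩
      rw [hq2]
      exact hvX i hi _ hcq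
  · intro q hq q' hq' hne
    have hcq := hcP q hq
    have hcq' := hcP q' hq'
    refine ⟨?_, ?_⟩
    · rw [Set.disjoint_singleton]
      intro h
      exact hne (hcc q hq q' hq' (hInd.1 _ hcq _ hcq' h))
    · rintro ⟨a, ha, b, hb, hab⟩
      rw [Set.mem_singleton_iff] at ha hb
      subst ha hb
      exact hInd.2 _ hcq _ hcq' hab
  · intro q _ q' _ h
    omega
  · intro q _ q' _ h
    omega
  · intro q _ q' _ h
    omega

end Pool.Agent.MPd439b2.KS
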