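import Pool.Agent.Lib.MP_d439b2_co.KS.SpecU

/-!
# MP_d439b2_co, Theorem K: all graphs of two chains from `N` paths
-/

set_option autoImplicit false

namespace Pool.Agent.MPd439b2.KS

namespace u5Aux

/-- Subsets on which finitely many injective functions are monotone. -/
theorem mono_sub (h : S_Ram) (N : ℕ) : ∀ q : ℕ, ∃ p : ℕ, ∀ (P : Finset ℕ) (f : ℕ → ℕ → ℕ),
    p ≤ P.card → (∀ j < N, ∀ c ∈ P, ∀ c' ∈ P, f j c = f j c' → c = c') →
    ∃ T ⊆ P, T.card = q ∧ ∀ j < N, (∀ c ∈ T, ∀ c' ∈ T, c < c' → f j c < f j c') ∨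
      (∀ c ∈ T, ∀ c' ∈ T, c < c' → f j c' < f j c) := by
  induction N with
  | zero =>
    intro q
    refine ⟨q, fun P f hP _ => ?_⟩
    obtain ⟨T, hT, hc⟩ := Finset.exists_subset_card_eq hP
    exact ⟨T, hT, hc, fun j hj => absurd hj (Nat.not_lt_zero j)⟩
  | succ N ih =>
    intro q
    obtain ⟨n, hn⟩ := h q q
    obtain ⟨p, hp⟩ := ih n
    refine ⟨p, fun P f hP hf => ?_⟩
    obtain ⟨T', hT', hc', hm'⟩ := hp P f hP (fun j hj => hf j (Nat.lt_succ_of_lt hj))
    have key : ∃ T ⊆ T', T.card = q ∧ ((∀ c ∈ T, ∀ c' ∈ T, c < c' → f N c < f N c') ∨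
        (∀ c ∈ T, ∀ c' ∈ T, c < c' → f N c' < f N c)) := by
      rcases hn ℕ T' (fun c c' => (c < c' ∧ f N c < f N c') ∨ (c' < c ∧ f N c' < f N c))
        (fun x y hxy => hxy.symm) (le_of_eq hc'.symm) with ⟨T, hT, hc, hE⟩ | ⟨T, hT, hc, hE⟩
      · refine ⟨T, hT, hc, Or.inl fun c hc1 c' hc2 hlt => ?_⟩
        rcases hE c hc1 c' hc2 (ne_of_lt hlt) with h1 | h1
        · exact h1.2
        · omega
      · refine ⟨T, hT, hc, Or.inr fun c hc1 c' hc2 hlt => ?_⟩
        have h1 := hE c hc1 c' hc2 (ne_of_lt hlt)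
        have h2 : f N c ≠ f N c' := fun h3 =>
          (ne_of_lt hlt) (hf N (Nat.lt_succ_self N) c (hT' (hT hc1)) c' (hT' (hT hc2)) h3)
        by_contra h4
        exact h1 (Or.inl ⟨hlt, by omega⟩)
    obtain ⟨T, hT, hc, hm⟩ := key
    refine ⟨T, hT.trans hT', hc, fun j hj => ?_⟩
    rcases Nat.lt_succ_iff_lt_or_eq.1 hj with h1 | h1
    · rcases hm' j h1 with h2 | h2
      · exact Or.inl fun c hc1 c' hc2 => h2 c (hT hc1) c' (hT hc2)
      · exact Or.inr fun c hc1 c' hc2 => h2 c (hT hc1) c' (hT hc2)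
    · subst h1
      exact hm

/-- an induced path in `D` such that the `w c`, `c < q`, touch it in consecutive intervals -/
def Row {V : Type} (G : SimpleGraph V) (D : Set V) (w : ℕ → V) (q : ℕ) : Prop :=
  ∃ (l : ℕ) (p : ℕ → V) (lo hi : ℕ → ℕ), IndP G D l p ∧
    (∀ c < q, lo c ≤ hi c ∧ hi c < l ∧ (∃ i, lo c ≤ i ∧ i ≤ hi c ∧ G.Adj (w c) (p i)) ∧
      ∀ i < l, G.Adj (w c) (p i) → lo c ≤ i ∧ i ≤ hi c) ∧
    ∀ c c', c < c' → c' < q → hi c < lo c'

theorem row_of_inc {V : Type} {G : SimpleGraph V} {D : Set V} {w : ℕ → V} {q l : ℕ}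
    {p : ℕ → V} {lo hi : ℕ → ℕ} (hp : IndP G D l p)
    (hc : ∀ c < q, lo c ≤ hi c ∧ hi c < l ∧ (∃ i, lo c ≤ i ∧ i ≤ hi c ∧ G.Adj (w c) (p i)) ∧
      ∀ i < l, G.Adj (w c) (p i) → lo c ≤ i ∧ i ≤ hi c)
    (hd : ∀ c < q, ∀ c' < q, c ≠ c' → hi c < lo c' ∨ hi c' < lo c)
    (hm : ∀ c c', c < c' → c' < q → lo c < lo c') : Row G D w q := by
  refine ⟨l, p, lo, hi, hp, hc, fun c c' h1 h2 => ?_⟩
  rcases hd c (h1.trans h2) c' h2 (ne_of_lt h1) with h3 | h3
  · exact h3
  · have h4 := hm c c' h1 h2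
    have h5 := (hc c' h2).1
    omega

theorem row_of_dec {V : Type} {G : SimpleGraph V} {D : Set V} {w : ℕ → V} {q l : ℕ}
    {p : ℕ → V} {lo hi : ℕ → ℕ} (hp : IndP G D l p)
    (hc : ∀ c < q, lo c ≤ hi c ∧ hi c < l ∧ (∃ i, lo c ≤ i ∧ i ≤ hi c ∧ G.Adj (w c) (p i)) ∧
      ∀ i < l, G.Adj (w c) (p i) → lo c ≤ i ∧ i ≤ hi c)
    (hd : ∀ c < q, ∀ c' < q, c ≠ c' → hi c < lo c' ∨ hi c' < lo c)
    (hm : ∀ c c', c < c' → c' < q → lo c' < lo c) : Row G D w q := by
  obtain ⟨hp1, hp2, hp3⟩ := hp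
  refine ⟨l, fun i => p (l - 1 - i), fun c => l - 1 - hi c, fun c => l - 1 - lo c,
    ⟨?_, ?_, ?_⟩, ?_, ?_⟩
  · intro i hi'
    exact hp1 _ (by omega)
  · intro i hi' j hj hij
    have h1 := hp2 (l - 1 - i) (by omega) (l - 1 - j) (by omega) hij
    omega
  · intro i hi' j hj
    have h1 := hp3 (l - 1 - i) (by omega) (l - 1 - j) (by omega)
    refine h1.trans ?_
    constructor <;> intro h2 <;> omega
  · intro c hcq
    obtain ⟨h1, h2, ⟨i, h3, h4, h5⟩, h6⟩ := hc c hcq
    refine ⟨by dsimp only; omega, by dsimp only; omega,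
      ⟨l - 1 - i, by dsimp only; omega, by dsimp only; omega, ?_⟩, ?_⟩
    · dsimp only
      have h7 : l - 1 - (l - 1 - i) = i := by omega
      rw [h7]
      exact h5
    · intro i' hi' hadj
      have h8 := h6 (l - 1 - i') (by omega) hadj
      dsimp only
      omega
  · intro c c' h1 h2
    dsimp only
    have h3 := hm c c' h1 h2
    have h4 := (hc c (h1.trans h2))
    have h5 := (hc c' h2)
    have h6 := h4.1
    have h7 := h4.2.1
    have h8 := h5.1
    have h9 := h5.2.1
    rcases hd c (h1.trans h2) c' h2 (ne_of_lt h1) with h10 | h10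
    · omega
    · omega

theorem conn_seg {V : Type} {G : SimpleGraph V} {p : ℕ → V} {a : ℕ} :
    ∀ {b : ℕ}, a < b → (∀ i, a ≤ i → i + 1 < b → G.Adj (p i) (p (i + 1))) →
      Conn G (seg p a b) := by
  intro b hab
  induction b, hab using Nat.le_induction with
  | base =>
    intro _
    have h1 : seg p a (a + 1) = {p a} := by
      ext x
      constructor
      · rintro ⟨i, h1, h2, rfl⟩
        have h3 : i = a := by omega
        rw [h3]
        rfl
      · rintro rfl
        exact ⟨a, le_refl a, Nat.lt_succ_self a, rfl⟩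
    rw [h1]
    exact Conn.singleton G (p a)
  | succ b hb ih =>
    intro h
    have h1 : seg p a (b + 1) = insert (p b) (seg p a b) := by
      ext x
      constructor
      · rintro ⟨i, h1, h2, rfl⟩
        rcases Nat.lt_succ_iff_lt_or_eq.1 h2 with h3 | h3
        · exact Or.inr ⟨i, h1, h3, rfl⟩
        · rw [h3]
          exact Or.inl rfl
      · rintro (h2 | ⟨i, h1, h2, rfl⟩)
        · rw [h2]
          exact ⟨b, by omega, Nat.lt_succ_self b, rfl⟩
        · exact ⟨i, h1, Nat.lt_succ_of_lt h2, rfl⟩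
    rw [h1]
    refine Conn.insert (ih fun i h2 h3 => h i h2 (by omega)) ⟨p (b - 1), ⟨b - 1, by omega,
      by omega, rfl⟩, ?_⟩
    have h4 := h (b - 1) (by omega) (by omega)
    have h5 : b - 1 + 1 = b := by omega
    rw [h5] at h4
    exact h4

/-- A subpath which touches exactly the `w c` with `A ≤ c ≤ B`. -/
theorem row_sub {V : Type} {G : SimpleGraph V} {D : Set V} {w : ℕ → V} {q : ℕ}
    (h : Row G D w q) {A B : ℕ} (hAB : A ≤ B) (hB : B < q) :
    ∃ R ⊆ D, Conn G R ∧ ∀ c < q, (∃ x ∈ R, G.Adj x (w c)) ↔ A ≤ c ∧ c ≤ B := by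
  obtain ⟨l, p, lo, hi, ⟨hp1, hp2, hp3⟩, hc, hm⟩ := h
  have hA := hc A (by omega)
  have hB' := hc B hB
  have h1 : lo A ≤ hi B := by
    rcases Nat.eq_or_lt_of_le hAB with h2 | h2
    · rw [← h2]
      exact hA.1
    · have h3 := hm A B h2 hB
      have h4 := hA.1
      have h5 := hB'.1
      omega
  refine ⟨seg p (lo A) (hi B + 1), ?_, conn_seg (by omega) ?_, ?_⟩
  · rintro _ ⟨i, h2, h3, rfl⟩
    have h4 := hB'.2.1
    exact hp1 i (by omega)
  · intro i h2 h3
    have h4 := hB'.2.1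
    exact (hp3 i (by omega) (i + 1) (by omega)).2 (Or.inr rfl)
  · intro c hcq
    obtain ⟨c1, c2, ⟨i0, c3, c4, c5⟩, c6⟩ := hc c hcq
    constructor
    · rintro ⟨_, ⟨i, h2, h3, rfl⟩, hadj⟩
      have h4 := hB'.2.1
      obtain ⟨h5, h6⟩ := c6 i (by omega) hadj.symm
      constructor
      · by_contra h7
        have h8 := hm c A (by omega) (by omega)
        omega
      · by_contra h7
        have h8 := hm B c (by omega) hcq
        omega
    · rintro ⟨h2, h3⟩
      refine ⟨p i0, ⟨i0, ?_, ?_, rfl⟩, c5.symm⟩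
      · rcases Nat.eq_or_lt_of_le h2 with h4 | h4
        · rw [h4]
          exact c3
        · have h5 := hm A c h4 hcq
          have h6 := hA.1
          omega
      · rcases Nat.eq_or_lt_of_le h3 with h4 | h4
        · rw [← h4]
          omega
        · have h5 := hm c B h4 hB
          have h6 := hB'.1
          omega

/-- The model. -/
theorem final {V : Type} {G : SimpleGraph V} {N m : ℕ} (r l : Fin N → ℕ) {D : ℕ → Set V}
    {w : ℕ → V} (hinj : ∀ c < N + 2 * m, ∀ c' < N + 2 * m, w c = w c' → c = c')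
    (hind : ∀ c < N + 2 * m, ∀ c' < N + 2 * m, ¬ G.Adj (w c) (w c'))
    (hD : ∀ j < N, ∀ c < N + 2 * m, w c ∉ D j)
    (hdis : ∀ i < N, ∀ j < N, i ≠ j → Disjoint (D i) (D j))
    (hrow : ∀ j < N, Row G (D j) w (N + 2 * m)) : IMS (TCg N m r l) G Set.univ := by
  have hR : ∀ j : Fin N, ∃ R ⊆ D j, Conn G R ∧ ∀ c < N + 2 * m,
      (∃ x ∈ R, G.Adj x (w c)) ↔ m - min m (l j) ≤ c ∧ c ≤ m + N - 1 + min m (r j) := by
    intro j
    have hj := j.isLt
    exact row_sub (hrow j hj) (by omega) (by omega)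
  choose R hR1 hR2 hR3 using hR
  have hwR : ∀ (j : Fin N) (c : ℕ), c < N + 2 * m → w c ∉ R j :=
    fun j c hc h => hD j j.isLt c hc (hR1 j h)
  have hRR : ∀ i j : Fin N, i ≠ j → Disjoint (R i) (R j) := fun i j hij =>
    (hdis i i.isLt j j.isLt (fun h => hij (Fin.ext h))).mono (hR1 i) (hR1 j)
  let Bm : Fin N ⊕ (Fin m ⊕ Fin m) → Set V := fun t => match t with
    | Sum.inl j => insert (w (m + j)) (R j)
    | Sum.inr (Sum.inl a) => {w (m + N + a)}
    | Sum.inr (Sum.inr a) => {w (m - 1 - a)}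
  -- a vertex w c touches the set of the row j
  have htouch : ∀ (j : Fin N) (c : ℕ), c < N + 2 * m →
      (Tch G (insert (w (m + j)) (R j)) {w c} ↔
        m - min m (l j) ≤ c ∧ c ≤ m + N - 1 + min m (r j)) := by
    intro j c hc
    have hj := j.isLt
    rw [← hR3 j c hc]
    constructor
    · rintro ⟨x, hx, y, hy, hxy⟩
      rw [Set.mem_singleton_iff] at hy
      subst hy
      rcases hx with hx | hx
      · subst hx
        exact absurd hxy (hind _ (by omega) _ hc)
      · exact ⟨x, hx, hxy⟩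
    · rintro ⟨x, hx, hxy⟩
      exact ⟨x, Or.inr hx, w c, rfl, hxy⟩
  have hdis1 : ∀ (j : Fin N) (c : ℕ), c < N + 2 * m → c ≠ m + j →
      Disjoint (insert (w (m + j)) (R j)) {w c} := by
    intro j c hc hne
    have hj := j.isLt
    rw [Set.disjoint_singleton_right]
    rintro (h | h)
    · exact hne (hinj c hc _ (by omega) h)
    · exact hwR j c hc h
  have hdis2 : ∀ c c' : ℕ, c < N + 2 * m → c' < N + 2 * m → c ≠ c' →
      Disjoint ({w c} : Set V) {w c'} := by
    intro c c' hc hc' hne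
    rw [Set.disjoint_singleton]
    exact fun h => hne (hinj c hc c' hc' h)
  have hnt : ∀ c c' : ℕ, c < N + 2 * m → c' < N + 2 * m → ¬ Tch G {w c} {w c'} := by
    rintro c c' hc hc' ⟨x, hx, y, hy, hxy⟩
    rw [Set.mem_singleton_iff] at hx hy
    subst hx
    subst hy
    exact hind c hc c' hc' hxy
  refine ⟨Bm, fun _ => Set.subset_univ _, ?_, ?_, ?_⟩
  · rintro (j | a | a)
    · have hj := j.isLt
      refine Conn.insert (hR2 j) ?_
      exact (hR3 j (m + j) (by omega)).2 ⟨by omega, by omega⟩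
    · exact Conn.singleton G _
    · exact Conn.singleton G _
  · rintro (i | a | a) (j | b | b) hne
    · have hi := i.isLt
      have hj := j.isLt
      have hij : i ≠ j := fun h => hne (congrArg Sum.inl h)
      have hij' : (i : ℕ) ≠ j := fun h => hij (Fin.ext h)
      change Disjoint (insert (w (m + i)) (R i)) (insert (w (m + j)) (R j))
      rw [Set.disjoint_left]
      rintro x (hx | hx) (hx' | hx')
      · rw [hx] at hx'
        have h1 := hinj _ (by omega) _ (by omega) hx'
        omega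
      · rw [hx] at hx'
        exact hwR j _ (by omega) hx'
      · rw [hx'] at hx
        exact hwR i _ (by omega) hx
      · exact Set.disjoint_left.1 (hRR i j hij) hx hx'
    · have hi := i.isLt
      have hb := b.isLt
      exact hdis1 i (m + N + b) (by omega) (by omega)
    · have hi := i.isLt
      have hb := b.isLt
      exact hdis1 i (m - 1 - b) (by omega) (by omega)
    · have hj := j.isLt
      have ha := a.isLt
      exact (hdis1 j (m + N + a) (by omega) (by omega)).symm
    · have ha := a.isLt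
      have hb := b.isLt
      have hab : (a : ℕ) ≠ b := fun h => hne (by rw [Fin.ext h])
      exact hdis2 _ _ (by omega) (by omega) (by omega)
    · have ha := a.isLt
      have hb := b.isLt
      exact hdis2 _ _ (by omega) (by omega) (by omega)
    · have hj := j.isLt
      have ha := a.isLt
      exact (hdis1 j (m - 1 - a) (by omega) (by omega)).symm
    · have ha := a.isLt
      have hb := b.isLt
      exact hdis2 _ _ (by omega) (by omega) (by omega)
    · have ha := a.isLt
      have hb := b.isLt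
      have hab : (a : ℕ) ≠ b := fun h => hne (by rw [Fin.ext h])
      exact hdis2 _ _ (by omega) (by omega) (by omega)
  · rintro (i | a | a) (j | b | b) hne
    · have hi := i.isLt
      have hj := j.isLt
      have hij : i ≠ j := fun h => hne (congrArg Sum.inl h)
      refine ⟨fun _ => ?_, fun _ => hij⟩
      have h1 := (htouch i (m + j) (by omega)).2 ⟨by omega, by omega⟩
      exact h1.mono (Set.Subset.refl _) (by
        intro x hx
        exact Or.inl hx)
    · have hi := i.isLt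
      have hb := b.isLt
      change (b : ℕ) < r i ↔ Tch G (insert (w (m + i)) (R i)) {w (m + N + b)}
      rw [htouch i (m + N + b) (by omega)]
      omega
    · have hi := i.isLt
      have hb := b.isLt
      change (b : ℕ) < l i ↔ Tch G (insert (w (m + i)) (R i)) {w (m - 1 - b)}
      rw [htouch i (m - 1 - b) (by omega)]
      omega
    · have hj := j.isLt
      have ha := a.isLt
      change (a : ℕ) < r j ↔ Tch G {w (m + N + a)} (insert (w (m + j)) (R j))
      rw [tch_comm, htouch j (m + N + a) (by omega)]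
      omega
    · have ha := a.isLt
      have hb := b.isLt
      exact ⟨fun h => absurd h id, fun h => absurd h (hnt _ _ (by omega) (by omega))⟩
    · have ha := a.isLt
      have hb := b.isLt
      exact ⟨fun h => absurd h id, fun h => absurd h (hnt _ _ (by omega) (by omega))⟩
    · have hj := j.isLt
      have ha := a.isLt
      change (a : ℕ) < l j ↔ Tch G {w (m - 1 - a)} (insert (w (m + j)) (R j))
      rw [tch_comm, htouch j (m - 1 - a) (by omega)]
      omega
    · have ha := a.isLt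
      have hb := b.isLt
      exact ⟨fun h => absurd h id, fun h => absurd h (hnt _ _ (by omega) (by omega))⟩
    · have ha := a.isLt
      have hb := b.isLt
      exact ⟨fun h => absurd h id, fun h => absurd h (hnt _ _ (by omega) (by omega))⟩

end u5Aux

open u5Aux in
theorem u5 (hRam : S_Ram) : S_U5 := by
  intro N m r l
  obtain ⟨p, hp⟩ := mono_sub hRam N (N + 2 * m)
  refine ⟨p, ?_⟩
  intro V _ G D v P hv hD hdis hP hrows
  choose L s lo hi H using hrows
  obtain ⟨T, hT, hTc, hTm⟩ := hp P (fun j c => if h : j < N then lo j h c else 0) hP (by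
    intro j hj c hc c' hc' h
    rw [dif_pos hj, dif_pos hj] at h
    by_contra hne
    have h1 := (H j hj).2.2 c hc c' hc' hne
    have h2 := ((H j hj).2.1 c hc).1
    have h3 := ((H j hj).2.1 c' hc').1
    omega)
  let e := T.orderEmbOfFin hTc
  let ix : ℕ → ℕ := fun i => if h : i < N + 2 * m then e ⟨i, h⟩ else 0
  have hix : ∀ i < N + 2 * m, ix i ∈ T := by
    intro i hi'
    change (if h : i < N + 2 * m then e ⟨i, h⟩ else 0) ∈ T
    rw [dif_pos hi']
    exact Finset.orderEmbOfFin_mem T hTc _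
  have hixm : ∀ i i', i < i' → i' < N + 2 * m → ix i < ix i' := by
    intro i i' h1 h2
    change (if h : i < N + 2 * m then e ⟨i, h⟩ else 0) < (if h : i' < N + 2 * m then e ⟨i', h⟩ else 0)
    rw [dif_pos (h1.trans h2), dif_pos h2]
    exact e.strictMono h1
  have hixi : ∀ i < N + 2 * m, ∀ i' < N + 2 * m, ix i = ix i' → i = i' := by
    intro i h1 i' h2 h3
    rcases lt_trichotomy i i' with h4 | h4 | h4
    · have h5 := hixm i i' h4 h2
      omega
    · exact h4
    · have h5 := hixm i' i h4 h1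
      omega
  have hixP : ∀ i < N + 2 * m, ix i ∈ P := fun i h => hT (hix i h)
  refine final (w := fun i => v (ix i)) (D := D) r l ?_ ?_ ?_ hdis ?_
  · intro c hc c' hc' h
    exact hixi c hc c' hc' (hv.1 _ (hixP c hc) _ (hixP c' hc') h)
  · intro c hc c' hc'
    exact hv.2 _ (hixP c hc) _ (hixP c' hc')
  · intro j hj c hc
    exact hD j hj _ (hixP c hc)
  · intro j hj
    obtain ⟨hp1, hp2, hp3⟩ := H j hj
    have hc1 : ∀ c < N + 2 * m, lo j hj (ix c) ≤ hi j hj (ix c) ∧ hi j hj (ix c) < L j hj ∧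
        (∃ i, lo j hj (ix c) ≤ i ∧ i ≤ hi j hj (ix c) ∧ G.Adj (v (ix c)) (s j hj i)) ∧
        ∀ i < L j hj, G.Adj (v (ix c)) (s j hj i) → lo j hj (ix c) ≤ i ∧ i ≤ hi j hj (ix c) :=
      fun c hc => hp2 (ix c) (hixP c hc)
    have hd1 : ∀ c < N + 2 * m, ∀ c' < N + 2 * m, c ≠ c' →
        hi j hj (ix c) < lo j hj (ix c') ∨ hi j hj (ix c') < lo j hj (ix c) :=
      fun c hc c' hc' hne => hp3 _ (hixP c hc) _ (hixP c' hc')
        (fun h => hne (hixi c hc c' hc' h))
    rcases hTm j hj with h1 | h1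
    · refine row_of_inc (lo := fun c => lo j hj (ix c)) (hi := fun c => hi j hj (ix c)) hp1 hc1
        hd1 ?_
      intro c c' h2 h3
      have h4 := h1 (ix c) (hix c (h2.trans h3)) (ix c') (hix c' h3) (hixm c c' h2 h3)
      rw [dif_pos hj, dif_pos hj] at h4
      exact h4
    · refine row_of_dec (lo := fun c => lo j hj (ix c)) (hi := fun c => hi j hj (ix c)) hp1 hc1
        hd1 ?_
      intro c c' h2 h3
      have h4 := h1 (ix c) (hix c (h2.trans h3)) (ix c') (hix c' h3) (hixm c c' h2 h3)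
      rw [dif_pos hj, dif_pos hj] at h4
      exact h4

end Pool.Agent.MPd439b2.KS
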