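import Pool.Agent.Lib.MP_d439b2_co.KS.SpecU

/-!
# MP_d439b2_co, U6: rows touching many independent vertices
-/

set_option autoImplicit false

namespace Pool.Agent.MPd439b2.KS

namespace U6Aux

variable {V : Type} {G : SimpleGraph V}

theorem enum (P : Finset ℕ) : ∃ e : ℕ → ℕ, (∀ i < P.card, e i ∈ P) ∧
    ∀ i < P.card, ∀ j < P.card, e i = e j → i = j := by
  classical
  refine ⟨fun i => if h : i < P.card then P.orderEmbOfFin rfl ⟨i, h⟩ else 0, ?_, ?_⟩
  · intro i hi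
    simp only [hi, dif_pos]
    exact Finset.orderEmbOfFin_mem P rfl _
  · intro i hi j hj hij
    simp only [hi, hj, dif_pos] at hij
    have := (P.orderEmbOfFin rfl).injective hij
    exact Fin.mk.inj_iff.mp this

theorem spl_mono {D : Set V} {v : ℕ → V} {P P' : Finset ℕ} {M : ℕ} (h : Spl G D v P M)
    (hP : P' ⊆ P) : Spl G D v P' M := by
  obtain ⟨I, h1, h2⟩ := h
  exact ⟨I, fun i hi => ⟨(h1 i hi).1, (h1 i hi).2.1, fun c hc => (h1 i hi).2.2 c (hP hc)⟩, h2⟩

theorem star_mono {D : Set V} {v : ℕ → V} {P P' : Finset ℕ} (h : Star G D v P)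
    (hP : P' ⊆ P) : Star G D v P' := by
  obtain ⟨x, W, h1, h2, h3, h4⟩ := h
  exact ⟨x, W, h1, h2, fun c hc => h3 c (hP hc), fun c hc c' hc' => h4 c (hP hc) c' (hP hc')⟩

theorem pth_mono {D : Set V} {v : ℕ → V} {P P' : Finset ℕ} (h : PthT G D v P)
    (hP : P' ⊆ P) : PthT G D v P' := by
  obtain ⟨l, p, lo, hi, h1, h2, h3⟩ := h
  exact ⟨l, p, lo, hi, h1, fun c hc => h2 c (hP hc), fun c hc c' hc' => h3 c (hP hc) c' (hP hc')⟩

theorem indV_mono {v : ℕ → V} {P P' : Finset ℕ} (h : IndV G v P) (hP : P' ⊆ P) :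
    IndV G v P' :=
  ⟨fun c hc c' hc' => h.1 c (hP hc) c' (hP hc'), fun c hc c' hc' => h.2 c (hP hc) c' (hP hc')⟩

theorem tau_mono {P P' : Finset ℕ} {B : ℕ → Set V} {D : Set V} (hP : P' ⊆ P) :
    (tau G P' B D).card ≤ (tau G P B D).card := by
  refine Finset.card_le_card fun i hi => ?_
  obtain ⟨h1, h2⟩ := mem_tau.mp hi
  exact mem_tau.mpr ⟨hP h1, h2⟩

theorem rows (h2 : S_U2) (n M q : ℕ) : ∀ k : ℕ, ∃ p : ℕ, ∀ (V : Type) [Finite V]
    (G : SimpleGraph V) (D : ℕ → Set V) (v : ℕ → V) (P : Finset ℕ),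
    (∀ j < k, Conn G (D j) ∧ ∀ c ∈ P, Tch G (D j) {v c}) →
    (∀ j < k, ∀ x ∈ D j, (tau G P (fun c => {v c}) {x}).card ≤ n) → p ≤ P.card →
    ∃ P' ⊆ P, P'.card = q ∧
      ∀ j < k, Spl G (D j) v P' M ∨ Star G (D j) v P' ∨ PthT G (D j) v P' := by
  intro k
  induction k with
  | zero =>
    refine ⟨q, fun V _ G D v P _ _ hP => ?_⟩
    obtain ⟨P', hP', hc⟩ := Finset.exists_subset_card_eq hP
    exact ⟨P', hP', hc, fun j hj => absurd hj (Nat.not_lt_zero j)⟩
  | succ k ih =>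
    obtain ⟨p₁, ih⟩ := ih
    obtain ⟨p, hp⟩ := h2 n M p₁
    refine ⟨p, fun V _ G D v P hD htau hP => ?_⟩
    obtain ⟨P₁, hP₁, hc₁, ht₁⟩ := hp V G (D k) v P (hD k (Nat.lt_succ_self k)).1
      (hD k (Nat.lt_succ_self k)).2 (htau k (Nat.lt_succ_self k)) hP
    obtain ⟨P', hP', hc', ht'⟩ := ih V G D v P₁
      (fun j hj => ⟨(hD j (by omega)).1, fun c hc => (hD j (by omega)).2 c (hP₁ hc)⟩)
      (fun j hj x hx => (tau_mono hP₁).trans (htau j (by omega) x hx)) hc₁.ge
    refine ⟨P', hP'.trans hP₁, hc', fun j hj => ?_⟩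
    rcases Nat.lt_succ_iff_lt_or_eq.mp hj with hj | rfl
    · exact ht' j hj
    · rcases ht₁ with h | h | h
      · exact Or.inl (spl_mono h hP')
      · exact Or.inr (Or.inl (star_mono h hP'))
      · exact Or.inr (Or.inr (pth_mono h hP'))

end U6Aux

open U6Aux in
theorem u6 : (S_U2) → (S_U3) → (S_U4) → (S_U5) → S_U6 := by
  intro hU2 hU3 hU4 hU5 N m n r l
  obtain ⟨p3, h3⟩ := hU3 N m n
  obtain ⟨p5, h5⟩ := hU5 N m r l
  set q := max p3 (max p5 (N + 3 * m)) with hq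
  set a := (N + 2 * m) + N + 1 with ha
  obtain ⟨p, hp⟩ := rows hU2 n (3 * m + N) q a
  refine ⟨a, p, fun V _ G D v P hDD hTC hInd hD hdisj hP => ?_⟩
  by_contra hcon
  push Not at hcon
  obtain ⟨P', hP', hc', ht'⟩ := hp V G D v P
    (fun j hj => ⟨(hD j hj).1, fun c hc => ((hD j hj).2 c hc).2⟩) hcon hP
  have hq3 : p3 ≤ P'.card := by rw [hc']; exact le_max_left _ _
  have hq5 : p5 ≤ P'.card := by rw [hc']; exact (le_max_left _ _).trans (le_max_right _ _)
  have hqN : N + 3 * m ≤ P'.card := by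
    rw [hc']; exact (le_max_right _ _).trans (le_max_right _ _)
  have hInd' := indV_mono hInd hP'
  have hv : ∀ j < a, ∀ c ∈ P', v c ∉ D j := fun j hj c hc => ((hD j hj).2 c (hP' hc)).1
  have hno : ∀ j < a, ¬ Spl G (D j) v P' (3 * m + N) := fun j hj h =>
    hDD (h3 V G (D j) v P' hInd' (hv j hj)
      (fun x hx => (tau_mono hP').trans (hcon j hj x hx)) hq3 h)
  classical
  set S := (Finset.range a).filter fun j => Star G (D j) v P' with hS
  set T := (Finset.range a).filter fun j => PthT G (D j) v P' with hT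
  have hST : Finset.range a ⊆ S ∪ T := by
    intro j hj
    rcases ht' j (Finset.mem_range.mp hj) with h | h | h
    · exact absurd h (hno j (Finset.mem_range.mp hj))
    · exact Finset.mem_union_left _ (Finset.mem_filter.mpr ⟨hj, h⟩)
    · exact Finset.mem_union_right _ (Finset.mem_filter.mpr ⟨hj, h⟩)
  have hcard : a ≤ S.card + T.card := by
    have h1 := Finset.card_le_card hST
    rw [Finset.card_range] at h1
    exact h1.trans (Finset.card_union_le S T)
  by_cases hSc : N + 2 * m ≤ S.card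
  · obtain ⟨e, heS, heinj⟩ := enum S
    have hea : ∀ j < N + 2 * m, e j < a ∧ Star G (D (e j)) v P' := fun j hj => by
      have h1 := Finset.mem_filter.mp (heS j (lt_of_lt_of_le hj hSc))
      exact ⟨Finset.mem_range.mp h1.1, h1.2⟩
    refine hDD (hU4 N m V G (fun j => D (e j)) v P' hInd' (fun j hj c hc => hv _ (hea j hj).1 c hc)
      (fun i hi j hj hij => hdisj _ (hea i hi).1 _ (hea j hj).1 fun h => hij
        (heinj i (lt_of_lt_of_le hi hSc) j (lt_of_lt_of_le hj hSc) h)) hqN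
      (fun j hj => (hea j hj).2))
  · have hTc : N ≤ T.card := by omega
    obtain ⟨e, heT, heinj⟩ := enum T
    have hea : ∀ j < N, e j < a ∧ PthT G (D (e j)) v P' := fun j hj => by
      have h1 := Finset.mem_filter.mp (heT j (lt_of_lt_of_le hj hTc))
      exact ⟨Finset.mem_range.mp h1.1, h1.2⟩
    refine hTC (h5 V G (fun j => D (e j)) v P' hInd' (fun j hj c hc => hv _ (hea j hj).1 c hc)
      (fun i hi j hj hij => hdisj _ (hea i hi).1 _ (hea j hj).1 fun h => hij
        (heinj i (lt_of_lt_of_le hi hTc) j (lt_of_lt_of_le hj hTc) h)) hq5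
      (fun j hj => (hea j hj).2))

end Pool.Agent.MPd439b2.KS
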