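import Pool.Agent.Lib.MP_d439b2_co.KS.SpecU

/-!
# MP_d439b2_co, U8: vertices touching many common sets
-/

set_option autoImplicit false

namespace Pool.Agent.MPd439b2.KS

namespace U8Aux

theorem mdl_mono {V : Type} {G : SimpleGraph V} {I J : Finset ℕ} {B : ℕ → Set V}
    (h : Mdl G I B) (hJ : J ⊆ I) : Mdl G J B :=
  ⟨fun i hi => h.1 i (hJ hi), fun i hi j hj hij => h.2 i (hJ hi) j (hJ hj) hij⟩

theorem aux (h7 : S_U7) (N m : ℕ) : ∀ g L : ℕ, ∃ t₀ : ℕ, ∀ (V : Type) [Finite V] [Nonempty V]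
    (G : SimpleGraph V) (I : Finset ℕ) (B : ℕ → Set V), ¬ IMS (DD N m) G Set.univ → Mdl G I B →
    t₀ ≤ I.card → ∃ (v : ℕ → V) (T J : Finset ℕ), T ⊆ I ∧ J ⊆ I ∧ Disjoint T J ∧ L ≤ J.card ∧
      (∀ i ∈ T, v i ∈ B i ∧ ∀ j ∈ J, Tch G {v i} (B j)) ∧ T.card = g := by
  intro g
  induction g with
  | zero =>
    intro L
    refine ⟨L, fun V _ _ G I B _ _ hI => ?_⟩
    exact ⟨fun _ => Classical.arbitrary V, ∅, I, Finset.empty_subset _, Finset.Subset.refl _,
      Finset.disjoint_empty_left _, hI, fun i hi => absurd hi (Finset.notMem_empty i), rfl⟩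
  | succ g ih =>
    intro L
    obtain ⟨n₁, t₁, h⟩ := h7 N m L
    obtain ⟨t₀, ht⟩ := ih (max t₁ n₁ + 1)
    refine ⟨t₀, fun V _ _ G I B hD hM hI => ?_⟩
    obtain ⟨v, T, J, hT, hJ, hTJ, hJc, hv, hTc⟩ := ht V G I B hD hM hI
    have hMJ := mdl_mono hM hJ
    have h1 : t₁ ≤ J.card := by
      have := le_max_left t₁ n₁
      omega
    have h2 : n₁ ≤ J.card := by
      have := le_max_right t₁ n₁
      omega
    obtain ⟨Bad, hBad, hgood⟩ := h V G J B hD hMJ h1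
    obtain ⟨i, hiJ, hiB⟩ := Finset.exists_mem_notMem_of_card_lt_card (lt_of_lt_of_le hBad h2)
    obtain ⟨w, hw, hwc⟩ := hgood i hiJ hiB
    have hiT : i ∉ T := fun hi => Finset.disjoint_left.mp hTJ hi hiJ
    have hsub : tau G (J \ {i}) B {w} ⊆ J := by
      intro j hj
      exact (Finset.mem_sdiff.mp (mem_tau.mp hj).1).1
    refine ⟨Function.update v i w, insert i T, tau G (J \ {i}) B {w}, ?_, hsub.trans hJ, ?_,
      hwc.le, ?_, ?_⟩
    · exact Finset.insert_subset (hJ hiJ) hT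
    · rw [Finset.disjoint_insert_left]
      refine ⟨?_, Finset.disjoint_of_subset_right hsub hTJ⟩
      intro hi
      exact (Finset.mem_sdiff.mp (mem_tau.mp hi).1).2 (Finset.mem_singleton_self i)
    · intro j hj
      rcases Finset.mem_insert.mp hj with rfl | hj
      · rw [Function.update_self]
        exact ⟨hw, fun k hk => (mem_tau.mp hk).2⟩
      · have hne : j ≠ i := fun h => hiT (h ▸ hj)
        rw [Function.update_of_ne hne]
        exact ⟨(hv j hj).1, fun k hk => (hv j hj).2 k (hsub hk)⟩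
    · rw [Finset.card_insert_of_notMem hiT, hTc]

end U8Aux

open U8Aux in
theorem u8 : (S_U7) → (S_Ram) → S_U8 := by
  intro h7 hR N m n p L
  obtain ⟨g, hg⟩ := hR n p
  obtain ⟨t₀, ht⟩ := aux h7 N m g L
  refine ⟨t₀, fun V _ _ G I B hD hM hI => ?_⟩
  obtain ⟨v, T, J, hT, hJ, hTJ, hJc, hv, hTc⟩ := ht V G I B hD hM hI
  rcases hg ℕ T (fun i j => G.Adj (v i) (v j)) (fun _ _ h => h.symm) hTc.ge with
    ⟨T', hT', hc, hadj⟩ | ⟨T', hT', hc, hadj⟩
  · exact ⟨v, T', J, hT'.trans hT, hJ, Finset.disjoint_of_subset_left hT' hTJ, hJc,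
      fun i hi => hv i (hT' hi), Or.inl ⟨hc, hadj⟩⟩
  · exact ⟨v, T', J, hT'.trans hT, hJ, Finset.disjoint_of_subset_left hT' hTJ, hJc,
      fun i hi => hv i (hT' hi), Or.inr ⟨hc, hadj⟩⟩

end Pool.Agent.MPd439b2.KS
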