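import Pool.Agent.Lib.MP_d439b2_co.KS.SpecV

/-!
# MP_d439b2_co, KS, V1: light sets are cut off
-/

set_option autoImplicit false

namespace Pool.Agent.MPd439b2.KS

theorem v1 : S_V1 := by
  intro V G Q X c h
  unfold Hv at h
  push Not at h
  obtain ⟨F, hFc, hFX, hF⟩ := h
  refine ⟨F, {v | ∃ C, Conn G C ∧ Disjoint C F ∧ (C ∩ X).Nonempty ∧ v ∈ C}, hFc, ?_, ?_, ?_, ?_⟩
  · rw [Set.disjoint_left]
    rintro v hvF ⟨C, -, hCF, -, hvC⟩
    exact Set.disjoint_left.1 hCF hvC hvF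
  · intro x hx
    refine ⟨{x}, Conn.singleton G x, ?_, ⟨x, rfl, hx⟩, rfl⟩
    rw [Set.disjoint_singleton_left]
    exact fun hxF => Set.disjoint_left.1 hFX hxF hx
  · rw [Set.disjoint_left]
    rintro v ⟨C, hC, hCF, hCX, hvC⟩ hvQ
    have h1 := hF C hC hCF hCX
    rw [← Set.not_nonempty_iff_eq_empty] at h1
    exact h1 ⟨v, hvC, hvQ⟩
  · rintro v ⟨hv, a, ⟨C, hC, hCF, hCX, haC⟩, hav⟩
    by_contra hvF
    apply hv
    refine ⟨insert v C, hC.insert ⟨a, haC, hav⟩, ?_, ?_, Set.mem_insert _ _⟩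
    · rw [Set.disjoint_insert_left]
      exact ⟨hvF, hCF⟩
    · exact hCX.mono (Set.inter_subset_inter_left _ (Set.subset_insert v C))

end Pool.Agent.MPd439b2.KS
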