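import Pool.Agent.Lib.MP_d439b2_co.KS.SpecV

/-!
# V10: the heavy vertices are dominated by a bounded set
-/

set_option autoImplicit false

namespace Pool.Agent.MPd439b2.KS

namespace v10Aux

theorem key {V : Type} [Finite V] (G : SimpleGraph V) (Q₁ Q₂ : Set V) (d h c p₀ : ℕ) (hd : 1 ≤ d)
    (VV : Finset V) (hVV : ∀ v ∈ VV, v ∉ Q₁ ∪ Q₂ ∧ Hv G (Q₁ ∪ Q₂) c {v})
    (hRam : ∀ (S : Finset V) (E : V → V → Prop), (∀ x y, E x y → E y x) → p₀ ≤ S.card →
      (∃ T ⊆ S, T.card = d ∧ ∀ x ∈ T, ∀ y ∈ T, x ≠ y → E x y) ∨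
      ∃ T ⊆ S, T.card = h ∧ ∀ x ∈ T, ∀ y ∈ T, x ≠ y → ¬ E x y)
    (hV8 : ∀ (v : ℕ → V) (P : Finset ℕ), IndV G v P → P.card = h →
      (∀ b ∈ P, v b ∉ Q₁ ∪ Q₂ ∧ Hv G (Q₁ ∪ Q₂) c {v b}) →
      ∃ x, d < (tau G P (fun c => {v c}) {x}).card)
    (s : Fin (d * p₀ + d) → V) (hs : ∀ i, s i ∈ VV) :
    ∃ I : Finset (Fin (d * p₀ + d)), I.card = d ∧ ∃ x, ∀ i ∈ I, Rn G x (s i) := by
  classical
  by_cases hx : ∃ x, d ≤ (Finset.univ.filter (fun i => s i = x)).card
  · obtain ⟨x, hx⟩ := hx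
    obtain ⟨I, hI, hIc⟩ := Finset.exists_subset_card_eq hx
    refine ⟨I, hIc, x, ?_⟩
    intro i hi
    have := (Finset.mem_filter.mp (hI hi)).2
    exact Or.inl this.symm
  push Not at hx
  set T : Finset V := Finset.univ.image s with hT
  have hTc : p₀ ≤ T.card := by
    have h1 := Finset.card_le_mul_card_image (f := s)
      (Finset.univ : Finset (Fin (d * p₀ + d))) d (fun a _ => (hx a).le)
    rw [Finset.card_univ, Fintype.card_fin, ← hT] at h1
    by_contra hcon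
    push Not at hcon
    have h2 : d * (T.card + 1) ≤ d * p₀ := Nat.mul_le_mul_left d hcon
    rw [Nat.mul_succ] at h2
    omega
  have hg : ∀ t ∈ T, ∃ i, s i = t := by
    intro t ht
    rw [hT, Finset.mem_image] at ht
    obtain ⟨i, _, hi⟩ := ht
    exact ⟨i, hi⟩
  have : Nonempty (Fin (d * p₀ + d)) := ⟨⟨0, by omega⟩⟩
  choose! g hg using hg
  have hTV : ∀ t ∈ T, t ∈ VV := fun t ht => by
    rw [← hg t ht]
    exact hs _
  rcases hRam T G.Adj (fun x y h => h.symm) hTc with ⟨T', hT', hT'c, hadj⟩ | ⟨T', hT', hT'c, hnadj⟩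
  · have hne : T'.Nonempty := by
      rw [← Finset.card_pos]
      omega
    obtain ⟨x, hx'⟩ := hne
    have hinj : Set.InjOn g (T' : Set V) := by
      intro a ha b hb hab
      rw [← hg a (hT' ha), ← hg b (hT' hb), hab]
    refine ⟨T'.image g, by rw [Finset.card_image_of_injOn hinj, hT'c], x, ?_⟩
    intro i hi
    rw [Finset.mem_image] at hi
    obtain ⟨t, ht, rfl⟩ := hi
    rw [hg t (hT' ht)]
    by_cases hxt : x = t
    · exact Or.inl hxt
    · exact Or.inr (hadj x hx' t ht hxt)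
  · have hcard : Fintype.card T' = h := by rw [Fintype.card_coe, hT'c]
    let e : T' ≃ Fin h := Fintype.equivFinOfCardEq hcard
    have hV : Nonempty V := by
      have h1 : 0 < d * p₀ + d := by omega
      exact ⟨s ⟨0, h1⟩⟩
    let v : ℕ → V := fun n => if hn : n < h then ((e.symm ⟨n, hn⟩ : T') : V) else hV.some
    have hv : ∀ n (hn : n < h), v n = ((e.symm ⟨n, hn⟩ : T') : V) := fun n hn => dif_pos hn
    have hvT : ∀ n, n < h → v n ∈ T' := by
      intro n hn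
      rw [hv n hn]
      exact (e.symm ⟨n, hn⟩).2
    have hvinj : ∀ a ∈ Finset.range h, ∀ b ∈ Finset.range h, v a = v b → a = b := by
      intro a ha b hb hab
      rw [Finset.mem_range] at ha hb
      rw [hv a ha, hv b hb] at hab
      have h1 := e.symm.injective (Subtype.ext hab)
      exact congrArg Fin.val h1
    have hInd : IndV G v (Finset.range h) := by
      refine ⟨hvinj, ?_⟩
      intro a ha b hb hadj
      have hne : v a ≠ v b := hadj.ne
      rw [Finset.mem_range] at ha hb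
      exact hnadj (v a) (hvT a ha) (v b) (hvT b hb) hne hadj
    obtain ⟨x, hx'⟩ := hV8 v (Finset.range h) hInd (Finset.card_range h) (by
      intro b hb
      rw [Finset.mem_range] at hb
      exact hVV _ (hTV _ (hT' (hvT b hb))))
    set τ := tau G (Finset.range h) (fun c => {v c}) {x} with hτ
    have hτm : ∀ b ∈ τ, b < h ∧ G.Adj x (v b) := by
      intro b hb
      rw [hτ, mem_tau, Finset.mem_range] at hb
      obtain ⟨hb1, a, ha, b', hb', hab⟩ := hb
      rw [Set.mem_singleton_iff] at ha hb'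
      subst ha hb'
      exact ⟨hb1, hab⟩
    have hinj : Set.InjOn (fun b => g (v b)) (τ : Set ℕ) := by
      intro a ha b hb hab
      obtain ⟨ha1, _⟩ := hτm a ha
      obtain ⟨hb1, _⟩ := hτm b hb
      simp only at hab
      have h1 : v a = v b := by
        rw [← hg (v a) (hT' (hvT a ha1)), ← hg (v b) (hT' (hvT b hb1)), hab]
      exact hvinj a (Finset.mem_range.mpr ha1) b (Finset.mem_range.mpr hb1) h1
    have hcI : d ≤ (τ.image (fun b => g (v b))).card := by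
      rw [Finset.card_image_of_injOn hinj]
      exact hx'.le
    obtain ⟨I, hI, hIc⟩ := Finset.exists_subset_card_eq hcI
    refine ⟨I, hIc, x, ?_⟩
    intro i hi
    have h1 := hI hi
    rw [Finset.mem_image] at h1
    obtain ⟨b, hb, rfl⟩ := h1
    obtain ⟨hb1, hb2⟩ := hτm b hb
    rw [hg (v b) (hT' (hvT b hb1))]
    exact Or.inr hb2

end v10Aux

theorem v10 : S_P7 → S_V8 → S_V9 → S_Ram → S_V10 := by
  intro hP7 hV8 hV9 hRam N m r l W _ Y hY
  classical
  obtain ⟨d₀, hd₀⟩ := hV9 N m W Y hY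
  obtain ⟨h, c, n₁, hh⟩ := hV8 N m (d₀ + 1) r l
  obtain ⟨p₀, hp₀⟩ := hRam (d₀ + 1) h
  obtain ⟨f₀, hf₀⟩ := hP7 (d₀ + 1) ((d₀ + 1) * p₀ + (d₀ + 1)) (Nat.le_add_left _ _)
  refine ⟨c, f₀ + 2, max n₁ 1, ?_⟩
  intro V _ G Q₁ Q₂ hDD hTC hYn hBip
  have hBip' := hBip
  obtain ⟨hdisj, hn1, hn2, hadj⟩ := hBip'
  have hq1 : Q₁.Nonempty := by
    rw [← Set.ncard_pos]
    have := le_max_right n₁ 1
    omega
  have hq2 : Q₂.Nonempty := by
    rw [← Set.ncard_pos]
    have := le_max_right n₁ 1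
    omega
  obtain ⟨q₁, hq₁⟩ := hq1
  obtain ⟨q₂, hq₂⟩ := hq2
  have hBip1 : Bip G Q₁ Q₂ n₁ :=
    ⟨hdisj, (le_max_left n₁ 1).trans hn1, (le_max_left n₁ 1).trans hn2, hadj⟩
  have : Nonempty V := ⟨q₁⟩
  have : Fintype V := Fintype.ofFinite V
  set VV : Finset V := Finset.univ.filter (fun v => v ∉ Q₁ ∪ Q₂ ∧ Hv G (Q₁ ∪ Q₂) c {v}) with hVV
  obtain ⟨X₀, hX₀, hX₀d⟩ := hf₀ V (Rn G) VV (by
    rintro x y (h1 | h1)
    · exact Or.inl h1.symm
    · exact Or.inr h1.symm) (by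
    intro U hU hSh
    obtain ⟨U', hU', hU'c⟩ := Finset.exists_subset_card_eq (s := U) (n := d₀) (by omega)
    refine hd₀ V G hDD hYn U' hU'c ?_
    intro S hS
    obtain ⟨x, hx⟩ := hSh S (hS.trans hU')
    exact ⟨x, fun u hu => hx u (hU' hu)⟩) (by
    intro s hs
    exact v10Aux.key G Q₁ Q₂ (d₀ + 1) h c p₀ (by omega) VV (by
      intro v hv
      rw [hVV, Finset.mem_filter] at hv
      exact hv.2) (fun S E => hp₀ V S E)
      (fun v P h1 h2 h3 => hh V G Q₁ Q₂ v P hDD hTC hBip1 h1 h2 h3) s hs)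
  refine ⟨(X₀ : Set V) ∪ {q₁, q₂}, ?_, ?_⟩
  · refine (Set.ncard_union_le _ _).trans ?_
    rw [Set.ncard_coe_finset]
    have h1 : ({q₁, q₂} : Set V).ncard ≤ 2 := (Set.ncard_insert_le _ _).trans (by
      rw [Set.ncard_singleton])
    omega
  · intro v hv
    by_cases hvQ : v ∈ Q₁ ∪ Q₂
    · rcases hvQ with hv1 | hv2
      · exact ⟨q₂, Or.inr (Or.inr rfl), Or.inr (hadj v hv1 q₂ hq₂).symm⟩
      · exact ⟨q₁, Or.inr (Or.inl rfl), Or.inr (hadj q₁ hq₁ v hv2)⟩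
    · obtain ⟨x, hx, hxv⟩ := hX₀d v (by
        rw [hVV, Finset.mem_filter]
        exact ⟨Finset.mem_univ _, hvQ, hv⟩)
      exact ⟨x, Or.inl hx, hxv⟩

end Pool.Agent.MPd439b2.KS
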