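import Pool.Agent.Lib.MP_d439b2_co.KS.SpecV
import Pool.Agent.Lib.MP_d439b2_co.GT.Men

/-!
# MP_d439b2_co, Theorem K, V2: Menger's theorem with sources and a forbidden set
-/

set_option autoImplicit false

namespace Pool.Agent.MPd439b2.KS

namespace v2Aux

/-- the auxiliary graph -/
def aux {V : Type} (G : SimpleGraph V) (Z : Set V) (r : ℕ) (N : ℕ → Set V) :
    SimpleGraph (V ⊕ Fin r) where
  Adj
    | Sum.inl u, Sum.inl v => G.Adj u v ∧ u ∉ Z ∧ v ∉ Z
    | Sum.inl u, Sum.inr i => u ∈ N i.val ∧ u ∉ Z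
    | Sum.inr i, Sum.inl u => u ∈ N i.val ∧ u ∉ Z
    | Sum.inr _, Sum.inr _ => False
  symm := ⟨fun u v h => by
    rcases u with u | u <;> rcases v with v | v
    · exact ⟨h.1.symm, h.2.2, h.2.1⟩
    · exact h
    · exact h
    · exact h⟩
  loopless := ⟨fun u h => by
    rcases u with u | u
    · exact G.loopless.irrefl u h.1
    · exact h⟩

theorem aux_notMem {V : Type} {G : SimpleGraph V} {Z : Set V} {r : ℕ} {N : ℕ → Set V}
    {x : V ⊕ Fin r} {v : V} (h : (aux G Z r N).Adj x (Sum.inl v)) : v ∉ Z := by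
  rcases x with u | u
  · exact h.2.2
  · exact h.2

theorem conn_path {V : Type} {G : SimpleGraph V} (f : ℕ → V) :
    ∀ m, 1 ≤ m → (∀ s, 1 ≤ s → s < m → G.Adj (f s) (f (s + 1))) →
      Conn G {v | ∃ s, 1 ≤ s ∧ s ≤ m ∧ f s = v} := by
  intro m hm
  induction m, hm using Nat.le_induction with
  | base =>
    intro _
    have h0 : {v | ∃ s, 1 ≤ s ∧ s ≤ 1 ∧ f s = v} = ({f 1} : Set V) := by
      ext v
      constructor
      · rintro ⟨s, h1, h2, h3⟩
        have : s = 1 := le_antisymm h2 h1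
        subst this
        exact h3.symm
      · intro h
        exact ⟨1, le_rfl, le_rfl, h.symm⟩
    rw [h0]
    exact Conn.singleton G _
  | succ m hm ih =>
    intro h
    have h1 := ih (fun s hs hsm => h s hs (by omega))
    have h2 := h1.insert (v := f (m + 1)) ⟨f m, ⟨m, hm, le_rfl, rfl⟩, h m hm (by omega)⟩
    have h0 : {v | ∃ s, 1 ≤ s ∧ s ≤ m + 1 ∧ f s = v} =
        insert (f (m + 1)) {v | ∃ s, 1 ≤ s ∧ s ≤ m ∧ f s = v} := by
      ext v
      constructor
      · rintro ⟨s, h3, h4, h5⟩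
        rcases Nat.lt_or_ge s (m + 1) with h6 | h6
        · exact Or.inr ⟨s, h3, by omega, h5⟩
        · have : s = m + 1 := le_antisymm h4 h6
          subst this
          exact Or.inl h5.symm
      · rintro (h3 | ⟨s, h3, h4, h5⟩)
        · exact ⟨m + 1, by omega, le_rfl, h3.symm⟩
        · exact ⟨s, h3, by omega, h5⟩
    rw [h0]
    exact h2

end v2Aux

open v2Aux in
/-- **V2.** Menger's theorem with sources and a forbidden set. -/
theorem v2 : S_V2 := by
  classical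
  intro V _ G Q Z r N hN
  have := Fintype.ofFinite V
  set A : Finset (V ⊕ Fin r) := Finset.univ.image (fun i : Fin r => (Sum.inr i : V ⊕ Fin r)) with hA
  set B : Finset (V ⊕ Fin r) := (Finset.univ.filter (fun v : V => v ∈ Q ∧ v ∉ Z)).image
    (fun v => (Sum.inl v : V ⊕ Fin r)) with hB
  have hmA : ∀ i : Fin r, (Sum.inr i : V ⊕ Fin r) ∈ A := by
    intro i
    rw [hA]
    exact Finset.mem_image_of_mem _ (Finset.mem_univ i)
  have hmA' : ∀ x, x ∈ A → ∃ i : Fin r, x = Sum.inr i := by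
    intro x hx
    rw [hA] at hx
    obtain ⟨i, -, rfl⟩ := Finset.mem_image.1 hx
    exact ⟨i, rfl⟩
  have hmB : ∀ v : V, (Sum.inl v : V ⊕ Fin r) ∈ B ↔ v ∈ Q ∧ v ∉ Z := by
    intro v
    rw [hB, Finset.mem_image]
    constructor
    · rintro ⟨w, hw, h⟩
      rw [← Sum.inl.inj h]
      exact (Finset.mem_filter.1 hw).2
    · intro h
      exact ⟨v, Finset.mem_filter.2 ⟨Finset.mem_univ _, h⟩, rfl⟩
  have hmB' : ∀ x, x ∈ B → ∃ v : V, x = Sum.inl v := by
    intro x hx
    rw [hB] at hx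
    obtain ⟨v, -, rfl⟩ := Finset.mem_image.1 hx
    exact ⟨v, rfl⟩
  obtain ⟨n, p, hp⟩ := GT.pMen (V ⊕ Fin r) (aux G Z r N) A B r (by
    intro L X hc
    by_contra hlt
    rw [not_le] at hlt
    -- an index outside the separator
    set J : Finset ℕ := (Finset.univ.filter (fun i : Fin r => (Sum.inr i : V ⊕ Fin r) ∈ X)).image
      Fin.val with hJ
    set XV : Finset V := Finset.univ.filter (fun v : V => (Sum.inl v : V ⊕ Fin r) ∈ X) with hXVdef
    have hcard : XV.card + J.card ≤ X.card := by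
      have h2 : J.card = (Finset.univ.filter (fun i : Fin r => (Sum.inr i : V ⊕ Fin r) ∈ X)).card := by
        rw [hJ, Finset.card_image_of_injective _ Fin.val_injective]
      have h3 : (XV.image (fun v => (Sum.inl v : V ⊕ Fin r))).card = XV.card :=
        Finset.card_image_of_injective _ Sum.inl_injective
      have h4 : ((Finset.univ.filter (fun i : Fin r => (Sum.inr i : V ⊕ Fin r) ∈ X)).image
          (fun i => (Sum.inr i : V ⊕ Fin r))).card =
          (Finset.univ.filter (fun i : Fin r => (Sum.inr i : V ⊕ Fin r) ∈ X)).card :=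
        Finset.card_image_of_injective _ Sum.inr_injective
      rw [h2, ← h3, ← h4, ← Finset.card_union_of_disjoint]
      · apply Finset.card_le_card
        intro x hx
        rcases Finset.mem_union.1 hx with hx | hx
        · obtain ⟨v, hv, rfl⟩ := Finset.mem_image.1 hx
          exact (Finset.mem_filter.1 hv).2
        · obtain ⟨v, hv, rfl⟩ := Finset.mem_image.1 hx
          exact (Finset.mem_filter.1 hv).2
      · rw [Finset.disjoint_left]
        intro x hx hx'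
        obtain ⟨v, -, rfl⟩ := Finset.mem_image.1 hx
        obtain ⟨w, -, hw⟩ := Finset.mem_image.1 hx'
        exact absurd hw (by simp)
    have hXVe : ({v : V | (Sum.inl v : V ⊕ Fin r) ∈ X} : Set V) = (XV : Set V) := by
      ext v
      simp [hXVdef]
    obtain ⟨i₀, hi₀, hiJ, C, hC, hCd, ⟨c, hcC, hcN⟩, ⟨q, hqC, hqQ⟩⟩ :=
      hN {v : V | (Sum.inl v : V ⊕ Fin r) ∈ X} J (by
        rw [hXVe, Set.ncard_coe_finset]
        omega)
    set i : Fin r := ⟨i₀, hi₀⟩ with hidef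
    have hiX : (Sum.inr i : V ⊕ Fin r) ∉ X := by
      intro h
      apply hiJ
      rw [hJ]
      exact Finset.mem_image.2 ⟨i, Finset.mem_filter.2 ⟨Finset.mem_univ _, h⟩, rfl⟩
    have hCX : ∀ v ∈ C, (Sum.inl v : V ⊕ Fin r) ∉ X := fun v hv h =>
      Set.disjoint_left.1 hCd hv (Or.inl h)
    have hCZ : ∀ v ∈ C, v ∉ Z := fun v hv h => Set.disjoint_left.1 hCd hv (Or.inr h)
    have hiL : (Sum.inr i : V ⊕ Fin r) ∈ L :=
      (Finset.mem_union.1 (hc.head (hmA i))).resolve_right hiX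
    have hcL : (Sum.inl c : V ⊕ Fin r) ∈ L := by
      have h2 := hc.far _ hiL (Sum.inl c) ⟨hcN, hCZ c hcC⟩
      exact (Finset.mem_union.1 h2).resolve_right (hCX c hcC)
    have hD : C ∩ {v | (Sum.inl v : V ⊕ Fin r) ∈ L} = C := by
      apply hC.eq_of_nb Set.inter_subset_left ⟨c, hcC, hcL⟩
      rintro v hvC ⟨hvD, a, ⟨haC, haL⟩, hav⟩
      apply hvD
      refine ⟨hvC, ?_⟩
      have h2 := hc.far (Sum.inl a) haL (Sum.inl v) ⟨hav, hCZ a haC, hCZ v hvC⟩
      exact (Finset.mem_union.1 h2).resolve_right (hCX v hvC)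
    have hqL : q ∈ C ∩ {v | (Sum.inl v : V ⊕ Fin r) ∈ L} := by
      rw [hD]
      exact hqC
    exact Finset.disjoint_left.1 hc.last ((hmB q).2 ⟨hqQ, hCZ q hqC⟩) hqL.2)
  -- the heads
  have hhead : ∀ k : Fin r, ∃ i : Fin r, p k 0 = Sum.inr i := fun k => hmA' _ (hp.pth k).head
  choose σ hσ using hhead
  have hσi : Function.Injective σ := by
    intro k k' hkk
    by_contra hne
    apply hp.dis k k' hne 0 (Nat.zero_le _) 0 (Nat.zero_le _)
    rw [hσ, hσ, hkk]
  have hσs : Function.Surjective σ := Finite.surjective_of_injective hσi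
  choose τ hτ using hσs
  -- the other vertices
  have hinl : ∀ k : Fin r, ∀ s, ∃ v : V, (1 ≤ s → s ≤ n k → p k s = Sum.inl v) := by
    intro k s
    rcases h : p k s with v | j
    · exact ⟨v, fun _ _ => rfl⟩
    · obtain ⟨v, hv⟩ := hmB' _ (hp.pth k).last
      refine ⟨v, fun h1 h2 => ?_⟩
      exfalso
      have h3 : p (τ j) 0 = Sum.inr j := by rw [hσ, hτ]
      by_cases hk : k = τ j
      · subst hk
        have := (hp.pth (τ j)).inj s h2 0 (Nat.zero_le _) (by rw [h, h3])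
        omega
      · exact hp.dis k (τ j) hk s h2 0 (Nat.zero_le _) (by rw [h, h3])
  choose f hf using hinl
  have hn1 : ∀ k, 1 ≤ n k := by
    intro k
    by_contra hcon
    have h0 : n k = 0 := by omega
    obtain ⟨v, hv⟩ := hmB' _ (hp.pth k).last
    rw [h0, hσ] at hv
    exact absurd hv (by simp)
  -- the first vertex in `Q`
  have hm : ∀ k : Fin r, ∃ m, 1 ≤ m ∧ m ≤ n k ∧ f k m ∈ Q ∧ ∀ s, 1 ≤ s → s < m → f k s ∉ Q := by
    intro k
    have hex : ∃ m, 1 ≤ m ∧ m ≤ n k ∧ f k m ∈ Q := by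
      refine ⟨n k, hn1 k, le_rfl, ?_⟩
      have h1 := (hp.pth k).last
      rw [hf k (n k) (hn1 k) le_rfl, hmB] at h1
      exact h1.1
    obtain ⟨h1, h2, h3⟩ := Nat.find_spec hex
    refine ⟨Nat.find hex, h1, h2, h3, fun s hs hs2 hsQ => ?_⟩
    exact Nat.find_min hex hs2 ⟨hs, by omega, hsQ⟩
  choose m hm1 hm2 hm3 hm4 using hm
  have hZ : ∀ k s, 1 ≤ s → s ≤ n k → f k s ∉ Z := by
    intro k s h1 h2
    have h3 := (hp.pth k).adj (s - 1) (by omega)
    have h4 : s - 1 + 1 = s := by omega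
    rw [h4, hf k s h1 h2] at h3
    exact aux_notMem h3
  have hadj : ∀ k s, 1 ≤ s → s < n k → G.Adj (f k s) (f k (s + 1)) := by
    intro k s h1 h2
    have h3 := (hp.pth k).adj s h2
    rw [hf k s h1 h2.le, hf k (s + 1) (by omega) h2] at h3
    exact h3.1
  refine ⟨fun i => if h : i < r then {v | ∃ s, 1 ≤ s ∧ s ≤ m (τ ⟨i, h⟩) ∧ f (τ ⟨i, h⟩) s = v} else ∅,
    ?_, ?_⟩
  · intro i hi
    simp only [hi, dite_true]
    refine ⟨?_, ?_, ?_, ?_⟩
    · exact conn_path _ _ (hm1 _) (fun s h1 h2 => hadj _ s h1 (lt_of_lt_of_le h2 (hm2 _)))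
    · rw [Set.disjoint_left]
      rintro v ⟨s, h1, h2, rfl⟩
      exact hZ _ s h1 (h2.trans (hm2 _))
    · refine ⟨f (τ ⟨i, hi⟩) 1, ⟨1, le_rfl, hm1 _, rfl⟩, ?_⟩
      have h3 := (hp.pth (τ ⟨i, hi⟩)).adj 0 (hn1 _)
      rw [hσ, hτ, zero_add, hf _ 1 le_rfl (hn1 _)] at h3
      exact h3.1
    · refine ⟨f (τ ⟨i, hi⟩) (m (τ ⟨i, hi⟩)), ?_⟩
      ext v
      constructor
      · rintro ⟨⟨s, h1, h2, rfl⟩, hQ⟩
        rcases Nat.lt_or_ge s (m (τ ⟨i, hi⟩)) with h3 | h3
        · exact absurd hQ (hm4 _ s h1 h3)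
        · have : s = m (τ ⟨i, hi⟩) := le_antisymm h2 h3
          rw [this]
          rfl
      · intro h
        rw [Set.mem_singleton_iff] at h
        rw [h]
        exact ⟨⟨m (τ ⟨i, hi⟩), hm1 _, le_rfl, rfl⟩, hm3 _⟩
  · intro i hi j hj hij
    simp only [hi, hj, dite_true]
    rw [Set.disjoint_left]
    rintro v ⟨s, h1, h2, rfl⟩ ⟨s', h1', h2', h3⟩
    have hne : τ ⟨i, hi⟩ ≠ τ ⟨j, hj⟩ := by
      intro h
      have := congrArg σ h
      rw [hτ, hτ] at this
      exact hij (Fin.mk.inj_iff.1 this)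
    apply hp.dis _ _ hne s (h2.trans (hm2 _)) s' (h2'.trans (hm2 _))
    rw [hf _ s h1 (h2.trans (hm2 _)), hf _ s' h1' (h2'.trans (hm2 _)), h3]

end Pool.Agent.MPd439b2.KS
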