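import Pool.Agent.Lib.MP_d439b2_co.KS.SpecV

/-!
# MP_d439b2_co, Theorem K, V3: Menger with pairwise touching sets
-/

set_option autoImplicit false

namespace Pool.Agent.MPd439b2.KS

namespace v3Aux

theorem fresh {V : Type} [Finite V] (S : Set V) (k : ℕ) (h : k ≤ S.ncard) (v0 : V) :
    ∃ a : ℕ → V, (∀ i < k, a i ∈ S) ∧ ∀ i < k, ∀ j < k, a i = a j → i = j := by
  classical
  have := Fintype.ofFinite V
  have hc : S.toFinset.card = S.ncard := (Set.ncard_eq_toFinset_card' S).symm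
  rw [← hc] at h
  let e := S.toFinset.equivFin
  refine ⟨fun i => if hi : i < S.toFinset.card then (e.symm ⟨i, hi⟩).1 else v0, ?_, ?_⟩
  · intro i hi
    have hi' : i < S.toFinset.card := lt_of_lt_of_le hi h
    simp only [hi', dite_true]
    exact Set.mem_toFinset.1 (e.symm ⟨i, hi'⟩).2
  · intro i hi j hj hij
    have hi' : i < S.toFinset.card := lt_of_lt_of_le hi h
    have hj' : j < S.toFinset.card := lt_of_lt_of_le hj h
    simp only [hi', hj', dite_true] at hij
    have h1 := e.symm.injective (Subtype.ext hij)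
    exact Fin.mk.inj_iff.1 h1

theorem fresh_avoid {V : Type} [Finite V] (S Z : Set V) (k m : ℕ) (hS : m ≤ S.ncard)
    (hZ : Z.ncard + k ≤ m) (v0 : V) :
    ∃ a : ℕ → V, (∀ i < k, a i ∈ S ∧ a i ∉ Z) ∧ ∀ i < k, ∀ j < k, a i = a j → i = j := by
  have h1 : k ≤ (S \ Z).ncard := by
    have := Set.le_ncard_sdiff Z S (Set.toFinite _)
    omega
  obtain ⟨a, ha, hb⟩ := fresh (S \ Z) k h1 v0
  exact ⟨a, fun i hi => ha i hi, hb⟩

end v3Aux

open v3Aux in
theorem v3 (hV2 : S_V2) : S_V3 := by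
  classical
  intro V _ G Q₁ Q₂ Z r M n N hB hn hyp
  by_cases hrM : r + M = 0
  · refine ⟨fun _ => ∅, ⟨?_, ?_⟩, ?_, ?_⟩
    · intro i hi
      rw [hrM] at hi
      simp at hi
    · intro i hi
      rw [hrM] at hi
      simp at hi
    · intro i hi
      omega
    · intro i hi
      omega
  obtain ⟨v0⟩ : Nonempty V := by
    have h1 : 0 < Q₁.ncard := by
      have := hB.2.1
      omega
    obtain ⟨v, -⟩ := Set.nonempty_of_ncard_ne_zero h1.ne'
    exact ⟨v⟩
  obtain ⟨L, hLy, hLd⟩ := hV2 V G (Q₁ ∪ Q₂) Z r N hyp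
  have hyex : ∀ i, ∃ y, i < r → L i ∩ (Q₁ ∪ Q₂) = {y} := by
    intro i
    by_cases hi : i < r
    · obtain ⟨y, hy⟩ := (hLy i hi).2.2.2
      exact ⟨y, fun _ => hy⟩
    · exact ⟨v0, fun h => absurd h hi⟩
  choose y hy using hyex
  have hyL : ∀ i < r, y i ∈ L i ∧ y i ∈ Q₁ ∪ Q₂ := by
    intro i hi
    have h1 : y i ∈ L i ∩ (Q₁ ∪ Q₂) := by
      rw [hy i hi]
      rfl
    exact h1
  have hyu : ∀ i < r, ∀ v ∈ L i, v ∈ Q₁ ∪ Q₂ → v = y i := by
    intro i hi v hv hvQ
    have h1 : v ∈ L i ∩ (Q₁ ∪ Q₂) := ⟨hv, hvQ⟩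
    rw [hy i hi] at h1
    exact h1
  set F : Set V := (Z ∩ (Q₁ ∪ Q₂)) ∪ (((Finset.range r).image y : Finset V) : Set V) with hF
  have hFc : F.ncard + (r + M) ≤ n := by
    have h1 := Set.ncard_union_le (Z ∩ (Q₁ ∪ Q₂)) (((Finset.range r).image y : Finset V) : Set V)
    rw [Set.ncard_coe_finset, ← hF] at h1
    have h2 : ((Finset.range r).image y).card ≤ r := by
      have := Finset.card_image_le (s := Finset.range r) (f := y)
      simpa using this
    omega
  have hyF : ∀ i < r, y i ∈ F := by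
    intro i hi
    right
    exact_mod_cast Finset.mem_image_of_mem y (Finset.mem_range.2 hi)
  obtain ⟨a, ha, hai⟩ := fresh_avoid Q₁ F (r + M) n hB.2.1 hFc v0
  obtain ⟨b, hb, hbi⟩ := fresh_avoid Q₂ F (r + M) n hB.2.2.1 hFc v0
  have haZ : ∀ i < r + M, a i ∉ Z := fun i hi h =>
    (ha i hi).2 (Or.inl ⟨h, Or.inl (ha i hi).1⟩)
  have hbZ : ∀ i < r + M, b i ∉ Z := fun i hi h =>
    (hb i hi).2 (Or.inl ⟨h, Or.inr (hb i hi).1⟩)
  have haL : ∀ i < r + M, ∀ j < r, a i ∉ L j := by
    intro i hi j hj h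
    have := hyu j hj (a i) h (Or.inl (ha i hi).1)
    exact (ha i hi).2 (this ▸ hyF j hj)
  have hbL : ∀ i < r + M, ∀ j < r, b i ∉ L j := by
    intro i hi j hj h
    have := hyu j hj (b i) h (Or.inr (hb i hi).1)
    exact (hb i hi).2 (this ▸ hyF j hj)
  have hab : ∀ i < r + M, ∀ j < r + M, a i ≠ b j := by
    intro i hi j hj h
    exact Set.disjoint_left.1 hB.1 (ha i hi).1 (h ▸ (hb j hj).1)
  have hadj : ∀ i < r + M, ∀ j < r + M, G.Adj (a i) (b j) := fun i hi j hj =>
    hB.2.2.2 _ (ha i hi).1 _ (hb j hj).1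
  set L' : ℕ → Set V := fun i => if i < r then L i else ∅ with hL'
  set X : ℕ → Set V := fun i => if i < r then (if y i ∈ Q₁ then L i ∪ {b i} else L i ∪ {a i})
    else {a i, b i} with hX
  have hXsub : ∀ i, X i ⊆ L' i ∪ {a i, b i} := by
    intro i v hv
    by_cases hi : i < r
    · by_cases hy : y i ∈ Q₁
      · simp only [hX, hL', hi, hy, if_true] at hv ⊢
        rcases hv with hv | hv
        · exact Or.inl hv
        · exact Or.inr (Or.inr hv)
      · simp only [hX, hL', hi, hy, if_true, if_false] at hv ⊢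
        rcases hv with hv | hv
        · exact Or.inl hv
        · exact Or.inr (Or.inl hv)
    · simp only [hX, hL', hi, if_false] at hv ⊢
      exact Or.inr hv
  have hconn : ∀ i < r + M, Conn G (X i) ∧ (∃ u ∈ X i, u ∈ Q₁) ∧ ∃ w ∈ X i, w ∈ Q₂ := by
    intro i hi
    by_cases hir : i < r
    · have c1 := (hLy i hir).1
      obtain ⟨c4, c5⟩ := hyL i hir
      by_cases hy : y i ∈ Q₁
      · simp only [hX, hir, hy, if_true]
        refine ⟨?_, ⟨y i, Or.inl c4, hy⟩, ⟨b i, Or.inr rfl, (hb i hi).1⟩⟩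
        exact c1.union (Conn.singleton G _) (Or.inr ⟨y i, c4, b i, rfl,
          hB.2.2.2 _ hy _ (hb i hi).1⟩)
      · have hy2 : y i ∈ Q₂ := c5.resolve_left hy
        simp only [hX, hir, hy, if_true, if_false]
        refine ⟨?_, ⟨a i, Or.inr rfl, (ha i hi).1⟩, ⟨y i, Or.inl c4, hy2⟩⟩
        exact c1.union (Conn.singleton G _) (Or.inr ⟨y i, c4, a i, rfl,
          (hB.2.2.2 _ (ha i hi).1 _ hy2).symm⟩)
    · simp only [hX, hir, if_false]
      exact ⟨Conn.pair (hadj i hi i hi), ⟨a i, Or.inl rfl, (ha i hi).1⟩,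
        ⟨b i, Or.inr rfl, (hb i hi).1⟩⟩
  have hL'd : ∀ i j, i ≠ j → Disjoint (L' i) (L' j) := by
    intro i j hij
    simp only [hL']
    by_cases hi : i < r
    · by_cases hj : j < r
      · simp only [hi, hj, if_true]
        exact hLd i hi j hj hij
      · simp [hj]
    · simp [hi]
  have haL' : ∀ i < r + M, ∀ j, a i ∉ L' j := by
    intro i hi j h
    by_cases hj : j < r
    · simp only [hL', hj, if_true] at h
      exact haL i hi j hj h
    · simp only [hL', hj, if_false] at h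
      exact h
  have hbL' : ∀ i < r + M, ∀ j, b i ∉ L' j := by
    intro i hi j h
    by_cases hj : j < r
    · simp only [hL', hj, if_true] at h
      exact hbL i hi j hj h
    · simp only [hL', hj, if_false] at h
      exact h
  refine ⟨X, ⟨fun i hi => (hconn i (Finset.mem_range.1 hi)).1, ?_⟩, ?_, ?_⟩
  · intro i hi j hj hij
    rw [Finset.mem_range] at hi hj
    refine ⟨?_, ?_⟩
    · rw [Set.disjoint_left]
      intro v hv hv'
      rcases hXsub i hv with h | h | h <;> rcases hXsub j hv' with h' | h' | h'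
      · exact Set.disjoint_left.1 (hL'd i j hij) h h'
      · exact haL' j hj i (h' ▸ h)
      · exact hbL' j hj i (h' ▸ h)
      · exact haL' i hi j (h ▸ h')
      · exact hij (hai i hi j hj (h.symm.trans h'))
      · exact hab i hi j hj (h.symm.trans h')
      · exact hbL' i hi j (h ▸ h')
      · exact hab j hj i hi (h'.symm.trans h)
      · exact hij (hbi i hi j hj (h.symm.trans h'))
    · obtain ⟨u, hu, huQ⟩ := (hconn i hi).2.1
      obtain ⟨w, hw, hwQ⟩ := (hconn j hj).2.2
      exact ⟨u, hu, w, hw, hB.2.2.2 u huQ w hwQ⟩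
  · intro i hi
    refine ⟨?_, ?_⟩
    · rw [Set.disjoint_left]
      intro v hv hvZ
      rcases hXsub i hv with h | h | h
      · by_cases hir : i < r
        · simp only [hL', hir, if_true] at h
          exact Set.disjoint_left.1 (hLy i hir).2.1 h hvZ
        · simp only [hL', hir, if_false] at h
          exact absurd h (Set.notMem_empty v)
      · rw [h] at hvZ
        exact haZ i hi hvZ
      · rw [Set.mem_singleton_iff.1 h] at hvZ
        exact hbZ i hi hvZ
    · obtain ⟨u, hu, huQ⟩ := (hconn i hi).2.1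
      exact ⟨u, hu, Or.inl huQ⟩
  · intro i hi
    obtain ⟨z, hz, hzN⟩ := (hLy i hi).2.2.1
    refine ⟨z, ?_, hzN⟩
    by_cases hy : y i ∈ Q₁
    · simp only [hX, hi, hy, if_true]
      exact Or.inl hz
    · simp only [hX, hi, hy, if_true, if_false]
      exact Or.inl hz

end Pool.Agent.MPd439b2.KS
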