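import Pool.Agent.Lib.MP_d439b2_co.KS.SpecV
import Pool.Agent.Lib.MP_d439b2_co.KS.U2a

/-!
# MP_d439b2_co, Theorem K, V4: a path with many hanging sets
-/

set_option autoImplicit false

namespace Pool.Agent.MPd439b2.KS

namespace v4Aux

open u2aAux

/-- the subtree of `x` -/
def Sb {V : Type} (D : Set V) (d : V → ℕ) (π : V → V) (x : V) : Set V :=
  {y | y ∈ D ∧ ∃ k, k ≤ d y ∧ π^[k] y = x}

section

variable {V : Type} {G : SimpleGraph V} {D : Set V} {r : V} {d : V → ℕ} {π : V → V}

theorem self_mem {x : V} (hx : x ∈ D) : x ∈ Sb D d π x := ⟨hx, 0, Nat.zero_le _, rfl⟩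

theorem sb_sub {x : V} : Sb D d π x ⊆ D := fun _ hy => hy.1

theorem sb_d (t : Tr G D r d π) {x z : V} (hz : z ∈ D) {k : ℕ} (hk : k ≤ d z)
    (h : π^[k] z = x) : d x + k = d z := by
  rw [← h]
  exact (t.iter z hz k hk).2

theorem sb_conn (t : Tr G D r d π) {x : V} (hx : x ∈ D) : Conn G (Sb D d π x) := by
  refine ⟨⟨x, self_mem hx⟩, fun B hB hne hne' => ?_⟩
  by_contra hcon
  push Not at hcon
  have key : ∀ k : ℕ, ∀ z ∈ D, k ≤ d z → π^[k] z = x → (z ∈ B ↔ x ∈ B) := by
    intro k
    induction k with
    | zero =>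
      intro z hz hk h
      have h' : z = x := h
      rw [h']
    | succ k ih =>
      intro z hz hk h
      have hzr : z ≠ r := by
        rintro rfl
        rw [t.d0] at hk
        omega
      obtain ⟨h1, h2, h3⟩ := t.par z hz hzr
      rw [Function.iterate_succ_apply] at h
      have h4 : z ∈ Sb D d π x := ⟨hz, k + 1, hk, by rw [Function.iterate_succ_apply]; exact h⟩
      have h5 : π z ∈ Sb D d π x := ⟨h1, k, by omega, h⟩
      rw [← ih (π z) h1 (by omega) h]
      constructor
      · intro h6
        by_contra h7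
        exact hcon z h6 (π z) ⟨h5, h7⟩ h2.symm
      · intro h6
        by_contra h7
        exact hcon (π z) h6 z ⟨h4, h7⟩ h2
  have key' : ∀ z ∈ Sb D d π x, (z ∈ B ↔ x ∈ B) := fun z ⟨hz, k, hk, h⟩ => key k z hz hk h
  obtain ⟨b, hb⟩ := hne
  have hxB := (key' b (hB hb)).1 hb
  exact hne' (Set.Subset.antisymm hB fun z hz => (key' z hz).2 hxB)

theorem sb_root (t : Tr G D r d π) : Sb D d π r = D := by
  refine Set.Subset.antisymm sb_sub fun z hz => ⟨hz, d z, le_rfl, ?_⟩
  obtain ⟨h1, h2⟩ := t.iter z hz (d z) le_rfl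
  by_contra hne
  have := (t.par _ h1 hne).2.2
  omega

/-- `y` is a child of `x` -/
def Ch (D : Set V) (r : V) (π : V → V) (x y : V) : Prop := y ∈ D ∧ y ≠ r ∧ π y = x

theorem ch_sub (t : Tr G D r d π) {x y : V} (h : Ch D r π x y) : Sb D d π y ⊆ Sb D d π x := by
  rintro z ⟨hz, k, hk, hzk⟩
  have h1 := sb_d t hz hk hzk
  have h2 := (t.par y h.1 h.2.1).2.2
  refine ⟨hz, k + 1, by omega, ?_⟩
  rw [Function.iterate_succ_apply', hzk]
  exact h.2.2

theorem ch_not (t : Tr G D r d π) {x y : V} (h : Ch D r π x y) : x ∉ Sb D d π y := by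
  rintro ⟨hz, k, hk, hzk⟩
  have h1 := sb_d t hz hk hzk
  have h2 := (t.par y h.1 h.2.1).2.2
  rw [h.2.2] at h2
  omega

theorem ch_cov (t : Tr G D r d π) {x z : V} (hz : z ∈ Sb D d π x) :
    z = x ∨ ∃ y, Ch D r π x y ∧ z ∈ Sb D d π y := by
  obtain ⟨hz, k, hk, hzk⟩ := hz
  cases k with
  | zero => exact Or.inl hzk
  | succ k =>
    right
    obtain ⟨h1, h2⟩ := t.iter z hz k (by omega)
    have h3 : π^[k] z ≠ r := by
      intro h
      rw [h, t.d0] at h2
      omega
    rw [Function.iterate_succ_apply'] at hzk
    exact ⟨π^[k] z, ⟨h1, h3, hzk⟩, hz, k, by omega, rfl⟩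

theorem ch_disj (t : Tr G D r d π) {x y y' : V} (h : Ch D r π x y) (h' : Ch D r π x y')
    (hne : y ≠ y') : Disjoint (Sb D d π y) (Sb D d π y') := by
  rw [Set.disjoint_left]
  rintro z ⟨hz, k, hk, hzk⟩ ⟨_, k', hk', hzk'⟩
  have h1 := sb_d t hz hk hzk
  have h2 := sb_d t hz hk' hzk'
  have h3 := (t.par y h.1 h.2.1).2.2
  have h4 := (t.par y' h'.1 h'.2.1).2.2
  rw [h.2.2] at h3
  rw [h'.2.2] at h4
  have h5 : k = k' := by omega
  apply hne
  rw [← hzk, ← hzk', h5]

theorem ch_card [Finite V] (t : Tr G D r d π) {x y : V} (hx : x ∈ D) (h : Ch D r π x y) :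
    (Sb D d π y).ncard < (Sb D d π x).ncard :=
  Set.ncard_lt_ncard ⟨ch_sub t h, fun h' => ch_not t h (h' (self_mem hx))⟩ (Set.toFinite _)

theorem nofan_fin {Q : Set V} {c : ℕ} (h : NoFan G Q D c) {α : Type} (F : Finset α)
    (Z : α → Set V) {x : V} (hx : x ∈ D)
    (hZ : ∀ i ∈ F, Conn G (Z i) ∧ x ∉ Z i ∧ Tch G {x} (Z i) ∧ (Z i ∩ Q).Nonempty)
    (hdis : ∀ i ∈ F, ∀ j ∈ F, i ≠ j → Disjoint (Z i) (Z j)) : F.card < c := by
  classical
  by_contra hcon
  push Not at hcon
  refine h x hx ⟨fun k => if hk : k < F.card then Z (F.equivFin.symm ⟨k, hk⟩) else ∅, ?_, ?_⟩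
  · intro i hi
    have hi' : i < F.card := by omega
    simp only [hi', dif_pos]
    exact hZ _ (F.equivFin.symm ⟨i, hi'⟩).2
  · intro i hi j hj hij
    have hi' : i < F.card := by omega
    have hj' : j < F.card := by omega
    simp only [hi', hj', dif_pos]
    refine hdis _ (F.equivFin.symm ⟨i, hi'⟩).2 _ (F.equivFin.symm ⟨j, hj'⟩).2 ?_
    intro he
    have h1 := F.equivFin.symm.injective (Subtype.ext he)
    exact hij (Fin.mk.inj_iff.1 h1)

end

/-- the numbers -/
def pn (c : ℕ) : ℕ → ℕ
  | 0 => 0
  | h + 1 => c * (pn c h + 2) + c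

open Classical in
theorem claim {V : Type} [Finite V] {G : SimpleGraph V} {D Q : Set V} {r : V} {d : V → ℕ}
    {π : V → V} (t : Tr G D r d π) {c : ℕ} (hF : NoFan G Q D c) (I : Finset ℕ) (B : ℕ → Set V)
    (hB : ∀ i ∈ I, Conn G (B i) ∧ Disjoint (B i) D ∧ (B i ∩ Q).Nonempty)
    (hdis : ∀ i ∈ I, ∀ j ∈ I, i ≠ j → Disjoint (B i) (B j)) (τ : ℕ → V)
    (hτ : ∀ i ∈ I, τ i ∈ D ∧ Tch G {τ i} (B i)) : ∀ (h n : ℕ) (x : V), x ∈ D →
    (Sb D d π x).ncard ≤ n → pn c h ≤ (I.filter fun i => τ i ∈ Sb D d π x).card →
    ∃ (l : ℕ) (s : ℕ → V) (J : Finset ℕ) (B' : ℕ → Set V), 1 ≤ l ∧ s 0 = x ∧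
      (∀ k, k + 1 < l → Ch D r π (s k) (s (k + 1))) ∧ (∀ k < l, s k ∈ Sb D d π x) ∧
      (J ⊆ I.filter fun i => τ i ∈ Sb D d π x) ∧ J.card = h ∧
      (∀ j ∈ J, Conn G (B' j) ∧ B j ⊆ B' j ∧ B' j ⊆ B j ∪ Sb D d π x ∧ (∀ k < l, s k ∉ B' j) ∧
        ∃ k < l, Tch G {s k} (B' j)) ∧ ∀ i ∈ J, ∀ j ∈ J, i ≠ j → Disjoint (B' i) (B' j) := by
  intro h
  induction h with
  | zero =>
    intro n x hx _ _
    refine ⟨1, fun _ => x, ∅, B, le_rfl, rfl, fun k hk => absurd hk (by omega),
      fun k _ => self_mem hx, Finset.empty_subset _, rfl,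
      fun j hj => absurd hj (Finset.notMem_empty j), fun j hj => absurd hj (Finset.notMem_empty j)⟩
  | succ h ih =>
    intro n
    induction n with
    | zero =>
      intro x hx hn _
      have h1 : 0 < (Sb D d π x).ncard := (Set.ncard_pos (Set.toFinite _)).2 ⟨x, self_mem hx⟩
      omega
    | succ n ihn =>
      intro x hx hn hp
      -- the children
      set K : Finset V := (Set.toFinite {y | Ch D r π x y ∧ ∃ i ∈ I, τ i ∈ Sb D d π y}).toFinset
        with hK
      have hKm : ∀ y, y ∈ K ↔ Ch D r π x y ∧ ∃ i ∈ I, τ i ∈ Sb D d π y := by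
        intro y
        rw [hK, Set.Finite.mem_toFinset]
        rfl
      have hKc : K.card < c := by
        have hch : ∀ y, ∃ i, y ∈ K → i ∈ I ∧ τ i ∈ Sb D d π y := by
          intro y
          by_cases hy : y ∈ K
          · obtain ⟨i, h1, h2⟩ := ((hKm y).1 hy).2
            exact ⟨i, fun _ => ⟨h1, h2⟩⟩
          · exact ⟨0, fun h' => absurd h' hy⟩
        choose f hf using hch
        refine nofan_fin hF K (fun y => Sb D d π y ∪ B (f y)) hx ?_ ?_
        · intro y hy
          obtain ⟨h1, h2⟩ := hf y hy
          have h3 := ((hKm y).1 hy).1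
          obtain ⟨b1, b2, b3⟩ := hB _ h1
          refine ⟨(sb_conn t h3.1).union b1 (Or.inr ?_), ?_, ?_, ?_⟩
          · obtain ⟨_, rfl, b, hb, hadj⟩ := (hτ _ h1).2
            exact ⟨_, h2, b, hb, hadj⟩
          · rintro (h4 | h4)
            · exact ch_not t h3 h4
            · exact Set.disjoint_left.1 b2 h4 hx
          · refine ⟨x, rfl, y, Or.inl (self_mem h3.1), ?_⟩
            have := (t.par y h3.1 h3.2.1).2.1
            rw [h3.2.2] at this
            exact this
          · obtain ⟨b, hb, hbQ⟩ := b3
            exact ⟨b, Or.inr hb, hbQ⟩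
        · intro y hy y' hy' hne
          obtain ⟨h1, h2⟩ := hf y hy
          obtain ⟨h1', h2'⟩ := hf y' hy'
          have h3 := ((hKm y).1 hy).1
          have h3' := ((hKm y').1 hy').1
          have h4 := ch_disj t h3 h3' hne
          have h5 : f y ≠ f y' := by
            intro he
            rw [← he] at h2'
            exact Set.disjoint_left.1 h4 h2 h2'
          rw [Set.disjoint_union_left, Set.disjoint_union_right, Set.disjoint_union_right]
          refine ⟨⟨h4, ?_⟩, ?_, hdis _ h1 _ h1' h5⟩
          · exact ((hB _ h1').2.1.mono_right sb_sub).symm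
          · exact (hB _ h1).2.1.mono_right sb_sub
      have hx0 : (I.filter fun i => τ i = x).card < c := by
        refine nofan_fin hF _ B hx ?_ ?_
        · intro i hi
          obtain ⟨h1, h2⟩ := Finset.mem_filter.1 hi
          obtain ⟨b1, b2, b3⟩ := hB _ h1
          refine ⟨b1, fun h' => Set.disjoint_left.1 b2 h' hx, ?_, b3⟩
          have := (hτ i h1).2
          rw [h2] at this
          exact this
        · intro i hi j hj hij
          exact hdis i (Finset.mem_filter.1 hi).1 j (Finset.mem_filter.1 hj).1 hij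
      -- a child with a large subtree
      obtain ⟨y, hy, hbig⟩ : ∃ y ∈ K, pn c h + 2 ≤ (I.filter fun i => τ i ∈ Sb D d π y).card := by
        by_contra hcon
        push Not at hcon
        have h1 : (I.filter fun i => τ i ∈ Sb D d π x) ⊆ (I.filter fun i => τ i = x) ∪
            K.biUnion fun y => I.filter fun i => τ i ∈ Sb D d π y := by
          intro i hi
          obtain ⟨h2, h3⟩ := Finset.mem_filter.1 hi
          rcases ch_cov t h3 with h4 | ⟨y, h4, h5⟩
          · exact Finset.mem_union_left _ (Finset.mem_filter.2 ⟨h2, h4⟩)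
          · refine Finset.mem_union_right _ (Finset.mem_biUnion.2 ⟨y, ?_, Finset.mem_filter.2
              ⟨h2, h5⟩⟩)
            exact (hKm y).2 ⟨h4, i, h2, h5⟩
        have h2 := Finset.card_le_card h1
        have h3 := Finset.card_union_le (I.filter fun i => τ i = x)
          (K.biUnion fun y => I.filter fun i => τ i ∈ Sb D d π y)
        have h4 : (K.biUnion fun y => I.filter fun i => τ i ∈ Sb D d π y).card
            ≤ K.card * (pn c h + 2) :=
          Finset.card_biUnion_le_card_mul _ _ _ fun y hy => (hcon y hy).le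
        have h5 : K.card * (pn c h + 2) ≤ c * (pn c h + 2) := Nat.mul_le_mul_right _ hKc.le
        have h6 : pn c (h + 1) = c * (pn c h + 2) + c := rfl
        omega
      have hyc := ((hKm y).1 hy).1
      have hsub : (I.filter fun i => τ i ∈ Sb D d π y) ⊆ I.filter fun i => τ i ∈ Sb D d π x := by
        intro i hi
        obtain ⟨h1, h2⟩ := Finset.mem_filter.1 hi
        exact Finset.mem_filter.2 ⟨h1, ch_sub t hyc h2⟩
      have hcard := ch_card t hx hyc
      by_cases hall : (I.filter fun i => τ i ∈ Sb D d π x) ⊆ I.filter fun i => τ i ∈ Sb D d π y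
      · -- go on
        obtain ⟨l, s, J, B', h1, h2, h3, h4, h5, h6, h7, h8⟩ := ihn y hyc.1 (by omega)
          (hp.trans (Finset.card_le_card hall))
        refine ⟨l + 1, fun k => if k = 0 then x else s (k - 1), J, B', by omega, by simp, ?_, ?_,
          h5.trans hsub, h6, ?_, h8⟩
        · intro k hk
          by_cases hk0 : k = 0
          · subst hk0
            simp only [if_true, Nat.zero_add, one_ne_zero, if_false, Nat.sub_self, h2]
            exact hyc
          · simp only [hk0, if_false, Nat.add_eq_zero_iff, one_ne_zero, and_false,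
              Nat.add_sub_cancel]
            have := h3 (k - 1) (by omega)
            rw [Nat.sub_add_cancel (by omega)] at this
            exact this
        · intro k hk
          by_cases hk0 : k = 0
          · simp only [hk0, if_true]
            exact self_mem hx
          · simp only [hk0, if_false]
            exact ch_sub t hyc (h4 (k - 1) (by omega))
        · intro j hj
          obtain ⟨g1, g2, g3, g4, k, g5, g6⟩ := h7 j hj
          have hjI := (Finset.mem_filter.1 (h5 hj)).1
          refine ⟨g1, g2, g3.trans (Set.union_subset_union_right _ (ch_sub t hyc)), ?_, k + 1,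
            by omega, ?_⟩
          · intro k hk
            by_cases hk0 : k = 0
            · simp only [hk0, if_true]
              intro h9
              rcases g3 h9 with h10 | h10
              · exact Set.disjoint_left.1 (hB j hjI).2.1 h10 hx
              · exact ch_not t hyc h10
            · simp only [hk0, if_false]
              exact g4 (k - 1) (by omega)
          · simpa using g6
      · -- hang one set
        obtain ⟨i, hi, hi'⟩ := Finset.not_subset.1 hall
        obtain ⟨hiI, hix⟩ := Finset.mem_filter.1 hi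
        have hiy : τ i ∉ Sb D d π y := fun h' => hi' (Finset.mem_filter.2 ⟨hiI, h'⟩)
        obtain ⟨l, s, J, B', h1, h2, h3, h4, h5, h6, h7, h8⟩ := ih n y hyc.1 (by omega)
          (by omega)
        have hiJ : i ∉ J := fun h' => hi' (h5 h')
        obtain ⟨bi1, bi2, bi3⟩ := hB i hiI
        -- the new hanging set
        obtain ⟨Z, hZ1, hZ2, hZ3, hZ4, hZ5⟩ : ∃ Z : Set V, Conn G (B i ∪ Z) ∧ Z ⊆ Sb D d π x ∧
            x ∉ Z ∧ Disjoint Z (Sb D d π y) ∧ Tch G {x} (B i ∪ Z) := by
          rcases ch_cov t hix with h9 | ⟨y', h9, h10⟩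
          · refine ⟨∅, by rwa [Set.union_empty], Set.empty_subset _, Set.notMem_empty x,
              Set.empty_disjoint _, ?_⟩
            rw [Set.union_empty, ← h9]
            exact (hτ i hiI).2
          · have hyy : y' ≠ y := by
              rintro rfl
              exact hiy h10
            refine ⟨Sb D d π y', ?_, ch_sub t h9, ch_not t h9, ch_disj t h9 hyc hyy, ?_⟩
            · rw [Set.union_comm]
              refine (sb_conn t h9.1).union bi1 (Or.inr ?_)
              obtain ⟨_, rfl, b, hb, hadj⟩ := (hτ i hiI).2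
              exact ⟨_, h10, b, hb, hadj⟩
            · refine ⟨x, rfl, y', Or.inr (self_mem h9.1), ?_⟩
              have := (t.par y' h9.1 h9.2.1).2.1
              rw [h9.2.2] at this
              exact this
        refine ⟨l + 1, fun k => if k = 0 then x else s (k - 1), insert i J,
          fun j => if j = i then B i ∪ Z else B' j, by omega, by simp, ?_, ?_, ?_, ?_, ?_, ?_⟩
        · intro k hk
          by_cases hk0 : k = 0
          · subst hk0
            simp only [if_true, Nat.zero_add, one_ne_zero, if_false, Nat.sub_self, h2]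
            exact hyc
          · simp only [hk0, if_false, Nat.add_eq_zero_iff, one_ne_zero, and_false,
              Nat.add_sub_cancel]
            have := h3 (k - 1) (by omega)
            rw [Nat.sub_add_cancel (by omega)] at this
            exact this
        · intro k hk
          by_cases hk0 : k = 0
          · simp only [hk0, if_true]
            exact self_mem hx
          · simp only [hk0, if_false]
            exact ch_sub t hyc (h4 (k - 1) (by omega))
        · intro j hj
          rcases Finset.mem_insert.1 hj with rfl | hj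
          · exact hi
          · exact hsub (h5 hj)
        · rw [Finset.card_insert_of_notMem hiJ, h6]
        · intro j hj
          rcases Finset.mem_insert.1 hj with hji | hjJ
          · subst hji
            simp only [if_true]
            refine ⟨hZ1, Set.subset_union_left, Set.union_subset_union_right _ hZ2, ?_, 0,
              by omega, by simpa using hZ5⟩
            intro k hk
            by_cases hk0 : k = 0
            · simp only [hk0, if_true]
              rintro (h9 | h9)
              · exact Set.disjoint_left.1 bi2 h9 hx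
              · exact hZ3 h9
            · simp only [hk0, if_false]
              have h10 := h4 (k - 1) (by omega)
              rintro (h9 | h9)
              · exact Set.disjoint_left.1 bi2 h9 (sb_sub h10)
              · exact Set.disjoint_left.1 hZ4 h9 h10
          · have hji : j ≠ i := fun h' => hiJ (h' ▸ hjJ)
            simp only [hji, if_false]
            obtain ⟨g1, g2, g3, g4, k, g5, g6⟩ := h7 j hjJ
            have hjI := (Finset.mem_filter.1 (h5 hjJ)).1
            refine ⟨g1, g2, g3.trans (Set.union_subset_union_right _ (ch_sub t hyc)), ?_, k + 1,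
              by omega, ?_⟩
            · intro k hk
              by_cases hk0 : k = 0
              · simp only [hk0, if_true]
                intro h9
                rcases g3 h9 with h10 | h10
                · exact Set.disjoint_left.1 (hB j hjI).2.1 h10 hx
                · exact ch_not t hyc h10
              · simp only [hk0, if_false]
                exact g4 (k - 1) (by omega)
            · simpa using g6
        · -- disjointness
          have hdi : ∀ j ∈ J, Disjoint (B i ∪ Z) (B' j) := by
            intro j hjJ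
            have hji : i ≠ j := fun h' => hiJ (h' ▸ hjJ)
            have hjI := (Finset.mem_filter.1 (h5 hjJ)).1
            refine Disjoint.mono_right (h7 j hjJ).2.2.1 ?_
            rw [Set.disjoint_union_left, Set.disjoint_union_right, Set.disjoint_union_right]
            refine ⟨⟨hdis i hiI j hjI hji, bi2.mono_right sb_sub⟩, ?_, hZ4⟩
            exact ((hB j hjI).2.1.mono_right (hZ2.trans sb_sub)).symm
          intro j hj j' hj' hne
          rcases Finset.mem_insert.1 hj with hji | hjJ
          · rcases Finset.mem_insert.1 hj' with hji' | hjJ'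
            · exact absurd (hji.trans hji'.symm) hne
            · have h9 : j' ≠ i := fun h' => hiJ (h' ▸ hjJ')
              simp only [hji, if_true, h9, if_false]
              exact hdi j' hjJ'
          · have h9 : j ≠ i := fun h' => hiJ (h' ▸ hjJ)
            rcases Finset.mem_insert.1 hj' with hji' | hjJ'
            · simp only [hji', if_true, h9, if_false]
              exact (hdi j hjJ).symm
            · have h10 : j' ≠ i := fun h' => hiJ (h' ▸ hjJ')
              simp only [h9, h10, if_false]
              exact h8 j hjJ j' hjJ' hne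

end v4Aux

open v4Aux u2aAux in
/-- **V4** -/
theorem v4 (h0 : S_U0) : S_V4 := by
  classical
  intro c g
  refine ⟨pn c g, fun V _ G Q D I B hD hB hdis hF hp => ?_⟩
  obtain ⟨r, hr⟩ := hD.1
  obtain ⟨d, π, hd0, hpar, hlip⟩ := h0 V G D r hD hr
  have t : Tr G D r d π := ⟨hr, hd0, hpar, hlip⟩
  have hex : ∀ i, ∃ x, i ∈ I → x ∈ D ∧ Tch G {x} (B i) := by
    intro i
    by_cases hi : i ∈ I
    · obtain ⟨x, hx, b, hb, hadj⟩ := (hB i hi).2.2.1
      exact ⟨x, fun _ => ⟨hx, x, rfl, b, hb, hadj⟩⟩
    · exact ⟨r, fun h => absurd h hi⟩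
  choose τ hτ using hex
  have hall : (I.filter fun i => τ i ∈ Sb D d π r) = I := by
    rw [Finset.filter_eq_self]
    intro i hi
    rw [sb_root t]
    exact (hτ i hi).1
  obtain ⟨l, s, J, B', h1, h2, h3, h4, h5, h6, h7, h8⟩ := claim t hF I B
    (fun i hi => ⟨(hB i hi).1, (hB i hi).2.1, (hB i hi).2.2.2⟩) hdis τ hτ g _ r hr le_rfl
    (by rw [hall]; exact hp)
  rw [hall] at h5
  rw [sb_root t] at h7
  have hds : ∀ k < l, d (s k) = k := by
    intro k
    induction k with
    | zero =>
      intro _
      rw [h2, hd0]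
    | succ k ih =>
      intro hk
      obtain ⟨g1, g2, g3⟩ := h3 k hk
      rw [(hpar _ g1 g2).2.2, g3, ih (by omega)]
  refine ⟨l, s, J, B', ⟨fun i hi => sb_sub (h4 i hi), ?_, ?_⟩, h5, h6, ?_, h8⟩
  · intro i hi j hj hij
    rw [← hds i hi, ← hds j hj, hij]
  · have hcons : ∀ k, k + 1 < l → G.Adj (s k) (s (k + 1)) := by
      intro k hk
      obtain ⟨g1, g2, g3⟩ := h3 k hk
      have := (hpar _ g1 g2).2.1
      rwa [g3] at this
    intro i hi j hj
    constructor
    · intro h
      have e1 := hlip _ (sb_sub (h4 i hi)) _ (sb_sub (h4 j hj)) h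
      have e2 := hlip _ (sb_sub (h4 j hj)) _ (sb_sub (h4 i hi)) h.symm
      rw [hds i hi, hds j hj] at e1
      rw [hds i hi, hds j hj] at e2
      have e3 : i ≠ j := by
        rintro rfl
        exact G.loopless.1 _ h
      omega
    · rintro (rfl | rfl)
      · exact (hcons j hi).symm
      · exact hcons i hj
  · intro j hj
    obtain ⟨g1, g2, g3, g4, k, g5, g6⟩ := h7 j hj
    refine ⟨g1, g2, g3, ?_, ?_⟩
    · rw [Set.disjoint_right]
      rintro _ ⟨i, _, hi, rfl⟩
      exact g4 i hi
    · obtain ⟨_, rfl, b, hb, hadj⟩ := g6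
      exact ⟨s k, ⟨k, Nat.zero_le _, g5, rfl⟩, b, hb, hadj⟩

end Pool.Agent.MPd439b2.KS
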