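import Pool.Agent.Lib.MP_d439b2_co.KS.SpecV
import Pool.Agent.Lib.MP_d439b2_co.B.Q1b
import Pool.Agent.Lib.MP_d439b2_co.KS.U7

/-!
# MP_d439b2_co, Theorem K, V5: `DD N m` from a path and hanging sets
-/

set_option autoImplicit false

namespace Pool.Agent.MPd439b2.KS

namespace v5Aux

variable {V : Type} {G : SimpleGraph V} {l : ℕ} {s : ℕ → V}

theorem seg_conn (hp : IndP G Set.univ l s) (a : ℕ) : ∀ b, a < b → b ≤ l → Conn G (seg s a b) := by
  intro b hab
  induction b, hab using Nat.le_induction with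
  | base =>
    intro _
    have h1 : seg s a (a + 1) = {s a} := by
      ext v
      simp only [seg, Set.mem_ofPred_eq, Set.mem_singleton_iff]
      constructor
      · rintro ⟨i, h1, h2, rfl⟩
        have : i = a := by omega
        rw [this]
      · rintro rfl
        exact ⟨a, le_refl a, Nat.lt_succ_self a, rfl⟩
    rw [h1]
    exact Conn.singleton G (s a)
  | succ b hab ih =>
    intro hb
    have h1 : seg s a (b + 1) = insert (s b) (seg s a b) := by
      ext v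
      simp only [seg, Set.mem_ofPred_eq, Set.mem_insert_iff]
      constructor
      · rintro ⟨i, h1, h2, rfl⟩
        rcases Nat.lt_succ_iff_lt_or_eq.mp h2 with h | h
        · exact Or.inr ⟨i, h1, h, rfl⟩
        · left; rw [h]
      · rintro (h | ⟨i, h1, h2, rfl⟩)
        · exact ⟨b, by omega, Nat.lt_succ_self b, h.symm⟩
        · exact ⟨i, h1, by omega, rfl⟩
    rw [h1]
    refine (ih (by omega)).insert ⟨s (b - 1), ⟨b - 1, by omega, by omega, rfl⟩, ?_⟩
    exact (hp.2.2 (b - 1) (by omega) b (by omega)).mpr (Or.inr (by omega))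

theorem seg_disj (hp : IndP G Set.univ l s) {a b a' b' : ℕ} (h : b ≤ a') (hb : b ≤ l)
    (hb' : b' ≤ l) : Disjoint (seg s a b) (seg s a' b') := by
  rw [Set.disjoint_left]
  rintro v ⟨i, h1, h2, rfl⟩ ⟨j, h3, h4, h5⟩
  have := hp.2.1 j (by omega) i (by omega) h5
  omega

theorem seg_ntch (hp : IndP G Set.univ l s) {a b a' b' : ℕ} (h : b < a') (hb : b ≤ l)
    (hb' : b' ≤ l) : ¬ Tch G (seg s a b) (seg s a' b') := by
  rintro ⟨_, ⟨i, h1, h2, rfl⟩, _, ⟨j, h3, h4, rfl⟩, h5⟩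
  have := (hp.2.2 i (by omega) j (by omega)).mp h5
  omega

theorem seg_tch (hp : IndP G Set.univ l s) {a b b' : ℕ} (h0 : a < b) (h1 : b < b')
    (hb' : b' ≤ l) : Tch G (seg s a b) (seg s b b') := by
  refine ⟨s (b - 1), ⟨b - 1, by omega, by omega, rfl⟩, s b, ⟨b, le_refl b, h1, rfl⟩, ?_⟩
  exact (hp.2.2 (b - 1) (by omega) b (by omega)).mpr (Or.inr (by omega))

theorem seg_sub {a b a' b' : ℕ} (h : a' ≤ a) (h' : b ≤ b') : seg s a b ⊆ seg s a' b' := by
  rintro v ⟨i, h1, h2, rfl⟩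
  exact ⟨i, by omega, by omega, rfl⟩

/-- the case of disjoint intervals -/
theorem case1 (hDD : S_DDd) {N m : ℕ} {B : ℕ → Set V} {P : Finset ℕ}
    (hp : IndP G Set.univ l s) (hM : Mdl G P B)
    (hB : ∀ j ∈ P, Disjoint (B j) (seg s 0 l)) {P' : Finset ℕ} (hP' : P' ⊆ P)
    (hcard : 3 * m + N + 1 ≤ P'.card) {a₀ b₀ : ℕ} {lo hi : ℕ → ℕ} (hb₀ : b₀ ≤ l)
    (h1 : ∀ c ∈ P', a₀ ≤ lo c ∧ lo c ≤ hi c ∧ hi c < b₀ ∧
            (∃ i, lo c ≤ i ∧ i ≤ hi c ∧ Tch G {s i} (B c)) ∧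
            ∀ i, a₀ ≤ i → i < b₀ → Tch G {s i} (B c) → lo c ≤ i ∧ i ≤ hi c)
    (h2 : ∀ c ∈ P', ∀ c' ∈ P', c ≠ c' → hi c < lo c' ∨ hi c' < lo c) :
    IMS (DD N m) G Set.univ := by
  classical
  -- the sorted enumeration
  obtain ⟨e, he, heord⟩ : ∃ e : ℕ → ℕ, (∀ k < P'.card, e k ∈ P') ∧
      ∀ k j, k < j → j < P'.card → hi (e k) < lo (e j) := by
    have hinj : Set.InjOn lo P' := by
      intro c hc c' hc' h
      by_contra hne
      have e1 := (h1 c hc).2.1
      have e2 := (h1 c' hc').2.1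
      rcases h2 c hc c' hc' hne with e3 | e3 <;> omega
    have hcard' : (P'.image lo).card = P'.card := Finset.card_image_of_injOn hinj
    have hex : ∀ k, ∃ c, ∀ hk : k < P'.card, c ∈ P' ∧
        lo c = (P'.image lo).orderEmbOfFin hcard' ⟨k, hk⟩ := by
      intro k
      by_cases hk : k < P'.card
      · obtain ⟨c, hc, hce⟩ := Finset.mem_image.1
          ((P'.image lo).orderEmbOfFin_mem hcard' ⟨k, hk⟩)
        exact ⟨c, fun _ => ⟨hc, hce⟩⟩
      · exact ⟨0, fun h => absurd h hk⟩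
    choose e he using hex
    refine ⟨e, fun k hk => (he k hk).1, fun k j hkj hj => ?_⟩
    have hk : k < P'.card := by omega
    obtain ⟨g1, g2⟩ := he k hk
    obtain ⟨g3, g4⟩ := he j hj
    have g5 : lo (e k) < lo (e j) := by
      rw [g2, g4]
      exact ((P'.image lo).orderEmbOfFin hcard').strictMono (Fin.mk_lt_mk.2 hkj)
    have g6 : e k ≠ e j := fun h => by rw [h] at g5; omega
    have g7 := (h1 _ g1).2.1
    have g8 := (h1 _ g3).2.1
    rcases h2 _ g1 _ g3 g6 with g9 | g9 <;> omega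
  have hne : ∀ k < P'.card, ∀ j < P'.card, k ≠ j → e k ≠ e j := by
    intro k hk j hj hkj h
    rcases Nat.lt_or_gt_of_ne hkj with h3 | h3
    · have g1 := heord k j h3 hj
      have g2 := (h1 _ (he k hk)).2.1
      rw [h] at g1 g2
      omega
    · have g1 := heord j k h3 hk
      have g2 := (h1 _ (he k hk)).2.1
      rw [h] at g1 g2
      omega
  obtain ⟨F, hF⟩ : ∃ F : ℕ → Set V, ∀ k, F k = seg s (lo (e k)) (lo (e (k + 1))) :=
    ⟨_, fun _ => rfl⟩
  have hlo : ∀ k, k + 1 < P'.card → lo (e k) < lo (e (k + 1)) ∧ lo (e (k + 1)) ≤ l ∧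
      a₀ ≤ lo (e k) ∧ lo (e (k + 1)) ≤ b₀ := by
    intro k hk
    have g1 := heord k (k + 1) (Nat.lt_succ_self k) hk
    have g2 := (h1 _ (he k (by omega)))
    have g3 := (h1 _ (he (k + 1) hk))
    omega
  have hmono : ∀ k j, k ≤ j → j < P'.card → lo (e k) ≤ lo (e j) := by
    intro k j hkj hj
    rcases Nat.lt_or_eq_of_le hkj with h | h
    · have g1 := heord k j h hj
      have g2 := (h1 _ (he k (by omega))).2.1
      omega
    · rw [h]
  have hFsub : ∀ k, k + 1 < P'.card → F k ⊆ seg s 0 l := by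
    intro k hk
    rw [hF]
    exact seg_sub (Nat.zero_le _) (hlo k hk).2.1
  have hFc : ∀ k, k + 1 < P'.card → Conn G (F k) := by
    intro k hk
    rw [hF]
    exact seg_conn hp _ _ (hlo k hk).1 (hlo k hk).2.1
  have hFd : ∀ k j, k + 1 < P'.card → j + 1 < P'.card → k ≠ j → Disjoint (F k) (F j) := by
    intro k j hk hj hkj
    rw [hF, hF]
    rcases Nat.lt_or_gt_of_ne hkj with h3 | h3
    · exact seg_disj hp (hmono (k + 1) j h3 (by omega)) (hlo k hk).2.1 (hlo j hj).2.1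
    · exact (seg_disj hp (hmono (j + 1) k h3 (by omega)) (hlo j hj).2.1 (hlo k hk).2.1).symm
  have hFt : ∀ k, k + 2 < P'.card → Tch G (F k) (F (k + 1)) := by
    intro k hk
    rw [hF, hF]
    exact seg_tch hp (hlo k (by omega)).1 (hlo (k + 1) (by omega)).1 (hlo (k + 1) (by omega)).2.1
  have hFn : ∀ k j, k + 1 < P'.card → j + 1 < P'.card → k ≠ j → k + 1 ≠ j → j + 1 ≠ k →
      ¬ Tch G (F k) (F j) := by
    intro k j hk hj hkj hkj1 hkj2
    have key : ∀ k j, k + 1 < j → j + 1 < P'.card → ¬ Tch G (F k) (F j) := by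
      intro k j hkj hj
      rw [hF, hF]
      have g1 := heord (k + 1) j hkj (by omega)
      have g2 := (h1 _ (he (k + 1) (by omega))).2.1
      exact seg_ntch hp (by omega) (hlo k (by omega)).2.1 (hlo j hj).2.1
    rcases Nat.lt_or_gt_of_ne hkj with h3 | h3
    · exact key k j (by omega) hj
    · exact fun h => key j k (by omega) hk h.symm
  have hFB : ∀ k, k + 1 < P'.card → Tch G (F k) (B (e k)) := by
    intro k hk
    obtain ⟨i, g1, g2, _, rfl, b, hb, g3⟩ := (h1 _ (he k (by omega))).2.2.2.1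
    have g4 := heord k (k + 1) (Nat.lt_succ_self k) hk
    rw [hF]
    exact ⟨s i, ⟨i, g1, by omega, rfl⟩, b, hb, g3⟩
  have hFBn : ∀ k j, k + 1 < P'.card → j < P'.card → k ≠ j → ¬ Tch G (F k) (B (e j)) := by
    intro k j hk hj hkj h
    rw [hF] at h
    obtain ⟨_, ⟨i, g1, g2, rfl⟩, b, hb, g3⟩ := h
    obtain ⟨e1, e2, e3, e4⟩ := hlo k hk
    have g4 := (h1 _ (he j hj)).2.2.2.2 i (by omega) (by omega) ⟨s i, rfl, b, hb, g3⟩
    rcases Nat.lt_or_gt_of_ne hkj with h3 | h3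
    · have := hmono (k + 1) j h3 hj
      omega
    · have := heord j k h3 (by omega)
      omega
  have hBc : ∀ k < P'.card, Conn G (B (e k)) := fun k hk => hM.1 _ (hP' (he k hk))
  have hBd : ∀ k < P'.card, ∀ j < P'.card, k ≠ j → Disjoint (B (e k)) (B (e j)) ∧
      Tch G (B (e k)) (B (e j)) := fun k hk j hj hkj =>
    hM.2 _ (hP' (he k hk)) _ (hP' (he j hj)) (hne k hk j hj hkj)
  have hBF : ∀ k j, k < P'.card → j + 1 < P'.card → Disjoint (B (e k)) (F j) :=
    fun k j hk hj => (hB _ (hP' (he k hk))).mono_right (hFsub j hj)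
  -- unions
  have hU : ∀ k j, k + 1 < P'.card → j + 1 < P'.card → k ≠ j →
      Disjoint (F k ∪ B (e k)) (F j ∪ B (e j)) ∧ Tch G (F k ∪ B (e k)) (F j ∪ B (e j)) := by
    intro k j hk hj hkj
    refine ⟨?_, (hBd k (by omega) j (by omega) hkj).2.mono Set.subset_union_right
      Set.subset_union_right⟩
    rw [Set.disjoint_union_left, Set.disjoint_union_right, Set.disjoint_union_right]
    exact ⟨⟨hFd k j hk hj hkj, (hBF j k (by omega) hk).symm⟩, hBF k j (by omega) hj,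
      (hBd k (by omega) j (by omega) hkj).1⟩
  have hUE : ∀ k j, k + 1 < P'.card → j < P'.card → k ≠ j →
      Disjoint (F k ∪ B (e k)) (B (e j)) ∧ Tch G (F k ∪ B (e k)) (B (e j)) := by
    intro k j hk hj hkj
    refine ⟨?_, (hBd k (by omega) j (by omega) hkj).2.mono Set.subset_union_right
      Set.Subset.rfl⟩
    rw [Set.disjoint_union_left]
    exact ⟨(hBF j k (by omega) hk).symm, (hBd k (by omega) j (by omega) hkj).1⟩
  have hUc : ∀ k, k + 1 < P'.card → Conn G (F k ∪ B (e k)) := fun k hk =>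
    (hFc k hk).union (hBc k (by omega)) (Or.inr (hFB k hk))
  have hYU : ∀ k j, k + 1 < P'.card → j + 1 < P'.card → k ≠ j →
      Disjoint (F k) (F j ∪ B (e j)) ∧ (Tch G (F k) (F j ∪ B (e j)) ↔ k + 1 = j ∨ j + 1 = k) := by
    intro k j hk hj hkj
    constructor
    · rw [Set.disjoint_union_right]
      exact ⟨hFd k j hk hj hkj, (hBF j k (by omega) hk).symm⟩
    · constructor
      · rintro ⟨x, hx, y, hy | hy, hxy⟩
        · by_contra hcon
          push Not at hcon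
          exact hFn k j hk hj hkj hcon.1 hcon.2 ⟨x, hx, y, hy, hxy⟩
        · exact absurd ⟨x, hx, y, hy, hxy⟩ (hFBn k j hk (by omega) hkj)
      · rintro (rfl | rfl)
        · exact (hFt k (by omega)).mono Set.Subset.rfl Set.subset_union_left
        · exact (hFt j (by omega)).symm.mono Set.Subset.rfl Set.subset_union_left
  apply q1bAux.assemble (P := fun k => F (3 * k) ∪ B (e (3 * k)))
    (Q := fun k => F (3 * k + 2) ∪ B (e (3 * k + 2))) (E := fun i => B (e (3 * m + i)))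
    (Y := fun k => F (3 * k + 1)) hDD
  · intro k hk
    exact hUc _ (by omega)
  · intro k hk
    exact hUc _ (by omega)
  · intro k hk
    exact hBc _ (by omega)
  · intro k hk
    exact hFc _ (by omega)
  · intro k hk j hj hkj
    exact hU _ _ (by omega) (by omega) (by omega)
  · intro k hk j hj
    exact hU _ _ (by omega) (by omega) (by omega)
  · intro k hk j hj
    exact hUE _ _ (by omega) (by omega) (by omega)
  · intro k hk j hj hkj
    exact hU _ _ (by omega) (by omega) (by omega)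
  · intro k hk j hj
    exact hUE _ _ (by omega) (by omega) (by omega)
  · intro k hk j hj hkj
    exact hBd _ (by omega) _ (by omega) (by omega)
  · intro k hk j hj
    obtain ⟨g1, g2⟩ := hYU (3 * k + 1) (3 * j) (by omega) (by omega) (by omega)
    refine ⟨g1, ?_⟩
    rw [g2]
    omega
  · intro k hk j hj
    obtain ⟨g1, g2⟩ := hYU (3 * k + 1) (3 * j + 2) (by omega) (by omega) (by omega)
    refine ⟨g1, ?_⟩
    rw [g2]
    omega
  · intro k hk j hj
    exact ⟨(hBF _ _ (by omega) (by omega)).symm, hFBn _ _ (by omega) (by omega) (by omega)⟩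
  · intro k hk j hj hkj
    exact ⟨hFd _ _ (by omega) (by omega) (by omega), hFn _ _ (by omega) (by omega) (by omega)
      (by omega) (by omega)⟩

theorem pt_disj (hp : IndP G Set.univ l s) {x a b : ℕ} (hx : x < l) (hb : b ≤ l)
    (h : x < a ∨ b ≤ x) : Disjoint ({s x} : Set V) (seg s a b) := by
  rw [Set.disjoint_left]
  rintro v hv ⟨i, h1, h2, h3⟩
  rw [Set.mem_singleton_iff] at hv
  rw [hv] at h3
  have := hp.2.1 i (by omega) x hx h3
  omega

theorem pt_ntch (hp : IndP G Set.univ l s) {x a b : ℕ} (hx : x < l) (hb : b ≤ l)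
    (h : x + 1 < a ∨ b < x) : ¬ Tch G {s x} (seg s a b) := by
  rintro ⟨_, rfl, _, ⟨j, h3, h4, rfl⟩, h5⟩
  have := (hp.2.2 x hx j (by omega)).mp h5
  omega

theorem pt_tch (hp : IndP G Set.univ l s) {x a b : ℕ} (hx : x < l) (hab : a < b) (hb : b ≤ l)
    (h : x + 1 = a ∨ b = x) : Tch G {s x} (seg s a b) := by
  rcases h with h | h
  · exact ⟨s x, rfl, s a, ⟨a, le_rfl, hab, rfl⟩, (hp.2.2 x hx a (by omega)).mpr (Or.inr h.symm)⟩
  · refine ⟨s x, rfl, s (b - 1), ⟨b - 1, by omega, by omega, rfl⟩, ?_⟩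
    exact (hp.2.2 x hx (b - 1) (by omega)).mpr (Or.inl (by omega))

/-- a point touching `B j` and a side of it with many contacts -/
theorem side {B : ℕ → Set V} {P' : Finset ℕ} {c C a b : ℕ} (hb : b ≤ l)
    (hT : ∀ c ∈ P', Tch G (seg s a b) (B c)) (hn : ∀ i < l, (tau G P' B {s i}).card ≤ c)
    (hcard : 2 * C + c ≤ P'.card) (hC : 1 ≤ C) {j : ℕ} (hj : j ∈ P') :
    ∃ x u v : ℕ, a ≤ x ∧ x < b ∧ Tch G {s x} (B j) ∧ a ≤ u ∧ u < v ∧ v ≤ b ∧
      (x + 1 = u ∨ v = x) ∧ C ≤ (tau G P' B (seg s u v)).card := by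
  classical
  obtain ⟨_, ⟨x, h1, h2, rfl⟩, y, hy, h3⟩ := hT j hj
  have hcov : P' ⊆ (tau G P' B (seg s a x) ∪ tau G P' B (seg s (x + 1) b)) ∪ tau G P' B {s x} := by
    intro i hi
    obtain ⟨_, ⟨k, g1, g2, rfl⟩, z, hz, g3⟩ := hT i hi
    rw [Finset.mem_union, Finset.mem_union, mem_tau, mem_tau, mem_tau]
    rcases Nat.lt_trichotomy k x with h | h | h
    · exact Or.inl (Or.inl ⟨hi, s k, ⟨k, g1, h, rfl⟩, z, hz, g3⟩)
    · exact Or.inr ⟨hi, s k, by rw [h]; rfl, z, hz, g3⟩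
    · exact Or.inl (Or.inr ⟨hi, s k, ⟨k, h, g2, rfl⟩, z, hz, g3⟩)
  have e1 := Finset.card_le_card hcov
  have e2 := Finset.card_union_le (tau G P' B (seg s a x) ∪ tau G P' B (seg s (x + 1) b))
    (tau G P' B {s x})
  have e3 := Finset.card_union_le (tau G P' B (seg s a x)) (tau G P' B (seg s (x + 1) b))
  have e4 := hn x (by omega)
  have hpos : ∀ u v, C ≤ (tau G P' B (seg s u v)).card → u < v := by
    intro u v h
    obtain ⟨i, hi⟩ := Finset.card_pos.1 (show 0 < (tau G P' B (seg s u v)).card by omega)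
    obtain ⟨_, _, ⟨k, g1, g2, _⟩, _⟩ := mem_tau.1 hi
    omega
  by_cases h : C ≤ (tau G P' B (seg s a x)).card
  · exact ⟨x, a, x, h1, h2, ⟨s x, rfl, y, hy, h3⟩, le_rfl, hpos _ _ h, h2.le, Or.inr rfl, h⟩
  · have h' : C ≤ (tau G P' B (seg s (x + 1) b)).card := by omega
    exact ⟨x, x + 1, b, h1, h2, ⟨s x, rfl, y, hy, h3⟩, by omega, hpos _ _ h', le_rfl,
      Or.inl rfl, h'⟩

/-- the case of many disjoint subpaths -/
theorem case2 (hDD : S_DDd) (hDig : S_Dig) {N m c : ℕ} {B : ℕ → Set V} {P : Finset ℕ}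
    (hp : IndP G Set.univ l s) (hM : Mdl G P B)
    (hB : ∀ j ∈ P, Disjoint (B j) (seg s 0 l)) {P' : Finset ℕ} (hP' : P' ⊆ P)
    (hn : ∀ i < l, (tau G P B {s i}).card ≤ c)
    (hcard : N + (2 * (m * c) + 1) * m + 2 * (m + m * c + m + 1) + c ≤ P'.card) {a b : ℕ → ℕ}
    (h1 : ∀ i < m, b i ≤ l ∧ ∀ c ∈ P', Tch G (seg s (a i) (b i)) (B c))
    (h2 : ∀ i < m, ∀ j < m, i < j → b i < a j) : IMS (DD N m) G Set.univ := by
  classical
  have hn' : ∀ i < l, (tau G P' B {s i}).card ≤ c := by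
    intro i hi
    refine le_trans (Finset.card_le_card ?_) (hn i hi)
    intro j hj
    rw [mem_tau] at hj ⊢
    exact ⟨hP' hj.1, hj.2⟩
  have hMc : ∀ j ∈ P', Conn G (B j) := fun j hj => hM.1 _ (hP' hj)
  have hMd : ∀ j ∈ P', ∀ k ∈ P', j ≠ k → Disjoint (B j) (B k) ∧ Tch G (B j) (B k) :=
    fun j hj k hk h => hM.2 _ (hP' hj) _ (hP' hk) h
  have hex : ∀ k < m, ∀ j ∈ P', ∃ x u v : ℕ, a k ≤ x ∧ x < b k ∧ Tch G {s x} (B j) ∧ a k ≤ u ∧
      u < v ∧ v ≤ b k ∧ (x + 1 = u ∨ v = x) ∧ m + m * c + m + 1 ≤ (tau G P' B (seg s u v)).card :=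
    fun k hk j hj => side (h1 k hk).1 (h1 k hk).2 hn' (by omega) (by omega) hj
  choose! X U W hX1 hX2 hX3 hU1 hU2 hU3 hU4 hU5 using hex
  have hXl : ∀ k < m, ∀ j ∈ P', X k j < l := fun k hk j hj => by
    have g1 := hX2 k hk j hj
    have g2 := (h1 k hk).1
    omega
  obtain ⟨T, hTP, hTcard, hT⟩ := hDig ℕ P' (fun j j' => ∃ k < m, j' ∈ tau G P' B {s (X k j)})
    (m * c) m (by
      intro j hj
      refine ⟨(Finset.range m).biUnion (fun k => tau G P' B {s (X k j)}), ?_, fun y _ _ h => ?_⟩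
      · have g1 : ((Finset.range m).biUnion (fun k => tau G P' B {s (X k j)})).card
            ≤ (Finset.range m).card * c :=
          Finset.card_biUnion_le_card_mul _ _ _
            (fun k hk => hn' _ (hXl k (Finset.mem_range.mp hk) j hj))
        rwa [Finset.card_range] at g1
      · obtain ⟨k, hk, h⟩ := h
        exact Finset.mem_biUnion.mpr ⟨k, Finset.mem_range.mpr hk, h⟩) (by omega)
  obtain ⟨t, ht, htinj⟩ := q1bAux.enum T m hTcard.ge
  have htP : ∀ k < m, t k ∈ P' := fun k hk => hTP (ht k hk)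
  obtain ⟨x, hx⟩ : ∃ x : ℕ → ℕ, ∀ k, x k = X k (t k) := ⟨_, fun _ => rfl⟩
  obtain ⟨u, hu⟩ : ∃ u : ℕ → ℕ, ∀ k, u k = U k (t k) := ⟨_, fun _ => rfl⟩
  obtain ⟨w, hw⟩ : ∃ w : ℕ → ℕ, ∀ k, w k = W k (t k) := ⟨_, fun _ => rfl⟩
  have hprop : ∀ k < m, a k ≤ x k ∧ x k < b k ∧ Tch G {s (x k)} (B (t k)) ∧ a k ≤ u k ∧
      u k < w k ∧ w k ≤ b k ∧ (x k + 1 = u k ∨ w k = x k) ∧
      m + m * c + m + 1 ≤ (tau G P' B (seg s (u k) (w k))).card ∧ b k ≤ l := by
    intro k hk
    rw [hx, hu, hw]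
    exact ⟨hX1 k hk _ (htP k hk), hX2 k hk _ (htP k hk), hX3 k hk _ (htP k hk),
      hU1 k hk _ (htP k hk), hU2 k hk _ (htP k hk), hU3 k hk _ (htP k hk), hU4 k hk _ (htP k hk),
      hU5 k hk _ (htP k hk), (h1 k hk).1⟩
  have hntt : ∀ k < m, ∀ j < m, k ≠ j → ¬ Tch G {s (x k)} (B (t j)) := by
    intro k hk j hj hkj h
    have hne : t k ≠ t j := fun h => hkj (htinj k hk j hj h)
    refine hT _ (ht k hk) _ (ht j hj) hne ⟨k, hk, mem_tau.2 ⟨htP j hj, ?_⟩⟩
    rw [← hx]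
    exact h
  -- the forbidden elements
  obtain ⟨F, hFdef⟩ : ∃ F : Finset ℕ, F = T ∪ (Finset.range m).biUnion
      (fun k => tau G P' B {s (x k)}) := ⟨_, rfl⟩
  have hFcard : F.card ≤ m + m * c := by
    have g1 := Finset.card_union_le T ((Finset.range m).biUnion (fun k => tau G P' B {s (x k)}))
    have g4 : ((Finset.range m).biUnion (fun k => tau G P' B {s (x k)})).card
        ≤ (Finset.range m).card * c :=
      Finset.card_biUnion_le_card_mul _ _ _ (fun k hk => hn' _ (by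
        obtain ⟨_, e2, _, _, _, _, _, _, e9⟩ := hprop k (Finset.mem_range.mp hk)
        omega))
    rw [Finset.card_range] at g4
    rw [hFdef]
    omega
  have hF : ∀ a, a ∈ P' → a ∉ F → a ∉ T ∧ ∀ k < m, ¬ Tch G {s (x k)} (B a) := by
    intro a haP ha
    rw [hFdef, Finset.mem_union, not_or] at ha
    exact ⟨ha.1, fun k hk h => ha.2 (Finset.mem_biUnion.mpr ⟨k, Finset.mem_range.mpr hk,
      mem_tau.2 ⟨haP, h⟩⟩)⟩
  obtain ⟨g, hg, hginj⟩ := u7Aux.greedy (fun k => tau G P' B (seg s (u k) (w k))) F m m le_rfl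
    (fun k hk => by
      have := (hprop k hk).2.2.2.2.2.2.2.1
      show F.card + m ≤ (tau G P' B (seg s (u k) (w k))).card
      omega)
  have hg1 : ∀ k < m, g k ∈ P' ∧ Tch G (seg s (u k) (w k)) (B (g k)) :=
    fun k hk => mem_tau.mp (hg k hk).1
  have hg2 : ∀ k < m, g k ∉ T ∧ ∀ j < m, ¬ Tch G {s (x j)} (B (g k)) :=
    fun k hk => hF _ (hg1 k hk).1 (hg k hk).2
  obtain ⟨e, he, heinj⟩ := q1bAux.enum ((P' \ F) \ (Finset.range m).image g) N (by
    have g1 := Finset.le_card_sdiff ((Finset.range m).image g) (P' \ F)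
    have g2 := Finset.le_card_sdiff F P'
    have g4 : ((Finset.range m).image g).card ≤ m := by
      simpa using Finset.card_image_le (s := Finset.range m) (f := g)
    omega)
  have he1 : ∀ z < N, e z ∈ P' ∧ e z ∉ F ∧ ∀ k < m, g k ≠ e z := by
    intro z hz
    have h1 := he z hz
    rw [Finset.mem_sdiff, Finset.mem_sdiff] at h1
    exact ⟨h1.1.1, h1.1.2, fun k hk h =>
      h1.2 (Finset.mem_image.mpr ⟨k, Finset.mem_range.mpr hk, h⟩)⟩
  have he2 : ∀ z < N, e z ∉ T ∧ ∀ j < m, ¬ Tch G {s (x j)} (B (e z)) :=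
    fun z hz => hF _ (he1 z hz).1 (he1 z hz).2.1
  have htg : ∀ k < m, ∀ j < m, t k ≠ g j := fun k hk j hj h => (hg2 j hj).1 (h ▸ ht k hk)
  have hte : ∀ k < m, ∀ z < N, t k ≠ e z := fun k hk z hz h => (he2 z hz).1 (h ▸ ht k hk)
  have hsub : ∀ k < m, seg s (u k) (w k) ⊆ seg s 0 l := fun k hk =>
    seg_sub (Nat.zero_le _) (by
      obtain ⟨_, _, _, _, _, e6, _, _, e9⟩ := hprop k hk
      omega)
  have hBW : ∀ j ∈ P', ∀ k < m, Disjoint (B j) (seg s (u k) (w k)) := fun j hj k hk =>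
    (hB _ (hP' hj)).mono_right (hsub k hk)
  have hBx : ∀ j ∈ P', ∀ k < m, Disjoint ({s (x k)} : Set V) (B j) := by
    intro j hj k hk
    refine ((hB _ (hP' hj)).mono_right ?_).symm
    rintro v rfl
    obtain ⟨_, e2, _, _, _, _, _, _, e9⟩ := hprop k hk
    exact ⟨x k, Nat.zero_le _, by omega, rfl⟩
  have hsep : ∀ k < m, ∀ j < m, k ≠ j → b k < a j ∨ b j < a k := by
    intro k hk j hj hkj
    rcases Nat.lt_or_gt_of_ne hkj with h | h
    · exact Or.inl (h2 k hk j hj h)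
    · exact Or.inr (h2 j hj k hk h)
  apply q1bAux.assemble (P := fun k => seg s (u k) (w k) ∪ B (g k)) (Q := fun k => B (t k))
    (E := fun i => B (e i)) (Y := fun k => {s (x k)}) hDD
  · intro k hk
    obtain ⟨e1, e2, e3, e4, e5, e6, e7, e8, e9⟩ := hprop k hk
    exact (seg_conn hp _ _ e5 (by omega)).union (hMc _ (hg1 k hk).1) (Or.inr (hg1 k hk).2)
  · intro k hk
    exact hMc _ (htP k hk)
  · intro z hz
    exact hMc _ (he1 z hz).1
  · intro k hk
    exact Conn.singleton G _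
  · -- P P
    intro k hk j hj hkj
    have hne : g k ≠ g j := fun h => hkj (hginj k hk j hj h)
    have hd := hMd _ (hg1 k hk).1 _ (hg1 j hj).1 hne
    refine ⟨?_, hd.2.mono Set.subset_union_right Set.subset_union_right⟩
    rw [Set.disjoint_union_left, Set.disjoint_union_right, Set.disjoint_union_right]
    refine ⟨⟨?_, (hBW _ (hg1 j hj).1 k hk).symm⟩, hBW _ (hg1 k hk).1 j hj, hd.1⟩
    obtain ⟨e1, e2, e3, e4, e5, e6, e7, e8, e9⟩ := hprop k hk
    obtain ⟨f1, f2, f3, f4, f5, f6, f7, f8, f9⟩ := hprop j hj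
    rcases hsep k hk j hj hkj with h | h
    · exact seg_disj hp (by omega) (by omega) (by omega)
    · exact (seg_disj hp (by omega) (by omega) (by omega)).symm
  · -- P Q
    intro k hk j hj
    have hd := hMd _ (hg1 k hk).1 _ (htP j hj) (Ne.symm (htg j hj k hk))
    refine ⟨?_, hd.2.mono Set.subset_union_right Set.Subset.rfl⟩
    rw [Set.disjoint_union_left]
    exact ⟨(hBW _ (htP j hj) k hk).symm, hd.1⟩
  · -- P E
    intro k hk z hz
    have hd := hMd _ (hg1 k hk).1 _ (he1 z hz).1 ((he1 z hz).2.2 k hk)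
    refine ⟨?_, hd.2.mono Set.subset_union_right Set.Subset.rfl⟩
    rw [Set.disjoint_union_left]
    exact ⟨(hBW _ (he1 z hz).1 k hk).symm, hd.1⟩
  · -- Q Q
    intro k hk j hj hkj
    exact hMd _ (htP k hk) _ (htP j hj) (fun h => hkj (htinj k hk j hj h))
  · -- Q E
    intro k hk z hz
    exact hMd _ (htP k hk) _ (he1 z hz).1 (hte k hk z hz)
  · -- E E
    intro z hz z' hz' hne
    exact hMd _ (he1 z hz).1 _ (he1 z' hz').1 (fun h => hne (heinj z hz z' hz' h))
  · -- Y P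
    intro k hk j hj
    obtain ⟨e1, e2, e3, e4, e5, e6, e7, e8, e9⟩ := hprop k hk
    obtain ⟨f1, f2, f3, f4, f5, f6, f7, f8, f9⟩ := hprop j hj
    by_cases hkj : k = j
    · subst hkj
      constructor
      · rw [Set.disjoint_union_right]
        exact ⟨pt_disj hp (by omega) (by omega) (by omega), hBx _ (hg1 k hk).1 k hk⟩
      · exact iff_of_true ((pt_tch hp (by omega) e5 (by omega) e7).mono Set.Subset.rfl
          Set.subset_union_left) rfl
    · have hs := hsep k hk j hj hkj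
      constructor
      · rw [Set.disjoint_union_right]
        exact ⟨pt_disj hp (by omega) (by omega) (by omega), hBx _ (hg1 j hj).1 k hk⟩
      · refine iff_of_false ?_ hkj
        rintro ⟨y, hy, z, hz | hz, hyz⟩
        · exact pt_ntch hp (show x k < l by omega) (show w j ≤ l by omega) (by omega)
            ⟨y, hy, z, hz, hyz⟩
        · exact (hg2 j hj).2 k hk ⟨y, hy, z, hz, hyz⟩
  · -- Y Q
    intro k hk j hj
    refine ⟨hBx _ (htP j hj) k hk, ?_⟩
    by_cases hkj : k = j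
    · subst hkj
      exact iff_of_true (hprop k hk).2.2.1 rfl
    · exact iff_of_false (hntt k hk j hj hkj) hkj
  · -- Y E
    intro k hk z hz
    exact ⟨hBx _ (he1 z hz).1 k hk, (he2 z hz).2 k hk⟩
  · -- Y Y
    intro k hk j hj hkj
    obtain ⟨e1, e2, e3, e4, e5, e6, e7, e8, e9⟩ := hprop k hk
    obtain ⟨f1, f2, f3, f4, f5, f6, f7, f8, f9⟩ := hprop j hj
    have hs := hsep k hk j hj hkj
    constructor
    · rw [Set.disjoint_singleton]
      intro h
      have := hp.2.1 _ (by omega) _ (by omega) h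
      omega
    · rintro ⟨_, rfl, _, rfl, h⟩
      have := (hp.2.2 (x k) (by omega) (x j) (by omega)).mp h
      omega

end v5Aux

open v5Aux in
/-- **V5** -/
theorem v5 (hA : S_V5a) (hDig : S_Dig) (hDD : S_DDd) : S_V5 := by
  classical
  intro N m c
  obtain ⟨g, hg⟩ := hA c m
    ((3 * m + N + 1) + (N + (2 * (m * c) + 1) * m + 2 * (m + m * c + m + 1) + c))
  refine ⟨g, fun V _ G l s B P hp hM hB hn hcard => ?_⟩
  obtain ⟨P', hP', hc, hor⟩ := hg V G l s B P (fun j hj => (hB j hj).2) hn hcard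
  rcases hor with ⟨a, b, h1, h2⟩ | ⟨a₀, b₀, lo, hi, h0, h1, h2⟩
  · exact case2 hDD hDig hp hM (fun j hj => (hB j hj).1) hP' hn (by omega) h1 h2
  · exact case1 hDD hp hM (fun j hj => (hB j hj).1) hP' (by omega) h0 h1 h2

end Pool.Agent.MPd439b2.KS
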