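import Pool.Agent.Lib.MP_d439b2_co.KS.SpecV

/-!
# MP_d439b2_co, Theorem K, V5a: contact intervals of sets on a path
-/

set_option autoImplicit false

namespace Pool.Agent.MPd439b2.KS

namespace v5aAux

/-- intervals: many pairwise disjoint ones or few points meeting all -/
theorem pierce (lo hi : ℕ → ℕ) : ∀ (q : ℕ) (P : Finset ℕ), (∀ c ∈ P, lo c ≤ hi c) →
    (∃ P' ⊆ P, P'.card = q ∧ ∀ c ∈ P', ∀ c' ∈ P', c ≠ c' → hi c < lo c' ∨ hi c' < lo c) ∨
    ∃ X : Finset ℕ, X.card < q ∧ ∀ c ∈ P, ∃ x ∈ X, lo c ≤ x ∧ x ≤ hi c := by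
  classical
  intro q
  induction q with
  | zero =>
    intro P _
    left
    exact ⟨∅, Finset.empty_subset _, rfl, fun c hc => absurd hc (Finset.notMem_empty c)⟩
  | succ q ih =>
    intro P hP
    rcases P.eq_empty_or_nonempty with rfl | hne
    · right
      exact ⟨∅, by simp, fun c hc => absurd hc (Finset.notMem_empty c)⟩
    · obtain ⟨c₀, hc₀, hmin⟩ := Finset.exists_min_image P hi hne
      rcases ih (P.filter fun c => hi c₀ < lo c)
        (fun c hc => hP c (Finset.mem_filter.1 hc).1) with ⟨P', hP', hcard, hdis⟩ | ⟨X, hX, hX'⟩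
      · left
        have h1 : ∀ c ∈ P', c ∈ P ∧ hi c₀ < lo c := fun c hc => Finset.mem_filter.1 (hP' hc)
        have h2 : c₀ ∉ P' := fun h => by
          have h3 := (h1 c₀ h).2
          have h4 := hP c₀ hc₀
          omega
        refine ⟨insert c₀ P', ?_, ?_, ?_⟩
        · intro c hc
          rcases Finset.mem_insert.1 hc with rfl | hc
          · exact hc₀
          · exact (h1 c hc).1
        · rw [Finset.card_insert_of_notMem h2, hcard]
        · intro c hc c' hc' hne
          rcases Finset.mem_insert.1 hc with e1 | e1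
          · rcases Finset.mem_insert.1 hc' with e2 | e2
            · exact absurd (e1.trans e2.symm) hne
            · rw [e1]
              exact Or.inl (h1 c' e2).2
          · rcases Finset.mem_insert.1 hc' with e2 | e2
            · rw [e2]
              exact Or.inr (h1 c e1).2
            · exact hdis c e1 c' e2 hne
      · right
        refine ⟨insert (hi c₀) X, ?_, ?_⟩
        · have := Finset.card_insert_le (hi c₀) X
          omega
        · intro c hc
          by_cases h : hi c₀ < lo c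
          · obtain ⟨x, hx, h1⟩ := hX' c (Finset.mem_filter.2 ⟨hc, h⟩)
            exact ⟨x, Finset.mem_insert_of_mem hx, h1⟩
          · exact ⟨hi c₀, Finset.mem_insert_self _ _, by omega, hmin c hc⟩

open Classical in
theorem key (n q : ℕ) : ∀ M : ℕ, ∃ p : ℕ, ∀ (a l : ℕ) (R : ℕ → ℕ → Prop) (P : Finset ℕ),
    (∀ c ∈ P, ∃ i, a ≤ i ∧ i < l ∧ R i c) →
    (∀ i < l, (P.filter fun c => R i c).card ≤ n) → p ≤ P.card →
    ∃ P' ⊆ P, P'.card = q ∧
      ((∃ f g : ℕ → ℕ, (∀ i < M, a ≤ f i ∧ g i ≤ l ∧ ∀ c ∈ P', ∃ k, f i ≤ k ∧ k < g i ∧ R k c) ∧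
          ∀ i < M, ∀ j < M, i < j → g i < f j) ∨
        ∃ (a₀ b₀ : ℕ) (lo hi : ℕ → ℕ), b₀ ≤ l ∧
          (∀ c ∈ P', a₀ ≤ lo c ∧ lo c ≤ hi c ∧ hi c < b₀ ∧
            (∃ i, lo c ≤ i ∧ i ≤ hi c ∧ R i c) ∧
            ∀ i, a₀ ≤ i → i < b₀ → R i c → lo c ≤ i ∧ i ≤ hi c) ∧
          ∀ c ∈ P', ∀ c' ∈ P', c ≠ c' → hi c < lo c' ∨ hi c' < lo c) := by
  intro M
  induction M with
  | zero =>
    refine ⟨q, fun a l R P _ _ hp => ?_⟩
    obtain ⟨P', hP', hcard⟩ := Finset.exists_subset_card_eq hp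
    exact ⟨P', hP', hcard, Or.inl ⟨fun _ => 0, fun _ => 0, fun i hi => absurd hi (Nat.not_lt_zero i),
      fun i hi => absurd hi (Nat.not_lt_zero i)⟩⟩
  | succ M ih =>
    obtain ⟨p₀, hp₀⟩ := ih
    refine ⟨q * (p₀ + n + 1) + 1, fun a l R P hc hn hp => ?_⟩
    -- the first and the last contact
    have hex : ∀ c, ∃ lo hi : ℕ, c ∈ P → (a ≤ lo ∧ lo ≤ hi ∧ hi < l ∧ R lo c ∧ R hi c ∧
        ∀ i, a ≤ i → i < l → R i c → lo ≤ i ∧ i ≤ hi) := by
      intro c
      by_cases hcP : c ∈ P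
      · obtain ⟨i₀, hi₀, hi₀', hR₀⟩ := hc c hcP
        set S : Finset ℕ := (Finset.range l).filter fun i => a ≤ i ∧ R i c with hS
        have hmem : ∀ i, i ∈ S ↔ i < l ∧ a ≤ i ∧ R i c := by
          intro i
          rw [hS, Finset.mem_filter, Finset.mem_range]
        have hSne : S.Nonempty := ⟨i₀, (hmem i₀).2 ⟨hi₀', hi₀, hR₀⟩⟩
        have h1 := (hmem _).1 (S.min'_mem hSne)
        have h2 := (hmem _).1 (S.max'_mem hSne)
        refine ⟨S.min' hSne, S.max' hSne, fun _ => ⟨h1.2.1, ?_, h2.1, h1.2.2, h2.2.2, ?_⟩⟩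
        · exact S.min'_le _ (S.max'_mem hSne)
        · intro i hi hi' hRi
          have h3 : i ∈ S := (hmem i).2 ⟨hi', hi, hRi⟩
          exact ⟨S.min'_le _ h3, S.le_max' _ h3⟩
      · exact ⟨0, 0, fun h => absurd h hcP⟩
    choose lo hi hlh using hex
    rcases pierce lo hi q P (fun c hc' => (hlh c hc').2.1) with ⟨P', hP', hcard, hdis⟩ | ⟨X, hX, hX'⟩
    · refine ⟨P', hP', hcard, Or.inr ⟨a, l, lo, hi, le_rfl, ?_, hdis⟩⟩
      intro c hc'
      obtain ⟨h1, h2, h3, h4, h5, h6⟩ := hlh c (hP' hc')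
      exact ⟨h1, h2, h3, ⟨lo c, le_rfl, h2, h4⟩, h6⟩
    · -- a point in many intervals
      obtain ⟨x, hx, hbig⟩ : ∃ x ∈ X, p₀ + n + 1 ≤ (P.filter fun c => lo c ≤ x ∧ x ≤ hi c).card := by
        by_contra hcon
        push Not at hcon
        have h1 : P ⊆ X.biUnion fun x => P.filter fun c => lo c ≤ x ∧ x ≤ hi c := by
          intro c hc'
          obtain ⟨x, hx, h2⟩ := hX' c hc'
          exact Finset.mem_biUnion.2 ⟨x, hx, Finset.mem_filter.2 ⟨hc', h2⟩⟩
        have h2 := Finset.card_le_card h1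
        have h3 : (X.biUnion fun x => P.filter fun c => lo c ≤ x ∧ x ≤ hi c).card
            ≤ X.card * (p₀ + n + 1) :=
          Finset.card_biUnion_le_card_mul _ _ _ fun x hx => (hcon x hx).le
        have h4 : X.card * (p₀ + n + 1) ≤ q * (p₀ + n + 1) := Nat.mul_le_mul_right _ hX.le
        omega
      obtain ⟨hax, hxl⟩ : a ≤ x ∧ x < l := by
        obtain ⟨c, hc'⟩ := Finset.card_pos.1 (show 0 < (P.filter fun c => lo c ≤ x ∧ x ≤ hi c).card by
          omega)
        obtain ⟨h1, h2⟩ := Finset.mem_filter.1 hc'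
        have h3 := (hlh c h1).1
        have h4 := (hlh c h1).2.2.1
        omega
      set P₁ : Finset ℕ := (P.filter fun c => lo c ≤ x ∧ x ≤ hi c) \ P.filter fun c => R x c
        with hP₁
      have hmem : ∀ c ∈ P₁, c ∈ P ∧ a ≤ lo c ∧ lo c < x ∧ x < hi c ∧ hi c < l ∧ R (lo c) c ∧
          R (hi c) c := by
        intro c hc'
        rw [hP₁, Finset.mem_sdiff, Finset.mem_filter, Finset.mem_filter] at hc'
        obtain ⟨⟨h1, h2, h3⟩, h4⟩ := hc'
        obtain ⟨g1, g2, g3, g4, g5, g6⟩ := hlh c h1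
        have h5 : ¬ R x c := fun h => h4 ⟨h1, h⟩
        have h6 : lo c ≠ x := fun h => h5 (h ▸ g4)
        have h7 : hi c ≠ x := fun h => h5 (h ▸ g5)
        exact ⟨h1, g1, by omega, by omega, g3, g4, g5⟩
      have hcard₁ : p₀ ≤ P₁.card := by
        have h1 := Finset.le_card_sdiff (P.filter fun c => R x c)
          (P.filter fun c => lo c ≤ x ∧ x ≤ hi c)
        have h2 := hn x hxl
        rw [← hP₁] at h1
        omega
      obtain ⟨P', hP', hcard, hor⟩ := hp₀ (x + 1) l R P₁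
        (fun c hc' => ⟨hi c, (hmem c hc').2.2.2.1, (hmem c hc').2.2.2.2.1,
          (hmem c hc').2.2.2.2.2.2⟩)
        (fun i hi' => (Finset.card_le_card (Finset.filter_subset_filter _
          (fun c hc' => (hmem c hc').1))).trans (hn i hi')) hcard₁
      refine ⟨P', fun c hc' => (hmem c (hP' hc')).1, hcard, ?_⟩
      rcases hor with ⟨f, g, hfg, hord⟩ | h
      · left
        refine ⟨fun i => if i = 0 then a else f (i - 1), fun i => if i = 0 then x else g (i - 1),
          ?_, ?_⟩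
        · intro i hi'
          by_cases h0 : i = 0
          · simp only [h0, if_true]
            refine ⟨le_rfl, hxl.le, fun c hc' => ?_⟩
            obtain ⟨h1, h2, h3, h4, h5, h6, h7⟩ := hmem c (hP' hc')
            exact ⟨lo c, h2, h3, h6⟩
          · simp only [h0, if_false]
            obtain ⟨h1, h2, h3⟩ := hfg (i - 1) (by omega)
            exact ⟨by omega, h2, h3⟩
        · intro i hi' j hj hij
          have hj0 : j ≠ 0 := by omega
          by_cases h0 : i = 0
          · simp only [h0, if_true, hj0, if_false]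
            have := (hfg (j - 1) (by omega)).1
            omega
          · simp only [h0, hj0, if_false]
            exact hord (i - 1) (by omega) (j - 1) (by omega) (by omega)
      · right
        exact h

end v5aAux

open v5aAux in
/-- **V5a** -/
theorem v5a : S_V5a := by
  classical
  intro n M q
  obtain ⟨p, hp⟩ := key n q M
  refine ⟨p, fun V _ G l s B P hT hn hcard => ?_⟩
  have hR : ∀ (a b c : ℕ), Tch G (seg s a b) (B c) ↔ ∃ k, a ≤ k ∧ k < b ∧ Tch G {s k} (B c) := by
    intro a b c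
    constructor
    · rintro ⟨_, ⟨k, h1, h2, rfl⟩, y, hy, h3⟩
      exact ⟨k, h1, h2, s k, rfl, y, hy, h3⟩
    · rintro ⟨k, h1, h2, _, rfl, y, hy, h3⟩
      exact ⟨s k, ⟨k, h1, h2, rfl⟩, y, hy, h3⟩
  have hfil : ∀ i < l, (P.filter fun c => Tch G {s i} (B c)).card ≤ n := by
    intro i hi
    refine le_trans (Finset.card_le_card ?_) (hn i hi)
    intro c hc
    rw [Finset.mem_filter] at hc
    rw [mem_tau]
    exact hc
  obtain ⟨P', hP', hc, hor⟩ := hp 0 l (fun i c => Tch G {s i} (B c)) P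
    (fun c hc => (hR 0 l c).1 (hT c hc)) hfil hcard
  refine ⟨P', hP', hc, ?_⟩
  rcases hor with ⟨f, g, hfg, hord⟩ | h
  · left
    exact ⟨f, g, fun i hi => ⟨(hfg i hi).2.1, fun c hc => (hR _ _ c).2 ((hfg i hi).2.2 c hc)⟩, hord⟩
  · right
    exact h

end Pool.Agent.MPd439b2.KS
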