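import Pool.Agent.Lib.MP_d439b2_co.KS.SpecV

/-!
# MP_d439b2_co, Theorem K, V6 (Lemma W): a connected set of light vertices is light
-/

set_option autoImplicit false

namespace Pool.Agent.MPd439b2.KS

namespace v6Aux

/-- a vertex of `Q` is heavy -/
theorem hv_of_mem {V : Type} {G : SimpleGraph V} {Q : Set V} {x : V} (c : ℕ) (hx : x ∈ Q) :
    Hv G Q c {x} := by
  intro F _ hF
  exact ⟨{x}, Conn.singleton G x, hF.symm, ⟨x, rfl, rfl⟩, ⟨x, rfl, hx⟩⟩

/-- a small set misses one of `c` pairwise disjoint sets -/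
theorem exists_disj {V : Type} [Finite V] {c : ℕ} {Z : ℕ → Set V} {F : Set V} (hF : F.ncard < c)
    (hZ : ∀ i < c, ∀ j < c, i ≠ j → Disjoint (Z i) (Z j)) : ∃ i < c, Disjoint (Z i) F := by
  classical
  by_contra hcon
  push Not at hcon
  have h1 : ∀ i : Fin c, ∃ f, f ∈ Z i.val ∧ f ∈ F := fun i => by
    have h2 := hcon i.val i.isLt
    rw [Set.not_disjoint_iff] at h2
    exact h2
  choose f hf using h1
  have hinj : Function.Injective f := by
    intro i j hij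
    by_contra hne
    have h3 : i.val ≠ j.val := fun h => hne (Fin.ext h)
    have h4 := hZ i.val i.isLt j.val j.isLt h3
    exact Set.disjoint_left.mp h4 (hf i).1 (hij ▸ (hf j).1)
  have h5 : (Set.range f).ncard = c := by
    rw [Set.ncard_range_of_injective hinj, Nat.card_eq_fintype_card, Fintype.card_fin]
  have h6 : Set.range f ⊆ F := by
    rintro _ ⟨i, rfl⟩
    exact (hf i).2
  have h7 := Set.ncard_le_ncard h6 (Set.toFinite F)
  omega

/-- `c` disjoint connected sets touching `x` and meeting `Q` make `x` heavy -/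
theorem hv_of_fan {V : Type} [Finite V] {G : SimpleGraph V} {Q : Set V} {x : V} {c : ℕ}
    {Z : ℕ → Set V} (h1 : ∀ i < c, Conn G (Z i) ∧ x ∉ Z i ∧ Tch G {x} (Z i) ∧
      (Z i ∩ Q).Nonempty) (h2 : ∀ i < c, ∀ j < c, i ≠ j → Disjoint (Z i) (Z j)) :
    Hv G Q c {x} := by
  intro F hF hFx
  obtain ⟨i, hi, hd⟩ := exists_disj hF h2
  obtain ⟨hc, _, ht, q, hq⟩ := h1 i hi
  refine ⟨{x} ∪ Z i, (Conn.singleton G x).union hc (Or.inr ht), ?_, ⟨x, Or.inl rfl, rfl⟩,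
    ⟨q, Or.inr hq.1, hq.2⟩⟩
  rw [Set.disjoint_union_left]
  exact ⟨hFx.symm, hd⟩

/-- the hypothesis of `S_V3` for a heavy set -/
theorem link_of_hv {V : Type} [Finite V] {G : SimpleGraph V} {Q D : Set V} {p : ℕ}
    (hDQ : Disjoint D Q) (h : Hv G Q p D) (X : Set V) (hX : X.ncard < p) :
    ∃ C, Conn G C ∧ Disjoint C (X ∪ D) ∧ (C ∩ nb G D).Nonempty ∧ (C ∩ Q).Nonempty := by
  obtain ⟨C, hC, hCF, ⟨d, hd⟩, ⟨q, hq⟩⟩ := h (X \ D)
    (lt_of_le_of_lt (Set.ncard_le_ncard Set.sdiff_subset (Set.toFinite X)) hX)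
    Set.disjoint_sdiff_left
  have hqD : q ∉ D := fun h' => Set.disjoint_left.mp hDQ h' hq.2
  obtain ⟨C', hC', hqC', hconn, hnb⟩ := exists_comp G (A := C \ D) (v := q) ⟨hq.1, hqD⟩
  have hne : C' ≠ C := fun h' => (hC' (h' ▸ hd.1 : d ∈ C')).2 hd.2
  obtain ⟨b, hb, a, ha, hab⟩ := hC.2 C' (fun x hx => (hC' hx).1) ⟨q, hqC'⟩ hne
  have haD : a ∈ D := by
    by_contra h'
    exact hnb a ⟨ha.1, h'⟩ ⟨ha.2, b, hb, hab⟩
  refine ⟨C', hconn, ?_, ⟨b, hb, (hC' hb).2, a, haD, hab.symm⟩, ⟨q, hqC', hq.2⟩⟩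
  rw [Set.disjoint_left]
  intro x hx hx'
  rcases hx' with hx' | hx'
  · exact Set.disjoint_left.mp hCF (hC' hx).1 ⟨hx', (hC' hx).2⟩
  · exact (hC' hx).2 hx'

/-- in the absence of fans every vertex of the path touches few of the sets -/
theorem tau_le {V : Type} {G : SimpleGraph V} {Q D : Set V} {c : ℕ} (hNF : NoFan G Q D c)
    {J : Finset ℕ} {B : ℕ → Set V} (hB : ∀ j ∈ J, Conn G (B j) ∧ (B j ∩ Q).Nonempty)
    (hd : ∀ i ∈ J, ∀ j ∈ J, i ≠ j → Disjoint (B i) (B j)) {x : V} (hx : x ∈ D)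
    (hxB : ∀ j ∈ J, x ∉ B j) : (tau G J B {x}).card ≤ c := by
  classical
  by_contra hcon
  push Not at hcon
  set T := tau G J B {x} with hT
  let e : ℕ → ℕ := fun i => if h : i < T.card then T.orderEmbOfFin rfl ⟨i, h⟩ else 0
  have he : ∀ i < c, e i ∈ T := by
    intro i hi
    have h1 : i < T.card := by omega
    have h2 : e i = T.orderEmbOfFin rfl ⟨i, h1⟩ := dif_pos h1
    rw [h2]
    exact Finset.orderEmbOfFin_mem T rfl _
  have hinj : ∀ i < c, ∀ j < c, e i = e j → i = j := by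
    intro i hi j hj hij
    have h1 : i < T.card := by omega
    have h2 : j < T.card := by omega
    have h3 : e i = T.orderEmbOfFin rfl ⟨i, h1⟩ := dif_pos h1
    have h4 : e j = T.orderEmbOfFin rfl ⟨j, h2⟩ := dif_pos h2
    rw [h3, h4] at hij
    have h5 := (T.orderEmbOfFin rfl).injective hij
    exact congrArg Fin.val h5
  apply hNF x hx
  refine ⟨fun i => B (e i), fun i hi => ?_, fun i hi j hj hij => ?_⟩
  · have h1 := he i hi
    rw [hT, mem_tau] at h1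
    exact ⟨(hB _ h1.1).1, hxB _ h1.1, h1.2, (hB _ h1.1).2⟩
  · have h1 := he i hi
    have h2 := he j hj
    rw [hT, mem_tau] at h1 h2
    exact hd _ h1.1 _ h2.1 (fun h => hij (hinj i hi j hj h))

end v6Aux

open v6Aux in
/-- **V6.** Lemma W: a connected set of light vertices is light. -/
theorem v6 : (S_V3) → (S_V4) → (S_V5) → S_V6 := by
  intro hV3 hV4 hV5 N m c
  obtain ⟨g, hg⟩ := hV5 N m c
  obtain ⟨p, hp⟩ := hV4 c g
  refine ⟨p, 2 * p + 1, fun V _ G Q₁ Q₂ D hDD hBip hD hlight hheavy => hDD ?_⟩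
  have hDQ : Disjoint D (Q₁ ∪ Q₂) := by
    rw [Set.disjoint_left]
    intro x hx hxQ
    exact hlight x hx (hv_of_mem c hxQ)
  have hcard : (D ∩ (Q₁ ∪ Q₂)).ncard = 0 := by
    rw [Set.disjoint_iff_inter_eq_empty.mp hDQ, Set.ncard_empty]
  obtain ⟨X, hMdl, hXD, hXn⟩ := hV3 V G Q₁ Q₂ D p 0 (2 * p + 1) (fun _ => nb G D) hBip
    (by rw [hcard]; omega) (fun X J hX => by
      obtain ⟨i, hi, hiJ⟩ : ∃ i < p, i ∉ J := by
        by_contra hcon
        push Not at hcon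
        have h1 : (Finset.range p).card ≤ J.card := Finset.card_le_card fun i hi =>
          hcon i (Finset.mem_range.1 hi)
        rw [Finset.card_range] at h1
        omega
      exact ⟨i, hi, hiJ, link_of_hv hDQ hheavy X (by omega)⟩)
  have hNF : NoFan G (Q₁ ∪ Q₂) D c := by
    rintro x hx ⟨Z, hZ1, hZ2⟩
    exact hlight x hx (hv_of_fan hZ1 hZ2)
  have hB : ∀ i ∈ Finset.range p, Conn G (X i) ∧ Disjoint (X i) D ∧ Tch G D (X i) ∧
      (X i ∩ (Q₁ ∪ Q₂)).Nonempty := by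
    intro i hi
    have hi' : i < p := Finset.mem_range.mp hi
    have hi0 : i ∈ Finset.range (p + 0) := Finset.mem_range.mpr hi'
    obtain ⟨y, hy1, hy2⟩ := hXn i hi'
    obtain ⟨hyD, d, hd, hdy⟩ := hy2
    exact ⟨hMdl.1 i hi0, (hXD i hi').1, ⟨d, hd, y, hy1, hdy⟩, (hXD i hi').2⟩
  have hdisj : ∀ i ∈ Finset.range p, ∀ j ∈ Finset.range p, i ≠ j → Disjoint (X i) (X j) :=
    fun i hi j hj hij => (hMdl.2 i hi j hj hij).1
  obtain ⟨l, s, J, B', hInd, hJ, hJg, hB', hB'd⟩ := hp V G (Q₁ ∪ Q₂) D (Finset.range p) X hD hB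
    hdisj hNF (by rw [Finset.card_range])
  have hmeet : ∀ j ∈ J, Conn G (B' j) ∧ (B' j ∩ (Q₁ ∪ Q₂)).Nonempty := by
    intro j hj
    obtain ⟨y, hy1, hy2⟩ := (hB j (hJ hj)).2.2.2
    exact ⟨(hB' j hj).1, y, (hB' j hj).2.1 hy1, hy2⟩
  refine hg V G l s B' J ⟨fun _ _ => Set.mem_univ _, hInd.2⟩ ⟨fun j hj => (hB' j hj).1, ?_⟩
    (fun j hj => ⟨(hB' j hj).2.2.2.1, (hB' j hj).2.2.2.2⟩) ?_ (by rw [hJg])
  · intro i hi j hj hij
    exact ⟨hB'd i hi j hj hij, ((hMdl.2 i (hJ hi) j (hJ hj) hij).2).mono (hB' i hi).2.1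
      (hB' j hj).2.1⟩
  · intro i hi
    refine tau_le hNF hmeet hB'd (hInd.1 i hi) (fun j hj hmem => ?_)
    exact Set.disjoint_left.mp (hB' j hj).2.2.2.1 hmem ⟨i, Nat.zero_le i, hi, rfl⟩

end Pool.Agent.MPd439b2.KS
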