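import Pool.Agent.Lib.MP_d439b2_co.KS.SpecV

/-!
# MP_d439b2_co, Theorem K, V7: linking several copies of heavy vertices
-/

set_option autoImplicit false

namespace Pool.Agent.MPd439b2.KS

namespace v7Aux

variable {V : Type} {G : SimpleGraph V}

/-- the component of `C \ {x}` containing `q` touches `x` -/
theorem comp_touch {C : Set V} {x q : V} (hC : Conn G C) (hx : x ∈ C) (hq : q ∈ C)
    (hne : q ≠ x) : ∃ K ⊆ C \ {x}, q ∈ K ∧ Conn G K ∧ ∃ y ∈ K, G.Adj x y := by
  obtain ⟨K, hKs, hqK, hK, hKn⟩ := exists_comp G (A := C \ {x}) (v := q) ⟨hq, hne⟩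
  refine ⟨K, hKs, hqK, hK, ?_⟩
  obtain ⟨b, hb, a, ha, hab⟩ := hC.2 K (fun y hy => (hKs hy).1) ⟨q, hqK⟩ (fun h => by
    have h5 : x ∈ K := h ▸ hx
    exact (hKs h5).2 rfl)
  have hax : a = x := by
    by_contra hne'
    exact hKn a ⟨ha.1, hne'⟩ ⟨ha.2, b, hb, hab⟩
  subst hax
  exact ⟨b, hb, hab.symm⟩

/-- an enumeration of a finite set of numbers with its inverse -/
theorem enum (P : Finset ℕ) : ∃ e g : ℕ → ℕ, (∀ b ∈ P, e b < P.card ∧ g (e b) = b) ∧
    ∀ i < P.card, g i ∈ P := by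
  classical
  refine ⟨fun b => if h : b ∈ P then (P.equivFin ⟨b, h⟩).val else 0,
    fun i => if h : i < P.card then (P.equivFin.symm ⟨i, h⟩).val else 0, ?_, ?_⟩
  · intro b hb
    beta_reduce
    rw [dif_pos hb]
    refine ⟨(P.equivFin ⟨b, hb⟩).2, ?_⟩
    rw [dif_pos (P.equivFin ⟨b, hb⟩).2]
    simp
  · intro i hi
    beta_reduce
    rw [dif_pos hi]
    exact (P.equivFin.symm ⟨i, hi⟩).2

end v7Aux

open v7Aux in
theorem v7 : (S_V3) → S_V7 := by
  intro h3 V _ G Q₁ Q₂ v P k n c hBip hn hc hinj hHv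
  classical
  obtain ⟨e, g, he, hg⟩ := enum P
  set h := P.card with hh
  let Z : Set V := v '' (P : Set ℕ)
  have hZc : Z.ncard ≤ h := by
    have := Set.ncard_image_le (f := v) (s := (P : Set ℕ)) P.finite_toSet
    rwa [Set.ncard_coe_finset] at this
  have hZQ : Z ∩ (Q₁ ∪ Q₂) = ∅ := by
    rw [Set.eq_empty_iff_forall_notMem]
    rintro y ⟨⟨b, hb, rfl⟩, hy⟩
    exact (hHv b hb).1 hy
  obtain ⟨X, hM, hX1, hX2⟩ := h3 V G Q₁ Q₂ Z (h * k) 0 n
    (fun i => G.neighborSet (v (g (i % h)))) hBip (by rw [hZQ, Set.ncard_empty]; omega) (by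
      intro X J hXJ
      obtain ⟨i, hi, hiJ⟩ : ∃ i < h * k, i ∉ J := by
        by_contra hcon
        push Not at hcon
        have h1 : (Finset.range (h * k)).card ≤ J.card := Finset.card_le_card fun i hi =>
          hcon i (Finset.mem_range.1 hi)
        rw [Finset.card_range] at h1
        omega
      have hX : X.ncard < h * k := by omega
      refine ⟨i, hi, hiJ, ?_⟩
      have hpos : 0 < h := by
        rcases Nat.eq_zero_or_pos h with h0 | h0
        · rw [h0] at hi; omega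
        · exact h0
      have hb : g (i % h) ∈ P := hg _ (Nat.mod_lt _ hpos)
      obtain ⟨hbQ, hbH⟩ := hHv _ hb
      obtain ⟨C, hC, hCF, ⟨y, hyC, hy⟩, q, hqC, hqQ⟩ := hbH ((X ∪ Z) \ {v (g (i % h))})
        (by
          have h1 : ((X ∪ Z) \ {v (g (i % h))}).ncard ≤ (X ∪ Z).ncard :=
            Set.ncard_le_ncard Set.sdiff_subset (Set.toFinite _)
          have h2 := Set.ncard_union_le X Z
          omega)
        (by
          rw [Set.disjoint_left]
          exact fun y hy hy' => hy.2 hy')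
      rw [Set.mem_singleton_iff] at hy
      subst hy
      obtain ⟨K, hK1, hK2, hK3, z, hz, hadj⟩ := comp_touch hC hyC hqC (fun hqv => hbQ (hqv ▸ hqQ))
      refine ⟨K, hK3, ?_, ⟨z, hz, hadj⟩, ⟨q, hK2, hqQ⟩⟩
      rw [Set.disjoint_left] at hCF ⊢
      intro w hw hw'
      exact hCF (hK1 hw).1 ⟨hw', (hK1 hw).2⟩)
  have hidx : ∀ b ∈ P, ∀ a < k, h * a + e b < h * k := by
    intro b hb a ha
    have h1 := (he b hb).1
    have h2 : h * (a + 1) ≤ h * k := Nat.mul_le_mul_left h ha
    rw [Nat.mul_add, Nat.mul_one] at h2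
    omega
  have hmod : ∀ a, ∀ b ∈ P, (h * a + e b) % h = e b := by
    intro a b hb
    rw [Nat.mul_add_mod, Nat.mod_eq_of_lt (he b hb).1]
  refine ⟨fun b a => X (h * a + e b), ?_, ?_⟩
  · intro b hb a ha
    have hi := hidx b hb a ha
    refine ⟨hM.1 _ (by rw [Finset.mem_range]; omega), ?_, ?_⟩
    · obtain ⟨y, hy, hadj⟩ := hX2 _ hi
      have h1 := hmod a b hb
      rw [h1, (he b hb).2] at hadj
      exact ⟨v b, rfl, y, hy, hadj⟩
    · intro b' hb' hmem
      have h1 := (hX1 (h * a + e b) (by omega)).1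
      rw [Set.disjoint_left] at h1
      exact h1 hmem ⟨b', hb', rfl⟩
  · intro b hb a ha b' hb' a' ha' hne
    have hi := hidx b hb a ha
    have hi' := hidx b' hb' a' ha'
    apply hM.2 _ (by rw [Finset.mem_range]; omega) _ (by rw [Finset.mem_range]; omega)
    intro heq
    apply hne
    have hm : e b = e b' := by
      have h1 := hmod a b hb
      have h2 := hmod a' b' hb'
      rw [← h1, ← h2, heq]
    have hbb : b = b' := by rw [← (he b hb).2, ← (he b' hb').2, hm]
    have hpos : 0 < h := by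
      have := (he b hb).1
      omega
    have haa : a = a' := by
      rw [hm] at heq
      exact Nat.eq_of_mul_eq_mul_left hpos (by omega)
    rw [hbb, haa]

end Pool.Agent.MPd439b2.KS
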