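import Pool.Agent.Lib.MP_d439b2_co.KS.SpecV

/-!
# MP_d439b2_co, Theorem K, V8: Lemma VH, many non-adjacent heavy vertices have common neighbours
-/

set_option autoImplicit false

namespace Pool.Agent.MPd439b2.KS

namespace v8Aux

/-- an enumeration of a subset of a finite set of numbers -/
theorem enum (P : Finset ℕ) (k : ℕ) (hk : k ≤ P.card) : ∃ g : ℕ → ℕ, (∀ i < k, g i ∈ P) ∧
    ∀ i < k, ∀ j < k, g i = g j → i = j := by
  classical
  refine ⟨fun i => if h : i < P.card then (P.equivFin.symm ⟨i, h⟩).val else 0, ?_, ?_⟩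
  · intro i hi
    beta_reduce
    rw [dif_pos (by omega)]
    exact (P.equivFin.symm ⟨i, by omega⟩).2
  · intro i hi j hj hij
    beta_reduce at hij
    rw [dif_pos (show i < P.card by omega), dif_pos (show j < P.card by omega)] at hij
    have := P.equivFin.symm.injective (Subtype.ext hij)
    simpa using this

end v8Aux

open v8Aux in
theorem v8 : (S_V7) → (S_U6) → (S_Dig) → (S_DDd) → S_V8 := by
  intro h7 h6 hDig hDD N m n r l
  classical
  obtain ⟨a, p, h6'⟩ := h6 N m n r l
  set k' := max a (N + 2) with hk'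
  set h := (2 * p + 1) * (m + 1) with hh
  set k := 2 ^ h * k' with hk
  refine ⟨h, h * k + h, 2 * (h * k), fun V _ G Q₁ Q₂ v P hnD hnT hBip hInd hP hHv => ?_⟩
  have hk'a : a ≤ k' := le_max_left _ _
  have hk'N : N + 2 ≤ k' := le_max_right _ _
  obtain ⟨E, hE1, hE2⟩ := h7 V G Q₁ Q₂ v P k (2 * (h * k)) (h * k + h) hBip
    (by rw [hP]) (by rw [hP]) hInd.1 hHv
  -- traces
  let tr : Set V → Finset ℕ := fun X => P.filter fun b' => Tch G {v b'} X
  have hpig : ∀ b ∈ P, ∃ (T : Finset ℕ) (σ : ℕ → ℕ), (∀ i < k', σ i < k ∧ tr (E b (σ i)) = T) ∧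
      ∀ i < k', ∀ j < k', σ i = σ j → i = j := by
    intro b hb
    obtain ⟨T, hT, hcard⟩ := Finset.exists_le_card_fiber_of_mul_le_card_of_maps_to
      (s := Finset.range k) (t := P.powerset) (f := fun i => tr (E b i)) (n := k')
      (fun i _ => Finset.mem_powerset.mpr (Finset.filter_subset _ _))
      ⟨∅, Finset.empty_mem_powerset P⟩ (by
        rw [Finset.card_powerset, Finset.card_range, hP])
    obtain ⟨σ, hσ1, hσ2⟩ := enum _ k' hcard
    refine ⟨T, σ, fun i hi => ?_, hσ2⟩
    have := Finset.mem_filter.mp (hσ1 i hi)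
    exact ⟨Finset.mem_range.mp this.1, this.2⟩
  have hch : ∀ b, ∃ (T : Finset ℕ) (σ : ℕ → ℕ), b ∈ P →
      (∀ i < k', σ i < k ∧ tr (E b (σ i)) = T) ∧ ∀ i < k', ∀ j < k', σ i = σ j → i = j := by
    intro b
    by_cases hb : b ∈ P
    · obtain ⟨T, σ, h1⟩ := hpig b hb
      exact ⟨T, σ, fun _ => h1⟩
    · exact ⟨∅, id, fun h => absurd h hb⟩
  choose T σ hTσ using hch
  have hmemT : ∀ b ∈ P, ∀ i < k', ∀ c, c ∈ T b ↔ c ∈ P ∧ Tch G {v c} (E b (σ b i)) := by
    intro b hb i hi c
    rw [← ((hTσ b hb).1 i hi).2]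
    exact Finset.mem_filter
  have hTself : ∀ b ∈ P, b ∈ T b := by
    intro b hb
    rw [hmemT b hb 0 (by omega)]
    exact ⟨hb, (hE1 b hb _ ((hTσ b hb).1 0 (by omega)).1).2.1⟩
  by_cases hbig : ∃ b ∈ P, p < (T b \ {b}).card
  · -- U6
    obtain ⟨b, hb, hp⟩ := hbig
    have hsub : T b ⊆ P := fun c hc => ((hmemT b hb 0 (by omega) c).mp hc).1
    obtain ⟨j, hj, x, hx, hxn⟩ := h6' V G (fun i => E b (σ b i)) v (T b) hnD hnT
      ⟨fun c hc c' hc' => hInd.1 c (hsub hc) c' (hsub hc'),
        fun c hc c' hc' => hInd.2 c (hsub hc) c' (hsub hc')⟩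
      (by
        intro j hj
        have h1 := hE1 b hb _ ((hTσ b hb).1 j (by omega)).1
        refine ⟨h1.1, fun c hc => ⟨h1.2.2 c (hsub hc), ?_⟩⟩
        exact (((hmemT b hb j (by omega) c).mp hc).2).symm)
      (by
        intro i hi j hj hij
        apply (hE2 b hb _ ((hTσ b hb).1 i (by omega)).1 b hb _ ((hTσ b hb).1 j (by omega)).1 _).1
        intro heq
        rw [Prod.mk.injEq] at heq
        exact hij ((hTσ b hb).2 i (by omega) j (by omega) heq.2))
      (by
        have := Finset.card_le_card (Finset.sdiff_subset (s := T b) (t := {b}))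
        omega)
    refine ⟨x, lt_of_lt_of_le hxn (Finset.card_le_card ?_)⟩
    intro c hc
    rw [mem_tau] at hc ⊢
    exact ⟨hsub hc.1, hc.2⟩
  · exfalso
    push Not at hbig
    obtain ⟨R, hR, hRc, hRd⟩ := hDig ℕ P (fun b b' => b' ∈ T b) p (m + 1)
      (fun b hb => ⟨T b \ {b}, hbig b hb, fun y _ hne hy => by
        rw [Finset.mem_sdiff, Finset.mem_singleton]
        exact ⟨hy, hne⟩⟩) (by rw [hP])
    obtain ⟨g, hg1, hg2⟩ := enum R (m + 1) hRc.ge
    apply hnD
    let β : ℕ → ℕ := fun i => if i < 2 * m then i / 2 else m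
    let α : ℕ → ℕ := fun i => if i < 2 * m then i % 2 else i - 2 * m
    have hβ : ∀ i, β i < m + 1 := by
      intro i
      by_cases hi : i < 2 * m
      · simp only [β, if_pos hi]; omega
      · simp only [β, if_neg hi]; omega
    have hα : ∀ i < N + 2 * m, α i < k' := by
      intro i hiN
      by_cases hi : i < 2 * m
      · simp only [α, if_pos hi]; omega
      · simp only [α, if_neg hi]; omega
    have hαβ : ∀ i < N + 2 * m, ∀ j < N + 2 * m, β i = β j → α i = α j → i = j := by
      intro i hi j hj h1 h2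
      by_cases hi2 : i < 2 * m <;> by_cases hj2 : j < 2 * m
      · simp only [α, β, if_pos hi2, if_pos hj2] at h1 h2; omega
      · simp only [α, β, if_pos hi2, if_neg hj2] at h1 h2; omega
      · simp only [α, β, if_neg hi2, if_pos hj2] at h1 h2; omega
      · simp only [α, β, if_neg hi2, if_neg hj2] at h1 h2; omega
    have hgP : ∀ i < m + 1, g i ∈ P := fun i hi => hR (hg1 i hi)
    let B : ℕ → Set V := fun i => E (g (β i)) (σ (g (β i)) (α i))
    have hσk : ∀ i < N + 2 * m, σ (g (β i)) (α i) < k := fun i hi =>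
      ((hTσ _ (hgP _ (hβ i))).1 _ (hα i hi)).1
    refine hDD V G N m (Finset.range (N + 2 * m)) B (fun q => {v (g q)}) (fun q => 2 * q)
      (fun q => 2 * q + 1) ⟨?_, ?_⟩ (by rw [Finset.card_range]) ?_ ?_ ?_ ?_ ?_ ?_
    · intro i hi
      rw [Finset.mem_range] at hi
      exact (hE1 _ (hgP _ (hβ i)) _ (hσk i hi)).1
    · intro i hi j hj hij
      rw [Finset.mem_range] at hi hj
      apply hE2 _ (hgP _ (hβ i)) _ (hσk i hi) _ (hgP _ (hβ j)) _ (hσk j hj)
      intro heq
      rw [Prod.mk.injEq] at heq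
      have h1 := hg2 _ (hβ i) _ (hβ j) heq.1
      rw [h1] at heq
      have h2 := (hTσ _ (hgP _ (hβ j))).2 _ (hα i hi) _ (hα j hj) heq.2
      exact hij (hαβ i hi j hj h1 h2)
    · intro q hq
      refine ⟨Conn.singleton G _, ?_, ?_⟩
      · rw [Finset.mem_range]; omega
      · rw [Finset.mem_range]; omega
    · intro q hq i hi
      rw [Finset.mem_range] at hi
      constructor
      · rw [Set.disjoint_singleton_left]
        exact (hE1 _ (hgP _ (hβ i)) _ (hσk i hi)).2.2 _ (hgP q (by omega))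
      · have h1 := hmemT _ (hgP _ (hβ i)) _ (hα i hi) (g q)
        have h2 : Tch G {v (g q)} (B i) ↔ g q ∈ T (g (β i)) := by
          rw [h1]
          exact ⟨fun h => ⟨hgP q (by omega), h⟩, fun h => h.2⟩
        rw [h2]
        have h3 : g q ∈ T (g (β i)) ↔ β i = q := by
          constructor
          · intro h
            by_contra hne
            exact hRd _ (hg1 _ (hβ i)) _ (hg1 q (by omega))
              (fun h' => hne (hg2 _ (hβ i) _ (by omega) h')) h
          · intro h
            rw [h]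
            exact hTself _ (hgP q (by omega))
        rw [h3]
        by_cases hi2 : i < 2 * m
        · simp only [β, if_pos hi2]; omega
        · simp only [β, if_neg hi2]; omega
    · intro q hq q' hq' hne
      have hne' : g q ≠ g q' := fun h => hne (hg2 q (by omega) q' (by omega) h)
      constructor
      · rw [Set.disjoint_singleton]
        exact fun h => hne' (hInd.1 _ (hgP q (by omega)) _ (hgP q' (by omega)) h)
      · rintro ⟨x, hx, y, hy, hxy⟩
        rw [Set.mem_singleton_iff] at hx hy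
        subst hx hy
        exact hInd.2 _ (hgP q (by omega)) _ (hgP q' (by omega)) hxy
    · intro q _ q' _; omega
    · intro q _ q' _; omega
    · intro q _ q' _; omega

end Pool.Agent.MPd439b2.KS
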