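import Pool.Agent.Lib.MP_d439b2_co.KS.SpecV

/-!
# MP_d439b2_co, Theorem K: the closed neighbourhoods have bounded VC dimension
-/

set_option autoImplicit false

namespace Pool.Agent.MPd439b2.KS

namespace v9Aux

/-- subsets of shattered sets are shattered -/
theorem shat_sub {V : Type} {R : V → V → Prop} {U T : Finset V} (h : Shat R U) (hT : T ⊆ U) :
    Shat R T := by
  intro S hS
  obtain ⟨x, hx⟩ := h S (hS.trans hT)
  exact ⟨x, fun u hu => hx u (hT hu)⟩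

end v9Aux

open v9Aux in
theorem v9 (h1 : S_V9a) (h2 : S_V9b) (h3 : S_Ram) : S_V9 := by
  intro N m W _ Y hY
  obtain ⟨d1, hd1⟩ := h1 N m W Y hY
  obtain ⟨d2, hd2⟩ := h2 N m
  obtain ⟨d, hd⟩ := h3 d1 d2
  refine ⟨d, ?_⟩
  intro V G hDD hYG U hU hS
  rcases hd V U G.Adj (fun x y h => h.symm) (le_of_eq hU.symm) with
    ⟨T, hT, hc, hE⟩ | ⟨T, hT, hc, hE⟩
  · exact hd1 V G hDD hYG T (le_of_eq hc.symm) hE (shat_sub hS hT)
  · exact hd2 V G hDD T (le_of_eq hc.symm) hE (shat_sub hS hT)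

end Pool.Agent.MPd439b2.KS
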