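import Pool.Agent.Lib.MP_d439b2_co.KS.SpecV

/-!
# MP_d439b2_co, Theorem K, V9b: a shattered independent set
-/

set_option autoImplicit false

namespace Pool.Agent.MPd439b2.KS

namespace v9bAux

/-- an enumeration of a finite set -/
theorem enum {α : Type} [Inhabited α] (P : Finset α) (k : ℕ) (hk : k ≤ P.card) :
    ∃ g : ℕ → α, (∀ i < k, g i ∈ P) ∧ ∀ i < k, ∀ j < k, g i = g j → i = j := by
  classical
  refine ⟨fun i => if h : i < P.card then (P.equivFin.symm ⟨i, h⟩).val else default, ?_, ?_⟩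
  · intro i hi
    beta_reduce
    rw [dif_pos (by omega)]
    exact (P.equivFin.symm ⟨i, by omega⟩).2
  · intro i hi j hj hij
    beta_reduce at hij
    rw [dif_pos (show i < P.card by omega), dif_pos (show j < P.card by omega)] at hij
    have := P.equivFin.symm.injective (Subtype.ext hij)
    simpa using this

variable {V : Type} {G : SimpleGraph V}

theorem conn_of_root {A : Set V} {r : V} (hr : r ∈ A)
    (h : ∀ y ∈ A, ∃ K ⊆ A, Conn G K ∧ r ∈ K ∧ y ∈ K) : Conn G A := by
  obtain ⟨C, hCA, hrC, hC, hCn⟩ := exists_comp G hr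
  have hAC : A ⊆ C := by
    intro y hy
    obtain ⟨K, hKA, hK, hrK, hyK⟩ := h y hy
    have h1 := hK.eq_of_nb (C := K ∩ C) Set.inter_subset_left ⟨r, hrK, hrC⟩ (by
      intro w hw hwn
      obtain ⟨hw1, c, hc, hcw⟩ := hwn
      exact hCn w (hKA hw) ⟨fun h => hw1 ⟨hw, h⟩, c, hc.2, hcw⟩)
    rw [← h1] at hyK
    exact hyK.2
  rw [← Set.Subset.antisymm hCA hAC]
  exact hC

/-- the abstract configuration: vertices `x a` (`a < M`) and `u a b` (`a ≠ b`, symmetric) with
`x c ~ u a b` iff `c = a` or `c = b`; the `u`'s are independent -/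
structure Cfg (G : SimpleGraph V) (M : ℕ) (x : ℕ → V) (u : ℕ → ℕ → V) : Prop where
  xinj : ∀ a < M, ∀ b < M, x a = x b → a = b
  uinj : ∀ a < M, ∀ b < M, a < b → ∀ a' < M, ∀ b' < M, a' < b' → u a b = u a' b' →
    a = a' ∧ b = b'
  xu : ∀ c < M, ∀ a < M, ∀ b < M, a < b → x c ≠ u a b ∧ (G.Adj (x c) (u a b) ↔ c = a ∨ c = b)
  uu : ∀ a < M, ∀ b < M, a < b → ∀ a' < M, ∀ b' < M, a' < b' → ¬ G.Adj (u a b) (u a' b')

/-- restriction of a configuration to the points `g 0, ..., g (K - 1)` -/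
theorem Cfg.restr {M K : ℕ} {x : ℕ → V} {u : ℕ → ℕ → V} (h : Cfg G M x u)
    (hu : ∀ a b, u a b = u b a) {g : ℕ → ℕ} (hg : ∀ i < K, g i < M)
    (hgi : ∀ i < K, ∀ j < K, g i = g j → i = j) :
    Cfg G K (fun i => x (g i)) (fun i j => u (g i) (g j)) := by
  refine ⟨fun a ha b hb hab => hgi a ha b hb (h.xinj _ (hg a ha) _ (hg b hb) hab), ?_, ?_, ?_⟩
  · intro a ha b hb hab a' ha' b' hb' hab' heq
    have hne : g a ≠ g b := fun h' => by have := hgi a ha b hb h'; omega
    have hne' : g a' ≠ g b' := fun h' => by have := hgi a' ha' b' hb' h'; omega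
    beta_reduce at heq
    rcases lt_or_gt_of_ne hne with h1 | h1 <;> rcases lt_or_gt_of_ne hne' with h2 | h2
    · have := h.uinj _ (hg a ha) _ (hg b hb) h1 _ (hg a' ha') _ (hg b' hb') h2 heq
      exact ⟨hgi a ha a' ha' this.1, hgi b hb b' hb' this.2⟩
    · rw [hu (g a') (g b')] at heq
      have := h.uinj _ (hg a ha) _ (hg b hb) h1 _ (hg b' hb') _ (hg a' ha') h2 heq
      have h3 := hgi a ha b' hb' this.1
      have h4 := hgi b hb a' ha' this.2
      omega
    · rw [hu (g a) (g b)] at heq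
      have := h.uinj _ (hg b hb) _ (hg a ha) h1 _ (hg a' ha') _ (hg b' hb') h2 heq
      have h3 := hgi b hb a' ha' this.1
      have h4 := hgi a ha b' hb' this.2
      omega
    · rw [hu (g a) (g b), hu (g a') (g b')] at heq
      have := h.uinj _ (hg b hb) _ (hg a ha) h1 _ (hg b' hb') _ (hg a' ha') h2 heq
      exact ⟨hgi a ha a' ha' this.2, hgi b hb b' hb' this.1⟩
  · intro c hc a ha b hb hab
    have hne : g a ≠ g b := fun h' => by have := hgi a ha b hb h'; omega
    have hiff : (g c = g a ∨ g c = g b) ↔ (c = a ∨ c = b) := by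
      constructor
      · rintro (h' | h')
        · exact Or.inl (hgi c hc a ha h')
        · exact Or.inr (hgi c hc b hb h')
      · rintro (h' | h')
        · exact Or.inl (by rw [h'])
        · exact Or.inr (by rw [h'])
    rcases lt_or_gt_of_ne hne with h1 | h1
    · have := h.xu _ (hg c hc) _ (hg a ha) _ (hg b hb) h1
      exact ⟨this.1, this.2.trans hiff⟩
    · have := h.xu _ (hg c hc) _ (hg b hb) _ (hg a ha) h1
      beta_reduce
      rw [hu (g a) (g b)]
      exact ⟨this.1, this.2.trans (or_comm.trans hiff)⟩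
  · intro a ha b hb hab a' ha' b' hb' hab'
    have hne : g a ≠ g b := fun h' => by have := hgi a ha b hb h'; omega
    have hne' : g a' ≠ g b' := fun h' => by have := hgi a' ha' b' hb' h'; omega
    beta_reduce
    rcases lt_or_gt_of_ne hne with h1 | h1 <;> rcases lt_or_gt_of_ne hne' with h2 | h2
    · exact h.uu _ (hg a ha) _ (hg b hb) h1 _ (hg a' ha') _ (hg b' hb') h2
    · rw [hu (g a') (g b')]
      exact h.uu _ (hg a ha) _ (hg b hb) h1 _ (hg b' hb') _ (hg a' ha') h2
    · rw [hu (g a) (g b)]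
      exact h.uu _ (hg b hb) _ (hg a ha) h1 _ (hg a' ha') _ (hg b' hb') h2
    · rw [hu (g a) (g b), hu (g a') (g b')]
      exact h.uu _ (hg b hb) _ (hg a ha) h1 _ (hg b' hb') _ (hg a' ha') h2

/-- the case of pairwise adjacent `x`'s -/
theorem case1 (hDD : S_DDd) {N m : ℕ} {x : ℕ → V} {u : ℕ → ℕ → V}
    (h : Cfg G (N + 2 * m) x u)
    (hadj : ∀ a < N + 2 * m, ∀ b < N + 2 * m, a ≠ b → G.Adj (x a) (x b)) :
    IMS (DD N m) G Set.univ := by
  refine hDD V G N m (Finset.range (N + 2 * m)) (fun i => {x i})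
    (fun q => {u (2 * q) (2 * q + 1)}) (fun q => 2 * q) (fun q => 2 * q + 1) ⟨?_, ?_⟩
    (by rw [Finset.card_range]) ?_ ?_ ?_ ?_ ?_ ?_
  · exact fun i _ => Conn.singleton G _
  · intro i hi j hj hij
    rw [Finset.mem_range] at hi hj
    refine ⟨?_, x i, rfl, x j, rfl, hadj i hi j hj hij⟩
    rw [Set.disjoint_singleton]
    exact fun h' => hij (h.xinj i hi j hj h')
  · intro q hq
    refine ⟨Conn.singleton G _, ?_, ?_⟩
    · rw [Finset.mem_range]; omega
    · rw [Finset.mem_range]; omega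
  · intro q hq i hi
    rw [Finset.mem_range] at hi
    have h1 := h.xu i hi (2 * q) (by omega) (2 * q + 1) (by omega) (by omega)
    constructor
    · rw [Set.disjoint_singleton]
      exact fun h' => h1.1 h'.symm
    · rw [← h1.2]
      constructor
      · rintro ⟨y, hy, z, hz, hyz⟩
        rw [Set.mem_singleton_iff] at hy hz
        subst hy hz
        exact hyz.symm
      · exact fun h' => ⟨_, rfl, _, rfl, h'.symm⟩
  · intro q hq q' hq' hne
    constructor
    · rw [Set.disjoint_singleton]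
      intro h'
      have := h.uinj (2 * q) (by omega) (2 * q + 1) (by omega) (by omega) (2 * q') (by omega)
        (2 * q' + 1) (by omega) (by omega) h'
      omega
    · rintro ⟨y, hy, z, hz, hyz⟩
      rw [Set.mem_singleton_iff] at hy hz
      subst hy hz
      exact h.uu (2 * q) (by omega) (2 * q + 1) (by omega) (by omega) (2 * q') (by omega)
        (2 * q' + 1) (by omega) (by omega) hyz
  · intro q _ q' _; omega
  · intro q _ q' _; omega
  · intro q _ q' _; omega

/-- the `x a` in the branch set `i` -/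
def OX (N m i a : ℕ) : Prop := a = i ∨ ∃ k < m, i = 2 * k ∧ a = N + 2 * m + k

/-- the `u a b`, `a < b`, in the branch set `i` -/
def OM (N m i a b : ℕ) : Prop :=
  (a = i ∧ b < N + 2 * m ∧ ¬ ∃ k < m, a = 2 * k ∧ b = 2 * k + 1) ∨
    ∃ k < m, i = 2 * k ∧ b = N + 2 * m + k ∧ (a = 2 * k ∨ a = 2 * k + 1)

/-- the branch sets -/
def BS (N m : ℕ) (x : ℕ → V) (u : ℕ → ℕ → V) (i : ℕ) : Set V :=
  {y | (∃ a < N + 3 * m, OX N m i a ∧ y = x a) ∨
    ∃ b < N + 3 * m, ∃ a < b, OM N m i a b ∧ y = u a b}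

theorem conn_BS {N m : ℕ} {x : ℕ → V} {u : ℕ → ℕ → V}
    (h : Cfg G (N + 3 * m) x u) {i : ℕ} (hi : i < N + 2 * m) : Conn G (BS N m x u i) := by
  have hr : x i ∈ BS N m x u i := Or.inl ⟨i, by omega, Or.inl rfl, rfl⟩
  -- the path for `i = 2 k`
  have hpath : ∀ k < m, i = 2 * k → u (2 * k) (N + 2 * m + k) ∈ BS N m x u i ∧
      x (N + 2 * m + k) ∈ BS N m x u i ∧ Conn G {x (N + 2 * m + k), u (2 * k) (N + 2 * m + k), x i} := by
    intro k hk hik
    have h1 := h.xu (2 * k) (by omega) (2 * k) (by omega) (N + 2 * m + k) (by omega) (by omega)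
    have h2 := h.xu (N + 2 * m + k) (by omega) (2 * k) (by omega) (N + 2 * m + k) (by omega)
      (by omega)
    refine ⟨Or.inr ⟨N + 2 * m + k, by omega, 2 * k, by omega,
      Or.inr ⟨k, hk, hik, rfl, Or.inl rfl⟩, rfl⟩, Or.inl ⟨N + 2 * m + k, by omega,
      Or.inr ⟨k, hk, hik, rfl⟩, rfl⟩, ?_⟩
    rw [hik]
    have h3 : G.Adj (u (2 * k) (N + 2 * m + k)) (x (2 * k)) := (h1.2.mpr (Or.inl rfl)).symm
    have h4 : G.Adj (u (2 * k) (N + 2 * m + k)) (x (N + 2 * m + k)) :=
      (h2.2.mpr (Or.inr rfl)).symm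
    exact (Conn.pair h3).insert ⟨_, Or.inl rfl, h4⟩
  apply conn_of_root hr
  rintro y (⟨a, ha, hOX, rfl⟩ | ⟨b, hb, a, hab, hOM, rfl⟩)
  · rcases hOX with rfl | ⟨k, hk, hik, rfl⟩
    · exact ⟨{x a}, Set.singleton_subset_iff.mpr hr, Conn.singleton G _, rfl, rfl⟩
    · obtain ⟨h1, h2, h3⟩ := hpath k hk hik
      refine ⟨_, ?_, h3, Or.inr (Or.inr rfl), Or.inl rfl⟩
      rintro z (rfl | rfl | rfl)
      · exact h2
      · exact h1
      · exact hr
  · have hy : u a b ∈ BS N m x u i := Or.inr ⟨b, hb, a, hab, hOM, rfl⟩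
    rcases hOM with ⟨rfl, hb2, hno⟩ | ⟨k, hk, hik, hb2, ha2⟩
    · have h1 := h.xu a (by omega) a (by omega) b hb hab
      refine ⟨{x a, u a b}, ?_, Conn.pair (h1.2.mpr (Or.inl rfl)), Or.inl rfl, Or.inr rfl⟩
      rintro z (rfl | rfl)
      · exact hr
      · exact hy
    · obtain ⟨h1, h2, h3⟩ := hpath k hk hik
      subst hb2
      have h5 := h.xu (N + 2 * m + k) (by omega) a (by omega) (N + 2 * m + k) (by omega) hab
      refine ⟨_, ?_, h3.insert (v := u a (N + 2 * m + k)) ⟨x (N + 2 * m + k), Or.inl rfl,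
        h5.2.mpr (Or.inr rfl)⟩, Or.inr (Or.inr (Or.inr rfl)), Or.inl rfl⟩
      rintro z (rfl | rfl | rfl | rfl)
      · exact hy
      · exact h2
      · exact h1
      · exact hr

theorem disj_BS {N m : ℕ} {x : ℕ → V} {u : ℕ → ℕ → V}
    (h : Cfg G (N + 3 * m) x u) {i j : ℕ} (hi : i < N + 2 * m) (hj : j < N + 2 * m)
    (hij : i ≠ j) : Disjoint (BS N m x u i) (BS N m x u j) := by
  rw [Set.disjoint_left]
  rintro y (⟨a, ha, hOX, rfl⟩ | ⟨b, hb, a, hab, hOM, rfl⟩)
      (⟨a', ha', hOX', heq⟩ | ⟨b', hb', a', hab', hOM', heq⟩)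
  · have haa := h.xinj a ha a' ha' heq
    subst haa
    rcases hOX with rfl | ⟨k, hk, hik, hak⟩ <;> rcases hOX' with h1 | ⟨k', hk', hik', hak'⟩ <;>
      omega
  · exact (h.xu a ha a' (by omega) b' hb' hab').1 heq
  · exact (h.xu a' ha' a (by omega) b hb hab).1 heq.symm
  · obtain ⟨rfl, rfl⟩ := h.uinj a (by omega) b hb hab a' (by omega) b' hb' hab' heq
    rcases hOM with ⟨h1, h2, h3⟩ | ⟨k, hk, hik, hb2, ha2⟩ <;>
      rcases hOM' with ⟨h1', h2', h3'⟩ | ⟨k', hk', hik', hb2', ha2'⟩ <;> omega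

theorem tch_BS {N m : ℕ} {x : ℕ → V} {u : ℕ → ℕ → V}
    (h : Cfg G (N + 3 * m) x u) {i j : ℕ} (hj : j < N + 2 * m)
    (hij : i < j) : Tch G (BS N m x u i) (BS N m x u j) := by
  have hxj : x j ∈ BS N m x u j := Or.inl ⟨j, by omega, Or.inl rfl, rfl⟩
  by_cases hk : ∃ k < m, i = 2 * k ∧ j = 2 * k + 1
  · obtain ⟨k, hk, rfl, rfl⟩ := hk
    have h5 := h.xu (2 * k + 1) (by omega) (2 * k + 1) (by omega) (N + 2 * m + k) (by omega)
      (by omega)
    exact ⟨u (2 * k + 1) (N + 2 * m + k), Or.inr ⟨N + 2 * m + k, by omega, 2 * k + 1, by omega,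
      Or.inr ⟨k, hk, rfl, rfl, Or.inr rfl⟩, rfl⟩, x (2 * k + 1), hxj,
      (h5.2.mpr (Or.inl rfl)).symm⟩
  · have h5 := h.xu j (by omega) i (by omega) j (by omega) hij
    exact ⟨u i j, Or.inr ⟨j, by omega, i, hij, Or.inl ⟨rfl, hj, hk⟩, rfl⟩, x j, hxj,
      (h5.2.mpr (Or.inr rfl)).symm⟩

/-- the case of pairwise non-adjacent `x`'s -/
theorem case2 (hDD : S_DDd) {N m : ℕ} {x : ℕ → V} {u : ℕ → ℕ → V}
    (h : Cfg G (N + 3 * m) x u) : IMS (DD N m) G Set.univ := by
  refine hDD V G N m (Finset.range (N + 2 * m)) (BS N m x u)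
    (fun q => {u (2 * q) (2 * q + 1)}) (fun q => 2 * q) (fun q => 2 * q + 1) ⟨?_, ?_⟩
    (by rw [Finset.card_range]) ?_ ?_ ?_ ?_ ?_ ?_
  · intro i hi
    rw [Finset.mem_range] at hi
    exact conn_BS h hi
  · intro i hi j hj hij
    rw [Finset.mem_range] at hi hj
    refine ⟨disj_BS h hi hj hij, ?_⟩
    rcases lt_or_gt_of_ne hij with h1 | h1
    · exact tch_BS h hj h1
    · exact (tch_BS h hi h1).symm
  · intro q hq
    refine ⟨Conn.singleton G _, ?_, ?_⟩
    · rw [Finset.mem_range]; omega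
    · rw [Finset.mem_range]; omega
  · intro q hq i hi
    rw [Finset.mem_range] at hi
    constructor
    · rw [Set.disjoint_singleton_left]
      rintro (⟨a, ha, hOX, heq⟩ | ⟨b, hb, a, hab, hOM, heq⟩)
      · exact (h.xu a ha (2 * q) (by omega) (2 * q + 1) (by omega) (by omega)).1 heq.symm
      · obtain ⟨h1, h2⟩ := h.uinj (2 * q) (by omega) (2 * q + 1) (by omega) (by omega)
          a (by omega) b hb hab heq
        rcases hOM with ⟨h3, h4, h5⟩ | ⟨k, hk, hik, hb2, ha2⟩
        · exact h5 ⟨q, hq, h1.symm, h2.symm⟩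
        · omega
    · constructor
      · rintro ⟨y, hy, z, hz, hyz⟩
        rw [Set.mem_singleton_iff] at hy
        subst hy
        rcases hz with ⟨a, ha, hOX, rfl⟩ | ⟨b, hb, a, hab, hOM, rfl⟩
        · have h1 := (h.xu a ha (2 * q) (by omega) (2 * q + 1) (by omega) (by omega)).2.mp
            hyz.symm
          rcases hOX with rfl | ⟨k, hk, hik, hak⟩
          · exact h1
          · omega
        · exact absurd hyz (h.uu (2 * q) (by omega) (2 * q + 1) (by omega) (by omega)
            a (by omega) b hb hab)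
      · rintro hor
        have h1 := (h.xu i (by omega) (2 * q) (by omega) (2 * q + 1) (by omega)
          (by omega)).2.mpr hor
        exact ⟨_, rfl, x i, Or.inl ⟨i, by omega, Or.inl rfl, rfl⟩, h1.symm⟩
  · intro q hq q' hq' hne
    constructor
    · rw [Set.disjoint_singleton]
      intro h'
      have := h.uinj (2 * q) (by omega) (2 * q + 1) (by omega) (by omega) (2 * q') (by omega)
        (2 * q' + 1) (by omega) (by omega) h'
      omega
    · rintro ⟨y, hy, z, hz, hyz⟩
      rw [Set.mem_singleton_iff] at hy hz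
      subst hy hz
      exact h.uu (2 * q) (by omega) (2 * q + 1) (by omega) (by omega) (2 * q') (by omega)
        (2 * q' + 1) (by omega) (by omega) hyz
  · intro q _ q' _; omega
  · intro q _ q' _; omega
  · intro q _ q' _; omega

end v9bAux

open v9bAux in
theorem v9b : (S_Ram) → (S_DDd) → S_V9b := by
  intro hR hDD N m
  classical
  obtain ⟨M₀, hM₀⟩ := hR (N + 2 * m) (N + 3 * m)
  set M := M₀ + 3 with hM
  refine ⟨M * M, fun V G hnD U hU hind hSh => ?_⟩
  have hUne : U.Nonempty := by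
    rw [← Finset.card_pos]
    have : 0 < M * M := by positivity
    omega
  obtain ⟨v₀, hv₀⟩ := hUne
  haveI : Inhabited V := ⟨v₀⟩
  obtain ⟨f, hf1, hf2⟩ := enum U (M * M) hU
  -- the vertices of the pairs
  let ι : ℕ → ℕ → V := fun a b => f (M * a + b)
  have hidx : ∀ a < M, ∀ b < M, M * a + b < M * M := by
    intro a ha b hb
    have h2 : M * (a + 1) ≤ M * M := Nat.mul_le_mul_left M ha
    rw [Nat.mul_add, Nat.mul_one] at h2
    omega
  have hιU : ∀ a < M, ∀ b < M, ι a b ∈ U := fun a ha b hb => hf1 _ (hidx a ha b hb)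
  have hιinj : ∀ a < M, ∀ b < M, ∀ a' < M, ∀ b' < M, ι a b = ι a' b' → a = a' ∧ b = b' := by
    intro a ha b hb a' ha' b' hb' heq
    have h1 := hf2 _ (hidx a ha b hb) _ (hidx a' ha' b' hb') heq
    have h2 : (M * a + b) % M = b := by rw [Nat.mul_add_mod, Nat.mod_eq_of_lt hb]
    have h3 : (M * a' + b') % M = b' := by rw [Nat.mul_add_mod, Nat.mod_eq_of_lt hb']
    have h4 : b = b' := by rw [← h2, ← h3, h1]
    refine ⟨?_, h4⟩
    rw [h4] at h1
    exact Nat.eq_of_mul_eq_mul_left (show 0 < M by omega) (by omega)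
  let u : ℕ → ℕ → V := fun a b => ι (min a b) (max a b)
  have husymm : ∀ a b, u a b = u b a := by
    intro a b
    simp only [u, min_comm a b, max_comm a b]
  have huU : ∀ a < M, ∀ b < M, u a b ∈ U := fun a ha b hb =>
    hιU _ (by omega) _ (by omega)
  have huinj : ∀ a < M, ∀ b < M, ∀ a' < M, ∀ b' < M, u a b = u a' b' →
      (a = a' ∧ b = b') ∨ (a = b' ∧ b = a') := by
    intro a ha b hb a' ha' b' hb' heq
    have := hιinj _ (show min a b < M by omega) _ (show max a b < M by omega) _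
      (show min a' b' < M by omega) _ (show max a' b' < M by omega) heq
    omega
  -- the sets `S i`
  let S : ℕ → Finset V := fun i => ((Finset.range M).filter fun j => j ≠ i).image fun j => u i j
  have hmemS : ∀ i y, y ∈ S i ↔ ∃ j < M, j ≠ i ∧ u i j = y := by
    intro i y
    simp only [S, Finset.mem_image, Finset.mem_filter, Finset.mem_range, and_assoc]
  have hSU : ∀ i < M, S i ⊆ U := by
    intro i hi y hy
    rw [hmemS] at hy
    obtain ⟨j, hj, _, rfl⟩ := hy
    exact huU i hi j hj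
  have hx : ∀ i, ∃ x, i < M → ∀ w ∈ U, Rn G x w ↔ w ∈ S i := by
    intro i
    by_cases hi : i < M
    · obtain ⟨x, hx⟩ := hSh (S i) (hSU i hi)
      exact ⟨x, fun _ => hx⟩
    · exact ⟨v₀, fun h => absurd h hi⟩
  choose x hx using hx
  have huS : ∀ c < M, ∀ a < M, ∀ b < M, a < b → (u a b ∈ S c ↔ c = a ∨ c = b) := by
    intro c hc a ha b hb hab
    rw [hmemS]
    constructor
    · rintro ⟨j, hj, hne, heq⟩
      have := huinj c hc j hj a ha b hb heq
      omega
    · rintro (rfl | rfl)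
      · exact ⟨b, hb, by omega, rfl⟩
      · exact ⟨a, ha, by omega, husymm _ _⟩
  have hxU : ∀ i < M, x i ∉ U := by
    intro i hi hxi
    -- the elements of `S i` are equal to `x i`
    have h1 : ∀ w ∈ S i, x i = w := by
      intro w hw
      have hwU := hSU i hi hw
      rcases (hx i hi w hwU).mpr hw with h1 | h1
      · exact h1
      · by_contra hne
        exact hind _ hxi _ hwU hne h1
    -- two different indices different from `i`
    obtain ⟨j, j', hj, hj', hji, hji', hjj⟩ : ∃ j j', j < M ∧ j' < M ∧ j ≠ i ∧ j' ≠ i ∧ j ≠ j' := by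
      rcases Nat.eq_zero_or_pos i with h0 | h0
      · exact ⟨1, 2, by omega, by omega, by omega, by omega, by omega⟩
      · rcases Nat.lt_or_ge 1 i with h2 | h2
        · exact ⟨0, 1, by omega, by omega, by omega, by omega, by omega⟩
        · exact ⟨0, 2, by omega, by omega, by omega, by omega, by omega⟩
    have h2 := h1 (u i j) ((hmemS i _).mpr ⟨j, hj, hji, rfl⟩)
    have h3 := h1 (u i j') ((hmemS i _).mpr ⟨j', hj', hji', rfl⟩)
    have := huinj i hi j hj i hi j' hj' (h2.symm.trans h3)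
    omega
  have hxadj : ∀ i < M, ∀ w ∈ U, G.Adj (x i) w ↔ w ∈ S i := by
    intro i hi w hw
    rw [← hx i hi w hw]
    constructor
    · exact fun h => Or.inr h
    · rintro (h | h)
      · exact absurd (h ▸ hw) (hxU i hi)
      · exact h
  have hcfg : Cfg G M x u := by
    refine ⟨?_, ?_, ?_, ?_⟩
    · intro a ha b hb hab
      by_contra hne
      obtain ⟨j, hj, hja, hjb⟩ : ∃ j, j < M ∧ j ≠ a ∧ j ≠ b := by
        by_cases h0 : a ≠ 0 ∧ b ≠ 0
        · exact ⟨0, by omega, by omega, by omega⟩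
        · by_cases h1 : a ≠ 1 ∧ b ≠ 1
          · exact ⟨1, by omega, by omega, by omega⟩
          · exact ⟨2, by omega, by omega, by omega⟩
      have h1 : u a j ∈ S a := (hmemS a _).mpr ⟨j, hj, hja, rfl⟩
      have h2 := (hxadj a ha _ (huU a ha j hj)).mpr h1
      rw [hab] at h2
      have h3 := (hxadj b hb _ (huU a ha j hj)).mp h2
      rw [hmemS] at h3
      obtain ⟨j', hj', _, heq⟩ := h3
      have := huinj b hb j' hj' a ha j hj heq
      omega
    · intro a ha b hb hab a' ha' b' hb' hab' heq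
      have := huinj a ha b hb a' ha' b' hb' heq
      omega
    · intro c hc a ha b hb hab
      refine ⟨fun h => hxU c hc (h ▸ huU a ha b hb), ?_⟩
      rw [hxadj c hc _ (huU a ha b hb)]
      exact huS c hc a ha b hb hab
    · intro a ha b hb hab a' ha' b' hb' hab' hadj
      exact hind _ (huU a ha b hb) _ (huU a' ha' b' hb') hadj.ne hadj
  rcases hM₀ ℕ (Finset.range M) (fun a b => G.Adj (x a) (x b)) (fun a b h => h.symm)
    (by rw [Finset.card_range]; omega) with ⟨T, hT, hTc, hTa⟩ | ⟨T, hT, hTc, hTa⟩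
  · obtain ⟨g, hg1, hg2⟩ := enum T (N + 2 * m) hTc.ge
    have hc := hcfg.restr husymm (K := N + 2 * m) (g := g)
      (fun i hi => Finset.mem_range.mp (hT (hg1 i hi))) hg2
    exact hnD (case1 hDD hc (fun a ha b hb hab => hTa _ (hg1 a ha) _ (hg1 b hb)
      (fun h => hab (hg2 a ha b hb h))))
  · obtain ⟨g, hg1, hg2⟩ := enum T (N + 3 * m) hTc.ge
    have hc := hcfg.restr husymm (K := N + 3 * m) (g := g)
      (fun i hi => Finset.mem_range.mp (hT (hg1 i hi))) hg2
    exact hnD (case2 hDD hc)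

end Pool.Agent.MPd439b2.KS
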