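import Pool.Agent.Lib.MP_d439b2_co.KS.SpecX

/-!
# MP_d439b2_co, KS, X1: light clusters are attached to a bounded set and at most one further vertex
-/

set_option autoImplicit false

namespace Pool.Agent.MPd439b2.KS

namespace x1Aux

variable {V : Type} {G : SimpleGraph V}

theorem comp_sub {X D C : Set V} (h : IsComp G X D) (hC : Conn G C) (hCX : C ⊆ X)
    (hne : (C ∩ D).Nonempty) : C ⊆ D := by
  have h1 : C ∩ D = C := hC.eq_of_nb Set.inter_subset_left hne (by
    rintro v hv ⟨hv1, a, ha, hav⟩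
    apply hv1
    refine ⟨hv, ?_⟩
    by_contra hvD
    exact h.2.2 v (hCX hv) ⟨hvD, a, ha.2, hav⟩)
  rw [← h1]
  exact Set.inter_subset_right

theorem comp_eq {X D D' : Set V} (h : IsComp G X D) (h' : IsComp G X D') {v : V} (hv : v ∈ D)
    (hv' : v ∈ D') : D = D' :=
  Set.Subset.antisymm (comp_sub h' h.2.1 h.1 ⟨v, hv, hv'⟩) (comp_sub h h'.2.1 h'.1 ⟨v, hv', hv⟩)

/-- a maximal finite set of pairwise related elements -/
theorem max_family {α : Type} [Finite α] (p : α → Prop) (r : α → α → Prop) :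
    ∃ F : Finset α, (∀ x ∈ F, p x) ∧ (∀ x ∈ F, ∀ y ∈ F, x ≠ y → r x y) ∧
      ∀ x, p x → x ∉ F → ∃ y ∈ F, ¬ (r x y ∧ r y x) := by
  classical
  have := Fintype.ofFinite α
  obtain ⟨F, hF, hmax⟩ := Finset.exists_max_image
    ((Finset.univ : Finset (Finset α)).filter
      (fun F => (∀ x ∈ F, p x) ∧ ∀ x ∈ F, ∀ y ∈ F, x ≠ y → r x y)) Finset.card
    ⟨∅, by simp⟩
  rw [Finset.mem_filter] at hF
  refine ⟨F, hF.2.1, hF.2.2, fun x hx hxF => ?_⟩
  by_contra hcon
  push Not at hcon
  have h1 := hmax (insert x F) (by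
    rw [Finset.mem_filter]
    refine ⟨Finset.mem_univ _, ?_, ?_⟩
    · intro z hz
      rcases Finset.mem_insert.1 hz with rfl | hz
      · exact hx
      · exact hF.2.1 z hz
    · intro z hz w hw hzw
      rcases Finset.mem_insert.1 hz with hz1 | hz1 <;> rcases Finset.mem_insert.1 hw with hw1 | hw1
      · exact absurd (hz1.trans hw1.symm) hzw
      · rw [hz1]
        exact (hcon w hw1).1
      · rw [hw1]
        exact (hcon z hz1).2
      · exact hF.2.2 z hz1 w hw1 hzw)
  rw [Finset.card_insert_of_notMem hxF] at h1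
  omega

theorem ncard_bU {α β : Type} [Finite β] (s : Finset α) (f : α → Set β) (n : ℕ)
    (h : ∀ e ∈ s, (f e).ncard ≤ n) : {b | ∃ e ∈ s, b ∈ f e}.ncard ≤ s.card * n := by
  classical
  induction s using Finset.induction_on with
  | empty => simp
  | insert a s ha ih =>
    have e1 : {b | ∃ e ∈ insert a s, b ∈ f e} = f a ∪ {b | ∃ e ∈ s, b ∈ f e} := by
      ext b
      simp
    rw [e1, Finset.card_insert_of_notMem ha]
    refine (Set.ncard_union_le _ _).trans ?_
    have h1 := h a (by simp)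
    have h2 := ih (fun e he => h e (Finset.mem_insert_of_mem he))
    calc (f a).ncard + {b | ∃ e ∈ s, b ∈ f e}.ncard ≤ n + s.card * n := Nat.add_le_add h1 h2
      _ = (s.card + 1) * n := by ring

/-- the neighbourhood of a light cluster -/
theorem light_nb [Finite V] {Q D : Set V} {K k₀ : ℕ} (hK : k₀ ≤ K)
    (hD : IsComp G {v | ¬ Hv G Q K {v}} D) (hl : ¬ Hv G Q k₀ D) :
    (nb G D).ncard ≤ k₀ ∧ Disjoint D Q ∧ ∀ v ∈ nb G D, Hv G Q K {v} := by
  have h3 : ∀ v ∈ nb G D, Hv G Q K {v} := by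
    intro v hv
    by_contra hcon
    exact hD.2.2 v hcon hv
  unfold Hv at hl
  push Not at hl
  obtain ⟨F, hF, hFD, hno⟩ := hl
  have hsub : nb G D ⊆ F := by
    intro u hu
    by_contra huF
    obtain ⟨C, hC, hCF, ⟨w, hwC, hw⟩, hCQ⟩ := h3 u hu F (by omega)
      (Set.disjoint_singleton_right.2 huF)
    rw [Set.mem_singleton_iff] at hw
    subst hw
    obtain ⟨-, a, ha, haw⟩ := hu
    have h4 : Conn G (C ∪ D) := hC.union hD.2.1 (Or.inr ⟨w, hwC, a, ha, haw.symm⟩)
    have h5 := hno (C ∪ D) h4 (Set.disjoint_union_left.2 ⟨hCF, hFD.symm⟩) ⟨a, Or.inr ha, ha⟩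
    obtain ⟨q, hq, hqQ⟩ := hCQ
    have h6 : q ∈ (C ∪ D) ∩ Q := ⟨Or.inl hq, hqQ⟩
    rw [h5] at h6
    exact h6
  refine ⟨(Set.ncard_le_ncard hsub (Set.toFinite _)).trans hF.le, ?_, h3⟩
  rw [Set.disjoint_left]
  intro q hqD hqQ
  have h5 := hno {q} (Conn.singleton G q) (by
    rw [Set.disjoint_singleton_left]
    exact fun h => Set.disjoint_left.1 hFD h hqD) ⟨q, rfl, hqD⟩
  have h6 : q ∈ ({q} : Set V) ∩ Q := ⟨rfl, hqQ⟩
  rw [h5] at h6
  exact h6

/-- the contradiction: many light clusters with disjoint pairs -/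
theorem main [Finite V] (hV3 : S_V3) (hDDd : S_DDd) {N m k₀ K : ℕ} {Q₁ Q₂ : Set V}
    (hK : m * k₀ + 4 * m + k₀ + 1 ≤ K) (hB : Bip G Q₁ Q₂ (4 * m + m * k₀ + N))
    (D P : ℕ → Set V) (hD : ∀ i < m, IsComp G {v | ¬ Hv G (Q₁ ∪ Q₂) K {v}} (D i))
    (hl : ∀ i < m, ¬ Hv G (Q₁ ∪ Q₂) k₀ (D i)) (hP : ∀ i < m, P i ⊆ nb G (D i))
    (hP2 : ∀ i < m, (P i).ncard = 2) (hDD : ∀ i < m, ∀ j < m, i ≠ j → D i ≠ D j)
    (hPP : ∀ i < m, ∀ j < m, i ≠ j → Disjoint (P i) (P j))
    (hE : ∀ i < m, ∀ j < m, i ≠ j → P j ∩ nb G (D i) = ∅) : IMS (DD N m) G Set.univ := by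
  classical
  have hkK : k₀ ≤ K := by omega
  rcases isEmpty_or_nonempty V with hV | hV
  · have h1 := hB.2.1
    have h2 : Q₁ = ∅ := Set.eq_empty_of_isEmpty Q₁
    rw [h2, Set.ncard_empty] at h1
    obtain rfl : m = 0 := by omega
    obtain rfl : N = 0 := by omega
    refine ⟨fun _ => ∅, ?_, ?_, ?_, ?_⟩
    · rintro (i | i)
      · exact i.elim0
      · exact i.elim0
    · rintro (i | i)
      · exact i.elim0
      · exact i.elim0
    · rintro (i | i)
      · exact i.elim0
      · exact i.elim0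
    · rintro (i | i)
      · exact i.elim0
      · exact i.elim0
  -- the two elements of the pairs
  have hab : ∀ i, ∃ a b : V, i < m → a ≠ b ∧ P i = {a, b} := by
    intro i
    by_cases hi : i < m
    · obtain ⟨a, b, h⟩ := Set.ncard_eq_two.1 (hP2 i hi)
      exact ⟨a, b, fun _ => h⟩
    · obtain ⟨a⟩ := hV
      exact ⟨a, a, fun h => absurd h hi⟩
  choose a b hab using hab
  obtain ⟨x, hx⟩ : ∃ x : ℕ → V, x = fun j => if j % 2 = 0 then a (j / 2) else b (j / 2) := ⟨_, rfl⟩
  have hx0 : ∀ q, x (2 * q) = a q := by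
    intro q
    rw [hx]
    beta_reduce
    rw [if_pos (by omega)]
    congr 1
    omega
  have hx1 : ∀ q, x (2 * q + 1) = b q := by
    intro q
    rw [hx]
    beta_reduce
    rw [if_neg (by omega)]
    congr 1
    omega
  have hPx : ∀ q < m, P q = {x (2 * q), x (2 * q + 1)} := by
    intro q hq
    rw [hx0, hx1]
    exact (hab q hq).2
  have hxP : ∀ j < 2 * m, x j ∈ P (j / 2) := by
    intro j hj
    rw [hPx (j / 2) (by omega)]
    rcases Nat.even_or_odd' j with ⟨t, ht | ht⟩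
    · left
      congr 1
      omega
    · right
      rw [Set.mem_singleton_iff]
      congr 1
      omega
  have hinj : ∀ i < 2 * m, ∀ j < 2 * m, x i = x j → i = j := by
    intro i hi j hj hij
    have h1 := hxP i hi
    have h2 := hxP j hj
    rw [hij] at h1
    have h3 : i / 2 = j / 2 := by
      by_contra hne
      exact Set.disjoint_left.1 (hPP (i / 2) (by omega) (j / 2) (by omega) hne) h1 h2
    have h4 := (hab (i / 2) (by omega)).1
    rcases Nat.even_or_odd' i with ⟨t, ht | ht⟩ <;> rcases Nat.even_or_odd' j with ⟨u, hu | hu⟩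
    · omega
    · exfalso
      apply h4
      have e1 : i / 2 = t := by omega
      have e2 : j / 2 = t := by omega
      have e3 : u = t := by omega
      rw [ht, hu, hx0, hx1, e3] at hij
      rw [e1]
      exact hij
    · exfalso
      apply h4
      have e1 : i / 2 = t := by omega
      have e3 : u = t := by omega
      rw [ht, hu, hx0, hx1, e3] at hij
      rw [e1]
      exact hij.symm
    · omega
  have hnb : ∀ i < m, (nb G (D i)).ncard ≤ k₀ ∧ Disjoint (D i) (Q₁ ∪ Q₂) ∧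
      ∀ v ∈ nb G (D i), Hv G (Q₁ ∪ Q₂) K {v} := fun i hi => light_nb hkK (hD i hi) (hl i hi)
  -- the forbidden set
  obtain ⟨R, hR⟩ : ∃ R : Set V, R = {v | ∃ i ∈ Finset.range m, v ∈ nb G (D i) \ P i} := ⟨_, rfl⟩
  obtain ⟨Z, hZ⟩ : ∃ Z : Set V, Z = {v | ∃ i ∈ Finset.range m, v ∈ D i} ∪ R := ⟨_, rfl⟩
  have hRc : R.ncard ≤ m * k₀ := by
    rw [hR]
    have := ncard_bU (Finset.range m) (fun i => nb G (D i) \ P i) k₀ (fun i hi =>
      (Set.ncard_le_ncard Set.sdiff_subset (Set.toFinite _)).trans (hnb i (Finset.mem_range.1 hi)).1)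
    rwa [Finset.card_range] at this
  have hZQ : (Z ∩ (Q₁ ∪ Q₂)).ncard ≤ m * k₀ := by
    refine (Set.ncard_le_ncard ?_ (Set.toFinite _)).trans hRc
    rintro v ⟨hv, hvQ⟩
    rw [hZ] at hv
    rcases hv with ⟨i, hi, hv⟩ | hv
    · exact absurd hvQ (Set.disjoint_left.1 (hnb i (Finset.mem_range.1 hi)).2.1 hv)
    · exact hv
  have hxR : ∀ j < 2 * m, x j ∉ R := by
    intro j hj hv
    rw [hR] at hv
    obtain ⟨i, hi, hv1, hv2⟩ := hv
    have hi' := Finset.mem_range.1 hi
    by_cases hij : i = j / 2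
    · subst hij
      exact hv2 (hxP j hj)
    · have h1 := hE i hi' (j / 2) (by omega) hij
      have h2 : x j ∈ P (j / 2) ∩ nb G (D i) := ⟨hxP j hj, hv1⟩
      rw [h1] at h2
      exact h2
  have hxD : ∀ j < 2 * m, ∀ i < m, x j ∉ D i := by
    intro j hj i hi hv
    have h1 := (hnb (j / 2) (by omega)).2.2 (x j) (hP (j / 2) (by omega) (hxP j hj))
    exact (hD i hi).1 hv h1
  have hV3' := hV3 V G Q₁ Q₂ Z (2 * m) N (4 * m + m * k₀ + N) (fun j => {x j}) hB (by omega) (by
    intro X J hXJ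
    have h1 : ∃ i < 2 * m, i ∉ J ∧ x i ∉ X := by
      by_contra hcon
      push Not at hcon
      have h2 : (Finset.range (2 * m)).card ≤ J.card + X.ncard := by
        have h3 : Finset.range (2 * m) ⊆ J ∪ (Finset.range (2 * m)).filter (fun i => x i ∈ X) := by
          intro i hi
          rw [Finset.mem_union, Finset.mem_filter]
          by_cases hiJ : i ∈ J
          · exact Or.inl hiJ
          · exact Or.inr ⟨hi, hcon i (Finset.mem_range.1 hi) hiJ⟩
        refine (Finset.card_le_card h3).trans ((Finset.card_union_le _ _).trans ?_)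
        apply Nat.add_le_add_left
        have h4 : ((Finset.range (2 * m)).filter (fun i => x i ∈ X)).card =
            (((Finset.range (2 * m)).filter (fun i => x i ∈ X)).image x).card := by
          rw [Finset.card_image_of_injOn]
          intro i hi j hj hij
          rw [Finset.mem_coe, Finset.mem_filter, Finset.mem_range] at hi hj
          exact hinj i hi.1 j hj.1 hij
        rw [h4, ← Set.ncard_coe_finset]
        apply Set.ncard_le_ncard _ (Set.toFinite _)
        intro v hv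
        rw [Finset.mem_coe, Finset.mem_image] at hv
        obtain ⟨i, hi, rfl⟩ := hv
        exact (Finset.mem_filter.1 hi).2
      rw [Finset.card_range] at h2
      omega
    obtain ⟨i, hi, hiJ, hiX⟩ := h1
    refine ⟨i, hi, hiJ, ?_⟩
    obtain ⟨F, hF⟩ : ∃ F : Set V, F = (X ∪ R ∪ ((Finset.range (2 * m)).image x : Finset V)) \ {x i} := ⟨_, rfl⟩
    have hFc : F.ncard < K := by
      have e1 : F.ncard ≤ (X ∪ R ∪ ((Finset.range (2 * m)).image x : Finset V)).ncard := by
        rw [hF]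
        exact Set.ncard_le_ncard Set.sdiff_subset (Set.toFinite _)
      have e2 := Set.ncard_union_le (X ∪ R) ((Finset.range (2 * m)).image x : Finset V)
      have e3 := Set.ncard_union_le X R
      have e4 : ((((Finset.range (2 * m)).image x : Finset V)) : Set V).ncard ≤ 2 * m := by
        rw [Set.ncard_coe_finset]
        exact Finset.card_image_le.trans (by rw [Finset.card_range])
      omega
    obtain ⟨C, hC, hCF, ⟨w, hwC, hw⟩, hCQ⟩ := (hnb (i / 2) (by omega)).2.2 (x i)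
      (hP (i / 2) (by omega) (hxP i hi)) F hFc (by
        rw [Set.disjoint_singleton_right, hF]
        exact fun h => h.2 rfl)
    rw [Set.mem_singleton_iff] at hw
    subst hw
    have hCX : ∀ v ∈ C, v ∉ X := by
      intro v hv hvX
      have h2 : v ≠ x i := fun h => hiX (h ▸ hvX)
      exact Set.disjoint_left.1 hCF hv (by rw [hF]; exact ⟨Or.inl (Or.inl hvX), h2⟩)
    have hCR : ∀ v ∈ C, v ∉ R := by
      intro v hv hvX
      have h2 : v ≠ x i := fun h => hxR i hi (h ▸ hvX)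
      exact Set.disjoint_left.1 hCF hv (by rw [hF]; exact ⟨Or.inl (Or.inr hvX), h2⟩)
    have hCx : ∀ j < 2 * m, x j ∈ C → x j = x i := by
      intro j hj hv
      by_contra h2
      exact Set.disjoint_left.1 hCF hv (by
        rw [hF]
        refine ⟨Or.inr ?_, h2⟩
        rw [Finset.mem_coe]
        exact Finset.mem_image_of_mem x (Finset.mem_range.2 hj))
    -- the component of `C` without the clusters
    obtain ⟨DD, hDDe⟩ : ∃ DD : Set V, DD = {v | ∃ i ∈ Finset.range m, v ∈ D i} := ⟨_, rfl⟩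
    have hxDD : x i ∉ DD := by
      rw [hDDe]
      rintro ⟨j, hj, hv⟩
      exact hxD i hi j (Finset.mem_range.1 hj) hv
    obtain ⟨C', hC'1, hC'2, hC'3, hC'4⟩ := exists_comp G (A := C \ DD) ⟨hwC, hxDD⟩
    have hCC : C' ∪ (C ∩ DD) = C := by
      apply hC.eq_of_nb
      · apply Set.union_subset
        · exact fun v hv => (hC'1 hv).1
        · exact Set.inter_subset_left
      · exact ⟨x i, Or.inl hC'2⟩
      · rintro v hv ⟨hv1, c, hc, hcv⟩
        have hv2 : v ∉ DD := fun h => hv1 (Or.inr ⟨hv, h⟩)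
        have hv3 : v ∉ C' := fun h => hv1 (Or.inl h)
        rcases hc with hc | ⟨hcC, hcD⟩
        · exact hC'4 v ⟨hv, hv2⟩ ⟨hv3, c, hc, hcv⟩
        · rw [hDDe] at hcD
          obtain ⟨j, hj, hcj⟩ := hcD
          have hj' := Finset.mem_range.1 hj
          have h5 : v ∈ nb G (D j) := by
            refine ⟨fun h => hv2 ?_, c, hcj, hcv⟩
            rw [hDDe]
            exact ⟨j, hj, h⟩
          have h6 : v ∈ P j := by
            by_contra h7
            apply hCR v hv
            rw [hR]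
            exact ⟨j, hj, h5, h7⟩
          rw [hPx j hj'] at h6
          rcases h6 with h6 | h6
          · have h8 := hCx (2 * j) (by omega) (h6 ▸ hv)
            rw [← h6] at h8
            exact hv3 (h8 ▸ hC'2)
          · rw [Set.mem_singleton_iff] at h6
            have h8 := hCx (2 * j + 1) (by omega) (h6 ▸ hv)
            rw [← h6] at h8
            exact hv3 (h8 ▸ hC'2)
    refine ⟨C', hC'3, ?_, ⟨x i, hC'2, rfl⟩, ?_⟩
    · rw [Set.disjoint_left]
      intro v hv hv1
      have h5 := hC'1 hv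
      rcases hv1 with hv1 | hv1
      · exact hCX v h5.1 hv1
      · rw [hZ, ← hDDe] at hv1
        rcases hv1 with hv1 | hv1
        · exact h5.2 hv1
        · exact hCR v h5.1 hv1
    · obtain ⟨q, hq, hqQ⟩ := hCQ
      rw [← hCC] at hq
      rcases hq with hq | ⟨-, hq⟩
      · exact ⟨q, hq, hqQ⟩
      · rw [hDDe] at hq
        obtain ⟨j, hj, hq⟩ := hq
        exact absurd hqQ (Set.disjoint_left.1 (hnb j (Finset.mem_range.1 hj)).2.1 hq))
  obtain ⟨X, hM, hXZ, hXx⟩ := hV3'
  have hXx' : ∀ j < 2 * m, x j ∈ X j := by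
    intro j hj
    obtain ⟨v, hv, hv1⟩ := hXx j hj
    rw [Set.mem_singleton_iff] at hv1
    rw [← hv1]
    exact hv
  refine hDDd V G N m (Finset.range (2 * m + N)) X D (fun q => 2 * q) (fun q => 2 * q + 1) hM ?_ ?_ ?_ ?_ ?_ ?_ ?_
  · rw [Finset.card_range]
    omega
  · intro q hq
    refine ⟨(hD q hq).2.1, ?_, ?_⟩
    · rw [Finset.mem_range]
      omega
    · rw [Finset.mem_range]
      omega
  · intro q hq i hi
    rw [Finset.mem_range] at hi
    have hdis : ∀ v ∈ X i, v ∉ D q := by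
      intro v hv hvD
      exact Set.disjoint_left.1 (hXZ i hi).1 hv (by
        rw [hZ]
        exact Or.inl ⟨q, Finset.mem_range.2 hq, hvD⟩)
    have huniq : ∀ j < 2 * m, x j ∈ X i → i = j := by
      intro j hj hv
      by_contra hne
      exact Set.disjoint_left.1 (hM.2 i (Finset.mem_range.2 hi) j (Finset.mem_range.2 (by omega)) hne).1 hv
        (hXx' j hj)
    refine ⟨Set.disjoint_left.2 fun v hv hv' => hdis v hv' hv, ?_, ?_⟩
    · rintro ⟨c, hc, v, hv, hcv⟩
      have h1 : v ∈ nb G (D q) := ⟨hdis v hv, c, hc, hcv⟩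
      have h2 : v ∈ P q := by
        by_contra h3
        exact Set.disjoint_left.1 (hXZ i hi).1 hv (by
          rw [hZ, hR]
          exact Or.inr ⟨q, Finset.mem_range.2 hq, h1, h3⟩)
      rw [hPx q hq] at h2
      rcases h2 with h2 | h2
      · left
        exact huniq (2 * q) (by omega) (h2 ▸ hv)
      · right
        rw [Set.mem_singleton_iff] at h2
        exact huniq (2 * q + 1) (by omega) (h2 ▸ hv)
    · intro hi2
      have hj : i < 2 * m := by omega
      have h1 : i / 2 = q := by omega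
      have h2 := hP q hq (h1 ▸ hxP i hj)
      obtain ⟨-, c, hc, hcv⟩ := h2
      exact ⟨c, hc, x i, hXx' i hj, hcv⟩
  · intro q hq q' hq' hne
    have h1 : Disjoint (D q) (D q') := by
      rw [Set.disjoint_left]
      intro v hv hv'
      exact hDD q hq q' hq' hne (comp_eq (hD q hq) (hD q' hq') hv hv')
    refine ⟨h1, ?_⟩
    rintro ⟨c, hc, v, hv, hcv⟩
    exact (hD q hq).2.2 v ((hD q' hq').1 hv) ⟨fun h => Set.disjoint_left.1 h1 h hv, c, hc, hcv⟩
  · intro q _ q' _
    omega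
  · intro q _ q' _ h
    omega
  · intro q _ q' _ h
    omega

end x1Aux

open x1Aux in
theorem x1 (hV3 : S_V3) (hDig : S_Dig) (hDDd : S_DDd) : S_X1 := by
  classical
  intro N m k₀
  refine ⟨m * k₀ + 4 * m + k₀ + 1, (2 * k₀ + 1) * m * k₀, 4 * m + m * k₀ + N, ?_⟩
  intro K hK V _ G Q₁ Q₂ hno hB
  have hkK : k₀ ≤ K := by omega
  obtain ⟨F, hF1, hF2, hF3⟩ := max_family (α := Set V × Set V)
    (fun p => IsComp G {v | ¬ Hv G (Q₁ ∪ Q₂) K {v}} p.1 ∧ ¬ Hv G (Q₁ ∪ Q₂) k₀ p.1 ∧ p.2 ⊆ nb G p.1 ∧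
      p.2.ncard = 2) (fun p q => p.1 ≠ q.1 ∧ Disjoint p.2 q.2)
  beta_reduce at hF1 hF2 hF3
  have hcard : F.card ≤ (2 * k₀ + 1) * m := by
    by_contra hcon
    push Not at hcon
    obtain ⟨T, hTF, hTc, hTE⟩ := hDig (Set V × Set V) F (fun p q => (q.2 ∩ nb G p.1).Nonempty) k₀ m (by
      intro p hp
      obtain ⟨h1, h2, h3, h4⟩ := hF1 p hp
      refine ⟨F.filter (fun q => (q.2 ∩ nb G p.1).Nonempty), ?_, fun q hq _ h => Finset.mem_filter.2 ⟨hq, h⟩⟩
      have h5 : (F.filter (fun q => (q.2 ∩ nb G p.1).Nonempty)).card ≤ (Set.toFinite (nb G p.1)).toFinset.card := by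
        apply Finset.card_le_card_of_forall_subsingleton (fun q v => v ∈ q.2)
        · intro q hq
          obtain ⟨v, hv1, hv2⟩ := (Finset.mem_filter.1 hq).2
          exact ⟨v, (Set.Finite.mem_toFinset _).2 hv2, hv1⟩
        · rintro v _ q ⟨hq, hvq⟩ q' ⟨hq', hvq'⟩
          by_contra hne
          exact Set.disjoint_left.1 (hF2 q (Finset.mem_filter.1 hq).1 q' (Finset.mem_filter.1 hq').1 hne).2 hvq hvq'
      rw [← Set.ncard_eq_toFinset_card] at h5
      exact h5.trans (light_nb hkK h1 h2).1) hcon.le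
    apply hno
    obtain ⟨f, hfT, hfinj⟩ : ∃ f : ℕ → Set V × Set V, (∀ i < m, f i ∈ T) ∧
        ∀ i < m, ∀ j < m, i ≠ j → f i ≠ f j := by
      refine ⟨fun i => if h : i < m then ((T.equivFinOfCardEq hTc).symm ⟨i, h⟩).1 else (∅, ∅), ?_, ?_⟩
      · intro i hi
        beta_reduce
        rw [dif_pos hi]
        exact ((T.equivFinOfCardEq hTc).symm ⟨i, hi⟩).2
      · intro i hi j hj hij h
        beta_reduce at h
        rw [dif_pos hi, dif_pos hj] at h
        have h1 := (T.equivFinOfCardEq hTc).symm.injective (Subtype.ext h)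
        exact hij (by simpa using congrArg Fin.val h1)
    refine main hV3 hDDd hK hB (fun i => (f i).1) (fun i => (f i).2) ?_ ?_ ?_ ?_ ?_ ?_ ?_
    · exact fun i hi => (hF1 _ (hTF (hfT i hi))).1
    · exact fun i hi => (hF1 _ (hTF (hfT i hi))).2.1
    · exact fun i hi => (hF1 _ (hTF (hfT i hi))).2.2.1
    · exact fun i hi => (hF1 _ (hTF (hfT i hi))).2.2.2
    · exact fun i hi j hj hij => (hF2 _ (hTF (hfT i hi)) _ (hTF (hfT j hj)) (hfinj i hi j hj hij)).1
    · exact fun i hi j hj hij => (hF2 _ (hTF (hfT i hi)) _ (hTF (hfT j hj)) (hfinj i hi j hj hij)).2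
    · intro i hi j hj hij
      exact Set.not_nonempty_iff_eq_empty.1 (hTE _ (hfT i hi) _ (hfT j hj) (hfinj i hi j hj hij))
  refine ⟨{v | ∃ p ∈ F, v ∈ nb G p.1}, ?_, ?_, ?_⟩
  · refine (ncard_bU F (fun p => nb G p.1) k₀ (fun p hp => (light_nb hkK (hF1 p hp).1 (hF1 p hp).2.1).1)).trans ?_
    exact Nat.mul_le_mul_right _ hcard
  · rintro v ⟨p, hp, hv⟩
    exact (light_nb hkK (hF1 p hp).1 (hF1 p hp).2.1).2.2 v hv
  · intro D hD hDl
    by_contra hcon
    push Not at hcon
    obtain ⟨P, hP, hP2⟩ := Set.exists_subset_card_eq (s := nb G D \ {v | ∃ p ∈ F, v ∈ nb G p.1}) (n := 2) hcon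
    have hDF : ∀ p ∈ F, D ≠ p.1 := by
      rintro p hp rfl
      obtain ⟨v, hv⟩ : P.Nonempty := by
        rw [Set.nonempty_iff_ne_empty]
        rintro rfl
        rw [Set.ncard_empty] at hP2
        omega
      exact (hP hv).2 ⟨p, hp, (hP hv).1⟩
    have hPF : ∀ p ∈ F, Disjoint P p.2 := by
      intro p hp
      rw [Set.disjoint_left]
      intro v hv hv'
      exact (hP hv).2 ⟨p, hp, (hF1 p hp).2.2.1 hv'⟩
    obtain ⟨q, hq, hno'⟩ := hF3 (D, P) ⟨hD, hDl, fun v hv => (hP hv).1, hP2⟩ (fun h => hDF _ h rfl)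
    exact hno' ⟨⟨hDF q hq, hPF q hq⟩, ⟨fun h => hDF q hq h.symm, (hPF q hq).symm⟩⟩

end Pool.Agent.MPd439b2.KS
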