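import Pool.Agent.Lib.MP_d439b2_co.KS.SpecX

/-!
# MP_d439b2_co, Theorem K: Lemma A (`S_X2`)
-/

set_option autoImplicit false

namespace Pool.Agent.MPd439b2.KS

namespace x2Aux

variable {V : Type} {G : SimpleGraph V}

/-- The admissible sets `A`. -/
def Adm (G : SimpleGraph V) (U Q : Set V) (k : ℕ) (A : Set V) : Prop :=
  A ⊆ U ∧ Q ⊆ A ∧ ∀ C, IsComp G (U \ A) C → (nb G C ∩ U).ncard ≤ k

theorem adm_univ (U Q : Set V) (k : ℕ) (hQ : Q ⊆ U) : Adm G U Q k U := by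
  refine ⟨subset_rfl, hQ, fun C hC => ?_⟩
  obtain ⟨x, hx⟩ := hC.2.1.1
  exact absurd (hC.1 hx).1 (hC.1 hx).2

/-- a connected set meeting a component is contained in it -/
theorem sub_comp {X C D : Set V} (hC : IsComp G X C) (hD : Conn G D) (hDX : D ⊆ X)
    (h : (D ∩ C).Nonempty) : D ⊆ C := by
  have h1 := hD.eq_of_nb (C := D ∩ C) Set.inter_subset_left h (by
    intro v hv hvn
    obtain ⟨hv1, b, hb, hbv⟩ := hvn
    exact hC.2.2 v (hDX hv) ⟨fun h => hv1 ⟨hv, h⟩, b, hb.2, hbv⟩)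
  rw [← h1]
  exact Set.inter_subset_right

/-- Part (1): the exchange step. -/
theorem step1 [Finite V] {U Q A C P F : Set V} {k : ℕ} (hA : A ⊆ U)
    (hC : C ⊆ U \ A) (hPU : P ⊆ U) (hFU : F ⊆ U) (hPF : Disjoint P F) (hPQ : Disjoint P Q)
    (hnb : nb G P ∩ U ⊆ F) (hk : F.ncard ≤ k)
    (hlt : (nb G C ∩ U ∩ P).ncard < (F ∩ C).ncard) :
    ∃ P' F' : Set V, P' ⊆ U ∧ F' ⊆ U ∧ Disjoint P' F' ∧ Disjoint P' Q ∧ nb G P' ∩ U ⊆ F' ∧
      F'.ncard ≤ k ∧ F'.ncard < F.ncard ∧ A ∩ (P' ∪ F') = A ∩ (P ∪ F) := by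
  have hcard : ((F \ C) ∪ (nb G C ∩ U ∩ P)).ncard < F.ncard := by
    have h1 := Set.ncard_union_le (F \ C) (nb G C ∩ U ∩ P)
    have h2 : (F \ C).ncard + (F ∩ C).ncard = F.ncard := by
      rw [add_comm]
      exact Set.ncard_inter_add_ncard_sdiff_eq_ncard F C (Set.toFinite _)
    omega
  refine ⟨P \ (C ∪ nb G C), (F \ C) ∪ (nb G C ∩ U ∩ P), fun x hx => hPU hx.1, ?_, ?_, ?_, ?_,
    by omega, hcard, ?_⟩
  · rintro x (hx | hx)
    · exact hFU hx.1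
    · exact hx.1.2
  · rw [Set.disjoint_left]
    rintro x hx (hx' | hx')
    · exact Set.disjoint_left.mp hPF hx.1 hx'.1
    · exact hx.2 (Or.inr hx'.1.1)
  · exact hPQ.mono_left Set.sdiff_subset
  · rintro v ⟨⟨hv1, p, hp, hpv⟩, hvU⟩
    have hvC : v ∉ C := fun hvC => by
      by_cases hpC : p ∈ C
      · exact hp.2 (Or.inl hpC)
      · exact hp.2 (Or.inr ⟨hpC, v, hvC, hpv.symm⟩)
    by_cases hvP : v ∈ P
    · right
      have h1 : v ∈ C ∪ nb G C := by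
        by_contra h
        exact hv1 ⟨hvP, h⟩
      rcases h1 with h1 | h1
      · exact absurd h1 hvC
      · exact ⟨⟨h1, hvU⟩, hvP⟩
    · left
      exact ⟨hnb ⟨⟨hvP, p, hp.1, hpv⟩, hvU⟩, hvC⟩
  · ext x
    constructor
    · rintro ⟨hxA, (hx | hx | hx)⟩
      · exact ⟨hxA, Or.inl hx.1⟩
      · exact ⟨hxA, Or.inr hx.1⟩
      · exact ⟨hxA, Or.inl hx.2⟩
    · rintro ⟨hxA, hx⟩
      have hxC : x ∉ C := fun h => (hC h).2 hxA
      refine ⟨hxA, ?_⟩
      rcases hx with hx | hx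
      · by_cases hn : x ∈ nb G C
        · exact Or.inr (Or.inr ⟨⟨hn, hA hxA⟩, hx⟩)
        · refine Or.inl ⟨hx, ?_⟩
          rintro (h | h)
          · exact hxC h
          · exact hn h
      · exact Or.inr (Or.inl ⟨hx, hxC⟩)

/-- Part (2): the new admissible set. -/
theorem step2 [Finite V] {U Q A P F : Set V} {k : ℕ} (hA : Adm G U Q k A)
    (hFU : F ⊆ U) (hPQ : Disjoint P Q)
    (hnb : nb G P ∩ U ⊆ F) (hk : F.ncard ≤ k)
    (h1 : ∀ C, IsComp G (U \ A) C → (F ∩ C).ncard ≤ (nb G C ∩ U ∩ P).ncard) :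
    Adm G U Q k ((A \ (P ∪ F)) ∪ F) := by
  obtain ⟨hAU, hQA, hAC⟩ := hA
  refine ⟨?_, ?_, ?_⟩
  · rintro x (hx | hx)
    · exact hAU hx.1
    · exact hFU hx
  · intro x hx
    by_cases hxF : x ∈ F
    · exact Or.inr hxF
    · refine Or.inl ⟨hQA hx, ?_⟩
      rintro (h | h)
      · exact Set.disjoint_left.mp hPQ h hx
      · exact hxF h
  · intro C' hC'
    -- no edges between `P` and `R = U \ (P ∪ F)`
    have hR : ∀ p ∈ P, ∀ v ∈ U, v ∉ P → v ∉ F → ¬ G.Adj p v := fun p hp v hv hvP hvF hpv =>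
      hvF (hnb ⟨⟨hvP, p, hp, hpv⟩, hv⟩)
    have hC'F : ∀ x ∈ C', x ∉ F := fun x hx hxF => (hC'.1 hx).2 (Or.inr hxF)
    by_cases hm : (C' ∩ P).Nonempty
    · -- `C' ⊆ P`
      have hsub : C' ⊆ P := by
        have h2 := hC'.2.1.eq_of_nb (C := C' ∩ P) Set.inter_subset_left hm (by
          intro v hv hvn
          obtain ⟨hv1, b, hb, hbv⟩ := hvn
          exact hR b hb.2 v (hC'.1 hv).1 (fun h => hv1 ⟨hv, h⟩) (hC'F v hv) hbv)
        rw [← h2]
        exact Set.inter_subset_right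
      refine le_trans (Set.ncard_le_ncard ?_ (Set.toFinite F)) hk
      rintro v ⟨hvn, hvU⟩
      by_contra hvF
      obtain ⟨hv1, c, hc, hcv⟩ := hvn
      by_cases hvP : v ∈ P
      · refine hC'.2.2 v ⟨hvU, ?_⟩ ⟨hv1, c, hc, hcv⟩
        rintro (h | h)
        · exact h.2 (Or.inl hvP)
        · exact hvF h
      · exact hR c (hsub hc) v hvU hvP hvF hcv
    · -- `C' ⊆ R \ A`
      have hCP : ∀ x ∈ C', x ∉ P := fun x hx hxP => hm ⟨x, hx, hxP⟩
      have hCA : C' ⊆ U \ A := fun x hx => ⟨(hC'.1 hx).1, fun hxA => (hC'.1 hx).2 (Or.inl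
        ⟨hxA, fun h => h.elim (hCP x hx) (hC'F x hx)⟩)⟩
      obtain ⟨x, hx⟩ := hC'.2.1.1
      obtain ⟨C, hC1, hxC, hC2, hC3⟩ := exists_comp G (hCA hx)
      have hC : IsComp G (U \ A) C := ⟨hC1, hC2, hC3⟩
      have hsub : C' ⊆ C := sub_comp hC hC'.2.1 hCA ⟨x, hx, hxC⟩
      have h2 : nb G C' ∩ U ⊆ ((nb G C ∩ U) \ P) ∪ (F ∩ C) := by
        rintro v ⟨⟨hv1, c, hc, hcv⟩, hvU⟩
        have hvP : v ∉ P := fun hvP => hR v hvP c (hC'.1 hc).1 (hCP c hc) (hC'F c hc) hcv.symm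
        by_cases hvC : v ∈ C
        · right
          refine ⟨?_, hvC⟩
          by_contra hvF
          refine hC'.2.2 v ⟨hvU, ?_⟩ ⟨hv1, c, hc, hcv⟩
          rintro (h | h)
          · exact (hC1 hvC).2 h.1
          · exact hvF h
        · left
          exact ⟨⟨⟨hvC, c, hsub hc, hcv⟩, hvU⟩, hvP⟩
      have h3 := Set.ncard_le_ncard h2 (Set.toFinite _)
      have h4 := Set.ncard_union_le ((nb G C ∩ U) \ P) (F ∩ C)
      have h5 := Set.ncard_inter_add_ncard_sdiff_eq_ncard (nb G C ∩ U) P (Set.toFinite _)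
      have h6 := h1 C hC
      have h7 := hAC C hC
      omega

/-- The statement for subsets of `U`. -/
theorem main [Finite V] {U Q A : Set V} {k : ℕ} (hA : Adm G U Q k A)
    (hmin : ∀ A', Adm G U Q k A' → A.ncard ≤ A'.ncard) (n : ℕ) :
    ∀ P F : Set V, F.ncard = n → P ⊆ U → F ⊆ U → Disjoint P F → Disjoint P Q →
      nb G P ∩ U ⊆ F → F.ncard ≤ k → (A ∩ (P ∪ F)).ncard ≤ F.ncard := by
  induction n using Nat.strong_induction_on with
  | _ n ih =>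
    intro P F hn hPU hFU hPF hPQ hnb hk
    by_contra hcon
    push Not at hcon
    have h1 : ∀ C, IsComp G (U \ A) C → (F ∩ C).ncard ≤ (nb G C ∩ U ∩ P).ncard := by
      intro C hC
      by_contra hlt
      push Not at hlt
      obtain ⟨P', F', a1, a2, a3, a4, a5, a6, a7, a8⟩ :=
        step1 hA.1 hC.1 hPU hFU hPF hPQ hnb hk hlt
      have h2 := ih F'.ncard (by omega) P' F' rfl a1 a2 a3 a4 a5 a6
      rw [a8] at h2
      omega
    have h2 := hmin _ (step2 hA hFU hPQ hnb hk h1)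
    have h3 := Set.ncard_union_le (A \ (P ∪ F)) F
    have h4 := Set.ncard_inter_add_ncard_sdiff_eq_ncard A (P ∪ F) (Set.toFinite _)
    omega

end x2Aux

open x2Aux in
theorem x2 : S_X2 := by
  intro V _ G U Q k hQU
  obtain ⟨A, hA, hmin⟩ := (measure (fun A : Set V => A.ncard)).wf.has_min {A | Adm G U Q k A}
    ⟨U, adm_univ U Q k hQU⟩
  have hA' : Adm G U Q k A := hA
  have hmin' : ∀ A', Adm G U Q k A' → A.ncard ≤ A'.ncard := fun A' h => not_lt.mp (hmin A' h)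
  refine ⟨A, hA'.1, hA'.2.1, hA'.2.2, fun P F hPF hPQ hnb hk => ?_⟩
  have hFle : (F ∩ U).ncard ≤ F.ncard := Set.ncard_le_ncard Set.inter_subset_left (Set.toFinite _)
  have h1 := main hA' hmin' (F ∩ U).ncard (P ∩ U) (F ∩ U) rfl Set.inter_subset_right
    Set.inter_subset_right (hPF.mono Set.inter_subset_left Set.inter_subset_left)
    (hPQ.mono_left Set.inter_subset_left) (by
      rintro v ⟨⟨hv1, p, hp, hpv⟩, hvU⟩
      exact ⟨hnb ⟨fun h => hv1 ⟨h, hvU⟩, p, hp.1, hpv⟩, hvU⟩) (hFle.trans hk)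
  have h2 : A ∩ (P ∩ U ∪ F ∩ U) = A ∩ (P ∪ F) := by
    rw [← Set.union_inter_distrib_right, ← Set.inter_assoc, Set.inter_right_comm,
      Set.inter_eq_left.mpr hA'.1]
  rw [h2] at h1
  exact h1.trans hFle

end Pool.Agent.MPd439b2.KS
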