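import Pool.Agent.Lib.MP_d439b2_co.KS.SpecX

/-!
# MP_d439b2_co, KS, X3: every bad component has a target
-/

set_option autoImplicit false

namespace Pool.Agent.MPd439b2.KS

namespace x3Aux

variable {V : Type} {G : SimpleGraph V} {Q U A : Set V} {c K : ℕ}

theorem comp_sub {X D C : Set V} (h : IsComp G X D) (hC : Conn G C) (hCX : C ⊆ X)
    (hne : (C ∩ D).Nonempty) : C ⊆ D := by
  have h1 : C ∩ D = C := hC.eq_of_nb Set.inter_subset_left hne (by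
    rintro v hv ⟨hv1, a, ha, hav⟩
    apply hv1
    refine ⟨hv, ?_⟩
    by_contra hvD
    exact h.2.2 v (hCX hv) ⟨hvD, a, ha.2, hav⟩)
  rw [← h1]
  exact Set.inter_subset_right

theorem comp_eq {X D D' : Set V} (h : IsComp G X D) (h' : IsComp G X D') {v : V} (hv : v ∈ D)
    (hv' : v ∈ D') : D = D' :=
  Set.Subset.antisymm (comp_sub h' h.2.1 h.1 ⟨v, hv, hv'⟩) (comp_sub h h'.2.1 h'.1 ⟨v, hv', hv⟩)

theorem exists_isComp (G : SimpleGraph V) {X : Set V} {v : V} (hv : v ∈ X) :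
    ∃ D, IsComp G X D ∧ v ∈ D := by
  obtain ⟨C, h1, h2, h3, h4⟩ := exists_comp G hv
  exact ⟨C, ⟨h1, h3, h4⟩, h2⟩

theorem bad_sub (hAU : A ⊆ U) : badS G Q U A c ⊆ U := by
  rintro v (h | ⟨C, hC, -, hv⟩)
  · exact hAU h.1
  · exact (hC.1 hv).1

theorem bad_light {v : V} (h : v ∈ badS G Q U A c) : ¬ Hv G Q c {v} := by
  rcases h with h | ⟨C, hC, h, hv⟩
  · exact h.2
  · exact h v hv

theorem good_not_bad {C : Set V} (hC : GdC G Q U A c C) {v : V} (hv : v ∈ C) :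
    v ∉ badS G Q U A c := by
  rintro (h | ⟨C', hC', h, hv'⟩)
  · exact (hC.1.1 hv).2 h.1
  · have := comp_eq hC.1 hC' hv hv'
    subst this
    obtain ⟨x, hx, hH⟩ := hC.2
    exact h x hx hH

theorem classify {v : V} (hv : v ∈ U) : (v ∈ A ∧ Hv G Q c {v}) ∨
    (∃ C, GdC G Q U A c C ∧ v ∈ C) ∨ v ∈ badS G Q U A c := by
  by_cases hA : v ∈ A
  · by_cases hH : Hv G Q c {v}
    · exact Or.inl ⟨hA, hH⟩
    · exact Or.inr (Or.inr (Or.inl ⟨hA, hH⟩))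
  · obtain ⟨C, hC, hvC⟩ := exists_isComp G (X := U \ A) ⟨hv, hA⟩
    by_cases h : ∃ x ∈ C, Hv G Q c {x}
    · exact Or.inr (Or.inl ⟨C, ⟨hC, h⟩, hvC⟩)
    · push Not at h
      exact Or.inr (Or.inr (Or.inr ⟨C, hC, h, hvC⟩))

theorem bad_comp {v : V} (h : v ∈ badS G Q U A c) (hA : v ∉ A) :
    ∃ C, IsComp G (U \ A) C ∧ v ∈ C ∧ C ⊆ badS G Q U A c := by
  rcases h with h | ⟨C, hC, h, hv⟩
  · exact absurd h.1 hA
  · exact ⟨C, hC, hv, fun u hu => Or.inr ⟨C, hC, h, hu⟩⟩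

theorem nb_out {C : Set V} (hC : IsComp G (U \ A) C) {w x : V} (hw : w ∈ C) (hx : x ∈ U)
    (hwx : G.Adj w x) (hxC : x ∉ C) : x ∈ A := by
  by_contra hA
  exact hC.2.2 x ⟨hx, hA⟩ ⟨hxC, w, hw, hwx⟩

theorem hv_mono {a b : ℕ} (hab : a ≤ b) {X : Set V} (h : Hv G Q b X) : Hv G Q a X :=
  fun F hF hd => h F (lt_of_lt_of_le hF hab) hd

end x3Aux

open x3Aux in
theorem x3 : S_X3 := by
  intro V _ G Q U A c k₀ K k hc B hB
  obtain ⟨b, hb⟩ := hB.2.1.1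
  have hBL : B ⊆ {v | ¬ Hv G Q K {v}} := fun v hv h => bad_light (hB.1 hv) (hv_mono hc.hcK h)
  obtain ⟨D, hD, hbD⟩ := exists_isComp G (hBL hb)
  have hBD : B ⊆ D := comp_sub hD hB.2.1 hBL ⟨b, hb, hbD⟩
  obtain ⟨hDU, hDH⟩ := hc.cl D hD ⟨b, hbD, bad_sub hc.AU (hB.1 hb)⟩
  have h1 : ∃ x ∈ D, Hv G Q c {x} := by
    by_contra hcon
    push Not at hcon
    exact hc.lw D hD.2.1 hcon hDH
  obtain ⟨x, hxD, hxH⟩ := h1
  have hne : B ≠ D := by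
    rintro rfl
    exact bad_light (hB.1 hxD) hxH
  obtain ⟨b', hb', y, ⟨hyD, hyB⟩, hby⟩ := hD.2.1.2 B hBD ⟨b, hb⟩ hne
  have hynb : y ∈ nb G B := ⟨hyB, b', hb', hby⟩
  refine ⟨y, hDU hyD, hynb, ⟨D, hD, hBD, hyD⟩, ?_⟩
  rcases classify (Q := Q) (A := A) (c := c) (G := G) (hDU hyD) with h | h | h
  · exact Or.inl h
  · exact Or.inr h
  · exact absurd hynb (hB.2.2 y h)

end Pool.Agent.MPd439b2.KS
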