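import Pool.Agent.Lib.MP_d439b2_co.KS.SpecX

/-!
# MP_d439b2_co, KS, X4: labellings exist
-/

set_option autoImplicit false

namespace Pool.Agent.MPd439b2.KS

namespace x4Aux

variable {V : Type} {G : SimpleGraph V} {Q U A : Set V} {c K : ℕ}

theorem comp_sub {X D C : Set V} (h : IsComp G X D) (hC : Conn G C) (hCX : C ⊆ X)
    (hne : (C ∩ D).Nonempty) : C ⊆ D := by
  have h1 : C ∩ D = C := hC.eq_of_nb Set.inter_subset_left hne (by
    rintro v hv ⟨hv1, a, ha, hav⟩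
    apply hv1
    refine ⟨hv, ?_⟩
    by_contra hvD
    exact h.2.2 v (hCX hv) ⟨hvD, a, ha.2, hav⟩)
  rw [← h1]
  exact Set.inter_subset_right

theorem comp_eq {X D D' : Set V} (h : IsComp G X D) (h' : IsComp G X D') {v : V} (hv : v ∈ D)
    (hv' : v ∈ D') : D = D' :=
  Set.Subset.antisymm (comp_sub h' h.2.1 h.1 ⟨v, hv, hv'⟩) (comp_sub h h'.2.1 h'.1 ⟨v, hv', hv⟩)

theorem exists_isComp (G : SimpleGraph V) {X : Set V} {v : V} (hv : v ∈ X) :
    ∃ D, IsComp G X D ∧ v ∈ D := by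
  obtain ⟨C, h1, h2, h3, h4⟩ := exists_comp G hv
  exact ⟨C, ⟨h1, h3, h4⟩, h2⟩

theorem bad_sub (hAU : A ⊆ U) : badS G Q U A c ⊆ U := by
  rintro v (h | ⟨C, hC, -, hv⟩)
  · exact hAU h.1
  · exact (hC.1 hv).1

theorem bad_light {v : V} (h : v ∈ badS G Q U A c) : ¬ Hv G Q c {v} := by
  rcases h with h | ⟨C, hC, h, hv⟩
  · exact h.2
  · exact h v hv

theorem good_not_bad {C : Set V} (hC : GdC G Q U A c C) {v : V} (hv : v ∈ C) :
    v ∉ badS G Q U A c := by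
  rintro (h | ⟨C', hC', h, hv'⟩)
  · exact (hC.1.1 hv).2 h.1
  · have := comp_eq hC.1 hC' hv hv'
    subst this
    obtain ⟨x, hx, hH⟩ := hC.2
    exact h x hx hH

theorem classify {v : V} (hv : v ∈ U) : (v ∈ A ∧ Hv G Q c {v}) ∨
    (∃ C, GdC G Q U A c C ∧ v ∈ C) ∨ v ∈ badS G Q U A c := by
  by_cases hA : v ∈ A
  · by_cases hH : Hv G Q c {v}
    · exact Or.inl ⟨hA, hH⟩
    · exact Or.inr (Or.inr (Or.inl ⟨hA, hH⟩))
  · obtain ⟨C, hC, hvC⟩ := exists_isComp G (X := U \ A) ⟨hv, hA⟩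
    by_cases h : ∃ x ∈ C, Hv G Q c {x}
    · exact Or.inr (Or.inl ⟨C, ⟨hC, h⟩, hvC⟩)
    · push Not at h
      exact Or.inr (Or.inr (Or.inr ⟨C, hC, h, hvC⟩))

theorem bad_comp {v : V} (h : v ∈ badS G Q U A c) (hA : v ∉ A) :
    ∃ C, IsComp G (U \ A) C ∧ v ∈ C ∧ C ⊆ badS G Q U A c := by
  rcases h with h | ⟨C, hC, h, hv⟩
  · exact absurd h.1 hA
  · exact ⟨C, hC, hv, fun u hu => Or.inr ⟨C, hC, h, hu⟩⟩

theorem nb_out {C : Set V} (hC : IsComp G (U \ A) C) {w x : V} (hw : w ∈ C) (hx : x ∈ U)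
    (hwx : G.Adj w x) (hxC : x ∉ C) : x ∈ A := by
  by_contra hA
  exact hC.2.2 x ⟨hx, hA⟩ ⟨hxC, w, hw, hwx⟩

theorem heavy_not_bad {v : V} (hA : v ∈ A) (hH : Hv G Q c {v}) : v ∉ badS G Q U A c := by
  rintro (h | ⟨C, hC, -, hv⟩)
  · exact h.2 hH
  · exact (hC.1 hv).2 hA

open Classical in
/-- the label of a possible target -/
noncomputable def g (G : SimpleGraph V) (Q U A : Set V) (c : ℕ) (y : V) : V ⊕ Set V :=
  if y ∈ A then Sum.inl y
  else if h : ∃ C, GdC G Q U A c C ∧ y ∈ C then Sum.inr (nb G h.choose ∩ U) else Sum.inl y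

theorem g_heavy {y : V} (h : y ∈ A) : g G Q U A c y = Sum.inl y := by
  unfold g
  rw [if_pos h]

theorem g_good {y : V} {C : Set V} (hC : GdC G Q U A c C) (hy : y ∈ C) :
    g G Q U A c y = Sum.inr (nb G C ∩ U) := by
  have h1 : y ∉ A := (hC.1.1 hy).2
  have h2 : ∃ C, GdC G Q U A c C ∧ y ∈ C := ⟨C, hC, hy⟩
  unfold g
  rw [if_neg h1, dif_pos h2]
  have h3 := h2.choose_spec
  rw [comp_eq h3.1.1 hC.1 h3.2 hy]

end x4Aux

open x4Aux in
theorem x4 (h3 : S_X3) : S_X4 := by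
  classical
  intro V _ G Q U A c k₀ K k hc
  have hcomp : ∀ v, ∃ B, v ∈ badS G Q U A c → IsComp G (badS G Q U A c) B ∧ v ∈ B := by
    intro v
    by_cases hv : v ∈ badS G Q U A c
    · obtain ⟨B, hB⟩ := exists_isComp G hv
      exact ⟨B, fun _ => hB⟩
    · exact ⟨∅, fun h => absurd h hv⟩
  choose Bc hBc using hcomp
  have htgt : ∀ B : Set V, ∃ y : V ⊕ Set V, IsComp G (badS G Q U A c) B →
      ∃ z, y = Sum.inl z ∧ Tgt G Q U A c K B z := by
    intro B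
    by_cases hB : IsComp G (badS G Q U A c) B
    · obtain ⟨z, hz⟩ := h3 V G Q U A c k₀ K k hc B hB
      exact ⟨Sum.inl z, fun _ => ⟨z, rfl, hz⟩⟩
    · exact ⟨Sum.inr ∅, fun h => absurd h hB⟩
  choose tg htg using htgt
  refine ⟨fun v => if v ∈ badS G Q U A c then (match tg (Bc v) with
    | Sum.inl z => g G Q U A c z
    | Sum.inr _ => Sum.inr ∅) else g G Q U A c v, ?_, ?_, ?_⟩
  · intro v hvA hvH
    beta_reduce
    rw [if_neg (heavy_not_bad hvA hvH), g_heavy hvA]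
  · intro C hC v hv
    beta_reduce
    rw [if_neg (good_not_bad hC hv), g_good hC hv]
  · intro B hB
    obtain ⟨z, hz, hT⟩ := htg B hB
    have hzb : z ∉ badS G Q U A c := by
      obtain ⟨-, -, -, h | ⟨C, hC, hzC⟩⟩ := hT
      · exact heavy_not_bad h.1 h.2
      · exact good_not_bad hC hzC
    refine ⟨z, hT, fun v hv => ?_⟩
    beta_reduce
    have hvb := hB.1 hv
    have h1 := hBc v hvb
    have h2 : Bc v = B := comp_eq h1.1 hB h1.2 hv
    rw [if_pos hvb, if_neg hzb, h2, hz]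

end Pool.Agent.MPd439b2.KS
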