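import Pool.Agent.Lib.MP_d439b2_co.KS.SpecX

/-!
# MP_d439b2_co, KS, X5: few labels behind a small separator
-/

set_option autoImplicit false

namespace Pool.Agent.MPd439b2.KS

namespace x5Aux

variable {V : Type} {G : SimpleGraph V} {Q U A : Set V} {c K : ℕ}

theorem comp_sub {X D C : Set V} (h : IsComp G X D) (hC : Conn G C) (hCX : C ⊆ X)
    (hne : (C ∩ D).Nonempty) : C ⊆ D := by
  have h1 : C ∩ D = C := hC.eq_of_nb Set.inter_subset_left hne (by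
    rintro v hv ⟨hv1, a, ha, hav⟩
    apply hv1
    refine ⟨hv, ?_⟩
    by_contra hvD
    exact h.2.2 v (hCX hv) ⟨hvD, a, ha.2, hav⟩)
  rw [← h1]
  exact Set.inter_subset_right

theorem comp_eq {X D D' : Set V} (h : IsComp G X D) (h' : IsComp G X D') {v : V} (hv : v ∈ D)
    (hv' : v ∈ D') : D = D' :=
  Set.Subset.antisymm (comp_sub h' h.2.1 h.1 ⟨v, hv, hv'⟩) (comp_sub h h'.2.1 h'.1 ⟨v, hv', hv⟩)

theorem exists_isComp (G : SimpleGraph V) {X : Set V} {v : V} (hv : v ∈ X) :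
    ∃ D, IsComp G X D ∧ v ∈ D := by
  obtain ⟨C, h1, h2, h3, h4⟩ := exists_comp G hv
  exact ⟨C, ⟨h1, h3, h4⟩, h2⟩

theorem bad_sub (hAU : A ⊆ U) : badS G Q U A c ⊆ U := by
  rintro v (h | ⟨C, hC, -, hv⟩)
  · exact hAU h.1
  · exact (hC.1 hv).1

theorem bad_light {v : V} (h : v ∈ badS G Q U A c) : ¬ Hv G Q c {v} := by
  rcases h with h | ⟨C, hC, h, hv⟩
  · exact h.2
  · exact h v hv

theorem good_not_bad {C : Set V} (hC : GdC G Q U A c C) {v : V} (hv : v ∈ C) :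
    v ∉ badS G Q U A c := by
  rintro (h | ⟨C', hC', h, hv'⟩)
  · exact (hC.1.1 hv).2 h.1
  · have := comp_eq hC.1 hC' hv hv'
    subst this
    obtain ⟨x, hx, hH⟩ := hC.2
    exact h x hx hH

theorem classify {v : V} (hv : v ∈ U) : (v ∈ A ∧ Hv G Q c {v}) ∨
    (∃ C, GdC G Q U A c C ∧ v ∈ C) ∨ v ∈ badS G Q U A c := by
  by_cases hA : v ∈ A
  · by_cases hH : Hv G Q c {v}
    · exact Or.inl ⟨hA, hH⟩
    · exact Or.inr (Or.inr (Or.inl ⟨hA, hH⟩))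
  · obtain ⟨C, hC, hvC⟩ := exists_isComp G (X := U \ A) ⟨hv, hA⟩
    by_cases h : ∃ x ∈ C, Hv G Q c {x}
    · exact Or.inr (Or.inl ⟨C, ⟨hC, h⟩, hvC⟩)
    · push Not at h
      exact Or.inr (Or.inr (Or.inr ⟨C, hC, h, hvC⟩))

theorem bad_comp {v : V} (h : v ∈ badS G Q U A c) (hA : v ∉ A) :
    ∃ C, IsComp G (U \ A) C ∧ v ∈ C ∧ C ⊆ badS G Q U A c := by
  rcases h with h | ⟨C, hC, h, hv⟩
  · exact absurd h.1 hA
  · exact ⟨C, hC, hv, fun u hu => Or.inr ⟨C, hC, h, hu⟩⟩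

theorem nb_out {C : Set V} (hC : IsComp G (U \ A) C) {w x : V} (hw : w ∈ C) (hx : x ∈ U)
    (hwx : G.Adj w x) (hxC : x ∉ C) : x ∈ A := by
  by_contra hA
  exact hC.2.2 x ⟨hx, hA⟩ ⟨hxC, w, hw, hwx⟩

/-- a component of `G[U \ A]` is good or contained in a bad component -/
theorem comp_cases {C : Set V} (hC : IsComp G (U \ A) C) :
    GdC G Q U A c C ∨ ∃ B, IsComp G (badS G Q U A c) B ∧ C ⊆ B := by
  by_cases h : ∃ x ∈ C, Hv G Q c {x}
  · exact Or.inl ⟨hC, h⟩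
  · push Not at h
    right
    have hCb : C ⊆ badS G Q U A c := fun u hu => Or.inr ⟨C, hC, h, hu⟩
    obtain ⟨v, hv⟩ := hC.2.1.1
    obtain ⟨B, hB, hvB⟩ := exists_isComp G (hCb hv)
    exact ⟨B, hB, comp_sub hB hC.2.1 hCb ⟨v, hv, hvB⟩⟩

theorem same_lab {lab : V → V ⊕ Set V} (hL : Lab G Q U A c K lab) {C : Set V}
    (hC : IsComp G (U \ A) C) {u v : V} (hu : u ∈ C) (hv : v ∈ C) : lab u = lab v := by
  rcases comp_cases (Q := Q) (c := c) hC with h | ⟨B, hB, hCB⟩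
  · rw [hL.lc C h u hu, hL.lc C h v hv]
  · obtain ⟨y, -, hy⟩ := hL.lb B hB
    rw [hy u (hCB hu), hy v (hCB hv)]

end x5Aux

open x5Aux in
theorem x5 : S_X5 := by
  intro V _ G Q U A c k₀ K k lab hc hL P F hPF hPQ hnb hF
  have hS := hc.sep P F hPF hPQ hnb hF
  have hS' : (A ∩ (P ∪ F)).ncard ≤ k := hS.trans hF
  have h1 : lab '' ((P ∪ F) ∩ U) ⊆ (lab '' (A ∩ (P ∪ F)) ∪ lab '' F) ∪ Sum.inr '' (𝒫 (A ∩ (P ∪ F))) := by
    rintro j ⟨y, ⟨hy, hyU⟩, rfl⟩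
    by_cases hyA : y ∈ A
    · exact Or.inl (Or.inl ⟨y, ⟨hyA, hy⟩, rfl⟩)
    obtain ⟨C, hC, hyC⟩ := exists_isComp G (X := U \ A) ⟨hyU, hyA⟩
    by_cases hCF : (C ∩ F).Nonempty
    · obtain ⟨f, hfC, hfF⟩ := hCF
      exact Or.inl (Or.inr ⟨f, hfF, same_lab hL hC hfC hyC⟩)
    rw [Set.not_nonempty_iff_eq_empty] at hCF
    have hCF' : ∀ v ∈ C, v ∉ F := by
      intro v hv hvF
      have : v ∈ C ∩ F := ⟨hv, hvF⟩
      rw [hCF] at this
      exact this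
    have hyP : y ∈ P := hy.resolve_right (hCF' y hyC)
    have hCP : C ⊆ P := by
      have h2 : C ∩ P = C := hC.2.1.eq_of_nb Set.inter_subset_left ⟨y, hyC, hyP⟩ (by
        rintro v hv ⟨hv1, a, ha, hav⟩
        have hvP : v ∉ P := fun h => hv1 ⟨hv, h⟩
        exact hCF' v hv (hnb ⟨hvP, a, ha.2, hav⟩))
      rw [← h2]
      exact Set.inter_subset_right
    have hE : nb G C ∩ U ⊆ A ∩ (P ∪ F) := by
      rintro x ⟨⟨hxC, z, hz, hzx⟩, hxU⟩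
      refine ⟨nb_out hC hz hxU hzx hxC, ?_⟩
      by_cases hxP : x ∈ P
      · exact Or.inl hxP
      · exact Or.inr (hnb ⟨hxP, z, hCP hz, hzx⟩)
    rcases comp_cases (Q := Q) (c := c) hC with h | ⟨B, hB, hCB⟩
    · right
      exact ⟨nb G C ∩ U, hE, (hL.lc C h y hyC).symm⟩
    · left
      left
      obtain ⟨t, ht, hlab⟩ := hL.lb B hB
      by_cases hBC : B = C
      · subst hBC
        exact ⟨t, hE ⟨ht.2.1, ht.1⟩, (hlab y hyC).symm⟩
      · obtain ⟨b, hb, a, ⟨haB, haC⟩, hba⟩ := hB.2.1.2 C hCB ⟨y, hyC⟩ (fun h => hBC h.symm)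
        refine ⟨a, hE ⟨⟨haC, b, hb, hba⟩, bad_sub hc.AU (hB.1 haB)⟩, ?_⟩
        rw [hlab a haB, hlab y (hCB hyC)]
  refine (Set.ncard_le_ncard h1 (Set.toFinite _)).trans ?_
  refine (Set.ncard_union_le _ _).trans ?_
  have e1 : (lab '' (A ∩ (P ∪ F)) ∪ lab '' F).ncard ≤ k + k :=
    (Set.ncard_union_le _ _).trans (Nat.add_le_add ((Set.ncard_image_le (Set.toFinite _)).trans hS')
      ((Set.ncard_image_le (Set.toFinite _)).trans hF))
  have e2 : (Sum.inr '' (𝒫 (A ∩ (P ∪ F))) : Set (V ⊕ Set V)).ncard ≤ 2 ^ k := by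
    refine (Set.ncard_image_le (Set.toFinite _)).trans ?_
    rw [Set.ncard_powerset _ (Set.toFinite _)]
    exact Nat.pow_le_pow_right (by norm_num) hS'
  omega

end Pool.Agent.MPd439b2.KS
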