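import Pool.Agent.Lib.MP_d439b2_co.KS.SpecX

/-!
# MP_d439b2_co, KS, X6: branch sets inside the parts
-/

set_option autoImplicit false

namespace Pool.Agent.MPd439b2.KS

namespace x6Aux

variable {V : Type} {G : SimpleGraph V} {Q U A : Set V} {c K : ℕ}

theorem comp_sub {X D C : Set V} (h : IsComp G X D) (hC : Conn G C) (hCX : C ⊆ X)
    (hne : (C ∩ D).Nonempty) : C ⊆ D := by
  have h1 : C ∩ D = C := hC.eq_of_nb Set.inter_subset_left hne (by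
    rintro v hv ⟨hv1, a, ha, hav⟩
    apply hv1
    refine ⟨hv, ?_⟩
    by_contra hvD
    exact h.2.2 v (hCX hv) ⟨hvD, a, ha.2, hav⟩)
  rw [← h1]
  exact Set.inter_subset_right

theorem comp_eq {X D D' : Set V} (h : IsComp G X D) (h' : IsComp G X D') {v : V} (hv : v ∈ D)
    (hv' : v ∈ D') : D = D' :=
  Set.Subset.antisymm (comp_sub h' h.2.1 h.1 ⟨v, hv, hv'⟩) (comp_sub h h'.2.1 h'.1 ⟨v, hv', hv⟩)

theorem exists_isComp (G : SimpleGraph V) {X : Set V} {v : V} (hv : v ∈ X) :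
    ∃ D, IsComp G X D ∧ v ∈ D := by
  obtain ⟨C, h1, h2, h3, h4⟩ := exists_comp G hv
  exact ⟨C, ⟨h1, h3, h4⟩, h2⟩

theorem bad_sub (hAU : A ⊆ U) : badS G Q U A c ⊆ U := by
  rintro v (h | ⟨C, hC, -, hv⟩)
  · exact hAU h.1
  · exact (hC.1 hv).1

theorem bad_light {v : V} (h : v ∈ badS G Q U A c) : ¬ Hv G Q c {v} := by
  rcases h with h | ⟨C, hC, h, hv⟩
  · exact h.2
  · exact h v hv

theorem good_not_bad {C : Set V} (hC : GdC G Q U A c C) {v : V} (hv : v ∈ C) :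
    v ∉ badS G Q U A c := by
  rintro (h | ⟨C', hC', h, hv'⟩)
  · exact (hC.1.1 hv).2 h.1
  · have := comp_eq hC.1 hC' hv hv'
    subst this
    obtain ⟨x, hx, hH⟩ := hC.2
    exact h x hx hH

theorem classify {v : V} (hv : v ∈ U) : (v ∈ A ∧ Hv G Q c {v}) ∨
    (∃ C, GdC G Q U A c C ∧ v ∈ C) ∨ v ∈ badS G Q U A c := by
  by_cases hA : v ∈ A
  · by_cases hH : Hv G Q c {v}
    · exact Or.inl ⟨hA, hH⟩
    · exact Or.inr (Or.inr (Or.inl ⟨hA, hH⟩))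
  · obtain ⟨C, hC, hvC⟩ := exists_isComp G (X := U \ A) ⟨hv, hA⟩
    by_cases h : ∃ x ∈ C, Hv G Q c {x}
    · exact Or.inr (Or.inl ⟨C, ⟨hC, h⟩, hvC⟩)
    · push Not at h
      exact Or.inr (Or.inr (Or.inr ⟨C, hC, h, hvC⟩))

theorem bad_comp {v : V} (h : v ∈ badS G Q U A c) (hA : v ∉ A) :
    ∃ C, IsComp G (U \ A) C ∧ v ∈ C ∧ C ⊆ badS G Q U A c := by
  rcases h with h | ⟨C, hC, h, hv⟩
  · exact absurd h.1 hA
  · exact ⟨C, hC, hv, fun u hu => Or.inr ⟨C, hC, h, hu⟩⟩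

theorem nb_out {C : Set V} (hC : IsComp G (U \ A) C) {w x : V} (hw : w ∈ C) (hx : x ∈ U)
    (hwx : G.Adj w x) (hxC : x ∉ C) : x ∈ A := by
  by_contra hA
  exact hC.2.2 x ⟨hx, hA⟩ ⟨hxC, w, hw, hwx⟩

/-- the bad components -/
theorem bad_cases {lab : V → V ⊕ Set V} (hAU : A ⊆ U) (hL : Lab G Q U A c K lab) {B : Set V}
    (hB : IsComp G (badS G Q U A c) B) :
    (∃ y, (∀ v ∈ B, lab v = Sum.inl y) ∧ y ∈ A ∧ Hv G Q c {y} ∧ y ∈ nb G B) ∨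
    (∃ C e, (∀ v ∈ B, lab v = Sum.inr (nb G C ∩ U)) ∧ GdC G Q U A c C ∧ e ∈ B ∧ e ∈ nb G C ∩ U) := by
  obtain ⟨y, ⟨hyU, hyB, hD, hy⟩, hlab⟩ := hL.lb B hB
  rcases hy with ⟨hyA, hyH⟩ | ⟨C, hC, hyC⟩
  · refine Or.inl ⟨y, fun v hv => ?_, hyA, hyH, hyB⟩
    rw [hlab v hv, hL.la y hyA hyH]
  · obtain ⟨-, e, he, hey⟩ := hyB
    refine Or.inr ⟨C, e, fun v hv => ?_, hC, he, ⟨?_, y, hyC, hey.symm⟩, bad_sub hAU (hB.1 he)⟩
    · rw [hlab v hv, hL.lc C hC y hyC]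
    · intro heC
      exact good_not_bad hC heC (hB.1 he)

/-- the core of a part -/
def Core (G : SimpleGraph V) (Q U A : Set V) (c : ℕ) (lab : V → V ⊕ Set V) (i : V ⊕ Set V)
    (Co : Set V) : Prop :=
  Co ⊆ {v | v ∈ U ∧ lab v = i} ∧ Conn G Co ∧ (∃ x ∈ Co, Hv G Q c {x}) ∧
    (∀ B, IsComp G (badS G Q U A c) B → B ⊆ {v | v ∈ U ∧ lab v = i} → Tch G Co B) ∧
    (∀ v ∈ A, Hv G Q c {v} → lab v = i → v ∈ Co) ∧
    (∀ C w, GdC G Q U A c C → w ∈ C → lab w = i → ∀ w' ∈ U, lab w' ≠ i → G.Adj w w' →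
      w' ∈ A ∧ ∃ z ∈ Co, G.Adj z w')

theorem core_inl {k₀ k : ℕ} {lab : V → V ⊕ Set V} (hc : Cx G Q U A c k₀ K k)
    (hL : Lab G Q U A c K lab) (a : V) (hi : ∃ v ∈ U, lab v = Sum.inl a) :
    ∃ Co, Core G Q U A c lab (Sum.inl a) Co := by
  have ha : a ∈ A ∧ Hv G Q c {a} := by
    obtain ⟨v, hv, hl⟩ := hi
    rcases classify (Q := Q) (A := A) (c := c) (G := G) hv with ⟨h1, h2⟩ | ⟨C, hC, hvC⟩ | hb
    · have := hL.la v h1 h2
      rw [hl] at this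
      have h3 : a = v := Sum.inl.inj this
      subst h3
      exact ⟨h1, h2⟩
    · have := hL.lc C hC v hvC
      rw [hl] at this
      exact absurd this (by simp)
    · obtain ⟨B, hB, hvB⟩ := exists_isComp G hb
      rcases bad_cases hc.AU hL hB with ⟨y, h1, h2, h3, -⟩ | ⟨C, e, h1, -⟩
      · have h4 := h1 v hvB
        rw [hl] at h4
        have h5 : a = y := Sum.inl.inj h4
        subst h5
        exact ⟨h2, h3⟩
      · have h4 := h1 v hvB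
        rw [hl] at h4
        exact absurd h4 (by simp)
  refine ⟨{a}, ?_, Conn.singleton G a, ⟨a, rfl, ha.2⟩, ?_, ?_, ?_⟩
  · rintro v rfl
    exact ⟨hc.AU ha.1, hL.la v ha.1 ha.2⟩
  · intro B hB hBW
    obtain ⟨b, hb⟩ := hB.2.1.1
    have hl := (hBW hb).2
    rcases bad_cases hc.AU hL hB with ⟨y, h1, h2, h3, h4⟩ | ⟨C, e, h1, -⟩
    · have h5 := h1 b hb
      rw [hl] at h5
      have h6 : a = y := Sum.inl.inj h5
      subst h6
      obtain ⟨-, b', hb', hadj⟩ := h4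
      exact ⟨a, rfl, b', hb', hadj.symm⟩
    · have h5 := h1 b hb
      rw [hl] at h5
      exact absurd h5 (by simp)
  · intro v hv hH hl
    have := hL.la v hv hH
    rw [hl] at this
    have h3 : a = v := Sum.inl.inj this
    exact h3.symm
  · intro C w hC hw hl
    have := hL.lc C hC w hw
    rw [hl] at this
    exact absurd this (by simp)

theorem core_inr {k₀ k : ℕ} {lab : V → V ⊕ Set V} (hc : Cx G Q U A c k₀ K k)
    (hL : Lab G Q U A c K lab) (E : Set V) (hi : ∃ v ∈ U, lab v = Sum.inr E) :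
    ∃ Co, Core G Q U A c lab (Sum.inr E) Co := by
  have hE : ∃ C, GdC G Q U A c C ∧ nb G C ∩ U = E := by
    obtain ⟨v, hv, hl⟩ := hi
    rcases classify (Q := Q) (A := A) (c := c) (G := G) hv with ⟨h1, h2⟩ | ⟨C, hC, hvC⟩ | hb
    · have := hL.la v h1 h2
      rw [hl] at this
      exact absurd this (by simp)
    · have := hL.lc C hC v hvC
      rw [hl] at this
      have h3 : E = nb G C ∩ U := Sum.inr.inj this
      exact ⟨C, hC, h3.symm⟩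
    · obtain ⟨B, hB, hvB⟩ := exists_isComp G hb
      rcases bad_cases hc.AU hL hB with ⟨y, h1, h2, h3, -⟩ | ⟨C, e, h1, hC, heB, he⟩
      · have h4 := h1 v hvB
        rw [hl] at h4
        exact absurd h4 (by simp)
      · have h4 := h1 v hvB
        rw [hl] at h4
        have h5 : E = nb G C ∩ U := Sum.inr.inj h4
        exact ⟨C, hC, h5.symm⟩
  obtain ⟨Co, hCo, hE⟩ := hE
  refine ⟨Co, ?_, hCo.1.2.1, hCo.2, ?_, ?_, ?_⟩
  · intro v hv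
    refine ⟨(hCo.1.1 hv).1, ?_⟩
    rw [hL.lc Co hCo v hv, hE]
  · intro B hB hBW
    obtain ⟨b, hb⟩ := hB.2.1.1
    have hl := (hBW hb).2
    rcases bad_cases hc.AU hL hB with ⟨y, h1, h2, h3, h4⟩ | ⟨C, e, h1, hC, heB, he⟩
    · have h5 := h1 b hb
      rw [hl] at h5
      exact absurd h5 (by simp)
    · have h5 := h1 b hb
      rw [hl] at h5
      have h6 : E = nb G C ∩ U := Sum.inr.inj h5
      rw [← h6, ← hE] at he
      obtain ⟨⟨-, z, hz, hze⟩, -⟩ := he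
      exact ⟨z, hz, e, heB, hze⟩
  · intro v hv hH hl
    have := hL.la v hv hH
    rw [hl] at this
    exact absurd this (by simp)
  · intro C w hC hw hl w' hw' hl' hadj
    have h1 := hL.lc C hC w hw
    rw [hl] at h1
    have h2 : E = nb G C ∩ U := Sum.inr.inj h1
    have h3 : w' ∉ C := by
      intro h
      apply hl'
      rw [hL.lc C hC w' h, ← h2]
    refine ⟨nb_out hC.1 hw hw' hadj h3, ?_⟩
    have h4 : w' ∈ nb G C ∩ U := ⟨⟨h3, w, hw, hadj⟩, hw'⟩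
    rw [← h2, ← hE] at h4
    exact h4.1.2

/-- the branch set of a part -/
theorem branch {k₀ k : ℕ} {lab : V → V ⊕ Set V} (hc : Cx G Q U A c k₀ K k)
    (hL : Lab G Q U A c K lab) (i : V ⊕ Set V) (hi : ∃ v ∈ U, lab v = i) :
    ∃ T : Set V, T ⊆ {v | v ∈ U ∧ lab v = i} ∧ Conn G T ∧ (∃ x ∈ T, Hv G Q c {x}) ∧
      (∀ v ∈ A, lab v = i → v ∈ T) ∧
      (∀ w ∈ U, lab w = i → ∀ w' ∈ U, lab w' ≠ i → G.Adj w w' →
        w ∈ T ∨ (w' ∈ A ∧ ∃ z ∈ T, G.Adj z w')) := by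
  have hcore : ∃ Co, Core G Q U A c lab i Co := by
    rcases i with a | E
    · exact core_inl hc hL a hi
    · exact core_inr hc hL E hi
  obtain ⟨Co, h1, h2, h3, h4, h5, h6⟩ := hcore
  have hbad : ∀ v ∈ badS G Q U A c, lab v = i → ∃ B, IsComp G (badS G Q U A c) B ∧
      B ⊆ {v | v ∈ U ∧ lab v = i} ∧ v ∈ B := by
    intro v hv hl
    obtain ⟨B, hB, hvB⟩ := exists_isComp G hv
    refine ⟨B, hB, fun u hu => ⟨bad_sub hc.AU (hB.1 hu), ?_⟩, hvB⟩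
    rcases bad_cases hc.AU hL hB with ⟨y, h7, -⟩ | ⟨C, e, h7, -⟩
    · rw [← hl, h7 u hu, h7 v hvB]
    · rw [← hl, h7 u hu, h7 v hvB]
  refine ⟨Co ∪ ⋃ B : {B : Set V // IsComp G (badS G Q U A c) B ∧ B ⊆ {v | v ∈ U ∧ lab v = i}}, B.1,
    ?_, ?_, ?_, ?_, ?_⟩
  · apply Set.union_subset h1
    apply Set.iUnion_subset
    intro B
    exact B.2.2
  · exact h2.union_iUnion (fun B => B.2.1.2.1) (fun B => Or.inr (h4 B.1 B.2.1 B.2.2))
  · obtain ⟨x, hx, hH⟩ := h3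
    exact ⟨x, Or.inl hx, hH⟩
  · intro v hv hl
    by_cases hH : Hv G Q c {v}
    · exact Or.inl (h5 v hv hH hl)
    · obtain ⟨B, hB, hBW, hvB⟩ := hbad v (Or.inl ⟨hv, hH⟩) hl
      exact Or.inr (Set.mem_iUnion.2 ⟨⟨B, hB, hBW⟩, hvB⟩)
  · intro w hw hl w' hw' hl' hadj
    rcases classify (Q := Q) (A := A) (c := c) (G := G) hw with ⟨h7, h8⟩ | ⟨C, hC, hwC⟩ | hb
    · exact Or.inl (Or.inl (h5 w h7 h8 hl))
    · right
      obtain ⟨h9, z, hz, hzw⟩ := h6 C w hC hwC hl w' hw' hl' hadj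
      exact ⟨h9, z, Or.inl hz, hzw⟩
    · left
      obtain ⟨B, hB, hBW, hvB⟩ := hbad w hb hl
      exact Or.inr (Set.mem_iUnion.2 ⟨⟨B, hB, hBW⟩, hvB⟩)

end x6Aux

theorem x6 : S_X6 := by
  classical
  intro V _ G Q U A c k₀ K k lab hc hL
  have h : ∀ i : V ⊕ Set V, ∃ T : Set V, (∃ v ∈ U, lab v = i) →
      (T ⊆ {v | v ∈ U ∧ lab v = i} ∧ Conn G T ∧ (∃ x ∈ T, Hv G Q c {x}) ∧
      (∀ v ∈ A, lab v = i → v ∈ T) ∧
      (∀ w ∈ U, lab w = i → ∀ w' ∈ U, lab w' ≠ i → G.Adj w w' →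
        w ∈ T ∨ (w' ∈ A ∧ ∃ z ∈ T, G.Adj z w'))) := by
    intro i
    by_cases hi : ∃ v ∈ U, lab v = i
    · obtain ⟨T, hT⟩ := x6Aux.branch hc hL i hi
      exact ⟨T, fun _ => hT⟩
    · exact ⟨∅, fun h => absurd h hi⟩
  choose T hT using h
  refine ⟨T, fun i hi => ⟨(hT i hi).1, (hT i hi).2.1, (hT i hi).2.2.1⟩, ?_⟩
  rintro i j hij ⟨w, ⟨hw, hlw⟩, w', ⟨hw', hlw'⟩, hadj⟩
  obtain ⟨-, -, -, a4, a5⟩ := hT i ⟨w, hw, hlw⟩
  obtain ⟨-, -, -, b4, b5⟩ := hT j ⟨w', hw', hlw'⟩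
  have hne : lab w' ≠ i := by
    rw [hlw']
    exact fun h => hij h.symm
  have hne' : lab w ≠ j := by
    rw [hlw]
    exact hij
  rcases a5 w hw hlw w' hw' hne hadj with h1 | ⟨h1, z, hz, hzw⟩
  · rcases b5 w' hw' hlw' w hw hne' hadj.symm with h2 | ⟨h2, z, hz, hzw⟩
    · exact ⟨w, h1, w', h2, hadj⟩
    · exact ⟨w, a4 w h2 hlw, z, hz, hzw.symm⟩
  · exact ⟨z, hz, w', b4 w' h1 hlw', hzw⟩

end Pool.Agent.MPd439b2.KS
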