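import Pool.Agent.Lib.MP_d439b2_co.KS.SpecX

/-!
# MP_d439b2_co, KS, X7: bounded parts
-/

set_option autoImplicit false

namespace Pool.Agent.MPd439b2.KS

namespace x7Aux

variable {V : Type} {G : SimpleGraph V} {Q U A : Set V} {c K : ℕ}

theorem comp_sub {X D C : Set V} (h : IsComp G X D) (hC : Conn G C) (hCX : C ⊆ X)
    (hne : (C ∩ D).Nonempty) : C ⊆ D := by
  have h1 : C ∩ D = C := hC.eq_of_nb Set.inter_subset_left hne (by
    rintro v hv ⟨hv1, a, ha, hav⟩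
    apply hv1
    refine ⟨hv, ?_⟩
    by_contra hvD
    exact h.2.2 v (hCX hv) ⟨hvD, a, ha.2, hav⟩)
  rw [← h1]
  exact Set.inter_subset_right

theorem comp_eq {X D D' : Set V} (h : IsComp G X D) (h' : IsComp G X D') {v : V} (hv : v ∈ D)
    (hv' : v ∈ D') : D = D' :=
  Set.Subset.antisymm (comp_sub h' h.2.1 h.1 ⟨v, hv, hv'⟩) (comp_sub h h'.2.1 h'.1 ⟨v, hv', hv⟩)

theorem exists_isComp (G : SimpleGraph V) {X : Set V} {v : V} (hv : v ∈ X) :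
    ∃ D, IsComp G X D ∧ v ∈ D := by
  obtain ⟨C, h1, h2, h3, h4⟩ := exists_comp G hv
  exact ⟨C, ⟨h1, h3, h4⟩, h2⟩

theorem ncard_bU {α β : Type} [Finite β] {E : Set α} (hE : E.Finite) (f : α → Set β) (n : ℕ)
    (h : ∀ e ∈ E, (f e).ncard ≤ n) : {b | ∃ e ∈ E, b ∈ f e}.ncard ≤ E.ncard * n := by
  classical
  obtain ⟨s, rfl⟩ := hE.exists_finset_coe
  rw [Set.ncard_coe_finset]
  induction s using Finset.induction_on with
  | empty => simp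
  | insert a s ha ih =>
    have e1 : {b | ∃ e ∈ (↑(insert a s) : Set α), b ∈ f e} = f a ∪ {b | ∃ e ∈ (↑s : Set α), b ∈ f e} := by
      ext b
      simp
    rw [e1, Finset.card_insert_of_notMem ha]
    refine (Set.ncard_union_le _ _).trans ?_
    have h1 := h a (by simp)
    have h2 := ih (s.finite_toSet) (fun e he => h e (by
      rw [Finset.coe_insert]
      exact Set.mem_insert_of_mem _ he))
    calc (f a).ncard + {b | ∃ e ∈ (↑s : Set α), b ∈ f e}.ncard ≤ n + s.card * n := Nat.add_le_add h1 h2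
      _ = (s.card + 1) * n := by ring

theorem bad_sub (hAU : A ⊆ U) : badS G Q U A c ⊆ U := by
  rintro v (h | ⟨C, hC, -, hv⟩)
  · exact hAU h.1
  · exact (hC.1 hv).1

theorem bad_light {v : V} (h : v ∈ badS G Q U A c) : ¬ Hv G Q c {v} := by
  rcases h with h | ⟨C, hC, h, hv⟩
  · exact h.2
  · exact h v hv

theorem good_not_bad {C : Set V} (hC : GdC G Q U A c C) {v : V} (hv : v ∈ C) :
    v ∉ badS G Q U A c := by
  rintro (h | ⟨C', hC', h, hv'⟩)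
  · exact (hC.1.1 hv).2 h.1
  · have := comp_eq hC.1 hC' hv hv'
    subst this
    obtain ⟨x, hx, hH⟩ := hC.2
    exact h x hx hH

theorem classify {v : V} (hv : v ∈ U) : (v ∈ A ∧ Hv G Q c {v}) ∨
    (∃ C, GdC G Q U A c C ∧ v ∈ C) ∨ v ∈ badS G Q U A c := by
  by_cases hA : v ∈ A
  · by_cases hH : Hv G Q c {v}
    · exact Or.inl ⟨hA, hH⟩
    · exact Or.inr (Or.inr (Or.inl ⟨hA, hH⟩))
  · obtain ⟨C, hC, hvC⟩ := exists_isComp G (X := U \ A) ⟨hv, hA⟩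
    by_cases h : ∃ x ∈ C, Hv G Q c {x}
    · exact Or.inr (Or.inl ⟨C, ⟨hC, h⟩, hvC⟩)
    · push Not at h
      exact Or.inr (Or.inr (Or.inr ⟨C, hC, h, hvC⟩))

theorem bad_comp {v : V} (h : v ∈ badS G Q U A c) (hA : v ∉ A) :
    ∃ C, IsComp G (U \ A) C ∧ v ∈ C ∧ C ⊆ badS G Q U A c := by
  rcases h with h | ⟨C, hC, h, hv⟩
  · exact absurd h.1 hA
  · exact ⟨C, hC, hv, fun u hu => Or.inr ⟨C, hC, h, hu⟩⟩

theorem nb_out {C : Set V} (hC : IsComp G (U \ A) C) {w x : V} (hw : w ∈ C) (hx : x ∈ U)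
    (hwx : G.Adj w x) (hxC : x ∉ C) : x ∈ A := by
  by_contra hA
  exact hC.2.2 x ⟨hx, hA⟩ ⟨hxC, w, hw, hwx⟩

/-- the bad components -/
theorem bad_cases {lab : V → V ⊕ Set V} (hAU : A ⊆ U) (hL : Lab G Q U A c K lab) {B : Set V}
    (hB : IsComp G (badS G Q U A c) B) :
    (∃ y, (∀ v ∈ B, lab v = Sum.inl y) ∧ y ∈ A ∧
      ∃ D, IsComp G {v | ¬ Hv G Q K {v}} D ∧ B ⊆ D ∧ y ∈ D) ∨
    (∃ C e, (∀ v ∈ B, lab v = Sum.inr (nb G C ∩ U)) ∧ GdC G Q U A c C ∧ e ∈ B ∧ e ∈ nb G C ∩ U) := by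
  obtain ⟨y, ⟨hyU, hyB, hD, hy⟩, hlab⟩ := hL.lb B hB
  rcases hy with ⟨hyA, hyH⟩ | ⟨C, hC, hyC⟩
  · refine Or.inl ⟨y, fun v hv => ?_, hyA, hD⟩
    rw [hlab v hv, hL.la y hyA hyH]
  · obtain ⟨-, e, he, hey⟩ := hyB
    refine Or.inr ⟨C, e, fun v hv => ?_, hC, he, ⟨?_, y, hyC, hey.symm⟩, bad_sub hAU (hB.1 he)⟩
    · rw [hlab v hv, hL.lc C hC y hyC]
    · intro heC
      exact good_not_bad hC heC (hB.1 he)

/-- the parts `inl a` -/
theorem caseA [Finite V] (hV1 : S_V1) (hX5 : S_X5) {k₀ k : ℕ} {lab : V → V ⊕ Set V}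
    (hc : Cx G Q U A c k₀ K k) (hL : Lab G Q U A c K lab) (a : V)
    (hi : ∃ v ∈ U, lab v = Sum.inl a) :
    (∃ a' ∈ A, {v | v ∈ U ∧ lab v = Sum.inl a} = {a'}) ∨
      ({j | j ≠ Sum.inl a ∧ Tch G {v | v ∈ U ∧ lab v = Sum.inl a} {v | v ∈ U ∧ lab v = j}}.ncard ≤
          2 * k + 2 ^ k ∧
        ({v | v ∈ U ∧ lab v = Sum.inl a} ∩ A).ncard ≤ k ∧
        (nb G ({v | v ∈ U ∧ lab v = Sum.inl a} \ A) ∩ U).ncard ≤ k) := by
  -- every vertex of the part is `a` or in a bad component attached to `a`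
  have key : ∀ v, v ∈ U → lab v = Sum.inl a → a ∈ A ∧ (v = a ∨ v ∈ badS G Q U A c ∧
      ∃ B, IsComp G (badS G Q U A c) B ∧ v ∈ B ∧ (∀ u ∈ B, lab u = Sum.inl a) ∧
        ∃ D, IsComp G {v | ¬ Hv G Q K {v}} D ∧ B ⊆ D ∧ a ∈ D) := by
    intro v hv hl
    rcases classify (Q := Q) (A := A) (c := c) (G := G) hv with ⟨h1, h2⟩ | ⟨C, hC, hvC⟩ | hb
    · have := hL.la v h1 h2
      rw [hl] at this
      have h3 : a = v := Sum.inl.inj this
      subst h3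
      exact ⟨h1, Or.inl rfl⟩
    · have := hL.lc C hC v hvC
      rw [hl] at this
      exact absurd this (by simp)
    · obtain ⟨B, hB, hvB⟩ := exists_isComp G hb
      rcases bad_cases hc.AU hL hB with ⟨y, h1, h2, h3⟩ | ⟨C, e, h1, -⟩
      · have h4 := h1 v hvB
        rw [hl] at h4
        have h5 : a = y := Sum.inl.inj h4
        subst h5
        exact ⟨h2, Or.inr ⟨hb, B, hB, hvB, h1, h3⟩⟩
      · have h4 := h1 v hvB
        rw [hl] at h4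
        exact absurd h4 (by simp)
  obtain ⟨v0, hv0, hl0⟩ := hi
  have haA : a ∈ A := (key v0 hv0 hl0).1
  by_cases hall : ∀ v, v ∈ U → lab v = Sum.inl a → v = a
  · refine Or.inl ⟨a, haA, ?_⟩
    have h1 : v0 = a := hall v0 hv0 hl0
    subst h1
    ext v
    constructor
    · rintro ⟨h2, h3⟩
      exact hall v h2 h3
    · rintro rfl
      exact ⟨hv0, hl0⟩
  · push Not at hall
    obtain ⟨v1, hv1, hl1, hne1⟩ := hall
    refine Or.inr ?_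
    obtain ⟨-, h1 | ⟨-, B1, hB1, hvB1, -, D, hD, hBD, haD⟩⟩ := key v1 hv1 hl1
    · exact absurd h1 hne1
    have hWD : ∀ v, v ∈ U → lab v = Sum.inl a → v ∈ D := by
      intro v hv hl
      obtain ⟨-, h1 | ⟨-, B, hB, hvB, -, D', hD', hBD', haD'⟩⟩ := key v hv hl
      · rw [h1]
        exact haD
      · rw [comp_eq hD hD' haD haD']
        exact hBD' hvB
    have hlK := hc.lK D hD.2.1 (fun x hx => hD.1 hx)
    obtain ⟨F, P, hF, hFP, hDP, hPQ, hnb⟩ := hV1 V G Q D k hlK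
    have hout : ∀ w x, w ∈ U → lab w = Sum.inl a → G.Adj w x → x ∈ P ∪ F := by
      intro w x hw hl hwx
      by_cases hxP : x ∈ P
      · exact Or.inl hxP
      · exact Or.inr (hnb ⟨hxP, w, hDP (hWD w hw hl), hwx⟩)
    have hsep := hc.sep P F hFP.symm hPQ hnb hF.le
    refine ⟨?_, ?_, ?_⟩
    · refine le_trans (Set.ncard_le_ncard (t := lab '' ((P ∪ F) ∩ U)) ?_ (Set.toFinite _))
        (hX5 V G Q U A c k₀ K k lab hc hL P F hFP.symm hPQ hnb hF.le)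
      rintro j ⟨hj, w, hw, w', hw', hww⟩
      exact ⟨w', ⟨hout w w' hw.1 hw.2 hww, hw'.1⟩, hw'.2⟩
    · refine le_trans (Set.ncard_le_ncard (t := A ∩ (P ∪ F)) ?_ (Set.toFinite _)) (hsep.trans hF.le)
      rintro v ⟨⟨h1, h2⟩, h3⟩
      exact ⟨h3, Or.inl (hDP (hWD v h1 h2))⟩
    · refine le_trans (Set.ncard_le_ncard (t := A ∩ (P ∪ F)) ?_ (Set.toFinite _)) (hsep.trans hF.le)
      rintro x ⟨⟨hx, w, ⟨⟨hw1, hw2⟩, hwA⟩, hwx⟩, hxU⟩
      refine ⟨?_, hout w x hw1 hw2 hwx⟩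
      obtain ⟨-, h1 | ⟨hb, B, hB, hwB, hlB, -⟩⟩ := key w hw1 hw2
      · exact absurd (by rw [h1]; exact haA) hwA
      · obtain ⟨C, hC, hwC, hCb⟩ := bad_comp hb hwA
        have hCB : C ⊆ B := comp_sub hB hC.2.1 hCb ⟨w, hwC, hwB⟩
        apply nb_out hC hwC hxU hwx
        intro hxC
        exact hx ⟨⟨hxU, hlB x (hCB hxC)⟩, (hC.1 hxC).2⟩

/-- the parts `inr E` -/
theorem caseB [Finite V] (hV1 : S_V1) (hX5 : S_X5) {k₀ k : ℕ} {lab : V → V ⊕ Set V}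
    (hc : Cx G Q U A c k₀ K k) (hL : Lab G Q U A c K lab) (E : Set V)
    (hi : ∃ v ∈ U, lab v = Sum.inr E) :
      ({j | j ≠ Sum.inr E ∧ Tch G {v | v ∈ U ∧ lab v = Sum.inr E} {v | v ∈ U ∧ lab v = j}}.ncard ≤
          k + k * (2 * k + 2 ^ k) ∧
        ({v | v ∈ U ∧ lab v = Sum.inr E} ∩ A).ncard ≤ k * k ∧
        (nb G ({v | v ∈ U ∧ lab v = Sum.inr E} \ A) ∩ U).ncard ≤ k + k * k) := by
  have key : ∀ v, v ∈ U → lab v = Sum.inr E →
      (∃ C, GdC G Q U A c C ∧ v ∈ C ∧ nb G C ∩ U = E) ∨ (v ∈ badS G Q U A c ∧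
      ∃ B e C, IsComp G (badS G Q U A c) B ∧ v ∈ B ∧ (∀ u ∈ B, lab u = Sum.inr E) ∧ e ∈ B ∧ e ∈ E ∧
        GdC G Q U A c C ∧ nb G C ∩ U = E) := by
    intro v hv hl
    rcases classify (Q := Q) (A := A) (c := c) (G := G) hv with ⟨h1, h2⟩ | ⟨C, hC, hvC⟩ | hb
    · have := hL.la v h1 h2
      rw [hl] at this
      exact absurd this (by simp)
    · have := hL.lc C hC v hvC
      rw [hl] at this
      have h3 : E = nb G C ∩ U := Sum.inr.inj this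
      exact Or.inl ⟨C, hC, hvC, h3.symm⟩
    · obtain ⟨B, hB, hvB⟩ := exists_isComp G hb
      rcases bad_cases hc.AU hL hB with ⟨y, h1, h2, h3⟩ | ⟨C, e, h1, hC, heB, he⟩
      · have h4 := h1 v hvB
        rw [hl] at h4
        exact absurd h4 (by simp)
      · have h4 := h1 v hvB
        rw [hl] at h4
        have h5 : E = nb G C ∩ U := Sum.inr.inj h4
        rw [← h5] at h1 he
        exact Or.inr ⟨hb, B, e, C, hB, hvB, h1, heB, he, hC, h5.symm⟩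
  have hE : E.ncard ≤ k := by
    obtain ⟨v0, hv0, hl0⟩ := hi
    rcases key v0 hv0 hl0 with ⟨C, hC, -, h1⟩ | ⟨-, B, e, C, -, -, -, -, -, hC, h1⟩
    · rw [← h1]
      exact hc.cA C hC.1
    · rw [← h1]
      exact hc.cA C hC.1
  have hFP : ∀ e : V, ∃ F P : Set V, Disjoint P F ∧ Disjoint P Q ∧ nb G P ⊆ F ∧ F.ncard ≤ k ∧
      ∀ B, IsComp G (badS G Q U A c) B → e ∈ B → B ⊆ P := by
    intro e
    by_cases he : e ∈ badS G Q U A c
    · obtain ⟨B, hB, heB⟩ := exists_isComp G he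
      have h1 := hc.lw B hB.2.1 (fun x hx => bad_light (hB.1 hx))
      obtain ⟨F, P, hF, hFP, hDP, hPQ, hnb⟩ := hV1 V G Q B k₀ h1
      refine ⟨F, P, hFP.symm, hPQ, hnb, hF.le.trans hc.hk₀, fun B' hB' heB' => ?_⟩
      rw [comp_eq hB' hB heB' heB]
      exact hDP
    · refine ⟨∅, ∅, by simp, by simp, ?_, by simp, fun B hB heB => absurd (hB.1 heB) he⟩
      rintro x ⟨-, y, hy, -⟩
      exact absurd hy (Set.notMem_empty y)
  choose F P hdis hPQ hnb hFk hBP using hFP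
  have hsep : ∀ e, (A ∩ (P e ∪ F e)).ncard ≤ k := fun e =>
    (hc.sep (P e) (F e) (hdis e) (hPQ e) (hnb e) (hFk e)).trans (hFk e)
  have hlabs : ∀ e, (lab '' ((P e ∪ F e) ∩ U)).ncard ≤ 2 * k + 2 ^ k := fun e =>
    hX5 V G Q U A c k₀ K k lab hc hL (P e) (F e) (hdis e) (hPQ e) (hnb e) (hFk e)
  have hout : ∀ e B w x, IsComp G (badS G Q U A c) B → e ∈ B → w ∈ B → G.Adj w x → x ∈ P e ∪ F e := by
    intro e B w x hB he hw hwx
    by_cases hxP : x ∈ P e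
    · exact Or.inl hxP
    · exact Or.inr (hnb e ⟨hxP, w, hBP e B hB he hw, hwx⟩)
  have hA2 : {x | ∃ e ∈ E, x ∈ A ∩ (P e ∪ F e)}.ncard ≤ k * k :=
    (ncard_bU (Set.toFinite E) (fun e => A ∩ (P e ∪ F e)) k (fun e _ => hsep e)).trans
      (Nat.mul_le_mul_right _ hE)
  refine ⟨?_, ?_, ?_⟩
  · have h1 : {j | j ≠ Sum.inr E ∧ Tch G {v | v ∈ U ∧ lab v = Sum.inr E} {v | v ∈ U ∧ lab v = j}} ⊆
        lab '' E ∪ {j | ∃ e ∈ E, j ∈ lab '' ((P e ∪ F e) ∩ U)} := by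
      rintro j ⟨hj, w, ⟨hw, hlw⟩, w', ⟨hw', hlw'⟩, hww⟩
      rcases key w hw hlw with ⟨C, hC, hwC, h1⟩ | ⟨-, B, e, C, hB, hwB, hlB, heB, heE, -⟩
      · left
        refine ⟨w', ?_, hlw'⟩
        rw [← h1]
        refine ⟨⟨fun hw'C => hj ?_, w, hwC, hww⟩, hw'⟩
        rw [← hlw', hL.lc C hC w' hw'C, h1]
      · right
        exact ⟨e, heE, w', ⟨hout e B w w' hB heB hwB hww, hw'⟩, hlw'⟩
    refine (Set.ncard_le_ncard h1 (Set.toFinite _)).trans ((Set.ncard_union_le _ _).trans ?_)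
    apply Nat.add_le_add
    · exact (Set.ncard_image_le (Set.toFinite E)).trans hE
    · exact (ncard_bU (Set.toFinite E) (fun e => lab '' ((P e ∪ F e) ∩ U)) (2 * k + 2 ^ k)
        (fun e _ => hlabs e)).trans (Nat.mul_le_mul_right _ hE)
  · refine (Set.ncard_le_ncard ?_ (Set.toFinite _)).trans hA2
    rintro v ⟨⟨hv, hl⟩, hvA⟩
    rcases key v hv hl with ⟨C, hC, hvC, -⟩ | ⟨-, B, e, C, hB, hvB, hlB, heB, heE, -⟩
    · exact absurd hvA (hC.1.1 hvC).2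
    · exact ⟨e, heE, hvA, Or.inl (hBP e B hB heB hvB)⟩
  · have h1 : nb G ({v | v ∈ U ∧ lab v = Sum.inr E} \ A) ∩ U ⊆
        E ∪ {x | ∃ e ∈ E, x ∈ A ∩ (P e ∪ F e)} := by
      rintro x ⟨⟨hx, w, ⟨⟨hw1, hw2⟩, hwA⟩, hwx⟩, hxU⟩
      rcases key w hw1 hw2 with ⟨C, hC, hwC, h1⟩ | ⟨hb, B, e, C, hB, hwB, hlB, heB, heE, -⟩
      · left
        rw [← h1]
        refine ⟨⟨fun hxC => hx ⟨⟨hxU, ?_⟩, (hC.1.1 hxC).2⟩, w, hwC, hwx⟩, hxU⟩
        rw [hL.lc C hC x hxC, h1]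
      · right
        obtain ⟨C, hC, hwC, hCb⟩ := bad_comp hb hwA
        have hCB : C ⊆ B := comp_sub hB hC.2.1 hCb ⟨w, hwC, hwB⟩
        refine ⟨e, heE, ?_, hout e B w x hB heB hwB hwx⟩
        apply nb_out hC hwC hxU hwx
        intro hxC
        exact hx ⟨⟨hxU, hlB x (hCB hxC)⟩, (hC.1 hxC).2⟩
    refine (Set.ncard_le_ncard h1 (Set.toFinite _)).trans ((Set.ncard_union_le _ _).trans ?_)
    exact Nat.add_le_add hE hA2

end x7Aux

theorem x7 (hV1 : S_V1) (hX5 : S_X5) : S_X7 := by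
  intro k
  refine ⟨(k + 1) * (4 * k + 2 ^ k + 1), ?_⟩
  intro V _ G Q U A c k₀ K lab hc hL i hi
  have e1 : 2 * k + 2 ^ k ≤ (k + 1) * (4 * k + 2 ^ k + 1) := by nlinarith [Nat.zero_le (2 ^ k)]
  have e2 : k ≤ (k + 1) * (4 * k + 2 ^ k + 1) := by nlinarith [Nat.zero_le (2 ^ k)]
  have e3 : k + k * (2 * k + 2 ^ k) ≤ (k + 1) * (4 * k + 2 ^ k + 1) := by nlinarith [Nat.zero_le (2 ^ k)]
  have e4 : k * k ≤ (k + 1) * (4 * k + 2 ^ k + 1) := by nlinarith [Nat.zero_le (2 ^ k)]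
  have e5 : k + k * k ≤ (k + 1) * (4 * k + 2 ^ k + 1) := by nlinarith [Nat.zero_le (2 ^ k)]
  rcases i with a | E
  · rcases x7Aux.caseA hV1 hX5 hc hL a hi with h | ⟨h1, h2, h3⟩
    · exact Or.inl h
    · exact Or.inr ⟨h1.trans e1, h2.trans e2, h3.trans e2⟩
  · obtain ⟨h1, h2, h3⟩ := x7Aux.caseB hV1 hX5 hc hL E hi
    exact Or.inr ⟨h1.trans e3, h2.trans e4, h3.trans e5⟩

end Pool.Agent.MPd439b2.KS
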