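import Pool.Agent.Lib.MP_d439b2_co.KS.SpecX

/-!
# MP_d439b2_co, KS, X8a: short connections to `Q`
-/

set_option autoImplicit false

namespace Pool.Agent.MPd439b2.KS

namespace x8aAux

variable {V : Type} {G : SimpleGraph V} {ι : Type}

/-- the number of branch sets met by `Y` -/
noncomputable def kap (Wt : ι → Set V) (Y : Set V) : ℕ := {i | (Wt i ∩ Y).Nonempty}.ncard

/-- `C` connects `y` to `Q` -/
def Con (G : SimpleGraph V) (Q : Set V) (y : V) (C : Set V) : Prop :=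
  Conn G C ∧ y ∈ C ∧ (C ∩ Q).Nonempty

/-- the minimal number of branch sets met by a connection -/
noncomputable def ff (G : SimpleGraph V) (Q : Set V) (Wt : ι → Set V) (y : V) : ℕ :=
  sInf {n | ∃ C, Con G Q y C ∧ kap Wt C = n}

theorem ff_le {Q : Set V} {Wt : ι → Set V} {y : V} {C : Set V} (h : Con G Q y C) :
    ff G Q Wt y ≤ kap Wt C := Nat.sInf_le ⟨C, h, rfl⟩

theorem ff_att {Q : Set V} {Wt : ι → Set V} {y : V} (h : ∃ C, Con G Q y C) :
    ∃ C, Con G Q y C ∧ kap Wt C = ff G Q Wt y := by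
  obtain ⟨C, hC⟩ := h
  exact Nat.sInf_mem (s := {n | ∃ C, Con G Q y C ∧ kap Wt C = n}) ⟨_, C, hC, rfl⟩

theorem one_le [Finite ι] {Wt : ι → Set V} (hdis : ∀ i j, i ≠ j → Disjoint (Wt i) (Wt j)) (y : V) :
    {i | y ∈ Wt i}.ncard ≤ 1 := by
  rw [Set.ncard_le_one]
  intro i hi j hj
  by_contra hne
  exact Set.disjoint_left.1 (hdis i j hne) hi hj

theorem con_insert {Q : Set V} {y y' : V} {C : Set V} (h : Con G Q y' C) (hadj : G.Adj y' y) :
    Con G Q y (insert y C) := by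
  refine ⟨h.1.insert ⟨y', h.2.1, hadj⟩, Set.mem_insert y C, ?_⟩
  obtain ⟨q, hq, hqQ⟩ := h.2.2
  exact ⟨q, Set.mem_insert_of_mem y hq, hqQ⟩

theorem kap_insert [Finite ι] {Wt : ι → Set V} (y : V) (C : Set V) :
    kap Wt (insert y C) ≤ kap Wt C + {i | y ∈ Wt i}.ncard := by
  unfold kap
  refine (Set.ncard_le_ncard ?_ (Set.toFinite _)).trans (Set.ncard_union_le _ _)
  rintro i ⟨v, hv, hv' | hv'⟩
  · right
    rw [← hv']
    exact hv
  · exact Or.inl ⟨v, hv, hv'⟩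

/-- step (1) -/
theorem step1 [Finite ι] {Q : Set V} {Wt : ι → Set V} (hdis : ∀ i j, i ≠ j → Disjoint (Wt i) (Wt j))
    {y y' : V} (hadj : G.Adj y y') (h : ∃ C, Con G Q y' C) :
    (∃ C, Con G Q y C) ∧ ff G Q Wt y ≤ ff G Q Wt y' + 1 ∧
      ((∀ i, y ∉ Wt i) → ff G Q Wt y ≤ ff G Q Wt y') := by
  obtain ⟨C, hC, hf⟩ := ff_att (Wt := Wt) h
  have h1 := con_insert hC hadj.symm
  have h2 := ff_le (Wt := Wt) h1
  have h3 := kap_insert (Wt := Wt) y C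
  have h4 := one_le hdis y
  refine ⟨⟨_, h1⟩, by omega, fun hno => ?_⟩
  have h5 : {i | y ∈ Wt i} = ∅ := by
    apply Set.eq_empty_of_forall_notMem
    exact hno
  rw [h5, Set.ncard_empty] at h3
  omega

/-- step (2) -/
theorem step2 [Finite ι] {Q : Set V} {Wt : ι → Set V} (hdis : ∀ i j, i ≠ j → Disjoint (Wt i) (Wt j))
    {i : ι} (hi : Conn G (Wt i)) {y y' : V} (hy : y ∈ Wt i) (hy' : y' ∈ Wt i)
    (h : ∃ C, Con G Q y' C) :
    (∃ C, Con G Q y C) ∧ ff G Q Wt y ≤ ff G Q Wt y' := by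
  obtain ⟨C, hC, hf⟩ := ff_att (Wt := Wt) h
  have h1 : Con G Q y (C ∪ Wt i) := by
    refine ⟨hC.1.union hi (Or.inl ⟨y', hC.2.1, hy'⟩), Or.inr hy, ?_⟩
    obtain ⟨q, hq, hqQ⟩ := hC.2.2
    exact ⟨q, Or.inl hq, hqQ⟩
  have h2 := ff_le (Wt := Wt) h1
  have h3 : kap Wt (C ∪ Wt i) ≤ kap Wt C := by
    unfold kap
    apply Set.ncard_le_ncard _ (Set.toFinite _)
    rintro j ⟨v, hv, hv' | hv'⟩
    · exact ⟨v, hv, hv'⟩
    · by_cases hij : j = i
      · subst hij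
        exact ⟨y', hy', hC.2.1⟩
      · exact absurd hv' (Set.disjoint_left.1 (hdis j i hij) hv)
  exact ⟨⟨_, h1⟩, by omega⟩

/-- step (3) -/
theorem step3 [Finite ι] {Q : Set V} {Wt : ι → Set V} (hdis : ∀ i j, i ≠ j → Disjoint (Wt i) (Wt j))
    {q : V} (hq : q ∈ Q) : ff G Q Wt q ≤ 1 := by
  have h1 : Con G Q q {q} := ⟨Conn.singleton G q, rfl, q, rfl, hq⟩
  refine (ff_le (Wt := Wt) h1).trans ?_
  have h2 : {i | (Wt i ∩ {q}).Nonempty} ⊆ {i | q ∈ Wt i} := by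
    rintro i ⟨v, hv, hv'⟩
    rw [Set.mem_singleton_iff] at hv'
    rw [← hv']
    exact hv
  exact (Set.ncard_le_ncard h2 (Set.toFinite _)).trans (one_le hdis q)

end x8aAux

open x8aAux in
theorem x8a : S_X8a := by
  classical
  intro V _ G Q c h ι _ Wt hfar hWt hdis x hx
  have hx' : ∃ C, Con G Q x C := by
    obtain ⟨C, h1, h2, h3⟩ := hx
    exact ⟨C, h1, h2, h3⟩
  suffices hle : ff G Q Wt x ≤ 3 * h + 3 by
    obtain ⟨C, ⟨h1, h2, h3⟩, h4⟩ := ff_att (Wt := Wt) hx'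
    refine ⟨C, h1, h2, h3, ?_⟩
    have h5 : {i | (Wt i ∩ C).Nonempty}.ncard = ff G Q Wt x := h4
    omega
  by_contra hcon
  push Not at hcon
  obtain ⟨Y, hY, hxY, q, hqY, hqQ⟩ := hx'
  have hYR : ∀ y ∈ Y, ∃ C, Con G Q y C := fun y hy => ⟨Y, hY, hy, q, hqY, hqQ⟩
  have key : ∀ t, ∃ z : V, 2 ≤ t → t ≤ ff G Q Wt x → Hv G Q c {z} ∧ (∃ C, Con G Q z C) ∧ ff G Q Wt z = t := by
    intro t
    by_cases ht : 2 ≤ t ∧ t ≤ ff G Q Wt x
    · obtain ⟨ht2, htx⟩ := ht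
      have hq1 := step3 (G := G) hdis hqQ
      obtain ⟨b, ⟨hbY, hbt⟩, a, ⟨haY, haB⟩, hba⟩ := hY.2 {y | y ∈ Y ∧ t ≤ ff G Q Wt y}
        (fun y hy => hy.1) ⟨x, hxY, htx⟩ (by
          intro heq
          have : q ∈ {y | y ∈ Y ∧ t ≤ ff G Q Wt y} := by
            rw [heq]
            exact hqY
          have := this.2
          omega)
      have hat : ff G Q Wt a < t := by
        by_contra hh
        exact haB ⟨haY, not_lt.1 hh⟩
      obtain ⟨-, h1, h2⟩ := step1 hdis hba (hYR a haY)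
      have h3 : ∃ i, b ∈ Wt i := by
        by_contra hno
        push Not at hno
        have := h2 hno
        omega
      obtain ⟨i, hi⟩ := h3
      obtain ⟨hWi, z, hz, hzH⟩ := hWt i
      obtain ⟨h4, h5⟩ := step2 hdis hWi hz hi (hYR b hbY)
      obtain ⟨-, h6⟩ := step2 hdis hWi hi hz h4
      exact ⟨z, fun _ _ => ⟨hzH, h4, by omega⟩⟩
    · exact ⟨x, fun h1 h2 => absurd ⟨h1, h2⟩ ht⟩
  choose z hz using key
  have hz' : ∀ t < h, Hv G Q c {z (2 + 3 * t)} ∧ (∃ C, Con G Q (z (2 + 3 * t)) C) ∧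
      ff G Q Wt (z (2 + 3 * t)) = 2 + 3 * t := fun t ht => hz (2 + 3 * t) (by omega) (by omega)
  obtain ⟨t, ht, t', ht', htt, hcase⟩ := hfar (fun t => z (2 + 3 * t)) (fun t ht => (hz' t ht).1)
  obtain ⟨-, h1, h2⟩ := hz' t ht
  obtain ⟨-, h1', h2'⟩ := hz' t' ht'
  rcases hcase with h3 | h3 | ⟨u, h3, h4⟩
  · rw [h3] at h2
    omega
  · have := (step1 hdis h3.symm h1).2.1
    omega
  · obtain ⟨h5, h6, -⟩ := step1 hdis h3.symm h1
    have h7 := (step1 hdis h4.symm h5).2.1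
    omega

end Pool.Agent.MPd439b2.KS
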