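import Pool.Agent.Lib.MP_d439b2_co.KS.SpecX
import Pool.Agent.Lib.MP_d439b2_co.B.A1

/-!
# MP_d439b2_co, Theorem K, X9: the quotient structure, final form
-/

set_option autoImplicit false

namespace Pool.Agent.MPd439b2.KS

/-- **X9.** -/
theorem x9 : S_GK → S_U9 → S_X9b → S_X9c → S_X9 := by
  intro hGK hU9 hX9b hX9c N m r l W _ Y g k' hY
  obtain ⟨k, f, h, τ₁, c, k₀, K, n₀, hc, hn₀, hc9⟩ := hX9c N m r l W Y hY
  obtain ⟨τ, k₁, hb9⟩ := hX9b k f h τ₁ k'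
  obtain ⟨t₀, hq⟩ := hU9 N m (n₀ + τ) r l
  obtain ⟨θ, hgk⟩ := hGK (t₀ + τ) g τ (Nat.le_add_left _ _)
  refine ⟨θ, τ, k₁, ?_⟩
  intro V _ G S hCl hWL hS
  obtain ⟨hDD, hTC, hYG, hgrid, hcone⟩ := hCl
  rcases hgk θ (le_refl θ) V G S hWL hS with h' | ⟨B, hB, hdeep⟩
  · exact absurd h' hgrid
  let B' : ℕ → Set V := fun i => if h : i < t₀ + τ then B ⟨i, h⟩ else ∅
  have hB' : ∀ (i : ℕ) (h : i < t₀ + τ), B' i = B ⟨i, h⟩ := fun i h => dif_pos h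
  have hM : Mdl G (Finset.range (t₀ + τ)) B' := by
    refine ⟨?_, ?_⟩
    · intro i hi
      rw [hB' i (Finset.mem_range.mp hi)]
      exact hB.1 _
    · intro i hi j hj hij
      rw [hB' i (Finset.mem_range.mp hi), hB' j (Finset.mem_range.mp hj)]
      exact hB.2 _ _ (fun h => hij (by simpa using h))
  obtain ⟨Q₁, Q₂, hQd, hQ1, hQ2, hQa, hQt⟩ := hq _ (Nat.le_add_right _ _) V G B' hDD hTC hM
  have hdv : DeepV G S τ Q₁ := A1Aux.deepV hB' hB hdeep ((Nat.le_add_left _ _).trans hQ1)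
    (fun a ha => (Nat.le_add_left _ _).trans (hQt a ha))
  have hBip : ∀ n, n ≤ n₀ → Bip G Q₁ Q₂ n := fun n hn =>
    ⟨hQd, (hn.trans (Nat.le_add_right _ _)).trans hQ1, (hn.trans (Nat.le_add_right _ _)).trans hQ2,
      hQa⟩
  obtain ⟨T, U, A, X, hCx, hLt, hT, hNF, hX, hdom⟩ := hc9 V G Q₁ Q₂ hDD hTC hYG (hBip n₀ le_rfl)
  exact hb9 V G S Q₁ Q₂ T U A X c k₀ K hCx hLt hT hc (hBip 1 hn₀) hNF hX hdom hdv hcone

end Pool.Agent.MPd439b2.KS
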