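import Pool.Agent.Lib.MP_d439b2_co.KS.SpecX
import Pool.Agent.Lib.MP_d439b2_co.Basic

/-!
# MP_d439b2_co, Theorem K, X9b: the quotient structure from the blocks
-/

set_option autoImplicit false

namespace Pool.Agent.MPd439b2.KS

namespace X9x

variable {V : Type} {G : SimpleGraph V}

theorem sub_comp {X D C : Set V} (hD : IsComp G X D) (hC : Conn G C) (hCX : C ⊆ X)
    (h : (C ∩ D).Nonempty) : C ⊆ D := by
  have h1 := hC.eq_of_nb (C := C ∩ D) Set.inter_subset_left h (by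
    rintro v hv ⟨hv1, c, hc, hcv⟩
    exact hD.2.2 v (hCX hv) ⟨fun h2 => hv1 ⟨hv, h2⟩, c, hc.2, hcv⟩)
  rw [← h1]
  exact Set.inter_subset_right

theorem comp_eq {X D D' : Set V} (hD : IsComp G X D) (hD' : IsComp G X D') {v : V} (h : v ∈ D)
    (h' : v ∈ D') : D = D' :=
  Set.Subset.antisymm (sub_comp hD' hD.2.1 hD.1 ⟨v, h, h'⟩) (sub_comp hD hD'.2.1 hD'.1 ⟨v, h', h⟩)

theorem nb_comp_subset {X D : Set V} (hD : IsComp G X D) : nb G D ⊆ nb G X := by
  rintro v ⟨hv, a, ha, hav⟩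
  exact ⟨fun h => hD.2.2 v h ⟨hv, a, ha, hav⟩, a, hD.1 ha, hav⟩

/-- pieces which miss `Q₁` and have a small neighbourhood contain at most half of `S` -/
theorem half [Finite V] {S Q₁ D : Set V} {τ : ℕ} (hdeep : DeepV G S τ Q₁)
    (hq : ∀ q ∈ Q₁, q ∉ D) (hD : (nb G D).ncard < τ) : 2 * (S ∩ D).ncard ≤ S.ncard := by
  obtain ⟨q, hq1, C, hCX, hC, hqC, hS⟩ := hdeep (nb G D) hD
  have hdis : Disjoint C D := by
    rw [Set.disjoint_iff_inter_eq_empty]
    by_contra hne
    have h1 := hC.eq_of_nb (C := C ∩ D) Set.inter_subset_left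
      (Set.nonempty_iff_ne_empty.mpr hne) (by
        rintro v hv ⟨hv1, c, hc, hcv⟩
        exact Set.disjoint_left.mp hCX hv ⟨fun h2 => hv1 ⟨hv, h2⟩, c, hc.2, hcv⟩)
    have h2 : q ∈ C ∩ D := by rw [h1]; exact hqC
    exact hq q hq1 h2.2
  have h3 : (S ∩ D).ncard + (S ∩ C).ncard ≤ S.ncard := by
    rw [← Set.ncard_union_eq (hdis.symm.mono Set.inter_subset_right Set.inter_subset_right)
      (Set.toFinite _) (Set.toFinite _)]
    exact Set.ncard_le_ncard (Set.union_subset Set.inter_subset_left Set.inter_subset_left)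
      (Set.toFinite _)
  omega

/-- a light cluster -/
def IsL (G : SimpleGraph V) (Q : Set V) (k₀ K : ℕ) (D : Set V) : Prop :=
  IsComp G {v | ¬ Hv G Q K {v}} D ∧ ¬ Hv G Q k₀ D

section lights

variable {Q T U : Set V} {k₀ K : ℕ}

theorem isL_heavy {D : Set V} (hD : IsL G Q k₀ K D) {v : V} (hv : v ∈ nb G D) :
    Hv G Q K {v} := by
  by_contra h
  exact hD.1.2.2 v h hv

theorem isL_not_heavy {D : Set V} (hD : IsL G Q k₀ K D) {v : V} (hv : v ∈ D) :
    ¬ Hv G Q K {v} := hD.1.1 hv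

theorem isL_notT (hL : Lt G Q T U k₀ K) {D : Set V} (hD : IsL G Q k₀ K D) {v : V} (hv : v ∈ D) :
    v ∉ T := fun h => isL_not_heavy hD hv (hL.hT v h)

theorem isL_notU (hL : Lt G Q T U k₀ K) {D : Set V} (hD : IsL G Q k₀ K D) {v : V} (hv : v ∈ D) :
    v ∉ U := fun h => ((hL.hU v).mp h).2 D hD.1 hD.2 hv

theorem heavy_U (hL : Lt G Q T U k₀ K) {v : V} (hv : Hv G Q K {v}) (hT : v ∉ T) : v ∈ U :=
  (hL.hU v).mpr ⟨hT, fun _ hD _ hvD => hD.1 hvD hv⟩

theorem U_notT (hL : Lt G Q T U k₀ K) {v : V} (hv : v ∈ U) : v ∉ T := ((hL.hU v).mp hv).1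

theorem cover (hL : Lt G Q T U k₀ K) {v : V} (hT : v ∉ T) :
    v ∈ U ∨ ∃ D, IsL G Q k₀ K D ∧ v ∈ D := by
  by_cases h : v ∈ U
  · exact Or.inl h
  · right
    rw [hL.hU v] at h
    push Not at h
    obtain ⟨D, h1, h2, h3⟩ := h hT
    exact ⟨D, ⟨h1, h2⟩, h3⟩

/-- the foot of a light cluster -/
def Ft (G : SimpleGraph V) (T : Set V) (D : Set V) (w : V) : Prop := w ∈ nb G D ∧ w ∉ T

theorem ft_U (hL : Lt G Q T U k₀ K) {D : Set V} (hD : IsL G Q k₀ K D) {w : V}
    (hw : Ft G T D w) : w ∈ U := heavy_U hL (isL_heavy hD hw.1) hw.2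

theorem ft_unique [Finite V] (hL : Lt G Q T U k₀ K) {D : Set V} (hD : IsL G Q k₀ K D) {w w' : V}
    (hw : Ft G T D w) (hw' : Ft G T D w') : w = w' := by
  have h := hL.hD D hD.1 hD.2
  rw [Set.ncard_le_one (Set.toFinite _)] at h
  exact h w ⟨hw.1, hw.2⟩ w' ⟨hw'.1, hw'.2⟩

end lights

section parts

variable (G) (Q T U A : Set V) (k₀ K : ℕ) (lab : V → V ⊕ Set V)

/-- the block of the label `i` -/
def Wi (i : V ⊕ Set V) : Set V := {v | v ∈ U ∧ lab v = i}

/-- the block is a single vertex of `A` -/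
def Sg (i : V ⊕ Set V) : Prop := ∃ a ∈ A, Wi U lab i = {a}

/-- the parts -/
def Pt : (V ⊕ Set V) ⊕ Set V → Set V
  | Sum.inl i => Wi U lab i ∪ {v | ∃ D w, IsL G Q k₀ K D ∧ v ∈ D ∧ Ft G T D w ∧ lab w = i ∧
      ¬ Sg U A lab i}
  | Sum.inr D => {v | IsL G Q k₀ K D ∧ v ∈ D ∧ ∀ w, Ft G T D w → Sg U A lab (lab w)}

end parts

section facts

variable {Q T U A : Set V} {k₀ K : ℕ} {lab : V → V ⊕ Set V}

theorem pt_notT (hL : Lt G Q T U k₀ K) (j : (V ⊕ Set V) ⊕ Set V) {v : V}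
    (hv : v ∈ Pt G Q T U A k₀ K lab j) : v ∉ T := by
  rcases j with i | D
  · rcases hv with hv | ⟨D, w, hD, hvD, -⟩
    · exact U_notT hL hv.1
    · exact isL_notT hL hD hvD
  · exact isL_notT hL hv.1 hv.2.1

/-- the label of the part of a vertex of `U` -/
theorem pt_U (hL : Lt G Q T U k₀ K) {j : (V ⊕ Set V) ⊕ Set V} {v : V}
    (hv : v ∈ Pt G Q T U A k₀ K lab j) (hU : v ∈ U) : j = Sum.inl (lab v) := by
  rcases j with i | D
  · rcases hv with hv | ⟨D, w, hD, hvD, -⟩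
    · rw [hv.2]
    · exact absurd hU (isL_notU hL hD hvD)
  · exact absurd hU (isL_notU hL hv.1 hv.2.1)

/-- the label of the part of a vertex of a light cluster -/
theorem pt_D [Finite V] (hL : Lt G Q T U k₀ K) {j : (V ⊕ Set V) ⊕ Set V} {v : V} {D : Set V}
    (hv : v ∈ Pt G Q T U A k₀ K lab j) (hD : IsL G Q k₀ K D) (hvD : v ∈ D) :
    (∃ w, Ft G T D w ∧ j = Sum.inl (lab w) ∧ ¬ Sg U A lab (lab w)) ∨
      (j = Sum.inr D ∧ ∀ w, Ft G T D w → Sg U A lab (lab w)) := by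
  rcases j with i | D'
  · rcases hv with hv | ⟨D', w, hD', hvD', hw, hi, hs⟩
    · exact absurd hv.1 (isL_notU hL hD hvD)
    · have : D' = D := comp_eq hD'.1 hD.1 hvD' hvD
      subst this
      left
      exact ⟨w, hw, by rw [hi], by rw [hi]; exact hs⟩
  · right
    have : D' = D := comp_eq hv.1.1 hD.1 hv.2.1 hvD
    subst this
    exact ⟨rfl, hv.2.2⟩

theorem pt_disj [Finite V] (hL : Lt G Q T U k₀ K) {j j' : (V ⊕ Set V) ⊕ Set V} {v : V}
    (hv : v ∈ Pt G Q T U A k₀ K lab j) (hv' : v ∈ Pt G Q T U A k₀ K lab j') : j = j' := by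
  rcases cover hL (pt_notT hL j hv) with hU | ⟨D, hD, hvD⟩
  · rw [pt_U hL hv hU, pt_U hL hv' hU]
  · rcases pt_D hL hv hD hvD with ⟨w, hw, hj, hs⟩ | ⟨hj, hs⟩ <;>
      rcases pt_D hL hv' hD hvD with ⟨w', hw', hj', hs'⟩ | ⟨hj', hs'⟩
    · rw [hj, hj', ft_unique hL hD hw hw']
    · exact absurd (hs' w hw) hs
    · exact absurd (hs w' hw') hs'
    · rw [hj, hj']

theorem pt_cover (hL : Lt G Q T U k₀ K) {v : V} (hT : v ∉ T) :
    ∃ j, v ∈ Pt G Q T U A k₀ K lab j := by
  rcases cover hL hT with hU | ⟨D, hD, hvD⟩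
  · exact ⟨Sum.inl (lab v), Or.inl ⟨hU, rfl⟩⟩
  · by_cases h : ∀ w, Ft G T D w → Sg U A lab (lab w)
    · exact ⟨Sum.inr D, hD, hvD, h⟩
    · push Not at h
      obtain ⟨w, hw, hs⟩ := h
      exact ⟨Sum.inl (lab w), Or.inr ⟨D, w, hD, hvD, hw, rfl, hs⟩⟩

/-- all of a light cluster is in the same part -/
theorem pt_all [Finite V] (hL : Lt G Q T U k₀ K) {j : (V ⊕ Set V) ⊕ Set V} {v : V} {D : Set V}
    (hv : v ∈ Pt G Q T U A k₀ K lab j) (hD : IsL G Q k₀ K D) (hvD : v ∈ D) :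
    D ⊆ Pt G Q T U A k₀ K lab j := by
  intro u hu
  rcases pt_D hL hv hD hvD with ⟨w, hw, hj, hs⟩ | ⟨hj, hs⟩
  · rw [hj]
    exact Or.inr ⟨D, w, hD, hu, hw, rfl, hs⟩
  · rw [hj]
    exact ⟨hD, hu, hs⟩

/-- a neighbour of a light cluster in another part is its foot -/
theorem ft_of_adj [Finite V] (hL : Lt G Q T U k₀ K) {j j' : (V ⊕ Set V) ⊕ Set V} (hne : j ≠ j')
    {v u : V} {D : Set V} (hv : v ∈ Pt G Q T U A k₀ K lab j) (hD : IsL G Q k₀ K D) (hvD : v ∈ D)
    (hu : u ∈ Pt G Q T U A k₀ K lab j') (hadj : G.Adj v u) : Ft G T D u := by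
  refine ⟨⟨fun h => hne ?_, v, hvD, hadj⟩, pt_notT hL j' hu⟩
  exact pt_disj hL (pt_all hL hv hD hvD h) hu

/-- touching of two parts with block labels -/
theorem tch_W [Finite V] (hL : Lt G Q T U k₀ K) {i i' : V ⊕ Set V} (hne : i ≠ i')
    (h : Tch G (Pt G Q T U A k₀ K lab (Sum.inl i)) (Pt G Q T U A k₀ K lab (Sum.inl i'))) :
    Tch G (Wi U lab i) (Wi U lab i') := by
  obtain ⟨v, hv, u, hu, hadj⟩ := h
  have hne' : (Sum.inl i : (V ⊕ Set V) ⊕ Set V) ≠ Sum.inl i' := fun h => hne (Sum.inl.inj h)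
  have hvU : v ∈ U := by
    rcases cover hL (pt_notT hL _ hv) with hU | ⟨D, hD, hvD⟩
    · exact hU
    · exfalso
      have hf := ft_of_adj hL hne' hv hD hvD hu hadj
      have h1 := pt_U hL hu (ft_U hL hD hf)
      rcases pt_D hL hv hD hvD with ⟨w, hw, hj, hs⟩ | ⟨hj, hs⟩
      · rw [ft_unique hL hD hw hf] at hj
        exact hne' (hj.trans h1.symm)
      · exact absurd hj (by simp)
  have huU : u ∈ U := by
    rcases cover hL (pt_notT hL _ hu) with hU | ⟨D, hD, huD⟩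
    · exact hU
    · exfalso
      have hf := ft_of_adj hL (Ne.symm hne') hu hD huD hv hadj.symm
      have h1 := pt_U hL hv (ft_U hL hD hf)
      rcases pt_D hL hu hD huD with ⟨w, hw, hj, hs⟩ | ⟨hj, hs⟩
      · rw [ft_unique hL hD hw hf] at hj
        exact hne' (h1.trans hj.symm)
      · exact absurd hj (by simp)
  have h1 := pt_U hL hv hvU
  have h2 := pt_U hL hu huU
  exact ⟨v, ⟨hvU, (Sum.inl.inj h1).symm⟩, u, ⟨huU, (Sum.inl.inj h2).symm⟩, hadj⟩

/-- a part which is a light cluster touches only the part of its foot -/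
theorem tch_D [Finite V] (hL : Lt G Q T U k₀ K) {D : Set V} {j : (V ⊕ Set V) ⊕ Set V}
    (hne : Sum.inr D ≠ j)
    (h : Tch G (Pt G Q T U A k₀ K lab (Sum.inr D)) (Pt G Q T U A k₀ K lab j)) :
    ∃ w, Ft G T D w ∧ j = Sum.inl (lab w) ∧ Sg U A lab (lab w) := by
  obtain ⟨v, hv, u, hu, hadj⟩ := h
  have hf := ft_of_adj hL hne hv hv.1 hv.2.1 hu hadj
  exact ⟨u, hf, pt_U hL hu (ft_U hL hv.1 hf), hv.2.2 u hf⟩

theorem pt_ne {i : V ⊕ Set V} (hL : Lt G Q T U k₀ K)
    (h : (Pt G Q T U A k₀ K lab (Sum.inl i)).Nonempty) : ∃ v ∈ U, lab v = i := by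
  obtain ⟨v, hv | ⟨D, w, hD, hvD, hw, hi, hs⟩⟩ := h
  · exact ⟨v, hv.1, hv.2⟩
  · exact ⟨w, ft_U hL hD hw, hi⟩

end facts

end X9x

open X9x in
theorem pX9b (hX4 : S_X4) (hX6 : S_X6) (hX7 : S_X7) (hX8 : S_X8) (hXL : S_XL) : S_X9b := by
  intro k f h τ₁ k'
  obtain ⟨b₀, hb₀⟩ := hX7 k
  obtain ⟨k₁, hk₁⟩ := hXL k' (f * (3 * h + 3) + 2)
  refine ⟨2 * b₀ + τ₁ + 2, k₁, ?_⟩
  intro V _ G S Q₁ Q₂ T U A X c k₀ K hCx hL hT hc hBip hNF hX hdom hdeep hcone
  classical
  obtain ⟨lab, hlab⟩ := hX4 V G (Q₁ ∪ Q₂) U A c k₀ K k hCx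
  obtain ⟨Wt, hWt, hWtT⟩ := hX6 V G (Q₁ ∪ Q₂) U A c k₀ K k lab hCx hlab
  have h7 := hb₀ V G (Q₁ ∪ Q₂) U A c k₀ K lab hCx hlab
  -- the hub
  let ι₀ : Type := {i : V ⊕ Set V // ∃ v ∈ U, lab v = i}
  have hdisjW : ∀ i j : ι₀, i ≠ j → Disjoint (Wt i.1) (Wt j.1) := by
    intro i j hij
    rw [Set.disjoint_left]
    intro v hvi hvj
    have h1 := ((hWt i.1 i.2).1 hvi).2
    have h2 := ((hWt j.1 j.2).1 hvj).2
    exact hij (Subtype.ext (h1.symm.trans h2))
  obtain ⟨X₀, hX₀, hX₀c, hX₀t⟩ := hX8 V G Q₁ Q₂ X c h ι₀ (fun i => Wt i.1) hc hBip hNF hdom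
    (fun i => (hWt i.1 i.2).2) hdisjW
  -- the parts
  let P := Pt G (Q₁ ∪ Q₂) T U A k₀ K lab
  let ι : Type := {j : (V ⊕ Set V) ⊕ Set V // (P j).Nonempty}
  let Γ : SimpleGraph ι :=
    { Adj := fun i j => i ≠ j ∧ Tch G (P i.1) (P j.1)
      symm := ⟨fun i j hij => ⟨hij.1.symm, hij.2.symm⟩⟩
      loopless := ⟨fun i hi => hi.1 rfl⟩ }
  have hΓ : ∀ i j : ι, i ≠ j → (Γ.Adj i j ↔ Tch G (P i.1) (P j.1)) :=
    fun i j hij => ⟨fun h1 => h1.2, fun h1 => ⟨hij, h1⟩⟩
  have hQ1 : ∀ q ∈ Q₁, ∀ D, IsL G (Q₁ ∪ Q₂) k₀ K D → q ∉ D := by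
    intro q hq D hD hqD
    apply isL_not_heavy hD hqD
    intro F _ hF
    exact ⟨{q}, Conn.singleton G q, hF.symm, ⟨q, rfl, rfl⟩, ⟨q, rfl, Or.inl hq⟩⟩
  have hnb : ∀ i : V ⊕ Set V, (∃ v ∈ U, lab v = i) → ¬ Sg U A lab i → (Wi U lab i ∩ A).ncard ≤ b₀ →
      (nb G (Wi U lab i \ A) ∩ U).ncard ≤ b₀ →
      (nb G (P (Sum.inl i) \ (Wi U lab i ∩ A))).ncard ≤ 2 * b₀ + τ₁ := by
    intro i hi hs h2 h3
    have h4 : nb G (P (Sum.inl i) \ (Wi U lab i ∩ A)) ⊆
        T ∪ ((Wi U lab i ∩ A) ∪ (nb G (Wi U lab i \ A) ∩ U)) := by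
      rintro y ⟨hy, x, ⟨hx1, hx2⟩, hxy⟩
      by_cases hyT : y ∈ T
      · exact Or.inl hyT
      right
      by_cases hyR : y ∈ Wi U lab i ∩ A
      · exact Or.inl hyR
      right
      have hyP : y ∉ P (Sum.inl i) := fun h5 => hy ⟨h5, hyR⟩
      rcases cover hL (pt_notT hL _ hx1) with hxU | ⟨D, hD, hxD⟩
      · have hx3 : x ∈ Wi U lab i := ⟨hxU, (Sum.inl.inj (pt_U hL hx1 hxU)).symm⟩
        have hx4 : x ∉ A := fun h5 => hx2 ⟨hx3, h5⟩
        rcases cover hL hyT with hyU | ⟨D, hD, hyD⟩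
        · exact ⟨⟨fun h5 => hyP (Or.inl h5.1), x, ⟨hx3, hx4⟩, hxy⟩, hyU⟩
        · exfalso
          apply hyP
          have hf : Ft G T D x := ⟨⟨fun h5 => isL_notU hL hD h5 hxU, y, hyD, hxy.symm⟩,
            U_notT hL hxU⟩
          exact Or.inr ⟨D, x, hD, hyD, hf, hx3.2, hs⟩
      · exfalso
        by_cases hyD : y ∈ D
        · exact hyP (pt_all hL hx1 hD hxD hyD)
        · have hf : Ft G T D y := ⟨⟨hyD, x, hxD, hxy⟩, hyT⟩
          rcases pt_D hL hx1 hD hxD with ⟨w, hw, hj, hs⟩ | ⟨hj, hs⟩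
          · rw [ft_unique hL hD hw hf] at hj
            exact hyP (Or.inl ⟨ft_U hL hD hf, (Sum.inl.inj hj).symm⟩)
          · exact absurd hj (by simp)
    have h5 := Set.ncard_le_ncard h4 (Set.toFinite _)
    have h6 := Set.ncard_union_le T ((Wi U lab i ∩ A) ∪ (nb G (Wi U lab i \ A) ∩ U))
    have h7 := Set.ncard_union_le (Wi U lab i ∩ A) (nb G (Wi U lab i \ A) ∩ U)
    omega
  have hnbc : ∀ i : V ⊕ Set V, (∃ v ∈ U, lab v = i) → ¬ Sg U A lab i → (Wi U lab i ∩ A).ncard ≤ b₀ →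
      (nb G (Wi U lab i \ A) ∩ U).ncard ≤ b₀ →
      (nb G (P (Sum.inl i) \ (Wi U lab i ∩ A))).ncard ≤ 2 * b₀ + τ₁ + 2 := by
    intro i hi hs h2 h3
    have := hnb i hi hs h2 h3
    omega
  refine ⟨T, ι, inferInstance, fun j => P j.1, Γ, by omega, fun j => j.2, ?_, ?_, ?_, hΓ, ?_, ?_⟩
  · intro j
    rw [Set.disjoint_left]
    intro v hv
    exact pt_notT hL j.1 hv
  · intro i j hij
    rw [Set.disjoint_left]
    intro v hvi hvj
    exact hij (Subtype.ext (pt_disj hL hvi hvj))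
  · intro v hv
    obtain ⟨j, hj⟩ := pt_cover (A := A) (lab := lab) hL hv
    exact ⟨⟨j, ⟨v, hj⟩⟩, hj⟩
  · -- the layout
    let J₁ : Set ι := {j | ∃ i, j.1 = Sum.inl i ∧ (Wt i ∩ X₀).Nonempty}
    let J₀ : Set ι := {j | ∃ i, j.1 = Sum.inl i ∧ ¬ (Wt i ∩ X₀).Nonempty}
    let PP : Set ι := {j | ∃ D, j.1 = Sum.inr D}
    apply hk₁ ι Γ J₀ J₁ PP
    · ext j
      simp only [Set.mem_union, Set.mem_univ, iff_true]
      rcases hj : j.1 with i | D
      · by_cases hi : (Wt i ∩ X₀).Nonempty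
        · exact Or.inl (Or.inr ⟨i, hj, hi⟩)
        · exact Or.inl (Or.inl ⟨i, hj, hi⟩)
      · exact Or.inr ⟨D, hj⟩
    · rw [Set.disjoint_left]
      rintro j ⟨i, hi, hn⟩ ⟨i', hi', hn'⟩
      rw [hi] at hi'
      cases hi'
      exact hn hn'
    · rw [Set.disjoint_left]
      rintro j ⟨i, hi, hn⟩ ⟨D, hD⟩
      rw [hi] at hD
      cases hD
    · rw [Set.disjoint_left]
      rintro j ⟨i, hi, hn⟩ ⟨D, hD⟩
      rw [hi] at hD
      cases hD
    · -- few blocks meet the hub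
      let φ : ι₀ → ι := fun i => ⟨Sum.inl i.1, by
        obtain ⟨v, hv, hvi⟩ := i.2
        exact ⟨v, Or.inl ⟨hv, hvi⟩⟩⟩
      have h1 : J₁ ⊆ φ '' {i : ι₀ | (Wt i.1 ∩ X₀).Nonempty} := by
        rintro j ⟨i, hi, hn⟩
        have h2 : ∃ v ∈ U, lab v = i := pt_ne hL (show (P (Sum.inl i)).Nonempty from hi ▸ j.2)
        exact ⟨⟨i, h2⟩, hn, Subtype.ext hi.symm⟩
      calc J₁.ncard ≤ (φ '' {i : ι₀ | (Wt i.1 ∩ X₀).Nonempty}).ncard :=
            Set.ncard_le_ncard h1 (Set.toFinite _)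
        _ ≤ {i : ι₀ | (Wt i.1 ∩ X₀).Nonempty}.ncard := Set.ncard_image_le (Set.toFinite _)
        _ ≤ X.ncard * (3 * h + 3) + 2 := hX₀c
        _ ≤ f * (3 * h + 3) + 2 := by
          have := Nat.mul_le_mul_right (3 * h + 3) hX
          omega
    · -- pendants
      rintro p ⟨D, hD⟩
      have key : ∀ j, j ∈ nb Γ {p} → ∃ w, Ft G T D w ∧ j.1 = Sum.inl (lab w) := by
        rintro j ⟨hj, a, ha, haj⟩
        rw [Set.mem_singleton_iff] at ha
        subst ha
        have h1 : Tch G (P (Sum.inr D)) (P j.1) := by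
          rw [← hD]; exact haj.2
        have hne : Sum.inr D ≠ j.1 := by
          intro h2
          exact haj.1 (Subtype.ext (hD.trans h2))
        obtain ⟨w, hw, hj, -⟩ := tch_D hL hne h1
        exact ⟨w, hw, hj⟩
      have hDL : IsL G (Q₁ ∪ Q₂) k₀ K D := by
        obtain ⟨v, hv⟩ := p.2
        rw [hD] at hv
        exact hv.1
      refine ⟨?_, ?_⟩
      · rw [Set.ncard_le_one (Set.toFinite _)]
        intro j hj j' hj'
        obtain ⟨w, hw, h1⟩ := key j hj
        obtain ⟨w', hw', h2⟩ := key j' hj'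
        apply Subtype.ext
        rw [h1, h2, ft_unique hL hDL hw hw']
      · intro j hj
        obtain ⟨w, hw, h1⟩ := key j hj
        by_cases hi : (Wt (lab w) ∩ X₀).Nonempty
        · exact Or.inr ⟨lab w, h1, hi⟩
        · exact Or.inl ⟨lab w, h1, hi⟩
    · -- the cone
      apply hcone
      let B : Option J₀ → Set V := fun o => match o with
        | none => X₀
        | some j => Sum.elim Wt (fun _ => ∅) j.1.1
      have hB : ∀ j : J₀, ∃ i : ι₀, j.1.1 = Sum.inl i.1 ∧ B (some j) = Wt i.1 ∧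
          Disjoint (Wt i.1) X₀ := by
        intro j
        obtain ⟨i, hi, hn⟩ := j.2
        have h2 : ∃ v ∈ U, lab v = i := pt_ne hL (show (P (Sum.inl i)).Nonempty from hi ▸ j.1.2)
        refine ⟨⟨i, h2⟩, hi, ?_, ?_⟩
        · change Sum.elim Wt (fun _ => ∅) j.1.1 = Wt i
          rw [hi]
          rfl
        · rw [Set.disjoint_iff_inter_eq_empty]
          exact Set.not_nonempty_iff_eq_empty.mp hn
      have hadj : ∀ j j' : J₀, j ≠ j' → ((Γ.induce J₀).Adj j j' ↔ Tch G (B (some j)) (B (some j'))) := by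
        intro j j' hne
        obtain ⟨i, hi, hBi, -⟩ := hB j
        obtain ⟨i', hi', hBi', -⟩ := hB j'
        have hne1 : j.1 ≠ j'.1 := fun h1 => hne (Subtype.ext h1)
        have hne2 : i.1 ≠ i'.1 := by
          intro h1
          apply hne1
          apply Subtype.ext
          rw [hi, hi', h1]
        rw [SimpleGraph.comap_adj]
        change Γ.Adj j.1 j'.1 ↔ _
        rw [hΓ _ _ hne1, hBi, hBi', hi, hi']
        constructor
        · intro h1
          exact hWtT i.1 i'.1 hne2 (tch_W hL hne2 h1)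
        · intro h1
          exact h1.mono (fun v hv => Or.inl ((hWt i.1 i.2).1 hv))
            (fun v hv => Or.inl ((hWt i'.1 i'.2).1 hv))
      refine ⟨B, fun _ => Set.subset_univ _, ?_, ?_, ?_⟩
      · rintro (_ | j)
        · exact hX₀
        · obtain ⟨i, hi, hBi, -⟩ := hB j
          rw [hBi]
          exact (hWt i.1 i.2).2.1
      · rintro (_ | j) (_ | j') hne
        · exact absurd rfl hne
        · obtain ⟨i, hi, hBi, hd⟩ := hB j'
          rw [hBi]
          exact hd.symm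
        · obtain ⟨i, hi, hBi, hd⟩ := hB j
          rw [hBi]
          exact hd
        · obtain ⟨i, hi, hBi, -⟩ := hB j
          obtain ⟨i', hi', hBi', -⟩ := hB j'
          rw [hBi, hBi']
          apply hdisjW
          intro h1
          apply hne
          congr 1
          apply Subtype.ext
          apply Subtype.ext
          rw [hi, hi', h1]
      · rintro (_ | j) (_ | j') hne
        · exact absurd rfl hne
        · obtain ⟨i, hi, hBi, hd⟩ := hB j'
          rw [hBi]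
          exact iff_of_true trivial (hX₀t i hd)
        · obtain ⟨i, hi, hBi, hd⟩ := hB j
          rw [hBi]
          exact iff_of_true trivial (hX₀t i hd).symm
        · exact hadj j j' (fun h1 => hne (by rw [h1]))
  · -- the bounds
    rintro ⟨j, hj⟩
    rcases j with i | D
    · have hi : ∃ v ∈ U, lab v = i := pt_ne hL hj
      by_cases hs : Sg U A lab i
      · left
        obtain ⟨a, ha, hW⟩ := hs
        refine ⟨a, ?_⟩
        change Wi U lab i ∪ _ = {a}
        rw [hW]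
        ext v
        constructor
        · rintro (hv | ⟨D, w, -, -, -, -, hns⟩)
          · exact hv
          · exact absurd ⟨a, ha, hW⟩ hns
        · exact Or.inl
      · right
        rcases h7 i hi with ⟨a, ha, hW⟩ | ⟨h1, h2, h3⟩
        · exact absurd ⟨a, ha, hW⟩ hs
        · refine ⟨?_, Wi U lab i ∩ A, fun v hv => Or.inl hv.1, ?_, ?_, ?_⟩
          · -- neighbours in `Γ`
            have h4 : (fun j : ι => j.1) '' (nb Γ {⟨Sum.inl i, hj⟩}) ⊆
                Sum.inl '' {j | j ≠ i ∧ Tch G (Wi U lab i) (Wi U lab j)} := by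
              rintro _ ⟨j', ⟨-, a, ha, haj⟩, rfl⟩
              rw [Set.mem_singleton_iff] at ha
              subst ha
              rcases hj' : j'.1 with i' | D
              · have hne : i ≠ i' := by
                  intro h5
                  apply haj.1
                  apply Subtype.ext
                  exact (congrArg Sum.inl h5).trans hj'.symm
                have h6 := haj.2
                rw [hj'] at h6
                exact ⟨i', ⟨hne.symm, tch_W hL hne h6⟩, hj'.symm⟩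
              · exfalso
                have h6 := haj.2.symm
                rw [hj'] at h6
                obtain ⟨w, hw, h7', h8⟩ := tch_D hL (by simp) h6
                have : i = lab w := Sum.inl.inj h7'
                rw [← this] at h8
                exact hs h8
            have h5 : (nb Γ {⟨Sum.inl i, hj⟩}).ncard ≤ b₀ := by
              rw [← Set.ncard_image_of_injective (f := fun j : ι => j.1) _ Subtype.val_injective]
              refine (Set.ncard_le_ncard h4 (Set.toFinite _)).trans ?_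
              exact (Set.ncard_image_le (Set.toFinite _)).trans h1
            omega
          · exact (show (Wi U lab i ∩ A).ncard ≤ b₀ from h2).trans (by omega)
          · exact hnbc i hi hs h2 h3
          · intro D' hD'
            apply half hdeep
            · intro q hq hqD
              have h4 := hD'.1 hqD
              have hqU : q ∈ U := by
                rcases cover hL (pt_notT hL _ h4.1) with hU | ⟨D, hD, hvD⟩
                · exact hU
                · exact absurd hvD (hQ1 q hq D hD)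
              have h5 := pt_U hL h4.1 hqU
              exact h4.2 ⟨⟨hqU, (Sum.inl.inj h5).symm⟩, hCx.QA ⟨Or.inl hq, hqU⟩⟩
            · refine lt_of_le_of_lt (Set.ncard_le_ncard (nb_comp_subset hD') (Set.toFinite _)) ?_
              exact lt_of_le_of_lt (hnb i hi hs h2 h3) (by omega)
    · right
      have hDL : IsL G (Q₁ ∪ Q₂) k₀ K D := by
        obtain ⟨v, hv⟩ := hj
        exact hv.1
      have hPD : P (Sum.inr D) = D := by
        obtain ⟨v, hv⟩ := hj
        ext u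
        exact ⟨fun hu => hu.2.1, fun hu => ⟨hDL, hu, hv.2.2⟩⟩
      have hnbD : (nb G D).ncard ≤ τ₁ + 1 := by
        have h1 : nb G D ⊆ T ∪ (nb G D \ T) := by
          intro v hv
          by_cases h2 : v ∈ T
          · exact Or.inl h2
          · exact Or.inr ⟨hv, h2⟩
        have h2 := hL.hD D hDL.1 hDL.2
        have h3 := Set.ncard_le_ncard h1 (Set.toFinite _)
        have h4 := Set.ncard_union_le T (nb G D \ T)
        omega
      refine ⟨?_, ∅, Set.empty_subset _, by simp, ?_, ?_⟩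
      · have h1 : (nb Γ {⟨Sum.inr D, hj⟩}).ncard ≤ 1 := by
          rw [Set.ncard_le_one (Set.toFinite _)]
          have key : ∀ j', j' ∈ nb Γ {⟨Sum.inr D, hj⟩} → ∃ w, Ft G T D w ∧ j'.1 = Sum.inl (lab w) := by
            rintro j' ⟨-, a, ha, haj⟩
            rw [Set.mem_singleton_iff] at ha
            subst ha
            obtain ⟨w, hw, h1, -⟩ := tch_D hL (fun h5 => haj.1 (Subtype.ext h5)) haj.2
            exact ⟨w, hw, h1⟩
          intro j' hj' j'' hj''
          obtain ⟨w, hw, h1⟩ := key j' hj'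
          obtain ⟨w', hw', h2⟩ := key j'' hj''
          apply Subtype.ext
          rw [h1, h2, ft_unique hL hDL hw hw']
        omega
      · rw [Set.sdiff_empty]
        change (nb G (P (Sum.inr D))).ncard ≤ _
        rw [hPD]
        omega
      · intro D' hD'
        rw [Set.sdiff_empty] at hD'
        change IsComp G (P (Sum.inr D)) D' at hD'
        rw [hPD] at hD'
        apply half hdeep
        · intro q hq hqD
          exact hQ1 q hq D hDL (hD'.1 hqD)
        · refine lt_of_le_of_lt (Set.ncard_le_ncard (nb_comp_subset hD') (Set.toFinite _)) ?_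
          omega

end Pool.Agent.MPd439b2.KS
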