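import Pool.Agent.Lib.MP_d439b2_co.KS.SpecX

/-!
# MP_d439b2_co, KS, X9c: the situation exists
-/

set_option autoImplicit false

namespace Pool.Agent.MPd439b2.KS

namespace x9cAux

variable {V : Type} {G : SimpleGraph V}

theorem comp_sub {X D C : Set V} (h : IsComp G X D) (hC : Conn G C) (hCX : C ⊆ X)
    (hne : (C ∩ D).Nonempty) : C ⊆ D := by
  have h1 : C ∩ D = C := hC.eq_of_nb Set.inter_subset_left hne (by
    rintro v hv ⟨hv1, a, ha, hav⟩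
    apply hv1
    refine ⟨hv, ?_⟩
    by_contra hvD
    exact h.2.2 v (hCX hv) ⟨hvD, a, ha.2, hav⟩)
  rw [← h1]
  exact Set.inter_subset_right

theorem comp_eq {X D D' : Set V} (h : IsComp G X D) (h' : IsComp G X D') {v : V} (hv : v ∈ D)
    (hv' : v ∈ D') : D = D' :=
  Set.Subset.antisymm (comp_sub h' h.2.1 h.1 ⟨v, hv, hv'⟩) (comp_sub h h'.2.1 h'.1 ⟨v, hv', hv⟩)

theorem hv_mono {Q : Set V} {a b : ℕ} (hab : a ≤ b) {X : Set V} (h : Hv G Q b X) : Hv G Q a X :=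
  fun F hF hd => h F (lt_of_lt_of_le hF hab) hd

theorem bip_mono {Q₁ Q₂ : Set V} {a b : ℕ} (hab : a ≤ b) (h : Bip G Q₁ Q₂ b) : Bip G Q₁ Q₂ a :=
  ⟨h.1, hab.trans h.2.1, hab.trans h.2.2.1, h.2.2.2⟩

/-- two vertices of `Q₁ ∪ Q₂` are equal, adjacent or have a common neighbour -/
theorem in_Q {Q₁ Q₂ : Set V} (hB : Bip G Q₁ Q₂ 1) {x y : V} (hx : x ∈ Q₁ ∪ Q₂) (hy : y ∈ Q₁ ∪ Q₂) :
    x = y ∨ G.Adj x y ∨ ∃ u, G.Adj x u ∧ G.Adj u y := by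
  have h1 : Q₁.Nonempty := by
    rw [Set.nonempty_iff_ne_empty]
    rintro rfl
    have := hB.2.1
    rw [Set.ncard_empty] at this
    omega
  have h2 : Q₂.Nonempty := by
    rw [Set.nonempty_iff_ne_empty]
    rintro rfl
    have := hB.2.2.1
    rw [Set.ncard_empty] at this
    omega
  obtain ⟨q₁, hq₁⟩ := h1
  obtain ⟨q₂, hq₂⟩ := h2
  have hadj := hB.2.2.2
  rcases hx with hx | hx <;> rcases hy with hy | hy
  · exact Or.inr (Or.inr ⟨q₂, hadj x hx q₂ hq₂, (hadj y hy q₂ hq₂).symm⟩)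
  · exact Or.inr (Or.inl (hadj x hx y hy))
  · exact Or.inr (Or.inl (hadj y hy x hx).symm)
  · exact Or.inr (Or.inr ⟨q₁, (hadj q₁ hq₁ x hx).symm, hadj q₁ hq₁ y hy⟩)

/-- `NoFar` from V8 -/
theorem noFar {Q₁ Q₂ : Set V} {c c' h₁ : ℕ} (hB : Bip G Q₁ Q₂ 1) (hc : c' ≤ c)
    (h8 : ∀ (v : ℕ → V) (P : Finset ℕ), IndV G v P → P.card = h₁ →
      (∀ b ∈ P, v b ∉ Q₁ ∪ Q₂ ∧ Hv G (Q₁ ∪ Q₂) c' {v b}) →
      ∃ x, 1 < (tau G P (fun c => {v c}) {x}).card) :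
    NoFar G (Q₁ ∪ Q₂) c (h₁ + 1) := by
  classical
  intro z hz
  by_contra hcon
  push Not at hcon
  have hsym : ∀ t < h₁ + 1, ∀ t' < h₁ + 1, t ≠ t' → z t ≠ z t' ∧ ¬ G.Adj (z t) (z t') ∧
      ∀ u, G.Adj (z t) u → ¬ G.Adj u (z t') := by
    intro t ht t' ht' hne
    rcases lt_or_gt_of_ne hne with hlt | hlt
    · exact hcon t ht t' ht' hlt
    · obtain ⟨h1, h2, h3⟩ := hcon t' ht' t ht hlt
      exact ⟨fun h => h1 h.symm, fun h => h2 h.symm, fun u hu hu' => h3 u hu'.symm hu.symm⟩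
  have h1 : ((Finset.range (h₁ + 1)).filter (fun t => z t ∈ Q₁ ∪ Q₂)).card ≤ 1 := by
    rw [Finset.card_le_one]
    intro t ht t' ht'
    rw [Finset.mem_filter, Finset.mem_range] at ht ht'
    by_contra hne
    obtain ⟨h1, h2, h3⟩ := hsym t ht.1 t' ht'.1 hne
    rcases in_Q hB ht.2 ht'.2 with h4 | h4 | ⟨u, h4, h5⟩
    · exact h1 h4
    · exact h2 h4
    · exact h3 u h4 h5
  have h2 : h₁ ≤ ((Finset.range (h₁ + 1)).filter (fun t => ¬ z t ∈ Q₁ ∪ Q₂)).card := by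
    have h3 := Finset.card_filter_add_card_filter_not (s := Finset.range (h₁ + 1)) (fun t => z t ∈ Q₁ ∪ Q₂)
    rw [Finset.card_range] at h3
    omega
  obtain ⟨P, hP, hPc⟩ := Finset.exists_subset_card_eq h2
  have hP' : ∀ t ∈ P, t < h₁ + 1 ∧ z t ∉ Q₁ ∪ Q₂ := by
    intro t ht
    have := hP ht
    rw [Finset.mem_filter, Finset.mem_range] at this
    exact this
  obtain ⟨x, hx⟩ := h8 z P ⟨fun t ht t' ht' h => by
      by_contra hne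
      exact (hsym t (hP' t ht).1 t' (hP' t' ht').1 hne).1 h, fun t ht t' ht' h => by
      by_cases hne : t = t'
      · subst hne
        exact G.loopless.irrefl _ h
      · exact (hsym t (hP' t ht).1 t' (hP' t' ht').1 hne).2.1 h⟩ hPc
    (fun t ht => ⟨(hP' t ht).2, hv_mono hc (hz t (hP' t ht).1)⟩)
  obtain ⟨t, ht, t', ht', hne⟩ := Finset.one_lt_card.1 hx
  unfold tau at ht ht'
  rw [Finset.mem_filter] at ht ht'
  obtain ⟨htP, a, ha, b, hb, hab⟩ := ht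
  obtain ⟨htP', a', ha', b', hb', hab'⟩ := ht'
  rw [Set.mem_singleton_iff] at ha hb ha' hb'
  subst ha hb ha' hb'
  exact (hsym t (hP' t htP).1 t' (hP' t' htP').1 hne).2.2 _ hab.symm hab'

end x9cAux

open x9cAux in
theorem x9c (h6 : S_V6) (h8 : S_V8) (h10 : S_V10) (hX1 : S_X1) (hX2 : S_X2) : S_X9c := by
  classical
  intro N m r l W _ Y hY
  obtain ⟨c₁, f, n₁, h10⟩ := h10 N m r l W Y hY
  obtain ⟨h₁, c₂, n₂, h8⟩ := h8 N m 1 r l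
  obtain ⟨c, hc⟩ : ∃ c, c = c₁ + c₂ + 1 := ⟨_, rfl⟩
  obtain ⟨k₀, n₃, h6c⟩ := h6 N m c
  obtain ⟨K₁, τ₁, n₄, hX1⟩ := hX1 N m k₀
  obtain ⟨K, hK⟩ : ∃ K, K = K₁ + c := ⟨_, rfl⟩
  obtain ⟨p, n₅, h6K⟩ := h6 N m K
  refine ⟨p + k₀, f, h₁ + 1, τ₁, c, k₀, K, n₁ + n₂ + n₃ + n₄ + n₅ + 1, by omega, by omega, ?_⟩
  intro V _ G Q₁ Q₂ hDD hTC hYG hB
  obtain ⟨X, hXf, hX⟩ := h10 V G Q₁ Q₂ hDD hTC hYG (bip_mono (by omega) hB)
  obtain ⟨T, hTc, hTH, hTD⟩ := hX1 K (by omega) V G Q₁ Q₂ hDD (bip_mono (by omega) hB)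
  obtain ⟨U, hU⟩ : ∃ U : Set V, U = {v | v ∉ T ∧ ∀ D, IsComp G {v | ¬ Hv G (Q₁ ∪ Q₂) K {v}} D →
    ¬ Hv G (Q₁ ∪ Q₂) k₀ D → v ∉ D} := ⟨_, rfl⟩
  obtain ⟨A, hAU, hQA, hcA, hsep⟩ := hX2 V G U ((Q₁ ∪ Q₂) ∩ U) (p + k₀) Set.inter_subset_right
  refine ⟨T, U, A, X, ?_, ?_, hTc, ?_, hXf, ?_⟩
  · refine ⟨by omega, by omega, ?_, ?_, ?_, hAU, hQA, hcA, ?_⟩
    · exact fun D hD h => h6c V G Q₁ Q₂ D hDD (bip_mono (by omega) hB) hD h
    · exact fun D hD h hH => h6K V G Q₁ Q₂ D hDD (bip_mono (by omega) hB) hD h (hv_mono (by omega) hH)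
    · rintro D hD ⟨v, hvD, hvU⟩
      rw [hU] at hvU
      have hH : Hv G (Q₁ ∪ Q₂) k₀ D := by
        by_contra hl
        exact hvU.2 D hD hl hvD
      refine ⟨fun u hu => ?_, hH⟩
      rw [hU]
      refine ⟨fun huT => hD.1 hu (hTH u huT), fun D' hD' hl' hu' => ?_⟩
      rw [comp_eq hD hD' hu hu'] at hH
      exact hl' hH
    · intro P F hPF hPQ hnb hF
      exact hsep P F hPF (hPQ.mono_right Set.inter_subset_left) hnb hF
  · refine ⟨hTH, fun v => ?_, hTD⟩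
    rw [hU]
    exact Iff.rfl
  · exact noFar (bip_mono (by omega) hB) (by omega : c₂ ≤ c) (fun v P hv hPc hP =>
      h8 V G Q₁ Q₂ v P hDD hTC (bip_mono (by omega) hB) hv hPc hP)
  · exact fun v hv => hX v (hv_mono (by omega) hv)

end Pool.Agent.MPd439b2.KS
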