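import Pool.Agent.Lib.MP_d439b2_co.KS.SpecX

/-!
# MP_d439b2_co, Theorem K, XL: adding few vertices and pendant vertices to a graph with a layout
-/

set_option autoImplicit false

namespace Pool.Agent.MPd439b2.KS

namespace xLAux

section L

variable {ι : Type} {Γ : SimpleGraph ι}

/-- adding vertices one after the other -/
theorem lay_extend [Finite ι] {k : ℕ} (hk : 1 ≤ k) {X₀ X₁ : Set ι} (hs : X₀ ⊆ X₁)
    (h0 : Lay Γ k X₀) (ht : ∀ X, X₀ ⊆ X → X ⊆ X₁ → (Types Γ X).encard ≤ k) : Lay Γ k X₁ := by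
  have key : ∀ Y : Set ι, Y.Finite → Y ⊆ X₁ \ X₀ → Lay Γ k (X₀ ∪ Y) := by
    intro Y hY
    induction Y, hY using Set.Finite.induction_on with
    | empty =>
      intro _
      rw [Set.union_empty]
      exact h0
    | @insert y Y hy _ ih =>
      intro hsub
      have h1 : Y ⊆ X₁ \ X₀ := fun z hz => hsub (Set.mem_insert_of_mem y hz)
      have h2 : y ∈ X₁ \ X₀ := hsub (Set.mem_insert y Y)
      have h3 : X₀ ∪ insert y Y = insert y (X₀ ∪ Y) := by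
        ext z
        simp only [Set.mem_union, Set.mem_insert_iff]
        tauto
      rw [h3]
      refine Lay.insert hk (ih h1) ?_ (ht _ ?_ ?_)
      · rintro (h | h)
        · exact h2.2 h
        · exact hy h
      · intro z hz
        exact Set.mem_insert_of_mem y (Or.inl hz)
      · intro z hz
        rcases Set.mem_insert_iff.mp hz with rfl | hz | hz
        · exact h2.1
        · exact hs hz
        · exact (h1 hz).1
  have h1 := key (X₁ \ X₀) (Set.toFinite _) (fun z hz => hz)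
  rwa [Set.union_diff_cancel hs] at h1

/-- sets with few neighbours have few types -/
theorem types_nb [Finite ι] {A B : Set ι} {n k : ℕ} (h : nb Γ A ⊆ B) (hB : B.ncard ≤ n)
    (hk : 2 ^ n ≤ k) : (Types Γ A).encard ≤ k := by
  have h1 := types_encard_le (G := Γ) (A := A) (n := n)
    ((Set.ncard_le_ncard h (Set.toFinite _)).trans hB)
  exact h1.trans (by exact_mod_cast (Nat.sub_le _ _).trans hk)

/-- `Z` together with the pendant vertices attached to it -/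
def Zp (Γ : SimpleGraph ι) (J₀ P : Set ι) (Z : Set J₀) : Set ι :=
  Subtype.val '' Z ∪ {p | p ∈ P ∧ ∃ j ∈ Z, Γ.Adj p j.1}

/-- few types -/
theorem types_Zp [Finite ι] {k' b : ℕ} {J₀ J₁ P : Set ι} (hU : J₀ ∪ J₁ ∪ P = Set.univ)
    (h01 : Disjoint J₀ J₁) (h0P : Disjoint J₀ P) (h1P : Disjoint J₁ P) (hb : J₁.ncard ≤ b)
    (hp : ∀ p ∈ P, (nb Γ {p}).ncard ≤ 1 ∧ nb Γ {p} ⊆ J₀ ∪ J₁) (Z : Set J₀)
    (hZ : (Types (Γ.induce J₀) Z).encard ≤ k') :
    (Types Γ (Zp Γ J₀ P Z)).encard ≤ ((k' + 1) * 2 ^ b : ℕ) := by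
  classical
  have h1 : Types Γ (Zp Γ J₀ P Z) ⊆ (fun q : Set J₀ × Set ι => Subtype.val '' q.1 ∪ q.2) ''
      ((insert ∅ (Types (Γ.induce J₀) Z)) ×ˢ 𝒫 J₁) := by
    rintro T ⟨hne, a, ha, rfl⟩
    rcases ha with ⟨j, hj, rfl⟩ | ⟨haP, j, hj, haj⟩
    · refine ⟨((Γ.induce J₀).neighborSet j \ Z, Γ.neighborSet j.1 ∩ J₁), ⟨?_, ?_⟩, ?_⟩
      · show (Γ.induce J₀).neighborSet j \ Z ∈ insert ∅ (Types (Γ.induce J₀) Z)
        by_cases he : ((Γ.induce J₀).neighborSet j \ Z).Nonempty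
        · exact Set.mem_insert_of_mem _ ⟨he, j, hj, rfl⟩
        · rw [Set.not_nonempty_iff_eq_empty.mp he]
          exact Set.mem_insert _ _
      · exact Set.inter_subset_right
      · show Subtype.val '' ((Γ.induce J₀).neighborSet j \ Z) ∪ Γ.neighborSet j.1 ∩ J₁ =
          Γ.neighborSet j.1 \ Zp Γ J₀ P Z
        ext v
        constructor
        · rintro (⟨w, ⟨hw1, hw2⟩, rfl⟩ | ⟨hv1, hv2⟩)
          · refine ⟨hw1, ?_⟩
            rintro (⟨w', hw', he⟩ | ⟨hwP, -⟩)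
            · exact hw2 (Subtype.ext he ▸ hw')
            · exact Set.disjoint_left.mp h0P w.2 hwP
          · refine ⟨hv1, ?_⟩
            rintro (⟨w', _, he⟩ | ⟨hwP, -⟩)
            · exact Set.disjoint_left.mp h01 w'.2 (he ▸ hv2)
            · exact Set.disjoint_left.mp h1P hv2 hwP
        · rintro ⟨hv1, hv2⟩
          have hv3 : v ∈ J₀ ∪ J₁ ∪ P := by rw [hU]; exact Set.mem_univ v
          rcases hv3 with (hv3 | hv3) | hv3
          · refine Or.inl ⟨⟨v, hv3⟩, ⟨hv1, fun h => hv2 (Or.inl ⟨_, h, rfl⟩)⟩, rfl⟩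
          · exact Or.inr ⟨hv1, hv3⟩
          · exact absurd (Or.inr ⟨hv3, j, hj, (SimpleGraph.Adj.symm hv1)⟩) hv2
    · exfalso
      obtain ⟨v, hv1, hv2⟩ := hne
      have hv1' : Γ.Adj a v := hv1
      have h2 : v ∈ nb Γ {a} := ⟨fun h => hv1'.ne (Set.mem_singleton_iff.mp h).symm, a, rfl, hv1'⟩
      have h3 : j.1 ∈ nb Γ {a} := ⟨fun h => haj.ne (Set.mem_singleton_iff.mp h).symm, a, rfl, haj⟩
      have h4 : v = j.1 := (Set.ncard_le_one (Set.toFinite _)).mp (hp a haP).1 v h2 j.1 h3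
      exact hv2 (Or.inl ⟨j, hj, h4.symm⟩)
  have hf : ((insert ∅ (Types (Γ.induce J₀) Z)) ×ˢ 𝒫 J₁ : Set (Set J₀ × Set ι)).Finite :=
    Set.toFinite _
  have h2 : ((insert ∅ (Types (Γ.induce J₀) Z)) ×ˢ 𝒫 J₁ : Set (Set J₀ × Set ι)).ncard ≤
      (k' + 1) * 2 ^ b := by
    rw [Set.ncard_prod, Set.ncard_powerset]
    refine Nat.mul_le_mul ?_ (Nat.pow_le_pow_right (by norm_num) hb)
    refine (Set.ncard_insert_le _ _).trans (Nat.succ_le_succ ?_)
    rw [← Set.Finite.cast_ncard_eq (Set.toFinite (Types (Γ.induce J₀) Z))] at hZ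
    exact_mod_cast hZ
  calc (Types Γ (Zp Γ J₀ P Z)).encard ≤ _ := Set.encard_le_encard h1
    _ ≤ _ := Set.encard_image_le _ _
    _ = _ := (Set.Finite.cast_ncard_eq hf).symm
    _ ≤ _ := by exact_mod_cast h2

theorem lay_Zp [Finite ι] {k' b : ℕ} {J₀ J₁ P : Set ι} (hU : J₀ ∪ J₁ ∪ P = Set.univ)
    (h01 : Disjoint J₀ J₁) (h0P : Disjoint J₀ P) (h1P : Disjoint J₁ P) (hb : J₁.ncard ≤ b)
    (hp : ∀ p ∈ P, (nb Γ {p}).ncard ≤ 1 ∧ nb Γ {p} ⊆ J₀ ∪ J₁) {Z : Set J₀}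
    (hZ : Lay (Γ.induce J₀) k' Z) : Lay Γ ((k' + 1) * 2 ^ b + 2 ^ b + 1) (Zp Γ J₀ P Z) := by
  have hle : (((k' + 1) * 2 ^ b : ℕ) : ℕ∞) ≤ (((k' + 1) * 2 ^ b + 2 ^ b + 1 : ℕ) : ℕ∞) := by
    exact_mod_cast ((Nat.le_add_right _ _).trans (Nat.le_add_right _ _) :
      (k' + 1) * 2 ^ b ≤ (k' + 1) * 2 ^ b + 2 ^ b + 1)
  induction hZ with
  | empty =>
    have h1 : Zp Γ J₀ P ∅ = ∅ := by
      ext v
      constructor
      · rintro (⟨w, hw, _⟩ | ⟨_, j, hj, _⟩)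
        · exact hw
        · exact hj
      · intro h
        exact absurd h (Set.notMem_empty v)
    rw [h1]
    exact Lay.empty
  | single j h =>
    have h1 : Zp Γ J₀ P {j} = insert j.1 {p | p ∈ P ∧ Γ.Adj p j.1} := by
      ext v
      constructor
      · rintro (⟨w, hw, rfl⟩ | ⟨hvP, i, hi, hvi⟩)
        · rw [Set.mem_singleton_iff] at hw
          rw [hw]
          exact Set.mem_insert _ _
        · rw [Set.mem_singleton_iff] at hi
          rw [hi] at hvi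
          exact Set.mem_insert_of_mem _ ⟨hvP, hvi⟩
      · intro hv
        rcases Set.mem_insert_iff.mp hv with rfl | ⟨hvP, hvj⟩
        · exact Or.inl ⟨j, rfl, rfl⟩
        · exact Or.inr ⟨hvP, j, rfl, hvj⟩
    have h2 : Lay Γ ((k' + 1) * 2 ^ b + 2 ^ b + 1) {p | p ∈ P ∧ Γ.Adj p j.1} := by
      refine lay_extend (Nat.le_add_left 1 _) (Set.empty_subset _) Lay.empty ?_
      intro X _ hX
      refine types_nb (B := {j.1}) (n := 1) ?_ (Set.ncard_singleton _).le ?_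
      · rintro v ⟨hv1, a, ha, hav⟩
        have ha2 := hX ha
        have h3 : v ∈ nb Γ {a} := ⟨fun h => hav.ne (Set.mem_singleton_iff.mp h).symm, a, rfl, hav⟩
        have h4 : j.1 ∈ nb Γ {a} :=
          ⟨fun h => ha2.2.ne (Set.mem_singleton_iff.mp h).symm, a, rfl, ha2.2⟩
        exact (Set.ncard_le_one (Set.toFinite _)).mp (hp a ha2.1).1 v h3 j.1 h4
      · have h5 : 1 ≤ (k' + 1) * 2 ^ b := Nat.mul_pos (Nat.succ_pos _) (Nat.two_pow_pos b)
        have h6 : 1 ≤ 2 ^ b := Nat.two_pow_pos b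
        calc 2 ^ 1 ≤ (k' + 1) * 2 ^ b + 2 ^ b := Nat.add_le_add h5 h6
          _ ≤ _ := Nat.le_succ _
    have h3 := types_Zp hU h01 h0P h1P hb hp {j} h
    rw [h1] at h3 ⊢
    exact Lay.insert (Nat.le_add_left 1 _) h2 (fun h4 => Set.disjoint_left.mp h0P j.2 h4.1) (h3.trans hle)
  | @union A B hA hB hd ht ihA ihB =>
    have h1 : Zp Γ J₀ P (A ∪ B) = Zp Γ J₀ P A ∪ Zp Γ J₀ P B := by
      ext v
      constructor
      · rintro (⟨w, hw | hw, rfl⟩ | ⟨hvP, i, hi | hi, hvi⟩)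
        · exact Or.inl (Or.inl ⟨w, hw, rfl⟩)
        · exact Or.inr (Or.inl ⟨w, hw, rfl⟩)
        · exact Or.inl (Or.inr ⟨hvP, i, hi, hvi⟩)
        · exact Or.inr (Or.inr ⟨hvP, i, hi, hvi⟩)
      · rintro ((⟨w, hw, rfl⟩ | ⟨hvP, i, hi, hvi⟩) | (⟨w, hw, rfl⟩ | ⟨hvP, i, hi, hvi⟩))
        · exact Or.inl ⟨w, Or.inl hw, rfl⟩
        · exact Or.inr ⟨hvP, i, Or.inl hi, hvi⟩
        · exact Or.inl ⟨w, Or.inr hw, rfl⟩
        · exact Or.inr ⟨hvP, i, Or.inr hi, hvi⟩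
    have h2 : Disjoint (Zp Γ J₀ P A) (Zp Γ J₀ P B) := by
      rw [Set.disjoint_left]
      rintro v (⟨w, hw, rfl⟩ | ⟨hvP, i, hi, hvi⟩) (⟨w', hw', he⟩ | ⟨hvP', i', hi', hvi'⟩)
      · exact Set.disjoint_left.mp hd hw (Subtype.ext he ▸ hw')
      · exact Set.disjoint_left.mp h0P w.2 hvP'
      · exact Set.disjoint_left.mp h0P w'.2 (he ▸ hvP)
      · have h3 : i.1 ∈ nb Γ {v} :=
          ⟨fun h => hvi.ne (Set.mem_singleton_iff.mp h).symm, v, rfl, hvi⟩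
        have h4 : i'.1 ∈ nb Γ {v} :=
          ⟨fun h => hvi'.ne (Set.mem_singleton_iff.mp h).symm, v, rfl, hvi'⟩
        have h5 := (Set.ncard_le_one (Set.toFinite _)).mp (hp v hvP).1 i.1 h3 i'.1 h4
        exact Set.disjoint_left.mp hd hi (Subtype.ext h5 ▸ hi')
    have h3 := types_Zp hU h01 h0P h1P hb hp (A ∪ B) ht
    rw [h1] at h3 ⊢
    exact Lay.union ihA ihB h2 (h3.trans hle)

end L

end xLAux

open xLAux

theorem xL : S_XL := by
  intro k' b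
  refine ⟨(k' + 1) * 2 ^ b + 2 ^ b + 1, ?_⟩
  intro ι _ Γ J₀ J₁ P hU h01 h0P h1P hb hp hL
  have h1 := lay_Zp hU h01 h0P h1P hb hp hL
  have h2k : 2 ^ b ≤ (k' + 1) * 2 ^ b + 2 ^ b + 1 :=
    (Nat.le_add_left _ _).trans (Nat.le_add_right _ _)
  have hJ : J₀ ⊆ Zp Γ J₀ P Set.univ := fun v hv => Or.inl ⟨⟨v, hv⟩, trivial, rfl⟩
  -- the other pendant vertices
  have h2 : Lay Γ ((k' + 1) * 2 ^ b + 2 ^ b + 1) (J₀ ∪ P) := by
    refine lay_extend (Nat.le_add_left 1 _) ?_ h1 ?_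
    · rintro v (⟨w, _, rfl⟩ | ⟨hvP, _⟩)
      · exact Or.inl w.2
      · exact Or.inr hvP
    · intro X hX1 hX2
      refine types_nb (B := J₁) ?_ hb h2k
      rintro v ⟨hv1, a, ha, hav⟩
      have hv3 : v ∈ J₀ ∪ J₁ ∪ P := by rw [hU]; exact Set.mem_univ v
      rcases hv3 with (hv3 | hv3) | hv3
      · exact absurd (hX1 (hJ hv3)) hv1
      · exact hv3
      · exfalso
        have h3 : a ∈ nb Γ {v} :=
          ⟨fun h => hav.ne (Set.mem_singleton_iff.mp h), v, rfl, hav.symm⟩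
        rcases (hp v hv3).2 h3 with h4 | h4
        · exact hv1 (hX1 (Or.inr ⟨hv3, ⟨a, h4⟩, trivial, hav.symm⟩))
        · rcases hX2 ha with h5 | h5
          · exact Set.disjoint_left.mp h01 h5 h4
          · exact Set.disjoint_left.mp h1P h4 h5
  refine lay_extend (Nat.le_add_left 1 _) (Set.subset_univ _) h2 ?_
  intro X hX1 _
  refine types_nb (B := J₁) ?_ hb h2k
  rintro v ⟨hv1, a, ha, hav⟩
  have hv3 : v ∈ J₀ ∪ J₁ ∪ P := by rw [hU]; exact Set.mem_univ v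
  rcases hv3 with (hv3 | hv3) | hv3
  · exact absurd (hX1 (Or.inl hv3)) hv1
  · exact hv3
  · exact absurd (hX1 (Or.inr hv3)) hv1

end Pool.Agent.MPd439b2.KS
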