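import Pool.Agent.Lib.MP_d439b2_co.KS.SpecY

/-!
# MP_d439b2_co, Theorem K, Y0: layouts of restricted graphs
-/

set_option autoImplicit false

namespace Pool.Agent.MPd439b2.KS

theorem pY0 : S_Y0 := by
  intro V G k X A hA
  have key : ∀ B : Set V, (Types (restr G X) B).encard ≤ (Types G B).encard := by
    intro B
    have h1 : Types (restr G X) B ⊆ (fun T => T ∩ X) '' (Types G B) := by
      rintro T ⟨hne, a, ha, rfl⟩
      have haX : a ∈ X := by
        obtain ⟨v, hv⟩ := hne
        exact hv.1.2.1
      have h2 : (restr G X).neighborSet a \ B = (G.neighborSet a \ B) ∩ X := by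
        ext v
        constructor
        · rintro ⟨h3, h4⟩
          exact ⟨⟨h3.1, h4⟩, h3.2.2⟩
        · rintro ⟨⟨h3, h4⟩, h5⟩
          exact ⟨⟨h3, haX, h5⟩, h4⟩
      refine ⟨G.neighborSet a \ B, ⟨?_, a, ha, rfl⟩, h2.symm⟩
      obtain ⟨v, hv⟩ := hne
      rw [h2] at hv
      exact ⟨v, hv.1⟩
    exact (Set.encard_le_encard h1).trans (Set.encard_image_le _ _)
  induction hA with
  | empty => exact Lay.empty
  | single v h => exact Lay.single v ((key _).trans h)
  | union _ _ hd ht ihA ihB => exact Lay.union ihA ihB hd ((key _).trans ht)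

end Pool.Agent.MPd439b2.KS
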