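import Pool.Agent.Lib.MP_d439b2_co.KS.SpecY

/-!
# MP_d439b2_co, Theorem K, Y1: substitution, the traces of one type
-/

set_option autoImplicit false

namespace Pool.Agent.MPd439b2.KS

namespace Y1x

variable {V ι : Type} {G : SimpleGraph V} {U E : Set V} {π : V → ι} {Γ : SimpleGraph ι}
  {I₁ : Set ι} {a : ι → V} {κ : ℕ} {X t : Set ι}

/-- the trace -/
def tr (G : SimpleGraph V) (U E : Set V) (π : V → ι) (X : Set ι) (x : V) : Set V :=
  (G.neighborSet x \ pre U π X) \ E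

theorem tr_U (h : SubD G U E π Γ I₁ a κ) {x y : V} (hx : x ∈ U) (hy : y ∈ tr G U E π X x) :
    y ∈ U := by
  by_contra hU
  exact hy.2 (h.nbU ⟨hU, x, hx, hy.1.1⟩)

theorem tr_notX (h : SubD G U E π Γ I₁ a κ) {x y : V} (hx : x ∈ U)
    (hy : y ∈ tr G U E π X x) : π y ∉ X := fun h1 => hy.1.2 ⟨tr_U h hx hy, h1⟩

theorem tr_t (h : SubD G U E π Γ I₁ a κ) {x y : V} (hx : x ∈ pre U π X)
    (ht : Γ.neighborSet (π x) \ X = t) (hy : y ∈ tr G U E π X x) : π y ∈ t := by
  have h1 := tr_notX h hx.1 hy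
  rw [← ht]
  exact ⟨h.adj x hx.1 y (tr_U h hx.1 hy) (fun h2 => h1 (h2 ▸ hx.2)) hy.1.1, h1⟩

theorem fact1 (h : SubD G U E π Γ I₁ a κ) {x : V} (hx : x ∈ pre U π X) (hi : π x ∈ I₁)
    (hne : x ≠ a (π x)) : tr G U E π X x = ∅ := by
  rw [Set.eq_empty_iff_forall_notMem]
  intro y hy
  have h1 := tr_notX h hx.1 hy
  obtain ⟨h2, h3, h4⟩ := h.one (π x) hi
  have h5 : y ∈ nb G (fib U π (π x) \ {a (π x)}) := by
    refine ⟨fun h6 => h1 (h6.1.2 ▸ hx.2), x, ⟨⟨hx.1, rfl⟩, hne⟩, hy.1.1⟩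
  rcases h4 h5 with h6 | h6
  · rw [h6, h3] at h1
    exact h1 hx.2
  · exact hy.2 h6

theorem fact2 (h : SubD G U E π Γ I₁ a κ) {x : V} (hx : x ∈ pre U π X) {R : Set V}
    (hR : x ∉ R) : tr G U E π X x ⊆ nb G (fib U π (π x) \ R) \ E := by
  intro y hy
  have h1 := tr_notX h hx.1 hy
  exact ⟨⟨fun h6 => h1 (h6.1.2 ▸ hx.2), x, ⟨⟨hx.1, rfl⟩, hR⟩, hy.1.1⟩, hy.2⟩

theorem encard_powerset_le [Finite V] {A : Set V} {n : ℕ} (h : A.ncard ≤ n) :
    (𝒫 A).encard ≤ ((2 ^ n : ℕ) : ℕ∞) := by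
  have h1 : (𝒫 A).Finite := Set.toFinite _
  rw [← h1.cast_ncard_eq, Set.ncard_powerset]
  exact_mod_cast Nat.pow_le_pow_right (by norm_num) h

theorem encard_pair_le' {α : Type} (x y : α) : ({x, y} : Set α).encard ≤ 2 := by
  refine (Set.encard_insert_le _ _).trans ?_
  rw [Set.encard_singleton]
  norm_num

/-- the traces over one index -/
theorem one_index [Finite V] (h : SubD G U E π Γ I₁ a κ) (i : ι) :
    ∃ 𝒮 : Set (Set V), 𝒮.encard ≤ ((κ + 2 ^ κ + 2 : ℕ) : ℕ∞) ∧ ∀ x ∈ pre U π X, π x = i →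
      tr G U E π X x ∈ 𝒮 := by
  classical
  by_cases hi : i ∈ I₁
  · refine ⟨{∅, tr G U E π X (a i)}, ?_, ?_⟩
    · refine (encard_pair_le' _ _).trans ?_
      have h1 : (2 : ℕ) ≤ κ + 2 ^ κ + 2 := Nat.le_add_left _ _
      exact_mod_cast h1
    · rintro x hx rfl
      by_cases h1 : x = a (π x)
      · right
        rw [Set.mem_singleton_iff, ← h1]
      · left
        exact fact1 h hx hi h1
  · obtain ⟨-, R, hRf, hRc, hRn⟩ := h.two i hi
    refine ⟨(tr G U E π X) '' R ∪ 𝒫 (nb G (fib U π i \ R) \ E), ?_, ?_⟩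
    · refine (Set.encard_union_le _ _).trans ?_
      have h1 : (tr G U E π X '' R).encard ≤ ((κ : ℕ) : ℕ∞) := by
        refine (Set.encard_image_le _ _).trans ?_
        rw [← (Set.toFinite R).cast_ncard_eq]
        exact_mod_cast hRc
      have h2 := encard_powerset_le hRn
      refine (add_le_add h1 h2).trans ?_
      have h3 : κ + 2 ^ κ ≤ κ + 2 ^ κ + 2 := by omega
      exact_mod_cast h3
    · rintro x hx rfl
      by_cases h1 : x ∈ R
      · exact Or.inl ⟨x, h1, rfl⟩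
      · exact Or.inr (fact2 h hx h1)

theorem encard_biUnion_le {α β : Type} [Finite α] (J : Set α) (F : α → Set β) (n M : ℕ)
    (hJ : J.ncard ≤ n) (hF : ∀ i ∈ J, (F i).encard ≤ (M : ℕ∞)) :
    (⋃ i ∈ J, F i).encard ≤ ((n * M : ℕ) : ℕ∞) := by
  classical
  have key : ∀ s : Finset α, (∀ i ∈ s, (F i).encard ≤ (M : ℕ∞)) →
      (⋃ i ∈ s, F i).encard ≤ ((s.card * M : ℕ) : ℕ∞) := by
    intro s
    induction s using Finset.induction_on with
    | empty => intro _; simp
    | insert j s hj ih =>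
      intro hs
      rw [Finset.set_biUnion_insert]
      refine (Set.encard_union_le _ _).trans ?_
      have h1 := hs j (Finset.mem_insert_self j s)
      have h2 := ih (fun i hi => hs i (Finset.mem_insert_of_mem hi))
      refine (add_le_add h1 h2).trans ?_
      rw [Finset.card_insert_of_notMem hj]
      have h3 : M + s.card * M ≤ (s.card + 1) * M := by
        rw [Nat.add_mul, Nat.one_mul, Nat.add_comm]
      exact_mod_cast h3
  have hfin : J.Finite := Set.toFinite J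
  have h1 := key hfin.toFinset (fun i hi => hF i (hfin.mem_toFinset.mp hi))
  have h2 : (⋃ i ∈ hfin.toFinset, F i) = ⋃ i ∈ J, F i := by
    simp only [Set.Finite.mem_toFinset]
  rw [h2] at h1
  refine h1.trans ?_
  rw [Set.ncard_eq_toFinset_card J hfin] at hJ
  exact_mod_cast Nat.mul_le_mul_right M hJ

end Y1x

open Y1x in
theorem pY1 : S_Y1 := by
  intro κ
  refine ⟨κ * (κ + 2 ^ κ + 2) + 2 ^ κ + 2, ?_⟩
  intro V ι _ _ G U E π Γ I₁ a X t h _
  classical
  have hmono : ∀ n : ℕ, n ≤ κ * (κ + 2 ^ κ + 2) + 2 ^ κ + 2 →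
      ((n : ℕ) : ℕ∞) ≤ ((κ * (κ + 2 ^ κ + 2) + 2 ^ κ + 2 : ℕ) : ℕ∞) := by
    intro n hn
    exact_mod_cast hn
  by_cases hA : ∃ j ∈ t, j ∉ I₁
  · -- case A
    obtain ⟨j, hjt, hj⟩ := hA
    have hκ := (h.two j hj).1
    choose F hF1 hF2 using fun i => one_index (X := X) h i
    refine ⟨⋃ i ∈ nb Γ {j}, F i, ?_, ?_⟩
    · refine (encard_biUnion_le (nb Γ {j}) F κ (κ + 2 ^ κ + 2) hκ (fun i _ => hF1 i)).trans ?_
      exact hmono _ ((Nat.le_add_right _ _).trans (Nat.le_add_right _ _))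
    · intro x hx ht
      have h1 : π x ∈ nb Γ {j} := by
        rw [← ht] at hjt
        refine ⟨fun h2 => hjt.2 ?_, j, rfl, hjt.1.symm⟩
        rw [Set.mem_singleton_iff] at h2
        rw [← h2]
        exact hx.2
      exact Set.mem_biUnion h1 (hF2 (π x) x hx rfl)
  · -- case B
    push Not at hA
    have hsub : ∀ x ∈ pre U π X, Γ.neighborSet (π x) \ X = t → tr G U E π X x ⊆ a '' t := by
      intro x hx ht y hy
      have h1 := tr_t h hx ht hy
      have h2 := tr_notX h hx.1 hy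
      obtain ⟨h3, h4, h5⟩ := h.one (π y) (hA _ h1)
      refine ⟨π y, h1, ?_⟩
      by_contra h6
      have h7 : x ∈ nb G (fib U π (π y) \ {a (π y)}) := by
        refine ⟨fun h8 => h2 (h8.1.2 ▸ hx.2), y, ⟨⟨tr_U h hx.1 hy, rfl⟩, fun h8 => h6 h8.symm⟩,
          SimpleGraph.Adj.symm hy.1.1⟩
      rcases h5 h7 with h8 | h8
      · have h9 := hx.2
        rw [h8, h4] at h9
        exact h2 h9
      · exact Set.disjoint_left.mp h.disj hx.1 h8
    by_cases hB : ∃ i ∈ X, i ∉ I₁ ∧ Γ.neighborSet i \ X = t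
    · obtain ⟨i, hiX, hi, hit⟩ := hB
      have hκ := (h.two i hi).1
      have h1 : t ⊆ nb Γ {i} := by
        rintro j hj
        rw [← hit] at hj
        exact ⟨fun h2 => hj.2 (by rw [Set.mem_singleton_iff] at h2; rw [h2]; exact hiX), i, rfl, hj.1⟩
      have h2 : (a '' t).ncard ≤ κ :=
        (Set.ncard_image_le (Set.toFinite _)).trans
          ((Set.ncard_le_ncard h1 (Set.toFinite _)).trans hκ)
      refine ⟨𝒫 (a '' t), (encard_powerset_le h2).trans (hmono _ ((Nat.le_add_left _ _).trans (Nat.le_add_right _ _))), ?_⟩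
      intro x hx ht
      exact hsub x hx ht
    · push Not at hB
      refine ⟨{∅, a '' t}, (encard_pair_le' _ _).trans (hmono 2 (Nat.le_add_left _ _)), ?_⟩
      intro x hx ht
      have hi : π x ∈ I₁ := by
        by_contra h1
        exact hB (π x) hx.2 h1 ht
      by_cases h1 : x = a (π x)
      · right
        rw [Set.mem_singleton_iff]
        apply Set.Subset.antisymm (hsub x hx ht)
        rintro _ ⟨j, hj, rfl⟩
        obtain ⟨h3, h4, h5⟩ := h.one j (hA _ hj)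
        rw [← ht] at hj
        have h6 := h.main (π x) hi j (hA j (by rw [← ht]; exact hj)) hj.1
        rw [← h1] at h6
        exact ⟨⟨h6, fun h7 => hj.2 (by have := h7.2; rw [h4] at this; exact this)⟩,
          fun h7 => Set.disjoint_left.mp h.disj h3 h7⟩
      · left
        exact fact1 h hx hi h1

end Pool.Agent.MPd439b2.KS
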