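import Pool.Agent.Lib.MP_d439b2_co.KS.Y1

/-!
# MP_d439b2_co, Theorem K, Y2: substitution, the number of types
-/

set_option autoImplicit false

namespace Pool.Agent.MPd439b2.KS

open Y1x in
theorem pY2 (hY1 : S_Y1) : S_Y2 := by
  intro κ k' e
  obtain ⟨M, hM⟩ := hY1 κ
  refine ⟨2 ^ e * (1 + k' * M), ?_⟩
  intro V ι _ _ G U E π Γ I₁ a X h hE hk
  classical
  choose F hF1 hF2 using fun (t : Set ι) (ht : t.Nonempty) => hM V ι G U E π Γ I₁ a X t h ht
  let 𝒢 : Set ι → Set (Set V) := fun t => {N | ∃ ht : t.Nonempty, N ∈ F t ht}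
  have h𝒢 : ∀ t ∈ Types Γ X, (𝒢 t).encard ≤ ((M : ℕ) : ℕ∞) := by
    intro t ht
    have h1 : 𝒢 t ⊆ F t ht.1 := by
      rintro N ⟨_, hN⟩
      exact hN
    exact (Set.encard_le_encard h1).trans (hF1 t ht.1)
  have hTn : (Types Γ X).ncard ≤ k' := by
    have h1 : (Types Γ X).Finite := Set.toFinite _
    rw [← h1.cast_ncard_eq] at hk
    exact_mod_cast hk
  let 𝒰 : Set (Set V) := {∅} ∪ ⋃ t ∈ Types Γ X, 𝒢 t
  have h𝒰 : 𝒰.encard ≤ ((1 + k' * M : ℕ) : ℕ∞) := by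
    refine (Set.encard_union_le _ _).trans ?_
    rw [Set.encard_singleton]
    have h1 := encard_biUnion_le (Types Γ X) 𝒢 k' M hTn h𝒢
    refine (add_le_add le_rfl h1).trans ?_
    push_cast
    exact le_rfl
  have hsub : Types G (pre U π X) ⊆ (fun p : Set V × Set V => p.1 ∪ p.2) '' (𝒫 E ×ˢ 𝒰) := by
    rintro T ⟨hne, x, hx, rfl⟩
    refine ⟨((G.neighborSet x \ pre U π X) ∩ E, (G.neighborSet x \ pre U π X) \ E),
      ⟨Set.inter_subset_right, ?_⟩, ?_⟩
    · by_cases h0 : tr G U E π X x = ∅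
      · left
        exact h0
      · right
        obtain ⟨y, hy⟩ := Set.nonempty_iff_ne_empty.mpr h0
        have h1 := tr_t h hx rfl hy
        have h2 : (Γ.neighborSet (π x) \ X).Nonempty := ⟨π y, h1⟩
        have h3 : Γ.neighborSet (π x) \ X ∈ Types Γ X := ⟨h2, π x, hx.2, rfl⟩
        exact Set.mem_biUnion h3 ⟨h2, hF2 _ h2 x hx rfl⟩
    · exact Set.inter_union_sdiff _ _
  refine (Set.encard_le_encard hsub).trans ?_
  refine (Set.encard_image_le _ _).trans ?_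
  rw [Set.encard_prod]
  refine (mul_le_mul' (encard_powerset_le hE) h𝒰).trans ?_
  rw [← Nat.cast_mul]

end Pool.Agent.MPd439b2.KS
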