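import Pool.Agent.Lib.MP_d439b2_co.KS.SpecY

/-!
# MP_d439b2_co, Theorem K, Y3: substitution in a layout
-/

set_option autoImplicit false

namespace Pool.Agent.MPd439b2.KS

theorem pY3 (hY2 : S_Y2) : S_Y3 := by
  intro κ k' e
  obtain ⟨k₀, hk₀⟩ := hY2 κ k' e
  refine ⟨k₀, ?_⟩
  intro k hk V ι _ _ G U E π Γ I₁ a h hE hΓ hfib
  have key : ∀ X : Set ι, Lay Γ k' X → Lay G k (pre U π X) := by
    intro X hX
    induction hX with
    | empty =>
      have h1 : pre U π ∅ = ∅ := by
        ext v
        simp [pre]
      rw [h1]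
      exact Lay.empty
    | single i _ =>
      have h1 : pre U π {i} = fib U π i := by
        ext v
        simp [pre, fib]
      rw [h1]
      exact hfib i
    | @union A B _ _ hd ht ihA ihB =>
      have h1 : pre U π (A ∪ B) = pre U π A ∪ pre U π B := by
        ext v
        simp only [pre, Set.mem_ofPred_eq, Set.mem_union]
        tauto
      have h2 := hk₀ V ι G U E π Γ I₁ a (A ∪ B) h hE ht
      rw [h1] at h2 ⊢
      refine Lay.union ihA ihB ?_ (h2.trans (by exact_mod_cast hk))
      rw [Set.disjoint_left]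
      intro v hv hv'
      exact Set.disjoint_left.mp hd hv.2 hv'.2
  have h1 := key Set.univ hΓ
  have h2 : pre U π Set.univ = U := by
    ext v
    simp [pre]
  rwa [h2] at h1

end Pool.Agent.MPd439b2.KS
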