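import Pool.Agent.Lib.MP_d439b2_co.KS.SpecY
import Pool.Agent.Lib.MP_d439b2_co.B.Rec

/-!
# MP_d439b2_co, Theorem K, Y4: the recursion step from the quotient structure
-/

set_option autoImplicit false

namespace Pool.Agent.MPd439b2.KS

namespace Y4x

open recBAux

variable {V : Type}

/-- the traces of a set which is the union of a set with small neighbourhood and a small set -/
theorem types_mixed [Finite V] {G : SimpleGraph V} {A R E : Set V} {n m k : ℕ} (h : nb G A ⊆ E ∪ R)
    (hE : E.ncard ≤ n) (hR : R.ncard ≤ m) (hk : 2 ^ n + m ≤ k) : (Types G (A ∪ R)).encard ≤ k := by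
  classical
  have h1 : Types G (A ∪ R) ⊆ 𝒫 E ∪ (fun a => G.neighborSet a \ (A ∪ R)) '' R := by
    rintro T ⟨hne, a, ha, rfl⟩
    by_cases haR : a ∈ R
    · exact Or.inr ⟨a, haR, rfl⟩
    · left
      intro y hy
      have haA : a ∈ A := ha.resolve_right haR
      have h2 : y ∈ nb G A := ⟨fun h3 => hy.2 (Or.inl h3), a, haA, hy.1⟩
      rcases h h2 with h3 | h3
      · exact h3
      · exact absurd (Or.inr h3) hy.2
  refine (Set.encard_le_encard h1).trans ((Set.encard_union_le _ _).trans ?_)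
  have h2 : (𝒫 E).encard ≤ ((2 ^ n : ℕ) : ℕ∞) := by
    have h3 : (𝒫 E).Finite := Set.toFinite _
    rw [← h3.cast_ncard_eq, Set.ncard_powerset]
    exact_mod_cast Nat.pow_le_pow_right (by norm_num) hE
  have h3 : ((fun a => G.neighborSet a \ (A ∪ R)) '' R).encard ≤ ((m : ℕ) : ℕ∞) := by
    refine (Set.encard_image_le _ _).trans ?_
    rw [← (Set.toFinite R).cast_ncard_eq]
    exact_mod_cast hR
  refine (add_le_add h2 h3).trans ?_
  exact_mod_cast hk

end Y4x

open recBAux Y4x in
theorem pY4 (hY0 : S_Y0) (hY3 : S_Y3) (hLU : S_LayU) : S_Y4 := by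
  intro q τ k₁
  obtain ⟨k₀, hk₀⟩ := hY3 τ k₁ (q + τ)
  refine ⟨k₀ + 2 ^ (q + 2 * τ) + τ + 1, ?_⟩
  intro k hk V _ G U S hd hn hS hQ hpieces
  classical
  obtain ⟨T, ι, _, part, Γ, hT, hne, hdT, hdisj, hcov, hadj, hLay, hpart⟩ := hQ
  have hp1 : 1 ≤ 2 ^ (q + 2 * τ) := Nat.one_le_two_pow
  have hk1 : 1 ≤ k := by omega
  have hpow1 : 2 ^ (q + τ) ≤ k := by
    have : 2 ^ (q + τ) ≤ 2 ^ (q + 2 * τ) := Nat.pow_le_pow_right (by norm_num) (by omega)
    omega
  have hnbU : ∀ u ∈ U, ∀ v, G.Adj u v → v ∈ U ∪ S := by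
    intro u hu v huv
    by_cases hv : v ∈ U
    · exact Or.inl hv
    · exact Or.inr (hn ⟨hv, u, hu, huv⟩)
  have hE : (S ∪ T).ncard ≤ q + τ := by
    have := Set.ncard_union_le S T
    omega
  -- it is enough to find a layout of `U \ T`
  suffices hmain : Lay G k (U \ T) by
    have h1 := lay_add hk1 hmain (Z := U ∩ T) (by
      rw [Set.disjoint_left]
      rintro x hx hx'
      exact hx.2 hx'.2) (by
      intro Z' hZ'
      refine types_le (E := S ∪ T) (n := q + τ) ?_ hE hpow1
      rintro x ⟨hx1, a, ha, hax⟩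
      have haU : a ∈ U := by
        rcases ha with h | h
        · exact h.1
        · exact (hZ' h).1
      rcases hnbU a haU x hax with h | h
      · by_cases hxT : x ∈ T
        · exact Or.inr hxT
        · exact absurd (Or.inl ⟨h, hxT⟩) hx1
      · exact Or.inl h)
    have h2 : U \ T ∪ U ∩ T = U := Set.sdiff_union_inter U T
    rwa [h2] at h1
  rcases (U \ T).eq_empty_or_nonempty with h0 | ⟨u₀, hu₀⟩
  · rw [h0]
    exact Lay.empty
  have hι : Nonempty ι := ⟨(hcov u₀ hu₀.2).choose⟩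
  -- the projection
  let π : V → ι := fun v => if h : ∃ i, v ∈ part i then h.choose else Classical.arbitrary ι
  have hπ : ∀ v, v ∉ T → v ∈ part (π v) := by
    intro v hv
    have h := hcov v hv
    simp only [π, h, dif_pos]
    exact h.choose_spec
  have hπ' : ∀ v i, v ∈ part i → π v = i := by
    intro v i hv
    by_contra hne'
    exact Set.disjoint_left.mp (hdisj _ _ hne')
      (hπ v (fun h => Set.disjoint_left.mp (hdT i) hv h)) hv
  have hfib : ∀ i, fib (U \ T) π i = part i ∩ U := by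
    intro i
    ext v
    constructor
    · rintro ⟨⟨h1, h2⟩, h3⟩
      exact ⟨h3 ▸ hπ v h2, h1⟩
    · rintro ⟨h1, h2⟩
      exact ⟨⟨h2, fun h => Set.disjoint_left.mp (hdT i) h1 h⟩, hπ' v i h1⟩
  let I₁ : Set ι := {i | ∃ v ∈ U \ T, part i = {v}}
  let a : ι → V := fun i => if h : ∃ v ∈ U \ T, part i = {v} then h.choose else u₀
  have ha : ∀ i ∈ I₁, a i ∈ U \ T ∧ part i = {a i} := by
    intro i hi
    have h : ∃ v ∈ U \ T, part i = {v} := hi
    simp only [a, h, dif_pos]
    exact h.choose_spec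
  let Y : Set ι := {i | ¬ ∃ v, v ∉ U \ T ∧ part i = {v}}
  have hsub : SubD G (U \ T) (S ∪ T) π (restr Γ Y) I₁ a τ := by
    refine ⟨?_, ?_, ?_, ?_, ?_, ?_⟩
    · rw [Set.disjoint_left]
      rintro x ⟨h1, h2⟩ (h3 | h3)
      · exact Set.disjoint_left.mp hd h1 h3
      · exact h2 h3
    · rintro x ⟨hx, b, hb, hbx⟩
      rcases hnbU b hb.1 x hbx with h | h
      · right
        by_contra h2
        exact hx ⟨h, h2⟩
      · exact Or.inl h
    · intro u hu v hv huv hadj'
      have h1 : Tch (restr G (U ∪ S)) (part (π u)) (part (π v)) :=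
        ⟨u, hπ u hu.2, v, hπ v hv.2, hadj', Or.inl hu.1, Or.inl hv.1⟩
      have hY : ∀ x ∈ U \ T, π x ∈ Y := by
        rintro x hx ⟨w, hw, hw'⟩
        have h2 := hπ x hx.2
        rw [hw'] at h2
        rw [Set.mem_singleton_iff] at h2
        rw [← h2] at hw
        exact hw hx
      exact ⟨(hadj _ _ huv).mpr h1, hY u hu, hY v hv⟩
    · intro i hi
      obtain ⟨h1, h2⟩ := ha i hi
      refine ⟨h1, hπ' _ _ (by rw [h2]; rfl), ?_⟩
      have h3 : fib (U \ T) π i \ {a i} = ∅ := by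
        rw [hfib, h2]
        ext x
        simp only [Set.mem_sdiff, Set.mem_inter_iff, Set.mem_singleton_iff, Set.mem_empty_iff_false,
          iff_false]
        tauto
      rw [h3]
      rintro x ⟨_, b, hb, _⟩
      exact absurd hb (Set.notMem_empty b)
    · intro i hi j hj hij
      obtain ⟨h1, h2⟩ := ha i hi
      obtain ⟨h3, h4⟩ := ha j hj
      have h5 := (hadj i j hij.1.ne).mp hij.1
      rw [h2, h4] at h5
      obtain ⟨x, hx, y, hy, hxy⟩ := h5
      rw [Set.mem_singleton_iff] at hx hy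
      rw [← hx, ← hy]
      exact hxy.1
    · intro i hi
      rcases hpart i with ⟨v, hv⟩ | ⟨h1, R, hR, hRc, hRn, -⟩
      · have hvU : v ∉ U \ T := fun h => hi ⟨v, h, hv⟩
        have hvT : v ∉ T := fun h => Set.disjoint_left.mp (hdT i) (by rw [hv]; rfl) h
        have h2 : fib (U \ T) π i = ∅ := by
          rw [hfib, hv]
          ext x
          constructor
          · rintro ⟨hx1, hx2⟩
            rw [Set.mem_singleton_iff] at hx1
            rw [hx1] at hx2
            exact absurd ⟨hx2, hvT⟩ hvU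
          · intro hx
            exact absurd hx (Set.notMem_empty x)
        have h3 : nb (restr Γ Y) {i} = ∅ := by
          rw [Set.eq_empty_iff_forall_notMem]
          rintro j ⟨_, b, hb, hbj⟩
          rw [Set.mem_singleton_iff] at hb
          rw [hb] at hbj
          exact hbj.2.1 ⟨v, hvU, hv⟩
        refine ⟨by rw [h3, Set.ncard_empty]; exact Nat.zero_le _, ∅, Set.empty_subset _,
          by rw [Set.ncard_empty]; exact Nat.zero_le _, ?_⟩
        rw [h2]
        have h4 : nb G ((∅ : Set V) \ ∅) \ (S ∪ T) = ∅ := by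
          rw [Set.eq_empty_iff_forall_notMem]
          rintro j ⟨⟨_, b, hb, _⟩, _⟩
          exact absurd hb.1 (Set.notMem_empty b)
        rw [h4, Set.ncard_empty]
        exact Nat.zero_le _
      · refine ⟨?_, R ∩ U, ?_, ?_, ?_⟩
        · refine (Set.ncard_le_ncard ?_ (Set.toFinite _)).trans h1
          rintro j ⟨hj, b, hb, hbj⟩
          exact ⟨hj, b, hb, hbj.1⟩
        · rw [hfib]
          exact Set.inter_subset_inter_left _ hR
        · exact (Set.ncard_le_ncard Set.inter_subset_left (Set.toFinite _)).trans hRc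
        · refine (Set.ncard_le_ncard ?_ (Set.toFinite _)).trans hRn
          rintro y ⟨⟨hy1, x, hx, hxy⟩, hyE⟩
          rw [hfib] at hy1 hx
          have hyU : y ∈ U := by
            rcases hnbU x hx.1.2 y hxy with h | h
            · exact h
            · exact absurd (Or.inl h) hyE
          refine ⟨fun h => hy1 ⟨⟨h.1, hyU⟩, fun h' => h.2 h'.1⟩, x,
            ⟨hx.1.1, fun h => hx.2 ⟨h, hx.1.2⟩⟩, hxy, Or.inl hx.1.2, Or.inl hyU⟩
  refine hk₀ k (by omega) V ι G (U \ T) (S ∪ T) π (restr Γ Y) I₁ a hsub hE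
    (hY0 ι Γ k₁ Y Set.univ hLay) ?_
  -- the fibres
  intro i
  rw [hfib]
  rcases hpart i with ⟨v, hv⟩ | ⟨h1, R, hR, hRc, hRn, hhalf⟩
  · rw [hv]
    by_cases hvU : v ∈ U
    · have : ({v} : Set V) ∩ U = {v} := by
        rw [Set.inter_eq_left]
        exact Set.singleton_subset_iff.mpr hvU
      rw [this]
      exact Lay.single' hk1 v
    · have : ({v} : Set V) ∩ U = ∅ := by
        rw [Set.eq_empty_iff_forall_notMem]
        rintro x ⟨hx1, hx2⟩
        rw [Set.mem_singleton_iff] at hx1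
        exact hvU (hx1 ▸ hx2)
      rw [this]
      exact Lay.empty
  · set P := part i \ R with hP
    set E' := (S ∪ T) ∪ nb (restr G (U ∪ S)) P with hE'
    have hE'c : E'.ncard ≤ q + 2 * τ := by
      rw [hE']
      have := Set.ncard_union_le (S ∪ T) (nb (restr G (U ∪ S)) P)
      omega
    let 𝒟 : Set (Set V) := {Z | ∃ D, IsComp (restr G (U ∪ S)) P D ∧ Z = U ∩ D}
    have hcup : ⋃₀ 𝒟 = P ∩ U := by
      ext x
      constructor
      · rintro ⟨_, ⟨D, hD, rfl⟩, hx⟩
        exact ⟨hD.1 hx.2, hx.1⟩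
      · rintro ⟨hx1, hx2⟩
        obtain ⟨D, h1, h2, h3, h4⟩ := exists_comp (restr G (U ∪ S)) hx1
        exact ⟨U ∩ D, ⟨D, ⟨h1, h3, h4⟩, rfl⟩, hx2, h2⟩
    have hnbD : ∀ D, IsComp (restr G (U ∪ S)) P D →
        nb (restr G (U ∪ S)) D ⊆ nb (restr G (U ∪ S)) P := by
      rintro D hD v ⟨hv, b, hb, hbv⟩
      exact ⟨fun h => hD.2.2 v h ⟨hv, b, hb, hbv⟩, b, hD.1 hb, hbv⟩
    have hLay1 : Lay G k (P ∩ U) := by
      rw [← hcup]
      refine hLU V G k E' 𝒟 ?_ ?_ ?_
      · have : 2 ^ E'.ncard ≤ 2 ^ (q + 2 * τ) := Nat.pow_le_pow_right (by norm_num) hE'c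
        omega
      · rintro _ ⟨D, hD, rfl⟩
        refine ⟨hpieces D hD.2.1 ((Set.ncard_le_ncard (hnbD D hD) (Set.toFinite _)).trans hRn)
          (hhalf D hD), ?_⟩
        rintro y ⟨hy, x, hx, hxy⟩
        rcases hnbU x hx.1 y hxy with h | h
        · right
          exact hnbD D hD ⟨fun h' => hy ⟨h, h'⟩, x, hx.2, hxy, Or.inl hx.1, Or.inl h⟩
        · exact Or.inl (Or.inl h)
      · rintro _ ⟨D, hD, rfl⟩ _ ⟨D', hD', rfl⟩ hne'
        rw [Set.disjoint_left]
        rintro x ⟨hx1, hx2⟩ ⟨hx3, hx4⟩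
        apply hne'
        have : D = D' := by
          apply Set.Subset.antisymm
          · have h5 := hD.2.1.eq_of_nb (C := D ∩ D') Set.inter_subset_left ⟨x, hx2, hx4⟩ (by
              rintro v hv ⟨hv1, c, hc, hcv⟩
              exact hD'.2.2 v (hD.1 hv) ⟨fun h6 => hv1 ⟨hv, h6⟩, c, hc.2, hcv⟩)
            rw [← h5]
            exact Set.inter_subset_right
          · have h5 := hD'.2.1.eq_of_nb (C := D' ∩ D) Set.inter_subset_left ⟨x, hx4, hx2⟩ (by
              rintro v hv ⟨hv1, c, hc, hcv⟩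
              exact hD.2.2 v (hD'.1 hv) ⟨fun h6 => hv1 ⟨hv, h6⟩, c, hc.2, hcv⟩)
            rw [← h5]
            exact Set.inter_subset_right
        rw [this]
    have hfin := lay_add hk1 hLay1 (Z := R ∩ U) (by
      rw [Set.disjoint_left]
      rintro x hx hx'
      exact hx.1.2 hx'.1) (by
      intro Z' hZ'
      refine types_mixed (E := E') (n := q + 2 * τ) (m := τ) ?_ hE'c
        ((Set.ncard_le_ncard (hZ'.trans Set.inter_subset_left) (Set.toFinite _)).trans hRc) (by omega)
      rintro y ⟨hy, x, hx, hxy⟩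
      left
      rcases hnbU x hx.2 y hxy with h | h
      · right
        exact ⟨fun h' => hy ⟨h', h⟩, x, hx.1, hxy, Or.inl hx.2, Or.inl h⟩
      · exact Or.inl (Or.inl h))
    have h2 : P ∩ U ∪ R ∩ U = part i ∩ U := by
      rw [← Set.union_inter_distrib_right, hP, Set.sdiff_union_of_subset hR]
    rwa [h2] at hfin

end Pool.Agent.MPd439b2.KS
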