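import Pool.Agent.Lib.MP_d439b2_co.KS.SpecY
import Pool.Agent.Lib.MP_d439b2_co.B.Rec

/-!
# MP_d439b2_co, Theorem K, Y5: the recursion for a class of graphs
-/

set_option autoImplicit false

namespace Pool.Agent.MPd439b2.KS

namespace Y5x

open recBAux

theorem claim (𝒞 : (V : Type) → SimpleGraph V → Prop)
    (h𝒞 : ∀ (V : Type) (G : SimpleGraph V) (X : Set V), 𝒞 V G → 𝒞 V (restr G X)) {θ τ k₁ : ℕ}
    (hQS : ∀ (V : Type) [Finite V] (G : SimpleGraph V) (S : Set V), 𝒞 V G → WL G S θ →
      5 * θ ≤ S.ncard → QuoS G S τ k₁)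
    (q k : ℕ) (hq : q = 5 * θ + 2 * τ + 3) (hk : 2 ^ (q + θ + τ + 2) ≤ k)
    (hY : ∀ (V : Type) [Finite V] (G : SimpleGraph V) (U S : Set V), Disjoint U S → nb G U ⊆ S →
      S.ncard ≤ q → QuoS (restr G (U ∪ S)) S τ k₁ →
      (∀ D, Conn (restr G (U ∪ S)) D → (nb (restr G (U ∪ S)) D).ncard ≤ τ →
        2 * (S ∩ D).ncard ≤ S.ncard → Lay G k (U ∩ D)) → Lay G k U)
    (V : Type) [Finite V] (G : SimpleGraph V) (hG : 𝒞 V G) :
    ∀ (n : ℕ) (U S : Set V), U.ncard = n → Disjoint U S → nb G U ⊆ S → S.ncard ≤ q →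
      Lay G k U := by
  intro n
  induction n using Nat.strong_induction_on with
  | _ n ih =>
  intro U S hU hd hn hS
  have hk1 : 1 ≤ k := Nat.one_le_two_pow.trans hk
  have hpow : ∀ e : ℕ, e ≤ q + θ + τ + 2 → 2 ^ e ≤ k := by
    intro e he
    exact (Nat.pow_le_pow_right (by norm_num) he).trans hk
  have hM : ∀ U' S' : Set V, U'.ncard ≤ n → Disjoint U' S' → nb G U' ⊆ S' → S'.ncard < q →
      Lay G k U' := by
    intro U' S' hU' hd' hn' hS'
    rcases U'.eq_empty_or_nonempty with h0 | ⟨v, hv⟩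
    · rw [h0]; exact Lay.empty
    have h1 : (U' \ {v}).ncard + 1 = U'.ncard :=
      Set.ncard_sdiff_singleton_add_one hv (Set.toFinite _)
    have h2 : Lay G k (U' \ {v}) := by
      refine ih (U' \ {v}).ncard (by omega) (U' \ {v}) (insert v S') rfl ?_ ?_ ?_
      · rw [Set.disjoint_left]
        rintro x ⟨hx1, hx2⟩ hx3
        rcases hx3 with hx3 | hx3
        · exact hx2 hx3
        · exact Set.disjoint_left.mp hd' hx1 hx3
      · rintro x ⟨hx1, a, ha, hax⟩
        by_cases hxv : x = v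
        · exact Or.inl hxv
        · right
          apply hn'
          exact ⟨fun h => hx1 ⟨h, hxv⟩, a, ha.1, hax⟩
      · have := Set.ncard_insert_le v S'
        omega
    have h3 : insert v (U' \ {v}) = U' := by
      ext x
      constructor
      · rintro (h | h)
        · rw [h]; exact hv
        · exact h.1
      · intro h
        by_cases hx : x = v
        · exact Or.inl hx
        · exact Or.inr ⟨h, hx⟩
    have h4 := h2.insert hk1 (v := v) (fun h => h.2 rfl)
      (by rw [h3]; exact types_le hn' hS'.le (hpow _ (by omega)))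
    rwa [h3] at h4
  by_cases hSq : S.ncard < q
  · exact hM U S hU.le hd hn hSq
  have hSq' : S.ncard = q := by omega
  -- the restricted graph
  have hG' := h𝒞 V G (U ∪ S) hG
  have hnbU : ∀ u ∈ U, ∀ v, G.Adj u v → v ∈ U ∪ S := by
    intro u hu v huv
    by_cases hv : v ∈ U
    · exact Or.inl hv
    · exact Or.inr (hn ⟨hv, u, hu, huv⟩)
  by_cases hWL : WL (restr G (U ∪ S)) S θ
  · -- CASE 2
    refine hY V G U S hd hn hS (hQS V (restr G (U ∪ S)) S hG' hWL (by omega)) ?_
    intro D hDc hDn hDS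
    refine hM (U ∩ D) ((S ∩ D) ∪ nb (restr G (U ∪ S)) D) ?_ ?_ ?_ ?_
    · rw [← hU]
      exact Set.ncard_le_ncard Set.inter_subset_left (Set.toFinite _)
    · rw [Set.disjoint_left]
      rintro x ⟨hx1, hx2⟩ (hx3 | hx3)
      · exact Set.disjoint_left.mp hd hx1 hx3.1
      · exact hx3.1 hx2
    · rintro x ⟨hx1, a, ha, hax⟩
      have hxX := hnbU a ha.1 x hax
      by_cases hxD : x ∈ D
      · left
        refine ⟨?_, hxD⟩
        rcases hxX with h | h
        · exact absurd ⟨h, hxD⟩ hx1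
        · exact h
      · right
        exact ⟨hxD, a, ha.2, hax, Or.inl ha.1, hxX⟩
    · have h4 := Set.ncard_union_le (S ∩ D) (nb (restr G (U ∪ S)) D)
      omega
  · -- CASE 1
    unfold WL at hWL
    push Not at hWL
    obtain ⟨P, Z, R, hun, hPZ, hZR, hPR, hno, hZ, hSP, hSR⟩ := hWL
    have hcase : ∀ x, x ∈ P ∨ x ∈ Z ∨ x ∈ R := by
      intro x
      have hx : x ∈ P ∪ Z ∪ R := by rw [hun]; exact Set.mem_univ x
      rcases hx with (h | h) | h
      · exact Or.inl h
      · exact Or.inr (Or.inl h)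
      · exact Or.inr (Or.inr h)
    have hsum : (S ∩ P).ncard + (S ∩ R).ncard ≤ q := by
      rw [← hSq', ← Set.ncard_union_eq (hPR.mono Set.inter_subset_right Set.inter_subset_right)
        (Set.toFinite _) (Set.toFinite _)]
      exact Set.ncard_le_ncard (Set.union_subset Set.inter_subset_left Set.inter_subset_left)
        (Set.toFinite _)
    -- a side of the separation
    have side : ∀ P' R' : Set V, (∀ x, x ∈ P' ∨ x ∈ Z ∨ x ∈ R') → Disjoint P' Z →
        (∀ p ∈ P', ∀ r ∈ R', ¬ (restr G (U ∪ S)).Adj p r) →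
        (S ∩ P').ncard + Z.ncard < q → Lay G k (U ∩ P') := by
      intro P' R' hc hPZ' hno' hcard
      refine hM (U ∩ P') ((S ∩ P') ∪ Z) ?_ ?_ ?_ ?_
      · rw [← hU]
        exact Set.ncard_le_ncard Set.inter_subset_left (Set.toFinite _)
      · rw [Set.disjoint_left]
        rintro x ⟨hx1, hx2⟩ (hx3 | hx3)
        · exact Set.disjoint_left.mp hd hx1 hx3.1
        · exact Set.disjoint_left.mp hPZ' hx2 hx3
      · rintro x ⟨hx1, a, ha, hax⟩
        have hxX := hnbU a ha.1 x hax
        rcases hc x with h | h | h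
        · left
          refine ⟨?_, h⟩
          rcases hxX with h' | h'
          · exact absurd ⟨h', h⟩ hx1
          · exact h'
        · exact Or.inr h
        · exfalso
          exact hno' a ha.2 x h ⟨hax, Or.inl ha.1, hxX⟩
      · have := Set.ncard_union_le (S ∩ P') Z
        omega
    have hL1 : Lay G k (U ∩ P) := side P R hcase hPZ hno (by omega)
    have hL2 : Lay G k (U ∩ R) := side R P
      (fun x => by
        rcases hcase x with h | h | h
        · exact Or.inr (Or.inr h)
        · exact Or.inr (Or.inl h)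
        · exact Or.inl h)
      hZR.symm (fun p hp r' hr' h => hno r' hr' p hp h.symm) (by omega)
    have htyp : ∀ Z' ⊆ U ∩ Z, (Types G ((U ∩ P) ∪ (U ∩ R) ∪ Z')).encard ≤ k := by
      intro Z' hZ'
      refine types_le (E := S ∪ Z) (n := q + θ) ?_ ?_ (hpow _ (by omega))
      · rintro x ⟨hx1, a, ha, hax⟩
        have haU : a ∈ U := by
          rcases ha with (h | h) | h
          · exact h.1
          · exact h.1
          · exact (hZ' h).1
        have hxX := hnbU a haU x hax
        rcases hxX with h | h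
        · rcases hcase x with h' | h' | h'
          · exact absurd (Or.inl (Or.inl ⟨h, h'⟩)) hx1
          · exact Or.inr h'
          · exact absurd (Or.inl (Or.inr ⟨h, h'⟩)) hx1
        · exact Or.inl h
      · have := Set.ncard_union_le S Z
        omega
    have hL3 : Lay G k ((U ∩ P) ∪ (U ∩ R)) := by
      refine Lay.union hL1 hL2 (hPR.mono Set.inter_subset_right Set.inter_subset_right) ?_
      have := htyp ∅ (Set.empty_subset _)
      rwa [Set.union_empty] at this
    have hL4 := lay_add hk1 hL3 (Z := U ∩ Z) (by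
      rw [Set.disjoint_left]
      rintro x (hx | hx) hx'
      · exact Set.disjoint_left.mp hPZ hx.2 hx'.2
      · exact Set.disjoint_left.mp hZR hx'.2 hx.2) htyp
    have hfin : (U ∩ P) ∪ (U ∩ R) ∪ (U ∩ Z) = U := by
      ext x
      constructor
      · rintro ((h | h) | h)
        · exact h.1
        · exact h.1
        · exact h.1
      · intro h
        rcases hcase x with h' | h' | h'
        · exact Or.inl (Or.inl ⟨h, h'⟩)
        · exact Or.inr ⟨h, h'⟩
        · exact Or.inl (Or.inr ⟨h, h'⟩)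
    rwa [hfin] at hL4

end Y5x

theorem pY5 (hY4 : S_Y4) : S_Y5 := by
  intro 𝒞 h𝒞 θ τ k₁ hQS
  obtain ⟨k₀, hk₀⟩ := hY4 (5 * θ + 2 * τ + 3) τ k₁
  refine ⟨k₀ + 2 ^ ((5 * θ + 2 * τ + 3) + θ + τ + 2), fun V _ G hG => ?_⟩
  refine Y5x.claim 𝒞 h𝒞 hQS _ _ rfl (Nat.le_add_left _ _) ?_ V G hG _ Set.univ ∅ rfl
    (Set.disjoint_empty _) ?_ ?_
  · exact hk₀ _ (Nat.le_add_right _ _)
  · rintro x ⟨hx, _⟩
    exact absurd (Set.mem_univ x) hx
  · rw [Set.ncard_empty]; exact Nat.zero_le _

end Pool.Agent.MPd439b2.KS
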