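import Pool.Agent.Lib.MP_d439b2_co.KS.SpecY

/-!
# MP_d439b2_co, Theorem K, Y7: the general form
-/

set_option autoImplicit false

namespace Pool.Agent.MPd439b2.KS

theorem pY7 (hX9 : S_X9) (hY5 : S_Y5) (hY6 : S_Y6) : S_Y7 := by
  intro N m r l W _ Y g k' hCo hN hm hg hTC hY
  obtain ⟨θ, τ, k₁, h⟩ := hX9 N m r l W Y g k' hCo
  obtain ⟨k, hk⟩ := hY5 (fun V G => ClK N m r l Y g k' G)
    (fun V G X hG => hY6 N m r l W Y g k' hN hm hg hTC hY V G X hG) θ τ k₁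
    (fun V _ G S hG hWL hS => h V G S hG hWL hS)
  exact ⟨k, fun V _ G hG => hk V G hG⟩

end Pool.Agent.MPd439b2.KS
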