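import Pool.Agent.Lib.MP_d439b2_co.KS.SpecY

/-!
# MP_d439b2_co, Theorem K, Y8: layouts from expressions
-/

set_option autoImplicit false

namespace Pool.Agent.MPd439b2.KS

namespace Y8x

theorem types_lab {V : Type} {G : SimpleGraph V} {k : ℕ} {X : Type} (ψ : X → V)
    (lab : X → Fin k)
    (h : ∀ u u', lab u = lab u' → ∀ w, w ∉ Set.range ψ → (G.Adj (ψ u) w ↔ G.Adj (ψ u') w)) :
    (Types G (Set.range ψ)).encard ≤ k := by
  classical
  let F : Fin k → Set V := fun l => {w | w ∉ Set.range ψ ∧ ∃ u, lab u = l ∧ G.Adj (ψ u) w}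
  have h1 : Types G (Set.range ψ) ⊆ F '' Set.univ := by
    rintro T ⟨_, _, ⟨u, rfl⟩, rfl⟩
    refine ⟨lab u, Set.mem_univ _, ?_⟩
    ext w
    constructor
    · rintro ⟨hw, u', hu', hadj⟩
      exact ⟨(h u' u hu' w hw).mp hadj, hw⟩
    · rintro ⟨hadj, hw⟩
      exact ⟨hw, u, rfl, hadj⟩
  refine (Set.encard_le_encard h1).trans ((Set.encard_image_le _ _).trans ?_)
  rw [Set.encard_univ, ENat.card_eq_coe_fintype_card, Fintype.card_fin]

theorem claim {V : Type} (G : SimpleGraph V) {k : ℕ} (e : Expr k) :
    ∀ (ψ : e.V → V), Function.Injective ψ → ∀ J : Fin k → Fin k → Prop,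
      (∀ u v, G.Adj (ψ u) (ψ v) ↔ e.Rel u v ∨ J (e.label u) (e.label v)) →
      (∀ u u', e.label u = e.label u' → ∀ w, w ∉ Set.range ψ →
        (G.Adj (ψ u) w ↔ G.Adj (ψ u') w)) → Lay G k (Set.range ψ) := by
  induction e with
  | vertex l =>
    intro ψ _ J _ h2
    have h3 : Set.range ψ = {ψ ()} := by
      ext x
      constructor
      · rintro ⟨u, rfl⟩
        rfl
      · rintro rfl
        exact ⟨(), rfl⟩
    rw [h3]
    apply Lay.single
    rw [← h3]
    exact types_lab ψ _ h2
  | union a b iha ihb =>
    intro ψ hψ J h1 h2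
    have ha : Lay G k (Set.range (fun u : a.V => ψ (Sum.inl u))) := by
      refine iha (fun u => ψ (Sum.inl u)) (fun u v huv => Sum.inl.inj (hψ huv)) J
        (fun u v => h1 (Sum.inl u) (Sum.inl v)) ?_
      intro u u' huu w hw
      by_cases hw' : w ∈ Set.range ψ
      · obtain ⟨v, rfl⟩ := hw'
        rcases v with v | v
        · exact absurd ⟨v, rfl⟩ hw
        · have h3 := h1 (Sum.inl u) (Sum.inr v)
          have h4 := h1 (Sum.inl u') (Sum.inr v)
          rw [h3, h4]
          have h5 : (Expr.union a b).label (Sum.inl u) = (Expr.union a b).label (Sum.inl u') := huu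
          rw [h5]
          constructor
          · rintro (h | h)
            · exact absurd h id
            · exact Or.inr h
          · rintro (h | h)
            · exact absurd h id
            · exact Or.inr h
      · exact h2 (Sum.inl u) (Sum.inl u') huu w hw'
    have hb : Lay G k (Set.range (fun u : b.V => ψ (Sum.inr u))) := by
      refine ihb (fun u => ψ (Sum.inr u)) (fun u v huv => Sum.inr.inj (hψ huv)) J
        (fun u v => h1 (Sum.inr u) (Sum.inr v)) ?_
      intro u u' huu w hw
      by_cases hw' : w ∈ Set.range ψ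
      · obtain ⟨v, rfl⟩ := hw'
        rcases v with v | v
        · have h3 := h1 (Sum.inr u) (Sum.inl v)
          have h4 := h1 (Sum.inr u') (Sum.inl v)
          rw [h3, h4]
          have h5 : (Expr.union a b).label (Sum.inr u) = (Expr.union a b).label (Sum.inr u') := huu
          rw [h5]
          constructor
          · rintro (h | h)
            · exact absurd h id
            · exact Or.inr h
          · rintro (h | h)
            · exact absurd h id
            · exact Or.inr h
        · exact absurd ⟨v, rfl⟩ hw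
      · exact h2 (Sum.inr u) (Sum.inr u') huu w hw'
    have h3 : Set.range ψ = Set.range (fun u : a.V => ψ (Sum.inl u)) ∪
        Set.range (fun u : b.V => ψ (Sum.inr u)) := by
      ext x
      constructor
      · rintro ⟨u | u, rfl⟩
        · exact Or.inl ⟨u, rfl⟩
        · exact Or.inr ⟨u, rfl⟩
      · rintro (⟨u, rfl⟩ | ⟨u, rfl⟩)
        · exact ⟨Sum.inl u, rfl⟩
        · exact ⟨Sum.inr u, rfl⟩
    rw [h3]
    refine Lay.union ha hb ?_ ?_
    · rw [Set.disjoint_left]
      rintro _ ⟨u, rfl⟩ ⟨v, hv⟩
      exact absurd (hψ hv) (by simp)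
    · rw [← h3]
      exact types_lab ψ _ h2
  | join i j h a iha =>
    intro ψ hψ J h1 h2
    refine iha ψ hψ (fun x y => J x y ∨ (x = i ∧ y = j) ∨ (x = j ∧ y = i)) ?_ h2
    intro u v
    rw [h1 u v]
    change (a.Rel u v ∨ (a.label u = i ∧ a.label v = j) ∨ (a.label u = j ∧ a.label v = i)) ∨
      J (a.label u) (a.label v) ↔ _
    tauto
  | relabel i j a iha =>
    intro ψ hψ J h1 h2
    refine iha ψ hψ (fun x y => J (if x = i then j else x) (if y = i then j else y)) ?_ ?_
    · intro u v
      exact h1 u v
    · intro u u' huu w hw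
      refine h2 u u' ?_ w hw
      change (if a.label u = i then j else a.label u) = (if a.label u' = i then j else a.label u')
      rw [huu]

end Y8x

theorem pY8 : S_Y8 := by
  rintro V G k ⟨e, φ, h⟩
  have h1 := Y8x.claim G e φ.symm φ.symm.injective (fun _ _ => False) (fun u v => by
    rw [h, φ.apply_symm_apply, φ.apply_symm_apply]
    simp) (fun u u' _ w hw => by
    exact absurd ⟨φ w, φ.symm_apply_apply w⟩ hw)
  rwa [φ.symm.surjective.range_eq] at h1

end Pool.Agent.MPd439b2.KS
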