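import Pool.Agent.Lib.MP_d439b2_co.KS.SpecY
import Pool.Agent.Lib.MP_d439b2_co.ImsTrans

/-!
# MP_d439b2_co, Theorem K, Y9a: enlarging the excluded graphs, and small facts on induced minors
-/

set_option autoImplicit false

namespace Pool.Agent.MPd439b2.KS

namespace Y9x

/-- an induced subgraph is an induced minor -/
theorem ims_emb {W V : Type} {H : SimpleGraph W} {G : SimpleGraph V} (f : W → V)
    (hf : Function.Injective f) (h : ∀ u v, H.Adj u v ↔ G.Adj (f u) (f v)) :
    IMS H G Set.univ := by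
  refine ⟨fun w => {f w}, fun _ => Set.subset_univ _, fun w => Conn.singleton G _, ?_, ?_⟩
  · intro w w' hne
    rw [Set.disjoint_singleton]
    exact fun h' => hne (hf h')
  · intro w w' _
    rw [h w w']
    constructor
    · intro hadj
      exact ⟨f w, rfl, f w', rfl, hadj⟩
    · rintro ⟨a, ha, b, hb, hab⟩
      rw [Set.mem_singleton_iff] at ha hb
      rwa [ha, hb] at hab

theorem ims_trans {V W W' : Type} {G : SimpleGraph V} {H : SimpleGraph W} {F : SimpleGraph W'}
    (h1 : IMS H F Set.univ) (h2 : IMS F G Set.univ) : IMS H G Set.univ :=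
  imsTrans V W W' G H F Set.univ h1 h2

end Y9x

open Y9x in
theorem pY9a : S_Y9a := by
  intro W H N₁ m₁ N₂ m₂ r l h1 h2
  rw [← ims_univ_iff] at h1 h2
  have hN1 : N₁ ≤ max N₁ (max N₂ (2 * max m₁ m₂)) + 3 := by
    have := le_max_left N₁ (max N₂ (2 * max m₁ m₂)); omega
  have hN2 : N₂ + 3 ≤ max N₁ (max N₂ (2 * max m₁ m₂)) + 3 := by
    have := le_max_right N₁ (max N₂ (2 * max m₁ m₂))
    have := le_max_left N₂ (2 * max m₁ m₂); omega
  have hm2 : 2 * max m₁ m₂ ≤ max N₁ (max N₂ (2 * max m₁ m₂)) + 3 := by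
    have := le_max_right N₁ (max N₂ (2 * max m₁ m₂))
    have := le_max_right N₂ (2 * max m₁ m₂); omega
  generalize max N₁ (max N₂ (2 * max m₁ m₂)) + 3 = N at hN1 hN2 hm2
  have hm3 : m₁ ≤ max m₁ m₂ := le_max_left _ _
  have hm4 : m₂ ≤ max m₁ m₂ := le_max_right _ _
  generalize max m₁ m₂ = m at hm2 hm3 hm4
  let r' : Fin N → ℕ := fun i => if h : i.val < N₂ then r ⟨i.val, h⟩ else m
  let l' : Fin N → ℕ := fun i => if h : i.val < N₂ then l ⟨i.val, h⟩ else m
  refine ⟨N, m, r', l', by omega, hm2, ?_, ?_, ?_⟩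
  · rw [← ims_univ_iff]
    refine ims_trans h1 (ims_emb (Sum.map (Fin.castLE hN1) (Fin.castLE hm3)) ?_ ?_)
    · exact (Fin.castLE_injective hN1).sumMap (Fin.castLE_injective hm3)
    · rintro (u | u) (v | v)
      · change u ≠ v ↔ Fin.castLE hN1 u ≠ Fin.castLE hN1 v
        rw [(Fin.castLE_injective hN1).ne_iff]
      · exact Iff.rfl
      · exact Iff.rfl
      · exact Iff.rfl
  · rw [← ims_univ_iff]
    have hN3 : N₂ ≤ N := by omega
    have hr : ∀ i : Fin N₂, r' (Fin.castLE hN3 i) = r i := by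
      intro i
      have : (Fin.castLE hN3 i).val < N₂ := i.2
      simp only [r', this, dif_pos]
      rfl
    have hl : ∀ i : Fin N₂, l' (Fin.castLE hN3 i) = l i := by
      intro i
      have : (Fin.castLE hN3 i).val < N₂ := i.2
      simp only [l', this, dif_pos]
      rfl
    refine ims_trans h2 (ims_emb (Sum.map (Fin.castLE hN3)
      (Sum.map (Fin.castLE hm4) (Fin.castLE hm4))) ?_ ?_)
    · exact (Fin.castLE_injective hN3).sumMap
        ((Fin.castLE_injective hm4).sumMap (Fin.castLE_injective hm4))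
    · rintro (u | u | u) (v | v | v)
      · change u ≠ v ↔ Fin.castLE hN3 u ≠ Fin.castLE hN3 v
        rw [(Fin.castLE_injective hN3).ne_iff]
      · change v.val < r u ↔ v.val < r' (Fin.castLE hN3 u)
        rw [hr]
      · change v.val < l u ↔ v.val < l' (Fin.castLE hN3 u)
        rw [hl]
      · change u.val < r v ↔ u.val < r' (Fin.castLE hN3 v)
        rw [hr]
      · exact Iff.rfl
      · exact Iff.rfl
      · change u.val < l v ↔ u.val < l' (Fin.castLE hN3 v)
        rw [hl]
      · exact Iff.rfl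
      · exact Iff.rfl
  · have hb : ∀ i : Fin N, ¬ i.val < N₂ → r' i = m ∧ l' i = m := by
      intro i hi
      simp only [r', l', hi, dif_neg, not_false_eq_true, and_self]
    have hq : N₂ < N := by omega
    have hq1 : N₂ + 1 < N := by omega
    obtain ⟨hb1, hb2⟩ := hb ⟨N₂, hq⟩ (lt_irrefl N₂)
    rintro (u | u | u)
    · by_cases hu : u.val = N₂
      · refine ⟨Sum.inl ⟨N₂ + 1, hq1⟩, ?_⟩
        change u ≠ ⟨N₂ + 1, hq1⟩
        intro h'
        rw [h'] at hu
        change N₂ + 1 = N₂ at hu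
        omega
      · refine ⟨Sum.inl ⟨N₂, hq⟩, ?_⟩
        change u ≠ ⟨N₂, hq⟩
        intro h'
        rw [h'] at hu
        exact hu rfl
    · refine ⟨Sum.inl ⟨N₂, hq⟩, ?_⟩
      change u.val < r' ⟨N₂, hq⟩
      rw [hb1]
      exact u.2
    · refine ⟨Sum.inl ⟨N₂, hq⟩, ?_⟩
      change u.val < l' ⟨N₂, hq⟩
      rw [hb2]
      exact u.2

end Pool.Agent.MPd439b2.KS
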