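import Pool.Agent.Lib.MP_d439b2_co.KS.SpecZ
import Pool.Agent.Lib.MP_d439b2_co.KS.Y9a

/-!
# MP_d439b2_co, Theorem K, Z1: Theorem K with a grid as third excluded graph
-/

set_option autoImplicit false

namespace Pool.Agent.MPd439b2.KS

namespace Z1x

open Y9x

theorem conn_some {U : Type} {Γ : SimpleGraph U} {A : Set U} (hA : Conn Γ A) :
    Conn (cone Γ) (some '' A) := by
  refine ⟨hA.1.image _, ?_⟩
  intro B hB hne hne'
  have h1 : some ⁻¹' B ⊆ A := by
    intro x hx
    obtain ⟨y, hy, hxy⟩ := hB hx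
    rwa [← Option.some.inj hxy]
  have h2 : (some ⁻¹' B).Nonempty := by
    obtain ⟨b, hb⟩ := hne
    obtain ⟨y, _, hy⟩ := hB hb
    exact ⟨y, by rw [Set.mem_preimage, hy]; exact hb⟩
  have h3 : some ⁻¹' B ≠ A := by
    intro h
    apply hne'
    apply Set.Subset.antisymm hB
    rintro _ ⟨x, hx, rfl⟩
    rw [← h] at hx
    exact hx
  obtain ⟨b, hb, a, ha, hab⟩ := hA.2 _ h1 h2 h3
  exact ⟨some b, hb, some a, ⟨⟨a, ha.1, rfl⟩, ha.2⟩, hab⟩

theorem tch_some {U : Type} {Γ : SimpleGraph U} {A B : Set U} :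
    Tch (cone Γ) (some '' A) (some '' B) ↔ Tch Γ A B := by
  constructor
  · rintro ⟨_, ⟨a, ha, rfl⟩, _, ⟨b, hb, rfl⟩, hab⟩
    exact ⟨a, ha, b, hb, hab⟩
  · rintro ⟨a, ha, b, hb, hab⟩
    exact ⟨some a, ⟨a, ha, rfl⟩, some b, ⟨b, hb, rfl⟩, hab⟩

theorem ims_cone_self {U : Type} (Γ : SimpleGraph U) : IMS Γ (cone Γ) Set.univ :=
  ims_emb some (Option.some_injective _) (fun _ _ => Iff.rfl)

theorem kjn_zero {W : Type} (J : SimpleGraph W) : IMS (KJn 0 J) J Set.univ := by
  refine ims_emb (Sum.elim (fun i => i.elim0) id) ?_ ?_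
  · rintro (u | u) (v | v) h
    · exact u.elim0
    · exact u.elim0
    · exact v.elim0
    · exact congrArg Sum.inr h
  · rintro (u | u) (v | v)
    · exact u.elim0
    · exact u.elim0
    · exact v.elim0
    · exact Iff.rfl

theorem kjn_mono {W : Type} (J : SimpleGraph W) {s s' : ℕ} (h : s ≤ s') :
    IMS (KJn s J) (KJn s' J) Set.univ := by
  refine ims_emb (Sum.map (Fin.castLE h) id) ?_ ?_
  · exact (Fin.castLE_injective h).sumMap Function.injective_id
  · rintro (u | u) (v | v)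
    · change u ≠ v ↔ Fin.castLE h u ≠ Fin.castLE h v
      rw [(Fin.castLE_injective h).ne_iff]
    · exact Iff.rfl
    · exact Iff.rfl
    · exact Iff.rfl

theorem kjn_cone {W U : Type} {J : SimpleGraph W} {Γ : SimpleGraph U} {s : ℕ}
    (h : IMS (KJn s J) Γ Set.univ) : IMS (KJn (s + 1) J) (cone Γ) Set.univ := by
  obtain ⟨B, -, hc, hd, ha⟩ := h
  let B' : Fin (s + 1) ⊕ W → Set (Option U) := fun w => match w with
    | Sum.inl i => if h : i.val < s then some '' B (Sum.inl ⟨i.val, h⟩) else {none}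
    | Sum.inr w => some '' B (Sum.inr w)
  -- all vertices except the last one come from the old model
  have key : ∀ w : Fin (s + 1) ⊕ W, (∃ w₀ : Fin s ⊕ W, B' w = some '' B w₀ ∧
      w = Sum.map Fin.castSucc id w₀) ∨ (B' w = {none} ∧ w = Sum.inl (Fin.last s)) := by
    rintro (i | w)
    · by_cases h : i.val < s
      · left
        refine ⟨Sum.inl ⟨i.val, h⟩, ?_, ?_⟩
        · change (if h : i.val < s then some '' B (Sum.inl ⟨i.val, h⟩) else {none}) = _
          rw [dif_pos h]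
        · rfl
      · right
        refine ⟨?_, ?_⟩
        · change (if h : i.val < s then some '' B (Sum.inl ⟨i.val, h⟩) else {none}) = _
          rw [dif_neg h]
        · congr 1
          apply Fin.ext
          have := i.2
          change i.val = s
          omega
    · left
      exact ⟨Sum.inr w, rfl, rfl⟩
  have hadj : ∀ w₀ w₀' : Fin s ⊕ W, (KJn (s + 1) J).Adj (Sum.map Fin.castSucc id w₀)
      (Sum.map Fin.castSucc id w₀') ↔ (KJn s J).Adj w₀ w₀' := by
    rintro (u | u) (v | v)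
    · change Fin.castSucc u ≠ Fin.castSucc v ↔ u ≠ v
      rw [(Fin.castSucc_injective s).ne_iff]
    · exact Iff.rfl
    · exact Iff.rfl
    · exact Iff.rfl
  have hlast : ∀ w₀ : Fin s ⊕ W, (KJn (s + 1) J).Adj (Sum.inl (Fin.last s))
      (Sum.map Fin.castSucc id w₀) := by
    rintro (u | u)
    · change Fin.last s ≠ Fin.castSucc u
      exact (Fin.castSucc_lt_last u).ne'
    · exact trivial
  refine ⟨B', fun _ => Set.subset_univ _, ?_, ?_, ?_⟩
  · intro w
    rcases key w with ⟨w₀, h1, -⟩ | ⟨h1, -⟩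
    · rw [h1]
      exact conn_some (hc w₀)
    · rw [h1]
      exact Conn.singleton _ _
  · intro w w' hne
    rcases key w with ⟨w₀, h1, h2⟩ | ⟨h1, h2⟩ <;> rcases key w' with ⟨w₀', h1', h2'⟩ | ⟨h1', h2'⟩
    · rw [h1, h1', Set.disjoint_image_iff (Option.some_injective _)]
      exact hd w₀ w₀' (fun h => hne (by rw [h2, h2', h]))
    · rw [h1, h1', Set.disjoint_left]
      rintro _ ⟨x, _, rfl⟩ h
      exact absurd h (by simp)
    · rw [h1, h1', Set.disjoint_right]
      rintro _ ⟨x, _, rfl⟩ h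
      exact absurd h (by simp)
    · exact absurd (h2.trans h2'.symm) hne
  · intro w w' hne
    rcases key w with ⟨w₀, h1, h2⟩ | ⟨h1, h2⟩ <;> rcases key w' with ⟨w₀', h1', h2'⟩ | ⟨h1', h2'⟩
    · rw [h1, h1', tch_some, ← ha w₀ w₀' (fun h => hne (by rw [h2, h2', h])), h2, h2', hadj]
    · rw [h1, h1']
      refine iff_of_true ?_ ?_
      · rw [h2, h2']
        exact (hlast w₀).symm
      · obtain ⟨x, hx⟩ := (hc w₀).1
        exact ⟨some x, ⟨x, hx, rfl⟩, none, rfl, trivial⟩
    · rw [h1, h1']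
      refine iff_of_true ?_ ?_
      · rw [h2, h2']
        exact hlast w₀'
      · obtain ⟨x, hx⟩ := (hc w₀').1
        exact ⟨none, rfl, some x, ⟨x, hx, rfl⟩, trivial⟩
    · exact absurd (h2.trans h2'.symm) hne

/-- excluding `KJn s J` in `G` excludes `KJn (s - 1) J` in `Γ` if the cone of `Γ` is in `G` -/
theorem not_pred {W U V : Type} {J : SimpleGraph W} {Γ : SimpleGraph U} {G : SimpleGraph V}
    {s : ℕ} (hΓ : IMS (cone Γ) G Set.univ) (h : ¬ IMS (KJn s J) G Set.univ) :
    ¬ IMS (KJn (s - 1) J) Γ Set.univ := by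
  intro h1
  apply h
  rcases s with _ | s
  · exact ims_trans (ims_trans h1 (ims_cone_self Γ)) hΓ
  · exact ims_trans (kjn_cone h1) hΓ

theorem coBip_kjn {W : Type} {J : SimpleGraph W} (h : CoBip J) (s : ℕ) : CoBip (KJn s J) := by
  obtain ⟨K, h1, h2⟩ := h
  refine ⟨{w | ∀ u, w = Sum.inr u → u ∈ K}, ?_, ?_⟩
  · rintro (u | u) hu (v | v) hv hne
    · change u ≠ v
      exact fun h' => hne (by rw [h'])
    · exact trivial
    · exact trivial
    · exact h1 u (hu u rfl) v (hv v rfl) (fun h' => hne (by rw [h']))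
  · rintro (u | u) hu (v | v) hv hne
    · exact absurd (fun x hx => by simp at hx) hu
    · exact trivial
    · exact trivial
    · refine h2 u (fun h' => hu ?_) v (fun h' => hv ?_) (fun h' => hne (by rw [h']))
      · intro x hx
        rw [← Sum.inr.inj hx]
        exact h'
      · intro x hx
        rw [← Sum.inr.inj hx]
        exact h'

theorem coBip_cone {W : Type} {J : SimpleGraph W} (h : CoBip J) : CoBip (cone J) := by
  obtain ⟨K, h1, h2⟩ := h
  refine ⟨{w | ∀ u, w = some u → u ∈ K}, ?_, ?_⟩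
  · rintro (_ | u) hu (_ | v) hv hne
    · exact absurd rfl hne
    · exact trivial
    · exact trivial
    · exact h1 u (hu u rfl) v (hv v rfl) (fun h' => hne (by rw [h']))
  · rintro (_ | u) hu (_ | v) hv hne
    · exact absurd rfl hne
    · exact trivial
    · exact trivial
    · refine h2 u (fun h' => hu ?_) v (fun h' => hv ?_) (fun h' => hne (by rw [h']))
      · intro x hx
        rw [← Option.some.inj hx]
        exact h'
      · intro x hx
        rw [← Option.some.inj hx]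
        exact h'

theorem grid_mono {g g' : ℕ} (h : g ≤ g') : IMS (grid g) (grid g') Set.univ := by
  refine ims_emb (fun p => (Fin.castLE h p.1, Fin.castLE h p.2)) ?_ ?_
  · rintro ⟨a, b⟩ ⟨c, d⟩ hh
    rw [Prod.mk.injEq] at hh
    exact Prod.ext (Fin.castLE_injective h hh.1) (Fin.castLE_injective h hh.2)
  · rintro ⟨a, b⟩ ⟨c, d⟩
    change (a = c ∧ _) ∨ (b = d ∧ _) ↔ (Fin.castLE h a = Fin.castLE h c ∧ _) ∨
      (Fin.castLE h b = Fin.castLE h d ∧ _)
    rw [(Fin.castLE_injective h).eq_iff, (Fin.castLE_injective h).eq_iff]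
    exact Iff.rfl

end Z1x

open Y9x Z1x in
theorem pZ1 (hY7 : S_Y7) (hY8 : S_Y8) (hZ0 : S_Z0) : S_Z1 := by
  intro j s W₀ W₁ _ _ H0 J hDD hTC hCo hb g
  obtain ⟨c, hc⟩ := hb
  have key : ∀ n : ℕ, ∀ j' s' : ℕ, j' + s' = n → j' ≤ j → s' ≤ s → ∃ k : ℕ,
      ∀ (V : Type) [Finite V] (G : SimpleGraph V), ¬ IMS (KJn j' H0) G Set.univ →
      ¬ IMS (KJn s' J) G Set.univ → ¬ IMS (grid g) G Set.univ → Lay G k Set.univ := by
    intro n
    induction n using Nat.strong_induction_on with
    | _ n ih =>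
    intro j' s' hn hj' hs'
    by_cases h0 : j' + s' = 0
    · obtain ⟨rfl, rfl⟩ : j' = 0 ∧ s' = 0 := by omega
      refine ⟨c, ?_⟩
      intro V _ G h1 h2 h3
      rcases isEmpty_or_nonempty V with hV | hV
      · have h4 : (Set.univ : Set V) = ∅ := Set.univ_eq_empty_iff.mpr hV
        rw [h4]
        exact Lay.empty
      · apply hY8
        apply hc V G
        · intro h4
          exact h1 (ims_trans (kjn_zero H0) (ims_univ_iff.mpr h4))
        · intro h4
          exact h2 (ims_trans (kjn_zero J) (ims_univ_iff.mpr h4))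
    · obtain ⟨k', hk'⟩ := ih (j' - 1 + (s' - 1)) (by omega) (j' - 1) (s' - 1) rfl (by omega)
        (by omega)
      obtain ⟨N₁, m₁, hDD1⟩ := hDD
      obtain ⟨N₂, m₂, r, l, hTC1⟩ := hTC
      have hDD2 : IsIndMinor (KJn j' H0) (DD N₁ m₁) :=
        ims_univ_iff.mp (ims_trans (kjn_mono H0 hj') (ims_univ_iff.mpr hDD1))
      -- the enlarged excluded graphs
      obtain ⟨N, m, r', l', hN, hm, hD, hT, hTn⟩ : ∃ (N m : ℕ) (r' l' : Fin N → ℕ), 2 ≤ N ∧
          2 * m ≤ N ∧ IsIndMinor (KJn j' H0) (DD N m) ∧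
          (IMS (KJn j' H0) (TCg N m r' l') Set.univ ∨ IMS (KJn s' J) (TCg N m r' l') Set.univ) ∧
          ∀ w, ∃ w', (TCg N m r' l').Adj w w' := by
        rcases hTC1 with hTC1 | hTC1
        · have hTC2 : IsIndMinor (KJn j' H0) (TCg N₂ m₂ r l) :=
            ims_univ_iff.mp (ims_trans (kjn_mono H0 hj') (ims_univ_iff.mpr hTC1))
          obtain ⟨N, m, r', l', h1, h2, h3, h4, h5⟩ :=
            hZ0 _ _ (KJn j' H0) (KJn j' H0) N₁ m₁ N₂ m₂ r l hDD2 hTC2
          exact ⟨N, m, r', l', h1, h2, h3, Or.inl (ims_univ_iff.mpr h4), h5⟩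
        · have hTC2 : IsIndMinor (KJn s' J) (TCg N₂ m₂ r l) :=
            ims_univ_iff.mp (ims_trans (kjn_mono J hs') (ims_univ_iff.mpr hTC1))
          obtain ⟨N, m, r', l', h1, h2, h3, h4, h5⟩ :=
            hZ0 _ _ (KJn j' H0) (KJn s' J) N₁ m₁ N₂ m₂ r l hDD2 hTC2
          exact ⟨N, m, r', l', h1, h2, h3, Or.inr (ims_univ_iff.mpr h4), h5⟩
      obtain ⟨k, hk⟩ := hY7 N m r' l' _ (cone (cone (KJn s' J))) (g + 2) k'
        (coBip_cone (coBip_cone (coBip_kjn hCo s'))) hN hm (by omega) hTn (by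
          rintro (_ | w)
          · exact ⟨some none, trivial⟩
          · exact ⟨none, trivial⟩)
      refine ⟨k, ?_⟩
      intro V _ G h1 h2 h3
      apply hk V G
      refine ⟨fun h => h1 (ims_trans (ims_univ_iff.mpr hD) h),
        fun h => ?_,
        fun h => h2 (ims_trans (ims_trans (ims_cone_self _) (ims_cone_self _)) h),
        fun h => h3 (ims_trans (grid_mono (Nat.le_add_right _ _)) h), ?_⟩
      · rcases hT with hT | hT
        · exact h1 (ims_trans hT h)
        · exact h2 (ims_trans hT h)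
      intro U _ Γ hΓ
      exact hk' U Γ (not_pred hΓ h1) (not_pred hΓ h2)
        (fun h => h3 (ims_trans (ims_trans h (ims_cone_self Γ)) hΓ))
  exact key (j + s) j s rfl le_rfl le_rfl

end Pool.Agent.MPd439b2.KS
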