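import Pool.Agent.Lib.MP_d439b2_co.KS.SpecZ
import Pool.Agent.Lib.MP_d439b2_co.KS.Y9a

/-!
# MP_d439b2_co, Theorem K, Z2: Theorem K for pairs, flexible form
-/

set_option autoImplicit false

namespace Pool.Agent.MPd439b2.KS

open Y9x in
theorem pZ2 (hZ1 : S_Z1) (hLC : S_LayCW) : S_Z2 := by
  intro j s W W' W₀ W₁ _ _ H H' H0 J hDD hTC hCo hH hH' hgrid hb
  obtain ⟨g, hg⟩ : ∃ g, IsIndMinor H (grid g) ∨ IsIndMinor H' (grid g) := by
    rcases hgrid with ⟨g, hg⟩ | ⟨g, hg⟩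
    · exact ⟨g, Or.inl hg⟩
    · exact ⟨g, Or.inr hg⟩
  obtain ⟨k, hk⟩ := hZ1 j s W₀ W₁ H0 J hDD hTC hCo hb g
  refine ⟨3 * (k + 1), ?_⟩
  intro V _ _ G h1 h2
  apply hLC
  rw [← ims_univ_iff] at h1 h2 hH hH'
  rw [← ims_univ_iff, ← ims_univ_iff] at hg
  apply hk V G
  · exact fun h => h1 (ims_trans hH h)
  · exact fun h => h2 (ims_trans hH' h)
  · intro h
    rcases hg with hg | hg
    · exact h1 (ims_trans hg h)
    · exact h2 (ims_trans hg h)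

end Pool.Agent.MPd439b2.KS
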