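import Pool.Agent.Lib.MP_d439b2_co.KS.P1
import Pool.Agent.Lib.MP_d439b2_co.KS.P2
import Pool.Agent.Lib.MP_d439b2_co.KS.P3
import Pool.Agent.Lib.MP_d439b2_co.KS.P4
import Pool.Agent.Lib.MP_d439b2_co.KS.P5
import Pool.Agent.Lib.MP_d439b2_co.KS.P6
import Pool.Agent.Lib.MP_d439b2_co.KS.P6a
import Pool.Agent.Lib.MP_d439b2_co.KS.P6b
import Pool.Agent.Lib.MP_d439b2_co.KS.P6c
import Pool.Agent.Lib.MP_d439b2_co.KS.P7
import Pool.Agent.Lib.MP_d439b2_co.KS.U0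
import Pool.Agent.Lib.MP_d439b2_co.KS.U1
import Pool.Agent.Lib.MP_d439b2_co.KS.U2
import Pool.Agent.Lib.MP_d439b2_co.KS.U2a
import Pool.Agent.Lib.MP_d439b2_co.KS.U2b
import Pool.Agent.Lib.MP_d439b2_co.KS.U3
import Pool.Agent.Lib.MP_d439b2_co.KS.U4
import Pool.Agent.Lib.MP_d439b2_co.KS.U5
import Pool.Agent.Lib.MP_d439b2_co.KS.U6
import Pool.Agent.Lib.MP_d439b2_co.KS.U7
import Pool.Agent.Lib.MP_d439b2_co.KS.U8
import Pool.Agent.Lib.MP_d439b2_co.KS.U9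
import Pool.Agent.Lib.MP_d439b2_co.KS.V1
import Pool.Agent.Lib.MP_d439b2_co.KS.V2
import Pool.Agent.Lib.MP_d439b2_co.KS.V3
import Pool.Agent.Lib.MP_d439b2_co.KS.V4
import Pool.Agent.Lib.MP_d439b2_co.KS.V5
import Pool.Agent.Lib.MP_d439b2_co.KS.V5a
import Pool.Agent.Lib.MP_d439b2_co.KS.V6
import Pool.Agent.Lib.MP_d439b2_co.KS.V7
import Pool.Agent.Lib.MP_d439b2_co.KS.V8
import Pool.Agent.Lib.MP_d439b2_co.KS.V9
import Pool.Agent.Lib.MP_d439b2_co.KS.V9a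
import Pool.Agent.Lib.MP_d439b2_co.KS.V9b
import Pool.Agent.Lib.MP_d439b2_co.KS.V10
import Pool.Agent.Lib.MP_d439b2_co.KS.X1
import Pool.Agent.Lib.MP_d439b2_co.KS.X2
import Pool.Agent.Lib.MP_d439b2_co.KS.X3
import Pool.Agent.Lib.MP_d439b2_co.KS.X4
import Pool.Agent.Lib.MP_d439b2_co.KS.X5
import Pool.Agent.Lib.MP_d439b2_co.KS.X6
import Pool.Agent.Lib.MP_d439b2_co.KS.X7
import Pool.Agent.Lib.MP_d439b2_co.KS.X8a
import Pool.Agent.Lib.MP_d439b2_co.KS.X8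
import Pool.Agent.Lib.MP_d439b2_co.KS.XL
import Pool.Agent.Lib.MP_d439b2_co.KS.X9b
import Pool.Agent.Lib.MP_d439b2_co.KS.X9c
import Pool.Agent.Lib.MP_d439b2_co.KS.X9
import Pool.Agent.Lib.MP_d439b2_co.KS.Y0
import Pool.Agent.Lib.MP_d439b2_co.KS.Y1
import Pool.Agent.Lib.MP_d439b2_co.KS.Y2
import Pool.Agent.Lib.MP_d439b2_co.KS.Y3
import Pool.Agent.Lib.MP_d439b2_co.KS.Y4
import Pool.Agent.Lib.MP_d439b2_co.KS.Y5
import Pool.Agent.Lib.MP_d439b2_co.KS.Y6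
import Pool.Agent.Lib.MP_d439b2_co.KS.Y7
import Pool.Agent.Lib.MP_d439b2_co.KS.Y8
import Pool.Agent.Lib.MP_d439b2_co.KS.Y9a
import Pool.Agent.Lib.MP_d439b2_co.KS.Z0
import Pool.Agent.Lib.MP_d439b2_co.KS.Z1
import Pool.Agent.Lib.MP_d439b2_co.KS.Z2
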