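import Pool.Agent.Lib.MP_d439b2_co.KS.SpecU

/-!
# MP_d439b2_co, Theorem K: the quotient structure
-/

set_option autoImplicit false

namespace Pool.Agent.MPd439b2.KS

/-- The quotient structure: up to `τ` vertices the graph is partitioned into parts, the quotient graph
`Γ` has a layout of width `k₁`, and every part is a single vertex, or it has at most `τ` neighbours in
`Γ` and consists of at most `τ` vertices `R` and of a set with at most `τ` neighbours all of whose
components contain at most half of `S`. -/
def QuoS {V : Type} (G : SimpleGraph V) (S : Set V) (τ k₁ : ℕ) : Prop :=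
  ∃ (T : Set V) (ι : Type) (_ : Finite ι) (part : ι → Set V) (Γ : SimpleGraph ι),
    T.ncard ≤ τ ∧ (∀ i, (part i).Nonempty) ∧ (∀ i, Disjoint (part i) T) ∧
    (∀ i j, i ≠ j → Disjoint (part i) (part j)) ∧ (∀ v, v ∉ T → ∃ i, v ∈ part i) ∧
    (∀ i j, i ≠ j → (Γ.Adj i j ↔ Tch G (part i) (part j))) ∧ Lay Γ k₁ Set.univ ∧
    ∀ i, (∃ v, part i = {v}) ∨
      ((nb Γ {i}).ncard ≤ τ ∧ ∃ R ⊆ part i, R.ncard ≤ τ ∧ (nb G (part i \ R)).ncard ≤ τ ∧
        ∀ D, IsComp G (part i \ R) D → 2 * (S ∩ D).ncard ≤ S.ncard)

/-- the cone: a new vertex `none` adjacent to all vertices -/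
def cone {W : Type} (Γ : SimpleGraph W) : SimpleGraph (Option W) where
  Adj
    | none, none => False
    | none, some _ => True
    | some _, none => True
    | some u, some v => Γ.Adj u v
  symm := ⟨fun u v h => by
    rcases u with _ | u <;> rcases v with _ | v
    · exact h
    · exact trivial
    · exact trivial
    · exact h.symm⟩
  loopless := ⟨fun u h => by
    rcases u with _ | u
    · exact h
    · exact Γ.loopless.irrefl u h⟩

/-- the class of Theorem K: four excluded induced minors, and all graphs whose cone is an induced minor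
have layouts of width `k'` -/
def ClK {V W : Type} (N m : ℕ) (r l : Fin N → ℕ) (Y : SimpleGraph W) (g k' : ℕ)
    (G : SimpleGraph V) : Prop :=
  ¬ IMS (DD N m) G Set.univ ∧ ¬ IMS (TCg N m r l) G Set.univ ∧ ¬ IMS Y G Set.univ ∧
    ¬ IMS (grid g) G Set.univ ∧
    ∀ (U : Type) [Finite U] (Γ : SimpleGraph U), IMS (cone Γ) G Set.univ → Lay Γ k' Set.univ

end Pool.Agent.MPd439b2.KS
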