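import Pool.Agent.Lib.MP_d439b2_co.KS.SpecP

/-! Module P1 of MP_d439b2_co, Theorem K: double counting of subsets. -/

set_option autoImplicit false

namespace Pool.Agent.MPd439b2.KS

open Classical in
theorem p1 : S_P1 := by
  intro d p M hdp hpM g hg
  set gd := g.filter (fun I => I.card = d) with hgd
  set PP := Finset.powersetCard p (Finset.univ : Finset (Fin M)) with hPP
  -- number of supersets
  have hsup : ∀ I ∈ gd, (PP.filter (fun P => I ⊆ P)).card ≤ (M - d).choose (p - d) := by
    intro I hI
    have hIc : I.card = d := (Finset.mem_filter.1 hI).2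
    have hcard : (Finset.univ \ I : Finset (Fin M)).card = M - d := by
      rw [Finset.card_sdiff_of_subset (Finset.subset_univ _), Finset.card_univ, Fintype.card_fin, hIc]
    have hle : (PP.filter (fun P => I ⊆ P)).card ≤
        (Finset.powersetCard (p - d) (Finset.univ \ I : Finset (Fin M))).card := by
      apply Finset.card_le_card_of_injOn (fun P => P \ I)
      · intro P hP
        have hP' := Finset.mem_filter.1 (Finset.mem_coe.1 hP)
        have hPc : P.card = p := (Finset.mem_powersetCard.1 hP'.1).2
        apply Finset.mem_coe.2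
        rw [Finset.mem_powersetCard]
        refine ⟨Finset.sdiff_subset_sdiff (Finset.subset_univ _) (le_refl _), ?_⟩
        change (P \ I).card = p - d
        rw [Finset.card_sdiff_of_subset hP'.2, hPc, hIc]
      · intro P hP Q hQ hPQ
        have hP' := (Finset.mem_filter.1 (Finset.mem_coe.1 hP)).2
        have hQ' := (Finset.mem_filter.1 (Finset.mem_coe.1 hQ)).2
        have hPQ' : P \ I = Q \ I := hPQ
        rw [← Finset.sdiff_union_of_subset hP', ← Finset.sdiff_union_of_subset hQ', hPQ']
    rwa [Finset.card_powersetCard, hcard] at hle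
  have hcount : M.choose p ≤ gd.card * (M - d).choose (p - d) := by
    have h1 : PP.card = M.choose p := by
      rw [hPP, Finset.card_powersetCard, Finset.card_univ, Fintype.card_fin]
    have h2 : PP.card ≤ ∑ P ∈ PP, (gd.filter (fun I => I ⊆ P)).card := by
      rw [Finset.card_eq_sum_ones]
      apply Finset.sum_le_sum
      intro P hP
      obtain ⟨I, hI, hIP, hIc⟩ := hg P (Finset.mem_powersetCard.1 hP).2
      apply Finset.card_pos.2
      exact ⟨I, Finset.mem_filter.2 ⟨Finset.mem_filter.2 ⟨hI, hIc⟩, hIP⟩⟩
    have h3 : ∑ P ∈ PP, (gd.filter (fun I => I ⊆ P)).card =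
        ∑ I ∈ gd, (PP.filter (fun P => I ⊆ P)).card := by
      simp only [Finset.card_filter]
      rw [Finset.sum_comm]
    have h4 : ∑ I ∈ gd, (PP.filter (fun P => I ⊆ P)).card ≤ gd.card * (M - d).choose (p - d) := by
      have := Finset.sum_le_card_nsmul gd (fun I => (PP.filter (fun P => I ⊆ P)).card)
        ((M - d).choose (p - d)) hsup
      simpa using this
    rw [← h1]
    exact h2.trans (h3.le.trans h4)
  have hpos : 0 < (M - d).choose (p - d) := Nat.choose_pos (by omega)
  have hmul : M.choose p * p.choose d = M.choose d * (M - d).choose (p - d) :=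
    Nat.choose_mul hdp
  have : M.choose d * (M - d).choose (p - d) ≤ (p.choose d * gd.card) * (M - d).choose (p - d) := by
    rw [← hmul]
    calc M.choose p * p.choose d ≤ (gd.card * (M - d).choose (p - d)) * p.choose d :=
          Nat.mul_le_mul_right _ hcount
      _ = (p.choose d * gd.card) * (M - d).choose (p - d) := by ring
  exact Nat.le_of_mul_le_mul_right this hpos

end Pool.Agent.MPd439b2.KS
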