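import Mathlib

/-!
# MP_d439b2_co, Theorem K, Spec P: the (p,q)-theorem for set systems of bounded VC dimension

Pure finite combinatorics, independent of the rest.  `R x v` means: the point `x` belongs to the set
`v`.  Every `S_...` is a statement to be proved in its own file; the docstring contains the complete
proof.
-/

set_option autoImplicit false

namespace Pool.Agent.MPd439b2.KS

open Classical in
/-- `U` is shattered by the sets `{u | R x u}` -/
def Shat {V : Type} (R : V → V → Prop) (U : Finset V) : Prop :=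
  ∀ S : Finset V, S ⊆ U → ∃ x, ∀ u ∈ U, R x u ↔ u ∈ S

/-- **P1.** Double counting: if every `p`-subset of `Fin M` contains a good `d`-subset then there are at
least `C(M,d) / C(p,d)` good `d`-subsets.

Proof. Let `g_d` be the set of the good sets with `d` elements.  Count the pairs `(I, P)`, `I ∈ g_d`,
`I ⊆ P`, `|P| = p`: at least `C(M,p)`, and every `I` is in exactly `C(M-d, p-d)` sets `P` (bijection
`P ↦ P \ I` with the `(p-d)`-subsets of the complement of `I`; `≤` is enough).  So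
`C(M,p) ≤ |g_d| C(M-d,p-d)`.  Multiply by `C(p,d)`: `C(M,p) C(p,d) = C(M,d) C(M-d,p-d)` (`Nat.choose_mul`)
and cancel `C(M-d,p-d) > 0`. -/
def S_P1 : Prop := ∀ d p M : ℕ, d ≤ p → p ≤ M → ∀ g : Finset (Finset (Fin M)),
  (∀ P : Finset (Fin M), P.card = p → ∃ I ∈ g, I ⊆ P ∧ I.card = d) →
    M.choose d ≤ p.choose d * (g.filter fun I => I.card = d).card

/-- **P2.** Sauer-Shelah for traces on a sequence.

Proof. `Finset.card_le_card_shatterer`: `F.card ≤ F.shatterer.card`.  A set `T` shattered by `F` has less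
than `d` elements: otherwise let `T' ⊆ T`, `|T'| = d` (also shattered).  `s` is injective on `T'` (if
`s i = s j`, `i ≠ j`, the subset `{i}` of `T'` is a trace `A ∩ T'`, `A ∈ F`, but `i ∈ A ↔ R x (s i) ↔ j ∈ A`).
`U = T'.image s` has `d` elements and is shattered in the sense of `Shat`: for `S ⊆ U` take
`T'.filter (s · ∈ S) = A ∩ T'` with `A ∈ F` and the `x` of `A`.  Contradiction.  So the shatterer is a
subset of `⋃ k < d` of the sets with `k` elements (`Finset.powersetCard`). -/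
def S_P2 : Prop := ∀ (V : Type) (R : V → V → Prop) (d M : ℕ) (s : Fin M → V)
  (F : Finset (Finset (Fin M))), (∀ U : Finset V, U.card = d → ¬ Shat R U) →
    (∀ A ∈ F, ∃ x, ∀ i, i ∈ A ↔ R x (s i)) → F.card ≤ ∑ k ∈ Finset.range d, M.choose k

/-- **P3.** Numbers.

Proof. `d = 0`: `M = p + 1`, the left side is `0 < 1`.  `d ≥ 1`: for `M ≥ 2 d` all `C(M,k)`, `k < d`, are at
most `C(M,d-1)` (or simply `C(M,k) ≤ M ^ (d-1)` for `M ≥ 1`), and `C(M,d) ≥ (M / d) ^ d` roughly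
(`Nat.pow_le_choose`/`Nat.choose_succ_right_eq`: `C(M,d) d = C(M,d-1) (M-d+1)`).  With
`C(M,k) ≤ C(M,d-1)` for `k ≤ d - 1`, `M ≥ 2 d`: the sum is at most `d C(M,d-1)`, and
`d C(M,d) = (M-d+1) C(M,d-1)`, so `M = 2 d + p + 2 C(p,d) d d + 1` is enough.  The same `M` may be taken
arbitrarily large: `M₀ ≤ M`. -/
def S_P3 : Prop := ∀ d p M₀ : ℕ, ∃ M : ℕ, M₀ ≤ M ∧ p ≤ M ∧ 1 ≤ M ∧
  2 * p.choose d * ∑ k ∈ Finset.range d, M.choose k < M.choose d

open Classical in
/-- **P4.** Fractional Helly theorem for bounded VC dimension, with weights (Matoušek).  (Uses `S_P1`,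
`S_P2`, `S_P3`.)

Proof. `M` from P3 for `d, p`; `b = 2 M`.  Suppose `b w(N x) < W` for all `x`, where `W = ∑_{VV} w`,
`w(N x) = ∑_{v ∈ VV, R x v} w v`.  `Ω` = the functions `s : Fin M → V` with values in `VV`
(`Fintype.piFinset fun _ => VV`), `μ(s) = ∏ i, w (s i)`, `∑_Ω μ = W ^ M` (`Finset.prod_univ_sum` or
`Finset.sum_prod_piFinset`).  For `I ⊆ Fin M` with `|I| = d` call `(I, s)` good if some `x` has `R x (s i)`
for all `i ∈ I`; choose such an `x = x(I,s)` depending only on the restriction of `s` to `I` (choose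
`x(I, t)` for `t : I → V` and put `x(I,s) = x(I, fun i => s i)`).
(1) For fixed `I` and `j ∉ I`: `M b' := 2 M ∑_s μ(s) [(I,s) good and R (x(I,s)) (s j)] ≤ ∑_s μ(s) [(I,s) good]`
in the form `b W ∑_{s} μ(s) [good, R (x(I,s)) (s j)] ≤ W ∑_s μ(s) [good]`: the map
`(s, v) ↦ (update s j v, s j)` is an involution of `Ω × VV` with `μ(s) w(v) = μ(update s j v) w(s j)`, and
goodness and `x(I,s)` do not depend on the coordinate `j`; so
`W ∑_s μ(s) [good, R x (s j)] = ∑_{s,v} μ(s) w(v) [good, R x (s j)] = ∑_{s,v} μ(s) w(v) [good, R x v]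
= ∑_s μ(s) [good] w(N x(I,s))`, and `b w(N x) ≤ W`.
(2) Call `(I,s)` exact if it is good and `¬ R (x(I,s)) (s j)` for all `j ∉ I`.  By (1), summing over
`j ∉ I` (at most `M` indices): `∑_s μ(s) [exact] ≥ (1 - M/b) ∑_s μ(s) [good]`, that is
`2 ∑_s μ(s) [(I,s) exact] ≥ ∑_s μ(s) [(I,s) good]`.
(3) For every `s ∈ Ω` there are at least `C(M,d) / C(p,d)` sets `I` with `(I,s)` good: P1, since for `|P| = p`
the hypothesis for `s ∘ (order embedding of P)` gives `I ⊆ P`.
(4) For every `s` the sets `I` with `(I,s)` exact are traces `{i | R x (s i)}`: at most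
`∑_{k<d} C(M,k)` by P2.
(2)-(4): `W^M C(M,d) ≤ C(p,d) ∑_s μ(s) #good ≤ 2 C(p,d) ∑_s μ(s) #exact ≤ 2 C(p,d) W^M ∑_{k<d} C(M,k)`,
contradiction to P3 as `W > 0`. -/
def S_P4 : Prop := ∀ d p : ℕ, d ≤ p → ∃ b : ℕ, 1 ≤ b ∧ ∀ (V : Type) (R : V → V → Prop)
  (VV : Finset V), (∀ U : Finset V, U.card = d → ¬ Shat R U) →
    (∀ s : Fin p → V, (∀ i, s i ∈ VV) → ∃ I : Finset (Fin p), I.card = d ∧ ∃ x, ∀ i ∈ I, R x (s i)) →
    ∀ w : V → ℕ, 0 < ∑ v ∈ VV, w v →
      ∃ x, ∑ v ∈ VV, w v ≤ b * ∑ v ∈ VV.filter (fun v => R x v), w v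

open Classical in
/-- **P5.** Multiplicative weights: from `every weight has a heavy point` to a fractional cover.

Proof. `VV = ∅`: `T = 1`.  For `T ≥ 1` define a sequence of points `y 0, y 1, ...` and weights
`w_t v = 2 ^ (T - h_t v)`, `h_t v = #{u < t | R (y u) v}` (`≤ t ≤ T`), where `y t` is a point for the weight
`w_t` (`W_t = ∑ w_t > 0`): `W_t ≤ b w_t(N (y t))`.  `w_{t+1}` is `w_t / 2` on `N (y t)` and `w_t` elsewhere
(for `t < T`), so `2 W_{t+1} = 2 W_t - w_t(N(y t))` and `2 b W_{t+1} ≤ (2 b - 1) W_t`.  Hence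
`(2 b)^T W_T ≤ (2 b - 1)^T |VV| 2^T`.  For `v ∈ VV` with `h = h_T v`: `2^(T-h) ≤ W_T`, so
`(2 b)^T ≤ (2 b - 1)^T |VV| 2^h`.  If `2 b h < T` then (raise to the power `2 b`, or use real numbers)
`1 ≤ (1 - 1/(2b))^T |VV| 2^(T/(2b))`, i.e. `1 ≤ |VV| ρ^T` with `ρ = (1 - 1/(2b)) 2^(1/(2b)) < 1` (since
`(1 - 1/(2b))^(2b) < 1/2`: for instance `(1 + 1/(2b-1))^(2b) ≥ 1 + 2b/(2b-1) > 2` by Bernoulli).  Choose `T`
with `|VV| ρ^T < 1`.  So `T ≤ 2 b h`. -/
def S_P5 : Prop := ∀ b : ℕ, 1 ≤ b → ∀ (V : Type) [Nonempty V] (R : V → V → Prop) (VV : Finset V),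
  (∀ w : V → ℕ, 0 < ∑ v ∈ VV, w v →
    ∃ x, ∑ v ∈ VV, w v ≤ b * ∑ v ∈ VV.filter (fun v => R x v), w v) →
    ∃ (T : ℕ) (y : Fin T → V), 0 < T ∧
      ∀ v ∈ VV, T ≤ 2 * b * (Finset.univ.filter fun t => R (y t) v).card

open Classical in
/-- **P6a.** A random sequence hits a dense set often.

Proof. `s` is bad if for some `i : Fin h` all `s (i, j)`, `j : Fin b`, are outside `A`.  For fixed `i` there
are `(T - |A|)^b T^(b(h-1))` such `s` (product count: `Fintype.piFinset` with `Aᶜ` at the coordinates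
`(i, j)` and `univ` elsewhere, `Finset.card_pi`/`Fintype.card_piFinset`).  `g (T - |A|) ≤ (g - 1) T`, so
`g^b` times this number is at most `(g-1)^b T^(hb)`, and `2 h (g-1)^b ≤ g^b` gives: at most `T^(hb) / 2`
functions are bad.  A function which is not bad has for every `i` some `j` with `s (i, j) ∈ A`: at least
`h` pairs. -/
def S_P6a : Prop := ∀ h b g T : ℕ, 1 ≤ g → 2 * h * (g - 1) ^ b ≤ g ^ b → ∀ A : Finset (Fin T),
  T ≤ g * A.card → T ^ (h * b) ≤ 2 * (Finset.univ.filter fun s : Fin h × Fin b → Fin T =>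
    h ≤ (Finset.univ.filter fun i => s i ∈ A).card).card

open Classical in
/-- **P6b.** Symmetrization.

Proof. Write `E(s)` for the event `∃ A ∈ F, (∀ i, s.1 i ∉ A) ∧ h ≤ #{i | s.2 i ∈ A}`, where
`s = (s.1, s.2)`, `s.1, s.2 : ρ → Fin T`.  For `σ : ρ → Bool` let `s^σ` be obtained by exchanging `s.1 i`
and `s.2 i` for the `i` with `σ i = true`; `s ↦ s^σ` is a bijection (an involution).  So
`2^|ρ| #E = ∑_σ ∑_s [E(s^σ)] = ∑_s #{σ | E(s^σ)}`.  Fix `s`.  Traces: `B_A = {(i, c) | s.c i ∈ A}`, a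
subset of `ρ × Bool` (`2 |ρ|` elements); there are at most `Φ = ∑_{k<d} C(2|ρ|, k)` different ones
(`Finset.card_le_card_shatterer` for the family of the `B_A`; a shattered set with `d` elements gives a
set of `d` elements of `Fin T` shattered by `F`, as the values `s.c i` are distinct on it).  For a fixed
trace `B`: the number of `σ` such that in `s^σ` the first half misses `A` and the second half has at least
`h` hits is at most `2^(|ρ| - h)`: for every `i` at most one of `(i, 1)`, `(i, 2)` is in `B` (otherwise the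
first half hits), so at least `h` indices `i` have exactly one, and for these `σ i` is forced; so
`2^h #{σ} ≤ 2^|ρ|`.  Altogether `2^h 2^|ρ| #E ≤ Φ 2^|ρ| T^(2|ρ|)`. -/
def S_P6b : Prop := ∀ (d h T : ℕ) (ρ : Type) [Fintype ρ] (F : Finset (Finset (Fin T))),
  (∀ U : Finset (Fin T), U.card = d → ¬ F.Shatters U) →
    2 ^ h * (Finset.univ.filter fun s : (ρ → Fin T) × (ρ → Fin T) => ∃ A ∈ F,
      (∀ i, s.1 i ∉ A) ∧ h ≤ (Finset.univ.filter fun i => s.2 i ∈ A).card).card ≤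
      (∑ k ∈ Finset.range d, (2 * Fintype.card ρ).choose k) * T ^ (2 * Fintype.card ρ)

/-- **P6c.** Numbers for the epsilon-net theorem.

Proof. `(g-1)^b / g^b ≤ 1/2` for `b = g` (Bernoulli: `(1 + 1/(g-1))^g ≥ 1 + g/(g-1) ≥ 2` for `g ≥ 2`;
for `g = 1` the left side is `0` as `b ≥ 1`), so for `b = g c` with `2 h ≤ 2^c`, for instance `c = 2 h`:
`2 h (g-1)^b ≤ g^b`.  With `b = 2 g h` (and `h ≥ 1`): `2 h b = 4 g h²`, and
`∑_{k<d} C(4 g h², k) ≤ d (4 g h²)^d + 1`, a polynomial in `h`, so `2 (∑ ...) < 2^h` for `h` large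
(for instance with `tendsto_pow_const_div_const_pow_of_one_lt` or an explicit estimate). -/
def S_P6c : Prop := ∀ d g : ℕ, 1 ≤ g → ∃ h b : ℕ, 1 ≤ h ∧ 1 ≤ b ∧ 2 * h * (g - 1) ^ b ≤ g ^ b ∧
  2 * ∑ k ∈ Finset.range d, (2 * (h * b)).choose k < 2 ^ h

/-- **P6.** The epsilon-net theorem.  (Uses `S_P6a`, `S_P6b`, `S_P6c`.)

Proof. `g' = max g 1`; `h, b` from P6c; `f = h b`; `ρ = Fin h × Fin b`.  Suppose that no set with at most
`f` elements meets all `A ∈ F`.  Then for every `s₁ : ρ → Fin T` there is `A ∈ F` which contains no value of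
`s₁` (`Y` = the image of `s₁`), and by P6a at least half of the `s₂ : ρ → Fin T` have at least `h` indices
with `s₂ i ∈ A`.  So `T^(2hb) ≤ 2 #E` with `E` as in P6b, and `2^h T^(2hb) ≤ 2 Φ T^(2hb)`, contradiction
to P6c since `T > 0`. -/
def S_P6 : Prop := ∀ d g : ℕ, ∃ f : ℕ, ∀ (T : ℕ) (F : Finset (Finset (Fin T))), 0 < T →
  (∀ U : Finset (Fin T), U.card = d → ¬ F.Shatters U) → (∀ A ∈ F, T ≤ g * A.card) →
    ∃ Y : Finset (Fin T), Y.card ≤ f ∧ ∀ A ∈ F, ∃ t ∈ A, t ∈ Y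

/-- **P7.** The (p,q)-theorem.  (Uses `S_P4`, `S_P5`, `S_P6`.)

Proof. `b` from P4, `f` from P6 for `d` and `g = 2 b`.  P4 and P5 give `T`, `y`.  `F` = the set of the
`A_v = {t | R (y t) v}`, `v ∈ VV`.  `T ≤ 2 b |A_v|`.  `F` shatters no `U` with `d` elements: `y` is injective
on `U` (the subset `{t}` of `U` is a trace) and the image `y(U)` would be shattered: for `S ⊆ y(U)` there is
`v` with `{t ∈ U | R (y t) v} = {t ∈ U | y t ∈ S}`; put `x = v` and use the symmetry of `R`.  P6 gives `Y`,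
`X = Y.image y`. -/
def S_P7 : Prop := ∀ d p : ℕ, d ≤ p → ∃ f : ℕ, ∀ (V : Type) [Nonempty V] (R : V → V → Prop)
  (VV : Finset V), (∀ x y, R x y → R y x) → (∀ U : Finset V, U.card = d → ¬ Shat R U) →
    (∀ s : Fin p → V, (∀ i, s i ∈ VV) → ∃ I : Finset (Fin p), I.card = d ∧ ∃ x, ∀ i ∈ I, R x (s i)) →
    ∃ X : Finset V, X.card ≤ f ∧ ∀ v ∈ VV, ∃ x ∈ X, R x v

end Pool.Agent.MPd439b2.KS
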