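import Pool.Agent.Lib.MP_d439b2_co.B.SpecQ
import Pool.Agent.Lib.MP_d439b2_co.B.SpecC

/-!
# MP_d439b2_co, Theorem K, Spec U: Theorem Q without the second excluded graph

Every `S_...` is a statement to be proved in its own file; the docstring contains the complete
proof.  `tau G I B D` = the indices `i ∈ I` such that `D` touches `B i`.  For vertices `v c` write
`a(D) = tau G P (fun c => {v c}) D`.
-/

set_option autoImplicit false

namespace Pool.Agent.MPd439b2.KS

/-- Two chains: the complete graph on `Fin N`, independent vertices `y_a`, `z_a` (`a : Fin m`),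
`N(y_a) = {j | a < r j}`, `N(z_a) = {j | a < l j}`. -/
def TCg (N m : ℕ) (r l : Fin N → ℕ) : SimpleGraph (Fin N ⊕ (Fin m ⊕ Fin m)) where
  Adj
    | Sum.inl i, Sum.inl j => i ≠ j
    | Sum.inl i, Sum.inr (Sum.inl a) => a.val < r i
    | Sum.inr (Sum.inl a), Sum.inl i => a.val < r i
    | Sum.inl i, Sum.inr (Sum.inr a) => a.val < l i
    | Sum.inr (Sum.inr a), Sum.inl i => a.val < l i
    | Sum.inr _, Sum.inr _ => False
  symm := ⟨fun u v h => by
    rcases u with u | u | u <;> rcases v with v | v | v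
    all_goals first
      | exact Ne.symm h
      | exact h⟩
  loopless := ⟨fun u h => by
    rcases u with u | u | u
    · exact h rfl
    · exact h
    · exact h⟩

/-- **U0.** Breadth first search tree.

Proof. `d x` = the smallest `l` such that there is a walk `p 0 = r, ..., p l = x` in `D`
(`p i ∈ D`, `G.Adj (p i) (p (i+1))`); it exists for all `x ∈ D` (the set of the reachable vertices is closed
in `D`: `Conn.eq_of_nb`).  For `x ≠ r` let `π x = p (l - 1)` for a shortest walk: `d (π x) ≤ l - 1`, and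
`d x ≤ d (π x) + 1` by prolongation.  The last statement: prolong a walk to `y` by `x`. -/
def S_U0 : Prop := ∀ (V : Type) [Finite V] (G : SimpleGraph V) (D : Set V) (r : V), Conn G D →
  r ∈ D → ∃ (d : V → ℕ) (π : V → V), d r = 0 ∧
    (∀ x ∈ D, x ≠ r → π x ∈ D ∧ G.Adj (π x) x ∧ d x = d (π x) + 1) ∧
    ∀ x ∈ D, ∀ y ∈ D, G.Adj x y → d x ≤ d y + 1

/-- **U1.** A connected set which touches all the sets `B i`, but whose vertices touch few of them.

Proof. Call `x ∈ D` central if every connected `W ⊆ D \ {x}` has `|tau W| < C` (equivalently, every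
component of `D \ {x}`).  Two different central vertices `x, x'` are impossible: let `K` be the component of
`D \ {x}` which contains `x'` (`exists_comp`).  `D \ K` is connected: it contains `x`, and every component
of `D \ {x}` other than `K` touches `x` (as `D` is connected); as in the proof of `S_Q1a` (closed sets).
`x' ∉ D \ K`, so `|tau (D \ K)| < C` and `|tau K| < C`, but `tau K ∪ tau (D \ K) = I` has at least `2 C`
elements.  If there is a central vertex `z` let `Z = tau {z}`, otherwise `Z = ∅`.  For `j ∈ I \ Z` take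
`x ∈ D` adjacent to a vertex of `B j`; `x` is not central: there is a connected `W₀ ⊆ D \ {x}` with
`|tau W₀| ≥ C`; take for `W` the component of `D \ {x}` containing a vertex of `W₀` (it contains `W₀`, so
`|tau W| ≥ C`); it touches `x` because `D` is connected. -/
def S_U1 : Prop := ∀ (V : Type) [Finite V] (G : SimpleGraph V) (I : Finset ℕ) (B : ℕ → Set V)
  (D : Set V) (d C : ℕ), Conn G D → (∀ i ∈ I, Tch G D (B i)) →
    (∀ x ∈ D, (tau G I B {x}).card ≤ d) → 2 * C ≤ I.card →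
    ∃ Z ⊆ I, Z.card ≤ d ∧ ∀ j ∈ I, j ∉ Z → ∃ x ∈ D, Tch G {x} (B j) ∧
      ∃ W ⊆ D, Conn G W ∧ x ∉ W ∧ Tch G {x} W ∧ C ≤ (tau G I B W).card

/-- `M` pairwise non-touching connected subsets of `D`, each touching all the `v c`, `c ∈ P` -/
def Spl {V : Type} (G : SimpleGraph V) (D : Set V) (v : ℕ → V) (P : Finset ℕ) (M : ℕ) : Prop :=
  ∃ I : ℕ → Set V, (∀ i < M, I i ⊆ D ∧ Conn G (I i) ∧ ∀ c ∈ P, Tch G (I i) {v c}) ∧
    ∀ i < M, ∀ j < M, i ≠ j → Disjoint (I i) (I j) ∧ ¬ Tch G (I i) (I j)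

/-- a star in `D`: centre `W`, leaves `x c`, each `v c` is adjacent only to its own leaf -/
def Star {V : Type} (G : SimpleGraph V) (D : Set V) (v : ℕ → V) (P : Finset ℕ) : Prop :=
  ∃ (x : ℕ → V) (W : Set V), W ⊆ D ∧ Conn G W ∧
    (∀ c ∈ P, x c ∈ D ∧ x c ∉ W ∧ Tch G W {x c} ∧ G.Adj (v c) (x c) ∧ ¬ Tch G W {v c}) ∧
    ∀ c ∈ P, ∀ c' ∈ P, c ≠ c' → x c ≠ x c' ∧ ¬ G.Adj (v c) (x c')

/-- `p 0, ..., p (l-1)` is an induced path in `D` -/
def IndP {V : Type} (G : SimpleGraph V) (D : Set V) (l : ℕ) (p : ℕ → V) : Prop :=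
  (∀ i < l, p i ∈ D) ∧ (∀ i < l, ∀ j < l, p i = p j → i = j) ∧
    ∀ i < l, ∀ j < l, (G.Adj (p i) (p j) ↔ i = j + 1 ∨ j = i + 1)

/-- an induced path in `D` such that the `v c` touch it in pairwise disjoint intervals -/
def PthT {V : Type} (G : SimpleGraph V) (D : Set V) (v : ℕ → V) (P : Finset ℕ) : Prop :=
  ∃ (l : ℕ) (p : ℕ → V) (lo hi : ℕ → ℕ), IndP G D l p ∧
    (∀ c ∈ P, lo c ≤ hi c ∧ hi c < l ∧ (∃ i, lo c ≤ i ∧ i ≤ hi c ∧ G.Adj (v c) (p i)) ∧
      ∀ i < l, G.Adj (v c) (p i) → lo c ≤ i ∧ i ≤ hi c) ∧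
    ∀ c ∈ P, ∀ c' ∈ P, c ≠ c' → hi c < lo c' ∨ hi c' < lo c

/-- **U2a.** A star or a path with many contacts.  (Uses `S_U0`.)

Proof. `p = q (p' + n + 1) + n + 2` (anything larger is fine).  Let `D₀ ⊆ D` be connected with
`|a(D₀)| ≥ p` and `|D₀|` minimal (`|a(D)| = |P| ≥ p`).  `D₀` is not a singleton (`|a| ≤ n`).  If `x ∈ D₀` and
`D₀ \ {x}` is connected then `|a(D₀ \ {x})| < p ≤ |a(D₀)|`, so there is a PRIVATE `c(x) ∈ P`: `x` is the only
vertex of `D₀` adjacent to `v (c(x))`.  Let `r ∈ D₀`, `d, π` from U0 for `D₀`.  Leaves = the `x ∈ D₀`,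
`x ≠ r`, which are not of the form `π y` with `y ∈ D₀`, `y ≠ r`.  For every set `L` of leaves `D₀ \ L` is
connected: the iterated parents of any vertex of `D₀ \ L` are parents, hence not leaves, and lead to `r`
(induction on `d x`); so a nonempty closed subset of `D₀ \ L` contains `r`, and all of `D₀ \ L`.
CASE 1: there are `q` leaves; let `L` be a set of `q` leaves, `P' = {c(x) | x ∈ L}` (`c` is injective on `L`),
`W = D₀ \ L`, `x c` = the leaf with `c(x) = c`.  `Tch G W {x}`: `π x ∈ W` (a parent is not a leaf, and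
`π x ∈ D₀`).  `v c` is adjacent to no vertex of `D₀` except its leaf: `Star G D v P'`.
CASE 2: there are fewer than `q` leaves.  Every vertex of `D₀` is an iterated parent of a leaf, or of a
vertex of maximal `d` below it: starting from `x` go to a child (`y` with `π y = x`) as long as possible
(`d` grows); the end is a leaf (or `r` itself if `D₀ = {r}`, excluded).  So `D₀` is covered by the fewer
than `q` root paths `x, π x, π (π x), ..., r` of the leaves and one of them, `S`, has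
`|a(S)| ≥ p / q ≥ p'`.  The function `i ↦ π^[i] x`, `i ≤ d x`, is an induced path: `d (π^[i] x) = d x - i`, so
the vertices are distinct and, by the last statement of U0, only consecutive ones are adjacent. -/
def S_U2a : Prop := ∀ n q p' : ℕ, ∃ p : ℕ, ∀ (V : Type) [Finite V] (G : SimpleGraph V) (D : Set V)
  (v : ℕ → V) (P : Finset ℕ), Conn G D → (∀ c ∈ P, Tch G D {v c}) →
    (∀ x ∈ D, (tau G P (fun c => {v c}) {x}).card ≤ n) → p ≤ P.card →
    (∃ P' ⊆ P, P'.card = q ∧ Star G D v P') ∨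
    ∃ (l : ℕ) (s : ℕ → V), IndP G D l s ∧ p' ≤ (tau G P (fun c => {v c}) (seg s 0 l)).card

/-- **U2b.** Contact intervals on a path.

Proof. Induction on `M` (`M = 0`: `Spl` with no sets, `p = q`; `M = 1`: `I 0` = the path, `P'` any `q`-subset,
`p = max q 1` so that the path is not empty).  For `M + 1`: let `p₀` be the number for `M` and
`p = q (p₀ + n + q + 1)`.  For `c ∈ P` let `I_c = [lo c, hi c]` be the interval between the first and the last
`i < l` with `v c ~ s i`.  Greedy by right end points: either there are `q` elements of `P` with pairwise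
disjoint intervals (`PthT`), or fewer than `q` points (the right ends of a maximal greedy family) meet all
the intervals, so at least `p / q ≥ p₀ + n` of the intervals contain a common position `j`; at most `n` of
these `c` have `v c ~ s j`; the others, `P₁`, `|P₁| ≥ p₀`, have a contact before `j` and a contact after `j`.
Apply the induction hypothesis to `D' = {s i | j < i < l}`, the path `s (j+1), ..., s (l-1)` and `P₁`: `PthT`
for `D'` (then also for `D`: the same path) or `Spl` with `M` subsets of `D'`; add the set `{s i | i < j}`, which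
is connected, does not touch `{s i | j < i}`, and touches all `v c`, `c ∈ P₁`. -/
def S_U2b : Prop := ∀ n M q : ℕ, ∃ p : ℕ, ∀ (V : Type) [Finite V] (G : SimpleGraph V) (D : Set V)
  (v : ℕ → V) (P : Finset ℕ) (l : ℕ) (s : ℕ → V), IndP G D l s →
    (∀ c ∈ P, Tch G (seg s 0 l) {v c}) →
    (∀ x ∈ D, (tau G P (fun c => {v c}) {x}).card ≤ n) → p ≤ P.card →
    ∃ P' ⊆ P, P'.card = q ∧ (Spl G D v P' M ∨ PthT G D v P')

/-- **U2.** The structure of a connected set touching many vertices.  (Uses `S_U2a`, `S_U2b`.)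

Proof. U2b for `n, M, q` gives `p'`, U2a for `n, q, p'` gives `p`.  In the second case of U2a apply U2b to
the set `a(seg s 0 l)` instead of `P`. -/
def S_U2 : Prop := ∀ n M q : ℕ, ∃ p : ℕ, ∀ (V : Type) [Finite V] (G : SimpleGraph V) (D : Set V)
  (v : ℕ → V) (P : Finset ℕ), Conn G D → (∀ c ∈ P, Tch G D {v c}) →
    (∀ x ∈ D, (tau G P (fun c => {v c}) {x}).card ≤ n) → p ≤ P.card →
    ∃ P' ⊆ P, P'.card = q ∧ (Spl G D v P' M ∨ Star G D v P' ∨ PthT G D v P')

/-- distinct, pairwise non-adjacent vertices `v c`, `c ∈ P` -/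
def IndV {V : Type} (G : SimpleGraph V) (v : ℕ → V) (P : Finset ℕ) : Prop :=
  (∀ c ∈ P, ∀ c' ∈ P, v c = v c' → c = c') ∧ ∀ c ∈ P, ∀ c' ∈ P, ¬ G.Adj (v c) (v c')

/-- **U3.** `DD N m` from many non-touching sets.  (Uses `S_U1`, `S_Dig`, `S_DDd`.)

Proof. Let `I 0, ..., I (3 m + N - 1)` be the sets of `Spl`.  `C = m n + 3 m + N + 1`,
`p = 2 C + (2 (m n) + 1) m + m n` (anything larger is fine).  For `k < m` apply U1 to `D = I k`, the family
`B c = {v c}`, the index set `P`, `d = n`: `Z_k`, and for `c ∈ P \ Z_k` a vertex `x_(k,c) ∈ I k` adjacent to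
`v c` and `W_(k,c)`.  Let `P₁ = P \ ⋃_k Z_k` (`|P₁| ≥ |P| - m n`).  `S_Dig` on `P₁` for
`E c c' := ∃ k < m, v c' ~ x_(k,c)` (out-degree at most `m n`): distinct `c_0, ..., c_{m-1} ∈ P₁` with
`v c_l` not adjacent to `x_(k,c_j)` for `l ≠ j`.  Put `x_k = x_(k,c_k)`, `W_k = W_(k,c_k)`.  Choose distinct
`d_k ∈ a(W_k)` (`k < m`) outside `{c_l}` and outside all `a(x_l)`, `l < m` (at most `m + m n + m`
forbidden elements), and `N` further distinct elements `e_i ∈ P` outside `{c_l}`, `{d_l}`, all `a(x_l)`.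
Model on `range (N + 2 m)`: `2 k ↦ W_k ∪ {v d_k} ∪ I (m + k)`, `2 k + 1 ↦ {v c_k} ∪ I (2 m + k)` for `k < m`,
`2 m + i ↦ {v e_i} ∪ I (3 m + i)` for `i < N`.  Connected: `W_k` touches `v d_k`, and `I j` touches all
`v c`.  Disjoint: the `I`'s are disjoint, the `v`'s distinct and not in `D`; `W_k ⊆ I k`.  Any two touch: the
`v` of one touches the `I` of the other.  `Y k = {x_k}`: disjoint from all of them (`x_k ∈ I k`,
`x_k ∉ W_k`); it touches `2 k` (through `W_k`), `2 k + 1` (`x_k ~ v c_k`); nothing else: `I j`, `j ≠ k`, does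
not touch `I k`; `W_l ⊆ I l`; `d_l, c_l, e_i` are not in `a(x_k)`.  `Y k`, `Y l` do not touch.
`S_DDd` with `u k = 2 k`, `w k = 2 k + 1`. -/
def S_U3 : Prop := ∀ N m n : ℕ, ∃ p : ℕ, ∀ (V : Type) [Finite V] (G : SimpleGraph V) (D : Set V)
  (v : ℕ → V) (P : Finset ℕ), IndV G v P → (∀ c ∈ P, v c ∉ D) →
    (∀ x ∈ D, (tau G P (fun c => {v c}) {x}).card ≤ n) → p ≤ P.card →
    Spl G D v P (3 * m + N) → IMS (DD N m) G Set.univ

/-- **U4.** `DD N m` from `N + 2 m` stars.  (Uses `S_DDd`.)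

Proof. Let `x j c`, `W j` be the data of the star in `D j`.  Choose distinct `d_j` (`j < N + 2 m`) and
`c_k` (`k < m`) in `P`.  `O_j = W j ∪ {v d_j} ∪ {x i d_j | i < N + 2 m}`: connected (`x j d_j` touches `W j` and
`v d_j`, and `v d_j` is adjacent to all `x i d_j`).  `O_j`, `O_i` touch: `x i d_j ∈ O_j` touches `W i ⊆ O_i`.
Disjoint: `W j ⊆ D j`, `x i d ∈ D i \ W i`, and `x i d_j ≠ x i d_l` for `j ≠ l`.  Model on `range (N + 2 m)`:
`2 k ↦ O_(2k) ∪ {x (2k) c_k}`, `2 k + 1 ↦ O_(2k+1) ∪ {x (2k+1) c_k}` for `k < m`, `j ↦ O_j` for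
`2 m ≤ j`.  `Y k = {v c_k}`: touches `x (2k) c_k`, `x (2k+1) c_k`; nothing else: `v c_k` does not touch `W j`,
is adjacent to no `x i d` with `d ≠ c_k`, and to no other `v c`. -/
def S_U4 : Prop := ∀ (N m : ℕ) (V : Type) (G : SimpleGraph V) (D : ℕ → Set V) (v : ℕ → V)
  (P : Finset ℕ), IndV G v P → (∀ j < N + 2 * m, ∀ c ∈ P, v c ∉ D j) →
    (∀ i < N + 2 * m, ∀ j < N + 2 * m, i ≠ j → Disjoint (D i) (D j)) → N + 3 * m ≤ P.card →
    (∀ j < N + 2 * m, Star G (D j) v P) → IMS (DD N m) G Set.univ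

/-- **U5.** All graphs of two chains from `N` paths.  (Uses `S_Ram`.)

Proof. Let `p_j, lo_j, hi_j, l_j` be the data of row `j < N`.  By Ramsey (`S_Ram`, relation `the rows 0 and j
order c, c' in the same way`), applied for `j = 1, ..., N - 1` one after the other, there is `P' ⊆ P`,
`|P'| ≥ N + 2 m`, such that every row orders `P'` as row `0` or in the reversed way.  Reverse these rows
(`p'_j i = p_j (l_j - 1 - i)`, `lo' c = l_j - 1 - hi c`, `hi' c = l_j - 1 - lo c`).  So let all rows order `P'`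
in the same way: `c_0, c_1, ..., c_(q-1)`, `q = N + 2 m` (`hi_j c_i < lo_j c_(i+1)`).  For `i < N` let
`d_i = c_(m + i)` (the middle columns).  Row `j : Fin N`: `R_j` = the vertices `p_j i` with
`lo_j c_(m - min m (l j)) ≤ i ≤ hi_j c_(m + N - 1 + min m (r j))` (a subpath, connected, contains the contacts
of exactly the columns `c_i` with `m - min m (l j) ≤ i ≤ m + N - 1 + min m (r j)`), `O_j = R_j ∪ {v d_j}`:
connected, pairwise disjoint (the rows are disjoint, the `v`'s distinct and outside the rows), pairwise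
touching (`v d_j` touches `R_i` for all `i`).  `y_a = {v c_(m + N + a)}`, `z_a = {v c_(m - 1 - a)}` for `a < m`:
`y_a` touches `R_j` iff `m + N + a ≤ m + N - 1 + min m (r j)` iff `a < r j` (as `a < m`); `z_a` touches
`R_j` iff `m - min m (l j) ≤ m - 1 - a` iff `a < l j`; they are independent and not adjacent to the
`v d_j`.  (For `N = 0` the graph has `2 m` isolated vertices: the `v c`.) -/
def S_U5 : Prop := ∀ (N m : ℕ) (r l : Fin N → ℕ), ∃ p : ℕ, ∀ (V : Type) [Finite V]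
  (G : SimpleGraph V) (D : ℕ → Set V) (v : ℕ → V) (P : Finset ℕ), IndV G v P →
    (∀ j < N, ∀ c ∈ P, v c ∉ D j) → (∀ i < N, ∀ j < N, i ≠ j → Disjoint (D i) (D j)) →
    p ≤ P.card → (∀ j < N, PthT G (D j) v P) → IMS (TCg N m r l) G Set.univ

/-- **U6.** Rows touching many independent vertices.  (Uses `S_U2`, `S_U3`, `S_U4`, `S_U5`.)

Proof. `a = (N + 2 m) + N + 1`.  Let `q` be the maximum of the numbers `p` of U3 (for `n`), U5 and
`N + 3 m`; define `q_a = q` and `q_(j)` = the number `p` of U2 for `n`, `M = 3 m + N` and target `q_(j+1)`;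
`p = q_0`.  Suppose that all `x ∈ D j`, `j < a`, have `|a(x)| ≤ n`.  Apply U2 to the rows `0, 1, ..., a - 1` one
after the other: `P = P_0 ⊇ P_1 ⊇ ... ⊇ P_a`, `|P_j| = q_j`, row `j` is of type `Spl`, `Star` or `PthT` for
`P_(j+1)`, hence also for the subset `P_a` (all three properties are inherited by subsets of `P`; `tau` for a
subset is smaller).  A row of type `Spl`: U3.  Otherwise at least `N + 2 m` rows of type `Star` (re-index them
by `range (N + 2 m)`): U4; or at least `N` rows of type `PthT`: U5. -/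
def S_U6 : Prop := ∀ (N m n : ℕ) (r l : Fin N → ℕ), ∃ a p : ℕ, ∀ (V : Type) [Finite V]
  (G : SimpleGraph V) (D : ℕ → Set V) (v : ℕ → V) (P : Finset ℕ),
    ¬ IMS (DD N m) G Set.univ → ¬ IMS (TCg N m r l) G Set.univ → IndV G v P →
    (∀ j < a, Conn G (D j) ∧ ∀ c ∈ P, v c ∉ D j ∧ Tch G (D j) {v c}) →
    (∀ i < a, ∀ j < a, i ≠ j → Disjoint (D i) (D j)) → p ≤ P.card →
    ∃ j < a, ∃ x ∈ D j, n < (tau G P (fun c => {v c}) {x}).card

/-- **U7.** All but few sets of a large model contain a vertex touching many others.  (Uses `S_U1`,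
`S_DDd`, `S_Dig`.)

Proof. `n₁ = (2 δ + 1) m + 1`, `C = n₁ + m δ + 3 m + N + 1`.  Suppose there are `n₁` bad indices `i`
(all `x ∈ B i` have `|tau {x}| ≤ δ` in `I \ {i}`); `Bad` = a set of exactly `n₁` of them.  For `i ∈ Bad` apply
U1 to `D = B i` and the index set `I \ {i}` (`2 C ≤ |I| - 1`): `Z_i`, and for `j ∈ I`, `j ≠ i`, `j ∉ Z_i`
a vertex `x_i(j) ∈ B i` touching `B j` and `W_i(j) ⊆ B i`, connected, `x_i(j) ∉ W_i(j)`, touching `x_i(j)`, with
`|tau (W_i(j))| ≥ C`.  `R` = the `j ∈ I \ Bad` in no `Z_i`: `|R| ≥ |I| - n₁ - n₁ δ`.  The record of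
`j ∈ R`: the function `i ↦ tau {x_i(j)} ∩ Bad` (at most `2 ^ (n₁ ^ 2)` records); for `|I|` large
`R' ⊆ R` with `|R'| ≥ (2 m δ + 1) m` has a common record `i ↦ R_i`, `|R_i| ≤ δ`.  `S_Dig` on `Bad` with
`E i i' := i' ∈ R_i`: distinct `i_0, ..., i_{m-1} ∈ Bad`, `i_l ∉ R_{i_k}` for `k ≠ l` (and `i_k` is not in
`tau {x_{i_k}}`, taken in `I \ {i_k}`).  `S_Dig` on `R'` with `E j j' := ∃ k, j' ∈ tau {x_{i_k}(j)}`
(out-degree at most `m δ`): distinct `j_0, ..., j_{m-1} ∈ R'` with `j_l ∉ tau {x_{i_k}(j_k)}` for `k ≠ l`.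
Put `x_k = x_{i_k}(j_k)`, `W_k = W_{i_k}(j_k)`.  Choose distinct `g_k ∈ tau (W_k)` (`k < m`) and `e_0, ..,
e_(N-1)` in `I`, all outside `Bad`, the `j`'s, and all `tau {x_l}`.  Model on `range (N + 2 m)`:
`2 k ↦ W_k ∪ B g_k`, `2 k + 1 ↦ B j_k`, `2 m + i ↦ B e_i`.  Connected, disjoint (`W_k ⊆ B i_k`), pairwise
touching (they contain different full sets `B`).  `Y k = {x_k}` touches `W_k`, `B j_k`, and nothing else:
`W_l ⊆ B i_l` and `i_l ∉ tau {x_k}`; `g_l, e_i, j_l ∉ tau {x_k}`; `Y l ⊆ B i_l`.  `S_DDd`. -/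
def S_U7 : Prop := ∀ N m δ : ℕ, ∃ n₁ t₀ : ℕ, ∀ (V : Type) [Finite V] (G : SimpleGraph V)
  (I : Finset ℕ) (B : ℕ → Set V), ¬ IMS (DD N m) G Set.univ → Mdl G I B → t₀ ≤ I.card →
    ∃ Bad : Finset ℕ, Bad.card < n₁ ∧
      ∀ i ∈ I, i ∉ Bad → ∃ v ∈ B i, δ < (tau G (I \ {i}) B {v}).card

/-- **U8.** Many vertices touching many common sets of the model.  (Uses `S_U7`, `S_Ram`.)

Proof. First: for all `g`, `L` there is `t₀` such that there are `v`, `T`, `J` as in the statement with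
`|T| = g` and no condition on the adjacencies of the `v i`.  Induction on `g`; `g = 0`: `T = ∅`, `J = I`.  For
`g + 1` let `n₁, t₁` be the numbers of U7 for `δ = L`, and use the induction hypothesis for
`g, L' = max t₁ n₁ + 1`: `T, J`; U7 for the model `(B j)`, `j ∈ J`, gives `i ∈ J` and `w ∈ B i` with
`J' = tau G (J \ {i}) B {w}`, `|J'| > L`.  Take `T ∪ {i}`, `J'`, `v` updated at `i` (`i ∉ T`).
Then Ramsey: `g` = the Ramsey number of `S_Ram` for `n, p` and the relation `G.Adj (v i) (v j)` on `T`. -/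
def S_U8 : Prop := ∀ N m n p L : ℕ, ∃ t₀ : ℕ, ∀ (V : Type) [Finite V] [Nonempty V]
  (G : SimpleGraph V) (I : Finset ℕ) (B : ℕ → Set V), ¬ IMS (DD N m) G Set.univ → Mdl G I B →
    t₀ ≤ I.card → ∃ (v : ℕ → V) (T J : Finset ℕ), T ⊆ I ∧ J ⊆ I ∧ Disjoint T J ∧ L ≤ J.card ∧
      (∀ i ∈ T, v i ∈ B i ∧ ∀ j ∈ J, Tch G {v i} (B j)) ∧
      ((T.card = n ∧ ∀ i ∈ T, ∀ j ∈ T, i ≠ j → G.Adj (v i) (v j)) ∨
        (T.card = p ∧ ∀ i ∈ T, ∀ j ∈ T, i ≠ j → ¬ G.Adj (v i) (v j)))

/-- **U9.** Theorem Q without the second excluded graph.  (Uses `S_U6`, `S_U8`.)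

Proof. `a, p` from U6 for `n` (`p ≥ 1` may be assumed by enlarging it), `L = a + 2 ^ p n + n + 1`, `t₀` from
U8 for `2 n`, `p`, `L` and `t₀ ≥ 1`.  `I = range t`.
(1) `|T| = 2 n`, pairwise adjacent: split `T = T₁ ∪ T₂`, `|T_i| = n`, `Q_i = {v j | j ∈ T_i}` (the `v j` are
distinct, `v j ∈ B j`); every `v j` touches all `B i`, `i ∈ J`, `|J| ≥ n`.
(2) `|T| = p`, pairwise non-adjacent.  For every set of `a` indices in `J`, U6 for these rows `B j`
(re-indexed by `range a`; `v c ∉ B j` since `v c ∈ B c`, `c ∉ J`) gives `j` and `x_j ∈ B j` with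
`|a(x_j)| > n`.  So all but fewer than `a` indices of `J` have such an `x_j`; these are more than `2 ^ p n`
indices, and by the pigeonhole principle `n` of the `x_j` have the same trace `A = a(x_j) ⊆ T`.
`Q₁ = {v c | c ∈ A}` (more than `n` elements), `Q₂ = {x_j}` (`n` elements). -/
def S_U9 : Prop := ∀ (N m n : ℕ) (r l : Fin N → ℕ), ∃ t₀ : ℕ, ∀ t : ℕ, t₀ ≤ t →
  ∀ (V : Type) [Finite V] (G : SimpleGraph V) (B : ℕ → Set V), ¬ IMS (DD N m) G Set.univ →
    ¬ IMS (TCg N m r l) G Set.univ → Mdl G (Finset.range t) B →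
    ∃ Q₁ Q₂ : Set V, Disjoint Q₁ Q₂ ∧ n ≤ Q₁.ncard ∧ n ≤ Q₂.ncard ∧
      (∀ a ∈ Q₁, ∀ b ∈ Q₂, G.Adj a b) ∧ ∀ a ∈ Q₁, n ≤ (tau G (Finset.range t) B {a}).card

end Pool.Agent.MPd439b2.KS
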