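import Pool.Agent.Lib.MP_d439b2_co.KS.SpecU
import Pool.Agent.Lib.MP_d439b2_co.KS.SpecP

/-!
# MP_d439b2_co, Theorem K, Spec V: heavy vertices, light sets, domination

Every `S_...` is a statement to be proved in its own file; the docstring contains the complete
proof.  `Q = Q₁ ∪ Q₂` with `Bip G Q₁ Q₂ n`.
-/

set_option autoImplicit false

namespace Pool.Agent.MPd439b2.KS

/-- `X` is `c`-heavy: fewer than `c` vertices outside `X` do not separate it from `Q` -/
def Hv {V : Type} (G : SimpleGraph V) (Q : Set V) (c : ℕ) (X : Set V) : Prop :=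
  ∀ F : Set V, F.ncard < c → Disjoint F X →
    ∃ C, Conn G C ∧ Disjoint C F ∧ (C ∩ X).Nonempty ∧ (C ∩ Q).Nonempty

/-- **V1.** Light sets are cut off by few vertices.

Proof. By definition there is `F`, `|F| < c`, disjoint from `X`, such that no connected set avoids `F` and
meets `X` and `Q`.  `P` = the union of all connected sets disjoint from `F` which meet `X`.  `X ⊆ P`
(`{x}`), `P ∩ Q = ∅`, and a neighbour of `P` outside `P` is in `F` (otherwise insert it). -/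
def S_V1 : Prop := ∀ (V : Type) (G : SimpleGraph V) (Q X : Set V) (c : ℕ), ¬ Hv G Q c X →
  ∃ F P : Set V, F.ncard < c ∧ Disjoint F P ∧ X ⊆ P ∧ Disjoint P Q ∧ nb G P ⊆ F

/-- **V2.** Menger's theorem with sources `N i` (`i < r`) and a forbidden set `Z`.

Proof. Apply Menger's theorem (`GT.pMen : SMen` in `GT/Men.lean`, or `linked_of_sep` in
`Pool/Agent/Lib/MP_b6048d_co/Sep.lean`, compare `B/RC.lean`) to the graph `G'` on `V ⊕ Fin r` where `inr i` is
adjacent to the `inl v`, `v ∈ N i \ Z`, and `inl u ~ inl v` iff `u ~ v`, `u, v ∉ Z`; from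
`A = {inr i}` to `B = {inl q | q ∈ Q \ Z}`.  A separation of order less than `r`: let `X` be its vertices in
`V` and `J` its indices; `|X| + |J| < r`; the hypothesis gives `i ∉ J` and a connected set `C` which joins
`inr i` to `B` without meeting the separator: contradiction.  The `r` disjoint paths start in
the `r` different `inr i`; cut the path starting in `inr i` at its first vertex in `Q`; `L i` = the set of its
vertices in `V` (its second vertex is in `N i`). -/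
def S_V2 : Prop := ∀ (V : Type) [Finite V] (G : SimpleGraph V) (Q Z : Set V) (r : ℕ)
  (N : ℕ → Set V), (∀ (X : Set V) (J : Finset ℕ), X.ncard + J.card < r → ∃ i < r, i ∉ J ∧
    ∃ C, Conn G C ∧ Disjoint C (X ∪ Z) ∧ (C ∩ N i).Nonempty ∧ (C ∩ Q).Nonempty) →
    ∃ L : ℕ → Set V, (∀ i < r, Conn G (L i) ∧ Disjoint (L i) Z ∧ (L i ∩ N i).Nonempty ∧
      ∃ y, L i ∩ Q = {y}) ∧ ∀ i < r, ∀ j < r, i ≠ j → Disjoint (L i) (L j)

/-- **V3.** The same with pairwise touching sets.  (Uses `S_V2`.)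

Proof. `L i ∩ (Q₁ ∪ Q₂) = {y i}`.  Choose distinct fresh `a i ∈ Q₁`, `b i ∈ Q₂` (`i < r + M`) outside `Z` and
different from all `y j` (as in `B/RC.lean`: at least `n - |Z ∩ Q| - r ≥ r + M` candidates on each side).
`X i = L i ∪ {b i}` if `y i ∈ Q₁`, `L i ∪ {a i}` if `y i ∈ Q₂` (`i < r`), `X i = {a i, b i}` for
`r ≤ i < r + M`: connected, disjoint, each contains elements of `Q₁` and of `Q₂`, so they touch pairwise. -/
def S_V3 : Prop := ∀ (V : Type) [Finite V] (G : SimpleGraph V) (Q₁ Q₂ Z : Set V) (r M n : ℕ)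
  (N : ℕ → Set V), Bip G Q₁ Q₂ n → 2 * r + (Z ∩ (Q₁ ∪ Q₂)).ncard + M ≤ n →
    (∀ (X : Set V) (J : Finset ℕ), X.ncard + J.card < r → ∃ i < r, i ∉ J ∧
      ∃ C, Conn G C ∧ Disjoint C (X ∪ Z) ∧ (C ∩ N i).Nonempty ∧ (C ∩ (Q₁ ∪ Q₂)).Nonempty) →
    ∃ X : ℕ → Set V, Mdl G (Finset.range (r + M)) X ∧
      (∀ i < r + M, Disjoint (X i) Z ∧ (X i ∩ (Q₁ ∪ Q₂)).Nonempty) ∧
      ∀ i < r, (X i ∩ N i).Nonempty

/-- no vertex of `D` has `c` disjoint connected sets which touch it and meet `Q` -/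
def NoFan {V : Type} (G : SimpleGraph V) (Q D : Set V) (c : ℕ) : Prop :=
  ∀ x ∈ D, ¬ ∃ Z : ℕ → Set V, (∀ i < c, Conn G (Z i) ∧ x ∉ Z i ∧ Tch G {x} (Z i) ∧
    (Z i ∩ Q).Nonempty) ∧ ∀ i < c, ∀ j < c, i ≠ j → Disjoint (Z i) (Z j)

/-- **V4.** A path with many sets hanging at it.  (Uses `S_U0`.)

Proof. `p_0 = 0`, `p_(h+1) = c (p_h + 2) + c`; `p = p_g`.  Let `r ∈ D`, `d, π` from U0.  For `i ∈ I` let
`t i ∈ D` be a vertex adjacent to `B i`.  `Sub x = {y ∈ D | ∃ k ≤ d y, π^[k] y = x}` (`k = d y - d x`): it is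
connected (it contains with `y` all the `π^[j] y`, `j ≤ d y - d x`, down to `x`), `Sub r = D`, and `Sub x` is
the disjoint union of `{x}` and the `Sub y` over the children `y` of `x` (`y ∈ D`, `y ≠ r`, `π y = x`);
every child is adjacent to `x`.  `J x = {i ∈ I | t i ∈ Sub x}`.  CLAIM for `h` and `x ∈ D`: if
`p_h ≤ |J x|` then there are `s 0 = x`, `s (k+1)` a child of `s k` (`k + 1 < l`, `l ≥ 1`), and `J ⊆ J x`,
`|J| = h`, and for `j ∈ J` connected sets `B' j`, `B j ⊆ B' j ⊆ B j ∪ Sub x`, containing no `s k`, touching some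
`s k`, pairwise disjoint.  Induction on `|Sub x|`.  `h = 0`: `l = 1`.  For `h + 1`: fewer than `c` indices
have `t i = x` (`NoFan` with `Z = B i`; `x ∉ B i`), and fewer than `c` children `y` have `J y ≠ ∅` (`NoFan` with
`Z = Sub y ∪ B i`, `i ∈ J y`).  So some child `y` has `|J y| ≥ (|J x| - c) / c ≥ p_h + 1`.  If `J y = J x`
apply the claim for `h + 1` to `y` and put `x` in front.  Otherwise let `i ∈ J x \ J y`: `t i = x`, `B' i = B i`,
or `t i ∈ Sub y'` for another child `y'`, `B' i = B i ∪ Sub y'`; it touches `x`.  Apply the claim for `h` to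
`y` (its sets are inside `B j ∪ Sub y`, `j ∈ J y`, `j ≠ i`), put `x` in front, add `i`.
The path is induced: `d (s k) = d x + k`, the vertices are distinct, adjacent vertices of `D` have `d`
different by at most `1`. -/
def S_V4 : Prop := ∀ c g : ℕ, ∃ p : ℕ, ∀ (V : Type) [Finite V] (G : SimpleGraph V) (Q D : Set V)
  (I : Finset ℕ) (B : ℕ → Set V), Conn G D →
    (∀ i ∈ I, Conn G (B i) ∧ Disjoint (B i) D ∧ Tch G D (B i) ∧ (B i ∩ Q).Nonempty) →
    (∀ i ∈ I, ∀ j ∈ I, i ≠ j → Disjoint (B i) (B j)) → NoFan G Q D c → p ≤ I.card →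
    ∃ (l : ℕ) (s : ℕ → V) (J : Finset ℕ) (B' : ℕ → Set V), IndP G D l s ∧ J ⊆ I ∧ J.card = g ∧
      (∀ j ∈ J, Conn G (B' j) ∧ B j ⊆ B' j ∧ B' j ⊆ B j ∪ D ∧ Disjoint (B' j) (seg s 0 l) ∧
        Tch G (seg s 0 l) (B' j)) ∧ ∀ i ∈ J, ∀ j ∈ J, i ≠ j → Disjoint (B' i) (B' j)

/-- **V5a.** Contact intervals of sets on a path.

Proof. Exactly as `S_U2b` (with `s i` touches `B c` instead of `v c ~ s i`); in the second alternative only
the contacts of the subpath `[a₀, b₀)` count.  Induction on `M`.  `M = 0`: `p = q`.  `M = 1`: `a 0 = 0`,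
`b 0 = l` (`p = q`).  `M + 1`: `p₀` for `M`, `p = q (p₀ + n + q + 1)`.  For `c ∈ P` the interval between the
first and the last `i < l` such that `s i` touches `B c`; `q` pairwise disjoint ones: second alternative with
`a₀ = 0`, `b₀ = l`; otherwise (greedy by right end points) at least `p₀ + n` of the intervals contain a common
position `j`; at most `n` of these `c` are touched by `s j`, the others are touched before and after `j`.
Apply the induction hypothesis to the path `i ↦ s (j + 1 + i)`, `i < l - j - 1`, and shift by `j + 1`: second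
alternative, or `M` subpaths of `(j, l)`; add the new subpath `[0, j)` as the first one. -/
def S_V5a : Prop := ∀ n M q : ℕ, ∃ p : ℕ, ∀ (V : Type) [Finite V] (G : SimpleGraph V) (l : ℕ)
  (s : ℕ → V) (B : ℕ → Set V) (P : Finset ℕ), (∀ c ∈ P, Tch G (seg s 0 l) (B c)) →
    (∀ i < l, (tau G P B {s i}).card ≤ n) → p ≤ P.card →
    ∃ P' ⊆ P, P'.card = q ∧
      ((∃ a b : ℕ → ℕ, (∀ i < M, b i ≤ l ∧ ∀ c ∈ P', Tch G (seg s (a i) (b i)) (B c)) ∧
          ∀ i < M, ∀ j < M, i < j → b i < a j) ∨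
        ∃ (a₀ b₀ : ℕ) (lo hi : ℕ → ℕ), b₀ ≤ l ∧
          (∀ c ∈ P', a₀ ≤ lo c ∧ lo c ≤ hi c ∧ hi c < b₀ ∧
            (∃ i, lo c ≤ i ∧ i ≤ hi c ∧ Tch G {s i} (B c)) ∧
            ∀ i, a₀ ≤ i → i < b₀ → Tch G {s i} (B c) → lo c ≤ i ∧ i ≤ hi c) ∧
          ∀ c ∈ P', ∀ c' ∈ P', c ≠ c' → hi c < lo c' ∨ hi c' < lo c)

/-- **V5.** `DD N m` from a path and touching sets hanging at it.  (Uses `S_V5a`, `S_Dig`, `S_DDd`.)

Proof. Apply V5a with `n = c`, `M = m`, `q = 3 m + N + 2 C + (2 m c + 1) m + m c + c + 2`,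
`C = m c + 3 m + N + 1` (anything larger is fine).
(1) Second alternative: let `c_0, ..., c_(q-1)` be the elements of `P'` ordered by `lo`, and
`F_k = seg s (lo c_k) (lo c_(k+1))` for `k < q - 1`, `F_(q-1) = seg s (lo c_(q-1)) b₀`: connected, consecutive
ones touch, others do not touch (induced path), `B c_k` touches `F_k` and no other `F_j`.  Model on
`range (N + 2 m)`: `2 k ↦ F_(3k) ∪ B c_(3k)`, `2 k + 1 ↦ F_(3k+2) ∪ B c_(3k+2)` (`k < m`),
`2 m + i ↦ B c_(3m+i)` (`i < N`); `Y k = F_(3k+1)`.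
(2) First alternative: subpaths `S_k = seg s (a k) (b k)`, `k < m`, pairwise non-touching (`b k < a (k+1)`,
induced path).  For `k < m`, `j ∈ P'` let `x_(k,j) ∈ S_k` be a vertex touching `B j`; the two sides of
`x_(k,j)` in `S_k` together touch all but at most `c` of the `B i`, `i ∈ P'`, so one side `W_(k,j)` (a connected
subpath, touching `x_(k,j)`) has `|tau W_(k,j)| ≥ (|P'| - c) / 2 ≥ C`.  `S_Dig` on `P'` with
`E j j' := ∃ k < m, x_(k,j) touches B j'` (out-degree at most `m c`): distinct `j_0, ..., j_(m-1)` with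
`B j_l` not touched by `x_(k,j_i)` for `l ≠ i`.  `x_k = x_(k,j_k)`, `W_k = W_(k,j_k)`; distinct
`g_k ∈ tau W_k` and `e_i` (`i < N`) in `P'`, outside the `j`'s and all `tau {x_l}`.  Model: `2 k ↦ W_k ∪ B g_k`,
`2 k + 1 ↦ B j_k`, `2 m + i ↦ B e_i`; `Y k = {x_k}`. -/
def S_V5 : Prop := ∀ N m c : ℕ, ∃ g : ℕ, ∀ (V : Type) [Finite V] (G : SimpleGraph V) (l : ℕ)
  (s : ℕ → V) (B : ℕ → Set V) (P : Finset ℕ), IndP G Set.univ l s → Mdl G P B →
    (∀ j ∈ P, Disjoint (B j) (seg s 0 l) ∧ Tch G (seg s 0 l) (B j)) →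
    (∀ i < l, (tau G P B {s i}).card ≤ c) → g ≤ P.card → IMS (DD N m) G Set.univ

/-- **V6.** Lemma W: a connected set of light vertices is light.  (Uses `S_V3`, `S_V4`, `S_V5`.)

Proof. `g` from V5 for `N, m, c`; `p` from V4 for `c, g`; `n₀ = 2 p + 1`.  `c ≥ 1` (every set is `0`-heavy),
`D ∩ Q = ∅` (for `x ∈ Q` the set `{x}` is `c`-heavy: `C = {x}`).  Suppose that `D` is `p`-heavy.  V3 with
`Z = D`, `N i = nb G D`, `r = p`, `M = 0`: let `|X| + |J| < p` (any `i < p`, `i ∉ J`); `F = X \ D`; `C` connected, disjoint from `F`, meets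
`D` and `Q`; let `q ∈ C ∩ Q` and let `C'` be the component of `C \ D` containing `q`; since `C` is connected
and meets `D`, `C'` touches `D`: it contains an element of `nb G D`.  So there are `X_i`, `i < p`, `Mdl`,
disjoint from `D`, touching `D`, meeting `Q`.  `NoFan G Q D c`: if `x ∈ D` has `c` disjoint connected sets
`Z_i` then `{x}` is `c`-heavy: for `|F| < c`, `x ∉ F`, some `Z_i` is disjoint from `F`, take `{x} ∪ Z_i`.
V4: path and sets `B' j`, `j ∈ J`, pairwise touching because `B j ⊆ B' j`.  Every `s i` touches fewer than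
`c` of them (`NoFan`; if `c` of them, they are the sets `Z`).  V5: `DD N m`. -/
def S_V6 : Prop := ∀ N m c : ℕ, ∃ p n₀ : ℕ, ∀ (V : Type) [Finite V] (G : SimpleGraph V)
  (Q₁ Q₂ D : Set V), ¬ IMS (DD N m) G Set.univ → Bip G Q₁ Q₂ n₀ → Conn G D →
    (∀ x ∈ D, ¬ Hv G (Q₁ ∪ Q₂) c {x}) → ¬ Hv G (Q₁ ∪ Q₂) p D

/-- **V7.** Linking several copies of heavy vertices.  (Uses `S_V3`.)

Proof. Let `P = {b_0, ..., b_(h-1)}`, `h = |P|`.  V3 with `r = h k`, `N (h a + i)` = the set of the neighbours of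
`v b_i` (`i < h`, `a < k`), `Z = {v b | b ∈ P}`, `M = 0`.  Hypothesis: `|X| + |J| < h k`, take any index not in `J`; put
`F = (X ∪ Z) \ {v b_i}`, `|F| < h k + h = c`; the connected `C` for the heavy `{v b_i}` contains `v b_i` and
meets `Q`, not in `v b_i` (`∉ Q`); the component of `C \ {v b_i}` containing an element of `C ∩ Q` touches
`v b_i`, and it is disjoint from `X ∪ Z`.  (`Z ∩ Q = ∅`.)  `E b_i a = X (h a + i)`. -/
def S_V7 : Prop := ∀ (V : Type) [Finite V] (G : SimpleGraph V) (Q₁ Q₂ : Set V) (v : ℕ → V)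
  (P : Finset ℕ) (k n c : ℕ), Bip G Q₁ Q₂ n → 2 * (P.card * k) ≤ n → P.card * k + P.card ≤ c →
    (∀ b ∈ P, ∀ b' ∈ P, v b = v b' → b = b') →
    (∀ b ∈ P, v b ∉ Q₁ ∪ Q₂ ∧ Hv G (Q₁ ∪ Q₂) c {v b}) →
    ∃ E : ℕ → ℕ → Set V, (∀ b ∈ P, ∀ a < k, Conn G (E b a) ∧ Tch G {v b} (E b a) ∧
      ∀ b' ∈ P, v b' ∉ E b a) ∧
      ∀ b ∈ P, ∀ a < k, ∀ b' ∈ P, ∀ a' < k, (b, a) ≠ (b', a') →
        Disjoint (E b a) (E b' a') ∧ Tch G (E b a) (E b' a')

/-- **V8.** Lemma VH: many non-adjacent heavy vertices have common neighbours.  (Uses `S_V7`, `S_U6`,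
`S_Dig`, `S_DDd`.)

Proof. `a, p` from U6 for `N, m, n, r, l`; `k' = max a (N + 2)`; `h = (2 p + 1) (m + 1)`;
`k = 2 ^ h k'`, `c = h k + h`, `n₀ = 2 h k`.  V7 for these numbers.  For `b ∈ P` the trace of `E b a` is
`{b' ∈ P | Tch G {v b'} (E b a)}`; by the pigeonhole principle `k'` of the indices `a < k` have the same trace
`T b ∋ b` (re-index: `E b a`, `a < k'`).  If all `|T b \ {b}| ≤ p`: `S_Dig` for `E' b b' := b' ∈ T b` gives
distinct `b_0, ..., b_m ∈ P` with `b_i ∉ T b_j` for `i ≠ j`.  Model on `range (N + 2 m)`: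
`2 i ↦ E b_i 0`, `2 i + 1 ↦ E b_i 1` (`i < m`), `2 m + j ↦ E b_m j` (`j < N`); `Y i = {v b_i}`, `i < m`:
`S_DDd` gives `DD N m`, contradiction.  So some `b` has `|T b| > p`.  U6 with the rows `D a' = E b a'`,
`a' < a`, and `T b \ {b}` (at least `p` elements) instead of `P`: a vertex `x` with more than `n` neighbours
among the `v b'`. -/
def S_V8 : Prop := ∀ (N m n : ℕ) (r l : Fin N → ℕ), ∃ h c n₀ : ℕ, ∀ (V : Type) [Finite V]
  (G : SimpleGraph V) (Q₁ Q₂ : Set V) (v : ℕ → V) (P : Finset ℕ), ¬ IMS (DD N m) G Set.univ →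
    ¬ IMS (TCg N m r l) G Set.univ → Bip G Q₁ Q₂ n₀ → IndV G v P → P.card = h →
    (∀ b ∈ P, v b ∉ Q₁ ∪ Q₂ ∧ Hv G (Q₁ ∪ Q₂) c {v b}) →
    ∃ x, n < (tau G P (fun c => {v c}) {x}).card

/-- the closed neighbourhoods -/
def Rn {V : Type} (G : SimpleGraph V) (x u : V) : Prop := x = u ∨ G.Adj x u

/-- `Y` is co-bipartite: the union of the cliques `K` and `Kᶜ` -/
def CoBip {W : Type} (Y : SimpleGraph W) : Prop :=
  ∃ K : Set W, (∀ u ∈ K, ∀ v ∈ K, u ≠ v → Y.Adj u v) ∧ ∀ u, u ∉ K → ∀ v, v ∉ K → u ≠ v → Y.Adj u v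

/-- **V9a.** A shattered clique.  (Uses `S_Ram`, `S_DDd`.)

Proof. Let `Y` be the union of the cliques `K = {k_0, .., k_(α-1)}` and `Kᶜ = {j_0, .., j_(β-1)}`.
`e = max 2 α`, `M` = the Ramsey number of `S_Ram` for `a = β`, `b = m`, `d = M e + N + α + 1`.
`U` contains disjoint sets `S_i`, `i < M`, with `e` elements each, and a set `U₀` of `N + α + 1` further elements.
For `i < M` let `x_i` be a vertex with `Rn G x_i u ↔ u ∈ S_i` for `u ∈ U`; `x_i ∉ U` (for `u ∈ U` all of `U`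
is in the closed neighbourhood of `u`, but `S_i ≠ U`);
`x_i ≠ x_j`.  Ramsey for the relation `x_i ~ x_j`.
(1) `m` pairwise non-adjacent `x_i`, `i ∈ T`: model on `range (N + 2 m)`: two singletons of `S_i` for each
`i ∈ T` and `N` singletons of `U₀`; `Y k = {x_i}`: `DD N m`.
(2) `β` pairwise adjacent `x_i`, `i ∈ T = {i_0, .., i_(β-1)}`: branch sets of `Y`: `j_b ↦ {x_(i_b)}`;
`k_a ↦ {u₀_a} ∪ {u | u = the a-th element of S_(i_b), b < β, Y.Adj k_a j_b}`, where `u₀_a ∈ U₀` are distinct: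
subsets of the clique `U` (so connected, pairwise touching), disjoint; `x_(i_b)` is adjacent exactly to the
elements of `S_(i_b)` in `U`. -/
def S_V9a : Prop := ∀ (N m : ℕ) (W : Type) [Finite W] (Y : SimpleGraph W), CoBip Y → ∃ d : ℕ,
  ∀ (V : Type) (G : SimpleGraph V), ¬ IMS (DD N m) G Set.univ → ¬ IMS Y G Set.univ →
    ∀ U : Finset V, d ≤ U.card → (∀ u ∈ U, ∀ v ∈ U, u ≠ v → G.Adj u v) → ¬ Shat (Rn G) U

/-- **V9b.** A shattered independent set.  (Uses `S_Ram`, `S_DDd`.)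

Proof. `M` = the Ramsey number of `S_Ram` for `a = N + 2 m` and `b = N + 3 m`, both at least `3`
(enlarge), `d = M * M`.  Let `u_(ij) ∈ U` (`i < j < M`) be distinct, `S_i = {u_(ij), u_(ji)}` (all pairs
containing `i`), `x_i` with `Rn G x_i u ↔ u ∈ S_i` for `u ∈ U`.  `x_i ∉ U` (for `u ∈ U` only `u` itself
would be in the closed neighbourhood, but `|S_i| ≥ 2`), `x_i ≠ x_j`.
(1) `N + 2 m` pairwise adjacent `x_i`, say `x'_0, ...`: model `{x'_i}`, `Y k = {u_(x'_(2k), x'_(2k+1))}`: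
`DD N m`.
(2) `N + 3 m` pairwise non-adjacent ones `x'_0, ..`: for `i < N + 2 m` the set `X i` consists of `x'_i` and
the `u` of the pairs `(x'_i, x'_j)`, `i < j < N + 2 m`, except that for `k < m` the `u` of the pair
`(x'_(2k), x'_(2k+1))` is left out, and `X (2k)` contains in addition `x'_(N+2m+k)` and the two `u`'s of the
pairs `(x'_(2k), x'_(N+2m+k))`, `(x'_(2k+1), x'_(N+2m+k))`.  Connected, disjoint, pairwise touching.
`Y k = {the u of the pair (x'_(2k), x'_(2k+1))}` touches exactly `X (2k)`, `X (2k+1)`. -/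
def S_V9b : Prop := ∀ N m : ℕ, ∃ d : ℕ, ∀ (V : Type) (G : SimpleGraph V),
  ¬ IMS (DD N m) G Set.univ → ∀ U : Finset V, d ≤ U.card →
    (∀ u ∈ U, ∀ v ∈ U, u ≠ v → ¬ G.Adj u v) → ¬ Shat (Rn G) U

/-- **V9.** The closed neighbourhoods have bounded VC dimension.  (Uses `S_V9a`, `S_V9b`, `S_Ram`.)

Proof. `d` = the Ramsey number for the numbers of V9a and V9b.  A subset of a shattered set is shattered. -/
def S_V9 : Prop := ∀ (N m : ℕ) (W : Type) [Finite W] (Y : SimpleGraph W), CoBip Y → ∃ d : ℕ,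
  ∀ (V : Type) (G : SimpleGraph V), ¬ IMS (DD N m) G Set.univ → ¬ IMS Y G Set.univ →
    ∀ U : Finset V, U.card = d → ¬ Shat (Rn G) U

/-- **V10.** The heavy vertices are dominated by a bounded set.  (Uses `S_P7`, `S_V8`, `S_V9`,
`S_Ram`.)

Proof. `d` from V9 (we may assume `d ≥ 1`: if `d = 0` then `∅` is not shattered, so `V` is empty; or use that
not shattering sets of size `d` implies the same for `d + 1`).  `h, c, n₁` from V8 for `n = d`;
`p₀` = the Ramsey number for `a = d`, `b = h`; `p = d p₀ + d`; `f₀` from P7 for `d, p`; `f = f₀ + 2`,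
`n₀ = max n₁ 1`.  `VV` = the vertices `v ∉ Q₁ ∪ Q₂` with `Hv G Q c {v}`.  Let `s : Fin p → V` have values in
`VV`.  If a value is taken `d` times: `I` = `d` of these indices, `x` = this value.  Otherwise there are at
least `p / d ≥ p₀` different values: `d` pairwise adjacent ones, `x` = one of them (`Rn G x x`), or `h`
pairwise non-adjacent ones (number them by `range h`), V8 gives `x` adjacent to at least `d` of them.  P7 for
`R = Rn G` (symmetric) gives `X₀` dominating `VV`.  `X = X₀ ∪ {q₁, q₂}` with `q_i ∈ Q_i` (every element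
of `Q₁` is adjacent to `q₂`). -/
def S_V10 : Prop := ∀ (N m : ℕ) (r l : Fin N → ℕ) (W : Type) [Finite W] (Y : SimpleGraph W),
  CoBip Y → ∃ c f n₀ : ℕ, ∀ (V : Type) [Finite V] (G : SimpleGraph V) (Q₁ Q₂ : Set V),
    ¬ IMS (DD N m) G Set.univ → ¬ IMS (TCg N m r l) G Set.univ → ¬ IMS Y G Set.univ →
    Bip G Q₁ Q₂ n₀ → ∃ X : Set V, X.ncard ≤ f ∧
      ∀ v, Hv G (Q₁ ∪ Q₂) c {v} → ∃ x ∈ X, x = v ∨ G.Adj x v

end Pool.Agent.MPd439b2.KS
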