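import Pool.Agent.Lib.MP_d439b2_co.KS.SpecV
import Pool.Agent.Lib.MP_d439b2_co.KS.DefsQ

/-!
# MP_d439b2_co, Theorem K, Spec X: light clusters, Lemma A, blocks, the hub, the quotient structure

Every `S_...` is a statement to be proved in its own file; the docstring contains the complete
proof.  `Q = Q₁ ∪ Q₂`.  `K`-light = not `K`-heavy.
-/

set_option autoImplicit false

namespace Pool.Agent.MPd439b2.KS

/-- **X1.** Light clusters are attached to a bounded set and at most one further vertex.  (Uses `S_V3`,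
`S_Dig`, `S_DDd`.)

Proof. `K₁ = m k₀ + 4 m + k₀ + 1`, `τ = (2 k₀ + 1) m k₀`, `n₀ = 4 m + m k₀ + N`.  A light cluster is a
component `D` of `G[L]`, `L = {v | ¬ Hv G Q K {v}}`, which is not `k₀`-heavy.
(0) `|nb G D| < k₀`, and the vertices of `nb G D` are `K`-heavy (they are not in `L`, since `D` is a component),
`D ∩ Q = ∅`.  There is `F`, `|F| < k₀`, disjoint from `D`, such that no connected set avoids `F` and meets
`D` and `Q`.  If `u ∈ nb G D \ F` then, as `{u}` is `K`-heavy and `|F| < K`, there is a connected `C ∋ u`,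
disjoint from `F`, meeting `Q`; `C ∪ D` is a contradiction.  So `nb G D ⊆ F`.
(1) Consider finite sets of pairs `(D, P)`, `D` a light cluster, `P ⊆ nb G D` with two elements, different
`D`, disjoint `P`.  Let `𝓕` be a maximal one and `T` the union of the `nb G D`, `(D, P) ∈ 𝓕`.  A light cluster
`D` which occurs in `𝓕` has `nb G D ⊆ T`; otherwise at most one element of `nb G D` is outside the union of
the `P`'s (maximality).  All vertices of `T` are `K`-heavy.  It remains to show `|𝓕| < (2 k₀ + 1) m` or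
`𝓕 = ∅`.
(2) Otherwise `S_Dig` for `E (D,P) (D',P') := P' ∩ nb G D ≠ ∅` (out-degree `< k₀`, as the `P'` are disjoint)
gives `(D_i, P_i)`, `i < m`, with `P_j ∩ nb G D_i = ∅` for `i ≠ j`; `P_i = {x_(2i), x_(2i+1)}`.  V3 with
`r = 2 m`, `N i = {x_i}`, `M = N`, `Z = ⋃_i (D_i ∪ (nb G D_i \ P_i))` (`|Z ∩ Q| ≤ m k₀`).  Hypothesis of V3:
let `|X| + |J| < 2 m`; there is `i ∉ J` with `x_i ∉ X`.  `F = (X ∪ ⋃_j (nb G D_j \ P_j) ∪ {x_j | j}) \ {x_i}`
has less than `K` elements, `x_i` is not in any `nb G D_j \ P_j`; so there is a connected `C ∋ x_i` avoiding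
`F` which meets `Q`.  Let `C'` be the component of `C \ ⋃ D_j` which contains `x_i`.  The set
`C' ∪ ⋃ (C ∩ D_j)` is closed in `C` (a neighbour in `C` of `D_j` outside `D_j` is in `nb G D_j \ F`, so it is
`x_i`), so it is `C`, and `C' ∩ Q = C ∩ Q ≠ ∅` (`D_j ∩ Q = ∅`).  V3 gives `X_0, ..., X_(2m+N-1)`, `x_i ∈ X_i`.
`S_DDd` with `Y i = D_i`, `u i = 2 i`, `w i = 2 i + 1`: an element of `X_j ∩ nb G D_i` is in `P_i`, so
`j = 2 i` or `j = 2 i + 1`.  (`m = 0`: `S_DDd` with `r = 0` gives `DD N 0`, contradiction.) -/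
def S_X1 : Prop := ∀ N m k₀ : ℕ, ∃ K₁ τ n₀ : ℕ, ∀ K, K₁ ≤ K →
  ∀ (V : Type) [Finite V] (G : SimpleGraph V) (Q₁ Q₂ : Set V), ¬ IMS (DD N m) G Set.univ →
    Bip G Q₁ Q₂ n₀ → ∃ T : Set V, T.ncard ≤ τ ∧ (∀ v ∈ T, Hv G (Q₁ ∪ Q₂) K {v}) ∧
      ∀ D, IsComp G {v | ¬ Hv G (Q₁ ∪ Q₂) K {v}} D → ¬ Hv G (Q₁ ∪ Q₂) k₀ D →
        (nb G D \ T).ncard ≤ 1

/-- **X2.** Lemma A.

Proof. `A` = a subset of `U` with the minimal number of elements such that `Q ⊆ A` and
`|nb G C ∩ U| ≤ k` for all components `C` of `G[U \ A]` (`A = U` has this property).  Let `P₁, F₁` be as in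
the last statement and `P = P₁ ∩ U`, `F = F₁ ∩ U`: `P, F ⊆ U` are disjoint, `P ∩ Q = ∅`,
`nb G P ∩ U ⊆ F`, `|F| ≤ k`; it is enough to show `|A ∩ (P ∪ F)| ≤ |F|` for all such `P, F ⊆ U`
(`|F| ≤ |F₁|`).  Suppose not, and let `(P, F)` be a counterexample with `|F|` minimal.  `R = U \ (P ∪ F)`.
(1) For every component `C` of `G[U \ A]`: `|F ∩ C| ≤ |nb G C ∩ U ∩ P|`.  Otherwise put
`F' = (F \ C) ∪ (nb G C ∩ U ∩ P)`, `P' = P \ (C ∪ nb G C)`: `|F'| < |F|`.  `nb G P' ∩ U ⊆ F'`: a neighbour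
`v ∈ U` of `p ∈ P'`, `v ∉ P'`: `v ∈ P` (then `v ∈ C ∪ nb G C`, and `v ∉ C` because `p ∉ nb G C`, `p ∉ C`; so
`v ∈ nb G C ∩ P`) or `v ∈ F` (and `v ∉ C` for the same reason).  `A ∩ (P' ∪ F') = A ∩ (P ∪ F)` since
`A ∩ C = ∅` and `nb G C ∩ U ⊆ A`.  So `|A ∩ (P' ∪ F')| > |F| > |F'|`: a smaller counterexample.
(2) `A' = (A ∩ R) ∪ F`: `|A'| ≤ |A ∩ R| + |F| < |A ∩ R| + |A ∩ (P ∪ F)| = |A|`.  `Q ⊆ A'` (`Q ⊆ A`,
`Q ∩ P = ∅`).  Let `C'` be a component of `G[U \ A']`; `U \ A' = P ∪ (R \ A)`, no edges between `P` and `R`.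
If `C' ⊆ P` then `nb G C' ∩ U ⊆ F` (a neighbour in `P` is in `C'`), at most `k` elements.  If `C' ⊆ R \ A` then
`C' ⊆ C` for a component `C` of `G[U \ A]`, and a neighbour `v ∈ U \ C'` of `C'` is not in `P`; if `v ∈ C` then
`v ∈ F` (otherwise `v ∈ R \ A` would be in `C'`); if `v ∉ C` then `v ∈ nb G C`.  So
`|nb G C' ∩ U| ≤ |(nb G C ∩ U) \ P| + |F ∩ C| ≤ |nb G C ∩ U| ≤ k` by (1).  This contradicts the minimality of
`A`. -/
def S_X2 : Prop := ∀ (V : Type) [Finite V] (G : SimpleGraph V) (U Q : Set V) (k : ℕ), Q ⊆ U →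
  ∃ A ⊆ U, Q ⊆ A ∧ (∀ C, IsComp G (U \ A) C → (nb G C ∩ U).ncard ≤ k) ∧
    ∀ P F : Set V, Disjoint P F → Disjoint P Q → nb G P ⊆ F → F.ncard ≤ k →
      (A ∩ (P ∪ F)).ncard ≤ F.ncard

/-- The situation of the blocks: `lw`, `lK` = Lemma W for `c` and `K`; `cl`: the clusters (components of
the `K`-light vertices) meeting `U` are inside `U` and heavy; `cA`, `sep` = Lemma A. -/
structure Cx {V : Type} (G : SimpleGraph V) (Q U A : Set V) (c k₀ K k : ℕ) : Prop where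
  hcK : c ≤ K
  hk₀ : k₀ ≤ k
  lw : ∀ D, Conn G D → (∀ x ∈ D, ¬ Hv G Q c {x}) → ¬ Hv G Q k₀ D
  lK : ∀ D, Conn G D → (∀ x ∈ D, ¬ Hv G Q K {x}) → ¬ Hv G Q k D
  cl : ∀ D, IsComp G {v | ¬ Hv G Q K {v}} D → (D ∩ U).Nonempty → D ⊆ U ∧ Hv G Q k₀ D
  AU : A ⊆ U
  QA : Q ∩ U ⊆ A
  cA : ∀ C, IsComp G (U \ A) C → (nb G C ∩ U).ncard ≤ k
  sep : ∀ P F : Set V, Disjoint P F → Disjoint P Q → nb G P ⊆ F → F.ncard ≤ k →
    (A ∩ (P ∪ F)).ncard ≤ F.ncard

/-- a component of `G[U \ A]` containing a `c`-heavy vertex -/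
def GdC {V : Type} (G : SimpleGraph V) (Q U A : Set V) (c : ℕ) (C : Set V) : Prop :=
  IsComp G (U \ A) C ∧ ∃ x ∈ C, Hv G Q c {x}

/-- the bad vertices: the `c`-light vertices of `A` and the components of `G[U \ A]` without heavy
vertices -/
def badS {V : Type} (G : SimpleGraph V) (Q U A : Set V) (c : ℕ) : Set V :=
  {v | v ∈ A ∧ ¬ Hv G Q c {v}} ∪ {v | ∃ C, IsComp G (U \ A) C ∧ (∀ x ∈ C, ¬ Hv G Q c {x}) ∧ v ∈ C}

/-- `y` is a possible target of the bad component `B` -/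
def Tgt {V : Type} (G : SimpleGraph V) (Q U A : Set V) (c K : ℕ) (B : Set V) (y : V) : Prop :=
  y ∈ U ∧ y ∈ nb G B ∧ (∃ D, IsComp G {v | ¬ Hv G Q K {v}} D ∧ B ⊆ D ∧ y ∈ D) ∧
    ((y ∈ A ∧ Hv G Q c {y}) ∨ ∃ C, GdC G Q U A c C ∧ y ∈ C)

/-- **X3.** Every bad component has a target.

Proof. `B` is connected and consists of `c`-light, hence (`c ≤ K`) `K`-light vertices (`badS ⊆ U`, all its
vertices are `c`-light).  Let `D` be the component of the `K`-light vertices containing `B`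
(`exists_comp`; a connected subset meeting a component is inside it).  `D ∩ U ≠ ∅`, so by `cl` `D ⊆ U` and
`D` is `k₀`-heavy; by `lw` it contains a `c`-heavy vertex, so `D ≠ B`, and there is `y ∈ D \ B` adjacent to a
vertex of `B`.  `y ∉ badS` (otherwise `y ∈ nb G B` contradicts that `B` is a component of `G[badS]`).  If
`y ∈ A` then `y` is `c`-heavy.  Otherwise `y` is in a component `C` of `G[U \ A]`, which must contain a
`c`-heavy vertex. -/
def S_X3 : Prop := ∀ (V : Type) [Finite V] (G : SimpleGraph V) (Q U A : Set V) (c k₀ K k : ℕ),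
  Cx G Q U A c k₀ K k → ∀ B, IsComp G (badS G Q U A c) B → ∃ y, Tgt G Q U A c K B y

/-- a labelling of the vertices of `U`: the parts are its fibres -/
structure Lab {V : Type} (G : SimpleGraph V) (Q U A : Set V) (c K : ℕ) (lab : V → V ⊕ Set V) :
    Prop where
  la : ∀ v ∈ A, Hv G Q c {v} → lab v = Sum.inl v
  lc : ∀ C, GdC G Q U A c C → ∀ v ∈ C, lab v = Sum.inr (nb G C ∩ U)
  lb : ∀ B, IsComp G (badS G Q U A c) B → ∃ y, Tgt G Q U A c K B y ∧ ∀ v ∈ B, lab v = lab y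

/-- **X4.** Labellings exist.  (Uses `S_X3`.)

Proof. For a vertex `y` which is a `c`-heavy element of `A` put `g y = inl y`; if `y` is in a component `C`
with `GdC` put `g y = inr (nb G C ∩ U)` (`C` is unique: components meeting in `y` are equal).  For
`v ∈ badS` let `B(v)` be its component in `G[badS]` and `y(B)` a target chosen for every `B`;
`lab v = g (y(B(v)))`.  For other `v` put `lab v = g v` (arbitrary outside `U`).  A heavy vertex of `A` and the
vertices of a component with `GdC` are not in `badS` (components of `G[U \ A]` are equal or disjoint). -/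
def S_X4 : Prop := ∀ (V : Type) [Finite V] (G : SimpleGraph V) (Q U A : Set V) (c k₀ K k : ℕ),
  Cx G Q U A c k₀ K k → ∃ lab, Lab G Q U A c K lab

/-- **X5.** Few labels behind a small separator.

Proof. Let `y ∈ (P ∪ F) ∩ U`.  (1) `y ∈ A`: at most `|A ∩ (P ∪ F)| ≤ k` such `y` (`sep`).  Otherwise `y` is in
a component `C` of `G[U \ A]`.  (2) `C` meets `F`: at most `k` such components, and all vertices of a
component have the same label (if `GdC` by `lc`; otherwise `C` is a connected subset of `badS`, contained in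
one component `B` of `G[badS]`, and by `lb`).  (3) `C ∩ F = ∅`: `C` is connected and meets `P ∪ F`, so it
meets `P`, so `C ⊆ P` (`nb G P ⊆ F`), and `E = nb G C ∩ U ⊆ A ∩ (P ∪ F)` (a neighbour of `C` in `U` outside
`C` is in `A`).  (3a) `GdC C`: the label is `inr E`, at most `2 ^ |A ∩ (P ∪ F)| ≤ 2 ^ k` labels.  (3b) `C` is
bad, `C ⊆ B`, `B` a component of `G[badS]`.  If `B = C`: by `lb` the label is `lab y'` for a target
`y' ∈ nb G C ∩ U = E`, so `y' ∈ A ∩ (P ∪ F)`: one of the labels of (1).  If `B ≠ C`: `B` is connected, so `C`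
touches `B \ C`, at a vertex of `E ∩ B`, which is in `A ∩ (P ∪ F)` and has the same label: (1).
Altogether at most `2 k + 2 ^ k` labels. -/
def S_X5 : Prop := ∀ (V : Type) [Finite V] (G : SimpleGraph V) (Q U A : Set V) (c k₀ K k : ℕ)
  (lab : V → V ⊕ Set V), Cx G Q U A c k₀ K k → Lab G Q U A c K lab →
    ∀ P F : Set V, Disjoint P F → Disjoint P Q → nb G P ⊆ F → F.ncard ≤ k →
      (lab '' ((P ∪ F) ∩ U)).ncard ≤ 2 * k + 2 ^ k

/-- **X6.** Branch sets inside the parts.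

Proof. Write `W i = {v ∈ U | lab v = i}`.  `i = inl a` used by some `v ∈ U`: the labels of `A`-heavy vertices
are `inl` of themselves, so `a ∈ A` is `c`-heavy and `W i` consists of `a` and of the components `B` of
`G[badS]` whose target has the label `inl a`, i.e. is `a` (a target in a good component has an `inr` label);
`B` touches `a`.  `Wt i = W i`: connected.  `i = inr E`: used by a vertex of a component `C'` with `GdC`
and `nb G C' ∩ U = E`, or by a bad component with a target in such a `C'`; choose one such `C' =: C_E`.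
`Wt i` = the union of `C_E` and of all components `B` of `G[badS]` with label `inr E`: the target `y` of such
a `B` is in a good component `C''` with `nb G C'' ∩ U = E`, a vertex `b ∈ B` adjacent to `y` is not in `C''`
(`C''` contains no bad vertex... components of `G[U \ A]` are equal or disjoint, and `B` contains only
vertices of `A` and of components without heavy vertices), so `b ∈ E = nb G C_E ∩ U` touches `C_E`.
Connected; contains a `c`-heavy vertex.
Touching: let `w ∈ W i`, `w' ∈ W j` be adjacent, `i ≠ j`.  If `w ∉ Wt i` then `i = inr E` and `w` is in a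
good component `C'` with `nb G C' ∩ U = E`; `w' ∈ U \ C'`, so `w' ∈ E ⊆ A`; `W j ∩ A ⊆ Wt j` and `C_E`
touches `w'`.  The same with `i, j` exchanged. -/
def S_X6 : Prop := ∀ (V : Type) [Finite V] (G : SimpleGraph V) (Q U A : Set V) (c k₀ K k : ℕ)
  (lab : V → V ⊕ Set V), Cx G Q U A c k₀ K k → Lab G Q U A c K lab →
    ∃ Wt : V ⊕ Set V → Set V, (∀ i, (∃ v ∈ U, lab v = i) → Wt i ⊆ {v | v ∈ U ∧ lab v = i} ∧
      Conn G (Wt i) ∧ ∃ x ∈ Wt i, Hv G Q c {x}) ∧
      ∀ i j, i ≠ j → Tch G {v | v ∈ U ∧ lab v = i} {v | v ∈ U ∧ lab v = j} →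
        Tch G (Wt i) (Wt j)

/-- **X7.** The parts which are not single vertices of `A` are bounded.  (Uses `S_V1`, `S_X5`.)

Proof. `b = (k + 1) (4 k + 2 ^ k + 1)`.  `W i = {v ∈ U | lab v = i}`.
(α) `i = inl a`: `W i = {a} ∪` the bad components `B` with target `a` (see X6).  If there is none:
`W i = {a}`.  Otherwise `a` is in the cluster `D ⊇ B`, the same `D` for all these `B` (the component of
the `K`-light vertices containing `a`), so `W i ⊆ D`; `lK` and V1 give `F, P`, `|F| < k`, `D ⊆ P`,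
`P ∩ Q = ∅`, `nb G P ⊆ F`.  If `W j` touches `W i` then `W j` meets `P ∪ F`: X5.  `W i ∩ A ⊆ A ∩ (P ∪ F)`:
at most `k` elements (`sep`).  A vertex `x ∈ U \ (W i \ A)` adjacent to `w ∈ W i \ A`: `w` is in a component
`C` of `G[U \ A]` which is contained in `B`; `x ∉ C`, so `x ∈ A`, `x ∈ P ∪ F`.
(β) `i = inr E`: `|E| ≤ k` (`cA`).  `W i` = the good components `C'` with `nb G C' ∩ U = E` and the bad
components `B` with label `inr E`; each of these contains an element of `E` (see X6), so there are at most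
`k` of them; by `lw` (`k₀ ≤ k`) and V1 each `B` has `F_B, P_B`.  If `W j`, `j ≠ i`, touches `W i` at
`w' ∈ W j`, `w ∈ W i`: `w ∈ C'` and `w' ∈ E`, or `w ∈ B` and `w' ∈ P_B ∪ F_B`: at most
`k + k (2 k + 2 ^ k)` labels.  `W i ∩ A ⊆ ⋃ (A ∩ (P_B ∪ F_B))`: at most `k * k`.
`nb G (W i \ A) ∩ U ⊆ E ∪ ⋃ (A ∩ (P_B ∪ F_B))`: at most `k + k * k`. -/
def S_X7 : Prop := ∀ k : ℕ, ∃ b : ℕ, ∀ (V : Type) [Finite V] (G : SimpleGraph V) (Q U A : Set V)
  (c k₀ K : ℕ) (lab : V → V ⊕ Set V), Cx G Q U A c k₀ K k → Lab G Q U A c K lab →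
    ∀ i, (∃ v ∈ U, lab v = i) →
      (∃ a ∈ A, {v | v ∈ U ∧ lab v = i} = {a}) ∨
      ({j | j ≠ i ∧ Tch G {v | v ∈ U ∧ lab v = i} {v | v ∈ U ∧ lab v = j}}.ncard ≤ b ∧
        ({v | v ∈ U ∧ lab v = i} ∩ A).ncard ≤ b ∧
        (nb G ({v | v ∈ U ∧ lab v = i} \ A) ∩ U).ncard ≤ b)

/-- among `h` heavy vertices two are equal, adjacent or have a common neighbour -/
def NoFar {V : Type} (G : SimpleGraph V) (Q : Set V) (c h : ℕ) : Prop :=
  ∀ z : ℕ → V, (∀ t < h, Hv G Q c {z t}) → ∃ t < h, ∃ t' < h, t < t' ∧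
    (z t = z t' ∨ G.Adj (z t) (z t') ∨ ∃ u, G.Adj (z t) u ∧ G.Adj u (z t'))

/-- **X8a.** Short connections to `Q`.

Proof. For a set `Y` let `κ Y = |{i | Wt i ∩ Y ≠ ∅}|`.  `R` = the set of the vertices `y` contained in a
connected set meeting `Q`; for `y ∈ R` let `f y` be the minimum of `κ Y` over the connected `Y ∋ y` meeting
`Q`.  (1) `y ~ y' ∈ R`: `y ∈ R`, `f y ≤ f y' + 1` (`Y' ∪ {y}`; `y` is in at most one `Wt i`), and
`f y ≤ f y'` if `y` is in no `Wt i`.  (2) `y, y' ∈ Wt i`, `y' ∈ R`: `f y ≤ f y'` (`Y' ∪ Wt i`: `i` is already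
counted, the `Wt` are disjoint).  (3) `f q ≤ 1` for `q ∈ Q`.  Suppose `f x > 3 h + 3`, and let `Y ∋ x` be
connected, meeting `Q` in `q`.  For `2 ≤ t ≤ f x` apply `Conn` to `B = {y ∈ Y | f y ≥ t}` (contains `x`, not
`q`; `Y ⊆ R`): `b ∈ B`, `a ∈ Y \ B`, `a ~ b`, so `f a ≤ t - 1`, `t ≤ f b ≤ f a + 1`, so `f b = t`,
`f a = t - 1 < f b`; by (1) `b` is in some `Wt i`; let `z_t ∈ Wt i` be `c`-heavy; `f z_t = t` by (2).  The
vertices `z_(2 + 3 j)`, `j < h`, contradict `NoFar`: by (1) `f` changes by at most `1` along an edge. -/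
def S_X8a : Prop := ∀ (V : Type) [Finite V] (G : SimpleGraph V) (Q : Set V) (c h : ℕ)
  (ι : Type) [Finite ι] (Wt : ι → Set V), NoFar G Q c h →
    (∀ i, Conn G (Wt i) ∧ ∃ x ∈ Wt i, Hv G Q c {x}) →
    (∀ i j, i ≠ j → Disjoint (Wt i) (Wt j)) →
    ∀ x, (∃ C, Conn G C ∧ x ∈ C ∧ (C ∩ Q).Nonempty) →
      ∃ Y, Conn G Y ∧ x ∈ Y ∧ (Y ∩ Q).Nonempty ∧ {i | (Wt i ∩ Y).Nonempty}.ncard ≤ 3 * h + 3

/-- **X8.** The hub.  (Uses `S_X8a`.)

Proof. Let `X'` be the set of the `x ∈ X` with `x = v` or `x ~ v` for a `c`-heavy vertex `v`; since `c ≥ 1`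
there is a connected set containing `v` and meeting `Q`, so one containing `x` (insert).  X8a gives `Y x`
for `x ∈ X'`.  `X₀ = {q₁, q₂} ∪ ⋃_{x ∈ X'} Y x` with `q_i ∈ Q_i`: connected, because `Y x` contains an
element of `Q₁` (adjacent to `q₂`) or of `Q₂` (adjacent to `q₁`).  It meets at most
`f (3 h + 3) + 2` of the `Wt i`.  If `Wt i` is disjoint from `X₀`: let `v ∈ Wt i` be `c`-heavy and `x ∈ X` with
`x = v` or `x ~ v`: `x ∈ X' ⊆ X₀`, so `x ≠ v` and `x ~ v`. -/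
def S_X8 : Prop := ∀ (V : Type) [Finite V] (G : SimpleGraph V) (Q₁ Q₂ X : Set V) (c h : ℕ)
  (ι : Type) [Finite ι] (Wt : ι → Set V), 1 ≤ c → Bip G Q₁ Q₂ 1 → NoFar G (Q₁ ∪ Q₂) c h →
    (∀ v, Hv G (Q₁ ∪ Q₂) c {v} → ∃ x ∈ X, x = v ∨ G.Adj x v) →
    (∀ i, Conn G (Wt i) ∧ ∃ x ∈ Wt i, Hv G (Q₁ ∪ Q₂) c {x}) →
    (∀ i j, i ≠ j → Disjoint (Wt i) (Wt j)) →
    ∃ X₀, Conn G X₀ ∧ {i | (Wt i ∩ X₀).Nonempty}.ncard ≤ X.ncard * (3 * h + 3) + 2 ∧
      ∀ i, Disjoint (Wt i) X₀ → Tch G X₀ (Wt i)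

/-- **XL.** Adding few vertices and pendant vertices to a graph with a layout.

Proof. `k₁ = (k' + 1) 2 ^ b + 2 ^ b + 1` (anything larger is fine).  For `Z ⊆ J₀` let `Z⁺` be the union of `Z`
and of all `p ∈ P` whose neighbour is in `Z`.  Claim: if `Z` (as a subset of the subtype `J₀`) has a layout of
width `k'` in `Γ.induce J₀` then `Z⁺` has a layout of width `k₁` in `Γ`.  Types of `Z⁺`: a pendant `p ∈ Z⁺` has no
neighbour outside; the trace of `j ∈ Z` is its trace in `J₀` together with a subset of `J₁` (its pendant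
neighbours are in `Z⁺`): at most `(k' + 1) 2 ^ b` types.  Induction on the layout: `single j`: `{j}⁺` = `{j}` and
its pendant neighbours, which are added one after the other (`Lay.insert`; the types are subsets of traces as
above, and `{j}` for the pendants if they are added before `j`; start with the pendants, then insert `j`).
At the end add the remaining `p ∈ P` (no neighbour in `J₀`, so their neighbours are in `J₁`) and the elements
of `J₁` one after the other: at most `2 ^ b` types (all outside vertices which have neighbours inside are in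
`J₁`). -/
def S_XL : Prop := ∀ k' b : ℕ, ∃ k₁ : ℕ, ∀ (ι : Type) [Finite ι] (Γ : SimpleGraph ι)
  (J₀ J₁ P : Set ι), J₀ ∪ J₁ ∪ P = Set.univ → Disjoint J₀ J₁ → Disjoint J₀ P → Disjoint J₁ P →
    J₁.ncard ≤ b → (∀ p ∈ P, (nb Γ {p}).ncard ≤ 1 ∧ nb Γ {p} ⊆ J₀ ∪ J₁) →
    Lay (Γ.induce J₀) k' Set.univ → Lay Γ k₁ Set.univ

/-- `T`, `U` and the light clusters -/
structure Lt {V : Type} (G : SimpleGraph V) (Q T U : Set V) (k₀ K : ℕ) : Prop where
  hT : ∀ v ∈ T, Hv G Q K {v}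
  hU : ∀ v, v ∈ U ↔ v ∉ T ∧ ∀ D, IsComp G {v | ¬ Hv G Q K {v}} D → ¬ Hv G Q k₀ D → v ∉ D
  hD : ∀ D, IsComp G {v | ¬ Hv G Q K {v}} D → ¬ Hv G Q k₀ D → (nb G D \ T).ncard ≤ 1

/-- **X9b.** The quotient structure from the blocks.  (Uses `S_X4`, `S_X6`, `S_X7`, `S_X8`, `S_XL`.)

Proof. `b₀` from X7 for `k`; `b₁ = f (3 h + 3) + 2`; `τ = b₀ + τ₁ + b₁ + 2`; `k₁` from XL for `k'` and
`b = b₁`; the number `k₁` and `τ` of the statement.  Let `lab` be the labelling of X4, `W i = {v ∈ U | lab v = i}`,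
`ι₀ = {i // ∃ v ∈ U, lab v = i}` (finite), `Wt` from X6 (restricted to `ι₀`; disjoint, since the `W i` are), and
`X₀` the hub of X8.  A LIGHT is a component `D` of the `K`-light vertices which is not `k₀`-heavy.  The vertices
of `nb G D` are `K`-heavy (component), so not in any light: `nb G D ⊆ T ∪ U`; at most one element is outside
`T`: the foot of `D`, if it exists, is in `U`.  Different lights are disjoint and do not touch.
PARTS.  For `i ∈ ι₀`: `part i = W i ∪` (all lights whose foot is in `W i \ A`).  All other lights (foot in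
`A`, or no foot) are parts of their own.  `ι = ι₀ ⊕ {other lights}`.  They are nonempty, disjoint, disjoint from
`T`, and cover the complement of `T` (`hU`).  `Γ.Adj i j := i ≠ j ∧ Tch G (part i) (part j)`.
TOUCHING: a light with foot in `W i` touches only `W i` (and `T`); so `part i`, `part j` (`i ≠ j ∈ ι₀`) touch
iff `W i`, `W j` touch iff `Wt i`, `Wt j` touch (X6); another light touches at most one part, the one
containing its foot.
LAYOUT: `J₁` = the `i ∈ ι₀` with `Wt i ∩ X₀ ≠ ∅` (at most `b₁`), `J₀` = the other `i ∈ ι₀`, `P` = the other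
lights.  The cone of `Γ.induce J₀` is an induced minor of `G`: `none ↦ X₀`, `some i ↦ Wt i`.  So
`Lay (Γ.induce J₀) k' univ` by the hypothesis, and XL gives `Lay Γ k₁ univ`.
BOUNDS for `i ∈ ι₀` (X7): if `W i = {a}`, `a ∈ A`, then `W i \ A = ∅` and `part i = {a}`.  Otherwise
`R = W i ∩ A`, `|R| ≤ b₀`; the neighbours of `i` in `Γ` are at most `b₀` elements of `ι₀` and ... the other
lights with foot in `W i ∩ A` (unboundedly many).  To avoid this, if `W i` is not a single vertex of `A`,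
absorb ALL lights with foot in `W i` (also in `A`) into `part i`; only lights with foot in a part
`W i = {a}`, `a ∈ A`, or without foot are parts of their own.  Then `|nb Γ {i}| ≤ b₀`.
`nb G (part i \ R)` is contained in `(nb G (W i \ A) ∩ U) ∪ R ∪ T`: a neighbour of an absorbed light is in `T`
or is its foot (in `W i \ A`, inside, or in `R`); a neighbour of `W i \ A` outside is in `U`, in `T`, or in a
light with foot in `W i \ A`, which is absorbed.  So it has at most `2 b₀ + τ₁` elements (take `τ` larger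
accordingly).
Other lights: `R = ∅`, `nb G D ⊆ T ∪ {foot}`, at most one neighbour in `Γ`.
HALF: let `D'` be a component of `part i \ R`, `X = nb G D' ⊆ nb G (part i \ R)`, less than `τ` elements; it
contains no element of `Q₁`: `Q ∩ U ⊆ A` and the vertices of `Q` are heavy (`C = {q}`), so not in lights.
`DeepV` gives `q ∈ Q₁` and a connected `C ∋ q`, disjoint from `X`, `|S| < 2 |S ∩ C|`.  `C ∩ D' = ∅`
(otherwise `C ⊆ D'` by connectivity, but `q ∉ D'`), so `2 |S ∩ D'| ≤ |S|`. -/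
def S_X9b : Prop := ∀ k f h τ₁ k' : ℕ, ∃ τ k₁ : ℕ, ∀ (V : Type) [Finite V] (G : SimpleGraph V)
  (S Q₁ Q₂ T U A X : Set V) (c k₀ K : ℕ), Cx G (Q₁ ∪ Q₂) U A c k₀ K k →
    Lt G (Q₁ ∪ Q₂) T U k₀ K → T.ncard ≤ τ₁ → 1 ≤ c → Bip G Q₁ Q₂ 1 →
    NoFar G (Q₁ ∪ Q₂) c h → X.ncard ≤ f →
    (∀ v, Hv G (Q₁ ∪ Q₂) c {v} → ∃ x ∈ X, x = v ∨ G.Adj x v) → DeepV G S τ Q₁ →
    (∀ (W : Type) [Finite W] (Γ : SimpleGraph W), IMS (cone Γ) G Set.univ → Lay Γ k' Set.univ) →
    QuoS G S τ k₁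

/-- **X9c.** The situation `Cx`, `Lt` exists.  (Uses `S_V6`, `S_V8`, `S_V10`, `S_X1`, `S_X2`.)

Proof. V10 gives `c₁, f, n₁`, V8 with `n = 1` gives `h₁, c₂, n₂`; `c = c₁ + c₂ + 1`, `h = h₁ + 1` (a
`c`-heavy set is `c'`-heavy for `c' ≤ c`).  NoFar: let `z t`, `t < h`, be `c`-heavy.  If two of them are in `Q`
then they are equal, adjacent or have a common neighbour (`n₁ ≥ 1`: both in `Q₁`: an element of `Q₂`).
Otherwise at least `h₁` are outside `Q`; if they are pairwise distinct and non-adjacent then V8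
(`P = ` `h₁` of the indices, `v = z`) gives `x` adjacent to at least two of them.
V6 for `c` gives `k₀, n₃`; X1 for `k₀` gives `K₁, τ₁, n₄`; `K = K₁ + c`; V6 for `K` gives `p, n₅`;
`k = p + k₀`; `n₀ = n₁ + .. + n₅ + τ₁ + 1`.  `T` from X1;
`U = {v | v ∉ T ∧ ∀ D, IsComp .. D → ¬ Hv G Q k₀ D → v ∉ D}`.  `A` from X2 for `U`,
`(Q₁ ∪ Q₂) ∩ U`, `k` (`sep`: `Disjoint P Q` implies `Disjoint P (Q ∩ U)`).  `cl`: let `D` be a component of the
`K`-light vertices meeting `U`; it is not light (otherwise it would be disjoint from `U`), so `Hv G Q k₀ D`;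
its vertices are not in `T` (`T` is `K`-heavy) and not in a light (components are equal or disjoint):
`D ⊆ U`. -/
def S_X9c : Prop := ∀ (N m : ℕ) (r l : Fin N → ℕ) (W : Type) [Finite W] (Y : SimpleGraph W),
  CoBip Y → ∃ k f h τ₁ c k₀ K n₀ : ℕ, 1 ≤ c ∧ 1 ≤ n₀ ∧ ∀ (V : Type) [Finite V] (G : SimpleGraph V)
    (Q₁ Q₂ : Set V), ¬ IMS (DD N m) G Set.univ → ¬ IMS (TCg N m r l) G Set.univ →
    ¬ IMS Y G Set.univ → Bip G Q₁ Q₂ n₀ → ∃ T U A X : Set V, Cx G (Q₁ ∪ Q₂) U A c k₀ K k ∧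
      Lt G (Q₁ ∪ Q₂) T U k₀ K ∧ T.ncard ≤ τ₁ ∧ NoFar G (Q₁ ∪ Q₂) c h ∧ X.ncard ≤ f ∧
      ∀ v, Hv G (Q₁ ∪ Q₂) c {v} → ∃ x ∈ X, x = v ∨ G.Adj x v

/-- **X9.** The quotient structure.  (Uses `S_GK`, `S_U9`, `S_X9b`, `S_X9c`.)

Proof. X9c gives the numbers `k, f, h, τ₁, ..., n₀`; X9b gives `τ, k₁`; `n = n₀ + τ`; `S_U9` for `N, m, n, r, l`
gives `t₀`; `t = t₀ + τ`; `S_GK t g τ` gives `θ`.  As in the proof of `S_A1` (`B/SpecR.lean`, `B/A1.lean`):
no grid, so there is a deep model `B`; U9 gives `Q₁, Q₂`, and `DeepV G S τ Q₁`: for `|X| < τ` there is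
`a ∈ Q₁ \ X`; at least `n ≥ τ` sets `B j` are touched by `a`, they are disjoint, so one of them is disjoint
from `X`; with the `B i ⊆ C` of `Deep`, `C ∪ B j ∪ {a}`.  `Bip G Q₁ Q₂ n₀`, `Bip G Q₁ Q₂ 1` follow from
`n ≥ n₀ ≥ 1`. -/
def S_X9 : Prop := ∀ (N m : ℕ) (r l : Fin N → ℕ) (W : Type) [Finite W] (Y : SimpleGraph W)
  (g k' : ℕ), CoBip Y → ∃ θ τ k₁ : ℕ, ∀ (V : Type) [Finite V] (G : SimpleGraph V) (S : Set V),
    ClK N m r l Y g k' G → WL G S θ → 5 * θ ≤ S.ncard → QuoS G S τ k₁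

end Pool.Agent.MPd439b2.KS
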