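import Pool.Agent.Lib.MP_d439b2_co.KS.SpecU

/-!
# MP_d439b2_co, KS, U0: breadth first search tree
-/

set_option autoImplicit false

namespace Pool.Agent.MPd439b2.KS

namespace u0Aux

variable {V : Type} (G : SimpleGraph V) (D : Set V) (r : V)

/-- there is a walk of length `l` in `D` from `r` to `x` -/
def R : ℕ → V → Prop
  | 0, x => x = r
  | l + 1, x => x ∈ D ∧ ∃ y, R l y ∧ G.Adj y x

theorem R_mem (hr : r ∈ D) : ∀ l x, R G D r l x → x ∈ D := by
  intro l x h
  cases l with
  | zero =>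
    have h' : x = r := h
    rw [h']
    exact hr
  | succ l => exact h.1

theorem R_all (hD : Conn G D) (hr : r ∈ D) : ∀ x ∈ D, ∃ l, R G D r l x := by
  have h1 : {x | ∃ l, R G D r l x} = D := by
    refine hD.eq_of_nb ?_ ⟨r, 0, rfl⟩ ?_
    · rintro x ⟨l, hl⟩
      exact R_mem G D r hr l x hl
    · rintro v hv ⟨hv1, a, ⟨l, hl⟩, hav⟩
      exact hv1 ⟨l + 1, hv, a, hl, hav⟩
  intro x hx
  rw [← h1] at hx
  exact hx

open Classical in
/-- the distance from `r` in `D` -/
noncomputable def d (x : V) : ℕ := if h : ∃ l, R G D r l x then Nat.find h else 0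

theorem d_spec (hD : Conn G D) (hr : r ∈ D) (x : V) (hx : x ∈ D) : R G D r (d G D r x) x := by
  classical
  have h := R_all G D r hD hr x hx
  unfold d
  rw [dif_pos h]
  exact Nat.find_spec h

theorem d_le (l : ℕ) (x : V) (h : R G D r l x) : d G D r x ≤ l := by
  classical
  have h' : ∃ l, R G D r l x := ⟨l, h⟩
  unfold d
  rw [dif_pos h']
  exact Nat.find_min' h' h

end u0Aux

open u0Aux in
theorem u0 : S_U0 := by
  intro V _ G D r hD hr
  have hlast : ∀ x ∈ D, ∀ y ∈ D, G.Adj x y → d G D r x ≤ d G D r y + 1 := fun x hx y hy hxy =>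
    d_le G D r _ x ⟨hx, y, d_spec G D r hD hr y hy, hxy.symm⟩
  have hpi : ∀ x, ∃ y, x ∈ D → x ≠ r → y ∈ D ∧ G.Adj y x ∧ d G D r x = d G D r y + 1 := by
    intro x
    by_cases hx : x ∈ D ∧ x ≠ r
    · have h1 := d_spec G D r hD hr x hx.1
      cases hl : d G D r x with
      | zero =>
        rw [hl] at h1
        exact absurd h1 hx.2
      | succ l =>
        rw [hl] at h1
        obtain ⟨_, y, hy, hyx⟩ := h1
        have hyD := R_mem G D r hr l y hy
        refine ⟨y, fun _ _ => ⟨hyD, hyx, ?_⟩⟩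
        have h2 := d_le G D r l y hy
        have h3 := hlast x hx.1 y hyD hyx.symm
        omega
    · exact ⟨x, fun h1 h2 => absurd ⟨h1, h2⟩ hx⟩
  choose π hπ using hpi
  exact ⟨d G D r, π, Nat.le_zero.1 (d_le G D r 0 r rfl), fun x hx hxr => hπ x hx hxr, hlast⟩

end Pool.Agent.MPd439b2.KS
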