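import Pool.Agent.Lib.MP_d439b2_co.KS.SpecU

/-!
# MP_d439b2_co, Theorem K, U9: Theorem Q without the second excluded graph
-/

set_option autoImplicit false

namespace Pool.Agent.MPd439b2.KS

namespace u9Aux

theorem tch_single {V : Type} {G : SimpleGraph V} {x y : V} (h : Tch G {x} {y}) : G.Adj x y := by
  obtain ⟨a, ha, b, hb, hab⟩ := h
  rw [Set.mem_singleton_iff] at ha hb
  rw [← ha, ← hb]
  exact hab

theorem exists_enum (s : Finset ℕ) (a : ℕ) (h : a ≤ s.card) :
    ∃ f : ℕ → ℕ, (∀ i < a, f i ∈ s) ∧ ∀ i < a, ∀ j < a, f i = f j → i = j := by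
  obtain ⟨s', hs', hc⟩ := Finset.exists_subset_card_eq h
  let e := s'.orderEmbOfFin hc
  refine ⟨fun i => if hi : i < a then e ⟨i, hi⟩ else 0, fun i hi => ?_, fun i hi j hj hij => ?_⟩
  · simp only [hi, dif_pos]
    exact hs' (Finset.orderEmbOfFin_mem s' hc _)
  · simp only [hi, hj, dif_pos] at hij
    have h1 := e.injective hij
    exact congrArg Fin.val h1

end u9Aux

open u9Aux in
/-- **U9.** Theorem Q without the second excluded graph. -/
theorem u9 : (S_U6) → (S_U8) → S_U9 := by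
  classical
  intro hU6 hU8 N m n r l
  obtain ⟨a, p, hap⟩ := hU6 N m n r l
  obtain ⟨t₀, ht₀⟩ := hU8 N m (2 * n) p (a + 2 ^ p * n + n + 1)
  refine ⟨max t₀ 1, ?_⟩
  intro t ht V _ G B hDD hTC hM
  have ht1 : t₀ ≤ t := (le_max_left _ _).trans ht
  have ht2 : 1 ≤ t := (le_max_right _ _).trans ht
  have h0 : 0 ∈ Finset.range t := Finset.mem_range.2 ht2
  obtain ⟨z, hz⟩ := (hM.1 0 h0).1
  have : Nonempty V := ⟨z⟩
  obtain ⟨v, T, J, hT, hJ, hTJ, hL, hv, hcase⟩ := ht₀ V G (Finset.range t) B hDD hM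
    (by rw [Finset.card_range]; exact ht1)
  have hdisj : ∀ i ∈ Finset.range t, ∀ j ∈ Finset.range t, ∀ x, x ∈ B i → x ∈ B j → i = j := by
    intro i hi j hj x hxi hxj
    by_contra hne
    exact Set.disjoint_left.1 (hM.2 i hi j hj hne).1 hxi hxj
  have hinj : ∀ c ∈ T, ∀ c' ∈ T, v c = v c' → c = c' := by
    intro c hc c' hc' h
    apply hdisj c (hT hc) c' (hT hc') (v c) (hv c hc).1
    rw [h]
    exact (hv c' hc').1
  have htau : ∀ c ∈ T, n ≤ (tau G (Finset.range t) B {v c}).card := by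
    intro c hc
    have h1 : J ⊆ tau G (Finset.range t) B {v c} := by
      intro j hj
      rw [mem_tau]
      exact ⟨hJ hj, (hv c hc).2 j hj⟩
    have h2 := Finset.card_le_card h1
    omega
  rcases hcase with ⟨hTc, hadj⟩ | ⟨hTc, hnadj⟩
  · obtain ⟨T₁, hT₁, hc₁⟩ := Finset.exists_subset_card_eq (s := T) (n := n) (by omega)
    have hc₂ : (T \ T₁).card = n := by
      rw [Finset.card_sdiff_of_subset hT₁, hTc, hc₁]
      omega
    refine ⟨v '' (T₁ : Set ℕ), v '' ((T \ T₁ : Finset ℕ) : Set ℕ), ?_, ?_, ?_, ?_, ?_⟩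
    · rw [Set.disjoint_left]
      rintro x ⟨c, hc, rfl⟩ ⟨c', hc', h⟩
      rw [Finset.mem_coe] at hc hc'
      rw [Finset.mem_sdiff] at hc'
      have h1 := hinj c' hc'.1 c (hT₁ hc) h
      exact hc'.2 (h1 ▸ hc)
    · rw [Set.ncard_image_of_injOn (fun c hc c' hc' h =>
        hinj c (hT₁ (Finset.mem_coe.1 hc)) c' (hT₁ (Finset.mem_coe.1 hc')) h), Set.ncard_coe_finset,
        hc₁]
    · rw [Set.ncard_image_of_injOn (fun c hc c' hc' h =>
        hinj c (Finset.mem_sdiff.1 (Finset.mem_coe.1 hc)).1 c'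
          (Finset.mem_sdiff.1 (Finset.mem_coe.1 hc')).1 h), Set.ncard_coe_finset, hc₂]
    · rintro x ⟨c, hc, rfl⟩ y ⟨c', hc', rfl⟩
      rw [Finset.mem_coe] at hc hc'
      rw [Finset.mem_sdiff] at hc'
      exact hadj c (hT₁ hc) c' hc'.1 (fun h => hc'.2 (h ▸ hc))
    · rintro x ⟨c, hc, rfl⟩
      exact htau c (hT₁ (Finset.mem_coe.1 hc))
  · have hIV : IndV G v T := by
      refine ⟨hinj, ?_⟩
      intro c hc c' hc'
      by_cases hcc : c = c'
      · rw [hcc]
        exact G.irrefl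
      · exact hnadj c hc c' hc' hcc
    have hvB : ∀ j ∈ J, ∀ c ∈ T, v c ∉ B j := by
      intro j hj c hc h
      have h1 := hdisj c (hT hc) j (hJ hj) (v c) (hv c hc).1 h
      exact Finset.disjoint_left.1 hTJ hc (h1 ▸ hj)
    set good : Finset ℕ := J.filter
      (fun j => ∃ x ∈ B j, n < (tau G T (fun c => {v c}) {x}).card) with hgood
    have hbad : (J \ good).card < a := by
      by_contra hcon
      push Not at hcon
      obtain ⟨f, hf1, hf2⟩ := exists_enum (J \ good) a hcon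
      have hfJ : ∀ i < a, f i ∈ J := fun i hi => (Finset.mem_sdiff.1 (hf1 i hi)).1
      obtain ⟨j, hj, x, hx, hxn⟩ := hap V G (fun i => B (f i)) v T hDD hTC hIV
        (fun j hj => ⟨hM.1 _ (hJ (hfJ j hj)), fun c hc => ⟨hvB _ (hfJ j hj) c hc,
          ((hv c hc).2 _ (hfJ j hj)).symm⟩⟩)
        (fun i hi j hj hij => (hM.2 _ (hJ (hfJ i hi)) _ (hJ (hfJ j hj))
          (fun h => hij (hf2 i hi j hj h))).1) (le_of_eq hTc.symm)
      have h1 := (Finset.mem_sdiff.1 (hf1 j hj)).2
      apply h1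
      rw [hgood, Finset.mem_filter]
      exact ⟨hfJ j hj, x, hx, hxn⟩
    have hgc : T.powerset.card * n < good.card := by
      rw [Finset.card_powerset, hTc]
      have h1 : (J \ good).card + good.card = J.card :=
        Finset.card_sdiff_add_card_eq_card (Finset.filter_subset _ _)
      omega
    have hx : ∀ j, ∃ x, j ∈ good → x ∈ B j ∧ n < (tau G T (fun c => {v c}) {x}).card := by
      intro j
      by_cases hj : j ∈ good
      · obtain ⟨x, hx1, hx2⟩ := (Finset.mem_filter.1 hj).2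
        exact ⟨x, fun _ => ⟨hx1, hx2⟩⟩
      · exact ⟨z, fun h => absurd h hj⟩
    choose x hx using hx
    obtain ⟨A, hA, hAc⟩ := Finset.exists_lt_card_fiber_of_mul_lt_card_of_maps_to
      (f := fun j => tau G T (fun c => {v c}) {x j}) (s := good) (t := T.powerset) (n := n)
      (fun j _ => Finset.mem_powerset.2 (fun c hc => (mem_tau.1 hc).1)) hgc
    have hgJ : good ⊆ J := Finset.filter_subset _ _
    set F : Finset ℕ := good.filter (fun j => tau G T (fun c => {v c}) {x j} = A) with hF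
    have hFg : ∀ j ∈ F, j ∈ good := fun j hj => (Finset.mem_filter.1 hj).1
    have hFA : ∀ j ∈ F, tau G T (fun c => {v c}) {x j} = A := fun j hj => (Finset.mem_filter.1 hj).2
    have hAT : A ⊆ T := Finset.mem_powerset.1 hA
    have hAn : n < A.card := by
      obtain ⟨j, hj⟩ : F.Nonempty := by
        rw [← Finset.card_pos]
        omega
      rw [← hFA j hj]
      exact (hx j (hFg j hj)).2
    refine ⟨v '' (A : Set ℕ), x '' (F : Set ℕ), ?_, ?_, ?_, ?_, ?_⟩
    · rw [Set.disjoint_left]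
      rintro y ⟨c, hc, rfl⟩ ⟨j, hj, h⟩
      rw [Finset.mem_coe] at hc hj
      apply hvB j (hgJ (hFg j hj)) c (hAT hc)
      rw [← h]
      exact (hx j (hFg j hj)).1
    · rw [Set.ncard_image_of_injOn (fun c hc c' hc' h =>
        hinj c (hAT (Finset.mem_coe.1 hc)) c' (hAT (Finset.mem_coe.1 hc')) h), Set.ncard_coe_finset]
      exact hAn.le
    · rw [Set.ncard_image_of_injOn, Set.ncard_coe_finset]
      · exact hAc.le
      · intro j hj j' hj' h
        rw [Finset.mem_coe] at hj hj'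
        apply hdisj j (hJ (hgJ (hFg j hj))) j' (hJ (hgJ (hFg j' hj'))) (x j)
          (hx j (hFg j hj)).1
        have h' : x j = x j' := h
        rw [h']
        exact (hx j' (hFg j' hj')).1
    · rintro y ⟨c, hc, rfl⟩ w ⟨j, hj, rfl⟩
      rw [Finset.mem_coe] at hc hj
      rw [← hFA j hj, mem_tau] at hc
      exact (tch_single hc.2).symm
    · rintro y ⟨c, hc, rfl⟩
      exact htau c (hAT (Finset.mem_coe.1 hc))

end Pool.Agent.MPd439b2.KS
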