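import Pool.Agent.Lib.MP_d439b2_co.KS.SpecV

/-!
# MP_d439b2_co, Theorem K: a shattered clique
-/

set_option autoImplicit false

namespace Pool.Agent.MPd439b2.KS

namespace v9aAux

/-- singletons as branch sets -/
theorem ims_of_inj {V W : Type} {G : SimpleGraph V} {H : SimpleGraph W} (φ : W → V)
    (hφ : Function.Injective φ) (h : ∀ w w', w ≠ w' → (H.Adj w w' ↔ G.Adj (φ w) (φ w'))) :
    IMS H G Set.univ := by
  refine ⟨fun w => {φ w}, fun _ => Set.subset_univ _, fun w => Conn.singleton G _, ?_, ?_⟩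
  · intro w w' hw
    exact Set.disjoint_singleton.mpr fun h' => hw (hφ h')
  · intro w w' hw
    rw [h w w' hw]
    constructor
    · intro h'
      exact ⟨_, rfl, _, rfl, h'⟩
    · rintro ⟨a, ha, b, hb, hab⟩
      rw [Set.mem_singleton_iff] at ha hb
      rwa [ha, hb] at hab

/-- nonempty subsets of cliques are connected -/
theorem conn_of_clique {V : Type} {G : SimpleGraph V} {U : Finset V}
    (hU : ∀ u ∈ U, ∀ v ∈ U, u ≠ v → G.Adj u v) {A : Set V} (hA : ∀ a ∈ A, a ∈ U)
    (hne : A.Nonempty) : Conn G A := by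
  refine ⟨hne, fun B hB hBne hBA => ?_⟩
  obtain ⟨b, hb⟩ := hBne
  obtain ⟨a, ha, haB⟩ : ∃ a ∈ A, a ∉ B := by
    by_contra h
    push Not at h
    exact hBA (Set.Subset.antisymm hB h)
  refine ⟨b, hb, a, ⟨ha, haB⟩, hU b (hA b (hB hb)) a (hA a ha) ?_⟩
  rintro rfl
  exact haB hb

/-- the vertices `x i` -/
theorem exists_x {V : Type} {G : SimpleGraph V} {U : Finset V}
    (hU : ∀ u ∈ U, ∀ v ∈ U, u ≠ v → G.Adj u v) (hS : Shat (Rn G) U) {M e L : ℕ}
    (f : (Fin M × Fin e) ⊕ Fin (L + 1) → V) (hf : Function.Injective f) (hfU : ∀ i, f i ∈ U) :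
    ∃ x : Fin M → V, (∀ i, x i ∉ U) ∧
      ∀ i, ∀ u ∈ U, (G.Adj (x i) u ↔ ∃ c : Fin e, u = f (Sum.inl (i, c))) := by
  classical
  have h : ∀ i : Fin M, ∃ x : V, x ∉ U ∧
      ∀ u ∈ U, (G.Adj x u ↔ ∃ c : Fin e, u = f (Sum.inl (i, c))) := by
    intro i
    obtain ⟨x, hx⟩ := hS (Finset.univ.image fun c : Fin e => f (Sum.inl (i, c))) (by
      intro u hu
      rw [Finset.mem_image] at hu
      obtain ⟨c, _, rfl⟩ := hu
      exact hfU _)
    have hx' : ∀ u ∈ U, (Rn G x u ↔ ∃ c : Fin e, u = f (Sum.inl (i, c))) := by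
      intro u hu
      rw [hx u hu, Finset.mem_image]
      constructor
      · rintro ⟨c, _, h⟩
        exact ⟨c, h.symm⟩
      · rintro ⟨c, h⟩
        exact ⟨c, Finset.mem_univ _, h.symm⟩
    have hxU : x ∉ U := by
      intro hxU
      have h1 : Rn G x (f (Sum.inr 0)) := by
        by_cases h2 : x = f (Sum.inr 0)
        · exact Or.inl h2
        · exact Or.inr (hU x hxU _ (hfU _) h2)
      obtain ⟨c, hc⟩ := (hx' _ (hfU _)).mp h1
      exact absurd (hf hc) (by simp)
    refine ⟨x, hxU, fun u hu => ?_⟩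
    rw [← hx' u hu]
    constructor
    · intro h
      exact Or.inr h
    · rintro (h | h)
      · exact absurd (h ▸ hu) hxU
      · exact h
  choose x h1 h2 using h
  exact ⟨x, h1, h2⟩

theorem case1 {V : Type} {G : SimpleGraph V} {U : Finset V}
    (hU : ∀ u ∈ U, ∀ v ∈ U, u ≠ v → G.Adj u v) {M e L N m : ℕ}
    (f : (Fin M × Fin e) ⊕ Fin (L + 1) → V) (hf : Function.Injective f) (hfU : ∀ i, f i ∈ U)
    (x : Fin M → V) (hxU : ∀ i, x i ∉ U) (hx : Function.Injective x)
    (hxu : ∀ i, ∀ u ∈ U, (G.Adj (x i) u ↔ ∃ c : Fin e, u = f (Sum.inl (i, c))))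
    (he : 2 ≤ e) (hL : N ≤ L + 1) (t : Fin m → Fin M) (ht : Function.Injective t)
    (hT : ∀ q q', q ≠ q' → ¬ G.Adj (x (t q)) (x (t q'))) : IMS (DD N m) G Set.univ := by
  let idx : Fin N → (Fin M × Fin e) ⊕ Fin (L + 1) := fun i =>
    if h : i.val < 2 * m then Sum.inl (t ⟨i.val / 2, by omega⟩, ⟨i.val % 2, by omega⟩)
    else Sum.inr ⟨i.val, by omega⟩
  have hidx1 : ∀ i : Fin N, ∀ h : i.val < 2 * m,
      idx i = Sum.inl (t ⟨i.val / 2, by omega⟩, ⟨i.val % 2, by omega⟩) := by
    intro i h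
    simp only [idx, dif_pos h]
  have hidx2 : ∀ i : Fin N, ¬ i.val < 2 * m → idx i = Sum.inr ⟨i.val, by omega⟩ := by
    intro i h
    simp only [idx, dif_neg h]
  have hidx : Function.Injective idx := by
    intro i j hij
    by_cases hi : i.val < 2 * m <;> by_cases hj : j.val < 2 * m
    · rw [hidx1 i hi, hidx1 j hj] at hij
      have h1 := Sum.inl_injective hij
      rw [Prod.mk.injEq] at h1
      have h2 := ht h1.1
      rw [Fin.mk.injEq] at h2
      have h3 := h1.2
      rw [Fin.mk.injEq] at h3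
      apply Fin.ext
      omega
    · rw [hidx1 i hi, hidx2 j hj] at hij
      exact absurd hij (by simp)
    · rw [hidx2 i hi, hidx1 j hj] at hij
      exact absurd hij (by simp)
    · rw [hidx2 i hi, hidx2 j hj] at hij
      have h1 := Sum.inr_injective hij
      rw [Fin.mk.injEq] at h1
      exact Fin.ext h1
  let φ : Fin N ⊕ Fin m → V := Sum.elim (fun i => f (idx i)) (fun q => x (t q))
  have hφ : Function.Injective φ := by
    rintro (i | q) (j | q') h
    · exact congrArg Sum.inl (hidx (hf h))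
    · exact absurd (show x (t q') ∈ U by
        have h1 : f (idx i) = x (t q') := h
        rw [← h1]; exact hfU _) (hxU _)
    · exact absurd (show x (t q) ∈ U by
        have h1 : x (t q) = f (idx j) := h
        rw [h1]; exact hfU _) (hxU _)
    · exact congrArg Sum.inr (ht (hx h))
  have key : ∀ (i : Fin N) (q : Fin m), (i.val = 2 * q.val ∨ i.val = 2 * q.val + 1) ↔
      G.Adj (x (t q)) (f (idx i)) := by
    intro i q
    have hq := q.2
    rw [hxu (t q) _ (hfU _)]
    constructor
    · intro h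
      have hi : i.val < 2 * m := by omega
      refine ⟨⟨i.val % 2, by omega⟩, ?_⟩
      rw [hidx1 i hi]
      have : (⟨i.val / 2, by omega⟩ : Fin m) = q := by
        apply Fin.ext
        show i.val / 2 = q.val
        omega
      rw [this]
    · rintro ⟨c, hc⟩
      have h1 := hf hc
      by_cases hi : i.val < 2 * m
      · rw [hidx1 i hi] at h1
        have h2 := Sum.inl_injective h1
        rw [Prod.mk.injEq] at h2
        have h3 := ht h2.1
        have h4 : i.val / 2 = q.val := congrArg Fin.val h3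
        omega
      · rw [hidx2 i hi] at h1
        exact absurd h1 (by simp)
  refine ims_of_inj φ hφ ?_
  rintro (i | q) (j | q') hne
  · have hij : i ≠ j := fun h => hne (congrArg Sum.inl h)
    constructor
    · intro _
      exact hU _ (hfU _) _ (hfU _) fun h => hij (hidx (hf h))
    · intro _
      exact hij
  · exact (key i q').trans (G.adj_comm _ _)
  · exact key j q
  · have hq : q ≠ q' := fun h => hne (congrArg Sum.inr h)
    constructor
    · intro h
      exact h.elim
    · intro h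
      exact hT q q' hq h

theorem case2 {V : Type} {G : SimpleGraph V} {U : Finset V}
    (hU : ∀ u ∈ U, ∀ v ∈ U, u ≠ v → G.Adj u v) {M e L : ℕ}
    (f : (Fin M × Fin e) ⊕ Fin (L + 1) → V) (hf : Function.Injective f) (hfU : ∀ i, f i ∈ U)
    (x : Fin M → V) (hxU : ∀ i, x i ∉ U) (hx : Function.Injective x)
    (hxu : ∀ i, ∀ u ∈ U, (G.Adj (x i) u ↔ ∃ c : Fin e, u = f (Sum.inl (i, c))))
    {W : Type} (Y : SimpleGraph W) (hY : CoBip Y) (en : W → Fin e) (hen : Function.Injective en)
    (en' : W → Fin (L + 1)) (hen' : Function.Injective en')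
    (t : W → Fin M) (ht : Function.Injective t)
    (hT : ∀ q q', q ≠ q' → G.Adj (x (t q)) (x (t q'))) : IMS Y G Set.univ := by
  classical
  obtain ⟨K, hK1, hK2⟩ := hY
  let B : W → Set V := fun w => if w ∈ K then
    {u | u = f (Sum.inr (en' w)) ∨ ∃ j, j ∉ K ∧ Y.Adj w j ∧ u = f (Sum.inl (t j, en w))}
    else {x (t w)}
  have hB1 : ∀ w ∈ K, B w =
      {u | u = f (Sum.inr (en' w)) ∨ ∃ j, j ∉ K ∧ Y.Adj w j ∧ u = f (Sum.inl (t j, en w))} := by
    intro w hw
    simp only [B, if_pos hw]
  have hB2 : ∀ w, w ∉ K → B w = {x (t w)} := by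
    intro w hw
    simp only [B, if_neg hw]
  have hBU : ∀ w ∈ K, ∀ u ∈ B w, u ∈ U := by
    intro w hw u hu
    rw [hB1 w hw] at hu
    rcases hu with hu | ⟨j, _, _, hu⟩
    · rw [hu]; exact hfU _
    · rw [hu]; exact hfU _
  have hBr : ∀ w ∈ K, f (Sum.inr (en' w)) ∈ B w := by
    intro w hw
    rw [hB1 w hw]
    exact Or.inl rfl
  have hdis : ∀ w ∈ K, ∀ j, j ∉ K → Disjoint (B w) (B j) := by
    intro w hw j hj
    rw [hB2 j hj, Set.disjoint_singleton_right]
    exact fun h => hxU _ (hBU w hw _ h)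
  have key : ∀ w ∈ K, ∀ j, j ∉ K → (Y.Adj w j ↔ Tch G (B w) (B j)) := by
    intro w hw j hj
    rw [hB2 j hj]
    constructor
    · intro h
      have h1 : f (Sum.inl (t j, en w)) ∈ B w := by
        rw [hB1 w hw]
        exact Or.inr ⟨j, hj, h, rfl⟩
      exact ⟨_, h1, _, rfl, ((hxu (t j) _ (hfU _)).mpr ⟨en w, rfl⟩).symm⟩
    · rintro ⟨u, hu, v, hv, huv⟩
      rw [Set.mem_singleton_iff] at hv
      subst hv
      obtain ⟨c, hc⟩ := (hxu (t j) u (hBU w hw u hu)).mp huv.symm
      rw [hB1 w hw] at hu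
      rcases hu with hu | ⟨j', hj', hwj', hu⟩
      · rw [hu] at hc
        exact absurd (hf hc) (by simp)
      · rw [hu] at hc
        have h1 := Sum.inl_injective (hf hc)
        rw [Prod.mk.injEq] at h1
        have h2 := ht h1.1
        rw [← h2]
        exact hwj'
  refine ⟨B, fun _ => Set.subset_univ _, ?_, ?_, ?_⟩
  · intro w
    by_cases hw : w ∈ K
    · exact conn_of_clique hU (hBU w hw) ⟨_, hBr w hw⟩
    · rw [hB2 w hw]
      exact Conn.singleton G _
  · intro w w' hne
    by_cases hw : w ∈ K <;> by_cases hw' : w' ∈ K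
    · rw [Set.disjoint_left]
      intro u hu hu'
      rw [hB1 w hw] at hu
      rw [hB1 w' hw'] at hu'
      rcases hu with hu | ⟨j, _, _, hu⟩ <;> rcases hu' with hu' | ⟨j', _, _, hu'⟩
      · rw [hu] at hu'
        exact hne (hen' (Sum.inr_injective (hf hu')))
      · rw [hu] at hu'
        exact absurd (hf hu') (by simp)
      · rw [hu] at hu'
        exact absurd (hf hu') (by simp)
      · rw [hu] at hu'
        have h1 := Sum.inl_injective (hf hu')
        rw [Prod.mk.injEq] at h1
        exact hne (hen h1.2)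
    · exact hdis w hw w' hw'
    · exact (hdis w' hw' w hw).symm
    · rw [hB2 w hw, hB2 w' hw']
      exact Set.disjoint_singleton.mpr fun h => hne (ht (hx h))
  · intro w w' hne
    by_cases hw : w ∈ K <;> by_cases hw' : w' ∈ K
    · refine iff_of_true (hK1 w hw w' hw' hne) ?_
      exact ⟨_, hBr w hw, _, hBr w' hw', hU _ (hfU _) _ (hfU _) fun h =>
        hne (hen' (Sum.inr_injective (hf h)))⟩
    · exact key w hw w' hw'
    · rw [Y.adj_comm, key w' hw' w hw]
      exact tch_comm
    · refine iff_of_true (hK2 w hw w' hw' hne) ?_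
      rw [hB2 w hw, hB2 w' hw']
      exact ⟨_, rfl, _, rfl, hT w w' hne⟩

end v9aAux

open v9aAux in
theorem v9a : (S_Ram) → (S_DDd) → S_V9a := by
  intro hRam _ N m W _ Y hY
  classical
  let w := Nat.card W
  obtain ⟨M, hM⟩ := hRam w m
  let e := w + 2
  let L := w + N
  refine ⟨M * e + (L + 1), fun V G hDD hYG U hd hU hS => ?_⟩
  have hcard : Fintype.card ((Fin M × Fin e) ⊕ Fin (L + 1)) ≤ Fintype.card {u // u ∈ U} := by
    rw [Fintype.card_sum, Fintype.card_prod, Fintype.card_fin, Fintype.card_fin, Fintype.card_fin,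
      Fintype.card_coe]
    exact hd
  obtain ⟨F⟩ := Function.Embedding.nonempty_of_card_le hcard
  let f : (Fin M × Fin e) ⊕ Fin (L + 1) → V := fun i => (F i).1
  have hf : Function.Injective f := fun i j h => F.injective (Subtype.ext h)
  have hfU : ∀ i, f i ∈ U := fun i => (F i).2
  obtain ⟨x, hxU, hxu⟩ := exists_x hU hS f hf hfU
  have he : 0 < e := by omega
  have hx : Function.Injective x := by
    intro i j hij
    have h1 : G.Adj (x i) (f (Sum.inl (i, ⟨0, he⟩))) := (hxu i _ (hfU _)).mpr ⟨_, rfl⟩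
    rw [hij] at h1
    obtain ⟨c, hc⟩ := (hxu j _ (hfU _)).mp h1
    have h2 := Sum.inl_injective (hf hc)
    rw [Prod.mk.injEq] at h2
    exact h2.1
  rcases hM (Fin M) Finset.univ (fun i j => G.Adj (x i) (x j)) (fun i j h => h.symm)
    (by rw [Finset.card_univ, Fintype.card_fin]) with ⟨T, _, hTc, hT⟩ | ⟨T, _, hTc, hT⟩
  · apply hYG
    have hW : W ≃ Fin w := Finite.equivFin W
    have hT' : Fin w ≃ {i // i ∈ T} := (T.equivFin.trans (finCongr hTc)).symm
    let t : W → Fin M := fun v => (hT' (hW v)).1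
    have ht : Function.Injective t := fun a b h =>
      hW.injective (hT'.injective (Subtype.ext h))
    refine case2 hU f hf hfU x hxU hx hxu Y hY
      (fun v => ⟨(hW v).val, by have := (hW v).2; omega⟩) ?_
      (fun v => ⟨(hW v).val, by have := (hW v).2; omega⟩) ?_ t ht ?_
    · intro a b h
      rw [Fin.mk.injEq] at h
      exact hW.injective (Fin.ext h)
    · intro a b h
      rw [Fin.mk.injEq] at h
      exact hW.injective (Fin.ext h)
    · intro q q' hq
      exact hT (t q) (hT' (hW q)).2 (t q') (hT' (hW q')).2 fun h => hq (ht h)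
  · apply hDD
    have hT' : Fin m ≃ {i // i ∈ T} := (T.equivFin.trans (finCongr hTc)).symm
    let t : Fin m → Fin M := fun v => (hT' v).1
    have ht : Function.Injective t := fun a b h => hT'.injective (Subtype.ext h)
    exact case1 hU f hf hfU x hxU hx hxu (by omega) (by omega) t ht fun q q' hq =>
      hT (t q) (hT' q).2 (t q') (hT' q').2 fun h => hq (ht h)

end Pool.Agent.MPd439b2.KS
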