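import Pool.Agent.Lib.MP_d439b2_co.KS.SpecX

/-!
# MP_d439b2_co, KS, X8: the hub
-/

set_option autoImplicit false

namespace Pool.Agent.MPd439b2.KS

namespace x8Aux

theorem ncard_bU {α β : Type} [Finite β] {E : Set α} (hE : E.Finite) (f : α → Set β) (n : ℕ)
    (h : ∀ e ∈ E, (f e).ncard ≤ n) : {b | ∃ e ∈ E, b ∈ f e}.ncard ≤ E.ncard * n := by
  classical
  obtain ⟨s, rfl⟩ := hE.exists_finset_coe
  rw [Set.ncard_coe_finset]
  induction s using Finset.induction_on with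
  | empty => simp
  | insert a s ha ih =>
    have e1 : {b | ∃ e ∈ (↑(insert a s) : Set α), b ∈ f e} = f a ∪ {b | ∃ e ∈ (↑s : Set α), b ∈ f e} := by
      ext b
      simp
    rw [e1, Finset.card_insert_of_notMem ha]
    refine (Set.ncard_union_le _ _).trans ?_
    have h1 := h a (by simp)
    have h2 := ih (s.finite_toSet) (fun e he => h e (by
      rw [Finset.coe_insert]
      exact Set.mem_insert_of_mem _ he))
    calc (f a).ncard + {b | ∃ e ∈ (↑s : Set α), b ∈ f e}.ncard ≤ n + s.card * n := Nat.add_le_add h1 h2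
      _ = (s.card + 1) * n := by ring

theorem one_le {V ι : Type} [Finite ι] {Wt : ι → Set V}
    (hdis : ∀ i j, i ≠ j → Disjoint (Wt i) (Wt j)) (y : V) : {i | y ∈ Wt i}.ncard ≤ 1 := by
  rw [Set.ncard_le_one]
  intro i hi j hj
  by_contra hne
  exact Set.disjoint_left.1 (hdis i j hne) hi hj

end x8Aux

open x8Aux in
theorem x8 (h8a : S_X8a) : S_X8 := by
  classical
  intro V _ G Q₁ Q₂ X c h ι _ Wt hc hB hfar hX hWt hdis
  have h1 : Q₁.Nonempty := by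
    rw [Set.nonempty_iff_ne_empty]
    rintro rfl
    have := hB.2.1
    rw [Set.ncard_empty] at this
    omega
  have h2 : Q₂.Nonempty := by
    rw [Set.nonempty_iff_ne_empty]
    rintro rfl
    have := hB.2.2.1
    rw [Set.ncard_empty] at this
    omega
  obtain ⟨q₁, hq₁⟩ := h1
  obtain ⟨q₂, hq₂⟩ := h2
  have hadj := hB.2.2.2
  obtain ⟨X', hX'⟩ : ∃ X' : Set V, X' = {x | x ∈ X ∧ ∃ v, Hv G (Q₁ ∪ Q₂) c {v} ∧ (x = v ∨ G.Adj x v)} :=
    ⟨_, rfl⟩
  have hY : ∀ x : V, ∃ Y : Set V, x ∈ X' → Conn G Y ∧ x ∈ Y ∧ (Y ∩ (Q₁ ∪ Q₂)).Nonempty ∧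
      {i | (Wt i ∩ Y).Nonempty}.ncard ≤ 3 * h + 3 := by
    intro x
    by_cases hx : x ∈ X'
    · have hx' := hx
      rw [hX'] at hx'
      obtain ⟨-, v, hv, hxv⟩ := hx'
      obtain ⟨C, hC, -, ⟨w, hwC, hw⟩, q, hq, hqQ⟩ := hv ∅ (by rw [Set.ncard_empty]; omega) (by simp)
      rw [Set.mem_singleton_iff] at hw
      subst hw
      have hCx : ∃ C, Conn G C ∧ x ∈ C ∧ (C ∩ (Q₁ ∪ Q₂)).Nonempty := by
        rcases hxv with rfl | hxv
        · exact ⟨C, hC, hwC, q, hq, hqQ⟩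
        · exact ⟨insert x C, hC.insert ⟨w, hwC, hxv.symm⟩, Set.mem_insert _ _, q,
            Set.mem_insert_of_mem _ hq, hqQ⟩
      obtain ⟨Y, hY⟩ := h8a V G (Q₁ ∪ Q₂) c h ι Wt hfar hWt hdis x hCx
      exact ⟨Y, fun _ => hY⟩
    · exact ⟨∅, fun h => absurd h hx⟩
  choose Y hY using hY
  have hq12 : G.Adj q₁ q₂ := hadj q₁ hq₁ q₂ hq₂
  refine ⟨{q₁, q₂} ∪ ⋃ x : {x // x ∈ X'}, Y x.1, ?_, ?_, ?_⟩
  · refine (Conn.pair hq12).union_iUnion (fun x => (hY x.1 x.2).1) (fun x => Or.inr ?_)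
    obtain ⟨q, hq, hqQ | hqQ⟩ := (hY x.1 x.2).2.2.1
    · exact ⟨q₂, by simp, q, hq, (hadj q hqQ q₂ hq₂).symm⟩
    · exact ⟨q₁, by simp, q, hq, hadj q₁ hq₁ q hqQ⟩
  · have hsub : {i | (Wt i ∩ ({q₁, q₂} ∪ ⋃ x : {x // x ∈ X'}, Y x.1)).Nonempty} ⊆
        ({i | q₁ ∈ Wt i} ∪ {i | q₂ ∈ Wt i}) ∪ {i | ∃ x ∈ X', i ∈ {i | (Wt i ∩ Y x).Nonempty}} := by
      rintro i ⟨v, hv, hv' | hv'⟩
      · left
        rcases hv' with hv' | hv'
        · left
          rw [← hv']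
          exact hv
        · right
          rw [Set.mem_singleton_iff] at hv'
          rw [← hv']
          exact hv
      · right
        obtain ⟨x, hx⟩ := Set.mem_iUnion.1 hv'
        exact ⟨x.1, x.2, v, hv, hx⟩
    refine (Set.ncard_le_ncard hsub (Set.toFinite _)).trans ((Set.ncard_union_le _ _).trans ?_)
    have e1 := Set.ncard_union_le {i | q₁ ∈ Wt i} {i | q₂ ∈ Wt i}
    have e2 := one_le hdis q₁
    have e3 := one_le hdis q₂
    have e4 := ncard_bU (Set.toFinite X') (fun x => {i | (Wt i ∩ Y x).Nonempty}) (3 * h + 3)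
      (fun x hx => (hY x hx).2.2.2)
    have e5 : X'.ncard ≤ X.ncard := Set.ncard_le_ncard (by
      rw [hX']
      exact fun x hx => hx.1) (Set.toFinite _)
    have e6 : X'.ncard * (3 * h + 3) ≤ X.ncard * (3 * h + 3) := Nat.mul_le_mul_right _ e5
    omega
  · intro i hi
    obtain ⟨-, v, hv, hvH⟩ := hWt i
    obtain ⟨x, hxX, hxv⟩ := hX v hvH
    have hxX' : x ∈ X' := by
      rw [hX']
      exact ⟨hxX, v, hvH, hxv⟩
    have hx0 : x ∈ {q₁, q₂} ∪ ⋃ x : {x // x ∈ X'}, Y x.1 :=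
      Or.inr (Set.mem_iUnion.2 ⟨⟨x, hxX'⟩, (hY x hxX').2.1⟩)
    rcases hxv with rfl | hxv
    · exact absurd hx0 (Set.disjoint_left.1 hi hv)
    · exact ⟨x, hx0, v, hv, hxv⟩

end Pool.Agent.MPd439b2.KS
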