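import Pool.Agent.Lib.MP_d439b2_co.KS.SpecY
import Pool.Agent.Lib.MP_d439b2_co.B.Rec
import Pool.Agent.Lib.MP_d439b2_co.B.Restr

/-!
# MP_d439b2_co, Theorem K, Y6: the class `ClK` is closed under restriction
-/

set_option autoImplicit false

namespace Pool.Agent.MPd439b2.KS

open recBAux in
theorem pY6 : S_Y6 := by
  intro N m r l W Y g k' hN hm hg hTC hY V G X hG
  have hR : S_Restr := restrIMS
  refine ⟨fun h => hG.1 (hR V _ G _ X (hasNb_DD hN hm) h),
    fun h => hG.2.1 (hR V _ G _ X hTC h), fun h => hG.2.2.1 (hR V _ G _ X hY h),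
    fun h => hG.2.2.2.1 (hR V _ G _ X (hasNb_grid hg) h), ?_⟩
  intro U _ Γ h
  rcases isEmpty_or_nonempty U with hU | hU
  · have h1 : (Set.univ : Set U) = ∅ := Set.univ_eq_empty_iff.mpr hU
    rw [h1]
    exact Lay.empty
  · apply hG.2.2.2.2 U Γ
    apply hR V _ G _ X ?_ h
    rintro (_ | u)
    · obtain ⟨u⟩ := hU
      exact ⟨some u, trivial⟩
    · exact ⟨none, trivial⟩

end Pool.Agent.MPd439b2.KS
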